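import Pool.Agent.MP_855f4c_ag.CC.Cb

set_option linter.all false

section

/-! h92c, section P: patching. -/

open Polynomial
open scoped BoundedContinuousFunction

namespace Pool.Agent.MP_855f4c_ag.Pat

section gauss
variable {F : Type} [NormedField F] [IsUltrametricDist F]

theorem sub_le (x y : F) : ‖x - y‖ ≤ max ‖x‖ ‖y‖ := by
  simpa [sub_eq_add_neg] using IsUltrametricDist.norm_add_le_max x (-y)

theorem sub_eq {x y : F} (h : ‖x‖ ≠ ‖y‖) : ‖x - y‖ = max ‖x‖ ‖y‖ := by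
  simpa [sub_eq_add_neg] using
    IsUltrametricDist.norm_add_eq_max_of_norm_ne_norm (x := x) (y := -y) (by simpa using h)

theorem coeff_prod_le (m : Multiset F) (k : ℕ) :
    ‖(m.map fun r => X - C r).prod.coeff k‖ ≤ (m.map fun r => max 1 ‖r‖).prod := by
  induction m using Multiset.induction_on generalizing k with
  | empty => by_cases h : k = 0 <;> simp [coeff_one, h]
  | cons r m ih =>
    have h0 : 0 ≤ (m.map fun r => max 1 ‖r‖).prod := (norm_nonneg _).trans (ih 0)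
    rw [Multiset.map_cons, Multiset.prod_cons, Multiset.map_cons, Multiset.prod_cons, sub_mul,
      coeff_sub, coeff_C_mul]
    refine (sub_le _ _).trans (max_le ?_ ?_)
    · refine le_trans ?_ (le_mul_of_one_le_left h0 (le_max_left _ _))
      rcases k with _ | k
      · simpa using h0
      · rw [coeff_X_mul]; exact ih k
    · rw [norm_mul]
      exact mul_le_mul (le_max_right _ _) (ih k) (norm_nonneg _) (by positivity)

variable [IsAlgClosed F]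

theorem eval_eq (f : F[X]) (t : F) (h : ∀ r ∈ f.roots, ‖t - r‖ = max 1 ‖r‖) :
    ‖f.eval t‖ = ‖f.leadingCoeff‖ * (f.roots.map fun r => max 1 ‖r‖).prod := by
  conv_lhs => rw [(IsAlgClosed.splits f).eq_prod_roots]
  rw [eval_mul, eval_C, norm_mul, eval_multiset_prod, Multiset.map_map]
  congr 1
  rw [← Multiset.map_congr rfl h]
  simpa using map_multiset_prod (normHom (α := F)) (f.roots.map fun r => t - r)

theorem coeff_le (f : F[X]) (k : ℕ) :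
    ‖f.coeff k‖ ≤ ‖f.leadingCoeff‖ * (f.roots.map fun r => max 1 ‖r‖).prod := by
  conv_lhs => rw [(IsAlgClosed.splits f).eq_prod_roots]
  rw [coeff_C_mul, norm_mul]
  exact mul_le_mul_of_nonneg_left (coeff_prod_le _ _) (norm_nonneg _)

theorem gen (m : Multiset F) : ∃ t : F, ‖t‖ = 1 ∧ ∀ r ∈ m, ‖t - r‖ = max 1 ‖r‖ := by
  classical
  let s : Finset F := insert 0 (m.toFinset.filter fun r => ‖r‖ ≤ 1)
  have hs : ∀ r ∈ s, ‖r‖ ≤ 1 := by
    intro r hr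
    rcases Finset.mem_insert.1 hr with rfl | hr
    · simp
    · exact (Finset.mem_filter.1 hr).2
  have hd : (∏ r ∈ s, (X - C r) - 1 : F[X]).degree ≠ 0 := by
    have h1 : (∏ r ∈ s, (X - C r) : F[X]).degree = s.card := by
      rw [degree_prod]; simp
    have h2 : 0 < s.card := Finset.card_pos.2 ⟨0, Finset.mem_insert_self _ _⟩
    rw [degree_sub_eq_left_of_degree_lt (by rw [h1, degree_one]; exact_mod_cast h2), h1]
    exact_mod_cast h2.ne'
  obtain ⟨t, ht⟩ := IsAlgClosed.exists_root _ hd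
  have h1 : ∏ r ∈ s, ‖t - r‖ = 1 := by
    have : ∏ r ∈ s, (t - r) = 1 := by simpa [eval_prod, sub_eq_zero] using ht
    rw [← norm_prod, this, norm_one]
  have h2 : ‖t‖ ≤ 1 := by
    by_contra h
    have h := not_le.1 h
    have : ∀ r ∈ s, 1 < ‖t - r‖ := fun r hr => by
      rw [sub_eq ((hs r hr).trans_lt h).ne']; exact h.trans_le (le_max_left _ _)
    have h3 := Finset.prod_lt_prod_of_nonempty (f := fun _ => (1 : ℝ)) (fun _ _ => one_pos) this
      ⟨0, Finset.mem_insert_self _ _⟩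
    simp [h1] at h3
  have h3 : ∀ r ∈ s, ‖t - r‖ = 1 := by
    intro r hr
    by_contra h
    have hl : ∀ r ∈ s, ‖t - r‖ ≤ 1 := fun r hr => (sub_le _ _).trans (max_le h2 (hs r hr))
    have h4 : ∏ r ∈ s.erase r, ‖t - r‖ ≤ 1 :=
      Finset.prod_le_one (fun _ _ => norm_nonneg _) fun x hx => hl x (Finset.mem_of_mem_erase hx)
    rw [← Finset.mul_prod_erase s _ hr] at h1
    have := mul_le_mul_of_nonneg_left h4 (norm_nonneg (t - r))
    exact h (le_antisymm (hl r hr) (by linarith))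
  have h4 : ‖t‖ = 1 := by simpa using h3 0 (Finset.mem_insert_self _ _)
  refine ⟨t, h4, fun r hr => ?_⟩
  rcases le_or_gt ‖r‖ 1 with h | h
  · rw [max_eq_left h]
    exact h3 r (Finset.mem_insert_of_mem (Finset.mem_filter.2 ⟨Multiset.mem_toFinset.2 hr, h⟩))
  · rw [sub_eq (h4.trans_lt h).ne, h4]

theorem co {Δ : F[X]} (h : Δ ≠ 0) : ∃ γ : ℝ, 0 < γ ∧ ∀ (c : F[X]) (K : ℝ),
    (∀ t : F, ‖t‖ = 1 → ‖Δ.eval t * c.eval t‖ ≤ K) → ∀ k, γ * ‖c.coeff k‖ ≤ K := by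
  refine ⟨‖Δ.leadingCoeff‖ * (Δ.roots.map fun r => max 1 ‖r‖).prod, ?_, fun c K hK k => ?_⟩
  · exact (norm_pos_iff.2 (leadingCoeff_ne_zero.2 h)).trans_le (coeff_le Δ _)
  · obtain ⟨t, ht, hr⟩ := gen (Δ.roots + c.roots)
    refine le_trans ?_ (hK t ht)
    rw [norm_mul, eval_eq Δ t fun r h => hr r (Multiset.mem_add.2 (.inl h)),
      eval_eq c t fun r h => hr r (Multiset.mem_add.2 (.inr h))]
    exact mul_le_mul_of_nonneg_left (coeff_le c k) ((norm_nonneg _).trans (coeff_le Δ 0))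

theorem nz {f : F[X]} (h : ∀ t : F, ‖t‖ = 1 → f.eval t ≠ 0) {t t' : F} (ht : ‖t‖ = 1)
    (ht' : ‖t'‖ = 1) : ‖f.eval t‖ = ‖f.eval t'‖ := by
  have : ∀ t : F, ‖t‖ = 1 → ∀ r ∈ f.roots, ‖t - r‖ = max 1 ‖r‖ := fun t ht r hr => by
    rw [sub_eq (fun e => h r (e.symm.trans ht) (isRoot_of_mem_roots hr)), ht]
  rw [eval_eq f t (this t ht), eval_eq f t' (this t' ht')]

end gauss

/-- The data of the patching theorem. -/
structure Dat (F S J G : Type) [NormedField F] [CommRing S] [Algebra F S] [DecidableEq J]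
    [Fintype G] where
  T : Sˣ
  O : Subalgebra F S
  hT : (T : S) ∈ O
  β : Module.Basis (ℤ × J) F S
  σ : G → S →ₐ[F] S
  η : J → S
  Δ : F[X]
  hβ : ∀ i j, β (i, j) = ((T ^ i : Sˣ) : S) * β (0, j)
  hO : O.toSubmodule = Submodule.span F (β '' {x | 0 ≤ x.1})
  hσ : ∀ g, σ g T = T
  hN : ∀ s, ∃ (k : ℕ) (f : F[X]), (T : S) ^ k * ∏ g, σ g s = aeval (T : S) f
  hΔ : Δ ≠ 0
  hη : ∀ i j, ∑ g, σ g (β (0, i) * η j) = if i = j then aeval (T : S) Δ else 0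
  hX : ∀ t : F, ‖t‖ = 1 → ∃ ψ : S →ₐ[F] F, ψ T = t

namespace Dat
variable {F S J G : Type} [NormedField F] [CommRing S] [Algebra F S] [DecidableEq J] [Fintype G]
  (D : Dat F S J G)

/-- Elements of degree less than `M`. -/
def V (M : ℤ) : Submodule F S := Submodule.span F (D.β '' {x | x.1 < M})

/-- The part of degree at least `M`. -/
noncomputable def π (M : ℤ) : S →ₗ[F] S := D.β.constr F fun x => if M ≤ x.1 then D.β x else 0

theorem mem_span (Y : Set (ℤ × J)) (s : S) :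
    s ∈ Submodule.span F (D.β '' Y) ↔ ∀ x, x ∉ Y → D.β.repr s x = 0 := by
  rw [D.β.mem_span_image]
  exact ⟨fun h x hx => by_contra fun h' => hx (h (Finsupp.mem_support_iff.2 h')),
    fun h x hx => by_contra fun h' => Finsupp.mem_support_iff.1 hx (h x h')⟩

theorem mem_V (M : ℤ) (s : S) : s ∈ D.V M ↔ ∀ x : ℤ × J, M ≤ x.1 → D.β.repr s x = 0 := by
  simp [V, mem_span]

theorem mem_O (s : S) : s ∈ D.O ↔ ∀ x : ℤ × J, x.1 < 0 → D.β.repr s x = 0 := by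
  rw [← Subalgebra.mem_toSubmodule, D.hO, mem_span]; simp

theorem repr_π (M : ℤ) (s : S) (x : ℤ × J) :
    D.β.repr (D.π M s) x = if M ≤ x.1 then D.β.repr s x else 0 := by
  have : (D.β.coord x).comp (D.π M) = if M ≤ x.1 then D.β.coord x else 0 := by
    refine D.β.ext fun y => ?_
    by_cases h : y = x
    · subst h; split_ifs with h <;> simp [π, h]
    · split_ifs with h' <;> by_cases h'' : M ≤ y.1 <;> simp [π, h'', h]
  have h := LinearMap.congr_fun this s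
  split_ifs at h ⊢ <;> simpa using h

theorem mul_β (a : ℤ) (x : ℤ × J) : ((D.T ^ a : Sˣ) : S) * D.β x = D.β (x.1 + a, x.2) := by
  rw [D.hβ (x.1 + a), show D.β x = D.β (x.1, x.2) from rfl, D.hβ x.1, ← mul_assoc, ← Units.val_mul,
    ← zpow_add, add_comm]

theorem repr_shift (a : ℤ) (s : S) (x : ℤ × J) :
    D.β.repr (((D.T ^ a : Sˣ) : S) * s) x = D.β.repr s (x.1 - a, x.2) := by
  have : (D.β.coord x).comp (LinearMap.mulLeft F ((D.T ^ a : Sˣ) : S)) =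
      D.β.coord (x.1 - a, x.2) := by
    refine D.β.ext fun y => ?_
    simp only [LinearMap.comp_apply, LinearMap.mulLeft_apply, mul_β, Module.Basis.coord_apply,
      Module.Basis.repr_self, Finsupp.single_apply, Prod.ext_iff, eq_sub_iff_add_eq]
  simpa using LinearMap.congr_fun this s

theorem V_mono {M M' : ℤ} (h : M ≤ M') : D.V M ≤ D.V M' := fun s hs =>
  (D.mem_V _ _).2 fun x hx => (D.mem_V _ _).1 hs x (h.trans hx)

theorem β_mem {x : ℤ × J} (h : 0 ≤ x.1) : D.β x ∈ D.O := by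
  rw [← Subalgebra.mem_toSubmodule, D.hO]; exact Submodule.subset_span ⟨x, h, rfl⟩

theorem deg {κ : Type} [Finite κ] (s : κ → S) :
    ∃ k : ℕ, ∀ i, s i ∈ D.V k ∧ (D.T : S) ^ k * s i ∈ D.O := by
  have hf : (⋃ i, ((D.β.repr (s i)).support : Set (ℤ × J))).Finite :=
    Set.finite_iUnion fun _ => Finset.finite_toSet _
  obtain ⟨k, hk⟩ := (hf.image fun x => x.1.natAbs).bddAbove
  have h : ∀ i x, D.β.repr (s i) x ≠ 0 → x.1.natAbs ≤ k := fun i x hx =>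
    hk ⟨x, Set.mem_iUnion.2 ⟨i, Finsupp.mem_support_iff.2 hx⟩, rfl⟩
  refine ⟨k + 1, fun i => ⟨(D.mem_V _ _).2 fun x hx => by_contra fun h' => ?_, ?_⟩⟩
  · have := h i x h'; omega
  · rw [← Units.val_pow_eq_pow_val, ← zpow_natCast, mem_O]
    intro x hx
    rw [repr_shift]
    by_contra h'
    have := h i _ h'
    simp only at this; omega

theorem crd (s : S) : ∃ K : ℝ, 0 ≤ K ∧ ∀ x, ‖D.β.repr s x‖ ≤ K := by
  refine ⟨∑ x ∈ (D.β.repr s).support, ‖D.β.repr s x‖, by positivity, fun x => ?_⟩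
  by_cases h : x ∈ (D.β.repr s).support
  · exact Finset.single_le_sum (f := fun x => ‖D.β.repr s x‖) (fun _ _ => norm_nonneg _) h
  · rw [Finsupp.notMem_support_iff.1 h, norm_zero]; positivity

theorem val (ψ : S →ₐ[F] F) (x : ℤ × J) : ψ (D.β x) = ψ D.T ^ x.1 * ψ (D.β (0, x.2)) := by
  rw [show D.β x = D.β (x.1, x.2) from rfl, D.hβ, map_mul]
  congr 1
  have := congrArg Units.val (map_zpow (Units.map (ψ : S →* F)) D.T x.1)
  rwa [Units.val_zpow_eq_zpow_val] at this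

theorem V_mul [Fintype J] : ∃ k : ℕ, ∀ (M M' : ℤ) (s s' : S), s ∈ D.V M → s' ∈ D.V M' →
    s * s' ∈ D.V (M + M' + k) := by
  obtain ⟨k, hk⟩ := D.deg fun x : J × J => D.β (0, x.1) * D.β (0, x.2)
  refine ⟨k, fun M M' s s' hs hs' => ?_⟩
  refine Submodule.span_induction₂ (p := fun s s' _ _ => s * s' ∈ D.V (M + M' + k)) ?_ (by simp)
    (by simp) (fun _ _ _ _ _ _ h h' => by rw [add_mul]; exact add_mem h h')
    (fun _ _ _ _ _ _ h h' => by rw [mul_add]; exact add_mem h h')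
    (fun _ _ _ _ _ h => by rw [smul_mul_assoc]; exact Submodule.smul_mem _ _ h)
    (fun _ _ _ _ _ h => by rw [mul_smul_comm]; exact Submodule.smul_mem _ _ h) hs hs'
  rintro _ _ ⟨⟨i, j⟩, hx, rfl⟩ ⟨⟨i', j'⟩, hy, rfl⟩
  rw [D.hβ i, D.hβ i', mul_mul_mul_comm, ← Units.val_mul, ← zpow_add, mem_V]
  intro x hx'
  rw [repr_shift]
  refine (D.mem_V _ _).1 (hk (j, j')).1 _ ?_
  simp only [Set.mem_ofPred_eq] at hx hy ⊢; omega

/-- The integral part. -/
noncomputable def πO : S →ₗ[F] D.O := (D.π 0).codRestrict D.O.toSubmodule fun s =>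
  (D.mem_O _).2 fun x hx => by rw [repr_π, if_neg (by omega)]

theorem πO_coe (o : D.O) : D.πO o = o := Subtype.ext <| D.β.ext_elem fun x => by
  change D.β.repr (D.π 0 o) x = _
  rw [repr_π]
  split_ifs with h
  · rfl
  · exact ((D.mem_O _).1 o.2 x (by omega)).symm

variable [IsUltrametricDist F]

theorem lb (ℓ : S →ₗ[F] F) (s : S) {K K' : ℝ} (hK : 0 ≤ K') (h : ∀ x, ‖D.β.repr s x‖ ≤ K)
    (h' : ∀ x, D.β.repr s x ≠ 0 → ‖ℓ (D.β x)‖ ≤ K') (h0 : 0 ≤ K) : ‖ℓ s‖ ≤ K * K' := by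
  conv_lhs => rw [← D.β.linearCombination_repr s, Finsupp.linearCombination_apply, Finsupp.sum,
    map_sum]
  refine IsUltrametricDist.norm_sum_le_of_forall_le_of_nonneg (by positivity) fun x hx => ?_
  rw [map_smul, norm_smul]
  exact mul_le_mul (h x) (h' x (Finsupp.mem_support_iff.1 hx)) (norm_nonneg _) h0

theorem evo (χ : D.O →ₐ[F] F) (M : ℕ) {B K : ℝ} (hB0 : 0 ≤ B)
    (hB : ∀ j, ‖χ ⟨D.β (0, j), D.β_mem le_rfl⟩‖ ≤ B) (o : D.O) (ho : (o : S) ∈ D.V M)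
    (h : ∀ x, ‖D.β.repr o x‖ ≤ K) (h0 : 0 ≤ K) :
    ‖χ o‖ ≤ K * (max 1 ‖χ ⟨D.T, D.hT⟩‖ ^ M * B) := by
  rw [← D.πO_coe o]
  refine D.lb (χ.toLinearMap.comp D.πO) o (by positivity) h (fun x hx => ?_) h0
  have h1 : 0 ≤ x.1 := by_contra fun h => hx ((D.mem_O _).1 o.2 x (by omega))
  have h2 : x.1 < M := by_contra fun h => hx ((D.mem_V _ _).1 ho x (by omega))
  obtain ⟨n, hn⟩ := Int.eq_ofNat_of_zero_le h1
  have h3 : D.β x = ((⟨D.T, D.hT⟩ ^ n * ⟨D.β (0, x.2), D.β_mem le_rfl⟩ : D.O) : S) := by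
    rw [show D.β x = D.β (x.1, x.2) from rfl, D.hβ, hn]; simp
  rw [h3, LinearMap.comp_apply, πO_coe, AlgHom.toLinearMap_apply, map_mul, map_pow, norm_mul,
    norm_pow]
  refine mul_le_mul ?_ (hB _) (norm_nonneg _) (by positivity)
  exact (pow_le_pow_left₀ (norm_nonneg _) (le_max_right _ _) n).trans
    (pow_le_pow_right₀ (le_max_left _ _) (by omega))

variable [Fintype J]

theorem om : ∃ (C : ℝ) (k : ℕ), 0 ≤ C ∧ ∀ (χ : D.O →ₐ[F] F) (j : J),
    ‖χ ⟨D.β (0, j), D.β_mem le_rfl⟩‖ ≤ C * max 1 ‖χ ⟨D.T, D.hT⟩‖ ^ k := by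
  obtain ⟨k, hk⟩ := D.deg fun j : J => D.β (0, j) * D.β (0, j)
  choose K hK0 hK using fun j : J => D.crd (D.β (0, j) * D.β (0, j))
  refine ⟨∑ j, K j, k, Finset.sum_nonneg fun j _ => hK0 j, fun χ j => ?_⟩
  obtain ⟨l, -, hl⟩ := Finset.exists_max_image Finset.univ
    (fun j => ‖χ ⟨D.β (0, j), D.β_mem le_rfl⟩‖) ⟨j, Finset.mem_univ _⟩
  refine (hl j (Finset.mem_univ _)).trans ?_
  have h := D.evo χ k (norm_nonneg _) (fun j => hl j (Finset.mem_univ _))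
    (⟨D.β (0, l), D.β_mem le_rfl⟩ * ⟨D.β (0, l), D.β_mem le_rfl⟩) (hk l).1 (hK l) (hK0 l)
  rw [map_mul, norm_mul, ← mul_assoc] at h
  rcases (norm_nonneg (χ ⟨D.β (0, l), D.β_mem le_rfl⟩)).eq_or_lt with h0 | h0
  · rw [← h0]; exact mul_nonneg (Finset.sum_nonneg fun j _ => hK0 j) (by positivity)
  · exact (le_of_mul_le_mul_right h h0).trans (mul_le_mul_of_nonneg_right
      (Finset.single_le_sum (fun j _ => hK0 j) (Finset.mem_univ l)) (by positivity))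

/-- Values in terms of coordinates. -/
theorem ev : ∃ (C : ℝ) (k : ℕ), 0 ≤ C ∧
    (∀ (χ : D.O →ₐ[F] F) (o : D.O) (K : ℝ), ‖χ ⟨D.T, D.hT⟩‖ ≤ 1 → 0 ≤ K →
      (∀ x, ‖D.β.repr o x‖ ≤ K) → ‖χ o‖ ≤ K * C) ∧
    ∀ (ψ : S →ₐ[F] F) (M : ℕ) (s : S) (K : ℝ), 1 ≤ ‖ψ D.T‖ → s ∈ D.V M → 0 ≤ K →
      (∀ x, ‖D.β.repr s x‖ ≤ K) → ‖ψ s‖ ≤ K * C * ‖ψ D.T‖ ^ (M + k) := by
  obtain ⟨C, k, hC, h⟩ := D.om
  refine ⟨C, k, hC, fun χ o K ht hK hs => ?_, fun ψ M s K ht hs hK hr => ?_⟩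
  · obtain ⟨M, hM⟩ := D.deg fun _ : Unit => (o : S)
    simpa [max_eq_left ht] using
      D.evo χ M hC (fun j => by simpa [max_eq_left ht] using h χ j) o (hM ()).1 hs hK
  · rw [mul_assoc]
    refine D.lb ψ.toLinearMap s (by positivity) hr (fun x hx => ?_) hK
    have h2 : x.1 < M := by_contra fun h => hx ((D.mem_V _ _).1 hs x (by omega))
    have h3 := h (ψ.comp D.O.val) x.2
    simp only [AlgHom.comp_apply, Subalgebra.coe_val, max_eq_right ht] at h3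
    rw [AlgHom.toLinearMap_apply, val, norm_mul, norm_zpow, pow_add, mul_left_comm]
    refine mul_le_mul ?_ h3 (norm_nonneg _) (by positivity)
    rw [← zpow_natCast]
    exact zpow_le_zpow_right₀ ht h2.le

theorem bdd (s : S) : ∃ H : ℝ, 0 ≤ H ∧ ∀ ψ : S →ₐ[F] F, ‖ψ D.T‖ = 1 → ‖ψ s‖ ≤ H := by
  obtain ⟨C, k, hC, -, h⟩ := D.ev
  obtain ⟨K, hK, hs⟩ := D.crd s
  obtain ⟨M, hM⟩ := D.deg fun _ : Unit => s
  exact ⟨K * C, by positivity, fun ψ hψ => by simpa [hψ] using h ψ M s K hψ.ge (hM ()).1 hK hs⟩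

/-- Coordinates in terms of values. -/
theorem coord [IsAlgClosed F] : ∃ C : ℝ, 0 ≤ C ∧ ∀ (s : S) (K : ℝ), 0 ≤ K →
    (∀ ψ : S →ₐ[F] F, ‖ψ D.T‖ = 1 → ‖ψ s‖ ≤ K) → ∀ x, ‖D.β.repr s x‖ ≤ C * K := by
  obtain ⟨γ, hγ, hc⟩ := co D.hΔ
  choose H hH0 hH using fun j => D.bdd (D.η j)
  have hS : 0 ≤ ∑ j, H j := Finset.sum_nonneg fun j _ => hH0 j
  have key : ∀ o ∈ D.O, ∀ K : ℝ, 0 ≤ K → (∀ ψ : S →ₐ[F] F, ‖ψ D.T‖ = 1 → ‖ψ o‖ ≤ K) →
      ∀ x, ‖D.β.repr o x‖ ≤ (∑ j, H j) / γ * K := by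
    rintro o ho K hK h ⟨i, j⟩
    rcases lt_or_ge i 0 with hi | hi
    · rw [(D.mem_O _).1 ho _ hi, norm_zero]; positivity
    obtain ⟨n, rfl⟩ := Int.eq_ofNat_of_zero_le hi
    let c : S →ₗ[F] F[X] := D.β.constr F fun x => if 0 ≤ x.1 ∧ x.2 = j then X ^ x.1.toNat else 0
    have h1 : (lcoeff F n).comp c = D.β.coord (n, j) := by
      refine D.β.ext fun ⟨a, l⟩ => ?_
      by_cases ha : 0 ≤ a
      · obtain ⟨b, rfl⟩ := Int.eq_ofNat_of_zero_le ha
        by_cases hl : l = j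
        · simp [c, hl, coeff_X_pow, Finsupp.single_apply, eq_comm]
        · simp [c, hl]
      · have : a ≠ n := by omega
        simp [c, ha, this]
    have h2 : ∑ g, D.σ g (o * D.η j) = aeval (D.T : S) (D.Δ * c o) := by
      rw [← Subalgebra.mem_toSubmodule, D.hO] at ho
      clear h
      induction ho using Submodule.span_induction with
      | mem s hs =>
        obtain ⟨⟨a, l⟩, ha, rfl⟩ := hs
        obtain ⟨b, rfl⟩ := Int.eq_ofNat_of_zero_le ha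
        have : ∑ g, D.σ g (D.β (b, l) * D.η j) =
            (D.T : S) ^ b * ∑ g, D.σ g (D.β (0, l) * D.η j) := by
          rw [D.hβ, Finset.mul_sum]; simp [mul_assoc, D.hσ]
        rw [this, D.hη]
        by_cases hl : l = j <;> simp [c, hl, mul_comm]
      | zero => simp
      | add _ _ _ _ h h' => simp only [add_mul, mul_add, map_add, Finset.sum_add_distrib, h, h']
      | smul r _ _ h => simp only [smul_mul_assoc, mul_smul_comm, map_smul, ← Finset.smul_sum, h]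
    have h3 := hc (c o) (K * ∑ j, H j) (fun t ht => by
      obtain ⟨ψ, rfl⟩ := D.hX t ht
      rw [← eval_mul, ← coe_aeval_eq_eval, aeval_algHom_apply, ← h2, map_sum]
      refine IsUltrametricDist.norm_sum_le_of_forall_le_of_nonneg (by positivity) fun g _ => ?_
      have hg : ‖(ψ.comp (D.σ g)) D.T‖ = 1 := by simpa [D.hσ] using ht
      rw [map_mul, map_mul, norm_mul]
      exact mul_le_mul (h _ hg) ((hH j _ hg).trans
        (Finset.single_le_sum (fun j _ => hH0 j) (Finset.mem_univ j))) (norm_nonneg _) hK) n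
    have h4 : (c o).coeff n = D.β.repr o (n, j) := LinearMap.congr_fun h1 o
    rw [← h4, div_mul_eq_mul_div, le_div_iff₀ hγ]
    linarith
  refine ⟨(∑ j, H j) / γ, by positivity, fun s K hK h x => ?_⟩
  obtain ⟨M, hM⟩ := D.deg fun _ : Unit => s
  have := key _ (hM ()).2 K hK (fun ψ hψ => by simpa [hψ] using h ψ hψ) (x.1 + M, x.2)
  rwa [← Units.val_pow_eq_pow_val, ← zpow_natCast, repr_shift, add_sub_cancel_right] at this

end Dat

section cl
variable {F R B : Type} [Field F] [CommRing R] [Algebra F R] [CommRing B] [Algebra F B]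

/-- A multiplicative filtration. -/
structure Fil (W : ℕ → Submodule F R) : Prop where
  mono : Monotone W
  all : ∀ s, ∃ M, s ∈ W M
  mul : ∀ M M', ∃ N, ∀ s ∈ W M, ∀ s' ∈ W M', s * s' ∈ W N

theorem prod_map {κ σ : Type} [Fintype κ] (f : R →ₐ[F] B) (s : κ → σ → R) (P : MvPolynomial σ F) :
    (∏ g, (X - C (MvPolynomial.aeval (s g) P))).map (f : R →+* B) =
      ∏ g, (X - C (MvPolynomial.aeval (fun i => f (s g i)) P)) := by
  rw [Polynomial.map_prod]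
  refine Finset.prod_congr rfl fun g _ => ?_
  rw [Polynomial.map_sub, map_X, map_C, RingHom.coe_coe, MvPolynomial.comp_aeval_apply]

variable [TopologicalSpace B] [IsTopologicalSemiring B]

/-- Limits of elements of bounded degree. -/
def Cl (φ : R →ₐ[F] B) {W : ℕ → Submodule F R} (h : Fil W) : Subalgebra F B where
  carrier := {b | ∃ M, b ∈ closure (φ '' W M)}
  mul_mem' := by
    rintro a b ⟨M, ha⟩ ⟨M', hb⟩
    obtain ⟨N, hN⟩ := h.mul M M'
    refine ⟨N, map_mem_closure₂ continuous_mul ha hb ?_⟩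
    rintro _ ⟨s, hs, rfl⟩ _ ⟨s', hs', rfl⟩
    exact ⟨_, hN s hs s' hs', map_mul _ _ _⟩
  add_mem' := by
    rintro a b ⟨M, ha⟩ ⟨M', hb⟩
    refine ⟨max M M', map_mem_closure₂ continuous_add ha hb ?_⟩
    rintro _ ⟨s, hs, rfl⟩ _ ⟨s', hs', rfl⟩
    exact ⟨_, add_mem (h.mono (le_max_left _ _) hs) (h.mono (le_max_right _ _) hs'), map_add _ _ _⟩
  algebraMap_mem' r := (h.all (algebraMap F R r)).imp fun _ hM =>
    subset_closure ⟨_, hM, φ.commutes r⟩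

theorem map_mem_Cl (φ : R →ₐ[F] B) {W : ℕ → Submodule F R} (h : Fil W) (s : R) : φ s ∈ Cl φ h :=
  (h.all s).imp fun _ hM => subset_closure ⟨_, hM, rfl⟩

omit [TopologicalSpace B] [IsTopologicalSemiring B] in
theorem coeff_mem {κ σ : Type} [Fintype κ] (A : Subalgebra F B) (s : κ → σ → B)
    (h : ∀ g i, s g i ∈ A) (P : MvPolynomial σ F) (k : ℕ) :
    (∏ g, (X - C (MvPolynomial.aeval (s g) P))).coeff k ∈ A := by
  have := prod_map A.val (fun g i => ⟨s g i, h g i⟩) P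
  simp only [Subalgebra.coe_val] at this
  rw [← this, coeff_map]
  exact Subtype.prop _

end cl

section root
variable {F R B : Type} [NormedField F] [CommRing R] [Algebra F R] [NormedCommRing B] [Algebra F B]
  (φ : R →ₐ[F] B) (χ : R →ₐ[F] F) {W : ℕ → Submodule F R} (h : Fil W)

theorem fst_mem {x : B × F} (hx : x ∈ Cl (φ.prod χ) h) : x.1 ∈ Cl φ h := hx.imp fun _ hM =>
  map_mem_closure continuous_fst hM (by rintro _ ⟨s, hs, rfl⟩; exact ⟨s, hs, rfl⟩)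

theorem root {κ σ : Type} [Fintype κ] (hb : ∀ M, ∃ K : ℝ, ∀ s ∈ W M, ‖χ s‖ ≤ K * ‖φ s‖)
    (s : κ → σ → B) (v : κ → σ → F) (hs : ∀ g i, (s g i, v g i) ∈ Cl (φ.prod χ) h)
    (P : MvPolynomial σ F) (Q : R[X])
    (hQ : Q.map (φ : R →+* B) = ∏ g, (X - C (MvPolynomial.aeval (s g) P))) :
    Q.map (χ : R →+* F) = ∏ g, (X - C (MvPolynomial.aeval (v g) P)) := by
  ext k
  have h1 := coeff_mem _ _ hs P k
  have h2 := congrArg (coeff · k) (prod_map (AlgHom.fst F B F) (fun g i => (s g i, v g i)) P)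
  have h3 := congrArg (coeff · k) (prod_map (AlgHom.snd F B F) (fun g i => (s g i, v g i)) P)
  simp only [coeff_map, AlgHom.fst_apply, AlgHom.snd_apply, RingHom.coe_coe] at h2 h3
  obtain ⟨M, hM⟩ := sub_mem h1 (map_mem_Cl (φ.prod χ) h (Q.coeff k))
  obtain ⟨K, hK⟩ := hb M
  have h4 := closure_minimal (t := {x : B × F | ‖x.2‖ ≤ K * ‖x.1‖})
    (by rintro _ ⟨s, hs, rfl⟩; exact hK s hs) (isClosed_le (by fun_prop) (by fun_prop)) hM
  simp only [Set.mem_ofPred_eq, Prod.snd_sub, Prod.fst_sub, h2, h3, ← hQ, coeff_map,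
    AlgHom.prod_apply, RingHom.coe_coe, sub_self, norm_zero, mul_zero, norm_le_zero_iff,
    sub_eq_zero] at h4
  rw [coeff_map, h4]; rfl

end root

namespace Dat
variable {F S J G : Type} [NontriviallyNormedField F] [CommRing S] [Algebra F S] [DecidableEq J]
  [Fintype G] (D : Dat F S J G)

/-- Points over the unit circle. -/
def Pt : Type := {ψ : S →ₐ[F] F // ‖ψ D.T‖ = 1}

instance : TopologicalSpace D.Pt := ⊥
instance : DiscreteTopology D.Pt := ⟨rfl⟩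

variable [IsUltrametricDist F] [Fintype J]

/-- Elements of `S` as bounded functions. -/
noncomputable def fn : S →ₐ[F] (D.Pt →ᵇ F) where
  toFun s := BoundedContinuousFunction.ofNormedAddCommGroupDiscrete (fun ψ => ψ.1 s) _
    fun ψ => (D.bdd s).choose_spec.2 ψ.1 ψ.2
  map_one' := by ext ψ; exact map_one ψ.1
  map_mul' s t := by ext ψ; exact map_mul ψ.1 s t
  map_zero' := by ext ψ; exact map_zero ψ.1
  map_add' s t := by ext ψ; exact map_add ψ.1 s t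
  commutes' r := by ext ψ; simp

/-- Uniform limits. -/
noncomputable def B : Subalgebra F (D.Pt →ᵇ F) := D.fn.range.topologicalClosure

/-- The dense embedding. -/
noncomputable def ι : S →ₐ[F] D.B :=
  D.fn.codRestrict _ fun s => Subalgebra.le_topologicalClosure _ ⟨s, rfl⟩

@[simp] theorem ι_apply (s : S) (ψ : D.Pt) : (D.ι s).1 ψ = ψ.1 s := rfl

theorem dense : DenseRange D.ι := by
  refine Metric.denseRange_iff.2 fun b ε hε => ?_
  obtain ⟨_, ⟨s, rfl⟩, h⟩ := Metric.mem_closure_iff.1 b.2 ε hε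
  exact ⟨s, h⟩

theorem nle {b : D.B} {K : ℝ} (hK : 0 ≤ K) (h : ∀ ψ, ‖b.1 ψ‖ ≤ K) : ‖b‖ ≤ K := 
  (BoundedContinuousFunction.norm_le hK).2 h

theorem le (b : D.B) (ψ : D.Pt) : ‖b.1 ψ‖ ≤ ‖b‖ := b.1.norm_coe_le_norm ψ

theorem memB (f : D.Pt → F) (h : ∀ ε : ℝ, 0 < ε → ∃ s, ∀ ψ, ‖f ψ - ψ.1 s‖ ≤ ε) :
    ∃ b : D.B, ∀ ψ, b.1 ψ = f ψ := by
  obtain ⟨s, hs⟩ := h 1 one_pos
  refine ⟨⟨BoundedContinuousFunction.ofNormedAddCommGroupDiscrete (fun ψ => f ψ - ψ.1 s) 1 hs + D.fn s, ?_⟩,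
    fun ψ => sub_add_cancel (f ψ) (ψ.1 s)⟩
  refine Metric.mem_closure_iff.2 fun ε hε => ?_
  obtain ⟨t, ht⟩ := h (ε / 2) (by positivity)
  refine ⟨_, ⟨t, rfl⟩, lt_of_le_of_lt 
    ((BoundedContinuousFunction.dist_le (by positivity)).2 fun ψ => ?_) (half_lt_self hε)⟩
  rw [dist_eq_norm]
  exact (congrArg (fun z => ‖z - ψ.1 t‖) (sub_add_cancel (f ψ) (ψ.1 s))).trans_le (ht ψ)

omit [IsUltrametricDist F] [Fintype J] in
theorem filO : Fil fun _ : ℕ => (⊤ : Submodule F D.O) :=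
  ⟨monotone_const, fun _ => ⟨0, trivial⟩, fun _ _ => ⟨0, fun _ _ _ _ => trivial⟩⟩

omit [IsUltrametricDist F] in
theorem filV : Fil fun M : ℕ => D.V M := by
  obtain ⟨k, hk⟩ := D.V_mul
  exact ⟨fun _ _ h => D.V_mono (by exact_mod_cast h),
    fun s => (D.deg fun _ : Unit => s).imp fun _ h => (h ()).1,
    fun M M' => ⟨M + M' + k, fun s hs s' hs' => by exact_mod_cast hk M M' s s' hs hs'⟩⟩

variable [IsAlgClosed F]

theorem cst : ∃ (C : ℝ) (k : ℕ), 1 ≤ C ∧ (∀ M s, ‖D.ι (D.π M s)‖ ≤ C * ‖D.ι s‖) ∧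
    (∀ (χ : D.O →ₐ[F] F) (o : D.O), ‖χ ⟨D.T, D.hT⟩‖ ≤ 1 → ‖χ o‖ ≤ C * ‖D.ι o‖) ∧
    ∀ (ψ : S →ₐ[F] F) (M : ℕ) (s : S), 1 ≤ ‖ψ D.T‖ → s ∈ D.V M →
      ‖ψ s‖ ≤ C * ‖ψ D.T‖ ^ (M + k) * ‖D.ι s‖ := by
  obtain ⟨C, k, hC, h1, h2⟩ := D.ev
  obtain ⟨C', hC', h3⟩ := D.coord
  have h4 : ∀ s x, ‖D.β.repr s x‖ ≤ C' * ‖D.ι s‖ := fun s =>
    h3 s _ (norm_nonneg _) fun ψ hψ => D.le (D.ι s) ⟨ψ, hψ⟩
  have h5 : ∀ r : ℝ, 0 ≤ r → C' * r * C ≤ max 1 (C' * C) * r := fun r hr => by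
    rw [mul_right_comm]; exact mul_le_mul_of_nonneg_right (le_max_right _ _) hr
  refine ⟨max 1 (C' * C), k, le_max_left _ _, fun M s => D.nle (by positivity) fun ψ => ?_,
    fun χ o h => (h1 χ o _ h (by positivity) (h4 o)).trans (h5 _ (norm_nonneg _)),
    fun ψ M s h hs => (h2 ψ M s _ h hs (by positivity) (h4 s)).trans ?_⟩
  · obtain ⟨N, hN⟩ := D.filV.all (D.π M s)
    have := h2 ψ.1 N _ (C' * ‖D.ι s‖) ψ.2.ge hN (by positivity) fun x => by
      rw [repr_π]; split_ifs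
      · exact h4 s x
      · rw [norm_zero]; positivity
    rw [ψ.2, one_pow, mul_one] at this
    exact this.trans (h5 _ (norm_nonneg _))
  · rw [mul_right_comm (max 1 _)]
    exact mul_le_mul_of_nonneg_right (h5 _ (norm_nonneg _)) (by positivity)

theorem inj : Function.Injective D.ι := by
  obtain ⟨C, -, h⟩ := D.coord
  refine (injective_iff_map_eq_zero _).2 fun s hs => D.β.ext_elem fun x => ?_
  simpa using h s 0 le_rfl
    (fun ψ hψ => norm_le_zero_iff.2 (congrArg (fun b : D.B => b.1 ⟨ψ, hψ⟩) hs)) x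

variable [CompleteSpace F]

instance : CompleteSpace D.B := (Subalgebra.isClosed_topologicalClosure _).completeSpace_coe

/-- The truncation on uniform limits. -/
noncomputable def tr (M : ℤ) : D.B →L[F] D.B :=
  (D.ι.toLinearMap.comp (D.π M)).extendOfNorm D.ι.toLinearMap

theorem tr_ι (M : ℤ) (s : S) : D.tr M (D.ι s) = D.ι (D.π M s) := by
  obtain ⟨C, -, -, h, -⟩ := D.cst
  exact LinearMap.extendOfNorm_eq (e := D.ι.toLinearMap) D.dense ⟨C, h M⟩ s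

omit [IsAlgClosed F] in
theorem ext {R : Type} [CommRing R] [Algebra F R] (φ : R →ₐ[F] D.B) (χ : R →ₐ[F] F)
    (W : Submodule F R) (l : S →ₗ[F] R) (hl : ∀ s, l s ∈ W) (L : D.B → D.B) (hc : Continuous L)
    (hL : ∀ s, L (D.ι s) = φ (l s)) (K : ℝ) (hK : ∀ s, ‖χ (l s)‖ ≤ K * ‖D.ι s‖) (b : D.B) :
    ∃ z, ‖z‖ ≤ K * ‖b‖ ∧ (L b, z) ∈ closure (φ.prod χ '' W) := by
  refine ⟨(χ.toLinearMap.comp l).extendOfNorm D.ι.toLinearMap b,
    LinearMap.norm_extendOfNorm_apply_le (e := D.ι.toLinearMap) D.dense K hK b, ?_⟩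
  refine D.dense.induction_on b (isClosed_closure.preimage (by fun_prop)) fun s => ?_
  refine subset_closure ⟨l s, hl s, Prod.ext (hL s).symm ?_⟩
  exact (LinearMap.extendOfNorm_eq (f := χ.toLinearMap.comp l) (e := D.ι.toLinearMap) D.dense
    ⟨K, hK⟩ s).symm

theorem liou {b : D.B} (h : b ∈ Cl (D.ι.comp D.O.val) D.filO) (h' : b ∈ Cl D.ι D.filV) :
    ∃ o : D.O, D.ι o = b := by
  obtain ⟨_, h⟩ := h
  obtain ⟨M, h'⟩ := h'
  have h1 : D.tr 0 b = b := closure_minimal (t := {b | D.tr 0 b = b}) (by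
    rintro _ ⟨o, -, rfl⟩
    exact (D.tr_ι 0 o).trans (congrArg (fun z : D.O => D.ι z) (D.πO_coe o)))
    (isClosed_eq (by fun_prop) (by fun_prop)) h
  have h2 : D.tr M b = 0 := closure_minimal (t := {b | D.tr M b = 0}) (by
    rintro _ ⟨s, hs, rfl⟩
    refine (D.tr_ι M s).trans ((map_eq_zero_iff _ D.inj).2 (D.β.ext_elem fun x => ?_))
    rw [repr_π]
    split_ifs with hx
    · simpa using (D.mem_V _ _).1 hs x hx
    · simp) (isClosed_eq (by fun_prop) (by fun_prop)) h'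
  let Y : Set (ℤ × J) := Set.Ico 0 (M : ℤ) ×ˢ Set.univ
  have : FiniteDimensional F (Submodule.span F (D.β '' Y)) :=
    FiniteDimensional.span_of_finite F (((Set.finite_Ico _ _).prod Set.finite_univ).image _)
  have h3 : ∀ b, D.tr 0 b - D.tr M b ∈ (Submodule.span F (D.β '' Y)).map D.ι.toLinearMap := by
    intro b
    refine D.dense.induction_on b
      ((Submodule.closed_of_finiteDimensional _).preimage (by fun_prop)) fun s => ?_
    refine ⟨D.π 0 s - D.π M s, (D.mem_span _ _).2 fun x hx => ?_, by simp [tr_ι]⟩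
    simp only [Y, Set.mem_prod, Set.mem_Ico, Set.mem_univ, and_true] at hx
    rw [map_sub, Finsupp.sub_apply, repr_π, repr_π]
    split_ifs <;> first | omega | simp
  obtain ⟨s, hs, h4⟩ := h3 b
  rw [h1, h2, sub_zero] at h4
  exact ⟨⟨s, (D.mem_O _).2 fun x hx => (D.mem_span _ _).1 hs x fun h => by
    have := h.1.1; omega⟩, h4⟩

end Dat

theorem centres {X Y : Type} [Nonempty X] [PseudoMetricSpace Y] [IsUltrametricDist Y] (f : X → Y)
    {ρ : ℝ} (hρ : 0 ≤ ρ) (Λ : Finset Y) (h : ∀ x, ∃ c ∈ Λ, dist (f x) c ≤ ρ) :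
    ∃ (cen : X → X) (R : Finset X), (∀ x, cen x ∈ R) ∧ (∀ x ∈ R, cen x = x) ∧
      (∀ x, dist (f x) (f (cen x)) ≤ ρ) ∧ ∀ x x', dist (f x) (f x') ≤ ρ → cen x = cen x' := by
  classical
  have tri : ∀ a b c : Y, dist a b ≤ ρ → dist b c ≤ ρ → dist a c ≤ ρ := fun a b c h h' =>
    (IsUltrametricDist.dist_triangle_max a b c).trans (max_le h h')
  let g : Y → X := fun y => Classical.epsilon fun x => dist y (f x) ≤ ρ
  have h1 : ∀ y y', dist y y' ≤ ρ → g y = g y' := fun y y' h =>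
    congrArg Classical.epsilon (funext fun x =>
      propext ⟨tri _ _ _ (dist_comm y y' ▸ h), tri _ _ _ h⟩)
  have h2 : ∀ x, dist (f x) (f (g (f x))) ≤ ρ := fun x =>
    Classical.epsilon_spec (p := fun x' => dist (f x) (f x') ≤ ρ) ⟨x, by simpa⟩
  refine ⟨fun x => g (f x), (Λ.image g).filter fun x => g (f x) = x, fun x => ?_,
    fun x hx => (Finset.mem_filter.1 hx).2, h2, fun x x' => h1 _ _⟩
  obtain ⟨c, hc, hx⟩ := h x
  exact Finset.mem_filter.2 ⟨Finset.mem_image.2 ⟨c, hc, (h1 _ _ hx).symm⟩, (h1 _ _ (h2 x)).symm⟩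

theorem solve {E : Type} [NormedAddCommGroup E] [CompleteSpace E] (H : E →+ E)
    (h : ∀ y, ‖H y‖ ≤ 1 / 2 * ‖y‖) (δ : E) : ∃ y, y + H y = δ ∧ ‖y‖ ≤ 2 * ‖δ‖ := by
  have hc : ContractingWith (1 / 2) fun y => δ - H y := by
    refine ⟨by norm_num, LipschitzWith.of_dist_le_mul fun y z => ?_⟩
    rw [dist_sub_left, dist_eq_norm, dist_eq_norm, ← map_sub]
    simpa using h (y - z)
  have h1 : δ - H (hc.fixedPoint _) = hc.fixedPoint _ := hc.fixedPoint_isFixedPt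
  refine ⟨hc.fixedPoint _, (sub_eq_iff_eq_add.1 h1).symm, ?_⟩
  have := norm_sub_le δ (H (hc.fixedPoint _))
  rw [h1] at this
  linarith [h (hc.fixedPoint _)]

theorem mkA {F O B ι : Type} [Field F] [CommRing O] [IsDomain O] [Algebra F O] [CommRing B]
    [Algebra F B] (φ : O →ₐ[F] B) (hφ : Function.Injective φ) (s : ι → B)
    (h : ∀ i, ∃ Q : O[X], Q.Monic ∧ Q.eval₂ (φ : O →+* B) (s i) = 0) :
    ∃ (A : Type) (_ : CommRing A) (_ : IsDomain A) (_ : Algebra F A) (a : O →ₐ[F] A) (ξ : ι → A),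
      Function.Injective a ∧ (a : O →+* A).IsIntegral ∧ ∀ (P : MvPolynomial ι F) (Q : O[X]),
        Q.eval₂ (φ : O →+* B) (MvPolynomial.aeval s P) = 0 →
        Q.eval₂ (a : O →+* A) (MvPolynomial.aeval ξ P) = 0 := by
  let Φ : MvPolynomial ι O →ₐ[F] B := MvPolynomial.aevalTower φ s
  obtain ⟨I, hI, h1, h2⟩ := (RingHom.ker Φ).exists_le_prime_disjoint
    ((nonZeroDivisors O).map (MvPolynomial.C : O →+* MvPolynomial ι O)) (by
      rw [Set.disjoint_left]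
      rintro _ h ⟨o, ho, rfl⟩
      exact nonZeroDivisors.ne_zero ho (hφ (by simpa [Φ] using h)))
  have key : ∀ (x : MvPolynomial ι O) (Q : O[X]), Q.eval₂ (φ : O →+* B) (Φ x) = 0 →
      aeval (Ideal.Quotient.mk I x) Q = 0 := by
    intro x Q hQ
    rw [← Ideal.Quotient.mkₐ_eq_mk O, aeval_algHom_apply, Ideal.Quotient.mkₐ_eq_mk,
      Ideal.Quotient.eq_zero_iff_mem]
    refine h1 ?_
    rw [RingHom.mem_ker, ← hQ, aeval_def, ← RingHom.coe_coe Φ, hom_eval₂]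
    congr 1
    ext; simp [Φ]
  refine ⟨MvPolynomial ι O ⧸ I, inferInstance, inferInstance, inferInstance,
    IsScalarTower.toAlgHom F O _, fun i => Ideal.Quotient.mk I (MvPolynomial.X i),
    (injective_iff_map_eq_zero _).2 fun o ho => by_contra fun h0 => ?_, fun x => ?_, fun P Q hQ => ?_⟩
  · exact Set.disjoint_left.1 h2 (Ideal.Quotient.eq_zero_iff_mem.1 ho)
      ⟨o, mem_nonZeroDivisors_of_ne_zero h0, rfl⟩
  · obtain ⟨x, rfl⟩ := Ideal.Quotient.mk_surjective x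
    change IsIntegral O _
    induction x using MvPolynomial.induction_on with
    | C o => exact isIntegral_algebraMap (x := o)
    | add _ _ h h' => rw [map_add]; exact h.add h'
    | mul_X _ i h' =>
      obtain ⟨Q, hQ, h⟩ := h i
      rw [map_mul]
      exact h'.mul ⟨Q, hQ, key _ Q (by simpa [Φ] using h)⟩
  · have := key (MvPolynomial.aeval MvPolynomial.X P) Q (by
      rw [MvPolynomial.comp_aeval_apply]; simpa [Φ] using hQ)
    rwa [← Ideal.Quotient.mkₐ_eq_mk F, MvPolynomial.comp_aeval_apply] at this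

namespace Dat
variable {F S J G : Type} [NontriviallyNormedField F] [CommRing S] [Algebra F S] [DecidableEq J]
  [Fintype G] (D : Dat F S J G)

theorem lift (χ : D.O →ₐ[F] F) (h : χ ⟨D.T, D.hT⟩ ≠ 0) : ∃ ψ : S →ₐ[F] F, ∀ o : D.O, ψ o = χ o := by
  have : IsLocalization.Away (⟨D.T, D.hT⟩ : D.O) S := IsLocalization.Away.mk _ D.T.isUnit
    (fun s => (D.deg fun _ : Unit => s).imp fun k hk => ⟨⟨_, (hk ()).2⟩, mul_comm _ _⟩)
    fun a b h => ⟨0, by rw [Subtype.ext h]⟩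
  have h1 := IsLocalization.Away.lift_eq (S := S) (⟨D.T, D.hT⟩ : D.O) (g := (χ : D.O →+* F)) h.isUnit
  exact ⟨⟨_, fun r => (h1 (algebraMap F D.O r)).trans (χ.commutes r)⟩, h1⟩

/-- The action on points. -/
def act (g : G) (ψ : D.Pt) : D.Pt := ⟨ψ.1.comp (D.σ g), by simpa [D.hσ] using ψ.2⟩

variable [IsUltrametricDist F]

theorem appr (p : ℕ) [Fact p.Prime] [CharP F p] {ι : Type} [Fintype ι] (w : ι → S) {ρ : ℝ}
    (hρ : 0 ≤ ρ) [DecidableEq D.Pt] (cen : D.Pt → D.Pt) (R : Finset D.Pt) (h0 : ∀ x, cen x ∈ R)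
    (h1 : ∀ x ∈ R, cen x = x) (h2 : ∀ x, dist (x.1 ∘ w) ((cen x).1 ∘ w) ≤ ρ)
    (h3 : ∀ x x', dist (x.1 ∘ w) (x'.1 ∘ w) ≤ ρ → cen x = cen x') (y : D.Pt) (ε : ℝ) (hε : 0 < ε) :
    ∃ s, ∀ ψ, ‖(if cen ψ = y then 1 else 0) - ψ.1 s‖ ≤ ε := by
  classical
  by_cases hy : y ∈ R
  swap
  · exact ⟨0, fun ψ => by rw [if_neg fun h : cen ψ = y => hy (h ▸ h0 ψ)]; simpa using hε.le⟩
  obtain ⟨e, θ, hθ, h4, h5⟩ := Pt.ind F ι ρ (y.1 ∘ w) ((R.erase y).image fun x => x.1 ∘ w) hρ (by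
    intro z hz
    obtain ⟨x, hx, rfl⟩ := Finset.mem_image.1 hz
    obtain ⟨h, hx⟩ := Finset.mem_erase.1 hx
    exact not_le.1 fun h' => h ((h1 x hx).symm.trans ((h3 _ _ h').trans (h1 y hy))))
  obtain ⟨k, hk⟩ := exists_pow_lt_of_lt_one hε hθ
  have h6 : ∀ ψ : D.Pt, ‖(if cen ψ = y then 1 else 0) - ψ.1 (MvPolynomial.aeval w e)‖ ≤ θ := by
    intro ψ
    rw [MvPolynomial.comp_aeval_apply, norm_sub_rev]
    split_ifs with h
    · exact h4 _ (h ▸ h2 ψ)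
    · rw [sub_zero]
      exact h5 _ (Finset.mem_image_of_mem _ (Finset.mem_erase.2 ⟨h, h0 ψ⟩)) _ (h2 ψ)
  refine ⟨MvPolynomial.aeval w e ^ p ^ k, fun ψ => ?_⟩
  have h7 := (norm_nonneg _).trans (h6 ψ)
  have h8 := (pow_le_pow_left₀ (norm_nonneg _) (h6 ψ) (p ^ k)).trans ((pow_le_pow_of_le_one h7 hθ.le
    (Nat.lt_pow_self (Fact.out : p.Prime).one_lt).le).trans hk.le)
  rwa [← norm_pow, sub_pow_char_pow, ite_pow, one_pow,
    zero_pow (pow_ne_zero k (Fact.out : p.Prime).ne_zero), ← map_pow] at h8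

theorem mult [IsAlgClosed F] [DecidableEq D.Pt] (cen : D.Pt → D.Pt) (h : ∀ (y : D.Pt) (ε : ℝ),
    0 < ε → ∃ s, ∀ ψ, ‖(if cen ψ = y then 1 else 0) - ψ.1 s‖ ≤ ε) (ψ ψ' : D.Pt) :
    ∃ τ : G ≃ G, ∀ g, cen (D.act (τ g) ψ') = cen (D.act g ψ) := by
  refine ⟨_, Equiv.ofFiberEquiv_map (f := fun g => cen (D.act g ψ))
    (g := fun g => cen (D.act g ψ')) fun y => Fintype.equivOfCardEq ?_⟩
  obtain ⟨a, h0, h1⟩ := NormedField.exists_norm_lt_one F
  obtain ⟨s, hs⟩ := h y (‖a‖ / 2) (by positivity)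
  obtain ⟨k, f, hf⟩ := D.hN (algebraMap F S a - 1 + s)
  have h2 : ∀ ψ : D.Pt, ‖f.eval (ψ.1 D.T)‖ = ‖a‖ ^ Fintype.card {g // cen (D.act g ψ) = y} := by
    intro ψ
    rw [← coe_aeval_eq_eval, aeval_algHom_apply, ← hf, map_mul, map_pow, norm_mul, norm_pow, ψ.2,
      one_pow, one_mul, map_prod, norm_prod, Fintype.card_subtype, ← Finset.prod_const,
      Finset.prod_filter]
    refine Finset.prod_congr rfl fun g _ => ?_
    have h3 := hs (D.act g ψ)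
    have h4 : ψ.1 (D.σ g (algebraMap F S a - 1 + s)) = a - 1 + (D.act g ψ).1 s := by simp [act]
    rw [h4]
    split_ifs at h3 ⊢
    · have h5 : ‖1 - (D.act g ψ).1 s‖ < ‖a‖ := by linarith
      rw [sub_add, sub_eq h5.ne', max_eq_left h5.le]
    · have h5 : ‖a - (0 - (D.act g ψ).1 s)‖ < ‖(1 : F)‖ :=
        (sub_le _ _).trans_lt (by rw [norm_one]; exact max_lt h1 (by linarith))
      rw [show a - 1 + (D.act g ψ).1 s = a - (0 - (D.act g ψ).1 s) - 1 by ring, sub_eq h5.ne,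
        max_eq_right h5.le, norm_one]
  have h3 := nz (f := f) (fun t ht => by
    obtain ⟨χ, rfl⟩ := D.hX t ht
    rw [← norm_pos_iff, h2 ⟨χ, ht⟩]; positivity) ψ.2 ψ'.2
  rw [h2, h2] at h3
  exact pow_right_injective₀ h0 h1.ne h3

variable [Fintype J]

/-- Evaluation at a point. -/
def evl (ψ : D.Pt) : D.B →ₐ[F] F where
  toFun b := b.1 ψ
  map_one' := rfl
  map_mul' _ _ := rfl
  map_zero' := rfl
  map_add' _ _ := rfl
  commutes' r := by simp

theorem evl_ι (ψ : D.Pt) (s : S) : D.evl ψ (D.ι s) = ψ.1 s := rfl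

theorem extB {b b' : D.B} (h : ∀ ψ, D.evl ψ b = D.evl ψ b') : b = b' :=
  Subtype.ext (BoundedContinuousFunction.ext h)

theorem locB [DecidableEq D.Pt] (cen : D.Pt → D.Pt) (R : Finset D.Pt) (h0 : ∀ x, cen x ∈ R)
    (h : ∀ (y : D.Pt) (ε : ℝ), 0 < ε → ∃ s, ∀ ψ, ‖(if cen ψ = y then 1 else 0) - ψ.1 s‖ ≤ ε)
    (u : (G → D.Pt) → F) : ∃ b : D.B, ∀ ψ, D.evl ψ b = u fun g => cen (D.act g ψ) := by
  classical
  choose I hI using fun g y => D.memB (fun ψ => if cen (D.act g ψ) = y then 1 else 0)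
    fun ε hε => (h y ε hε).elim fun s hs => ⟨D.σ g s, fun ψ => hs (D.act g ψ)⟩
  have hI' : ∀ g y ψ, D.evl ψ (I g y) = if cen (D.act g ψ) = y then 1 else 0 := hI
  refine ⟨∑ l ∈ Fintype.piFinset fun _ => R, u l • ∏ g, I g (l g), fun ψ => ?_⟩
  simp only [map_sum, map_smul, map_prod, hI', Finset.prod_boole, Finset.mem_univ, true_imp_iff]
  simp only [← funext_iff, smul_eq_mul, mul_ite, mul_one, mul_zero]
  rw [Finset.sum_ite_eq, if_pos (Fintype.mem_piFinset.2 fun g => h0 _)]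

end Dat

namespace Dat
variable {F S J G : Type} [NontriviallyNormedField F] [CommRing S] [Algebra F S] [DecidableEq J]
  [Fintype G] (D : Dat F S J G) [IsUltrametricDist F] [Fintype J] [IsAlgClosed F] [CompleteSpace F]

omit [IsAlgClosed F] [CompleteSpace F] in
theorem le' (b : D.B) (ψ : D.Pt) : ‖D.evl ψ b‖ ≤ ‖b‖ := D.le b ψ

omit [IsAlgClosed F] [CompleteSpace F] in
theorem nle' {b : D.B} {K : ℝ} (hK : 0 ≤ K) (h : ∀ ψ, ‖D.evl ψ b‖ ≤ K) : ‖b‖ ≤ K := D.nle hK h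

theorem core (p : ℕ) [Fact p.Prime] [CharP F p] {κ : Type} [Fintype κ] (w : κ → S) {ρ : ℝ}
    (hρ : 0 ≤ ρ) (Λ : Finset (κ → F))
    (hΛ : ∀ ψ : S →ₐ[F] F, ‖ψ D.T‖ = 1 → ∃ c ∈ Λ, ∀ i, ‖ψ (w i) - c i‖ ≤ ρ) :
    ∃ (m : ℕ) (c : G → D.Pt) (Θ : G → G → S), (∀ j g, (D.T : S) ^ m * Θ j g ∈ D.O) ∧
      ∀ e, ∃ y : κ → G → D.B, (∀ i g, ‖y i g‖ ≤ 2 * ρ ^ p ^ e) ∧ ∀ ψ, ∃ τ : G ≃ G, ∀ g i,
        D.evl ψ (D.ι (D.σ g (w i) ^ p ^ e) - (y i g - D.tr m (y i g))) =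
        D.evl ψ (algebraMap F _ ((c (τ g)).1 (w i) ^ p ^ e) +
          ∑ g', D.ι (Θ (τ g) g') * D.tr m (y i g')) := by
  classical
  have : Nonempty D.Pt := (D.hX 1 norm_one).elim fun ψ h => ⟨⟨ψ, by rw [h, norm_one]⟩⟩
  obtain ⟨ψ₀⟩ := id this
  obtain ⟨cen, R, h0, h1, h2, h3⟩ := centres (fun x : D.Pt => x.1 ∘ w) hρ Λ fun ψ =>
    (hΛ ψ.1 ψ.2).imp fun c hc => ⟨hc.1, (dist_pi_le_iff hρ).2 fun i => by
      rw [dist_eq_norm]; exact hc.2 i⟩
  have ha := D.appr p w hρ cen R h0 h1 h2 h3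
  have hτ : ∀ l : G → D.Pt, ∃ τ : G ≃ G, ∀ ψ, (fun g => cen (D.act g ψ)) = l →
      ∀ g, cen (D.act (τ g) ψ₀) = cen (D.act g ψ) := fun l => by
    by_cases h : ∃ ψ, (fun g => cen (D.act g ψ)) = l
    · obtain ⟨ψ, rfl⟩ := h
      exact (D.mult cen ha ψ ψ₀).imp fun τ h ψ' h' g => (h g).trans (congrFun h' g).symm
    · exact ⟨1, fun ψ h' => absurd ⟨ψ, h'⟩ h⟩
  choose τ hτ using hτ
  obtain ⟨C, -, hC, hπ, -⟩ := D.cst
  have htr : ∀ M b, ‖D.tr M b‖ ≤ C * ‖b‖ := fun M =>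
    LinearMap.norm_extendOfNorm_apply_le (e := D.ι.toLinearMap) D.dense C (hπ M)
  choose I hI using fun g j => D.locB cen R h0 ha fun l => if τ l g = j then 1 else 0
  choose Θ hΘ using fun j g => Metric.denseRange_iff.1 D.dense (I g j) (1 / 2 / C) (by positivity)
  obtain ⟨m, hm⟩ := D.deg fun x : G × G => Θ x.1 x.2
  let E : G → G → D.B := fun g g' => ∑ j, I g j * D.ι (Θ j g') - if g = g' then 1 else 0
  have hE : ∀ ψ g g', D.evl ψ (E g g') =
      ψ.1 (Θ (τ (fun g => cen (D.act g ψ)) g) g') - if g = g' then 1 else 0 := fun ψ g g' => by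
    simp [E, hI, evl_ι, apply_ite (D.evl ψ)]
  let H : (G → D.B) →+ (G → D.B) := AddMonoidHom.mk' (fun y g => ∑ g', E g g' * D.tr m (y g'))
    fun y z => by ext1 g; simp [mul_add, Finset.sum_add_distrib]
  have hH : ∀ y, ‖H y‖ ≤ 1 / 2 * ‖y‖ := fun y => by
    refine (pi_norm_le_iff_of_nonneg (by positivity)).2 fun g => D.nle' (by positivity) fun ψ => ?_
    change ‖D.evl ψ (∑ g', E g g' * D.tr m (y g'))‖ ≤ _
    rw [map_sum]
    refine IsUltrametricDist.norm_sum_le_of_forall_le_of_nonneg (by positivity) fun g' _ => ?_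
    have h4 := (hΘ (τ (fun g => cen (D.act g ψ)) g) g').le
    rw [dist_eq_norm] at h4
    replace h4 := (D.le' _ ψ).trans h4
    rw [map_sub, hI, evl_ι, norm_sub_rev] at h4
    simp only [EmbeddingLike.apply_eq_iff_eq, eq_comm (a := g')] at h4
    rw [map_mul, norm_mul, hE]
    refine (mul_le_mul h4 ((D.le' _ ψ).trans ((htr m _).trans (mul_le_mul_of_nonneg_left
      (norm_le_pi_norm y g') (by positivity)))) (norm_nonneg _) (by positivity)).trans_eq ?_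
    field_simp
  refine ⟨m, fun j => cen (D.act j ψ₀), Θ, fun j g => (hm (j, g)).2, fun e => ?_⟩
  choose L hL using fun i g => D.locB cen R h0 ha fun l => (l g).1 (w i) ^ p ^ e
  choose y hy hn using fun i => solve H hH fun g => D.ι (D.σ g (w i) ^ p ^ e) - L i g
  refine ⟨y, fun i g => (norm_le_pi_norm _ g).trans ((hn i).trans ?_), fun ψ =>
    ⟨τ fun g => cen (D.act g ψ), fun g i => ?_⟩⟩
  · refine mul_le_mul_of_nonneg_left ((pi_norm_le_iff_of_nonneg (by positivity)).2 fun g =>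
      D.nle' (by positivity) fun ψ => ?_) zero_le_two
    rw [map_sub, hL, evl_ι, map_pow, ← sub_pow_char_pow, norm_pow, ← dist_eq_norm]
    exact pow_le_pow_left₀ dist_nonneg ((dist_le_pi_dist _ _ i).trans (h2 (D.act g ψ))) _
  · have h4 : D.evl ψ (y i g + ∑ g', E g g' * D.tr m (y i g')) = _ :=
      congrArg (D.evl ψ) (congrFun (hy i) g)
    simp only [map_add, map_sub, map_sum, map_mul, hE, hL, sub_mul, Finset.sum_sub_distrib, ite_mul,
      one_mul, zero_mul, Finset.sum_ite_eq, Finset.mem_univ, if_true, evl_ι,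
      AlgHom.commutes, hτ _ ψ rfl, Algebra.algebraMap_self, RingHom.id_apply] at h4 ⊢
    linear_combination -h4

theorem mU : ∃ (C : ℝ) (k : ℕ), 0 ≤ C ∧ ∀ (ψ : S →ₐ[F] F) (m : ℕ) (s : S) (b : D.B),
    1 ≤ ‖ψ D.T‖ → ∃ v, ‖v - ψ s‖ ≤ C * ‖ψ D.T‖ ^ (m + k) * ‖b‖ ∧
      (D.ι s - (b - D.tr m b), v) ∈ Cl (D.ι.prod ψ) D.filV := by
  obtain ⟨C, k, hC, hπ, -, h⟩ := D.cst
  refine ⟨C * (1 + C), k, by positivity, fun ψ m s b hψ => ?_⟩
  have h1 : ∀ s, (LinearMap.id - D.π m : S →ₗ[F] S) s ∈ D.V m := fun s =>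
    (D.mem_V _ _).2 fun x hx => by simp [repr_π, hx]
  obtain ⟨z, hz, h2⟩ := D.ext D.ι ψ (D.V m) _ h1 (fun b => b - D.tr m b) (by fun_prop)
    (fun s => by simp [tr_ι]) (C * (1 + C) * ‖ψ D.T‖ ^ (m + k)) (fun s => by
      refine (h ψ m _ hψ (h1 s)).trans ?_
      rw [mul_right_comm C (1 + C), mul_assoc _ (1 + C), add_mul, one_mul]
      refine mul_le_mul_of_nonneg_left ?_ (by positivity)
      simpa using (norm_sub_le _ _).trans (add_le_add_right (hπ m s) ‖D.ι s‖)) b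
  exact ⟨ψ s - z, by simpa using hz, sub_mem (map_mem_Cl (D.ι.prod ψ) D.filV s) ⟨m, h2⟩⟩

theorem mD (m : ℕ) (Θ : G → G → S) (hΘ : ∀ j g, (D.T : S) ^ m * Θ j g ∈ D.O) :
    ∃ C : ℝ, 0 ≤ C ∧ ∀ (χ : D.O →ₐ[F] F) (j : G) (a : F) (y : G → D.B) (K : ℝ),
      ‖χ ⟨D.T, D.hT⟩‖ ≤ 1 → 0 ≤ K → (∀ g, ‖y g‖ ≤ K) → ∃ v, ‖v - a‖ ≤ C * K ∧
      (algebraMap F _ a + ∑ g, D.ι (Θ j g) * D.tr m (y g), v) ∈
        Cl ((D.ι.comp D.O.val).prod χ) D.filO := by
  obtain ⟨C, k, hC, hπ, h, -⟩ := D.cst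
  let N : ℝ := ‖fun x : G × G => D.ι (Θ x.1 x.2)‖
  have hN : 0 ≤ N := norm_nonneg _
  refine ⟨C * (N * C), by positivity, fun χ j a y K hχ hK hy => ?_⟩
  have h1 : ∀ g s, (LinearMap.mulLeft F (Θ j g)).comp (D.π m) s ∈ D.O.toSubmodule := fun g s => by
    have h2 : ((D.T ^ (-m : ℤ) : Sˣ) : S) * D.π m s ∈ D.O := (D.mem_O _).2 fun x hx => by
      rw [repr_shift, repr_π, if_neg (by simp only; omega)]
    have h3 := mul_mem (hΘ j g) h2
    rwa [mul_mul_mul_comm, ← Units.val_pow_eq_pow_val, ← Units.val_mul, zpow_neg, zpow_natCast,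
      mul_inv_cancel, Units.val_one, one_mul] at h3
  choose z hz h2 using fun g => D.ext (D.ι.comp D.O.val) χ ⊤ (LinearMap.codRestrict _ _ (h1 g))
    (fun _ => trivial) (fun b => D.ι (Θ j g) * D.tr m b) (by fun_prop)
    (fun s => by rw [tr_ι, ← map_mul]; rfl) (C * (N * C)) (fun s => by
      refine (h χ _ hχ).trans ?_
      rw [mul_assoc, mul_assoc]
      refine mul_le_mul_of_nonneg_left ?_ (by positivity)
      change ‖D.ι (Θ j g * D.π m s)‖ ≤ _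
      rw [map_mul]
      exact (norm_mul_le _ _).trans (mul_le_mul
        (norm_le_pi_norm (fun x : G × G => D.ι (Θ x.1 x.2)) (j, g)) (hπ m s) (norm_nonneg _) hN))
    (y g)
  refine ⟨a + ∑ g, z g, ?_, ?_⟩
  · rw [add_sub_cancel_left]
    exact IsUltrametricDist.norm_sum_le_of_forall_le_of_nonneg (by positivity) fun g _ =>
      (hz g).trans (mul_le_mul_of_nonneg_left (hy g) (by positivity))
  · rw [← Prod.mk_add_mk, prod_mk_sum]
    exact add_mem (Subalgebra.algebraMap_mem _ a) (sum_mem fun g _ => ⟨0, h2 g⟩)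

end Dat

theorem patch : PATCH_s := by
  intro p _ F _ _ _ _ _ S J G κ _ _ _ _ _ _ _ _ T O hT β σ η Δ w ρ Λ hβ hO hσ hN hΔ hη hX hρ hΛ
  let D : Dat F S J G := ⟨T, O, hT, β, σ, η, Δ, hβ, hO, hσ, hN, hΔ, hη, hX⟩
  obtain ⟨m, c, Θ, hΘ, h⟩ := D.core p w hρ.le Λ hΛ
  obtain ⟨C, k, hC, hU⟩ := D.mU
  obtain ⟨C', hC', hD⟩ := D.mD m Θ hΘ
  obtain ⟨C₀, k₀, -, -, hb, hb'⟩ := D.cst
  refine ⟨(C + C') * 2, m + k, fun e => ?_⟩
  obtain ⟨y, hy, h⟩ := h e
  obtain ⟨j₀⟩ : Nonempty G := inferInstance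
  set sU : G → κ → D.B := fun g i => D.ι (σ g (w i) ^ p ^ e) - (y i g - D.tr m (y i g))
  set sD : G → κ → D.B := fun j i => algebraMap F _ ((c j).1 (w i) ^ p ^ e) +
    ∑ g', D.ι (Θ j g') * D.tr m (y i g')
  have h1 : ∀ P : MvPolynomial κ F, ∏ g, (X - Polynomial.C (MvPolynomial.aeval (sU g) P)) =
      ∏ g, (X - Polynomial.C (MvPolynomial.aeval (sD g) P)) := fun P => by
    refine Polynomial.ext fun n => D.extB fun ψ => ?_
    obtain ⟨τ, hτ⟩ := h ψ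
    have h1 := prod_map (D.evl ψ) sU P
    rw [Fintype.prod_equiv τ (fun g => X - Polynomial.C (MvPolynomial.aeval
      (fun i => D.evl ψ (sU g i)) P)) (fun j => X - Polynomial.C (MvPolynomial.aeval
      (fun i => D.evl ψ (sD j i)) P)) fun g => by rw [funext (hτ g)], ← prod_map] at h1
    simpa using congrArg (coeff · n) h1
  have hD' := fun χ hχ j i => hD χ j ((c j).1 (w i) ^ p ^ e) (y i) _ hχ (by positivity) (hy i)
  have hU' := fun ψ hψ g i => hU ψ m (σ g (w i) ^ p ^ e) (y i g) hψ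
  have h2 : ∀ P : MvPolynomial κ F, ∃ Q : O[X], Q.Monic ∧
      Q.map (D.ι.comp D.O.val : O →+* D.B) =
        ∏ g, (X - Polynomial.C (MvPolynomial.aeval (sD g) P)) := fun P => by
    refine (lifts_and_natDegree_eq_and_monic ((lifts_iff_coeff_lifts _).2 fun n => ?_)
      (monic_prod_of_monic _ _ fun g _ => monic_X_sub_C _)).imp fun Q h => ⟨h.2.2, h.1⟩
    refine D.liou (coeff_mem _ _ (fun g i => ?_) P n) (h1 P ▸ coeff_mem _ _ (fun g i => ?_) P n)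
    · exact fst_mem _ _ _ (hD' ((c j₀).1.comp D.O.val) (c j₀).2.le g i).choose_spec.2
    · exact fst_mem _ _ _ (hU' (c j₀).1 (c j₀).2.ge g i).choose_spec.2
  choose Q hQ h2 using h2
  have h3 : ∀ P, (Q P).eval₂ (D.ι.comp D.O.val : O →+* D.B) (MvPolynomial.aeval (sD j₀) P) = 0 :=
    fun P => by
      rw [← eval_map, h2, eval_prod]
      exact Finset.prod_eq_zero (Finset.mem_univ j₀) (by rw [eval_sub, eval_X, eval_C, sub_self])
  obtain ⟨A, _, _, _, a, ξ, ha, ha', h4⟩ := mkA (D.ι.comp D.O.val)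
    (D.inj.comp Subtype.val_injective) (sD j₀) fun i =>
      ⟨_, hQ (MvPolynomial.X i), by simpa using h3 (MvPolynomial.X i)⟩
  refine ⟨A, _, inferInstance, _, a, ξ, ha, ha', fun P χ => ?_⟩
  have h5 : ((Q P).map (χ.comp a : O →+* F)).eval (χ (MvPolynomial.aeval ξ P)) = 0 := by
    have := congrArg (χ : A →+* F) (h4 P _ (h3 P))
    rw [hom_eval₂, map_zero] at this
    rwa [eval_map]
  have h6 : 0 ≤ ρ ^ p ^ e := by positivity
  rcases le_total ‖χ (a ⟨T, hT⟩)‖ 1 with ht | ht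
  · choose v hv hv' using hD' (χ.comp a) ht
    rw [root _ _ D.filO (fun _ => ⟨C₀, fun s _ => hb _ s ht⟩) sD v hv' P _ (h2 P), eval_prod,
      Finset.prod_eq_zero_iff] at h5
    obtain ⟨j, -, hj⟩ := h5
    refine ⟨(c j).1, v j, by simpa [sub_eq_zero] using hj,
      (c j).2.trans (max_eq_left ht).symm, fun i => (hv j i).trans ?_⟩
    rw [show ‖(c j).1 T‖ = 1 from (c j).2, one_pow]
    nlinarith [mul_nonneg hC h6]
  · obtain ⟨ψ, hψ⟩ := D.lift (χ.comp a) (norm_pos_iff.1 (one_pos.trans_le ht))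
    have h7 : ψ T = χ (a ⟨T, hT⟩) := hψ ⟨T, hT⟩
    have h8 : 1 ≤ ‖ψ T‖ := h7 ▸ ht
    choose v hv hv' using hU' ψ h8
    have h9 := root _ _ D.filV (fun M => ⟨_, fun s hs => hb' ψ M s h8 hs⟩) sU v hv' P
      ((Q P).map (D.O.val : O →+* S)) (by rw [Polynomial.map_map, h1, ← h2]; rfl)
    rw [Polynomial.map_map, show (ψ : S →+* F).comp (D.O.val : O →+* S) = χ.comp a from
      RingHom.ext hψ] at h9
    rw [h9, eval_prod, Finset.prod_eq_zero_iff] at h5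
    obtain ⟨g, -, hg⟩ := h5
    have h10 : ψ.comp (σ g) T = ψ T := congrArg ψ (hσ g)
    refine ⟨ψ.comp (σ g), v g, by simpa [sub_eq_zero] using hg,
      by rw [h10, h7, max_eq_right ht], fun i => ?_⟩
    rw [h10, AlgHom.comp_apply, ← map_pow]
    refine (hv g i).trans ((mul_le_mul_of_nonneg_left (hy i g) (by positivity)).trans ?_)
    change C * ‖ψ T‖ ^ (m + k) * _ ≤ _
    nlinarith [mul_nonneg (mul_nonneg hC' h6) (pow_nonneg (norm_nonneg (ψ T)) (m + k))]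

end Pool.Agent.MP_855f4c_ag.Pat

end

section

/-! h92c, section P: the curve in the tube from the Galois closure and patching. -/

open Polynomial Function

namespace Pool.Agent.MP_855f4c_ag.Pt

theorem Cur.near (p : ℕ) [Fact p.Prime] {F σ : Type} [NormedField F] [IsUltrametricDist F]
    [CharP F p] [Fintype σ] (s : ℕ) {u v : σ → F} (o : σ) {δ μ : ℝ} (δ0 : 0 ≤ δ) (δ1 : δ < 1)
    (hμ : μ = max 1 ‖u o‖) (hu : ∀ i, ‖u i‖ ≤ μ) (h : ∀ i, ‖v i - u i ^ p ^ s‖ ≤ δ * μ ^ p ^ s) :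
    max 1 ‖v o‖ = μ ^ p ^ s ∧ (∀ i, ‖v i‖ ≤ μ ^ p ^ s) ∧
    ∀ (P : MvPolynomial σ F) (e : ℕ) (α : ℝ), P.totalDegree ≤ e → (∀ d, ‖P.coeff d‖ ≤ 1) →
      δ ≤ α ^ p ^ s → ‖MvPolynomial.eval u P‖ ≤ α * μ ^ e →
      ‖MvPolynomial.eval v (MvPolynomial.map (iterateFrobenius F p s) P)‖ ≤
        α ^ p ^ s * (μ ^ p ^ s) ^ e := by
  have μ1 : 1 ≤ μ := hμ ▸ le_max_left _ _
  have M1 : 1 ≤ μ ^ p ^ s := one_le_pow₀ μ1
  have hU : ∀ i, ‖u i ^ p ^ s‖ ≤ μ ^ p ^ s := fun i => by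
    rw [norm_pow]; exact pow_le_pow_left₀ (norm_nonneg _) (hu i) _
  have lt : ∀ i, ‖v i - u i ^ p ^ s‖ < μ ^ p ^ s := fun i => (h i).trans_lt (by nlinarith)
  have hv : ∀ i, ‖v i‖ ≤ μ ^ p ^ s := fun i => by
    rw [← sub_add_cancel (v i) (u i ^ p ^ s)]; exact Gs.add_le (lt i).le (hU i)
  refine ⟨le_antisymm (max_le M1 (hv o)) ?_, hv, fun P e α he hP hδ hα => ?_⟩
  · rcases le_total ‖u o‖ 1 with h1 | h1
    · rw [hμ, max_eq_left h1, one_pow]; exact le_max_left _ _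
    · refine le_trans (not_lt.1 fun h2 => ?_) (le_max_right _ _)
      have := Gs.sub_le (le_max_left ‖v o‖ ‖v o - u o ^ p ^ s‖) (le_max_right _ _)
      rw [sub_sub_cancel, norm_pow, ← max_eq_right h1, ← hμ] at this
      exact absurd (max_lt h2 (lt o)) (not_lt.2 this)
  · have h1 := Cur.evalsub (MvPolynomial.map (iterateFrobenius F p s) P)
      ((Finset.sup_mono (MvPolynomial.support_map_subset _ _)).trans he) (fun d => by
        rw [MvPolynomial.coeff_map, iterateFrobenius_def, norm_pow]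
        exact pow_le_one₀ (norm_nonneg _) (hP d)) δ0 M1 hv hU h
    have h2 := Cur.frob p (RingHom.id F) s u P
    rw [RingHom.comp_id, MvPolynomial.eval₂_id, MvPolynomial.eval₂_eq_eval_map] at h2
    rw [← sub_add_cancel (MvPolynomial.eval v _) (MvPolynomial.eval u P ^ p ^ s)]
    refine Gs.add_le ?_ ?_
    · rw [← h2]
      exact h1.trans (mul_le_mul_of_nonneg_right hδ (by positivity))
    · rw [norm_pow]
      refine (pow_le_pow_left₀ (norm_nonneg _) hα _).trans_eq ?_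
      rw [mul_pow, ← pow_mul, ← pow_mul, mul_comm e]

theorem cur (hG : Gal.GAL_s) (hP : Pat.PATCH_s) : CUR_s := by
  classical
  intro p _ F _ _ _ _ _ S σ J _ _ _ _ x o P e a τ D ρ Z inj _ hint D0 τ0 τ1 ρ0 ρa a1 hPk H
  obtain ⟨R, J', G, _, _, _, _, _, _, _, T, O, hT, β, σ', η, Δ, w, n, h1, h2, h3, h4, h5, h6, h7,
    h8, h9, h10⟩ := hG p F S σ x inj hint
  obtain ⟨C₀, m, hA⟩ := hP p F R J' G σ T O hT β σ' η Δ w (ρ ^ p ^ n)
    (Z.image fun z i => z i ^ p ^ n) h1 h2 h3 h4 h5 h6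
    (fun t ht => h7 t (norm_pos_iff.1 (by rw [ht]; exact one_pos))) (by positivity) fun ψ hψ => by
      obtain ⟨φ, e1, e2⟩ := h10 ψ
      obtain ⟨z, hz, hz'⟩ := (H φ _ e1 hψ.ge).2.2.2 hψ
      refine ⟨_, Finset.mem_image_of_mem _ hz, fun i => ?_⟩
      rw [e2, ← sub_pow_char_pow, norm_pow]
      exact pow_le_pow_left₀ (norm_nonneg _) (hz' i) _
  have a0 : 0 < ‖a‖ := ρ0.trans ρa
  have t0 : 0 < ‖τ‖ := norm_pos_iff.2 τ0
  have r1 : ρ / ‖a‖ < 1 := (div_lt_one a0).2 ρa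
  obtain ⟨N, hN⟩ := exists_pow_lt_of_lt_one
    (show 0 < ‖τ‖ ^ m / (|C₀| + 1) by positivity) r1
  refine ⟨n + N + D * m, fun s hs => ?_⟩
  obtain ⟨e₀, rfl⟩ : ∃ e₀, s = n + e₀ := ⟨s - n, by omega⟩
  have hQ : n + e₀ < p ^ (n + e₀) := Nat.lt_pow_self (Fact.out : p.Prime).one_lt
  obtain ⟨A, _, _, _, a', ξ, i1, n1, hχ⟩ := hA e₀
  set Q := p ^ (n + e₀) with hQ'
  let δ := (|C₀| + 1) / ‖τ‖ ^ m * ρ ^ Q
  have δ0 : 0 ≤ δ := by positivity
  have δa : δ < ‖a‖ ^ Q := by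
    have := (pow_le_pow_of_le_one (by positivity) r1.le (show N ≤ Q by omega)).trans_lt hN
    rw [div_pow, div_lt_div_iff₀ (by positivity) (by positivity)] at this
    rw [show δ = ρ ^ Q * (|C₀| + 1) / ‖τ‖ ^ m by ring, div_lt_iff₀ (by positivity), mul_comm (_ ^ Q)
      (‖τ‖ ^ m)]
    exact this
  have δ1 : δ < 1 := δa.trans_le (pow_le_one₀ a0.le a1)
  let g₁ : F[X] →+* A := (a' : O →+* A).comp (aeval (⟨T, hT⟩ : O) : F[X] →ₐ[F] O)
  have gC : ∀ c, g₁ (C c) = algebraMap F A c := fun c => by simp [g₁]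
  have key : ∀ χ : A →+* F, (∀ c, χ (algebraMap F A c) = c) → ∃ μ : ℝ, 1 ≤ μ ∧
      μ ^ D = max 1 (‖τ‖ * max 1 ‖χ (g₁ X)‖) ∧ max 1 ‖χ (ξ o)‖ = μ ^ Q ∧
      (∀ i, ‖χ (ξ i)‖ ≤ μ ^ Q) ∧ ∀ k, ‖MvPolynomial.eval₂ (iterateFrobenius F p (n + e₀)) (χ ∘ ξ)
        (P k)‖ ≤ ‖a‖ ^ Q * (μ ^ Q) ^ e k := fun χ hc => by
    have one : ∀ P' : MvPolynomial σ F, ∃ (v : σ → F) (μ : ℝ), 1 ≤ μ ∧
        μ ^ D = max 1 (‖τ‖ * max 1 ‖χ (g₁ X)‖) ∧
        MvPolynomial.eval (χ ∘ ξ) P' = MvPolynomial.eval v P' ∧ max 1 ‖v o‖ = μ ^ Q ∧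
        (∀ i, ‖v i‖ ≤ μ ^ Q) ∧ ∀ k, ‖MvPolynomial.eval v (MvPolynomial.map
          (iterateFrobenius F p (n + e₀)) (P k))‖ ≤ ‖a‖ ^ Q * (μ ^ Q) ^ e k := fun P' => by
      obtain ⟨ψ, v, e1, e2, e3⟩ := hχ P' ⟨χ, hc⟩
      obtain ⟨φ, e4, e5⟩ := h10 ψ
      have y1 : 1 ≤ ‖ψ T‖ := e2 ▸ le_max_left _ _
      obtain ⟨k1, k2, k3, -⟩ := H φ _ e4 y1
      rw [norm_mul] at k1
      have μ1 := le_max_left 1 ‖φ (x o)‖
      obtain ⟨l1, l2, l3⟩ := Cur.near p (n + e₀) (u := φ ∘ x) (v := v) o δ0 δ1 rfl k2 fun i => by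
        have := e3 i
        rw [e5, ← pow_mul, ← pow_mul, ← pow_add] at this
        refine this.trans ?_
        have b1 : (‖τ‖ * ‖ψ T‖) ^ m ≤ max 1 ‖φ (x o)‖ ^ Q :=
          (pow_le_pow_left₀ (by positivity) (k1 ▸ le_max_right _ _) m).trans (by
            rw [← pow_mul]; exact pow_le_pow_right₀ μ1 (by omega))
        refine le_trans ?_ (mul_le_mul_of_nonneg_left b1 δ0)
        rw [show δ * (‖τ‖ * ‖ψ T‖) ^ m = (|C₀| + 1) * ρ ^ Q * ‖ψ T‖ ^ m by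
          simp only [δ, mul_pow]; field_simp]
        gcongr
        linarith [le_abs_self C₀]
      refine ⟨v, _, μ1, ?_, Eq.trans ?_ e1, l1, l2, fun k =>
        l3 _ _ _ (hPk k).1 (hPk k).2 δa.le (k3 k)⟩
      · rw [k1, e2]; simp [g₁]
      · change _ = χ _
        rw [MvPolynomial.aeval_def, MvPolynomial.eval₂_comp_left,
          show χ.comp (algebraMap F A) = RingHom.id F from RingHom.ext hc, MvPolynomial.eval₂_id]
    obtain ⟨v, μ, μ1, hD, e1, l1, -⟩ := one (MvPolynomial.X o)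
    have un : ∀ ν : ℝ, 1 ≤ ν → ν ^ D = max 1 (‖τ‖ * max 1 ‖χ (g₁ X)‖) → ν = μ := fun ν ν1 h =>
      (pow_left_inj₀ (by positivity) (by positivity) D0.ne').1 (h.trans hD.symm)
    refine ⟨μ, μ1, hD, ?_, fun i => ?_, fun k => ?_⟩
    · rw [← l1]; simpa using congrArg (fun t => max 1 ‖t‖) e1
    · obtain ⟨v, ν, ν1, hν, e1, -, l2, -⟩ := one (MvPolynomial.X i)
      rw [← un ν ν1 hν, show χ (ξ i) = v i by simpa using e1]
      exact l2 i
    · obtain ⟨v, ν, ν1, hν, e1, -, -, l3⟩ :=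
        one (MvPolynomial.map (iterateFrobenius F p (n + e₀)) (P k))
      rw [← un ν ν1 hν, MvPolynomial.eval₂_eq_eval_map, e1]
      exact l3 k
  obtain ⟨i2, n2⟩ : Injective (eval₂RingHom (g₁.comp C) (ξ o)) ∧
      (eval₂RingHom (g₁.comp C) (ξ o)).IsIntegral := by
    let _ := g₁.toAlgebra
    have : Algebra.IsIntegral F[X] A := ⟨RingHom.IsIntegral.trans _ _ h9 n1⟩
    refine Bdd.par (i1.comp h8) (ξ o) D Q (‖τ‖ ^ Q) (2 / ‖τ‖) D0 (by omega) (by positivity)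
      fun χ y hy My => ?_
    obtain ⟨μ, μ1, hD, l1, -⟩ := key χ fun c => by
      rw [← gC]; exact (RingHom.congr_fun hy (C c)).trans eval_C
    have ey : χ (g₁ X) = y := (RingHom.congr_fun hy X).trans eval_X
    rw [div_le_iff₀ t0] at My
    have y1 : 1 ≤ ‖y‖ := by nlinarith [norm_nonneg y]
    rw [ey, max_eq_right y1, max_eq_right (by linarith)] at hD
    have : 1 < μ ^ Q := one_lt_pow₀ (lt_of_le_of_ne μ1 fun h => by
      rw [← h, one_pow] at hD; linarith) (by omega)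
    rcases max_cases 1 ‖χ (ξ o)‖ with h | h
    · linarith [h.1]
    · rw [← h.1, l1, ← pow_mul, mul_comm, pow_mul, hD, mul_pow]
  let _ := (eval₂RingHom (g₁.comp C) (ξ o)).toAlgebra
  have : Algebra.IsIntegral F[X] A := ⟨n2⟩
  refine Cur.core p i2 ξ o (eval₂_X _ _).symm P e a (norm_pos_iff.1 a0) _ fun χ hc => ?_
  obtain ⟨μ, -, -, l1, l2, l3⟩ := key χ fun c => by
    rw [← gC]; exact (congrArg χ (eval₂_C (g₁.comp C) (ξ o)).symm).trans (hc c)
  rw [l1]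
  exact ⟨l2, l3⟩

end Pool.Agent.MP_855f4c_ag.Pt

end
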