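import Pool.Agent.MP_855f4c_ag.TC.Tc

set_option linter.all false

section

/-! h92c: statements, part 0 (field, patching, nodal model). -/

open MvPolynomial Filter

namespace Pool.Agent.MP_855f4c_ag.Cu

open T G.Apx

/-! ### Approximate sums of powers -/

section
variable (p : ℕ) [Fact p.Prime]

/-- The approximate root of a sum of powers. -/
noncomputable def asum {A ι : Type} [CommRing A] (t : A) (N : ℕ) (s : Finset ι) (z : ι → A) : A :=
  (xs p t (∑ i ∈ s, WittVector.teichmuller p (z i)) N).coeff 0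

/-- The approximating polynomial; `β` chooses roots of the coefficients. -/
noncomputable def fl {σ Ω A : Type} [CommRing Ω] [CommRing A] (β : Ω → A) (t : A) (N : ℕ)
    (P : MvPolynomial σ Ω) : MvPolynomial σ A :=
  asum p (C t) N P.support fun m => monomial m (β (coeff m P))

end

/-- Coefficients of norm at most one. -/
def In1 {σ F : Type} [NormedField F] (P : MvPolynomial σ F) : Prop := ∀ m, ‖coeff m P‖ ≤ 1

def FL_s : Prop := ∀ (p : ℕ) [Fact p.Prime],
  (∀ (A A' ι : Type) [CommRing A] [CommRing A'] (φ : A →+* A') (t : A) (N : ℕ) (s : Finset ι)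
    (z : ι → A), φ (asum p t N s z) = asum p (φ t) N s (φ ∘ z)) ∧
  (∀ (A ι : Type) [CommRing A] (t c : A) (N : ℕ) (s : Finset ι) (z : ι → A),
    asum p t N s (fun i => c * z i) = c ^ p ^ N * asum p t N s z) ∧
  (∀ (A ι : Type) [CommRing A] (t : A) (N : ℕ) (i : ι) (z : ι → A),
    asum p t N {i} z = z i ^ p ^ N) ∧
  (∀ (σ Ω A A' : Type) [CommRing Ω] [CommRing A] [CommRing A'] (β : Ω → A) (t : A) (N : ℕ)
    (P : MvPolynomial σ Ω) (φ : A →+* A') (x : σ → A'), eval₂ φ x (fl p β t N P) =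
      asum p (φ t) N P.support fun m => φ (β (coeff m P)) * m.prod fun i k => x i ^ k) ∧
  (∀ (σ Ω A M : Type) [CommRing Ω] [CommRing A] [AddCommMonoid M] (β : Ω → A) (t : A) (N : ℕ)
    (P : MvPolynomial σ Ω) (w : σ → M) (e : M), P.IsWeightedHomogeneous w e →
      (fl p β t N P).IsWeightedHomogeneous w (p ^ N • e)) ∧
  (∀ (σ Ω A : Type) [CommRing Ω] [CommRing A] (β : Ω → A) (t : A) (N : ℕ)
    (P : MvPolynomial σ Ω) (w : σ → ℕ) (e : ℕ), weightedTotalDegree w P ≤ e →
      weightedTotalDegree w (fl p β t N P) ≤ p ^ N * e ∧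
      weightedHomogeneousComponent w (p ^ N * e) (fl p β t N P) =
        fl p β t N (weightedHomogeneousComponent w e P)) ∧
  (∀ (σ Ω F : Type) [CommRing Ω] [NormedField F] [IsUltrametricDist F] (β : Ω → F) (t : F) (N : ℕ)
    (P : MvPolynomial σ Ω), ‖t‖ ≤ 1 → (∀ m, ‖β (coeff m P)‖ ≤ 1) → In1 (fl p β t N P)) ∧
  ∀ (L ι : Type) [Field L] (W : ValuationSubring L) (t : L) (N k : ℕ) (s : Finset ι) (z : ι → L),
    (p : L) ≠ 0 → N ≤ k → t ^ p ^ k = p → (∀ i ∈ s, z i ∈ W) →
    (∃ w ∈ W, asum p t N s z ^ p ^ (k - N) = (p : L) ^ N * w) →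
    ∃ w ∈ W, ∑ i ∈ s, z i ^ p ^ k = (p : L) ^ N * w

/-! ### The field of characteristic `p` -/

/-- `F` is the cone at the scales `p ^ M`, `F'` the cone at scale one. -/
structure Tl (p : ℕ) [Fact p.Prime] (F F' : Type) [NormedField F] [NormedField F'] where
  U : Ultrafilter ℕ
  le : (U : Filter ℕ) ≤ atTop
  B : Subring (ℕ → PadicAlgCl p)
  mem : ∀ s, s ∈ B ↔ ∃ c : ℝ, ∀ᶠ M in U, ‖s M‖ ^ p ^ M ≤ c
  π : B →+* F
  surj : Function.Surjective π
  lim : ∀ s : B, Tendsto (fun M => ‖s.1 M‖ ^ p ^ M) U (nhds ‖π s‖)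
  rt : PadicAlgCl p → B
  rt_pow : ∀ c M, (rt c).1 M ^ p ^ M = c
  rt_one : rt 1 = 1
  ι : PadicAlgCl p →+* F'
  ι_norm : ∀ c, ‖ι c‖ = ‖c‖
  sh : F →*₀ F'
  sh_norm : ∀ z, ‖sh z‖ = ‖z‖
  sh_rt : ∀ c, sh (π (rt c)) = ι c
  ap2 : ∀ (I : Type) (s : Finset I) (z : I → F) (N : ℕ), (∀ i ∈ s, ‖z i‖ ≤ 1) →
    ‖∑ i ∈ s, sh (z i)‖ ^ p ^ N ≤
      max ‖asum p (π (rt p)) N s z‖ (‖(p : PadicAlgCl p)‖ ^ (N * p ^ N)) ∧
    ‖asum p (π (rt p)) N s z‖ ≤
      max (‖∑ i ∈ s, sh (z i)‖ ^ p ^ N) (‖(p : PadicAlgCl p)‖ ^ (N * p ^ N))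

/-- The image of the chosen roots. -/
noncomputable def Tl.β {p : ℕ} [Fact p.Prime] {F F' : Type} [NormedField F] [NormedField F'] (T : Tl p F F')
    (c : PadicAlgCl p) : F := T.π (T.rt c)

/-- The value at level `M`. -/
noncomputable def Tl.lv {p : ℕ} [Fact p.Prime] {F F' : Type} [NormedField F] [NormedField F'] (T : Tl p F F')
    (M : ℕ) : T.B →+* PadicAlgCl p := (Pi.evalRingHom (fun _ => PadicAlgCl p) M).comp T.B.subtype

def F0_s : Prop := ∀ (p : ℕ) [Fact p.Prime], ∃ (F F' : Type) (_ : NormedField F)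
  (_ : NormedField F'), IsUltrametricDist F ∧ IsUltrametricDist F' ∧ CompleteSpace F ∧
    IsAlgClosed F ∧ CharP F p ∧ Uncountable F ∧ Nonempty (Tl p F F')

def LIFT_s : Prop := ∀ (p : ℕ) [Fact p.Prime] (F F' : Type) [NormedField F] [NormedField F']
  (T : Tl p F F') (R : Type) [CommRing R] [Algebra.Smooth ℤ R] (a : R →+* F),
    ∃ b : R →+* T.B, T.π.comp b = a

def GEN_s : Prop := ∀ (F : Type) [NormedField F] [Uncountable F] (t : F), 0 < ‖t‖ → ‖t‖ < 1 →
  ∀ (E : Subfield F) [Countable E] (I : Type) [Finite I] (y₀ : I → F) (ρ : ℝ), 0 < ρ →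
    ∃ y : I → F, AlgebraicIndependent E y ∧ ∀ i, ‖y i - y₀ i‖ ≤ ρ

/-- `ψ` maps the integers into `W`. -/
def Vp {p : ℕ} [Fact p.Prime] {L : Type} [Field L] (W : ValuationSubring L)
    (ψ : PadicAlgCl p →+* L) : Prop := ∀ z, ‖z‖ ≤ 1 → ψ z ∈ W

def TR_s : Prop := ∀ (p : ℕ) [Fact p.Prime] (F F' : Type) [NormedField F] [NormedField F']
  [IsAlgClosed F] (T : Tl p F F') (σ ι : Type) [Finite σ] [Finite ι]
  (ρ : ι → MvPolynomial σ T.B) (P : MvPolynomial σ T.B),
    (∀ x : σ → F, (∀ i, eval₂ T.π x (ρ i) = 0) → eval₂ T.π x P = 0) → ∀ j : ℕ,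
    ∀ᶠ M in T.U, ∀ (L : Type) [Field L] (W : ValuationSubring L) (ψ : PadicAlgCl p →+* L)
      (x : σ → L), Vp W ψ → (∀ v, x v ∈ W) → (∀ i, eval₂ (ψ.comp (T.lv M)) x (ρ i) = 0) →
      ∃ w ∈ W, eval₂ (ψ.comp (T.lv M)) x P ^ p ^ M = (p : L) ^ j * w

/-! ### Data of a curve in characteristic zero -/

/-- Coordinates of a curve block. -/
abbrev CV (r : ℕ) : Type := Fin 2 ⊕ Fin r

/-- Monic of degree `m` in the extra variable, homogeneous of weight `w * m`. -/
def Mo {A : Type} [CommRing A] (w m : ℕ) (χ : MvPolynomial (Option (Fin 2)) A) : Prop :=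
  0 < m ∧ χ.IsWeightedHomogeneous (fun o => o.elim w fun _ => 1) (w * m) ∧
    coeff (Finsupp.single none m) χ = 1 ∧ χ.degreeOf none ≤ m

/-- A plane model with integral identities. -/
def CD {p : ℕ} [Fact p.Prime] {r u : ℕ} (J : Fin u → MvPolynomial (CV r) (PadicAlgCl p))
    (dJ : Fin u → ℕ) : Prop :=
  ∃ (d H : MvPolynomial (Option (Fin 2)) (PadicAlgCl p)) (δ N : ℕ)
    (A μ : Fin r → MvPolynomial (Option (Fin 2)) (PadicAlgCl p)) (m : Fin r → ℕ),
    0 < δ ∧ d.IsHomogeneous δ ∧ d.degreeOf none = 0 ∧ coeff (Finsupp.single (some 1) δ) d = 1 ∧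
    In1 d ∧ Mo 1 N H ∧ In1 H ∧
    (∀ i, (A i).IsHomogeneous (δ + 1) ∧ In1 (A i) ∧ Mo 1 (m i) (μ i) ∧
      (∀ b, ‖coeff b (μ i)‖ ≤ ‖(p : PadicAlgCl p)‖ ^ (m i - b none)) ∧
      ∃ B, In1 B ∧
        aeval (fun o : Option (Fin 2) => o.elim (A i) fun k => d * X (some k)) (μ i) = H * B) ∧
    ∀ j, (J j).IsHomogeneous (dJ j) ∧ In1 (J j) ∧ ∃ B, In1 B ∧
      aeval (Sum.elim (fun k => d * X (some k)) A) (J j) = H * B

def CD_s : Prop := ∀ (p : ℕ) [Fact p.Prime] (K : Type) [Field K] [Algebra K (PadicAlgCl p)]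
  (r u : ℕ) (J : Fin u → MvPolynomial (CV r) K) (dJ : Fin u → ℕ),
    (∀ j, (J j).IsHomogeneous (dJ j)) →
    (∀ w : CV r → PadicAlgCl p, (∀ j, aeval w (J j) = 0) → (∀ k, w (.inl k) = 0) → w = 0) →
    Set.Infinite {x | ∃ w : CV r → PadicAlgCl p, (∀ j, aeval w (J j) = 0) ∧ w (.inl 0) = 1 ∧
      w (.inl 1) = x} →
    ∃ (γ : CV r → MvPolynomial (CV r) K) (k : ℕ), (∀ v, (γ v).IsHomogeneous 1) ∧
      (∀ w : CV r → PadicAlgCl p, (∀ v, aeval w (γ v) = 0) → w = 0) ∧
      CD (fun j => map (algebraMap K (PadicAlgCl p)) (C ((p : K) ^ k) * aeval γ (J j))) dJ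

/-! ### Patching -/

/-- The point `(1, x, z)`. -/
def pt3 {A : Type} [One A] (x z : A) : Option (Fin 2) → A := fun o => o.elim z ![1, x]

/-- `z` is integral of weight `w` over the line with coordinate `x`. -/
def Mn (F : Type) {𝒦 : Type} [Field F] [Field 𝒦] [Algebra F 𝒦] (x : 𝒦) (w : ℕ) (z : 𝒦) : Prop :=
  ∃ (m : ℕ) (χ : MvPolynomial (Option (Fin 2)) F), Mo w m χ ∧ aeval (pt3 x z) χ = 0

/-- The same with coefficients of norm at most one. -/
def Bd (F : Type) {𝒦 : Type} [NormedField F] [Field 𝒦] [Algebra F 𝒦] (x : 𝒦) (w : ℕ) (z : 𝒦) :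
    Prop :=
  ∃ (m : ℕ) (χ : MvPolynomial (Option (Fin 2)) F), Mo w m χ ∧ In1 χ ∧ aeval (pt3 x z) χ = 0

/-- The elements that are integral over `F[x]`. -/
noncomputable def IC (F : Type) {𝒦 : Type} [Field F] [Field 𝒦] [Algebra F 𝒦] (x : 𝒦) :
    Subalgebra F 𝒦 := (integralClosure (Algebra.adjoin F {x}) 𝒦).restrictScalars F

/-- A function field with a coordinate. -/
def FF (F : Type) {𝒦 : Type} [Field F] [Field 𝒦] [Algebra F 𝒦] (x : 𝒦) : Prop :=
  Transcendental F x ∧ FiniteDimensional (IntermediateField.adjoin F {x}) 𝒦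

/-- The curve in characteristic `p` that lies in the tube. -/
def CURVE_s : Prop := ∀ (p : ℕ) [Fact p.Prime] (F F' : Type) [NormedField F] [NormedField F']
  [IsUltrametricDist F] [IsUltrametricDist F'] [CompleteSpace F] [IsAlgClosed F] [CharP F p]
  (T : Tl p F F') (r u : ℕ) (J : Fin u → MvPolynomial (CV r) (PadicAlgCl p)) (dJ : Fin u → ℕ),
    CD J dJ → ∀ n : ℕ, ∃ s₀ : ℕ, ∀ s ≥ s₀, ∃ (𝒦 : Type) (_ : Field 𝒦) (_ : Algebra F 𝒦) (x : 𝒦)
      (s₁ : ℕ) (ζ : Fin r → 𝒦), FF F x ∧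
      Algebra.IsSeparable (IntermediateField.adjoin F {x}) 𝒦 ∧
      (∀ i, Bd F x (p ^ s₁) (ζ i / algebraMap F 𝒦 (T.β p ^ p ^ (s + s₁)))) ∧
      ∀ j, Bd F x (p ^ s₁ * p ^ n * dJ j)
        (aeval (Sum.elim ![1, x ^ p ^ s₁] ζ)
          (fl p (fun c => T.β c ^ p ^ (s + s₁)) (T.β p ^ p ^ (s + s₁)) n (J j)) /
          algebraMap F 𝒦 (T.β p ^ (p ^ (s + s₁) * n * p ^ n)))

/-! ### Ambient systems of equations -/

section
variable {κ : Type} [Fintype κ] [DecidableEq κ]

/-- No pair of coordinates is zero. -/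
def Nz {k : Type} [Zero k] (x : XV κ → k) : Prop := ∀ j, ∃ i, x (j, i) ≠ 0

/-- Normalised coordinates. -/
def Nm {k : Type} [Zero k] [One k] (x : XV κ → k) : Prop :=
  ∀ j, x (j, 0) = 1 ∨ x (j, 0) = 0 ∧ x (j, 1) = 1

/-- The form with coefficients `cf` as a polynomial. -/
noncomputable def gp {R : Type} [CommRing R] {c : ℕ} {e : Fin c → κ → ℕ} (cf : MI e → R)
    (a : Fin c) : MvPolynomial (XV κ) R := gen (fun i => C (cf i)) a X

/-- Homogeneous of multidegree `n`. -/
abbrev Hx {R : Type} [CommRing R] (n : κ → ℕ) (P : MvPolynomial (XV κ) R) : Prop :=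
  P.IsWeightedHomogeneous (fun v => (Pi.single v.1 1 : κ → ℕ)) n

/-- A common zero. -/
def Ze {R k : Type} [CommRing R] [CommRing k] {c : ℕ} {e : Fin c → κ → ℕ} (cf : MI e → R)
    (ψ : R →+* k) (x : XV κ → k) : Prop := ∀ a, gen (ψ ∘ cf) a x = 0

/-- The gradients of the equations in `S` are independent at `x`. -/
def Ind {R k : Type} [CommRing R] [CommRing k] {c : ℕ} {e : Fin c → κ → ℕ} (cf : MI e → R)
    (ψ : R →+* k) (x : XV κ → k) (S : Finset (Fin c)) : Prop :=
  ∀ lam : Fin c → k, (∀ v, ∑ a ∈ S, lam a * eval₂ ψ x (pderiv v (gp cf a)) = 0) →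
    ∀ a ∈ S, lam a = 0

/-- Subsystems that generate the ideal locally. -/
structure Loc {R : Type} [CommRing R] {c : ℕ} {e : Fin c → κ → ℕ} (cf : MI e → R) where
  ns : ℕ
  S : Fin ns → Finset (Fin c)
  h : Fin ns → MvPolynomial (XV κ) R
  dh : Fin ns → κ → ℕ
  hom : ∀ σ, Hx (dh σ) (h σ)
  idn : ∀ σ a, h σ * gp cf a ∈ Ideal.span (gp cf '' S σ)

/-- The Jacobian criterion at the zeros over `ψ`. -/
def Loc.Sm {R k : Type} [CommRing R] [CommRing k] {c : ℕ} {e : Fin c → κ → ℕ} {cf : MI e → R}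
    (A : Loc cf) (ψ : R →+* k) : Prop :=
  ∀ x, Nz x → Ze cf ψ x → ∃ σ, eval₂ ψ x (A.h σ) ≠ 0 ∧ Ind cf ψ x (A.S σ)

/-- A system whose zero locus is a product of curves, finite over the lines `κ₀`. -/
structure Amb (κ₀ : Type) {R : Type} [CommRing R] {c : ℕ} {e : Fin c → κ → ℕ} (cf : MI e → R)
    extends Loc cf where
  pr : κ → κ₀
  inc : κ₀ → κ
  uu : κ₀ → κ
  j₀ : κ₀ → Fin c
  ω : κ → ℕ
  Δ : κ₀ → Polynomial R
  pr_inc : ∀ b, pr (inc b) = b
  pr_uu : ∀ b, pr (uu b) = b
  uu_ne : ∀ b, uu b ≠ inc b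
  ω_inc : ∀ b, ω (inc b) = 1
  mon : ∀ b, (Δ b).Monic
  tan : ∀ (σ : Fin ns) (b : κ₀) (k : Type) [Field k] (ψ : R →+* k) (x : XV κ → k) (E : Subfield k),
    Nz x → Ze cf ψ x → (∀ r, ψ r ∈ E) → (∀ v, pr v.1 = b → x v ∈ E) →
    ∃ w : XV κ → k, (∀ v, w v ∈ E) ∧ (∀ v, pr v.1 ≠ b → w v = 0) ∧
      (∃ j, w (j, 0) * x (j, 1) ≠ w (j, 1) * x (j, 0)) ∧
      ∀ a ∈ S σ, ∑ v, w v * eval₂ ψ x (pderiv v (gp cf a)) = 0
  unit : ∀ (k : Type) [Field k] [IsAlgClosed k] (ψ : R →+* k) (j : κ),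
    ∃ s : MvPolynomial (XY κ) k,
      Hg ((ω j : ℤ) • Pi.single (inc (pr j)) 1 - Pi.single j 1) s ∧
      ∀ a : XY κ → k, Rel a → Ze cf ψ (a ∘ .inl) → eval a s ≠ 0
  alg : ∀ (k : Type) [Field k] (ψ : R →+* k) (x : XV κ → k) (E : Subfield k) (j : κ),
    Nm x → Ze cf ψ x → (∀ r, ψ r ∈ E) → x (inc (pr j), 1) ∈ E → IsAlgebraic E (x (j, 1))
  fin : ∀ (k : Type) [Field k] (ψ : R →+* k) (y : XV κ₀ → k),
    Set.Finite {x : XV κ → k | Nm x ∧ Ze cf ψ x ∧ ∀ b i, x (inc b, i) = y (b, i)}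
  supp : ∀ b j, e (j₀ b) j ≠ 0 → j = inc b ∨ j = uu b
  pos : ∀ b, 0 < e (j₀ b) (uu b)
  onto : ∀ (k : Type) [Field k] [IsAlgClosed k] (ψ : R →+* k) (x : XV κ → k), Nz x →
    (∀ b, gen (ψ ∘ cf) (j₀ b) x = 0) → ∃ x', Nz x' ∧ Ze cf ψ x' ∧
      ∀ b i, x' (inc b, i) = x (inc b, i) ∧ x' (uu b, i) = x (uu b, i)
  uniq : ∀ (k : Type) [Field k] (ψ : R →+* k) (x x' : XV κ → k), Nm x → Nm x' → Ze cf ψ x →
    Ze cf ψ x' → (∀ b i, x' (inc b, i) = x (inc b, i) ∧ x' (uu b, i) = x (uu b, i)) →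
    (∀ b, x (inc b, 0) = 1 ∧ (Δ b).eval₂ ψ (x (inc b, 1)) ≠ 0) → x' = x

end

/-- Powers of integral elements are given by forms on the model. -/
def Rep {κ R F 𝒦 : Type} [Fintype κ] [DecidableEq κ] [CommRing R] [Field F] [Field 𝒦]
    [Algebra F 𝒦] {c : ℕ} {e : Fin c → κ → ℕ} (cf : MI e → R) (a : R →+* F) (k₀ : κ) (ω : κ → ℕ)
    (x : 𝒦) : Prop :=
  ∀ (r w : ℕ) (z : Fin r → 𝒦), 0 < w → (∀ i, Mn F x w (z i)) → ∃ m₀ : ℕ, ∀ m ≥ m₀,
    ∃ (E : κ → ℕ) (Ξ : CV r → MvPolynomial (XV κ) F), (∀ j, 0 < E j) ∧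
      ∑ j, ω j * E j = m * w ∧ (∀ i, Hx E (Ξ i)) ∧ ∀ y : XV κ → F, Nz y → Ze cf a y →
        ∃ lam : F, lam ≠ 0 ∧ (∀ i, eval y (Ξ (.inl i)) = lam * y (k₀, i) ^ (m * w)) ∧
          ∀ (Φ : MvPolynomial (CV r) F) (n : ℕ),
            Φ.IsWeightedHomogeneous (Sum.elim (fun _ => 1) fun _ => m * w) n →
            aeval (Sum.elim ![1, x] fun i => z i ^ m) Φ = 0 →
            eval (Sum.elim (fun i => y (k₀, i)) fun i => eval y (Ξ (.inr i)) / lam) Φ = 0

def MODEL_s : Prop := ∀ (F 𝒦 : Type) [Field F] [IsAlgClosed F] [Uncountable F] [Field 𝒦]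
  [Algebra F 𝒦] (x : 𝒦), FF F x → Algebra.IsSeparable (IntermediateField.adjoin F {x}) 𝒦 →
    ∃ (κ : Type) (_ : Fintype κ) (_ : DecidableEq κ) (c : ℕ) (e : Fin c → κ → ℕ) (R : Type)
      (_ : CommRing R) (cf : MI e → R) (a : R →+* F) (A : Amb Unit cf),
      Algebra.Smooth ℤ R ∧ A.toLoc.Sm a ∧ Rep cf a (A.inc ()) A.ω x

/-- Elimination theory; the variables `σ` lie in the blocks `bl`. -/
def ELIM_s : Prop := ∀ (R F σ β ι : Type) [CommRing R] [Field F] [IsAlgClosed F] [Finite σ]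
  [Finite β] [DecidableEq β] [Finite ι] (bl : σ → β) (g : ι → MvPolynomial σ R) (n : ι → β → ℕ)
  (a : R →+* F), (∀ i, (g i).IsWeightedHomogeneous (fun v => (Pi.single (bl v) 1 : β → ℕ)) (n i)) →
    (∀ x : σ → F, (∀ b, ∃ v, bl v = b ∧ x v ≠ 0) → ∃ i, eval₂ a x (g i) ≠ 0) →
    ∃ Δ : R, a Δ ≠ 0 ∧ ∀ (k : Type) [Field k] (ψ : R →+* k), ψ Δ ≠ 0 →
      ∀ x : σ → k, (∀ b, ∃ v, bl v = b ∧ x v ≠ 0) → ∃ i, eval₂ ψ x (g i) ≠ 0

/-- Smooth at a point with independent gradients. -/
def SMA_s : Prop := ∀ (F σ ι : Type) [Field F] [IsAlgClosed F] [Finite σ] [Fintype ι]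
  (g : ι → MvPolynomial σ ℤ) (t : σ → F) (d : MvPolynomial σ ℤ), (∀ i, aeval t (g i) = 0) →
    aeval t d ≠ 0 →
    (∀ lam : ι → F, (∀ v, ∑ i, lam i * aeval t (pderiv v (g i)) = 0) → lam = 0) →
    ∃ (R : Type) (_ : CommRing R) (z : σ → R) (a : R →+* F), Algebra.Smooth ℤ R ∧
      (∀ v, a (z v) = t v) ∧ (∀ i, aeval z (g i) = 0) ∧ IsUnit (aeval z d)

/-- Products of finitely many models. -/
def PROD_s : Prop := ∀ (F κ₀ : Type) [Field F] [Fintype κ₀] [DecidableEq κ₀] (κ : κ₀ → Type)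
  [∀ b, Fintype (κ b)] [∀ b, DecidableEq (κ b)] (c : κ₀ → ℕ) (e : ∀ b, Fin (c b) → κ b → ℕ)
  (R : κ₀ → Type) [∀ b, CommRing (R b)] (cf : ∀ b, MI (e b) → R b) (a : ∀ b, R b →+* F)
  (A : ∀ b, Amb Unit (cf b)), (∀ b, Algebra.Smooth ℤ (R b)) → (∀ b, (A b).toLoc.Sm (a b)) →
    ∃ (c' : ℕ) (e' : Fin c' → (Σ b, κ b) → ℕ) (R' : Type) (_ : CommRing R') (cf' : MI e' → R')
      (a' : R' →+* F) (A' : Amb κ₀ cf'), Algebra.Smooth ℤ R' ∧ A'.toLoc.Sm a' ∧
      (∀ j, A'.pr j = j.1) ∧ (∀ b, A'.inc b = ⟨b, (A b).inc ()⟩) ∧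
      (∀ j, A'.ω j = (A j.1).ω j.2) ∧
      ∀ x, Ze cf' a' x → ∀ b, Ze (cf b) (a b) fun v => x (⟨b, v.1⟩, v.2)

end Pool.Agent.MP_855f4c_ag.Cu

end

section

/-! h92c: statements, the nodal plane model. -/

open MvPolynomial Filter

namespace Pool.Agent.MP_855f4c_ag.Cu

open T G.Apx

/-! ### The nodal plane model -/

/-- The two forms that vanish at the point `(1, x, y)`. -/
noncomputable def fa {A : Type} [CommRing A] (x : A) : MvPolynomial (Option (Fin 2)) A :=
  X (some 1) - C x * X (some 0)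

noncomputable def fb {A : Type} [CommRing A] (k : ℕ) (y : A) : MvPolynomial (Option (Fin 2)) A :=
  X none - C y * X (some 0) ^ k

/-- A plane model with ordinary nodes. -/
structure Nod (F : Type) {𝒦 : Type} [Field F] [Field 𝒦] [Algebra F 𝒦] (x : 𝒦) where
  k : ℕ
  N : ℕ
  δ : ℕ
  η : 𝒦
  G : MvPolynomial (Option (Fin 2)) F
  xn : Fin δ → F
  yn : Fin δ → F
  two : 2 ≤ k
  mo : Mo k N G
  root : aeval (pt3 x η) G = 0
  n1 : ∀ i : Fin 2, eval (fun o => o.elim 0 (Pi.single i 1)) G ≠ 0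
  inj : Function.Injective xn
  ne : ∀ j, η ≠ algebraMap F 𝒦 (yn j)
  N2 : 0 < δ → 2 ≤ N
  sing : ∀ j, eval (pt3 (xn j) (yn j)) G = 0 ∧ ∀ v, eval (pt3 (xn j) (yn j)) (pderiv v G) = 0
  node : ∀ j al be ga, G = al * fa (xn j) ^ 2 + be * (fa (xn j) * fb k (yn j)) +
      ga * fb k (yn j) ^ 2 → eval (pt3 (xn j) (yn j)) ga ≠ 0 ∧
      eval (pt3 (xn j) (yn j)) (be ^ 2 - 4 * al * ga) ≠ 0
  smooth : ∀ a : Option (Fin 2) → F, (∃ i, a (some i) ≠ 0) → eval a G = 0 →
    (∀ j, ¬ (eval a (fa (xn j)) = 0 ∧ eval a (fb k (yn j)) = 0)) → ∃ v, eval a (pderiv v G) ≠ 0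
  ind : ∀ lam : Fin δ → F,
    (∀ i b, b < N → i ≤ k * (N - b) → ∑ j, lam j * (xn j ^ i * yn j ^ b) = 0) → lam = 0
  chr : ∀ x₀ y₀ : F, eval (pt3 x₀ y₀) G = 0 → ∃ ψ : IC F x →ₐ[F] F,
    (∀ h, ψ ⟨x, h⟩ = x₀) ∧ ∀ h, ψ ⟨η, h⟩ = y₀
  chr' : ∀ y₀ : F, eval (fun o => o.elim y₀ ![0, 1]) G = 0 → ∃ ψ : IC F x⁻¹ →ₐ[F] F,
    (∀ h, ψ ⟨x⁻¹, h⟩ = 0) ∧ ∀ h, ψ ⟨η / x ^ k, h⟩ = y₀
  chrn : ∀ j al be ga (θ : 𝒦), G = al * fa (xn j) ^ 2 + be * (fa (xn j) * fb k (yn j)) +
      ga * fb k (yn j) ^ 2 →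
    θ * aeval (pt3 x η) (fb k (yn j)) = aeval (pt3 x η) (al * fa (xn j)) → ∀ τ : F,
    τ ^ 2 + eval (pt3 (xn j) (yn j)) be * τ + eval (pt3 (xn j) (yn j)) (al * ga) = 0 →
    ∃ ψ : IC F x →ₐ[F] F, (∀ h, ψ ⟨x, h⟩ = xn j) ∧ (∀ h, ψ ⟨η, h⟩ = yn j) ∧ ∀ h, ψ ⟨θ, h⟩ = τ
  span : ∀ (al be ga : Fin δ → MvPolynomial (Option (Fin 2)) F) (θ : Fin δ → 𝒦),
    (∀ j, G = al j * fa (xn j) ^ 2 + be j * (fa (xn j) * fb k (yn j)) + ga j * fb k (yn j) ^ 2) →
    (∀ j, θ j * aeval (pt3 x η) (fb k (yn j)) = aeval (pt3 x η) (al j * fa (xn j))) →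
    ∀ z ∈ IC F x, ∃ (P : MvPolynomial (Option (Fin 2)) F) (lam : Fin δ → F),
      z = aeval (pt3 x η) P + ∑ j, lam j • θ j
  span' : ∀ z ∈ IC F x⁻¹, ∃ (n : ℕ) (A B : MvPolynomial (Option (Fin 2)) F),
    A.IsWeightedHomogeneous (fun o => o.elim k fun _ => 1) n ∧
    B.IsWeightedHomogeneous (fun o => o.elim k fun _ => 1) n ∧
    aeval (pt3 x η) B * z = aeval (pt3 x η) A ∧
    ∀ y₀ : F, eval (fun o => o.elim y₀ ![0, 1]) G = 0 → eval (fun o => o.elim y₀ ![0, 1]) B ≠ 0

def NOD_s : Prop := ∀ (F 𝒦 : Type) [Field F] [IsAlgClosed F] [Uncountable F] [Field 𝒦]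
  [Algebra F 𝒦] (x : 𝒦), FF F x → Algebra.IsSeparable (IntermediateField.adjoin F {x}) 𝒦 →
    Nonempty (Nod F x)

def MODN_s : Prop := ∀ (F 𝒦 : Type) [Field F] [IsAlgClosed F] [Field 𝒦] [Algebra F 𝒦] (x : 𝒦),
  Transcendental F x → Nod F x →
    ∃ (κ : Type) (_ : Fintype κ) (_ : DecidableEq κ) (c : ℕ) (e : Fin c → κ → ℕ) (R : Type)
      (_ : CommRing R) (cf : MI e → R) (a : R →+* F) (A : Amb Unit cf),
      Algebra.Smooth ℤ R ∧ A.toLoc.Sm a ∧ Rep cf a (A.inc ()) A.ω x

theorem model (hN : NOD_s) (hM : MODN_s) : MODEL_s := fun F 𝒦 _ _ _ _ _ x h hs =>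
  (hN F 𝒦 x h hs).elim fun N => hM F 𝒦 x h.1 N

end Pool.Agent.MP_855f4c_ag.Cu

end

section

/-! A smooth algebra over the integers through a point with independent gradients. -/

open MvPolynomial

namespace Pool.Agent.MP_855f4c_ag.Cu

/-- A matrix with independent rows has a nonzero maximal minor. -/
theorem exists_minor {F σ ι : Type} [Field F] [Fintype ι] [DecidableEq ι] (J : ι → σ → F)
    (h : ∀ lam : ι → F, (∀ v, ∑ i, lam i * J i v = 0) → lam = 0) :
    ∃ c : ι → σ, (Matrix.of fun i j => J i (c j)).det ≠ 0 := by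
  classical
  have hs : Submodule.span F (Set.range fun v i => J i v) = ⊤ := by
    by_contra hne
    obtain ⟨f, hf, hk⟩ := Submodule.exists_le_ker_of_lt_top _ (lt_top_iff_ne_top.2 hne)
    have hf' (w : ι → F) : f w = ∑ i, f (Pi.single i 1) * w i := by
      conv_lhs => rw [pi_eq_sum_univ' w, map_sum]
      exact Finset.sum_congr rfl fun a _ => by rw [map_smul, smul_eq_mul, mul_comm]
    have h0 := h (fun i => f (Pi.single i 1)) fun v =>
      (hf' fun i => J i v).symm.trans (hk (Submodule.subset_span ⟨v, rfl⟩))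
    refine hf (LinearMap.ext fun w => (hf' w).trans ?_)
    exact Finset.sum_eq_zero fun i _ => by rw [congrFun h0 i, Pi.zero_apply, zero_mul]
  obtain ⟨b, hb, hsp, hli⟩ := exists_linearIndependent F (Set.range fun v i => J i v)
  let B : Module.Basis b F (ι → F) := Module.Basis.mk hli (by
    rw [Subtype.range_coe_subtype, Set.ofPred_mem_eq, hsp, hs])
  let e : ι ≃ b := (Pi.basisFun F ι).indexEquiv B
  choose c hc using fun j : ι => hb (e j).2
  refine ⟨c, ?_⟩
  have hl : LinearIndependent F (Matrix.of fun i j => J i (c j)).col := by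
    have : (Matrix.of fun i j => J i (c j)).col = fun j => (e j).1 := funext fun j => hc j
    rw [this]
    exact hli.comp e e.injective
  exact ((Matrix.isUnit_iff_isUnit_det _).1 (Matrix.linearIndependent_cols_iff_isUnit.1 hl)).ne_zero

theorem sma : SMA_s := by
  intro F σ ι _ _ _ _ g t d hg hd hJ
  classical
  obtain ⟨c, hc⟩ := exists_minor (fun i v => aeval t (pderiv v (g i))) hJ
  let m : MvPolynomial σ ℤ := (Matrix.of fun i j => pderiv (c j) (g i)).det
  have hm (k : Type) [CommRing k] (x : σ → k) :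
      aeval x m = (Matrix.of fun i j => aeval x (pderiv (c j) (g i))).det :=
    (AlgHom.map_det (aeval x) _).trans rfl
  let G : Option ι → MvPolynomial (Option σ) ℤ := fun a =>
    a.elim (X none * rename some (d * m) - 1) fun i => rename some (g i)
  have ev (k : Type) [CommRing k] (ψ : ℤ →+* k) (x : Option σ → k) (P : MvPolynomial (Option σ) ℤ) :
      eval₂ ψ x P = aeval x P := by
    rw [aeval_def, Subsingleton.elim ψ (algebraMap ℤ k)]
  have d0 (P : MvPolynomial σ ℤ) : pderiv none (rename some P : MvPolynomial (Option σ) ℤ) = 0 :=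
    pderiv_eq_zero_of_notMem_vars fun h => by
      obtain ⟨v, -, hv⟩ := mem_vars_rename _ _ h
      exact Option.some_ne_none v hv
  have hS := T.smj G fun k _ ψ x lam h₁ h₂ => by
    simp only [ev] at h₁ h₂
    have e₁ : x none * aeval (x ∘ some) (d * m) = 1 := by
      have := h₁ none
      simp only [G, Option.elim, map_sub, map_mul, aeval_X, aeval_rename, map_one] at this
      rw [map_mul]
      exact sub_eq_zero.1 this
    have n₁ : aeval (x ∘ some) (d * m) ≠ 0 := right_ne_zero_of_mul_eq_one e₁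
    have l₀ : lam none = 0 := by
      have := h₂ none
      simp only [Fintype.sum_option, G, Option.elim, d0, map_zero, mul_zero,
        Finset.sum_const_zero, add_zero, map_sub, Derivation.leibniz, pderiv_X_self,
        Derivation.map_one_eq_zero, smul_eq_mul, mul_one, zero_add, sub_zero, aeval_rename] at this
      exact (mul_eq_zero.1 this).resolve_right n₁
    have l₁ : (fun i => lam (some i)) = 0 := by
      refine Matrix.eq_zero_of_vecMul_eq_zero
        (M := Matrix.of fun i j => aeval (x ∘ some) (pderiv (c j) (g i))) ?_ (funext fun j => ?_)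
      · rw [← hm]
        exact right_ne_zero_of_mul (by rwa [map_mul] at n₁)
      · have := h₂ (some (c j))
        simp only [Fintype.sum_option, l₀, zero_mul, zero_add, G, Option.elim,
          pderiv_rename (Option.some_injective σ), aeval_rename] at this
        exact this
    funext a
    cases a with
    | none => exact l₀
    | some i => exact congrFun l₁ i
  have n₀ : aeval t (d * m) ≠ 0 := by
    rw [map_mul, hm]
    exact mul_ne_zero hd hc
  let x : Option σ → F := fun o => o.elim (aeval t (d * m))⁻¹ t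
  have hx : x ∘ some = t := rfl
  let 𝔞 := Ideal.span (Set.range G)
  have hG (a : Option ι) : Ideal.Quotient.mk 𝔞 (G a) = 0 :=
    Ideal.Quotient.eq_zero_iff_mem.2 (Ideal.subset_span ⟨a, rfl⟩)
  have hz (R : Type) [CommRing R] (φ : MvPolynomial (Option σ) ℤ →+* R) (P : MvPolynomial σ ℤ) :
      aeval (fun v => φ (X (some v))) P = φ (rename some P) :=
    DFunLike.congr_fun (algHom_ext (f := aeval fun v => φ (X (some v)))
      (g := φ.toIntAlgHom.comp (rename some)) fun v =>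
        (aeval_X _ _).trans (congrArg φ (rename_X some v).symm)) P
  refine ⟨_, inferInstance, fun v => Ideal.Quotient.mk 𝔞 (X (some v)),
    Ideal.Quotient.lift 𝔞 (aeval x : MvPolynomial (Option σ) ℤ →ₐ[ℤ] F).toRingHom fun P hP => ?_,
    by convert hS; exact Subsingleton.elim _ _, fun v => by simp [x],
    fun i => (hz _ _ _).trans (hG (some i)), ?_⟩
  · refine (Ideal.span_le (I := RingHom.ker (aeval x : MvPolynomial (Option σ) ℤ →ₐ[ℤ] F))).2 ?_ hP
    rintro _ ⟨a, rfl⟩
    change aeval x (G a) = 0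
    cases a with
    | none =>
      simp only [G, Option.elim, map_sub, map_mul _ (X none), aeval_X, aeval_rename, map_one, hx]
      exact sub_eq_zero.2 (inv_mul_cancel₀ n₀)
    | some i =>
      simp only [G, Option.elim, aeval_rename, hx]
      exact hg i
  · have := hG none
    simp only [G, Option.elim, map_sub, map_mul, map_one] at this
    rw [hz]
    exact IsUnit.of_mul_eq_one (Ideal.Quotient.mk 𝔞 (X none) * Ideal.Quotient.mk 𝔞 (rename some m))
      (by linear_combination this)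

end Pool.Agent.MP_855f4c_ag.Cu

end

section

/-! h92c: formal properties of the approximate sums of powers. -/

open MvPolynomial

namespace Pool.Agent.MP_855f4c_ag.Cu

open T G.Apx

namespace FL

variable (p : ℕ) [Fact p.Prime]

theorem map_asum {A A' ι : Type} [CommRing A] [CommRing A'] (φ : A →+* A') (t : A) (N : ℕ)
    (s : Finset ι) (z : ι → A) : φ (asum p t N s z) = asum p (φ t) N s (φ ∘ z) := by
  rw [asum, asum, ← WittVector.map_coeff, map_xs, map_sum]
  simp only [WittVector.map_teichmuller, Function.comp_apply]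

theorem asum_congr {A ι : Type} [CommRing A] (t : A) (N : ℕ) {s : Finset ι} {z z' : ι → A}
    (h : ∀ i ∈ s, z i = z' i) : asum p t N s z = asum p t N s z' := by
  rw [asum, asum, Finset.sum_congr rfl fun i hi => by rw [h i hi]]

theorem asum_mul {A ι : Type} [CommRing A] (t c : A) (N : ℕ) (s : Finset ι) (z : ι → A) :
    asum p t N s (fun i => c * z i) = c ^ p ^ N * asum p t N s z := by
  rw [asum, asum]
  simp only [map_mul]
  rw [← Finset.mul_sum, xs_mul, teich_coeff, pow_zero, pow_one]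

theorem xs_one {A : Type} [CommRing A] (t : A) (N : ℕ) : xs p t 1 N = 1 := by
  induction N with
  | zero => rfl
  | succ N ih =>
    have h : (1 : WittVector p A).shift 1 = 0 := by
      ext j
      rw [WittVector.shift_coeff, WittVector.one_coeff_eq_of_pos _ _ _ (by omega),
        WittVector.zero_coeff]
    rw [xs, ih, step, h, mul_zero, add_zero, WittVector.one_coeff_zero, one_pow, map_one]

theorem asum_single {A ι : Type} [CommRing A] (t : A) (N : ℕ) (i : ι) (z : ι → A) :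
    asum p t N {i} z = z i ^ p ^ N := by
  rw [asum, Finset.sum_singleton, ← mul_one (WittVector.teichmuller p (z i)), xs_mul, xs_one,
    mul_one, WittVector.teichmuller_coeff_zero]

theorem asum_filter {A ι : Type} [CommRing A] (t : A) (N : ℕ) (s : Finset ι) (z : ι → A)
    (q : ι → Prop) [DecidablePred q] :
    asum p t N s (fun i => if q i then z i else 0) = asum p t N (s.filter q) z := by
  rw [asum, asum, Finset.sum_filter]
  congr 2
  refine Finset.sum_congr rfl fun i _ => ?_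
  split_ifs
  · rfl
  · exact WittVector.teichmuller_zero p

theorem eval_fl {σ Ω A A' : Type} [CommRing Ω] [CommRing A] [CommRing A'] (β : Ω → A) (t : A)
    (N : ℕ) (P : MvPolynomial σ Ω) (φ : A →+* A') (x : σ → A') : eval₂ φ x (fl p β t N P) =
      asum p (φ t) N P.support fun m => φ (β (coeff m P)) * m.prod fun i k => x i ^ k := by
  rw [fl, ← coe_eval₂Hom, map_asum, eval₂Hom_C]
  exact asum_congr p _ _ fun m _ => eval₂Hom_monomial _ _ _ _

section hom
variable {σ A M : Type} [CommRing A] [AddCommMonoid M] (w : σ → M)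

/-- The grading as a ring map. -/
noncomputable def gr : MvPolynomial σ A →+* AddMonoidAlgebra (MvPolynomial σ A) M :=
  eval₂Hom ((algebraMap (MvPolynomial σ A) _).comp C)
    fun i => AddMonoidAlgebra.single (w i) (X i)

theorem gr_monomial (m : σ →₀ ℕ) (a : A) :
    gr w (monomial m a) = AddMonoidAlgebra.single (Finsupp.weight w m) (monomial m a) := by
  induction m using Finsupp.induction_linear generalizing a with
  | zero => simp [gr, ← C_apply]
  | add m m' h h' =>
    rw [← mul_one a, ← monomial_mul, map_mul, h, h', AddMonoidAlgebra.single_mul_single, map_add]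
  | single i k =>
    rw [← C_mul_X_pow_eq_monomial]
    simp [gr, AddMonoidAlgebra.single_pow, AddMonoidAlgebra.single_mul_single,
      Finsupp.weight_apply]

theorem gr_iff (f : MvPolynomial σ A) (e : M) :
    f.IsWeightedHomogeneous w e ↔ gr w f = AddMonoidAlgebra.single e f := by
  classical
  have h2 : gr w f =
      ∑ m ∈ f.support, AddMonoidAlgebra.single (Finsupp.weight w m) (monomial m (coeff m f)) := by
    conv_lhs => rw [f.as_sum, map_sum]
    exact Finset.sum_congr rfl fun m _ => gr_monomial w m _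
  refine ⟨fun h => ?_, fun h d hd => ?_⟩
  · rw [h2, Finset.sum_congr rfl fun m hm => by rw [h (mem_support_iff.mp hm)]]
    conv_rhs => rw [f.as_sum]
    exact (map_sum (AddMonoidAlgebra.singleAddHom e) _ _).symm
  · by_contra hne
    rw [h2] at h
    have h4 := congrArg (fun z : AddMonoidAlgebra (MvPolynomial σ A) M =>
      coeff d (z.coeff (Finsupp.weight w d))) h
    simp [Finsupp.single_apply, Ne.symm hne, coeff_sum,
      apply_ite (MvPolynomial.coeff d), coeff_monomial] at h4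
    rw [Finset.sum_eq_single d (fun b _ hb => by simp [hb])
      fun hb => absurd (mem_support_iff.mpr hd) hb] at h4
    exact hd (by simpa using h4)

theorem asum_hom {ι : Type} (t : A) (N : ℕ) (s : Finset ι) (z : ι → MvPolynomial σ A) (e : M)
    (h : ∀ i ∈ s, (z i).IsWeightedHomogeneous w e) :
    (asum p (C t) N s z).IsWeightedHomogeneous w (p ^ N • e) := by
  let φ := algebraMap (MvPolynomial σ A) (AddMonoidAlgebra (MvPolynomial σ A) M)
  have hφ : ∀ (n : M) f, AddMonoidAlgebra.single n f = AddMonoidAlgebra.single n 1 * φ f := by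
    intro n f
    simp [φ, AddMonoidAlgebra.single_mul_single]
  rw [gr_iff, map_asum, hφ, map_asum, asum_congr p _ _ (z := gr w ∘ z)
    (z' := fun i => AddMonoidAlgebra.single e 1 * (φ ∘ z) i)
    fun i hi => ((gr_iff w _ e).1 (h i hi)).trans (hφ _ _), asum_mul, AddMonoidAlgebra.single_pow,
    one_pow]
  congr 2
  simp [gr, φ]

end hom

theorem aeval_opt {σ A : Type} [CommRing A] (c : MvPolynomial σ A) (m : Option σ →₀ ℕ) (a : A) :
    (aeval (fun o : Option σ => o.elim c X) (monomial m a) : MvPolynomial σ A) =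
      c ^ m none * monomial m.some a := by
  rw [aeval_monomial, Finsupp.prod_option_index _ _ (by simp) (fun _ _ _ => pow_add _ _ _),
    monomial_eq, mul_left_comm]
  rfl

theorem dehom {σ A : Type} [CommRing A] (w : σ → ℕ) (d : ℕ) (Q : MvPolynomial (Option σ) A)
    (hQ : Q.IsWeightedHomogeneous (fun o => o.elim 1 w) d) :
    weightedTotalDegree w (aeval (fun o : Option σ => o.elim 1 X) Q : MvPolynomial σ A) ≤ d ∧
      weightedHomogeneousComponent w d (aeval (fun o : Option σ => o.elim 1 X) Q) =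
        (aeval (fun o : Option σ => o.elim 0 X) Q : MvPolynomial σ A) := by
  classical
  have hw : ∀ m ∈ Q.support, m none + Finsupp.weight w m.some = d := by
    intro m hm
    rw [← hQ (mem_support_iff.mp hm), Finsupp.weight_apply, Finsupp.weight_apply,
      Finsupp.sum_option_index_smul]
    simp
  rw [Q.as_sum, map_sum, map_sum, map_sum]
  simp only [aeval_opt, one_pow, one_mul]
  refine ⟨Finset.sup_le fun n hn => ?_, Finset.sum_congr rfl fun m hm => ?_⟩
  · obtain ⟨m, hm, h⟩ := Finset.mem_biUnion.mp (support_sum hn)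
    rw [Finset.mem_singleton.mp (support_monomial_subset h), ← hw m hm]
    exact Nat.le_add_left _ _
  · have h := hw m hm
    rw [weightedHomogeneousComponent_of_mem (isWeightedHomogeneous_monomial w m.some _ rfl)]
    by_cases h0 : m none = 0
    · rw [if_pos (by omega), h0, pow_zero, one_mul]
    · rw [if_neg (by omega), zero_pow h0, zero_mul]

theorem fl_top {σ Ω A : Type} [CommRing Ω] [CommRing A] (β : Ω → A) (t : A) (N : ℕ)
    (P : MvPolynomial σ Ω) (w : σ → ℕ) (e : ℕ) (h : weightedTotalDegree w P ≤ e) :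
    weightedTotalDegree w (fl p β t N P) ≤ p ^ N * e ∧
      weightedHomogeneousComponent w (p ^ N * e) (fl p β t N P) =
        fl p β t N (weightedHomogeneousComponent w e P) := by
  classical
  have hw : ∀ m ∈ P.support, Finsupp.weight w m ≤ e := fun m hm =>
    (le_weightedTotalDegree w hm).trans h
  have hd := dehom w (p ^ N * e) _ (asum_hom p (fun o : Option σ => o.elim 1 w) t N P.support
    (fun m => monomial (m.optionElim (e - Finsupp.weight w m)) (β (coeff m P))) e fun m hm =>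
      isWeightedHomogeneous_monomial _ _ _ (by
        have := hw m hm
        rw [Finsupp.weight_apply, Finsupp.sum_option_index_smul, Finsupp.optionElim_apply_none,
          Finsupp.some_optionElim, smul_eq_mul]
        exact (congrArg (· + _) (mul_one _)).trans (Nat.sub_add_cancel this)))
  have key : ∀ c : MvPolynomial σ A, (aeval (fun o : Option σ => o.elim c X)
      (asum p (C t) N P.support fun m =>
        monomial (m.optionElim (e - Finsupp.weight w m)) (β (coeff m P))) : MvPolynomial σ A) =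
      asum p (C t) N P.support fun m =>
        c ^ (e - Finsupp.weight w m) * monomial m (β (coeff m P)) := by
    intro c
    refine (map_asum p (aeval (R := A) fun o : Option σ => o.elim c X).toRingHom _ _ _ _).trans ?_
    congr 1
    · simp
    · funext m
      exact (aeval_opt _ _ _).trans (by simp)
  rw [key, key] at hd
  simp only [one_pow, one_mul] at hd
  refine ⟨hd.1, hd.2.trans ?_⟩
  rw [fl, support_weightedHomogeneousComponent, ← asum_filter]
  refine asum_congr p _ _ fun m hm => ?_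
  have := hw m hm
  rw [coeff_weightedHomogeneousComponent]
  split_ifs with h0
  · rw [h0, Nat.sub_self, pow_zero, one_mul]
  · rw [zero_pow (by omega), zero_mul]

theorem fl_in1 {σ Ω F : Type} [CommRing Ω] [NormedField F] [IsUltrametricDist F] (β : Ω → F)
    (t : F) (N : ℕ) (P : MvPolynomial σ Ω) (ht : ‖t‖ ≤ 1) (h : ∀ m, ‖β (coeff m P)‖ ≤ 1) :
    In1 (fl p β t N P) := by
  intro n
  let O := (NormedField.valuation (K := F)).integer
  have h1 := map_asum p (map (σ := σ) O.subtype) (C ⟨t, ht⟩) N P.support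
    fun m => monomial m ⟨β (coeff m P), h m⟩
  have h2 : fl p β t N P = map O.subtype (asum p (C ⟨t, ht⟩) N P.support
      fun m => monomial m ⟨β (coeff m P), h m⟩) := by
    rw [h1, fl, map_C]
    exact asum_congr p _ _ fun m _ => (map_monomial O.subtype m ⟨β (coeff m P), h m⟩).symm
  rw [h2, coeff_map]
  exact (coeff n _ : O).2

theorem asum_dvd' {L ι : Type} [Field L] (W : ValuationSubring L) (t : L) {n N k : ℕ}
    (s : Finset ι) (z : ι → L) (hn : n ≤ N) (hk : N ≤ k) (ht : t ^ p ^ k = p)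
    (hz : ∀ i ∈ s, z i ∈ W) (h : ∃ w ∈ W, asum p t N s z ^ p ^ (k - N) = (p : L) ^ n * w) :
    ∃ w ∈ W, ∑ i ∈ s, z i ^ p ^ k = (p : L) ^ n * w := by
  classical
  have htW : t ∈ W := by
    rw [← W.valuation_le_one_iff, ← pow_le_one_iff_of_nonneg zero_le
      (pow_ne_zero k (Fact.out : p.Prime).ne_zero), ← map_pow, ht, W.valuation_le_one_iff]
    exact natCast_mem W p
  let y : Option ι → W := fun o => o.elim ⟨t, htW⟩ fun i => if hi : i ∈ s then ⟨z i, hz i hi⟩ else 0
  have hy : ∀ i ∈ s, (y (some i) : L) = z i := fun i hi => by simp [y, hi]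
  obtain ⟨w, hw, h⟩ := h
  have h1 : W.subtype (ev y (ap p (∑ i ∈ s, X i) N)) = asum p t N s z := by
    rw [← asum_congr p t N hy]
    refine Eq.trans ?_ (map_asum p W.subtype (y none) N s fun i => y (some i))
    rw [ev_ap, asum]
    simp
  obtain ⟨u, hu⟩ := Apx0.ap_dvd p (∑ i ∈ s, X i) hn hk y (W.subtype_injective (by
      rw [map_pow, map_natCast]
      exact ht))
    ⟨⟨w, hw⟩, W.subtype_injective (by
      rw [map_pow, h1, h, map_mul, map_pow, map_natCast]
      rfl)⟩
  refine ⟨u, u.2, ?_⟩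
  have h2 := congrArg W.subtype hu
  simp only [map_sum, eval₂Hom_X', map_pow, map_mul, map_natCast] at h2
  rw [← Finset.sum_congr rfl fun i hi => by rw [← hy i hi]]
  exact h2

theorem asum_dvd {L ι : Type} [Field L] (W : ValuationSubring L) (t : L) (N k : ℕ) (s : Finset ι)
    (z : ι → L) (_ : (p : L) ≠ 0) (hk : N ≤ k) (ht : t ^ p ^ k = p) (hz : ∀ i ∈ s, z i ∈ W)
    (h : ∃ w ∈ W, asum p t N s z ^ p ^ (k - N) = (p : L) ^ N * w) :
    ∃ w ∈ W, ∑ i ∈ s, z i ^ p ^ k = (p : L) ^ N * w :=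
  asum_dvd' p W t s z le_rfl hk ht hz h

end FL

open FL in
theorem fls : FL_s := fun p _ =>
  ⟨fun _ _ _ _ _ => map_asum p, fun _ _ _ => asum_mul p, fun _ _ _ => asum_single p,
    fun _ _ _ _ _ _ _ => eval_fl p, fun _ _ _ _ _ _ _ _ t N _ w e h => asum_hom p w t N _ _ e
      fun _ hm => isWeightedHomogeneous_monomial _ _ _ (h (mem_support_iff.mp hm)),
    fun _ _ _ _ _ => fl_top p, fun _ _ _ _ _ _ => fl_in1 p, fun _ _ _ => asum_dvd p⟩

end Pool.Agent.MP_855f4c_ag.Cu

end

section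

namespace Pool.Agent.MP_855f4c_ag.Cu

theorem gen_ball {F : Type} [NormedField F] [Uncountable F] {t : F} (h0 : 0 < ‖t‖) (h1 : ‖t‖ < 1)
    {S : Set F} (hS : S.Countable) (y₀ : F) {ρ : ℝ} (hρ : 0 < ρ) : ∃ y, y ∉ S ∧ ‖y - y₀‖ ≤ ρ := by
  by_contra hc
  push Not at hc
  have ht : t ≠ 0 := norm_pos_iff.1 h0
  have : (Set.univ : Set F) ⊆ ⋃ n : ℕ, (fun s => (s - y₀) / t ^ n) '' S := by
    intro z _
    obtain ⟨n, hn⟩ := exists_pow_lt_of_lt_one (div_pos hρ (show 0 < ‖z‖ + 1 by positivity)) h1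
    refine Set.mem_iUnion.2 ⟨n, y₀ + t ^ n * z, ?_, by field_simp; ring⟩
    by_contra hm
    have h2 := hc _ hm
    rw [add_sub_cancel_left, norm_mul, norm_pow] at h2
    rw [lt_div_iff₀ (by positivity)] at hn
    nlinarith [pow_pos h0 n]
  exact Set.not_countable_univ ((Set.countable_iUnion fun n => hS.image _).mono this)

theorem gens : GEN_s := by
  intro F _ _ t h0 h1 E _ I hI
  induction I using Finite.induction_empty_option with
  | of_equiv e ih =>
    intro y₀ ρ hρ
    obtain ⟨y, h, h'⟩ := ih (y₀ ∘ e) ρ hρ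
    exact ⟨y ∘ e.symm, h.comp _ e.symm.injective, fun i => by simpa using h' (e.symm i)⟩
  | h_empty => exact fun y₀ ρ _ => ⟨y₀, algebraicIndependent_empty_type, fun i => i.elim⟩
  | @h_option α _ ih =>
    intro y₀ ρ hρ
    obtain ⟨y, h, h'⟩ := ih (y₀ ∘ some) ρ hρ
    have hc : Countable (Algebra.adjoin E (Set.range y)) := by
      rw [Algebra.adjoin_range_eq_range_aeval]
      have : Countable (MvPolynomial α E) := AddMonoidAlgebra.coeff_injective.countable
      exact (Set.countable_range _).to_subtype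
    obtain ⟨a, ha, ha'⟩ := gen_ball h0 h1
      (Algebraic.countable (Algebra.adjoin E (Set.range y)) F) (y₀ none) hρ
    exact ⟨fun o => o.elim a y, AlgebraicIndependent.option_iff.2 ⟨h, ha⟩,
      fun o => by cases o; exacts [ha', h' _]⟩

end Pool.Agent.MP_855f4c_ag.Cu

end

section

/-! h92c row TR: transfer of a vanishing statement to finite level. -/

open MvPolynomial Filter

namespace Pool.Agent.MP_855f4c_ag.Cu

theorem tr_mem {L : Type} [Field L] (W : ValuationSubring L) {y : L} {n : ℕ} (hn : n ≠ 0)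
    (h : y ^ n ∈ W) : y ∈ W := by
  rw [← W.valuation_le_one_iff] at h ⊢
  rwa [map_pow, pow_le_one_iff_of_nonneg zero_le hn] at h

theorem tr : TR_s := by
  classical
  intro p hp F F' _ _ _ T σ ι _ _ ρ P h j
  have := Fintype.ofFinite ι
  have h0 : (p : PadicAlgCl p) ≠ 0 := Nat.cast_ne_zero.2 hp.out.ne_zero
  have hq : ∀ M, p ^ M ≠ 0 := fun M => pow_ne_zero _ hp.out.ne_zero
  have hr : map T.π P ∈ (Ideal.span (Set.range fun i => map T.π (ρ i))).radical := by
    rw [← vanishingIdeal_zeroLocus_eq_radical (K := F), mem_vanishingIdeal_iff]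
    intro x hx
    have e : ∀ Q : MvPolynomial σ T.B, aeval x (map T.π Q) = eval₂ T.π x Q := fun Q => by
      rw [aeval_def, eval₂_map]
      rfl
    rw [e]
    exact h x fun i => (e _).symm.trans (hx _ (Ideal.subset_span ⟨i, rfl⟩))
  obtain ⟨n, hn⟩ := hr
  replace hn := Ideal.mul_mem_left _ (map T.π P) hn
  rw [← pow_succ'] at hn
  obtain ⟨b, hb⟩ := Ideal.mem_span_range_iff_exists_fun.1 hn
  choose c hc using fun i => map_surjective T.π T.surj (b i)
  obtain ⟨D, hD⟩ : ∃ D, D = P ^ (n + 1) - ∑ i, c i * ρ i := ⟨_, rfl⟩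
  have hz : map T.π D = 0 := by
    rw [hD, map_sub, map_pow, map_sum, ← hb, sub_eq_zero]
    exact Finset.sum_congr rfl fun i _ => by rw [map_mul, hc]
  have hs : ∀ m, ∀ᶠ M in T.U,
      ‖T.lv M (coeff m D)‖ ^ p ^ M < ‖(p : PadicAlgCl p) ^ (j * (n + 1))‖ := fun m => by
    have h1 := T.lim (coeff m D)
    rw [← coeff_map, hz, coeff_zero, norm_zero] at h1
    exact h1.eventually (gt_mem_nhds (norm_pos_iff.2 (pow_ne_zero _ h0)))
  filter_upwards [(eventually_all_finset D.support).2 fun m _ => hs m] with M hM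
  intro L _ W ψ x hψ hx hρ
  obtain ⟨τ, hτ⟩ : ∃ τ : PadicAlgCl p, τ ^ p ^ M = (p : PadicAlgCl p) ^ (j * (n + 1)) :=
    ⟨_, T.rt_pow _ M⟩
  have hτ0 : τ ≠ 0 := fun e => pow_ne_zero _ h0 (by rw [← hτ, e, zero_pow (hq M)])
  have hL : (p : L) ≠ 0 := by rw [← map_natCast ψ]; exact (map_ne_zero ψ).2 h0
  have hw : eval₂ (ψ.comp (T.lv M)) x D / ψ τ ∈ W := by
    rw [eval₂_eq, Finset.sum_div]
    refine W.toSubring.sum_mem fun m hm => ?_
    rw [mul_div_right_comm, RingHom.comp_apply, ← map_div₀]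
    refine mul_mem (hψ _ ?_) (prod_mem fun v _ => pow_mem (hx v) _)
    have h2 := (hM m hm).le
    rw [← hτ, norm_pow, pow_le_pow_iff_left₀ (norm_nonneg _) (norm_nonneg _) (hq M)] at h2
    rw [norm_div]
    exact div_le_one_of_le₀ h2 (norm_nonneg _)
  have hE : eval₂ (ψ.comp (T.lv M)) x D = eval₂ (ψ.comp (T.lv M)) x P ^ (n + 1) := by
    rw [hD, ← coe_eval₂Hom, map_sub, map_pow, map_sum, Finset.sum_eq_zero, sub_zero]
    intro i _
    rw [map_mul, coe_eval₂Hom, hρ, mul_zero]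
  refine ⟨eval₂ (ψ.comp (T.lv M)) x P ^ p ^ M / (p : L) ^ j, tr_mem W n.succ_ne_zero ?_,
    (mul_div_cancel₀ _ (pow_ne_zero _ hL)).symm⟩
  have h3 := pow_mem hw (p ^ M)
  rw [hE, div_pow, ← map_pow, hτ, map_pow, map_natCast, pow_right_comm, pow_mul, ← div_pow] at h3
  exact h3

end Pool.Agent.MP_855f4c_ag.Cu

end

section

/-! h92c row LIFT: points of smooth rings lift to the levels. -/

open MvPolynomial Filter IsLocalRing

namespace Pool.Agent.MP_855f4c_ag.Cu

open T E3

namespace Lift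

lemma ev {A A' ν : Type} [CommRing A] [CommRing A'] (φ : A →+* A') (x : ν → A)
    (P : MvPolynomial ν A) : φ (eval x P) = eval (φ ∘ x) (map φ P) := by
  rw [eval_map]
  exact eval₂_comp_left φ (.id A) x P

lemma newtV {p : ℕ} [Fact p.Prime] (ν : Type) [Finite ν] (Θ : ν → MvPolynomial ν (PadicAlgCl p))
    (h : ∀ i m, ‖(Θ i).coeff m‖ < 1) :
    ∃ u : ν → PadicAlgCl p, (∀ i, ‖u i‖ ≤ 1) ∧ ∀ i, u i + eval u (Θ i) = 0 := by
  classical
  let v : Valuation (PadicAlgCl p) NNReal := Valued.v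
  let V := v.valuationSubring
  have : SHL V := Aic.shl fun P hP hd => by
    obtain ⟨x, hx⟩ := IsAlgClosed.exists_aeval_eq_zero (PadicAlgCl p) P
      fun h => hd (Polynomial.natDegree_eq_of_degree_eq_some h)
    obtain ⟨y, rfl⟩ := IsIntegrallyClosed.algebraMap_eq_of_integral (R := V) ⟨P, hP, hx⟩
    refine ⟨y, Subtype.val_injective ?_⟩
    rwa [Polynomial.aeval_algebraMap_apply, Polynomial.coe_aeval_eq_eval] at hx
  have un : ∀ x : V, IsUnit x ↔ ‖(x : PadicAlgCl p)‖ = 1 := fun x =>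
    (Valuation.Integers.isUnit_iff_valuation_eq_one
      (Valuation.valuationSubring.integers v)).trans NNReal.coe_inj.symm
  have hH : Hens V (maximalIdeal V) := fun S _ _ _ σ =>
    have : IsLocalHom (IsScalarTower.toAlgHom V V (ResidueField V)) :=
      ⟨fun a ha => isUnit_of_map_unit (residue V) a ha⟩
    SHL.lift_etale (IsScalarTower.toAlgHom V V (ResidueField V)) σ
  choose Θ' hΘ using fun i => (mem_range_map_iff_coeffs_subset (f := V.subtype) (x := Θ i)).2
    fun c hc => by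
      obtain ⟨m, -, rfl⟩ := mem_coeffs_iff.1 hc
      exact ⟨⟨_, (h i m).le⟩, rfl⟩
  obtain ⟨u, hu⟩ := newt.1 V _ hH ν Θ' fun i m hm => by
    have h1 := h i m
    rw [← hΘ, coeff_map] at h1
    exact h1.ne ((un _).1 hm)
  refine ⟨V.subtype ∘ u, fun i => (u i).2, fun i => ?_⟩
  rw [← hΘ, ← ev]
  exact (map_add V.subtype _ _).symm.trans ((congrArg _ (hu i)).trans (map_zero _))

variable {p : ℕ} [Fact p.Prime] {F F' : Type} [NormedField F] [NormedField F'] (T : Tl p F F')

/-- Sequences that vanish at almost all levels. -/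
def nul : Ideal T.B where
  carrier := {s | ∀ᶠ M in T.U, T.lv M s = 0}
  add_mem' h1 h2 := (h1.and h2).mono fun M h => by rw [map_add, h.1, h.2, add_zero]
  zero_mem' := .of_forall fun M => map_zero _
  smul_mem' c s h := h.mono fun M h => by rw [smul_eq_mul, map_mul, h, mul_zero]

lemma nul_le : nul T ≤ RingHom.ker T.π := fun s hs =>
  norm_eq_zero.1 (tendsto_nhds_unique (T.lim s) (tendsto_const_nhds.congr'
    (Eventually.mono hs fun M (h : s.1 M = 0) => by
      simp [h, (Fact.out : p.Prime).ne_zero])))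

lemma mem_mk (s : T.B) : Ideal.Quotient.mk (nul T) s ∈
    (RingHom.ker T.π).map (Ideal.Quotient.mk (nul T)) ↔ T.π s = 0 := by
  rw [Ideal.mem_quotient_iff_mem_sup, sup_eq_left.2 (nul_le T), RingHom.mem_ker]

lemma newtB : Newt (T.B ⧸ nul T) ((RingHom.ker T.π).map (Ideal.Quotient.mk (nul T))) := by
  classical
  intro ν _ Θ hΘ
  choose Θ' e using fun i => map_surjective _ Ideal.Quotient.mk_surjective (Θ i)
  have h1 : ∀ᶠ M in T.U, ∀ i m, ‖(map (T.lv M) (Θ' i)).coeff m‖ < 1 := by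
    refine eventually_all.2 fun i => ((eventually_all_finset (Θ' i).support).2 fun m _ =>
      (T.lim ((Θ' i).coeff m)).eventually_lt_const (u := 1) ?_).mono fun M h m => ?_
    · rw [(mem_mk T _).1 (by rw [← coeff_map, e]; exact hΘ i m), norm_zero]
      exact one_pos
    · rw [coeff_map]
      by_cases hm : m ∈ (Θ' i).support
      · exact lt_of_not_ge fun h' => (h m hm).not_ge (one_le_pow₀ h')
      · rw [notMem_support_iff.1 hm, map_zero, norm_zero]
        exact one_pos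
  have h2 (M : ℕ) : ∃ u : ν → PadicAlgCl p, (∀ i, ‖u i‖ ≤ 1) ∧
      ((∀ i m, ‖(map (T.lv M) (Θ' i)).coeff m‖ < 1) →
        ∀ i, u i + eval u (map (T.lv M) (Θ' i)) = 0) := by
    by_cases h : ∀ i m, ‖(map (T.lv M) (Θ' i)).coeff m‖ < 1
    · exact (newtV ν _ h).imp fun u hu => ⟨hu.1, fun _ => hu.2⟩
    · exact ⟨0, by simp, fun h' => absurd h' h⟩
  choose u u1 u2 using h2
  let w (i : ν) : T.B := ⟨fun M => u M i, (T.mem _).2
    ⟨1, .of_forall fun M => pow_le_one₀ (norm_nonneg _) (u1 M i)⟩⟩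
  refine ⟨Ideal.Quotient.mk _ ∘ w, fun i => ?_⟩
  rw [← e, ← ev]
  refine (map_add _ _ _).symm.trans (Ideal.Quotient.eq_zero_iff_mem.2 (h1.mono fun M h => ?_))
  rw [map_add, ev]
  exact u2 M h i

lemma lv_ext {x : T.B} (h : ∀ M, T.lv M x = 0) : x = 0 := Subtype.ext (funext h)

lemma desc {P R A ρ : Type} [CommRing P] [CommRing R] [CommRing A] {g : ρ → P} {f : P →+* R}
    (hf : Function.Surjective f) (hg : Ideal.span (Set.range g) = RingHom.ker f) (θ : P →+* A)
    (h : ∀ i, θ (g i) = 0) : ∃ b : R →+* A, ∀ x, b (f x) = θ x :=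
  ⟨f.liftOfSurjective hf ⟨θ, hg ▸ Ideal.span_le.2 (Set.range_subset_iff.2 h)⟩,
    f.liftOfRightInverse_comp_apply _ _ _⟩

/-- Evaluation of an integer polynomial. -/
noncomputable def iv {A ν : Type} [CommRing A] (x : ν → A) : MvPolynomial ν ℤ →+* A :=
  eval₂Hom (Int.castRingHom A) x

lemma iv_nat {A A' ν : Type} [CommRing A] [CommRing A'] (φ : A →+* A') (x : ν → A)
    (P : MvPolynomial ν ℤ) : φ (iv x P) = iv (φ ∘ x) P :=
  DFunLike.congr_fun (show φ.comp (iv x) = iv (φ ∘ x) from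
    ringHom_ext' (RingHom.ext_int _ _) fun i => by simp [iv]) P

lemma elk1 {ν ρ C : Type} [Finite ν] [Finite ρ] {g : ρ → MvPolynomial ν ℤ}
    (hg : Algebra.FormallySmooth ℤ (MvPolynomial ν ℤ ⧸ Ideal.span (Set.range g))) [CommRing C]
    {𝔟 : Ideal C} (h : Newt C 𝔟) (z₀ : ν → C) (h₀ : ∀ i, iv z₀ (g i) ∈ 𝔟) :
    ∃ z : ν → C, (∀ j, z j - z₀ j ∈ 𝔟) ∧ ∀ i, iv z (g i) = 0 := by
  have : IsLocalization.Away (1 : ℤ) ℤ :=
    IsLocalization.away_of_isUnit_of_bijective _ isUnit_one Function.bijective_id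
  have : IsLocalization.Away (algebraMap ℤ C 1) C :=
    IsLocalization.away_of_isUnit_of_bijective _ (isUnit_one.map _) Function.bijective_id
  obtain ⟨c, hc⟩ := elkA ℤ ℤ 1 ν ρ g hg 0 0
  obtain ⟨z, z1, z2⟩ := hc C C (Int.castRingHom C) 𝔟 z₀ (fun _ => rfl) h
    (fun j => ⟨z₀ j, by simp⟩) fun i => ⟨_, h₀ i, by simp [iv]⟩
  exact ⟨z, fun j => (z1 j).elim fun b hb => by simpa [hb.2] using hb.1, z2⟩

end Lift

open Lift in
theorem lift : LIFT_s := by
  classical
  intro p _ F F' _ _ T R _ _ a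
  obtain ⟨n, f, hf, hk⟩ := Algebra.FinitePresentation.out (R := ℤ) (A := R)
  obtain ⟨k, g, hg⟩ : ∃ (k : ℕ) (g : Fin k → MvPolynomial (Fin n) ℤ),
      Ideal.span (Set.range g) = RingHom.ker f :=
    Submodule.fg_iff_exists_fin_generating_family.1 hk
  let e := (Ideal.quotientEquivAlgOfEq ℤ hg).trans (Ideal.quotientKerAlgEquivOfSurjective hf)
  have fa (P : MvPolynomial (Fin n) ℤ) : iv (fun j => a (f (X j))) P = a (f P) :=
    DFunLike.congr_fun (show iv _ = a.comp f.toRingHom from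
      ringHom_ext' (RingHom.ext_int _ _) fun i => by simp [iv]) P
  choose z₀ h₀ using fun j => T.surj (a (f (X j)))
  obtain ⟨z, z1, z2⟩ := elk1 (.of_equiv e.symm) (newtB T) (Ideal.Quotient.mk _ ∘ z₀) fun i => by
    rw [← iv_nat, mem_mk, iv_nat, show T.π ∘ z₀ = _ from funext h₀, fa,
      show f (g i) = 0 from hg.le (Ideal.subset_span ⟨i, rfl⟩), map_zero]
  choose w hw using fun j => Ideal.Quotient.mk_surjective (z j)
  have w1 (j) : T.π (w j) = a (f (X j)) := by
    rw [← h₀, ← sub_eq_zero, ← map_sub, ← mem_mk, map_sub, hw]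
    exact z1 j
  have w2 : ∀ᶠ M in T.U, ∀ i, iv (T.lv M ∘ w) (g i) = 0 := eventually_all.2 fun i => by
    have : iv w (g i) ∈ nul T := Ideal.Quotient.eq_zero_iff_mem.1 (by
      rw [iv_nat, show Ideal.Quotient.mk _ ∘ w = z from funext hw]; exact z2 i)
    exact Eventually.mono this fun M h => (iv_nat _ _ _).symm.trans h
  obtain ⟨M₀, hM⟩ := w2.exists
  obtain ⟨s, s1, s2⟩ : ∃ s : ℕ → ℕ, (∀ᶠ M in T.U, s M = M) ∧
      ∀ M i, iv (T.lv (s M) ∘ w) (g i) = 0 :=
    ⟨fun M => if ∀ i, iv (T.lv M ∘ w) (g i) = 0 then M else M₀, w2.mono fun M h => if_pos h,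
      fun M => by
        by_cases h : ∀ i, iv (T.lv M ∘ w) (g i) = 0
        · simpa only [if_pos h] using h
        · simpa only [if_neg h] using hM⟩
  let w' (j : Fin n) : T.B := ⟨fun M => (w j).1 (s M), (T.mem _).2 (((T.mem _).1 (w j).2).imp
    fun c h => (h.and s1).mono fun M h => by rw [h.2]; exact h.1)⟩
  have w3 (j) : T.π (w' j) = a (f (X j)) := by
    rw [← w1, ← sub_eq_zero, ← map_sub]
    exact nul_le T (s1.mono fun M h => sub_eq_zero.2 (congrArg (w j).1 h))
  obtain ⟨b, hb⟩ := desc (f := f.toRingHom) hf hg (iv w') fun i => lv_ext T fun M => by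
    rw [iv_nat, show T.lv M ∘ w' = T.lv (s M) ∘ w from funext fun _ => rfl, s2]
  refine ⟨b, RingHom.ext fun r => ?_⟩
  obtain ⟨P, rfl⟩ := hf r
  rw [← fa, ← funext w3]
  exact (congrArg T.π (hb P)).trans (iv_nat T.π w' P)

end Pool.Agent.MP_855f4c_ag.Cu

end

section

/-! h92c: elimination theory for multihomogeneous forms. -/

open MvPolynomial

namespace Pool.Agent.MP_855f4c_ag.Cu.Elim

/-- One minor of a spanning family of vectors. -/
theorem minor {R F S T : Type} [CommRing R] [Field F] [Fintype S] (A : T → S → R) (a : R →+* F)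
    (h : Submodule.span F (Set.range fun t s => a (A t s)) = ⊤) :
    ∃ Δ : R, a Δ ≠ 0 ∧ ∀ (k : Type) [Field k] (ψ : R →+* k), ψ Δ ≠ 0 →
      ∀ v : S → k, (∀ t, ∑ s, ψ (A t s) * v s = 0) → v = 0 := by
  classical
  obtain ⟨κ, f, -, hsp, hli⟩ := exists_linearIndependent' F (fun t s => a (A t s))
  let b : Module.Basis κ F (S → F) := Module.Basis.mk hli (by rw [hsp, h])
  let e : κ ≃ S := b.indexEquiv (Pi.basisFun F S)
  let M : Matrix S S R := Matrix.of fun s' s => A (f (e.symm s')) s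
  refine ⟨M.det, ?_, ?_⟩
  · rw [RingHom.map_det]
    have h1 : LinearIndependent F (a.mapMatrix M).row := hli.comp e.symm e.symm.injective
    exact ((Matrix.isUnit_iff_isUnit_det _).1
      (Matrix.linearIndependent_rows_iff_isUnit.1 h1)).ne_zero
  · intro k _ ψ hψ v hv
    rw [RingHom.map_det] at hψ
    refine Matrix.eq_zero_of_mulVec_eq_zero hψ ?_
    funext s'
    exact hv (f (e.symm s'))

section
variable {σ β : Type} [Fintype σ] [DecidableEq β] (bl : σ → β)

theorem wt (m : σ →₀ ℕ) (b : β) :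
    Finsupp.weight (fun v => (Pi.single (bl v) 1 : β → ℕ)) m b =
      ∑ v, if bl v = b then m v else 0 := by
  rw [Finsupp.weight_apply, Finsupp.sum_fintype _ _ (by simp), Finset.sum_apply]
  refine Finset.sum_congr rfl fun v _ => ?_
  by_cases h : bl v = b
  · subst h; simp
  · simp [h, Ne.symm h]

theorem fin (D : β → ℕ) : Set.Finite
    {m : σ →₀ ℕ | Finsupp.weight (fun v => (Pi.single (bl v) 1 : β → ℕ)) m = D} := by
  classical
  refine (Set.finite_Iic (Finsupp.equivFunOnFinite.symm fun v => D (bl v))).subset ?_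
  intro m hm v
  have h1 := wt bl m (bl v)
  rw [hm] at h1
  show m v ≤ D (bl v)
  rw [h1]
  have h2 := Finset.single_le_sum (f := fun u => if bl u = bl v then m u else 0)
    (fun _ _ => Nat.zero_le _) (Finset.mem_univ v)
  simpa using h2

theorem big (m : σ →₀ ℕ) (N : ℕ) (b : β)
    (hm : Finsupp.weight (fun v => (Pi.single (bl v) 1 : β → ℕ)) m b = Fintype.card σ * N + 1) :
    ∃ v, bl v = b ∧ N ≤ m v := by
  by_contra hc
  push Not at hc
  rw [wt] at hm
  have h1 : (∑ v, if bl v = b then m v else 0) ≤ Fintype.card σ * N := by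
    have := Finset.sum_le_card_nsmul Finset.univ (fun v => if bl v = b then m v else 0) N (by
      intro v _
      by_cases h : bl v = b
      · simpa [h] using (hc v h).le
      · simp [h])
    simpa using this
  omega

end

/-- All monomials of a high multidegree lie in the ideal. -/
theorem null {F σ β ι : Type} [Field F] [IsAlgClosed F] [Fintype σ] [Fintype β] [DecidableEq β]
    (bl : σ → β) (g : ι → MvPolynomial σ F)
    (h : ∀ x : σ → F, (∀ b, ∃ v, bl v = b ∧ x v ≠ 0) → ∃ i, eval x (g i) ≠ 0) :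
    ∃ N : ℕ, ∀ m : σ →₀ ℕ, (∀ b, ∃ v, bl v = b ∧ N ≤ m v) →
      monomial m (1 : F) ∈ Ideal.span (Set.range g) := by
  classical
  have h1 : ∀ c : β → σ, ∃ N : ℕ, (∀ b, bl (c b) = b) →
      (∏ b, X (c b) : MvPolynomial σ F) ^ N ∈ Ideal.span (Set.range g) := by
    intro c
    by_cases hc : ∀ b, bl (c b) = b
    · have h2 : (∏ b, X (c b) : MvPolynomial σ F) ∈ (Ideal.span (Set.range g)).radical := by
        rw [← vanishingIdeal_zeroLocus_eq_radical (K := F), mem_vanishingIdeal_iff]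
        intro x hx
        by_contra hne
        rw [map_prod, ← ne_eq, Finset.prod_ne_zero_iff] at hne
        obtain ⟨i, hi⟩ := h x fun b => ⟨c b, hc b, by simpa using hne b (Finset.mem_univ b)⟩
        exact hi (hx (g i) (Ideal.subset_span ⟨i, rfl⟩))
      obtain ⟨N, hN⟩ := h2
      exact ⟨N, fun _ => hN⟩
    · exact ⟨0, fun h' => absurd h' hc⟩
  choose N hN using h1
  refine ⟨Finset.univ.sup N, fun m hm => ?_⟩
  choose c hc hm using hm
  refine Ideal.mem_of_dvd _ ?_ (hN c hc)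
  have h3 : (∏ b, X (c b) : MvPolynomial σ F) ^ N c =
      monomial (∑ b, Finsupp.single (c b) (N c)) 1 := by
    rw [← Finset.prod_pow, monomial_sum_one]
    exact Finset.prod_congr rfl fun b _ => X_pow_eq_monomial
  rw [h3, monomial_dvd_monomial]
  refine ⟨Or.inr fun v => ?_, dvd_rfl⟩
  rw [Finsupp.finsetSum_apply, Finset.sum_eq_single (bl v)]
  · by_cases hv : c (bl v) = v
    · rw [hv, Finsupp.single_eq_same]
      exact (Finset.le_sup (Finset.mem_univ c)).trans (hv ▸ hm (bl v))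
    · rw [Finsupp.single_eq_of_ne' hv]; exact Nat.zero_le _
  · intro b _ hb
    refine Finsupp.single_eq_of_ne' fun hv => hb ?_
    rw [← hv, hc]
  · intro h'; exact absurd (Finset.mem_univ _) h'

end Pool.Agent.MP_855f4c_ag.Cu.Elim

namespace Pool.Agent.MP_855f4c_ag.Cu

theorem elim : ELIM_s := by
  intro R F σ β ι _ _ _ _ _ _ _ bl g n a hg h
  classical
  let := Fintype.ofFinite σ
  let := Fintype.ofFinite β
  let := Fintype.ofFinite ι
  set w : σ → β → ℕ := fun v => Pi.single (bl v) 1 with hw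
  obtain ⟨N, hN⟩ := Elim.null bl (fun i => map a (g i)) (by
    intro x hx
    obtain ⟨i, hi⟩ := h x hx
    exact ⟨i, by rwa [eval_map]⟩)
  let D : β → ℕ := fun _ => Fintype.card σ * N + 1
  let S : Type := {m : σ →₀ ℕ // Finsupp.weight w m = D}
  have : Finite S := Elim.fin bl D
  let := Fintype.ofFinite S
  let T : Type := {t : (σ →₀ ℕ) × ι // Finsupp.weight w t.1 + n t.2 = D}
  let A : T → S → R := fun t s => coeff s.1 (monomial t.1.1 1 * g t.1.2)
  have hh : ∀ (μ : σ →₀ ℕ) (i : ι), IsWeightedHomogeneous w (monomial μ (1 : R) * g i)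
      (Finsupp.weight w μ + n i) := fun μ i =>
    (isWeightedHomogeneous_monomial w μ 1 rfl).mul (hg i)
  let res : MvPolynomial σ F →ₗ[F] (S → F) := LinearMap.pi fun s => lcoeff F s.1
  have h1 : ∀ (q : MvPolynomial σ F) (i : ι), res (q * map a (g i)) ∈
      Submodule.span F (Set.range fun t s => a (A t s)) := by
    intro q i
    induction q using MvPolynomial.induction_on' with
    | monomial μ c =>
      have h2 : res (monomial μ c * map a (g i)) =
          c • fun s : S => a (coeff s.1 (monomial μ 1 * g i)) := by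
        funext s
        show coeff s.1 (monomial μ c * map a (g i)) = c * a (coeff s.1 (monomial μ 1 * g i))
        rw [← coeff_map, map_mul, map_monomial, map_one, ← coeff_C_mul, ← mul_assoc,
          C_mul_monomial, mul_one]
      rw [h2]
      refine Submodule.smul_mem _ _ ?_
      by_cases ht : Finsupp.weight w μ + n i = D
      · exact Submodule.subset_span ⟨⟨(μ, i), ht⟩, rfl⟩
      · have h3 : (fun s : S => a (coeff s.1 (monomial μ 1 * g i))) = 0 := by
          funext s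
          rw [(hh μ i).coeff_eq_zero s.1 (by rw [s.2]; exact Ne.symm ht), map_zero]
          rfl
        rw [h3]; exact Submodule.zero_mem _
    | add p q hp hq => rw [add_mul, map_add]; exact Submodule.add_mem _ hp hq
  have h4 : Submodule.span F (Set.range fun t s => a (A t s)) = ⊤ := by
    rw [eq_top_iff, ← (Pi.basisFun F S).span_eq, Submodule.span_le]
    rintro _ ⟨s, rfl⟩
    obtain ⟨q, hq⟩ := Ideal.mem_span_range_iff_exists_fun.1
      (hN s.1 fun b => Elim.big bl s.1 N b (congrFun s.2 b))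
    have h5 : Pi.basisFun F S s = res (monomial s.1 1) := by
      funext s'
      show _ = coeff s'.1 (monomial s.1 (1 : F))
      rw [coeff_monomial, Pi.basisFun_apply, Pi.single_apply]
      exact if_congr ⟨fun h => h ▸ rfl, fun h => (Subtype.ext h).symm⟩ rfl rfl
    rw [h5, ← hq, map_sum]
    exact Submodule.sum_mem _ fun i _ => h1 _ i
  obtain ⟨Δ, hΔ, hk⟩ := Elim.minor A a h4
  refine ⟨Δ, hΔ, fun k _ ψ hψ x hx => ?_⟩
  by_contra hc
  push Not at hc
  choose c hcb hx using hx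
  have h6 := hk k ψ hψ (fun s => s.1.prod fun v e => x v ^ e) (by
    intro t
    have h7 : eval₂ ψ x (monomial t.1.1 1 * g t.1.2) = 0 := by rw [eval₂_mul, hc, mul_zero]
    rw [← h7, eval₂_eq, ← Finset.sum_subtype (p := fun m => Finsupp.weight w m = D)
      (Elim.fin bl D).toFinset (by simp [hw])
      (fun m => ψ (coeff m (monomial t.1.1 1 * g t.1.2)) * m.prod fun v e => x v ^ e)]
    symm
    refine Finset.sum_subset (fun m hm => ?_) fun m _ hm => ?_
    · have := hh t.1.1 t.1.2 (mem_support_iff.1 hm)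
      rw [t.2] at this
      simpa [hw] using this
    · rw [notMem_support_iff.1 hm, map_zero, zero_mul])
  have h8 : Finsupp.weight w (∑ b, Finsupp.single (c b) (D b)) = D := by
    rw [map_sum]
    funext b
    simp [Finsupp.weight_single, hw, hcb, Pi.single_apply, Finset.sum_apply]
  have h9 := congrFun h6 ⟨_, h8⟩
  refine absurd h9 (Finset.prod_ne_zero_iff.2 fun v hv => pow_ne_zero _ ?_)
  obtain ⟨b, -, hb⟩ := Finset.mem_biUnion.1 (Finsupp.support_finsetSum hv)
  rw [Finset.mem_singleton.1 (Finsupp.support_single_subset hb)]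
  exact hx b

end Pool.Agent.MP_855f4c_ag.Cu

end

section

/-! The asymptotic cone of an ultrametric field at the scale `q ^ M`. -/

open Filter Topology Polynomial

namespace Pool.Agent.MP_855f4c_ag.Cn

/-- A non-principal ultrafilter on `ℕ`. -/
noncomputable abbrev U : Filter ℕ := (hyperfilter ℕ : Ultrafilter ℕ)

theorem U_le : U ≤ atTop := Nat.hyperfilter_le_atTop

section
variable (Ω : Type) [NormedField Ω] [IsUltrametricDist Ω] (q : ℕ)

theorem pow_add_le (x y : Ω) (n : ℕ) : ‖x + y‖ ^ n ≤ max (‖x‖ ^ n) (‖y‖ ^ n) := by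
  rcases le_max_iff.mp (IsUltrametricDist.norm_add_le_max x y) with h | h
  · exact le_max_of_le_left (pow_le_pow_left₀ (norm_nonneg _) h n)
  · exact le_max_of_le_right (pow_le_pow_left₀ (norm_nonneg _) h n)

/-- Sequences that are bounded at the scale `q ^ M` for almost all `M`. -/
def Bd : Subring (ℕ → Ω) where
  carrier := {a | ∃ C : ℝ, ∀ᶠ M in U, ‖a M‖ ^ q ^ M ≤ C}
  mul_mem' := by
    rintro a b ⟨C, hC⟩ ⟨D, hD⟩
    refine ⟨C * D, ?_⟩
    filter_upwards [hC, hD] with M h1 h2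
    rw [Pi.mul_apply, norm_mul, mul_pow]
    exact mul_le_mul h1 h2 (by positivity) (le_trans (by positivity) h1)
  one_mem' := ⟨1, .of_forall fun M => by simp⟩
  add_mem' := by
    rintro a b ⟨C, hC⟩ ⟨D, hD⟩
    refine ⟨max C D, ?_⟩
    filter_upwards [hC, hD] with M h1 h2
    exact (pow_add_le Ω _ _ _).trans (max_le_max h1 h2)
  zero_mem' := ⟨1, .of_forall fun M => by
    simpa using pow_le_one₀ (n := q ^ M) (le_refl (0 : ℝ)) zero_le_one⟩
  neg_mem' := by
    rintro a ⟨C, hC⟩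
    exact ⟨C, by simpa using hC⟩

variable {Ω q}

/-- The value at level `M`. -/
def lv (M : ℕ) : Bd Ω q →+* Ω := (Pi.evalRingHom (fun _ => Ω) M).comp (Bd Ω q).subtype

theorem ex_bd (a : ℕ → Ω) (C : ℝ) (h : ∀ᶠ M in U, ‖a M‖ ^ q ^ M ≤ C) :
    ∃ b : Bd Ω q, ∀ M, lv M b = a M := ⟨⟨a, C, h⟩, fun _ => rfl⟩

theorem ex_of_tend (a : ℕ → Ω) {r : ℝ} (h : Tendsto (fun M => ‖a M‖ ^ q ^ M) U (𝓝 r)) :
    ∃ b : Bd Ω q, ∀ M, lv M b = a M :=
  ex_bd a (r + 1) ((h.eventually (gt_mem_nhds (lt_add_one r))).mono fun _ h => h.le)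

theorem Bd.ext_lv {a b : Bd Ω q} (h : ∀ M, lv M a = lv M b) : a = b := Subtype.ext (funext h)

theorem ex_nu (a : Bd Ω q) : ∃ r : ℝ, Tendsto (fun M => ‖lv M a‖ ^ q ^ M) U (𝓝 r) := by
  obtain ⟨C, hC⟩ := a.2
  obtain ⟨r, -, hr⟩ := (isCompact_Icc (a := (0 : ℝ)) (b := C)).ultrafilter_le_nhds
    ((hyperfilter ℕ).map fun M => ‖lv M a‖ ^ q ^ M)
    (le_principal_iff.mpr (hC.mono fun M h => ⟨by positivity, h⟩))
  exact ⟨r, hr⟩

/-- The limit of the rescaled norms. -/
noncomputable def nu (a : Bd Ω q) : ℝ := (ex_nu a).choose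

theorem tend (a : Bd Ω q) : Tendsto (fun M => ‖lv M a‖ ^ q ^ M) U (𝓝 (nu a)) :=
  (ex_nu a).choose_spec

theorem nu_eq {a : Bd Ω q} {r : ℝ} (h : Tendsto (fun M => ‖lv M a‖ ^ q ^ M) U (𝓝 r)) :
    nu a = r := tendsto_nhds_unique (tend a) h

theorem nu_nonneg (a : Bd Ω q) : 0 ≤ nu a := ge_of_tendsto' (tend a) fun _ => by positivity

theorem nu_mul (a b : Bd Ω q) : nu (a * b) = nu a * nu b :=
  nu_eq (by simpa only [map_mul, norm_mul, mul_pow] using (tend a).mul (tend b))

theorem nu_one : nu (1 : Bd Ω q) = 1 := nu_eq (by simp)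

theorem nu_add (a b : Bd Ω q) : nu (a + b) ≤ max (nu a) (nu b) :=
  le_of_tendsto_of_tendsto' (tend _) ((tend a).max (tend b)) fun M => by
    rw [map_add]; exact pow_add_le Ω _ _ _

variable [NeZero q]

theorem nu_of_zero {a : Bd Ω q} (h : ∀ᶠ M in U, lv M a = 0) : nu a = 0 :=
  nu_eq (tendsto_const_nhds.congr' (h.mono fun M h => by
    simp [h, NeZero.ne q]))

variable (Ω q) in
/-- Null sequences. -/
def nul : Ideal (Bd Ω q) where
  carrier := {a | nu a = 0}
  add_mem' := fun {a b} ha hb => le_antisymm ((nu_add a b).trans (max_le ha.le hb.le)) (nu_nonneg _)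
  zero_mem' := nu_of_zero (.of_forall fun _ => map_zero _)
  smul_mem' := fun c a (ha : nu a = 0) => show nu (c * a) = 0 by rw [nu_mul, ha, mul_zero]

theorem ne_zero_of_nu {a : Bd Ω q} (h : nu a ≠ 0) : ∀ᶠ M in U, lv M a ≠ 0 :=
  ((tend a).eventually_ne h).mono fun M h h0 => h (by simp [h0, NeZero.ne q])

omit [NeZero q] in
theorem ex_inv {a : Bd Ω q} (h : nu a ≠ 0) : ∃ b : Bd Ω q, ∀ M, lv M b = (lv M a)⁻¹ :=
  ex_of_tend _ (r := (nu a)⁻¹) (by simpa only [norm_inv, inv_pow] using (tend a).inv₀ h)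

instance nul_max : (nul Ω q).IsMaximal := by
  rw [Ideal.isMaximal_iff]
  refine ⟨fun h => one_ne_zero (nu_one.symm.trans h), fun J x hJ hx hxJ => ?_⟩
  obtain ⟨y, hy⟩ := ex_inv (a := x) hx
  have h1 : 1 - y * x ∈ nul Ω q := nu_of_zero ((ne_zero_of_nu hx).mono fun M h => by
    rw [map_sub, map_mul, hy, inv_mul_cancel₀ h, map_one, sub_self])
  simpa using J.add_mem (hJ h1) (J.mul_mem_left y hxJ)

variable (Ω q) in
/-- The cone. -/
def Cone : Type := Bd Ω q ⧸ nul Ω q

noncomputable instance : Field (Cone Ω q) := Ideal.Quotient.field (nul Ω q)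

/-- The class of a bounded sequence. -/
noncomputable def cl : Bd Ω q →+* Cone Ω q := Ideal.Quotient.mk (nul Ω q)

theorem cl_surj : Function.Surjective (cl : Bd Ω q → Cone Ω q) := Ideal.Quotient.mk_surjective

theorem cl_eq_zero {a : Bd Ω q} : cl a = 0 ↔ nu a = 0 := Ideal.Quotient.eq_zero_iff_mem

theorem nu_congr {a b : Bd Ω q} (h : cl a = cl b) : nu a = nu b := by
  have key : ∀ a b : Bd Ω q, cl a = cl b → nu a ≤ nu b := fun a b h => by
    have h1 : nu (a - b) = 0 := cl_eq_zero.mp (by rw [map_sub, h, sub_self])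
    have h2 := nu_add (a - b) b
    rwa [sub_add_cancel, h1, max_eq_right (nu_nonneg b)] at h2
  exact le_antisymm (key a b h) (key b a h.symm)

/-- The norm of the cone. -/
noncomputable def nm (x : Cone Ω q) : ℝ := nu (cl_surj x).choose

theorem nm_cl (a : Bd Ω q) : nm (cl a) = nu a := nu_congr (cl_surj (cl a)).choose_spec

theorem nm_add (x y : Cone Ω q) : nm (x + y) ≤ max (nm x) (nm y) := by
  obtain ⟨a, rfl⟩ := cl_surj x
  obtain ⟨b, rfl⟩ := cl_surj y
  rw [← map_add, nm_cl, nm_cl, nm_cl]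
  exact nu_add a b

/-- The absolute value of the cone. -/
noncomputable def abv : AbsoluteValue (Cone Ω q) ℝ where
  toFun := nm
  map_mul' x y := by
    obtain ⟨a, rfl⟩ := cl_surj x
    obtain ⟨b, rfl⟩ := cl_surj y
    rw [← map_mul, nm_cl, nm_cl, nm_cl, nu_mul]
  nonneg' _ := nu_nonneg _
  eq_zero' x := by
    obtain ⟨a, rfl⟩ := cl_surj x
    rw [nm_cl, cl_eq_zero]
  add_le' x y := (nm_add x y).trans
    (max_le (le_add_of_nonneg_right (nu_nonneg _)) (le_add_of_nonneg_left (nu_nonneg _)))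

noncomputable instance : NormedField (Cone Ω q) := abv.toNormedField

theorem norm_cl (a : Bd Ω q) : ‖cl a‖ = nu a := nm_cl a

theorem tend_cl (a : Bd Ω q) : Tendsto (fun M => ‖lv M a‖ ^ q ^ M) U (𝓝 ‖cl a‖) :=
  norm_cl a ▸ tend a

instance : IsUltrametricDist (Cone Ω q) :=
  IsUltrametricDist.isUltrametricDist_of_forall_norm_add_le_max_norm nm_add

theorem cl_congr {a b : Bd Ω q} (h : ∀ᶠ M in U, lv M a = lv M b) : cl a = cl b := by
  rw [← sub_eq_zero, ← map_sub, cl_eq_zero]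
  exact nu_of_zero (h.mono fun M h => by rw [map_sub, h, sub_self])

/-- A representative with a bound at every level. -/
theorem ex_rep (x : Cone Ω q) {r : ℝ} (h : ‖x‖ < r) :
    ∃ a : Bd Ω q, cl a = x ∧ ∀ M, ‖lv M a‖ ^ q ^ M < r := by
  classical
  obtain ⟨a, rfl⟩ := cl_surj x
  have h1 : ∀ M, ‖(if ‖lv M a‖ ^ q ^ M < r then lv M a else 0)‖ ^ q ^ M < r := fun M => by
    split_ifs with h'
    · exact h'
    · simpa [NeZero.ne q] using (norm_nonneg _).trans_lt h
  obtain ⟨b, hb⟩ := ex_bd _ r (.of_forall fun M => (h1 M).le)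
  refine ⟨b, cl_congr ?_, fun M => hb M ▸ h1 M⟩
  exact ((tend_cl a).eventually (gt_mem_nhds h)).mono fun M h' => by rw [hb, if_pos h']

theorem pow_sum_le {ι : Type} (s : Finset ι) (f : ι → Ω) {n : ℕ} (hn : n ≠ 0) {r : ℝ} (hr : 0 ≤ r)
    (h : ∀ i ∈ s, ‖f i‖ ^ n ≤ r) : ‖∑ i ∈ s, f i‖ ^ n ≤ r := by
  classical
  induction s using Finset.induction_on with
  | empty => simpa [hn] using hr
  | insert i s hi ih =>
    rw [Finset.sum_insert hi]
    exact (pow_add_le Ω _ _ _).trans (max_le (h i (Finset.mem_insert_self _ _))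
      (ih fun j hj => h j (Finset.mem_insert_of_mem hj)))

instance : CompleteSpace (Cone Ω q) := by
  refine Metric.complete_of_convergent_controlled_sequences (fun n => (1 / 2 : ℝ) ^ n)
    (fun n => by positivity) fun u hu => ?_
  have h1 : ∀ n, ‖u (n + 1) - u n‖ < (1 / 2 : ℝ) ^ n := fun n => by
    rw [← dist_eq_norm]; exact hu n _ _ n.le_succ le_rfl
  choose d hd hd' using fun n => ex_rep _ (h1 n)
  have hq : ∀ M, q ^ M ≠ 0 := fun M => pow_ne_zero _ (NeZero.ne q)
  have h2 : ∀ n M, ‖∑ k ∈ Finset.Ico n M, lv M (d k)‖ ^ q ^ M ≤ (1 / 2 : ℝ) ^ n := fun n M =>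
    pow_sum_le _ _ (hq M) (by positivity) fun k hk => (hd' k M).le.trans
      (pow_le_pow_of_le_one (by norm_num) (by norm_num) (Finset.mem_Ico.mp hk).1)
  choose s hs using fun n => ex_bd _ _ (.of_forall (h2 n))
  have h3 : ∀ n, cl (s 0) = u n - u 0 + cl (s n) := fun n => by
    have h4 : u n - u 0 = cl (∑ k ∈ Finset.range n, d k) := by
      rw [map_sum, ← Finset.sum_range_sub]
      exact Finset.sum_congr rfl fun k _ => (hd k).symm
    rw [h4, ← map_add]
    refine cl_congr (((eventually_ge_atTop n).filter_mono U_le).mono fun M hM => ?_)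
    rw [map_add, map_sum, hs, hs, Finset.range_eq_Ico,
      Finset.sum_Ico_consecutive _ (Nat.zero_le n) hM]
  refine ⟨u 0 + cl (s 0), tendsto_iff_norm_sub_tendsto_zero.mpr (squeeze_zero
    (fun _ => norm_nonneg _) (fun n => ?_)
    (tendsto_pow_atTop_nhds_zero_of_lt_one (r := 1 / 2) (by norm_num) (by norm_num)))⟩
  rw [h3 n, show u n - (u 0 + (u n - u 0 + cl (s n))) = -cl (s n) by ring, norm_neg]
  exact le_of_tendsto' (tend_cl _) fun M => hs n M ▸ h2 n M

/-- A root of a monic polynomial is bounded by the coefficients. -/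
theorem root_le {P : Polynomial Ω} (hP : P.Monic) {x : Ω} (hx : P.eval x = 0) {n : ℕ} (hn : n ≠ 0) {C : ℝ}
    (hC : 1 ≤ C) (h : ∀ i, ‖P.coeff i‖ ^ n ≤ C) : ‖x‖ ^ n ≤ C := by
  by_contra h1
  rw [not_le] at h1
  have h2 : 1 < ‖x‖ := lt_of_pow_lt_pow_left₀ n (norm_nonneg _) (by simpa using hC.trans_lt h1)
  rw [hP.as_sum, eval_add, eval_pow, eval_X, eval_finsetSum, add_eq_zero_iff_eq_neg] at hx
  rcases Nat.eq_zero_or_pos P.natDegree with h0 | h0
  · simp [h0] at hx
  have h3 : ‖x ^ P.natDegree‖ ^ n ≤ C * (‖x‖ ^ (P.natDegree - 1)) ^ n := by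
    rw [hx, norm_neg]
    refine pow_sum_le _ _ hn (by positivity) fun i hi => ?_
    rw [eval_mul, eval_C, eval_pow, eval_X, norm_mul, mul_pow, norm_pow]
    refine mul_le_mul (h i) (pow_le_pow_left₀ (by positivity) (pow_le_pow_right₀ h2.le ?_) _)
      (by positivity) (by positivity)
    have := Finset.mem_range.mp hi
    omega
  obtain ⟨d, hd⟩ : ∃ d, P.natDegree = d + 1 := ⟨_, (Nat.succ_pred_eq_of_pos h0).symm⟩
  rw [hd, norm_pow, pow_succ', mul_pow, Nat.add_sub_cancel] at h3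
  exact absurd (le_of_mul_le_mul_right h3 (by positivity)) (not_le.mpr h1)

omit [NeZero q] in
theorem ex_bound {ι : Type} (s : Finset ι) (a : ι → Bd Ω q) :
    ∃ C : ℝ, 1 ≤ C ∧ ∀ᶠ M in U, ∀ i ∈ s, ‖lv M (a i)‖ ^ q ^ M ≤ C := by
  choose C hC using fun i => (a i).2
  obtain ⟨D, hD⟩ := (s.image C).bddAbove
  refine ⟨max 1 D, le_max_left _ _, (eventually_all_finset s).mpr fun i hi => (hC i).mono
    fun M h => h.trans (le_max_of_le_right (hD ?_))⟩
  exact Finset.mem_coe.mpr (Finset.mem_image_of_mem _ hi)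

/-- Monic polynomials over the ring of bounded sequences split. -/
theorem split [IsAlgClosed Ω] {P : (Bd Ω q)[X]} (hP : P.Monic) :
    ∃ r : Fin P.natDegree → Bd Ω q, P = ∏ i, (X - C (r i)) := by
  have h1 : ∀ M, ∃ r : Fin P.natDegree → Ω, P.map (lv M) = ∏ i, (X - C (r i)) := fun M => by
    have hm := hP.map (lv M)
    have h2 := (IsAlgClosed.splits (P.map (lv M))).eq_prod_roots_of_monic hm
    have h3 : (P.map (lv M)).roots.toList.length = P.natDegree := by
      rw [Multiset.length_toList, IsAlgClosed.card_roots_eq_natDegree, hP.natDegree_map]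
    refine ⟨fun i => (P.map (lv M)).roots.toList.get (i.cast h3.symm), h2.trans ?_⟩
    conv_lhs => rw [← Multiset.coe_toList (P.map (lv M)).roots, Multiset.map_coe,
      Multiset.prod_coe, ← List.ofFn_get (P.map (lv M)).roots.toList, List.map_ofFn,
      List.prod_ofFn]
    exact Fintype.prod_equiv (finCongr h3) _ _ fun i => rfl
  choose r hr using h1
  obtain ⟨D, hD, h2⟩ := ex_bound (Finset.range (P.natDegree + 1)) P.coeff
  have h3 : ∀ i, ∀ᶠ M in U, ‖r M i‖ ^ q ^ M ≤ D := fun i => h2.mono fun M h => by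
    refine root_le (hP.map (lv M)) ?_ (pow_ne_zero _ (NeZero.ne q)) hD fun j => ?_
    · rw [hr, eval_prod]
      exact Finset.prod_eq_zero (Finset.mem_univ i) (by simp)
    · rw [coeff_map]
      by_cases hj : j < P.natDegree + 1
      · exact h j (Finset.mem_range.mpr hj)
      · rw [coeff_eq_zero_of_natDegree_lt (by omega)]
        simpa [NeZero.ne q] using zero_le_one.trans hD
  choose b hb using fun i => ex_bd _ _ (h3 i)
  refine ⟨b, Polynomial.ext fun n => Bd.ext_lv fun M => ?_⟩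
  rw [← coeff_map, ← coeff_map, hr, Polynomial.map_prod]
  simp [hb]

instance [IsAlgClosed Ω] : IsAlgClosed (Cone Ω q) := by
  refine IsAlgClosed.of_exists_root _ fun P hP hi => ?_
  obtain ⟨Q, rfl, hd, hQ⟩ := lifts_and_natDegree_eq_and_monic
    ((mem_lifts (f := cl) P).mpr (map_surjective _ cl_surj P)) hP
  obtain ⟨r, hr⟩ := split hQ
  have h0 : 0 < Q.natDegree := hd ▸ hi.natDegree_pos
  refine ⟨cl (r ⟨0, h0⟩), ?_⟩
  have h1 := congrArg (eval (r ⟨0, h0⟩)) hr
  rw [eval_prod, Finset.prod_eq_zero (Finset.mem_univ ⟨0, h0⟩) (by simp)] at h1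
  rw [eval_map, eval₂_hom, h1, map_zero]

instance {p : ℕ} [Fact p.Prime] [h : Fact (‖(p : Ω)‖ < 1)] : CharP (Cone Ω p) p := by
  refine (CharP.charP_iff_prime_eq_zero Fact.out).mpr ?_
  rw [← map_natCast (cl : Bd Ω p →+* _), cl_eq_zero]
  refine nu_eq ?_
  simp only [map_natCast]
  exact ((tendsto_pow_atTop_nhds_zero_of_lt_one (norm_nonneg _) h.1).comp
    (tendsto_pow_atTop_atTop_of_one_lt (Fact.out : p.Prime).one_lt)).mono_left U_le

/-- Roots of a constant. -/
theorem ex_flat [IsAlgClosed Ω] (c : Ω) : ∃ a : Bd Ω q, ∀ M, lv M a ^ q ^ M = c := by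
  choose a ha using fun M => IsAlgClosed.exists_pow_nat_eq c (pow_pos (NeZero.pos q) M)
  obtain ⟨b, hb⟩ := ex_bd a ‖c‖ (.of_forall fun M => by rw [← norm_pow, ha])
  exact ⟨b, fun M => by rw [hb, ha]⟩

theorem norm_flat {a : Bd Ω q} {c : Ω} (h : ∀ M, lv M a ^ q ^ M = c) : ‖cl a‖ = ‖c‖ :=
  (norm_cl a).trans (nu_eq (by simp only [← norm_pow, h]; exact tendsto_const_nhds))

end

section
open WittVector G.Apx Cu
variable {p : ℕ} [hp : Fact p.Prime]

theorem map_asum {A A' I : Type} [CommRing A] [CommRing A'] (φ : A →+* A') (t : A) (N : ℕ)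
    (s : Finset I) (z : I → A) : φ (asum p t N s z) = asum p (φ t) N s fun i => φ (z i) := by
  rw [asum, asum, ← WittVector.map_coeff, map_xs, map_sum]
  simp only [map_teichmuller]

theorem asum_mul {A I : Type} [CommRing A] (t c : A) (N : ℕ) (s : Finset I) (z : I → A) :
    asum p t N s (fun i => c * z i) = c ^ p ^ N * asum p t N s z := by
  simp only [asum, map_mul]
  rw [← Finset.mul_sum, xs_mul, teich_coeff, pow_zero, pow_one]

theorem lev {C Γ I : Type} [Field C] [IsAlgClosed C] [LinearOrderedCommGroupWithZero Γ]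
    (v : Valuation C Γ) (h0 : (p : C) ≠ 0) (h1 : v (p : C) < 1) {t : C} {N k : ℕ} (hk : N < k)
    (ht : t ^ p ^ k = p) (s : Finset I) (z : I → C) (hz : ∀ i ∈ s, v (z i) ≤ 1) :
    v (∑ i ∈ s, z i ^ p ^ k) ≤ max (v (asum p t N s z) ^ p ^ (k - N)) (v (p : C) ^ N) ∧
      v (asum p t N s z) ^ p ^ (k - N) ≤ max (v (∑ i ∈ s, z i ^ p ^ k)) (v (p : C) ^ N) := by
  have hx : Le p v k 1 (∑ i ∈ s, teichmuller p (z i)) :=
    Finset.sum_induction _ _ (fun _ _ => add_one) (fun j _ => by simp [hp.1.ne_zero])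
      fun i hi => (le_teich k (z i)).mono (pow_le_one' (hz i hi) _)
  have h := le_xs h0 h1 _ _ k ht hx N hk.le
  have g := ghost_xs p _ (∑ i ∈ s, teichmuller p (z i)) k ht N hk.le
  rw [map_sum] at g
  simp only [ghostComponent_teichmuller] at g
  refine ⟨g ▸ h.ghost, ?_⟩
  obtain ⟨j, hj⟩ : ∃ j, k - N = j + 1 := ⟨k - N - 1, by omega⟩
  rw [hj] at h g ⊢
  rw [ghost_succ] at g
  have h2 := h.shift.ghost
  rw [asum, ← g]
  generalize ghostComponent (p := p) (R := C) j _ = D at h2 ⊢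
  generalize WittVector.coeff _ 0 = A at h2 ⊢
  by_contra hc
  rw [not_le, max_lt_iff] at hc
  rw [max_eq_left hc.2.le] at h2
  have hA : 0 < v A ^ p ^ (j + 1) := lt_of_le_of_lt zero_le hc.2
  have h3 : v ((p : C) * D) < v (A ^ p ^ (j + 1)) := by
    rw [map_mul, map_pow]
    exact (mul_le_mul_right h2 _).trans_lt (mul_lt_of_lt_one_left hA h1)
  rw [v.map_add_eq_of_lt_left h3, map_pow] at hc
  exact lt_irrefl _ hc.1

variable {Ω : Type} [NormedField Ω] [IsUltrametricDist Ω]

/-- The sequence of the powers. -/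
def sq : Bd Ω p →* Bd Ω 1 where
  toFun a := ⟨fun M => lv M a ^ p ^ M, a.2.imp fun _ h => by simpa [lv] using h⟩
  map_one' := Bd.ext_lv fun M => show lv M (1 : Bd Ω p) ^ p ^ M = _ by simp
  map_mul' a b := Bd.ext_lv fun M =>
    show lv M (a * b) ^ p ^ M = lv M a ^ p ^ M * lv M b ^ p ^ M by rw [map_mul, mul_pow]

omit hp in
theorem lv_sq (a : Bd Ω p) (M : ℕ) : lv M (sq a) = lv M a ^ p ^ M := rfl

theorem tend_one (a : Bd Ω 1) : Tendsto (fun M => ‖lv M a‖) U (𝓝 ‖cl a‖) := by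
  simpa using tend_cl a

theorem norm_sq (a : Bd Ω p) : ‖cl (sq a)‖ = ‖cl a‖ :=
  tendsto_nhds_unique (tend_one _) (by simpa only [lv_sq, norm_pow] using tend_cl a)

theorem ex_scale {I : Type} (s : Finset I) (a : I → Bd Ω p) (h : ∀ i ∈ s, ‖cl (a i)‖ ≤ 1) :
    ∃ c : Bd Ω p, ‖cl c‖ = 1 ∧ ∀ M, ∀ i ∈ s, ‖lv M (c * a i)‖ ≤ 1 := by
  have h1 : ∀ M, ∃ c : Ω, ‖c‖ ≤ 1 ∧ (∀ i ∈ s, ‖c * lv M (a i)‖ ≤ 1) ∧
      (c = 1 ∨ ∃ i ∈ s, c * lv M (a i) = 1) := fun M => by
    by_cases h2 : ∀ i ∈ s, ‖lv M (a i)‖ ≤ 1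
    · exact ⟨1, by simp, by simpa using h2, .inl rfl⟩
    push Not at h2
    obtain ⟨j, hj, h2⟩ := h2
    obtain ⟨i, hi, h3⟩ := s.exists_max_image (fun i => ‖lv M (a i)‖) ⟨j, hj⟩
    have h4 : 1 < ‖lv M (a i)‖ := h2.trans_le (h3 j hj)
    have h5 := zero_lt_one.trans h4
    refine ⟨(lv M (a i))⁻¹, ?_, fun k hk => ?_, .inr ⟨i, hi, inv_mul_cancel₀ (norm_pos_iff.mp h5)⟩⟩
    · rw [norm_inv]; exact inv_le_one_of_one_le₀ h4.le
    · rw [norm_mul, norm_inv, inv_mul_le_iff₀ h5, mul_one]; exact h3 k hk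
  choose c h2 h3 h4 using h1
  have h5 : ∀ M, ‖c M‖ ^ p ^ M ≤ 1 := fun M => pow_le_one₀ (norm_nonneg _) (h2 M)
  obtain ⟨b, hb⟩ := ex_bd c 1 (.of_forall h5)
  refine ⟨b, le_antisymm (le_of_tendsto' (tend_cl b) fun M => hb M ▸ h5 M) ?_,
    fun M i hi => by rw [map_mul, hb]; exact h3 M i hi⟩
  by_contra h6
  rw [not_le] at h6
  have h7 : ∀ᶠ M in U, ∀ i ∈ s, ‖lv M (b * a i)‖ ^ p ^ M < 1 :=
    (eventually_all_finset s).mpr fun i hi => (tend_cl _).eventually (gt_mem_nhds (by
      rw [map_mul, norm_mul]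
      exact (mul_le_of_le_one_right (norm_nonneg _) (h i hi)).trans_lt h6))
  obtain ⟨M, h8, h9⟩ := (h7.and ((tend_cl b).eventually (gt_mem_nhds h6))).exists
  rcases h4 M with h' | ⟨i, hi, h'⟩
  · simp [hb, h'] at h9
  · have := h8 i hi
    rw [map_mul, hb, h'] at this
    simp at this

variable [IsAlgClosed Ω] [CharZero Ω] [h1 : Fact (‖(p : Ω)‖ < 1)]

theorem ap_rep {t : Bd Ω p} (ht : ∀ M, lv M t ^ p ^ M = p) {I : Type} (s : Finset I)
    (a : I → Bd Ω p) (h : ∀ i ∈ s, ‖cl (a i)‖ ≤ 1) (N : ℕ) :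
    ‖∑ i ∈ s, cl (sq (a i))‖ ^ p ^ N ≤
      max ‖asum p (cl t) N s fun i => cl (a i)‖ (‖(p : Ω)‖ ^ (N * p ^ N)) ∧
    ‖asum p (cl t) N s fun i => cl (a i)‖ ≤
      max (‖∑ i ∈ s, cl (sq (a i))‖ ^ p ^ N) (‖(p : Ω)‖ ^ (N * p ^ N)) := by
  obtain ⟨c, hc, hc'⟩ := ex_scale s a h
  have e1 : ‖∑ i ∈ s, cl (sq (a i))‖ = ‖cl (∑ i ∈ s, sq (c * a i))‖ := by
    have e0 : ∑ i ∈ s, sq (c * a i) = sq c * ∑ i ∈ s, sq (a i) := by
      simp only [map_mul, Finset.mul_sum]
    rw [e0, map_mul, norm_mul, norm_sq, hc, one_mul, map_sum]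
  have e2 : ‖asum p (cl t) N s fun i => cl (a i)‖ = ‖cl (asum p t N s fun i => c * a i)‖ := by
    rw [asum_mul, map_mul, map_pow, norm_mul, norm_pow, hc, one_pow, one_mul, map_asum]
  rw [e1, e2]
  have t1 := (tend_one (∑ i ∈ s, sq (c * a i))).pow (p ^ N)
  have t2 := tend_cl (asum p t N s fun i => c * a i)
  have key := ((eventually_gt_atTop N).filter_mono U_le).mono fun M hM => by
    have g := lev (NormedField.valuation (K := Ω)) (Nat.cast_ne_zero.mpr hp.1.ne_zero) h1.1 hM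
      (ht M) s (fun i => lv M (c * a i)) (hc' M)
    rw [← map_asum] at g
    have g1 := pow_le_pow_left' g.1 (p ^ N)
    have g2 := pow_le_pow_left' g.2 (p ^ N)
    rw [(pow_left_mono (p ^ N)).map_max, ← pow_mul, ← pow_mul, ← pow_add,
      Nat.sub_add_cancel hM.le] at g1
    rw [(pow_left_mono (p ^ N)).map_max, ← pow_mul, ← pow_mul, ← pow_add,
      Nat.sub_add_cancel hM.le] at g2
    exact And.intro (NNReal.coe_le_coe.mpr g1) (NNReal.coe_le_coe.mpr g2)
  refine ⟨le_of_tendsto_of_tendsto t1 (t2.max tendsto_const_nhds) (key.mono fun M g => ?_),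
    le_of_tendsto_of_tendsto t2 (t1.max tendsto_const_nhds) (key.mono fun M g => ?_)⟩
  · simpa [lv_sq, mul_pow] using g.1
  · simpa [lv_sq, mul_pow] using g.2

theorem sq_congr {a b : Bd Ω p} (h : cl a = cl b) : cl (sq a) = cl (sq b) := by
  obtain ⟨t, ht⟩ := ex_flat (q := p) (p : Ω)
  obtain ⟨ζ, hζ⟩ := ex_flat (q := p) (-1 : Ω)
  have h2 : cl (sq ζ) = -1 := by
    rw [← map_one cl, ← map_neg]
    exact cl_congr (.of_forall fun M => by simp [lv_sq, hζ])
  have h3 : ‖cl ζ‖ = 1 := by rw [norm_flat hζ, norm_neg, norm_one]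
  have key : ∀ a b : Bd Ω p, cl a = cl b → ‖cl a‖ ≤ 1 → cl (sq a) = cl (sq b) := fun a b h ha => by
    have h4 : ∀ N, ‖cl (sq a) - cl (sq b)‖ ≤ ‖(p : Ω)‖ ^ N := fun N => by
      have g1 := (ap_rep ht Finset.univ (fun i : Bool => if i then a else ζ * b)
        (by rintro (_ | _) - <;> simp [h3, ← h, ha]) N).1
      have g2 := (ap_rep ht Finset.univ (fun i : Bool => if i then a else ζ * a)
        (by rintro (_ | _) - <;> simp [h3, ha]) N).2
      have e : (fun i : Bool => cl (if i then a else ζ * b)) =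
          fun i : Bool => cl (if i then a else ζ * a) := by
        ext (_ | _) <;> simp [h]
      rw [e] at g1
      have g3 := g1.trans (max_le g2 (le_max_right _ _))
      refine le_of_pow_le_pow_left₀ (pow_ne_zero N hp.1.ne_zero) (by positivity) ?_
      simpa [h2, hp.1.ne_zero, ← pow_mul, ← sub_eq_add_neg] using g3
    rw [← sub_eq_zero, ← norm_le_zero_iff]
    exact ge_of_tendsto' (tendsto_pow_atTop_nhds_zero_of_lt_one (norm_nonneg _) h1.1) h4
  by_cases h0 : cl a = 0
  · rw [← norm_eq_zero, ← norm_sq, norm_eq_zero] at h0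
    rw [h0, eq_comm, ← norm_eq_zero, norm_sq, ← h, ← norm_sq, h0, norm_zero]
  obtain ⟨c, hc⟩ := cl_surj (cl a)⁻¹
  have h5 := key (c * a) (c * b) (by rw [map_mul, map_mul, h])
    (by rw [map_mul, hc, inv_mul_cancel₀ h0, norm_one])
  simp only [map_mul] at h5
  refine mul_left_cancel₀ ?_ h5
  rw [← norm_ne_zero_iff, norm_sq, hc, norm_ne_zero_iff]
  exact inv_ne_zero h0

theorem sq_ch (a : Bd Ω p) : cl (sq (cl_surj (cl a)).choose) = cl (sq a) :=
  sq_congr (cl_surj _).choose_spec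

/-- The multiplicative map between the cones. -/
noncomputable def sh : Cone Ω p →*₀ Cone Ω 1 where
  toFun x := cl (sq (cl_surj x).choose)
  map_zero' := by rw [← norm_eq_zero, norm_sq, (cl_surj _).choose_spec, norm_zero]
  map_one' := by rw [← map_one cl, sq_ch, map_one, map_one]
  map_mul' x y := by
    obtain ⟨a, rfl⟩ := cl_surj x
    obtain ⟨b, rfl⟩ := cl_surj y
    rw [← map_mul, sq_ch, sq_ch, sq_ch, map_mul, map_mul]

theorem sh_cl (a : Bd Ω p) : sh (cl a) = cl (sq a) := sq_ch a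

end

/-- Constant sequences. -/
def cst (Ω : Type) [NormedField Ω] [IsUltrametricDist Ω] : Ω →+* Bd Ω 1 :=
  (Pi.constRingHom ℕ Ω).codRestrict _ fun c => ⟨‖c‖, .of_forall fun M => by simp⟩

end Pool.Agent.MP_855f4c_ag.Cn

namespace Pool.Agent.MP_855f4c_ag.Cu

open Cn

theorem f0 : F0_s := by
  intro p hp
  have hn : ‖(p : PadicAlgCl p)‖ = ‖(p : ℚ_[p])‖ := by
    rw [← PadicAlgCl.norm_extends, map_natCast]
  have h1 : Fact (‖(p : PadicAlgCl p)‖ < 1) := ⟨hn ▸ Padic.norm_p_lt_one⟩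
  have h2 : ∀ c : PadicAlgCl p, ∃ a : Cn.Bd (PadicAlgCl p) p,
      (∀ M, lv M a ^ p ^ M = c) ∧ (c = 1 → a = 1) := fun c => by
    by_cases h : c = 1
    · exact ⟨1, fun M => by simp [h], fun _ => rfl⟩
    · exact (ex_flat c).imp fun a ha => ⟨ha, fun h' => absurd h' h⟩
  choose rt h3 h4 using h2
  refine ⟨Cone (PadicAlgCl p) p, Cone (PadicAlgCl p) 1, inferInstance, inferInstance,
    inferInstance, inferInstance, inferInstance, inferInstance, inferInstance, ?_,
    ⟨⟨hyperfilter ℕ, U_le, Cn.Bd _ p, fun _ => Iff.rfl, cl, cl_surj, tend_cl, rt, h3, h4 1 rfl,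
      cl.comp (cst _), fun c => tendsto_nhds_unique (tend_one _) tendsto_const_nhds, sh,
      fun z => ?_, fun c => ?_, fun I s z N hz => ?_⟩⟩⟩
  · obtain ⟨x, hx⟩ := NormedField.exists_one_lt_norm (PadicAlgCl p)
    let _ : NontriviallyNormedField (Cone (PadicAlgCl p) p) :=
      ⟨⟨cl (rt x), by rwa [norm_flat (h3 x)]⟩⟩
    exact Cardinal.aleph0_lt_mk_iff.mp (Cardinal.aleph0_lt_continuum.trans_le
      (continuum_le_cardinal_of_nontriviallyNormedField _))
  · obtain ⟨a, rfl⟩ := cl_surj z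
    rw [sh_cl, norm_sq]
  · rw [sh_cl]
    exact cl_congr (.of_forall fun M => h3 c M)
  · choose a ha using fun i => cl_surj (z i)
    obtain rfl : z = fun i => cl (a i) := funext fun i => (ha i).symm
    simp only [sh_cl]
    exact ap_rep (h3 p) s a hz N

end Pool.Agent.MP_855f4c_ag.Cu

end

section

/-! h92c: data of a curve in characteristic zero. -/

open MvPolynomial Filter

namespace Pool.Agent.MP_855f4c_ag.Cu.Cd

section
variable {σ Ω R : Type} [CommRing Ω] [CommRing R] [Algebra Ω R]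

lemma evh {f : MvPolynomial σ Ω} {D : ℕ} (hf : f.IsHomogeneous D) (c : R) (w : σ → R) :
    aeval (fun v => c * w v) f = c ^ D * aeval w f := by
  conv_lhs => rw [f.as_sum]
  conv_rhs => rw [f.as_sum]
  simp only [map_sum, Finset.mul_sum, aeval_monomial]
  refine Finset.sum_congr rfl fun m hm => ?_
  rw [hf.degree_eq_sum_deg_support hm]
  simp only [Finsupp.prod, mul_pow, Finset.prod_mul_distrib, Finset.prod_pow_eq_pow_sum]
  ring

lemma evt {f : MvPolynomial σ Ω} {D : ℕ} (hf : f.IsHomogeneous D) (v : σ → R) :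
    aeval (fun s => Polynomial.X * Polynomial.C (v s)) f =
      Polynomial.X ^ D * Polynomial.C (aeval v f) := by
  rw [evh hf]
  congr 1
  exact (comp_aeval_apply v (Polynomial.CAlgHom (R := Ω) (A := R)) f).symm

lemma coef (v : σ → R) (f : MvPolynomial σ Ω) (j : ℕ) :
    (aeval (fun s => Polynomial.X * Polynomial.C (v s)) f).coeff j =
      aeval v (homogeneousComponent j f) := by
  induction f using MvPolynomial.induction_on' with
  | monomial m a =>
    have h := isHomogeneous_monomial (d := m) a rfl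
    rw [evt h, homogeneousComponent_of_mem h, mul_comm, Polynomial.coeff_C_mul_X_pow]
    split_ifs <;> simp
  | add f g hf hg => simp only [map_add, Polynomial.coeff_add, hf, hg]

lemma ce [DecidableEq σ] {f : MvPolynomial σ Ω} {D : ℕ} (hf : f.IsHomogeneous D) (v : σ) :
    aeval (Pi.single v 1 : σ → Ω) f = coeff (Finsupp.single v D) f := by
  conv_lhs => rw [f.as_sum]
  rw [map_sum, Finset.sum_eq_single (Finsupp.single v D)]
  · simp [aeval_monomial]
  · intro m hm hne
    have hd := hf.degree_eq_sum_deg_support hm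
    have : ∃ w ∈ m.support, w ≠ v := by
      by_contra! h
      apply hne
      have h1 : m = Finsupp.single v (m v) :=
        Finsupp.eq_single_iff.mpr ⟨fun w hw => Finset.mem_singleton.mpr (h w hw), rfl⟩
      have h2 : m.degree = D := hd.symm
      rw [h1, Finsupp.degree_single] at h2
      rw [h1, h2]
    obtain ⟨w, hw, hv⟩ := this
    rw [aeval_monomial, Finsupp.prod, Finset.prod_eq_zero hw, mul_zero]
    rw [Pi.single_eq_of_ne hv, zero_pow (Finsupp.mem_support_iff.mp hw)]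
  · intro h
    simp [notMem_support_iff.mp h]

lemma sc (c : σ → Ω) (f : MvPolynomial σ Ω) (m : σ →₀ ℕ) :
    coeff m (aeval (fun v => C (c v) * X v : σ → MvPolynomial σ Ω) f) =
      (m.prod fun v k => c v ^ k) * coeff m f := by
  classical
  induction f using MvPolynomial.induction_on' with
  | monomial n a =>
    have : aeval (fun v => C (c v) * X v : σ → MvPolynomial σ Ω) (monomial n a) =
        monomial n ((n.prod fun v k => c v ^ k) * a) := by
      rw [aeval_monomial, monomial_eq]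
      simp only [Finsupp.prod, mul_pow, Finset.prod_mul_distrib, map_mul, map_prod, map_pow,
        algebraMap_eq]
      ring
    rw [this, coeff_monomial, coeff_monomial]
    split_ifs with h
    · rw [h]
    · rw [mul_zero]
  | add f g hf hg => simp only [map_add, coeff_add, hf, hg, mul_add]

lemma hom (s : σ) (f : MvPolynomial σ Ω) (v : σ → R) (hv : v s = 1) :
    ∀ᶠ D in atTop, ∃ g : MvPolynomial σ Ω, g.IsHomogeneous D ∧ aeval v g = aeval v f := by
  filter_upwards [eventually_ge_atTop f.totalDegree] with D hD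
  refine ⟨∑ i ∈ Finset.range (f.totalDegree + 1), X s ^ (D - i) * homogeneousComponent i f,
    IsHomogeneous.sum _ _ _ fun i hi => ?_, ?_⟩
  · have := (isHomogeneous_X_pow (R := Ω) s (D - i)).mul (homogeneousComponent_isHomogeneous i f)
    rwa [Nat.sub_add_cancel (by have := Finset.mem_range.mp hi; omega)] at this
  · conv_rhs => rw [← sum_homogeneousComponent f]
    simp [hv]

lemma oel [Algebra (MvPolynomial σ Ω) R] (X' : σ → R)
    (h : ∀ g, algebraMap (MvPolynomial σ Ω) R g = aeval X' g) (z : R)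
    (f : MvPolynomial (Option σ) Ω) :
    aeval (fun o : Option σ => o.elim z X') f = Polynomial.aeval z (optionEquivLeft Ω σ f) := by
  induction f using MvPolynomial.induction_on with
  | C a => simp [optionEquivLeft_C, h]
  | add f g hf hg => simp only [map_add, hf, hg]
  | mul_X f o hf =>
    cases o <;> simp [hf, optionEquivLeft_X_none, optionEquivLeft_X_some, h]

end

section
variable {Ω 𝒦 : Type} [Field Ω] [Field 𝒦] [Algebra Ω 𝒦]

lemma mono (v : Fin 2 → 𝒦) (z : 𝒦)
    (hi : Function.Injective (aeval (R := Ω) fun k => Polynomial.X * Polynomial.C (v k)))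
    (hz : (aeval (R := Ω) fun k => Polynomial.X * Polynomial.C (v k)).toRingHom.IsIntegralElem
      (Polynomial.X * Polynomial.C z)) :
    ∃ (N : ℕ) (H : MvPolynomial (Option (Fin 2)) Ω), 0 < N ∧ H.IsHomogeneous N ∧
      coeff (Finsupp.single none N) H = 1 ∧ ∀ f : MvPolynomial (Option (Fin 2)) Ω,
        aeval (fun o : Option (Fin 2) => Polynomial.X * Polynomial.C (o.elim z v)) f = 0 ↔
          H ∣ f := by
  let := (aeval (R := Ω) fun k => Polynomial.X * Polynomial.C (v k)).toRingHom.toAlgebra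
  have : FaithfulSMul (MvPolynomial (Fin 2) Ω) (Polynomial 𝒦) :=
    (faithfulSMul_iff_algebraMap_injective _ _).mpr hi
  have hz' : IsIntegral (MvPolynomial (Fin 2) Ω) (Polynomial.X * Polynomial.C z) := hz
  set P := minpoly (MvPolynomial (Fin 2) Ω) (Polynomial.X * Polynomial.C z) with hP
  have hm : P.Monic := minpoly.monic hz'
  have key : ∀ f : MvPolynomial (Option (Fin 2)) Ω,
      aeval (fun o : Option (Fin 2) => Polynomial.X * Polynomial.C (o.elim z v)) f = 0 ↔
        P ∣ optionEquivLeft Ω (Fin 2) f := by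
    intro f
    rw [← minpoly.isIntegrallyClosed_dvd_iff hz',
      ← oel (fun k => Polynomial.X * Polynomial.C (v k)) (fun _ => rfl)]
    congr! 3
    funext o
    cases o <;> rfl
  set H := (optionEquivLeft Ω (Fin 2)).symm P with hH
  have hHP : optionEquivLeft Ω (Fin 2) H = P := AlgEquiv.apply_symm_apply _ _
  have hc : ∀ j d, coeff (Finsupp.optionElim j d) H = coeff d (P.coeff j) := fun j d => by
    rw [← optionEquivLeft_coeff_coeff, hHP]
  set G := homogeneousComponent P.natDegree H with hG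
  have hGh : G.IsHomogeneous P.natDegree := homogeneousComponent_isHomogeneous _ _
  have h0 := (key H).mpr (by rw [hHP])
  have h1 : P ∣ optionEquivLeft Ω (Fin 2) G := by
    rw [← key, evt hGh, hG, ← coef, h0]
    simp
  have h2 : (optionEquivLeft Ω (Fin 2) G).natDegree ≤ P.natDegree := by
    rw [natDegree_optionEquivLeft]
    exact (degreeOf_le_totalDegree _ _).trans hGh.totalDegree_le
  have e0 : Finsupp.optionElim P.natDegree (0 : Fin 2 →₀ ℕ) =
      Finsupp.single none P.natDegree := by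
    ext o
    cases o <;> simp
  have h3 : (optionEquivLeft Ω (Fin 2) G).Monic := by
    refine Polynomial.monic_of_natDegree_le_of_coeff_eq_one _ h2 ?_
    ext d
    rw [optionEquivLeft_coeff_coeff, hG, coeff_homogeneousComponent, hc, hm.coeff_natDegree]
    split_ifs with h
    · rfl
    · rw [coeff_one, if_neg]
      rintro rfl
      exact h (by rw [e0, Finsupp.degree_single])
  have h4 : G = H := (optionEquivLeft Ω (Fin 2)).injective
    ((Polynomial.eq_of_monic_of_dvd_of_natDegree_le hm h3 h1 h2).trans hHP.symm)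
  refine ⟨P.natDegree, H, minpoly.natDegree_pos hz', h4 ▸ hGh, ?_, fun f => ?_⟩
  · rw [← e0, hc, hm.coeff_natDegree, coeff_zero_one]
  · rw [key, ← hHP]
    exact map_dvd_iff (optionEquivLeft Ω (Fin 2))

lemma intg [IsAlgClosed Ω] {r u : ℕ} (J : Fin u → MvPolynomial (CV r) Ω)
    (h1 : ∀ w : CV r → Ω, (∀ j, aeval w (J j) = 0) → (∀ k, w (.inl k) = 0) → w = 0)
    (v : CV r → 𝒦) (h0 : v (.inl 1) ≠ 0)
    (hv : ∀ j, aeval (fun s => Polynomial.X * Polynomial.C (v s)) (J j) = 0) (s : CV r) :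
    (aeval (R := Ω) fun k => Polynomial.X * Polynomial.C (v (.inl k))).toRingHom.IsIntegralElem
      (Polynomial.X * Polynomial.C (v s)) := by
  let := (aeval (R := Ω) fun k => Polynomial.X * Polynomial.C (v (.inl k))).toRingHom.toAlgebra
  set ev := aeval (R := Ω) fun s => Polynomial.X * Polynomial.C (v s) with hev
  set I : Ideal (MvPolynomial (CV r) Ω) :=
    Ideal.span {X (.inl 0), X (.inl 1)} ⊔ Ideal.span (Set.range J) with hI
  have hr : idealOfVars (CV r) Ω ≤ I.radical := by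
    rw [← vanishingIdeal_zeroLocus_eq_radical (K := Ω)]
    refine Ideal.span_le.mpr ?_
    rintro _ ⟨t, rfl⟩ w hw
    have := h1 w (fun j => hw _ (Ideal.mem_sup_right (Ideal.subset_span ⟨j, rfl⟩))) (fun k => by
      have := hw (X (.inl k)) (Ideal.mem_sup_left (Ideal.subset_span (by fin_cases k <;> simp)))
      simpa using this)
    simp [this]
  obtain ⟨D, hD⟩ := Ideal.exists_pow_le_of_le_radical_of_fg hr (idealOfVars_fg _ _)
  obtain ⟨S, hS⟩ := homogeneousSubmodule_fg (CV r) Ω D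
  set N : Submodule (MvPolynomial (Fin 2) Ω) (Polynomial 𝒦) := Submodule.span _ (ev '' S) with hN
  have hm : ∀ f : MvPolynomial (CV r) Ω, f.IsHomogeneous D → ev f ∈ N := by
    intro f hf
    rw [← mem_homogeneousSubmodule, ← hS] at hf
    induction hf using Submodule.span_induction with
    | mem g hg => exact Submodule.subset_span ⟨g, hg, rfl⟩
    | zero => simp
    | add f g _ _ hf hg => rw [map_add]; exact N.add_mem hf hg
    | smul a g _ hg =>
      have := N.smul_mem (C a) hg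
      rw [Algebra.smul_def] at this
      rw [map_smul, Algebra.smul_def]
      convert this using 2
      exact (aeval_C _ a).symm
  have hX : ∀ k, ∀ n ∈ N, ev (X (.inl k)) * n ∈ N := fun k n hn => by
    have := N.smul_mem (X k) hn
    rw [Algebra.smul_def] at this
    convert this using 2
    exact (aeval_X _ _).trans (aeval_X (fun k => Polynomial.X * Polynomial.C (v (.inl k))) k).symm
  refine isIntegral_of_smul_mem_submodule N (fun hb => ?_)
    (Submodule.fg_span (S.finite_toSet.image _)) _ fun n hn => ?_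
  · have := hm _ (isHomogeneous_X_pow (.inl 1) D)
    rw [hb, Submodule.mem_bot] at this
    simp [hev, h0] at this
  · induction hn using Submodule.span_induction with
    | mem g hg =>
      obtain ⟨f, hf, rfl⟩ := hg
      have hf' : f.IsHomogeneous D := by
        rw [← mem_homogeneousSubmodule, ← hS]; exact Submodule.subset_span hf
      have hh : (f * X s).IsHomogeneous (D + 1) := hf'.mul (isHomogeneous_X _ _)
      have hi : f * X s ∈ I := hD ((mem_pow_idealOfVars_iff' _ _).mpr fun x hx =>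
        hh.coeff_eq_zero (by omega))
      obtain ⟨a, ha, b, hb, hab⟩ := Submodule.mem_sup.mp hi
      obtain ⟨f0, f1, rfl⟩ := Ideal.mem_span_pair.mp ha
      have hb0 : ev b = 0 := by
        have : Ideal.span (Set.range J) ≤ RingHom.ker ev :=
          Ideal.span_le.mpr (by rintro _ ⟨j, rfl⟩; exact hv j)
        exact this hb
      have e1 := congrArg (fun g => (ev g).coeff (D + 1)) hab
      simp only [map_add, hb0, add_zero, Polynomial.coeff_add] at e1
      have e2 : ∀ g k, (ev (g * X (.inl k))).coeff (D + 1) =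
          v (.inl k) * aeval v (homogeneousComponent D g) := fun g k => by
        rw [map_mul, hev, aeval_X, mul_comm, mul_assoc, Polynomial.coeff_X_mul,
          Polynomial.coeff_C_mul, coef]
      rw [e2, e2, hev, coef, homogeneousComponent_eq_self hh] at e1
      have e3 : (Polynomial.X * Polynomial.C (v s)) • ev f =
          ev (X (.inl 0)) * ev (homogeneousComponent D f0) +
            ev (X (.inl 1)) * ev (homogeneousComponent D f1) := by
        have e4 : (Polynomial.X * Polynomial.C (v s)) • ev f = ev (f * X s) := by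
          rw [map_mul, hev, aeval_X, smul_eq_mul, mul_comm]
        rw [e4, hev, evt hh, ← e1, evt (homogeneousComponent_isHomogeneous D f0),
          evt (homogeneousComponent_isHomogeneous D f1), aeval_X, aeval_X]
        simp only [map_add, map_mul]
        ring
      rw [e3]
      exact N.add_mem (hX 0 _ (hm _ (homogeneousComponent_isHomogeneous _ _)))
        (hX 1 _ (hm _ (homogeneousComponent_isHomogeneous _ _)))
    | zero => simp
    | add f g _ _ hf hg => rw [smul_add]; exact N.add_mem hf hg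
    | smul a g _ hg =>
      have := N.smul_mem a hg
      rw [Algebra.smul_def, smul_eq_mul] at this
      rw [Algebra.smul_def a, smul_eq_mul, mul_left_comm]
      exact this

end

end Pool.Agent.MP_855f4c_ag.Cu.Cd

namespace Pool.Agent.MP_855f4c_ag.Cu.Cd

lemma ae {σ Ω R S : Type} [CommRing Ω] [CommRing R] [CommRing S] [Algebra Ω R] [Algebra Ω S]
    (ψ : R →+* S) (h : ∀ a, ψ (algebraMap Ω R a) = algebraMap Ω S a) (s : σ → R)
    (f : MvPolynomial σ Ω) : ψ (aeval s f) = aeval (fun v => ψ (s v)) f :=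
  comp_aeval_apply s (⟨ψ, h⟩ : R →ₐ[Ω] S) f

section
variable {Ω 𝒦 : Type} [Field Ω] [Field 𝒦] [Algebra Ω 𝒦] [Algebra (RatFunc Ω) 𝒦]
  [IsScalarTower Ω (RatFunc Ω) 𝒦]

lemma px (q : Polynomial Ω) : Polynomial.aeval (algebraMap (RatFunc Ω) 𝒦 RatFunc.X) q =
    algebraMap (RatFunc Ω) 𝒦 (algebraMap (Polynomial Ω) (RatFunc Ω) q) := by
  rw [Polynomial.aeval_algebraMap_apply, RatFunc.aeval_X_left_eq_algebraMap]

attribute [local instance] algebraMvPolynomial in
lemma gpt [IsAlgClosed 𝒦] {r u : ℕ} (J : Fin u → MvPolynomial (CV r) Ω)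
    (h2 : Set.Infinite {x | ∃ w : CV r → Ω, (∀ j, aeval w (J j) = 0) ∧ w (.inl 0) = 1 ∧
      w (.inl 1) = x}) : ∃ ξ : Fin r → 𝒦, ∀ j,
      aeval (Sum.elim ![1, algebraMap (RatFunc Ω) 𝒦 RatFunc.X] ξ) (J j) = 0 := by
  by_contra! hn
  let s : CV r → MvPolynomial (Fin r) (Polynomial Ω) := Sum.elim ![1, C Polynomial.X] X
  set I : Ideal (MvPolynomial (Fin r) (Polynomial Ω)) :=
    Ideal.span (Set.range fun j => aeval s (J j)) with hI
  have h1 : (1 : MvPolynomial (Fin r) (RatFunc Ω)) ∈ I.map (algebraMap _ _) := by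
    have : (1 : MvPolynomial (Fin r) (RatFunc Ω)) ∈
        vanishingIdeal (RatFunc Ω) (zeroLocus 𝒦 (I.map (algebraMap _ _))) := fun ξ hξ => by
      obtain ⟨j, hj⟩ := hn ξ
      refine absurd ?_ hj
      have := hξ _ (Ideal.mem_map_of_mem _ (Ideal.subset_span ⟨j, rfl⟩))
      change aeval ξ (map (algebraMap (Polynomial Ω) (RatFunc Ω)) (aeval s (J j))) = 0 at this
      rw [aeval_def, eval₂_map, ← coe_eval₂Hom, ae _ (fun a => by
        simp [IsScalarTower.algebraMap_apply Ω (RatFunc Ω) 𝒦])] at this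
      rw [← this]
      congr 2
      funext v
      rcases v with k | i
      · fin_cases k <;> simp [s]
      · simp [s]
    rw [vanishingIdeal_zeroLocus_eq_radical] at this
    obtain ⟨n, hn⟩ := this
    rwa [one_pow] at hn
  obtain ⟨⟨a, b⟩, hab⟩ := (IsLocalization.mem_map_algebraMap_iff
    ((nonZeroDivisors (Polynomial Ω)).map (C (σ := Fin r))) _).mp h1
  obtain ⟨_, q, hq, rfl⟩ := b
  rw [one_mul] at hab
  have e : C q = a.1 := map_injective _ (IsFractionRing.injective (Polynomial Ω) (RatFunc Ω)) hab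
  refine nonZeroDivisors.ne_zero hq (Polynomial.eq_zero_of_infinite_isRoot _ (h2.mono ?_))
  rintro x ⟨w, hw, h0, h1⟩
  have : I ≤ RingHom.ker (eval₂Hom (Polynomial.evalRingHom x) fun i => w (.inr i)) := by
    refine Ideal.span_le.mpr ?_
    rintro _ ⟨j, rfl⟩
    rw [SetLike.mem_coe, RingHom.mem_ker, ae _ (fun a => by simp), ← hw j]
    congr 2
    funext v
    rcases v with k | i
    · fin_cases k <;> simp [s, h0, h1]
    · simp [s]
  simpa [← e] using this a.2

lemma prim [CharZero Ω] [IsAlgClosed 𝒦] [Algebra.IsAlgebraic (RatFunc Ω) 𝒦] {r : ℕ}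
    (ξ : Fin r → 𝒦) : ∃ t : Ω, ∀ i, ∃ q : Polynomial (RatFunc Ω),
      Polynomial.aeval (∑ i : Fin r, algebraMap Ω 𝒦 t ^ (i : ℕ) * ξ i) q = ξ i := by
  classical
  set L := IntermediateField.adjoin (RatFunc Ω) (Set.range ξ) with hL
  have : FiniteDimensional (RatFunc Ω) L := IntermediateField.finiteDimensional_adjoin
    fun x _ => (Algebra.IsAlgebraic.isAlgebraic x).isIntegral
  let z : Fin r → L := fun i => ⟨ξ i, IntermediateField.subset_adjoin _ _ ⟨i, rfl⟩⟩
  let Q : (L →ₐ[RatFunc Ω] 𝒦) × (L →ₐ[RatFunc Ω] 𝒦) → Polynomial 𝒦 := fun a =>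
    ∑ i : Fin r, Polynomial.monomial (i : ℕ) (a.1 (z i) - a.2 (z i))
  have hQ : ∀ a, Q a = 0 → a.1 = a.2 := fun a ha => by
    refine IntermediateField.adjoin_algHom_ext _ ?_
    rintro _ ⟨i, rfl⟩
    have := congrArg (fun P => P.coeff i) ha
    simp only [Q, Polynomial.finsetSum_coeff, Polynomial.coeff_monomial, Fin.val_inj,
      Finset.sum_ite_eq', Finset.mem_univ, if_true, Polynomial.coeff_zero] at this
    exact sub_eq_zero.mp this
  have hf : Set.Finite (⋃ a, {t : Ω | Q a ≠ 0 ∧ (Q a).IsRoot (algebraMap Ω 𝒦 t)}) := by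
    refine Set.finite_iUnion fun a => ?_
    by_cases h : Q a = 0
    · simp [h]
    · exact ((Polynomial.finite_setOfPred_isRoot h).preimage
        (algebraMap Ω 𝒦).injective.injOn).subset fun t ht => ht.2
  obtain ⟨t, ht⟩ := hf.exists_notMem
  let Y : L := ∑ i : Fin r, algebraMap (RatFunc Ω) L (algebraMap Ω _ t) ^ (i : ℕ) * z i
  have hY : ∀ φ : L →ₐ[RatFunc Ω] 𝒦,
      φ Y = ∑ i : Fin r, algebraMap Ω 𝒦 t ^ (i : ℕ) * φ (z i) := fun φ => by
    simp only [Y, map_sum, map_mul, map_pow, AlgHom.commutes,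
      IsScalarTower.algebraMap_apply Ω (RatFunc Ω) 𝒦]
  have hp : IntermediateField.adjoin (RatFunc Ω) {Y} = ⊤ := by
    rw [Field.primitive_element_iff_algHom_eq_of_eval' (RatFunc Ω) 𝒦
      fun _ => IsAlgClosed.splits _]
    intro φ ψ h
    refine hQ (φ, ψ) ?_
    by_contra h0
    refine ht (Set.mem_iUnion.mpr ⟨(φ, ψ), h0, ?_⟩)
    simp only [hY] at h
    simp only [Q, Polynomial.IsRoot.def, Polynomial.eval_finsetSum, Polynomial.eval_monomial,
      mul_comm (_ : 𝒦) (algebraMap Ω 𝒦 t ^ _), mul_sub, Finset.sum_sub_distrib, h, sub_self]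
  refine ⟨t, fun i => ?_⟩
  have h1 : z i ∈ Algebra.adjoin (RatFunc Ω) {Y} := by
    rw [← IntermediateField.adjoin_simple_toSubalgebra_of_isAlgebraic
      (Algebra.IsAlgebraic.isAlgebraic Y), hp]
    trivial
  obtain ⟨q, hq⟩ := Algebra.adjoin_mem_exists_aeval _ _ h1
  refine ⟨q, ?_⟩
  have := congrArg L.val hq
  rwa [← Polynomial.aeval_algHom_apply, hY] at this

lemma den (Y : 𝒦) (q : Polynomial (RatFunc Ω)) : ∃ (d : MvPolynomial (Fin 2) Ω)
    (A : MvPolynomial (Option (Fin 2)) Ω),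
    aeval ![1, algebraMap (RatFunc Ω) 𝒦 RatFunc.X] d ≠ 0 ∧
      aeval (pt3 (algebraMap (RatFunc Ω) 𝒦 RatFunc.X) Y) A =
        aeval ![1, algebraMap (RatFunc Ω) 𝒦 RatFunc.X] d * Polynomial.aeval Y q := by
  induction q using Polynomial.induction_on' with
  | add f g hf hg =>
    obtain ⟨d, A, h, e⟩ := hf
    obtain ⟨d', A', h', e'⟩ := hg
    refine ⟨d * d', A * rename some d' + A' * rename some d, by rw [map_mul]; exact mul_ne_zero h h',
      ?_⟩
    simp only [map_add, map_mul, e, e', aeval_rename]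
    rw [show pt3 (algebraMap (RatFunc Ω) 𝒦 RatFunc.X) Y ∘ some =
      ![1, algebraMap (RatFunc Ω) 𝒦 RatFunc.X] from rfl]
    ring
  | monomial n a =>
    refine ⟨Polynomial.aeval (X 1) a.denom, Polynomial.aeval (X (some 1)) a.num * X none ^ n, ?_, ?_⟩
    · rw [← Polynomial.aeval_algHom_apply, aeval_X]
      simp [px, a.denom_ne_zero]
    · rw [map_mul, ← Polynomial.aeval_algHom_apply, ← Polynomial.aeval_algHom_apply, aeval_X,
        aeval_X, map_pow, aeval_X, Polynomial.aeval_monomial, ← mul_assoc]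
      simp only [pt3, Option.elim, Matrix.cons_val_one, Matrix.cons_val_zero, px, ← map_mul]
      congr 2
      rw [mul_comm, ← div_eq_iff (RatFunc.algebraMap_ne_zero a.denom_ne_zero), a.num_div_denom]

omit [Algebra (RatFunc Ω) 𝒦] [IsScalarTower Ω (RatFunc Ω) 𝒦] in
lemma inj [Infinite Ω] (x : 𝒦) (hx : Function.Injective (Polynomial.aeval (R := Ω) x))
    (P : Fin 2 → Polynomial Ω) (l : MvPolynomial (Fin 2) Ω) (hl : l ≠ 0)
    (h : ∀ y : Fin 2 → Ω, eval y l ≠ 0 → ∃ s t, ∀ k, t * (P k).eval s = y k) :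
    Function.Injective (aeval (R := Ω) fun k =>
      Polynomial.X * Polynomial.C (Polynomial.aeval x (P k))) := by
  rw [injective_iff_map_eq_zero]
  intro f hf
  have h1 : aeval (fun k => Polynomial.X * Polynomial.C (P k)) f = 0 := by
    apply Polynomial.map_injective (Polynomial.aeval (R := Ω) x).toRingHom hx
    rw [← Polynomial.coe_mapRingHom, ae _ (fun a => by simp), map_zero, ← hf]
    simp
  refine (mul_eq_zero.mp (MvPolynomial.funext fun y => ?_ : l * f = 0)).resolve_left hl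
  by_cases hy : eval y l = 0
  · simp [hy]
  · obtain ⟨s, t, e⟩ := h y hy
    have := congrArg (Polynomial.eval₂RingHom (Polynomial.evalRingHom s) t) h1
    rw [ae _ (fun a => by simp), map_zero] at this
    simp only [map_mul, Polynomial.coe_eval₂RingHom, Polynomial.eval₂_X, Polynomial.eval₂_C,
      Polynomial.coe_evalRingHom, e] at this
    rw [aeval_eq_eval] at this
    rw [map_mul, this]
    simp

end

lemma dt {Ω : Type} (𝒦 : Type) [Field Ω] [IsAlgClosed Ω] [CharZero Ω] [Field 𝒦] [Algebra Ω 𝒦]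
    [Algebra (RatFunc Ω) 𝒦] [IsScalarTower Ω (RatFunc Ω) 𝒦] [IsAlgClosed 𝒦]
    [Algebra.IsAlgebraic (RatFunc Ω) 𝒦] {r u : ℕ}
    (J : Fin u → MvPolynomial (CV r) Ω) (dJ : Fin u → ℕ) (hJ : ∀ j, (J j).IsHomogeneous (dJ j))
    (h1 : ∀ w : CV r → Ω, (∀ j, aeval w (J j) = 0) → (∀ k, w (.inl k) = 0) → w = 0)
    (h2 : Set.Infinite {x | ∃ w : CV r → Ω, (∀ j, aeval w (J j) = 0) ∧ w (.inl 0) = 1 ∧
      w (.inl 1) = x}) : ∃ (δ : ℕ) (d : MvPolynomial (Fin 2) Ω), 0 < δ ∧ d.IsHomogeneous δ ∧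
      d ≠ 0 ∧ ∀ α a b c : Ω, α ≠ 0 → b ≠ 0 → ∀ θ : Fin 2 → MvPolynomial (Fin 2) Ω,
      θ = ![C α * X 0 + C a * X 1, C b * X 1] →
      ∃ (H : MvPolynomial (Option (Fin 2)) Ω) (N : ℕ)
        (A μ : Fin r → MvPolynomial (Option (Fin 2)) Ω) (m : Fin r → ℕ),
        0 < N ∧ H.IsHomogeneous N ∧ coeff (Finsupp.single none N) H = 1 ∧
        (∀ i, (A i).IsHomogeneous (δ + 1)) ∧ (∀ i, 0 < m i) ∧ (∀ i, (μ i).IsHomogeneous (m i)) ∧
        (∀ i, coeff (Finsupp.single none (m i)) (μ i) = 1) ∧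
        (∀ i, H ∣ aeval (fun o : Option (Fin 2) =>
          o.elim (A i) fun k => rename some (C c * aeval θ d) * X (some k)) (μ i)) ∧
        ∀ j, H ∣ aeval (Sum.elim (fun k => rename some (C c * aeval θ d) * X (some k)) A)
          (aeval (Sum.elim (fun k => rename .inl (θ k)) fun i => X (.inr i) :
            CV r → MvPolynomial (CV r) Ω) (J j)) := by
  classical
  obtain ⟨ξ, hξ⟩ := gpt (𝒦 := 𝒦) J h2
  obtain ⟨t, ht⟩ := prim (Ω := Ω) ξ
  have hx : Function.Injective (Polynomial.aeval (R := Ω)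
      (algebraMap (RatFunc Ω) 𝒦 RatFunc.X)) := fun f g h => by
    rw [px, px] at h
    exact IsFractionRing.injective _ _ ((algebraMap (RatFunc Ω) _).injective h)
  choose q hq using ht
  choose d₀ A₀ hd₀ hA₀ using fun i => den (Ω := Ω) (∑ i : Fin r, algebraMap Ω _ t ^ (i : ℕ) * ξ i)
    (q i)
  simp only [hq] at hA₀
  generalize algebraMap (RatFunc Ω) 𝒦 RatFunc.X = x at *
  set Y := ∑ i : Fin r, algebraMap Ω _ t ^ (i : ℕ) * ξ i with hY
  obtain ⟨δ, hδ, ⟨d, hd, ed⟩, hA⟩ := ((eventually_gt_atTop 0).and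
    ((hom 0 (∏ i, d₀ i) ![1, x] rfl).and (eventually_all.mpr fun i =>
      (tendsto_add_atTop_nat 1).eventually (hom (some 0)
        (A₀ i * rename some (∏ j ∈ Finset.univ.erase i, d₀ j)) (pt3 x Y) rfl)))).exists
  choose A hA eA using hA
  have ed0 : aeval ![1, x] d ≠ 0 := by
    rw [ed, map_prod]
    exact Finset.prod_ne_zero_iff.mpr fun i _ => hd₀ i
  have eA' : ∀ i, aeval (pt3 x Y) (A i) = aeval ![1, x] d * ξ i := fun i => by
    rw [eA, map_mul, hA₀, aeval_rename, ed, ← Finset.mul_prod_erase _ _ (Finset.mem_univ i),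
      map_mul, show pt3 x Y ∘ some = ![1, x] from rfl]
    ring
  refine ⟨δ, d, hδ, hd, fun h => ed0 (by simp [h]), fun α a b c hα hb θ hθ => ?_⟩
  have θh : ∀ k, (θ k).IsHomogeneous 1 := fun k => by
    subst hθ
    fin_cases k
    · exact (isHomogeneous_C_mul_X _ _).add (isHomogeneous_C_mul_X _ _)
    · exact isHomogeneous_C_mul_X _ _
  let P : Fin 2 → Polynomial Ω := ![Polynomial.C α⁻¹ * (1 - Polynomial.C (a * b⁻¹) * Polynomial.X),
    Polynomial.C b⁻¹ * Polynomial.X]
  let v : Fin 2 → _ := fun k => Polynomial.aeval x (P k)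
  have hα' := (map_ne_zero (algebraMap Ω 𝒦)).mpr hα
  have hb' := (map_ne_zero (algebraMap Ω 𝒦)).mpr hb
  have hv : ∀ k, aeval v (θ k) = ![1, x] k := fun k => by
    subst hθ
    fin_cases k <;> simp [v, P] <;> (field_simp; try ring)
  have hi := inj x hx P (θ 0) (fun h => by simpa [h] using hv 0) fun y hy => by
    refine ⟨b * y 1 / eval y (θ 0), eval y (θ 0), fun k => ?_⟩
    subst hθ
    fin_cases k <;> simp [P] at hy ⊢ <;> (field_simp; try ring)
  set γ : CV r → MvPolynomial (CV r) Ω :=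
    Sum.elim (fun k => rename .inl (θ k)) fun i => X (.inr i) with hγ
  have γh : ∀ s, (γ s).IsHomogeneous 1 := by
    rintro (k | i)
    exacts [(θh k).rename_isHomogeneous, isHomogeneous_X _ _]
  have Jh : ∀ j, (aeval γ (J j)).IsHomogeneous (dJ j) := fun j => by
    simpa using (hJ j).aeval γ γh
  have hw : ∀ j, aeval (fun s => Polynomial.X * Polynomial.C (Sum.elim v ξ s))
      (aeval γ (J j)) = 0 := fun j => by
    have : aeval (Sum.elim v ξ) (aeval γ (J j)) = 0 := by
      rw [comp_aeval_apply, ← hξ j]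
      congr 2
      funext s
      rcases s with k | i
      · exact (aeval_rename _ _ _).trans (hv k)
      · simp [hγ]
    rw [evt (Jh j), this]
    simp
  have hI := intg (fun j => aeval γ (J j)) (fun w hw h0 => by
    have := h1 (fun s => aeval w (γ s)) (fun j => by rw [← comp_aeval_apply]; exact hw j)
      fun k => by
        subst hθ
        fin_cases k <;> simp [hγ, h0]
    funext s
    rcases s with k | i
    · exact h0 k
    · simpa [hγ] using congrFun this (.inr i)) (Sum.elim v ξ) (fun h => by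
      have h0 : P 1 = 0 := hx (h.trans (map_zero _).symm)
      simp [P, hb] at h0) hw
  obtain ⟨N, H, hN, hH, hH1, hHd⟩ := mono v Y hi (by
    let := (aeval (R := Ω) fun k => Polynomial.X * Polynomial.C (v k)).toRingHom.toAlgebra
    change IsIntegral (MvPolynomial (Fin 2) Ω) _
    rw [hY, map_sum, Finset.mul_sum]
    refine IsIntegral.sum _ fun i _ => ?_
    rw [map_mul, mul_left_comm]
    refine IsIntegral.mul ?_ (hI (.inr i))
    have e : algebraMap (MvPolynomial (Fin 2) Ω) (Polynomial 𝒦) (C (t ^ (i : ℕ))) =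
        Polynomial.C (algebraMap Ω 𝒦 t ^ (i : ℕ)) :=
      (aeval_C (fun k => Polynomial.X * Polynomial.C (v k)) _).trans
        (by rw [Polynomial.algebraMap_apply, map_pow])
    exact e ▸ isIntegral_algebraMap)
  choose m μ hm hμ hμ1 hμd using fun i => mono v (ξ i) hi (hI (.inr i))
  let φ : Option (Fin 2) → MvPolynomial (Option (Fin 2)) Ω :=
    fun o => o.elim (X none) fun k => rename some (θ k)
  have φh : ∀ o, (φ o).IsHomogeneous 1 := by
    rintro (_ | k)
    exacts [isHomogeneous_X _ _, (θh k).rename_isHomogeneous]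
  have Ah : ∀ i, (C c * aeval φ (A i)).IsHomogeneous (δ + 1) := fun i => by
    simpa using ((hA i).aeval φ φh).C_mul c
  have dh : (C c * aeval θ d).IsHomogeneous δ := by simpa using (hd.aeval θ θh).C_mul c
  set ev := aeval (R := Ω) fun o : Option (Fin 2) => Polynomial.X * Polynomial.C (o.elim Y v)
    with hev
  have e1 : ∀ i, ev (C c * aeval φ (A i)) =
      ev (rename some (C c * aeval θ d)) * (Polynomial.X * Polynomial.C (ξ i)) := fun i => by
    have a1 : aeval (fun o : Option (Fin 2) => o.elim Y v) (aeval φ (A i)) =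
        aeval (pt3 x Y) (A i) := by
      rw [comp_aeval_apply]
      congr 2
      funext o
      rcases o with _ | k
      · simp [φ, pt3]
      · exact (aeval_rename _ _ _).trans (hv k)
    have a2 : aeval ((fun o : Option (Fin 2) => o.elim Y v) ∘ some) (aeval θ d) =
        aeval ![1, x] d := by
      rw [comp_aeval_apply]
      congr 2
      exact funext hv
    rw [hev, evt (Ah i), evt dh.rename_isHomogeneous, aeval_rename, map_mul, map_mul, map_mul,
      map_mul, a1, a2, eA', map_mul, aeval_C, aeval_C]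
    ring
  refine ⟨H, N, fun i => C c * aeval φ (A i), μ, m, hN, hH, hH1, Ah, hm, hμ, hμ1, fun i => ?_,
    fun j => ?_⟩
  · rw [← hHd, comp_aeval_apply, ← mul_zero (ev (rename some (C c * aeval θ d)) ^ m i),
      ← (hμd i _).mpr dvd_rfl, ← evh (hμ i)]
    congr 2
    funext o
    rcases o with _ | k
    · exact e1 i
    · simp [hev]
  · rw [← hHd, comp_aeval_apply, ← mul_zero (ev (rename some (C c * aeval θ d)) ^ dJ j),
      ← hw j, ← evh (Jh j)]
    congr 2
    funext s
    rcases s with k | i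
    · simp [hev]
    · exact e1 i

end Pool.Agent.MP_855f4c_ag.Cu.Cd

namespace Pool.Agent.MP_855f4c_ag.Cu.Cd

section
variable (p : ℕ) [Fact p.Prime] {σ : Type}

lemma plt : ‖(p : PadicAlgCl p)‖ < 1 := by
  rw [← map_natCast (algebraMap ℚ_[p] _)]
  exact (PadicAlgCl.norm_extends p _).trans_lt Padic.norm_p_lt_one

lemma big (f : MvPolynomial σ (PadicAlgCl p)) :
    ∀ᶠ j in atTop, ∀ n ≥ j, In1 (C ((p : PadicAlgCl p) ^ n) * f) := by
  refine eventually_forall_ge_atTop.mpr ?_
  filter_upwards [(eventually_all_finset f.support).2 fun m _ =>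
    ((tendsto_pow_atTop_nhds_zero_of_lt_one (norm_nonneg _) (plt p)).mul_const
      ‖coeff m f‖).eventually_le_const (by simp : (0 : ℝ) * _ < 1)] with j hj m
  rw [coeff_C_mul, norm_mul, norm_pow]
  by_cases h : m ∈ f.support
  · exact hj m h
  · simp [notMem_support_iff.mp h]

lemma mo {χ : MvPolynomial (Option (Fin 2)) (PadicAlgCl p)} {m j : ℕ} (hm : 0 < m)
    (h : χ.IsHomogeneous m) (h1 : coeff (Finsupp.single none m) χ = 1)
    (hj : ∀ n ≥ j, In1 (C ((p : PadicAlgCl p) ^ n) * χ))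
    (χ' : MvPolynomial (Option (Fin 2)) (PadicAlgCl p))
    (e : χ' = C ((p : PadicAlgCl p) ^ ((j + 1) * m)) * aeval (fun o : Option (Fin 2) =>
      C (o.elim ((p : PadicAlgCl p) ^ (j + 1))⁻¹ fun _ => 1) * X o :
        _ → MvPolynomial (Option (Fin 2)) (PadicAlgCl p)) χ) :
    Mo 1 m χ' ∧ ∀ b, ‖coeff b χ'‖ ≤ ‖(p : PadicAlgCl p)‖ ^ (m - b none) := by
  classical
  have hp0 : (p : PadicAlgCl p) ≠ 0 := Nat.cast_ne_zero.2 (Fact.out : p.Prime).ne_zero
  have hh : χ'.IsHomogeneous m := by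
    rw [e]
    exact (one_mul m ▸ h.aeval _ fun o => isHomogeneous_C_mul_X _ _).C_mul _
  have hc : ∀ b : Option (Fin 2) →₀ ℕ, b none ≤ m → coeff b χ' =
      (p : PadicAlgCl p) ^ ((j + 1) * (m - b none)) * coeff b χ := fun b hb => by
    obtain ⟨n, hn⟩ := Nat.exists_eq_add_of_le hb
    rw [e, coeff_C_mul, sc, Finsupp.prod_fintype _ _ (by simp), Fintype.prod_option, hn,
      Nat.add_sub_cancel_left]
    simp only [Option.elim, one_pow, Finset.prod_const_one, mul_one, mul_add, pow_add _ (_ * _),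
      pow_mul, inv_pow]
    field_simp
  refine ⟨⟨hm, ?_, ?_, (degreeOf_le_totalDegree _ _).trans hh.totalDegree_le⟩, fun b => ?_⟩
  · rw [one_mul, show (fun o : Option (Fin 2) => o.elim 1 fun _ => 1) =
      (1 : Option (Fin 2) → ℕ) from
      funext fun o => by cases o <;> rfl]
    exact hh
  · rw [hc _ (by simp), h1]
    simp
  · by_cases h0 : coeff b χ' = 0
    · rw [h0, norm_zero]
      positivity
    have hd : b.degree = m := (hh.degree_eq_sum_deg_support (mem_support_iff.mpr h0)).symm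
    have hb : b none ≤ m := hd ▸ Finsupp.le_degree _ _
    rw [hc b hb]
    rcases hb.eq_or_lt with hb | hb
    · have : b = Finsupp.single none m := by
        rw [Finsupp.degree_eq_sum, Fintype.sum_option, Fin.sum_univ_two] at hd
        ext o
        rcases o with _ | k
        · simp [hb]
        · fin_cases k <;> simp <;> omega
      rw [hb, this, h1]
      simp
    · have := hj (j * (m - b none)) (Nat.le_mul_of_pos_right j (by omega)) b
      rw [coeff_C_mul] at this
      rw [add_mul, one_mul, pow_add, mul_comm (_ ^ (j * _)), mul_assoc, norm_mul, norm_pow]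
      exact mul_le_of_le_one_right (by positivity) this

end

/-- Scaling to integral data. -/
theorem scl (p : ℕ) [Fact p.Prime] {r u : ℕ} (J : Fin u → MvPolynomial (CV r) (PadicAlgCl p))
    (dJ : Fin u → ℕ) (hJ : ∀ j, (J j).IsHomogeneous (dJ j))
    (d : MvPolynomial (Fin 2) (PadicAlgCl p)) (H : MvPolynomial (Option (Fin 2)) (PadicAlgCl p))
    (δ N : ℕ) (A μ : Fin r → MvPolynomial (Option (Fin 2)) (PadicAlgCl p)) (m : Fin r → ℕ)
    (hδ : 0 < δ) (hd : d.IsHomogeneous δ) (hd1 : coeff (Finsupp.single 1 δ) d = 1) (hdI : In1 d)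
    (hN : 0 < N) (hH : H.IsHomogeneous N) (hH1 : coeff (Finsupp.single none N) H = 1)
    (hA : ∀ i, (A i).IsHomogeneous (δ + 1)) (hm : ∀ i, 0 < m i)
    (hμ : ∀ i, (μ i).IsHomogeneous (m i))
    (hμ1 : ∀ i, coeff (Finsupp.single none (m i)) (μ i) = 1)
    (h1 : ∀ i, H ∣ aeval (fun o : Option (Fin 2) =>
      o.elim (A i) fun k => rename some d * X (some k)) (μ i))
    (h2 : ∀ j, H ∣ aeval (Sum.elim (fun k => rename some d * X (some k)) A) (J j)) :
    ∃ c k : ℕ, CD (fun j => C ((p : PadicAlgCl p) ^ k) * aeval (Sum.elim (fun k => X (.inl k))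
      fun i => C ((p : PadicAlgCl p) ^ c)⁻¹ * X (.inr i) :
        CV r → MvPolynomial (CV r) (PadicAlgCl p)) (J j)) dJ := by
  classical
  have hp0 : (p : PadicAlgCl p) ≠ 0 := Nat.cast_ne_zero.2 (Fact.out : p.Prime).ne_zero
  obtain ⟨a, ha⟩ := (big p H).exists
  set ψ := aeval (R := PadicAlgCl p) (fun o : Option (Fin 2) =>
    C (o.elim ((p : PadicAlgCl p) ^ (a + 1))⁻¹ fun _ => 1) * X o :
      _ → MvPolynomial (Option (Fin 2)) (PadicAlgCl p)) with hψ
  obtain ⟨m1, m2⟩ := mo p hN hH hH1 ha _ rfl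
  have hu : IsUnit (C ((p : PadicAlgCl p) ^ ((a + 1) * N)) :
      MvPolynomial (Option (Fin 2)) (PadicAlgCl p)) := (Ne.isUnit (pow_ne_zero _ hp0)).map C
  have hd' : ∀ k, ψ (rename some d * X (some k)) = rename some d * X (some k) := fun k => by
    rw [map_mul, hψ, aeval_rename, aeval_X, rename_eq_aeval]
    simp [Function.comp_def]
  have g1 : ∀ i, C ((p : PadicAlgCl p) ^ ((a + 1) * N)) * ψ H ∣ aeval (fun o : Option (Fin 2) =>
      o.elim (ψ (A i)) fun k => rename some d * X (some k)) (μ i) := fun i => by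
    rw [hu.mul_left_dvd]
    convert map_dvd ψ (h1 i) using 1
    rw [comp_aeval_apply]
    congr 2
    funext o
    rcases o with _ | k
    exacts [rfl, (hd' k).symm]
  have g2 : ∀ j, C ((p : PadicAlgCl p) ^ ((a + 1) * N)) * ψ H ∣ aeval (Sum.elim
      (fun k => rename some d * X (some k)) fun i => ψ (A i)) (J j) := fun j => by
    rw [hu.mul_left_dvd]
    convert map_dvd ψ (h2 j) using 1
    rw [comp_aeval_apply]
    congr 2
    funext o
    rcases o with k | i
    exacts [(hd' k).symm, rfl]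
  choose B hB using g1
  choose B' hB' using g2
  obtain ⟨c, hc⟩ := (eventually_all.mpr fun i => (big p (ψ (A i))).and
    ((big p (μ i)).and (big p (B i)))).exists
  set γ : CV r → MvPolynomial (CV r) (PadicAlgCl p) := Sum.elim (fun k => X (.inl k))
    fun i => C ((p : PadicAlgCl p) ^ (c + 1))⁻¹ * X (.inr i) with hγ
  obtain ⟨k, hk⟩ := (eventually_all.mpr fun j => (big p (aeval γ (J j))).and (big p (B' j))).exists
  have hcc : ∀ f : MvPolynomial (Option (Fin 2)) (PadicAlgCl p),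
      C ((p : PadicAlgCl p) ^ (c + 1))⁻¹ * (C ((p : PadicAlgCl p) ^ (c + 1)) * f) = f := fun f => by
    rw [← mul_assoc, ← map_mul, inv_mul_cancel₀ (pow_ne_zero _ hp0), map_one, one_mul]
  refine ⟨c + 1, k, rename some d, _, δ, N, fun i => C ((p : PadicAlgCl p) ^ (c + 1)) * ψ (A i), _,
    m, hδ, hd.rename_isHomogeneous, ?_, ?_, fun b => ?_, m1,
    fun b => (m2 b).trans (pow_le_one₀ (norm_nonneg _) (plt p).le), fun i => ⟨?_,
      (hc i).1 _ c.le_succ, (mo p (hm i) (hμ i) (hμ1 i) (hc i).2.1 _ rfl).1,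
      (mo p (hm i) (hμ i) (hμ1 i) (hc i).2.1 _ rfl).2, _,
      (hc i).2.2 ((c + 1) * m i) (c.le_succ.trans (Nat.le_mul_of_pos_right _ (hm i))), ?_⟩,
    fun j => ⟨?_, (hk j).1 k le_rfl, _, (hk j).2 k le_rfl, ?_⟩⟩
  · by_contra h
    obtain ⟨i, _, hi⟩ := mem_vars_rename _ _ (mem_vars_iff_degreeOf_ne_zero.mpr h)
    cases hi
  · rw [← Finsupp.mapDomain_single, coeff_rename_mapDomain some (Option.some_injective _), hd1]
  · by_cases h : coeff b (rename some d) = 0
    · simp [h]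
    · obtain ⟨n, rfl, -⟩ := coeff_rename_ne_zero _ _ _ h
      rw [coeff_rename_mapDomain some (Option.some_injective _)]
      exact hdI n
  · exact (one_mul (δ + 1) ▸ (hA i).aeval _ fun o => isHomogeneous_C_mul_X _ _).C_mul _
  · rw [map_mul, aeval_C, comp_aeval_apply, mul_left_comm, ← hB, algebraMap_eq]
    congr 3
    funext o
    rcases o with _ | k
    · rw [map_mul, aeval_C, aeval_X]
      exact hcc _
    · simp
  · refine (one_mul (dJ j) ▸ (hJ j).aeval γ ?_).C_mul _
    rintro (k | i)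
    exacts [isHomogeneous_X _ _, isHomogeneous_C_mul_X _ _]
  · rw [map_mul, aeval_C, comp_aeval_apply, mul_left_comm, ← hB', algebraMap_eq]
    congr 3
    funext o
    rcases o with k | i
    · simp
    · rw [Sum.elim_inr, map_mul, aeval_C, aeval_X]
      exact hcc _

end Pool.Agent.MP_855f4c_ag.Cu.Cd

namespace Pool.Agent.MP_855f4c_ag.Cu

open Cd

theorem cds : CD_s := by
  intro p _ K _ _ r u J dJ hJ h1 h2
  classical
  have hp0 : (p : PadicAlgCl p) ≠ 0 := Nat.cast_ne_zero.2 (Fact.out : p.Prime).ne_zero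
  have hp1 := plt p
  obtain ⟨δ, d, hδ, hd, hd0, hD⟩ := dt (AlgebraicClosure (RatFunc (PadicAlgCl p)))
    (fun j => map (algebraMap K (PadicAlgCl p)) (J j)) dJ (fun j => (hJ j).map _)
    (by simpa only [aeval_map_algebraMap] using h1) (by simpa only [aeval_map_algebraMap] using h2)
  obtain ⟨a, b, hb, hab⟩ : ∃ a b : ℕ, (b : PadicAlgCl p) ≠ 0 ∧
      aeval ![(a : PadicAlgCl p), b] d ≠ 0 := by
    by_contra! hn
    refine hd0 (funext_set (fun _ => Set.range fun n : ℕ => ((n + 1 : ℕ) : PadicAlgCl p))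
      (fun _ => Set.infinite_range_of_injective fun n m h => by simpa using h) fun y hy => ?_)
    obtain ⟨a, ha⟩ := hy 0 trivial
    obtain ⟨b, hb⟩ := hy 1 trivial
    have := hn (a + 1) (b + 1) (Nat.cast_ne_zero.2 b.succ_ne_zero)
    rw [aeval_eq_eval] at this
    rw [map_zero, ← this]
    congr 2
    funext k
    fin_cases k
    exacts [ha.symm, hb.symm]
  set c := (aeval ![(a : PadicAlgCl p), b] d)⁻¹ with hc
  let θ₁ : Fin 2 → MvPolynomial (Fin 2) (PadicAlgCl p) :=
    ![C 1 * X 0 + C (a : PadicAlgCl p) * X 1, C (b : PadicAlgCl p) * X 1]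
  have θh : ∀ k, (θ₁ k).IsHomogeneous 1 := fun k => by
    fin_cases k
    · exact (isHomogeneous_C_mul_X _ _).add (isHomogeneous_C_mul_X _ _)
    · exact isHomogeneous_C_mul_X _ _
  have dh : (C c * aeval θ₁ d).IsHomogeneous δ := by simpa using (hd.aeval θ₁ θh).C_mul c
  have d1 : coeff (Finsupp.single 1 δ) (C c * aeval θ₁ d) = 1 := by
    rw [← ce dh, map_mul, aeval_C, comp_aeval_apply]
    refine Eq.trans ?_ (inv_mul_cancel₀ hab)
    congr 3
    funext k
    fin_cases k <;> simp [θ₁]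
  obtain ⟨j, hj⟩ := ((eventually_all_finset (C c * aeval θ₁ d).support).2 fun m _ =>
    ((tendsto_pow_atTop_nhds_zero_of_lt_one (norm_nonneg _) hp1).mul_const
      ‖coeff m (C c * aeval θ₁ d)‖).eventually_le_const (by simp : (0 : ℝ) * _ < 1)).exists
  set θ : Fin 2 → MvPolynomial (Fin 2) (PadicAlgCl p) :=
    ![C ((p : PadicAlgCl p) ^ j) * X 0 + C (a : PadicAlgCl p) * X 1, C (b : PadicAlgCl p) * X 1]
    with hθ
  obtain ⟨H, N, A, μ, m, hN, hH, hH1, hA, hm, hμ, hμ1, e1, e2⟩ :=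
    hD _ a b c (pow_ne_zero j hp0) hb θ rfl
  have es : C c * aeval θ d = aeval (fun v => C (![(p : PadicAlgCl p) ^ j, 1] v) * X v :
      Fin 2 → MvPolynomial (Fin 2) (PadicAlgCl p)) (C c * aeval θ₁ d) := by
    rw [map_mul, aeval_C, comp_aeval_apply, algebraMap_eq]
    congr 3
    funext k
    fin_cases k <;> simp [θ₁, hθ]
  have ec : ∀ n : Fin 2 →₀ ℕ, coeff n (C c * aeval θ d) =
      (p : PadicAlgCl p) ^ (j * n 0) * coeff n (C c * aeval θ₁ d) := fun n => by
    rw [es, sc, Finsupp.prod_fintype _ _ (by simp)]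
    simp [pow_mul]
  let γ₁ : CV r → MvPolynomial (CV r) (PadicAlgCl p) :=
    Sum.elim (fun k => rename .inl (θ k)) fun i => X (.inr i)
  have θh' : ∀ k, (θ k).IsHomogeneous 1 := fun k => by
    fin_cases k
    · exact (isHomogeneous_C_mul_X _ _).add (isHomogeneous_C_mul_X _ _)
    · exact isHomogeneous_C_mul_X _ _
  have γh : ∀ s, (γ₁ s).IsHomogeneous 1 := by
    rintro (k | i)
    exacts [(θh' k).rename_isHomogeneous, isHomogeneous_X _ _]
  obtain ⟨e, k, hCD⟩ := scl p (fun i => aeval γ₁ (map (algebraMap K (PadicAlgCl p)) (J i))) dJ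
    (fun i => one_mul (dJ i) ▸ ((hJ i).map _).aeval γ₁ γh) (C c * aeval θ d) H δ N A μ m hδ
    (by simpa using (hd.aeval θ θh').C_mul c) (by rw [ec, d1]; simp) (fun n => by
      rw [ec, norm_mul, norm_pow]
      by_cases hn : coeff n (C c * aeval θ₁ d) = 0
      · rw [hn, norm_zero, mul_zero]
        exact zero_le_one
      by_cases h0 : n 0 = 0
      · have : n = Finsupp.single 1 δ := by
          have h := dh.degree_eq_sum_deg_support (mem_support_iff.mpr hn)
          have h' : n.degree = n 0 + n 1 := by rw [Finsupp.degree_eq_sum, Fin.sum_univ_two]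
          have h'' : n.degree = δ := h.symm
          ext i
          fin_cases i <;> simp [h0]
          omega
        rw [h0, this, d1]
        simp
      · refine le_trans (mul_le_mul_of_nonneg_right (pow_le_pow_of_le_one (norm_nonneg _) hp1.le
          (Nat.le_mul_of_pos_right j (Nat.pos_of_ne_zero h0))) (norm_nonneg _))
          (hj n (mem_support_iff.mpr hn))) hN hH hH1 hA hm hμ hμ1 e1 e2
  refine ⟨Sum.elim ![C ((p : K) ^ j) * X (.inl 0) + C (a : K) * X (.inl 1), C (b : K) * X (.inl 1)]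
    fun i => C ((p : K) ^ e)⁻¹ * X (.inr i), k, ?_, fun w hw => ?_, ?_⟩
  · rintro (i | i)
    · fin_cases i
      · exact (isHomogeneous_C_mul_X _ _).add (isHomogeneous_C_mul_X _ _)
      · exact isHomogeneous_C_mul_X _ _
    · exact isHomogeneous_C_mul_X _ _
  · have w1 : w (.inl 1) = 0 := by simpa [hb, show b ≠ 0 by simpa using hb] using hw (.inl 1)
    have w0 : w (.inl 0) = 0 := by simpa [w1, hp0] using hw (.inl 0)
    funext s
    rcases s with i | i
    · fin_cases i
      exacts [w0, w1]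
    · simpa [hp0] using hw (.inr i)
  · convert hCD using 2 with i
    rw [map_mul, map_C, map_pow, map_natCast, comp_aeval_apply, aeval_map_algebraMap,
      ae (map (algebraMap K (PadicAlgCl p))) (fun a => by simp)]
    congr 3
    funext s
    rcases s with i | i
    · fin_cases i <;> simp [γ₁, hθ]
    · simp [γ₁]

end Pool.Agent.MP_855f4c_ag.Cu

end
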