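import Pool.Agent.MP_855f4c_ag.CC.Ca
import Pool.Agent.MP_855f4c_ag.CC.Cc
import Pool.Agent.MP_855f4c_ag.CC.Cd

set_option linter.all false

section

section
/-! h92c section N, row KA. -/

open MvPolynomial
open scoped Polynomial IntermediateField IntermediateField.algebraAdjoinAdjoin

namespace Pool.Agent.MP_855f4c_ag.Nd

section KA
variable {F K : Type} [Field F] [Field K] [Algebra F K]

theorem ka_map_ev {A B : Type} [CommRing A] [Algebra F A] [CommRing B] [Algebra F B] (f : A →ₐ[F] B)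
    (x η : A) (g : P2 F) : f (ev x η g) = ev (f x) (f η) g := by
  have : f.comp (ev x η) = ev (f x) (f η) := by
    apply MvPolynomial.algHom_ext
    intro i
    fin_cases i <;> simp [ev]
  exact DFunLike.congr_fun this g

theorem ka_mem_IC (t z : K) : z ∈ IC F t ↔ IsIntegral (Algebra.adjoin F {t}) z := Iff.rfl

theorem ka_pid (x : K) (hx : Transcendental F x) : IsPrincipalIdealRing (Algebra.adjoin F {x}) :=
  IsPrincipalIdealRing.of_surjective (Polynomial.algEquivOfTranscendental F x hx).toRingEquiv.toRingHom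
    (Polynomial.algEquivOfTranscendental F x hx).surjective

theorem ka_ev_biv (x z : K) (hx : Transcendental F x) (f : F[X][X]) :
    ev x z (Polynomial.Bivariate.equivMvPolynomial F f) =
      Polynomial.aeval z (f.map (Polynomial.algEquivOfTranscendental F x hx : F[X] →+* Algebra.adjoin F {x})) := by
  induction f using Polynomial.induction_on' with
  | add p q hp hq => simp only [map_add, Polynomial.map_add, hp, hq]
  | monomial n p =>
    rw [← Polynomial.C_mul_X_pow_eq_monomial]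
    simp only [map_mul, map_pow, Polynomial.map_mul, Polynomial.map_pow, Polynomial.map_C, Polynomial.map_X,
      Polynomial.aeval_C, Polynomial.aeval_X, Polynomial.Bivariate.equivMvPolynomial_X]
    have h1 : ev (F := F) x z (X 1) = z := by simp [ev]
    rw [h1]
    congr 1
    induction p using Polynomial.induction_on' with
    | add p q hp hq => simp only [map_add, hp, hq]
    | monomial m a =>
      rw [← Polynomial.C_mul_X_pow_eq_monomial]
      simp [ev]

theorem ka_sep (x : K) (hx : Transcendental F x) [Algebra.IsSeparable F⟮x⟯ K] (z : K) (hz : z ∈ IC F x) :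
    ∃ g : P2 F, SepEq x z g := by
  have := ka_pid x hx
  set R := Algebra.adjoin F ({x} : Set K) with hR
  let e : F[X] ≃ₐ[F] R := Polynomial.algEquivOfTranscendental F x hx
  have hz' : IsIntegral R z := hz
  have hee : ∀ p : R[X], (p.map (e.symm : R →+* F[X])).map (e : F[X] →+* R) = p := by
    intro p
    rw [Polynomial.map_map]
    have : (e : F[X] →+* R).comp (e.symm : R →+* F[X]) = RingHom.id _ := by
      ext a : 1
      simp
    rw [this, Polynomial.map_id]
  have hw : Polynomial.aeval z (Polynomial.derivative (minpoly R z)) ≠ 0 := by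
    have hs : (minpoly F⟮x⟯ z).Separable := Algebra.IsSeparable.isSeparable F⟮x⟯ z
    have h2 := hs.aeval_derivative_ne_zero (minpoly.aeval F⟮x⟯ z)
    rwa [minpoly.isIntegrallyClosed_eq_field_fractions' F⟮x⟯ hz', Polynomial.derivative_map,
      Polynomial.aeval_map_algebraMap] at h2
  have hwi : IsIntegral R (Polynomial.aeval z (Polynomial.derivative (minpoly R z))) :=
    IsIntegral.of_mem_of_fg (Algebra.adjoin R {z}) hz'.fg_adjoin_singleton _
      (Polynomial.aeval_mem_adjoin_singleton R z)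
  obtain ⟨q, hq0, hq⟩ := hwi.isAlgebraic.exists_nonzero_coeff_and_aeval_eq_zero
    (mem_nonZeroDivisors_of_ne_zero hw)
  obtain ⟨p, hp⟩ := Polynomial.X_dvd_sub_C (p := q)
  refine ⟨Polynomial.Bivariate.equivMvPolynomial F ((minpoly R z).map (e.symm : R →+* F[X])), ?_,
    Polynomial.Bivariate.equivMvPolynomial F
      ((p.comp (Polynomial.derivative (minpoly R z))).map (e.symm : R →+* F[X])),
    e.symm (-q.coeff 0), ?_, ?_⟩
  · rw [ka_ev_biv x z hx, hee, minpoly.aeval]
  · intro h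
    have : -q.coeff 0 = 0 := e.symm.injective (by rw [h, map_zero])
    exact hq0 (neg_eq_zero.mp this)
  · rw [Polynomial.Bivariate.pderiv_one_equivMvPolynomial, ← map_mul, ka_ev_biv x z hx,
      Polynomial.derivative_map, ← Polynomial.map_mul, hee, map_mul, Polynomial.aeval_comp]
    have h3 := congrArg (Polynomial.aeval (Polynomial.aeval z (Polynomial.derivative (minpoly R z)))) hp
    rw [map_sub, hq, zero_sub, map_mul, Polynomial.aeval_X, Polynomial.aeval_C, ← map_neg] at h3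
    rw [mul_comm, ← h3]
    have h4 : ∀ a : R, Polynomial.aeval x (e.symm a) = algebraMap R K a := by
      intro a
      obtain ⟨b, rfl⟩ := e.surjective a
      rw [e.symm_apply_apply]
      exact (Polynomial.aeval_algebraMap_apply K (⟨x, Algebra.self_mem_adjoin_singleton F x⟩ : R) b)
    rw [h4]

theorem ka_sepEq_sub (A : Subalgebra F K) (a z : A) (g : P2 F) (h : SepEq (a : K) (z : K) g) :
    SepEq a z g := by
  obtain ⟨h0, V, d, hd, h1⟩ := h
  have hi : Function.Injective A.val := Subtype.val_injective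
  refine ⟨hi ?_, V, d, hd, hi ?_⟩
  · rw [ka_map_ev, map_zero]
    exact h0
  · rw [ka_map_ev, ← Polynomial.aeval_algHom_apply]
    exact h1

theorem ka_den (x : K) (hx0 : x ≠ 0) (a : K) (ha : a ∈ Algebra.adjoin F {x⁻¹}) :
    ∃ k0 : ℕ, ∀ k ≥ k0, x ^ k * a ∈ Algebra.adjoin F {x} := by
  have hx := Algebra.self_mem_adjoin_singleton F x
  induction ha using Algebra.adjoin_induction with
  | mem a ha =>
    refine ⟨1, fun k hk => ?_⟩
    obtain ⟨j, rfl⟩ := Nat.exists_eq_add_of_le hk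
    rw [Set.mem_singleton_iff.mp ha, pow_add, pow_one, mul_right_comm, mul_inv_cancel₀ hx0, one_mul]
    exact pow_mem hx _
  | algebraMap r => exact ⟨0, fun k _ => mul_mem (pow_mem hx _) (Subalgebra.algebraMap_mem _ r)⟩
  | add a b _ _ iha ihb =>
    obtain ⟨k1, h1⟩ := iha
    obtain ⟨k2, h2⟩ := ihb
    refine ⟨k1 + k2, fun k hk => ?_⟩
    rw [mul_add]
    exact add_mem (h1 k (by omega)) (h2 k (by omega))
  | mul a b _ _ iha ihb =>
    obtain ⟨k1, h1⟩ := iha
    obtain ⟨k2, h2⟩ := ihb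
    refine ⟨k1 + k2, fun k hk => ?_⟩
    have : x ^ k * (a * b) = (x ^ k1 * a) * (x ^ (k - k1) * b) := by
      have : k = k1 + (k - k1) := by omega
      conv_lhs => rw [this, pow_add]
      ring
    rw [this]
    exact mul_mem (h1 k1 le_rfl) (h2 _ (by omega))

theorem ka_pole (x : K) (hx0 : x ≠ 0) (z : K) (hz : z ∈ IC F x⁻¹) :
    ∃ k0 : ℕ, ∀ k ≥ k0, x ^ k * z ∈ IC F x := by
  obtain ⟨p, hpm, hp⟩ := (ka_mem_IC _ _).mp hz
  choose κ hκ using fun i => ka_den x hx0 _ (p.coeff i).2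
  refine ⟨∑ i ∈ Finset.range p.natDegree, κ i, fun k hk => ?_⟩
  set P : K[X] := p.map (algebraMap (Algebra.adjoin F {x⁻¹}) K) with hP
  have hPm : P.Monic := hpm.map _
  have hPd : P.natDegree = p.natDegree := hpm.natDegree_map _
  have hQm : (P.scaleRoots (x ^ k)).Monic := (Polynomial.monic_scaleRoots_iff _).mpr hPm
  have hl : P.scaleRoots (x ^ k) ∈ Polynomial.lifts (algebraMap (Algebra.adjoin F {x}) K) := by
    rw [Polynomial.lifts_iff_coeff_lifts]
    intro i
    suffices h : (P.scaleRoots (x ^ k)).coeff i ∈ Algebra.adjoin F {x} from ⟨⟨_, h⟩, rfl⟩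
    rw [Polynomial.coeff_scaleRoots]
    rcases lt_trichotomy i P.natDegree with h | h | h
    · have h1 : κ i ≤ k * (P.natDegree - i) := by
        have h2 : κ i ≤ ∑ i ∈ Finset.range p.natDegree, κ i :=
          Finset.single_le_sum (f := κ) (fun _ _ => Nat.zero_le _) (Finset.mem_range.mpr (hPd ▸ h))
        have h3 : k * 1 ≤ k * (P.natDegree - i) := Nat.mul_le_mul_left _ (by omega)
        omega
      rw [← pow_mul, mul_comm, hP, Polynomial.coeff_map]
      exact hκ i _ (hP ▸ h1)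
    · rw [h, Nat.sub_self, pow_zero, mul_one, hPm.coeff_natDegree]
      exact one_mem _
    · rw [Polynomial.coeff_eq_zero_of_natDegree_lt h, zero_mul]
      exact zero_mem _
  obtain ⟨q, hq, -, hqm⟩ := Polynomial.lifts_and_natDegree_eq_and_monic hl hQm
  refine (ka_mem_IC _ _).mpr ⟨q, hqm, ?_⟩
  rw [← Polynomial.eval_map, hq, Polynomial.scaleRoots_eval_mul, hP, Polynomial.eval_map, hp, mul_zero]

end KA

theorem ka : KA_s := by
  intro F K _ _ _ x hx hfin hsep
  have := ka_pid x hx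
  have hx0 : x ≠ 0 := by
    rintro rfl
    exact hx isAlgebraic_zero
  have hxm : x ∈ IC F x :=
    (ka_mem_IC _ _).mpr (isIntegral_algebraMap (x := (⟨x, Algebra.self_mem_adjoin_singleton F x⟩ :
      Algebra.adjoin F {x})))
  refine ⟨integralClosure.isDedekindDomain (Algebra.adjoin F {x}) F⟮x⟯ K, ⟨hxm, ⟨?_, ?_⟩, ?_⟩,
    ka_pole x hx0⟩
  · exact fun h => hx (h.algHom (IC F x).val)
  · have hf : Module.Finite (Algebra.adjoin F {x}) (integralClosure (Algebra.adjoin F {x}) K) :=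
      IsIntegralClosure.finite _ F⟮x⟯ K _
    obtain ⟨n, s, hs⟩ := Module.Finite.exists_fin (R := Algebra.adjoin F {x})
      (M := integralClosure (Algebra.adjoin F {x}) K)
    refine ⟨n, fun l => ⟨(s l : K), (s l).2⟩, fun z => ?_⟩
    have hz : (⟨z.1, z.2⟩ : integralClosure (Algebra.adjoin F {x}) K) ∈
        Submodule.span (Algebra.adjoin F {x}) (Set.range s) := hs ▸ Submodule.mem_top
    obtain ⟨c, hc⟩ := (Submodule.mem_span_range_iff_exists_fun _).mp hz
    choose d hd using fun l => Algebra.adjoin_mem_exists_aeval F x (c l).2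
    refine ⟨d, Subtype.ext ?_⟩
    have h1 : z.1 = ∑ l, (c l : K) * (s l : K) := by
      have := congrArg (integralClosure (Algebra.adjoin F {x}) K).val hc
      rw [map_sum] at this
      exact this.symm
    rw [h1]
    have h2 := map_sum (IC F x).val (fun l => Polynomial.aeval (⟨x, hxm⟩ : IC F x) (d l) *
      (⟨(s l : K), (s l).2⟩ : IC F x)) Finset.univ
    refine Eq.trans ?_ h2.symm
    refine Finset.sum_congr rfl fun l _ => ?_
    rw [map_mul, ← Polynomial.aeval_algHom_apply, ← hd l]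
    rfl
  · intro z
    obtain ⟨g, hg⟩ := ka_sep x hx z.1 z.2
    exact ⟨g, ka_sepEq_sub (IC F x) ⟨x, hxm⟩ z g hg⟩

end Pool.Agent.MP_855f4c_ag.Nd

end

section
/-! h92c section N: row WT (weighted minimal polynomial). -/


open MvPolynomial
open scoped Polynomial IntermediateField

namespace Pool.Agent.MP_855f4c_ag.Nd

namespace Wt

variable {F : Type} [Field F] {K : Type} [Field K] [Algebra F K]

/-- From polynomials in `Y` over `F[X]` to polynomials in two variables. -/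
noncomputable def up : F[X][X] →+* P2 F :=
  Polynomial.eval₂RingHom (Polynomial.aeval (X 0 : P2 F)).toRingHom (X 1)

/-- The inverse map. -/
noncomputable def dn : P2 F →+* F[X][X] :=
  (aeval ![Polynomial.C Polynomial.X, Polynomial.X] : P2 F →ₐ[F] F[X][X]).toRingHom

theorem up_C (c : F[X]) : up (Polynomial.C c) = Polynomial.aeval (X 0 : P2 F) c := by
  simp [up]

theorem up_X : up (Polynomial.X : F[X][X]) = X 1 := by simp [up]

theorem up_dn (f : P2 F) : up (dn f) = f := by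
  have : (up (F := F)).comp dn = RingHom.id _ := by
    apply MvPolynomial.ringHom_ext
    · intro a
      simp [dn, up_C]
    · intro i
      fin_cases i <;> simp [dn, up_C, up_X]
  exact RingHom.congr_fun this f

theorem dn_up (p : F[X][X]) : dn (up p) = p := by
  have : (dn (F := F)).comp up = RingHom.id _ := by
    apply Polynomial.ringHom_ext'
    · apply Polynomial.ringHom_ext
      · intro a
        simp [dn, up_C]
      · simp [dn, up_C]
    · simp [dn, up_X]
  exact RingHom.congr_fun this p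

/-- Evaluation at `(u, w)`. -/
noncomputable def e2 (u w : K) : F[X][X] →+* K :=
  Polynomial.eval₂RingHom (Polynomial.aeval u : F[X] →ₐ[F] K).toRingHom w

theorem e2_C (u w : K) (c : F[X]) : e2 u w (Polynomial.C c) = Polynomial.aeval u c := by
  simp [e2]

theorem e2_X (u w : K) : e2 u w (Polynomial.X : F[X][X]) = w := by simp [e2]

theorem ev_up (u w : K) (p : F[X][X]) : ev u w (up p) = e2 u w p := by
  have : ((ev u w : P2 F →ₐ[F] K) : P2 F →+* K).comp up = e2 u w := by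
    apply Polynomial.ringHom_ext'
    · apply Polynomial.ringHom_ext
      · intro a
        simp [ev, up_C, e2_C]
      · simp [ev, up_C, e2_C]
    · simp [ev, up_X, e2_X]
  exact RingHom.congr_fun this p

theorem pderiv_aeval (c : F[X]) : pderiv 1 (Polynomial.aeval (X 0 : P2 F) c) = 0 := by
  induction c using Polynomial.induction_on' with
  | add p q hp hq => simp [hp, hq]
  | monomial n a => simp [Polynomial.aeval_monomial, Derivation.leibniz_pow]

theorem pderiv_up (p : F[X][X]) : pderiv 1 (up p) = up (Polynomial.derivative p) := by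
  induction p using Polynomial.induction_on' with
  | add p q hp hq => simp [hp, hq]
  | monomial n a =>
    rw [← Polynomial.C_mul_X_pow_eq_monomial]
    simp only [map_mul, map_pow, up_C, up_X, Derivation.leibniz, pderiv_aeval,
      Derivation.leibniz_pow, pderiv_X_self, Polynomial.derivative_mul, Polynomial.derivative_C,
      Polynomial.derivative_X_pow, zero_mul, zero_add, mul_zero, add_zero, smul_eq_mul, mul_one,
      map_natCast, nsmul_eq_mul]

theorem ker_up {u w : K} {m : F[X][X]} (h : ∀ p, e2 u w p = 0 ↔ m ∣ p) : Ker u w (up m) := by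
  intro f
  rw [← up_dn f, ev_up, h]
  refine ⟨fun hd => map_dvd up hd, fun hd => ?_⟩
  have := map_dvd dn hd
  rwa [dn_up, dn_up] at this

theorem e2_sum (u w : K) (m : F[X][X]) :
    e2 u w m = ∑ b ∈ Finset.range (m.natDegree + 1), Polynomial.aeval u (m.coeff b) * w ^ b := by
  simp [e2, Polynomial.eval₂_eq_sum_range]

open IntermediateField.algebraAdjoinAdjoin in
/-- The minimal polynomial over `F[x]`. -/
theorem exists_min {x η : K} (hx : Transcendental F x) (hη : η ∈ IC F x) :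
    ∃ m : F[X][X], m.Monic ∧ (∀ p, e2 x η p = 0 ↔ m ∣ p) ∧
      (IsSeparable F⟮x⟯ η → ∃ (V : F[X][X]) (d : F[X]), d ≠ 0 ∧
        e2 x η (V * Polynomial.derivative m) = Polynomial.aeval x d) := by
  let e := Polynomial.algEquivOfTranscendental F x hx
  have he : ∀ c : F[X], ((e c : Algebra.adjoin F {x}) : K) = Polynomial.aeval x c := fun c => by
    simp [e]
  have : IsIntegrallyClosed (Algebra.adjoin F {x}) := IsIntegrallyClosed.of_equiv e.toRingEquiv
  have hi : IsIntegral (Algebra.adjoin F {x}) η := hη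
  have hev : ∀ p : F[X][X], e2 x η p =
      Polynomial.aeval η (p.map (e.toRingEquiv : F[X] →+* Algebra.adjoin F {x})) := by
    intro p
    rw [Polynomial.aeval_def, Polynomial.eval₂_map]
    change Polynomial.eval₂ _ η p = _
    congr 1
    exact RingHom.ext fun c => (he c).symm
  let μ := minpoly (Algebra.adjoin F {x}) η
  let m := μ.map (e.toRingEquiv.symm : Algebra.adjoin F {x} →+* F[X])
  have hm : m.map (e.toRingEquiv : F[X] →+* Algebra.adjoin F {x}) = μ := by
    simp only [m, Polynomial.map_map]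
    rw [RingEquiv.comp_symm, Polynomial.map_id]
  have hback : ∀ p : F[X][X], (p.map (e.toRingEquiv : F[X] →+* Algebra.adjoin F {x})).map
      (e.toRingEquiv.symm : Algebra.adjoin F {x} →+* F[X]) = p := by
    intro p
    rw [Polynomial.map_map, RingEquiv.symm_comp, Polynomial.map_id]
  refine ⟨m, (minpoly.monic hi).map _, fun p => ?_, fun hs => ?_⟩
  · rw [hev, minpoly.isIntegrallyClosed_dvd_iff hi]
    refine ⟨fun hd => ?_, fun hd => ?_⟩
    · have := Polynomial.map_dvd (e.toRingEquiv.symm : Algebra.adjoin F {x} →+* F[X]) hd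
      rwa [hback] at this
    · have := Polynomial.map_dvd (e.toRingEquiv : F[X] →+* Algebra.adjoin F {x}) hd
      rwa [hm] at this
  · have hne : Polynomial.aeval η (Polynomial.derivative μ) ≠ 0 := by
      have h1 := Polynomial.Separable.aeval_derivative_ne_zero hs (minpoly.aeval F⟮x⟯ η)
      rwa [minpoly.isIntegrallyClosed_eq_field_fractions' F⟮x⟯ hi, Polynomial.derivative_map,
        Polynomial.aeval_map_algebraMap] at h1
    have hint : IsIntegral (Algebra.adjoin F {x}) (Polynomial.aeval η (Polynomial.derivative μ)) :=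
      IsIntegral.of_mem_of_fg _ hi.fg_adjoin_singleton _ (Polynomial.aeval_mem_adjoin_singleton _ _)
    obtain ⟨q, hq0, hq⟩ := hint.isAlgebraic.exists_nonzero_coeff_and_aeval_eq_zero
      (mem_nonZeroDivisors_of_ne_zero hne)
    obtain ⟨p, hp⟩ := Polynomial.X_dvd_sub_C (p := q)
    refine ⟨(p.comp (Polynomial.derivative μ)).map
      (e.toRingEquiv.symm : Algebra.adjoin F {x} →+* F[X]), e.symm (-q.coeff 0), ?_, ?_⟩
    · simpa using hq0
    · rw [hev, Polynomial.map_mul, ← Polynomial.derivative_map, hm, Polynomial.map_map,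
        RingEquiv.comp_symm, Polynomial.map_id, map_mul, Polynomial.aeval_comp, ← he,
        AlgEquiv.apply_symm_apply]
      apply_fun Polynomial.aeval (Polynomial.aeval η (Polynomial.derivative μ)) at hp
      rw [map_sub, hq, zero_sub, map_mul, Polynomial.aeval_X, Polynomial.aeval_C] at hp
      rw [mul_comm, ← hp]
      simp

/-- The reflected polynomial. -/
noncomputable def rf (m : F[X][X]) (e f : ℕ → ℕ) : F[X][X] :=
  ∑ b ∈ Finset.range (m.natDegree + 1),
    Polynomial.monomial b (Polynomial.reflect (e b) (m.coeff b) * Polynomial.X ^ f b)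

theorem rf_coeff (m : F[X][X]) (e f : ℕ → ℕ) (b : ℕ) (hb : b ≤ m.natDegree) :
    (rf m e f).coeff b = Polynomial.reflect (e b) (m.coeff b) * Polynomial.X ^ f b := by
  simp only [rf, Polynomial.finsetSum_coeff, Polynomial.coeff_monomial]
  rw [Finset.sum_ite_eq']
  simp [hb]

theorem rf_deg (m : F[X][X]) (e f : ℕ → ℕ) : (rf m e f).natDegree ≤ m.natDegree := by
  refine Polynomial.natDegree_sum_le_of_forall_le _ _ fun b hb => ?_
  exact (Polynomial.natDegree_monomial_le _).trans (Nat.lt_succ_iff.mp (Finset.mem_range.mp hb))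

theorem rf_top {m : F[X][X]} (hm : m.Monic) (e f : ℕ → ℕ) :
    (rf m e f).coeff m.natDegree = Polynomial.X ^ (e m.natDegree + f m.natDegree) := by
  rw [rf_coeff _ _ _ _ le_rfl, hm.coeff_natDegree, Polynomial.reflect_one, pow_add]

theorem rf_zero {u : K} (hu : u ≠ 0) (w : K) (m : F[X][X]) (e f : ℕ → ℕ) (k E : ℕ)
    (h : ∀ b ≤ m.natDegree, (m.coeff b).natDegree ≤ e b ∧ e b + f b + k * b = E)
    (h0 : e2 u (u ^ k * w) m = 0) : e2 u⁻¹ w (rf m e f) = 0 := by
  have key : e2 u⁻¹ w (rf m e f) * u ^ E = e2 u (u ^ k * w) m := by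
    rw [e2_sum u, rf, map_sum, Finset.sum_mul]
    refine Finset.sum_congr rfl fun b hb => ?_
    obtain ⟨h1, h2⟩ := h b (Nat.lt_succ_iff.mp (Finset.mem_range.mp hb))
    let _ := invertibleOfNonzero hu
    have h3 := Polynomial.eval₂_reflect_mul_pow (algebraMap F K) u (e b) (m.coeff b) h1
    rw [invOf_eq_inv, ← Polynomial.aeval_def, ← Polynomial.aeval_def] at h3
    rw [← Polynomial.C_mul_X_pow_eq_monomial, map_mul, map_pow, e2_C, e2_X, map_mul, map_pow,
      Polynomial.aeval_X, ← h3, ← h2, pow_add, pow_add, mul_pow, ← pow_mul, inv_pow]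
    field_simp
  rw [h0] at key
  exact (mul_eq_zero.mp key).resolve_right (pow_ne_zero _ hu)

theorem exists_bound (m : F[X][X]) : ∃ e, ∀ b ≤ m.natDegree, (m.coeff b).natDegree ≤ e :=
  ⟨(Finset.range (m.natDegree + 1)).sup fun b => (m.coeff b).natDegree, fun _ hb =>
    Finset.le_sup (f := fun b => (m.coeff b).natDegree)
      (Finset.mem_range.mpr (Nat.lt_succ_iff.mpr hb))⟩

/-- One direction of the comparison of the two minimal polynomials. -/
theorem cmp {u : K} (hu : u ≠ 0) (w : K) (k : ℕ) {m m' : F[X][X]} (hm : m.Monic)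
    (h0 : e2 u (u ^ k * w) m = 0) (h' : ∀ p, e2 u⁻¹ w p = 0 ↔ m' ∣ p) :
    ∃ (e : ℕ) (p : F[X][X]), m' ∣ p ∧ p.natDegree = m.natDegree ∧
      p.coeff m.natDegree = Polynomial.X ^ e ∧
      ∀ b ≤ m.natDegree, (p.coeff b).natDegree ≤ e + k * (m.natDegree - b) := by
  obtain ⟨e, he⟩ := exists_bound m
  have htop := rf_top hm (fun _ => e) (fun b => k * (m.natDegree - b))
  simp only [Nat.sub_self, mul_zero, add_zero] at htop
  refine ⟨e, rf m (fun _ => e) (fun b => k * (m.natDegree - b)), (h' _).mp ?_, ?_, htop, ?_⟩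
  · refine rf_zero hu w m _ _ k (e + k * m.natDegree) (fun b hb => ⟨he b hb, ?_⟩) h0
    rw [add_assoc, ← mul_add, Nat.sub_add_cancel hb]
  · refine Polynomial.natDegree_eq_of_le_of_coeff_ne_zero (rf_deg _ _ _) ?_
    rw [htop]
    exact pow_ne_zero _ Polynomial.X_ne_zero
  · intro b hb
    rw [rf_coeff _ _ _ _ hb]
    refine Polynomial.natDegree_mul_le.trans (add_le_add ?_ (by simp))
    exact (Polynomial.natDegree_reflect_le).trans (max_le le_rfl (he b hb))

theorem up_monic {m : F[X][X]} (hm : m.Monic) : up m = X 1 ^ m.natDegree +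
    ∑ b ∈ Finset.range m.natDegree, Polynomial.aeval (X 0 : P2 F) (m.coeff b) * X 1 ^ b := by
  conv_lhs => rw [hm.as_sum]
  simp [up_C, up_X]

end Wt

open Wt in
theorem wt : WT_s := by
  intro F K _ _ _ x hx _ hsep k η hη hη'
  have hx0 : x ≠ 0 := by
    rintro rfl
    exact hx isAlgebraic_zero
  have hx' : Transcendental F x⁻¹ := fun h => hx (IsAlgebraic.inv_iff.mp h)
  obtain ⟨m, hm, hk, hs⟩ := exists_min hx hη
  obtain ⟨m', hm', hk', -⟩ := exists_min hx' hη'
  have h0 : e2 x η m = 0 := (hk m).mpr dvd_rfl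
  have h0' : e2 x⁻¹ (η / x ^ k) m' = 0 := (hk' m').mpr dvd_rfl
  have e1 : x ^ k * (η / x ^ k) = η := by field_simp
  have e2' : x⁻¹ ^ k * η = η / x ^ k := by rw [inv_pow, div_eq_inv_mul]
  obtain ⟨a, p, hp, hpd, hpt, -⟩ := cmp hx0 (η / x ^ k) k hm (by rwa [e1]) hk'
  obtain ⟨c, q, hq, hqd, hqt, hqb⟩ := cmp (inv_ne_zero hx0) η k hm' (by rwa [e2'])
    (by rwa [inv_inv])
  have hp0 : p ≠ 0 := by
    rintro rfl
    exact pow_ne_zero _ Polynomial.X_ne_zero hpt.symm
  have hq0 : q ≠ 0 := by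
    rintro rfl
    exact pow_ne_zero _ Polynomial.X_ne_zero hqt.symm
  have hN : m'.natDegree = m.natDegree :=
    le_antisymm (hpd ▸ Polynomial.natDegree_le_of_dvd hp hp0)
      (hqd ▸ Polynomial.natDegree_le_of_dvd hq hq0)
  rw [hN] at hqd hqt hqb
  have hdeg : ∀ b ≤ m.natDegree, (m.coeff b).natDegree ≤ k * (m.natDegree - b) := by
    obtain ⟨r, rfl⟩ := hq
    have hr0 : r ≠ 0 := right_ne_zero_of_mul hq0
    rw [hm.natDegree_mul' hr0] at hqd
    have hr : r = Polynomial.C (r.coeff 0) := Polynomial.eq_C_of_natDegree_eq_zero (by omega)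
    rw [hr, Polynomial.coeff_mul_C, hm.coeff_natDegree, one_mul] at hqt
    intro b hb
    have := hqb b hb
    rw [hr, Polynomial.coeff_mul_C, hqt] at this
    by_cases hz : m.coeff b = 0
    · simp [hz]
    · rw [Polynomial.natDegree_mul_X_pow _ hz] at this
      omega
  have hN1 : 1 ≤ m.natDegree := by
    by_contra hlt
    have h1 : m = 1 := hm.natDegree_eq_zero.mp (by omega)
    rw [h1, map_one] at h0
    exact one_ne_zero h0
  have hG : Gaf k m.natDegree (fun b i => (m.coeff b).coeff i) = up m := by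
    rw [up_monic hm, Gaf]
    congr 1
    refine Finset.sum_congr rfl fun b hb => ?_
    rw [Polynomial.aeval_eq_sum_range' (Nat.lt_succ_iff.mpr
      (hdeg b (Finset.mem_range.mp hb).le)), Finset.sum_mul]
    simp only [smul_eq_C_mul]
  have htop := rf_top hm (fun b => k * (m.natDegree - b)) (fun _ => 0)
  simp only [Nat.sub_self, mul_zero, add_zero, pow_zero] at htop
  have hmm : rf m (fun b => k * (m.natDegree - b)) (fun _ => 0) = m' := by
    refine Polynomial.eq_of_monic_of_dvd_of_natDegree_le hm'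
      (Polynomial.monic_of_natDegree_le_of_coeff_eq_one _ (rf_deg _ _ _) htop)
      ((hk' _).mp ?_) ((rf_deg _ _ _).trans hN.ge)
    refine rf_zero hx0 _ m _ _ k (k * m.natDegree) (fun b hb => ⟨hdeg b hb, ?_⟩) (by rwa [e1])
    rw [add_zero, ← mul_add, Nat.sub_add_cancel hb]
  have hG' : Ginf k m.natDegree (fun b i => (m.coeff b).coeff i) = up m' := by
    rw [up_monic hm', Ginf, hN]
    congr 1
    refine Finset.sum_congr rfl fun b hb => ?_
    have hb' := (Finset.mem_range.mp hb).le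
    rw [← hmm, rf_coeff _ _ _ _ hb', pow_zero, mul_one, ← Finset.sum_mul]
    congr 1
    rw [Polynomial.aeval_eq_sum_range' (n := k * (m.natDegree - b) + 1) (Nat.lt_succ_iff.mpr
      (Polynomial.natDegree_reflect_le.trans (max_le le_rfl (hdeg b hb')))),
      ← Finset.sum_range_reflect]
    refine Finset.sum_congr rfl fun i hi => ?_
    have hi' := Nat.lt_succ_iff.mp (Finset.mem_range.mp hi)
    rw [Polynomial.coeff_reflect, Polynomial.revAt_le hi', smul_eq_C_mul, Nat.add_sub_cancel,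
      Nat.sub_sub_self hi']
  refine ⟨m.natDegree, fun b i => (m.coeff b).coeff i, hN1, hG ▸ ker_up hk, hG' ▸ ker_up hk', ?_⟩
  obtain ⟨V, d, hd, hV⟩ := hs (Algebra.IsSeparable.isSeparable _ η)
  rw [hG]
  exact ⟨by rw [ev_up, h0], up V, d, hd, by rw [pderiv_up, ← map_mul, ev_up, hV]⟩

end Pool.Agent.MP_855f4c_ag.Nd

end

section
/-! Rows LIOU, IND. -/

open Polynomial

namespace Pool.Agent.MP_855f4c_ag.Nd

section
variable {F K : Type} [Field F] [Field K] [Algebra F K]

theorem mem_of_val (z : K)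
    (h : ∀ W : ValuationSubring K, (∀ c : F, algebraMap F K c ∈ W) → z ∈ W) :
    IsIntegral F z := by
  have h1 : z ∈ (integralClosure (Subring.closure (Set.range (algebraMap F K))) K).toSubring := by
    rw [← iInf_valuationSubring_superset, Subring.mem_iInf]
    rintro ⟨W, hW⟩
    exact h W (fun c => hW ⟨c, rfl⟩)
  have e : Subring.closure (Set.range (algebraMap F K)) = (algebraMap F K).range := by
    rw [← RingHom.coe_range, Subring.closure_eq]
  rw [e] at h1
  obtain ⟨P, hP, hz⟩ := h1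
  have hs : Function.Surjective (algebraMap F K).rangeRestrict := RingHom.rangeRestrict_surjective _
  obtain ⟨Q, hQ, -, hQm⟩ := lifts_and_degree_eq_and_monic
    ((mem_lifts P).2 (Polynomial.map_surjective _ hs P)) hP
  exact ⟨Q, hQm, by rw [← hQ, eval₂_map] at hz; exact hz⟩

theorem val_int (W : ValuationSubring K) (hW : ∀ c : F, algebraMap F K c ∈ W) (x z : K)
    (hx : x ∈ W) (hz : IsIntegral (Algebra.adjoin F {x}) z) : z ∈ W := by
  have hle : ∀ u ∈ Algebra.adjoin F {x}, u ∈ W := fun u hu => by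
    induction hu using Algebra.adjoin_induction with
    | mem u hu => rw [Set.mem_singleton_iff.1 hu]; exact hx
    | algebraMap c => exact hW c
    | add a b _ _ ha hb => exact add_mem ha hb
    | mul a b _ _ ha hb => exact mul_mem ha hb
  obtain ⟨P, hP, h0⟩ := hz
  let f : Algebra.adjoin F {x} →+* W :=
    { toFun := fun u => ⟨u, hle u u.2⟩
      map_one' := rfl, map_mul' := fun _ _ => rfl, map_zero' := rfl, map_add' := fun _ _ => rfl }
  have hi : IsIntegral W z := ⟨P.map f, hP.map f, by rw [eval₂_map]; exact h0⟩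
  obtain ⟨w, hw⟩ := IsIntegrallyClosed.isIntegral_iff.1 hi
  rw [← hw]; exact w.2

/-- Liouville: regular on the finite part and vanishing over infinity -/
theorem liou0 (x z : K) (hx : Transcendental F x) (r : F[X]) (hr : r.coeff 0 ≠ 0)
    (h1 : IsIntegral (Algebra.adjoin F {x}) z)
    (h2 : IsIntegral (Algebra.adjoin F {x⁻¹}) (x * z * aeval x⁻¹ r)) : z = 0 := by
  have key : ∀ W : ValuationSubring K, (∀ c : F, algebraMap F K c ∈ W) → z ∈ W ∧ x * z ∈ W := by
    intro W hW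
    by_cases hxW : x ∈ W
    · have := val_int W hW x z hxW h1
      exact ⟨this, mul_mem hxW this⟩
    have hs : x⁻¹ ∈ W := (W.mem_or_inv_mem x).resolve_left hxW
    have hx0 : x ≠ 0 := fun h => hxW (h ▸ zero_mem W)
    have h3 := val_int W hW _ _ hs h2
    have hq : aeval x⁻¹ r.divX ∈ W := val_int W hW _ _ hs
      (isIntegral_algebraMap (x := (⟨aeval x⁻¹ r.divX, aeval_mem_adjoin_singleton F _⟩ :
        Algebra.adjoin F {x⁻¹})))
    have e : aeval x⁻¹ r = aeval x⁻¹ r.divX * x⁻¹ + algebraMap F K (r.coeff 0) := by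
      conv_lhs => rw [← divX_mul_X_add r]
      simp
    have hvs : W.valuation x⁻¹ < 1 := by
      rw [map_inv₀, inv_lt_one₀ (by simpa [pos_iff_ne_zero] using hx0)]
      exact lt_of_not_ge fun h => hxW ((W.valuation_le_one_iff x).1 h)
    have hvc : W.valuation (algebraMap F K (r.coeff 0)) = 1 := by
      have a1 := (W.valuation_le_one_iff _).2 (hW (r.coeff 0))
      have a2 := (W.valuation_le_one_iff _).2 (hW (r.coeff 0)⁻¹)
      rw [map_inv₀, map_inv₀] at a2
      have a3 : W.valuation (algebraMap F K (r.coeff 0)) ≠ 0 := by simpa using hr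
      exact le_antisymm a1 ((inv_le_one₀ (zero_lt_iff.2 a3)).1 a2)
    have hv1 : W.valuation (aeval x⁻¹ r) = 1 := by
      rw [e, Valuation.map_add_eq_of_lt_right, hvc]
      rw [hvc, map_mul]
      exact lt_of_le_of_lt (mul_le_of_le_one_left' ((W.valuation_le_one_iff _).2 hq)) hvs
    have h4 : x * z ∈ W := by
      rw [← W.valuation_le_one_iff] at h3 ⊢
      rwa [map_mul, hv1, mul_one] at h3
    refine ⟨?_, h4⟩
    have : z = x⁻¹ * (x * z) := by field_simp
    rw [this]; exact mul_mem hs h4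
  have ha := mem_of_val (F := F) z fun W hW => (key W hW).1
  have hb := mem_of_val (F := F) (x * z) fun W hW => (key W hW).2
  by_contra h0
  refine hx ?_
  have : x = x * z * z⁻¹ := by field_simp
  rw [this]; exact hb.isAlgebraic.mul ha.isAlgebraic.inv
end

section
variable {F K : Type} [Field F] [Field K] [Algebra F K]

theorem ind_zero {J : Type} [Fintype J] [DecidableEq J] (x η : K) (hx : Transcendental F x)
    (k N : ℕ) (hη : IsIntegral (Algebra.adjoin F {x⁻¹}) (η / x ^ k)) (xj : J → F) (c : J → ℕ → F)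
    (hint : IsIntegral (Algebra.adjoin F {x}) (∑ j, (∑ b ∈ Finset.range N,
      algebraMap F K (c j b) * η ^ b) / (x - algebraMap F K (xj j))))
    (hm : ∀ b < N, ∀ i < k * b, ∑ j, c j b * xj j ^ i = 0) :
    ∑ j, (∑ b ∈ Finset.range N, algebraMap F K (c j b) * η ^ b) / (x - algebraMap F K (xj j)) = 0 := by
  have hne : ∀ a : F, x - algebraMap F K a ≠ 0 := fun a h =>
    hx (by rw [sub_eq_zero.1 h]; exact isAlgebraic_algebraMap a)
  have hx0 : x ≠ 0 := by simpa using hne 0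
  refine liou0 x _ hx (∏ j, (1 - C (xj j) * X)) (by
    rw [coeff_zero_eq_eval_zero, eval_prod]; simp) hint ?_
  have e1 : ∀ b ∈ Finset.range N, ∑ j, algebraMap F K (c j b) * η ^ b / (x - algebraMap F K (xj j))
      = ∑ j, algebraMap F K (c j b * xj j ^ (k * b)) * (η / x ^ k) ^ b /
        (x - algebraMap F K (xj j)) := by
    intro b hb
    rw [← sub_eq_zero, ← Finset.sum_sub_distrib]
    have : ∀ j, algebraMap F K (c j b) * η ^ b / (x - algebraMap F K (xj j)) -
        algebraMap F K (c j b * xj j ^ (k * b)) * (η / x ^ k) ^ b / (x - algebraMap F K (xj j)) =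
        ∑ i ∈ Finset.range (k * b), algebraMap F K (c j b * xj j ^ i) *
          (x ^ (k * b - 1 - i) * (η / x ^ k) ^ b) := by
      intro j
      have g := geom_sum₂_mul (algebraMap F K (xj j)) x (k * b)
      have h1 : η ^ b = x ^ (k * b) * (η / x ^ k) ^ b := by
        rw [div_pow, ← pow_mul]; field_simp
      rw [← sub_div, div_eq_iff (hne _), h1]
      simp only [map_mul, map_pow, mul_assoc]
      rw [← Finset.mul_sum]
      simp only [← mul_assoc]
      rw [← Finset.sum_mul]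
      linear_combination (algebraMap F K (c j b) * (η / x ^ k) ^ b) * g
    simp only [this]
    rw [Finset.sum_comm]
    refine Finset.sum_eq_zero fun i hi => ?_
    rw [← Finset.sum_mul, ← map_sum, hm b (Finset.mem_range.1 hb) i (Finset.mem_range.1 hi),
      map_zero, zero_mul]
  have e2 : ∑ j, (∑ b ∈ Finset.range N, algebraMap F K (c j b) * η ^ b) /
      (x - algebraMap F K (xj j)) = ∑ b ∈ Finset.range N, ∑ j,
        algebraMap F K (c j b * xj j ^ (k * b)) * (η / x ^ k) ^ b /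
          (x - algebraMap F K (xj j)) := by
    simp only [Finset.sum_div]
    rw [Finset.sum_comm]; exact Finset.sum_congr rfl e1
  rw [e2, Finset.mul_sum, Finset.sum_mul]
  refine IsIntegral.sum _ fun b _ => ?_
  rw [Finset.mul_sum, Finset.sum_mul]
  refine IsIntegral.sum _ fun j _ => ?_
  have e3 : x * (algebraMap F K (c j b * xj j ^ (k * b)) * (η / x ^ k) ^ b /
      (x - algebraMap F K (xj j))) * aeval x⁻¹ (∏ j, (1 - C (xj j) * X) : F[X]) =
      aeval x⁻¹ (C (c j b * xj j ^ (k * b)) * ∏ l ∈ Finset.univ.erase j, (1 - C (xj l) * X) : F[X]) *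
        (η / x ^ k) ^ b := by
    rw [← Finset.mul_prod_erase _ _ (Finset.mem_univ j), map_mul (aeval x⁻¹), map_mul (aeval x⁻¹),
      aeval_C]
    have := hne (xj j)
    simp only [map_sub, map_one, map_mul, aeval_C, aeval_X]
    field_simp
  rw [e3]
  exact (isIntegral_algebraMap (x := (⟨_, aeval_mem_adjoin_singleton F _⟩ :
    Algebra.adjoin F {x⁻¹}))).mul (hη.pow b)

theorem ind_coef {J : Type} [Fintype J] [DecidableEq J] (x η : K) (hx : Transcendental F x)
    (N : ℕ) (xj : J → F) (hli : ∀ f : ℕ → F[X], ∑ b ∈ Finset.range N, aeval x (f b) * η ^ b = 0 →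
      ∀ j, ∀ b < N, (f b).eval (xj j) = 0) (hxj : Function.Injective xj) (c : J → ℕ → F)
    (h : ∑ j, (∑ b ∈ Finset.range N, algebraMap F K (c j b) * η ^ b) /
      (x - algebraMap F K (xj j)) = 0) (j : J) (b : ℕ) (hb : b < N) : c j b = 0 := by
  have hne : ∀ a : F, x - algebraMap F K a ≠ 0 := fun a h =>
    hx (by rw [sub_eq_zero.1 h]; exact isAlgebraic_algebraMap a)
  have h3 := hli (fun b => ∑ j, C (c j b) * ∏ l ∈ Finset.univ.erase j, (X - C (xj l))) (by
    have h2 := congrArg (· * ∏ l, (x - algebraMap F K (xj l))) h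
    simp only [zero_mul, Finset.sum_mul, Finset.sum_div] at h2
    rw [Finset.sum_comm] at h2
    rw [← h2]
    refine Finset.sum_congr rfl fun b _ => ?_
    rw [map_sum, Finset.sum_mul]
    refine Finset.sum_congr rfl fun j _ => ?_
    rw [← Finset.mul_prod_erase _ _ (Finset.mem_univ j)]
    have := hne (xj j)
    simp only [map_mul, aeval_C, map_prod, map_sub, aeval_X]
    field_simp) j b hb
  rw [eval_finsetSum, Finset.sum_eq_single j, eval_mul, eval_C, eval_prod] at h3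
  · refine (mul_eq_zero.1 h3).resolve_right (Finset.prod_ne_zero_iff.2 fun l hl => ?_)
    simp only [eval_sub, eval_X, eval_C]
    exact sub_ne_zero.2 fun e => (Finset.mem_erase.1 hl).1 (hxj e).symm
  · intro l _ hl
    rw [eval_mul, eval_prod, Finset.prod_eq_zero (Finset.mem_erase.2 ⟨hl.symm, Finset.mem_univ j⟩)
      (by simp), mul_zero]
  · simp
end

theorem gaf_at {F : Type} [Field F] (k N : ℕ) (g : ℕ → ℕ → F) (a : F) :
    MvPolynomial.aeval ![C a, X] (Gaf k N g) = X ^ N + ∑ b ∈ Finset.range N,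
      C (∑ i ∈ Finset.range (k * (N - b) + 1), g b i * a ^ i) * X ^ b := by
  simp [Gaf, map_sum, Finset.sum_mul]

theorem ind : IND_s := by
  intro F K _ _ _ x hx k N δ η g xs ys _ hN hinj hη hker hu h0 lam hm
  set G : Fin δ → F[X] := fun j => MvPolynomial.aeval ![C (xs j), X] (Gaf k N g) with hG
  have cf : ∀ j a, (G j).coeff a = if a = N then 1 else if a < N then
      ∑ i ∈ Finset.range (k * (N - a) + 1), g a i * xs j ^ i else 0 := fun j a => by
    simp only [hG, gaf_at, coeff_add, coeff_X_pow, finsetSum_coeff, coeff_C_mul, mul_ite, mul_one,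
      mul_zero, Finset.sum_ite_eq, Finset.mem_range]
    split_ifs with h1 h2 <;> first | omega | simp
  have dg : ∀ j, (G j).natDegree = N := fun j =>
    natDegree_eq_of_le_of_coeff_ne_zero (natDegree_le_iff_coeff_eq_zero.2 fun a ha => by
      rw [cf, if_neg (by omega), if_neg (by omega)]) (by rw [cf, if_pos rfl]; exact one_ne_zero)
  have mo : ∀ j, (G j).Monic := fun j => by rw [Monic, leadingCoeff, dg, cf, if_pos rfl]
  have rt : ∀ j, (G j).IsRoot (ys j) := fun j => by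
    have : (aeval (ys j) : F[X] →ₐ[F] F).comp (MvPolynomial.aeval ![C (xs j), X]) =
        MvPolynomial.aeval ![xs j, ys j] := by
      ext i; fin_cases i <;> simp
    have e := DFunLike.congr_fun this (Gaf k N g)
    rw [AlgHom.comp_apply, coe_aeval_eq_eval] at e
    exact e.trans (h0 j)
  set q : Fin δ → F[X] := fun j => G j /ₘ (X - C (ys j)) with hq
  have qc : ∀ j b, (q j).coeff b =
      ∑ a ∈ Finset.Icc (b + 1) N, ys j ^ (a - (b + 1)) * (G j).coeff a := fun j b => by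
    rw [hq, coeff_divByMonic_X_sub_C, dg]
  have qd : ∀ j, (q j).natDegree < N := fun j => by
    rw [hq, natDegree_divByMonic _ (monic_X_sub_C _), dg, natDegree_X_sub_C]; omega
  have e1 : ∀ j, ∑ b ∈ Finset.range N, algebraMap F K (lam j * (q j).coeff b) * η ^ b =
      algebraMap F K (lam j) * aeval η (q j) := fun j => by
    rw [aeval_eq_sum_range' (qd j), Finset.mul_sum]
    simp [Algebra.smul_def, mul_assoc]
  have hz := ind_zero x η hx k N hη xs (fun j b => lam j * (q j).coeff b) (by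
    refine IsIntegral.sum _ fun j _ => ?_
    rw [e1, mul_div_assoc]
    exact mul_mem ((IC F x).algebraMap_mem _) (hu j (q j) (by
      rw [mul_comm]; exact mul_divByMonic_eq_iff_isRoot.2 (rt j)))) (by
    intro b hb i hi
    simp only [qc, Finset.mul_sum, Finset.sum_mul]
    rw [Finset.sum_comm]
    refine Finset.sum_eq_zero fun a ha => ?_
    obtain ⟨a1, a2⟩ := Finset.mem_Icc.1 ha
    have m1 : k * (N - (a - (b + 1))) = k * (N - a) + k * b + k := by
      rw [show N - (a - (b + 1)) = N - a + b + 1 by omega]; ring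
    by_cases haN : a = N
    · rw [← hm (a - (b + 1)) (by omega) i (by omega)]
      exact Finset.sum_congr rfl fun j _ => by rw [cf, if_pos haN]; ring
    · simp only [cf, if_neg haN, if_pos (show a < N by omega), Finset.mul_sum, Finset.sum_mul]
      rw [Finset.sum_comm]
      refine Finset.sum_eq_zero fun i' hi' => ?_
      have := hm (a - (b + 1)) (by omega) (i + i') (by have := Finset.mem_range.1 hi'; omega)
      rw [← mul_zero (g a i'), ← this, Finset.mul_sum]
      exact Finset.sum_congr rfl fun j _ => by ring)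
  funext j
  have := ind_coef x η hx N xs (fun f hf j b hb => by
    obtain ⟨r, hr⟩ := (hker (∑ b ∈ Finset.range N, aeval (MvPolynomial.X 0) (f b) *
      MvPolynomial.X 1 ^ b)).1 (by
        rw [← hf, map_sum]
        refine Finset.sum_congr rfl fun b _ => ?_
        rw [map_mul, ← aeval_algHom_apply]; simp [ev])
    have e : ∑ b ∈ Finset.range N, C ((f b).eval (xs j)) * X ^ b =
        G j * MvPolynomial.aeval ![C (xs j), X] r := by
      rw [hG, ← map_mul, ← hr, map_sum]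
      refine Finset.sum_congr rfl fun b _ => ?_
      have := aeval_algebraMap_apply F[X] (xs j) (f b)
      rw [algebraMap_eq, coe_aeval_eq_eval] at this
      rw [map_mul, ← aeval_algHom_apply]
      simp [this]
    have z : ∑ b ∈ Finset.range N, C ((f b).eval (xs j)) * X ^ b = 0 :=
      eq_zero_of_dvd_of_degree_lt ⟨_, e⟩ (by
        rw [degree_eq_natDegree (mo j).ne_zero, dg, Finset.sum_range]
        exact degree_sum_fin_lt _)
    have := congrArg (coeff · b) z
    simpa [hb] using this) hinj _ hz j (N - 1) (by omega)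
  rw [qc, show N - 1 + 1 = N by omega, Finset.Icc_self, Finset.sum_singleton, cf, if_pos rfl] at this
  simpa using this

end Pool.Agent.MP_855f4c_ag.Nd

end

section
open MvPolynomial
open scoped Polynomial IntermediateField

namespace Pool.Agent.MP_855f4c_ag.Nd

namespace Fi

section
variable {F : Type} [Field F]

lemma sub2 (x0 y0 : F) (g : P2 F) :
    (aeval ![Polynomial.C x0, Polynomial.X] g : F[X]).eval y0 = eval ![x0, y0] g ∧
    (aeval ![Polynomial.C x0, Polynomial.X] g : F[X]).derivative.eval y0 =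
      eval ![x0, y0] (pderiv 1 g) := by
  induction g using MvPolynomial.induction_on with
  | C c => constructor <;> simp
  | add p q hp hq =>
    exact ⟨by simp only [map_add, Polynomial.eval_add, hp.1, hq.1],
      by simp only [map_add, Polynomial.eval_add, hp.2, hq.2]⟩
  | mul_X p i hp =>
    refine ⟨?_, ?_⟩
    · rw [map_mul, map_mul, Polynomial.eval_mul, hp.1, aeval_X, eval_X]
      fin_cases i <;> simp
    · rw [map_mul, Polynomial.derivative_mul, Polynomial.eval_add, Polynomial.eval_mul,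
        Polynomial.eval_mul, hp.1, hp.2, Derivation.leibniz, aeval_X]
      fin_cases i <;> simp [mul_comm, add_comm]

lemma gaf0 {k N : ℕ} (hN : 1 ≤ N) (g : ℕ → ℕ → F) : eval ![(0 : F), 0] (Gaf k N g) = g 0 0 := by
  simp only [Gaf, map_add, map_sum, map_mul, map_pow, eval_X, eval_C, Matrix.cons_val_zero,
    Matrix.cons_val_one]
  rw [zero_pow (by omega), zero_add, Finset.sum_eq_single 0, Finset.sum_eq_single 0]
  · simp
  · intro i _ hi; simp [hi]
  · simp
  · intro b _ hb; simp [hb]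
  · intro h; exact absurd (Finset.mem_range.2 hN) h

lemma ginf0 {k N : ℕ} (hN : 1 ≤ N) (g : ℕ → ℕ → F) :
    eval ![(0 : F), 0] (Ginf k N g) = g 0 (k * N) := by
  simp only [Ginf, map_add, map_sum, map_mul, map_pow, eval_X, eval_C, Matrix.cons_val_zero,
    Matrix.cons_val_one]
  rw [zero_pow (by omega), zero_add, Finset.sum_eq_single 0, Finset.sum_eq_single (k * N)]
  · simp
  · intro i h hi
    have := Finset.mem_range.1 h
    rw [Nat.sub_zero] at this ⊢
    rw [zero_pow (by omega)]; simp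
  · simp
  · intro b _ hb; simp [hb]
  · intro h; exact absurd (Finset.mem_range.2 hN) h

lemma gaf1 (k : ℕ) (g : ℕ → ℕ → F) : pderiv 1 (Gaf k 1 g) = 1 := by
  simp [Gaf, Derivation.leibniz_pow]

end

section
variable {F : Type} [Field F] {K : Type} [Field K] [Algebra F K]

lemma ev_coe {A : Subalgebra F K} (a b : A) (f : P2 F) : ((ev a b f : A) : K) = ev (a : K) (b : K) f := by
  have : (A.val.comp (ev a b)) = ev (a : K) (b : K) := by
    ext i
    fin_cases i <;> simp [ev]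
  exact congrArg (fun φ => φ f) this

lemma aev_coe {A : Subalgebra F K} (a : A) (q : F[X]) :
    ((Polynomial.aeval a q : A) : K) = Polynomial.aeval (a : K) q :=
  (Polynomial.aeval_algHom_apply A.val a q).symm

lemma ker_coe {A : Subalgebra F K} {a b : A} {G : P2 F} (h : Ker (a : K) (b : K) G) : Ker a b G :=
  fun f => by rw [← h f, ← ev_coe, ZeroMemClass.coe_eq_zero]

lemma sep_coe {A : Subalgebra F K} {a b : A} {G : P2 F} (h : SepEq (a : K) (b : K) G) : SepEq a b G := by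
  obtain ⟨h0, V, d, hd, hV⟩ := h
  exact ⟨Subtype.ext (by rw [ev_coe, h0]; rfl), V, d, hd, Subtype.ext (by rw [ev_coe, aev_coe, hV])⟩

lemma quad {x θ b c : K} (hb : b ∈ IC F x) (hc : c ∈ IC F x) (h : θ ^ 2 + b * θ + c = 0) :
    θ ∈ IC F x := by
  have : IsIntegral (integralClosure (Algebra.adjoin F {x}) K) θ := by
    refine ⟨Polynomial.X ^ 2 + (Polynomial.C ⟨b, hb⟩ * Polynomial.X + Polynomial.C ⟨c, hc⟩),
      Polynomial.monic_X_pow_add (Polynomial.degree_linear_le.trans_lt (by norm_num)), ?_⟩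
    simp only [Polynomial.eval₂_add, Polynomial.eval₂_mul, Polynomial.eval₂_pow, Polynomial.eval₂_X,
      Polynomial.eval₂_C]
    rw [← add_assoc]
    exact h
  exact isIntegral_trans (R := Algebra.adjoin F {x}) θ this

lemma ev_aeval {A : Type} [CommRing A] [Algebra F A] (x η : A) (q : F[X]) :
    ev x η (Polynomial.aeval (X 0 : P2 F) q) = Polynomial.aeval x q := by
  rw [← Polynomial.aeval_algHom_apply]; simp [ev]

lemma th_eq {x η : K} {G : P2 F} {c y : F[X]} {α β γ : P2 F} (hG : ev x η G = 0)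
    (hc : Polynomial.aeval x c ≠ 0) (h : Dec G c y α β γ) :
    th x η c y β γ ^ 2 + ev x η β * th x η c y β γ + ev x η (α * γ) = 0 ∧
    Polynomial.aeval x c * th x η c y β γ =
      -ev x η β * Polynomial.aeval x c - ev x η γ * (η - Polynomial.aeval x y) ∧
    (η - Polynomial.aeval x y) * th x η c y β γ = ev x η α * Polynomial.aeval x c := by
  have hη : ev x η (X 1 : P2 F) = η := by simp [ev]
  rw [h] at hG
  simp only [map_add, map_mul, map_pow, map_sub, ev_aeval, hη] at hG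
  rw [map_mul, th]
  refine ⟨?_, ?_, ?_⟩
  · field_simp
    linear_combination (ev x η γ) * hG
  · field_simp
  · field_simp
    linear_combination -hG

end

section
variable {F : Type} [Field F] [IsAlgClosed F] {A : Type} [CommRing A] [IsDedekindDomain A] [Algebra F A]

/-- The data of a node. -/
def Nn (x η : A) (x0 y0 : F) (χ χ' : A →ₐ[F] F) : Prop :=
  χ ≠ χ' ∧ χ x = x0 ∧ χ η = y0 ∧ χ' x = x0 ∧ χ' η = y0 ∧
    (∀ ψ : A →ₐ[F] F, ψ x = x0 → ψ η = y0 → ψ = χ ∨ ψ = χ') ∧
    (∀ ψ : A →ₐ[F] F, ψ x = x0 → ∃ E, IsDer ψ E ∧ E x ≠ 0) ∧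
    ∃ D D', IsDer χ D ∧ IsDer χ' D' ∧ D x = 1 ∧ D' x = 1 ∧ D η ≠ D' η

lemma nodes (hC : CHN_s) (hNODE : NODE_s) {x η : A} {G : P2 F} (hx : Crv F x) (hK : Ker x η G)
    (hS : SepEq x η G)
    (H : ∀ χ χ' : A →ₐ[F] F, χ ≠ χ' → χ' x = χ x → χ' η = χ η →
      (∀ ψ : A →ₐ[F] F, ψ x = χ x → ∃ E, IsDer ψ E ∧ E x = 1) ∧
      (∀ D D', IsDer χ D → IsDer χ' D' → D x = 1 → D' x = 1 → D η ≠ D' η) ∧
      ∀ ψ ψ' : A →ₐ[F] F, ψ ≠ ψ' → ψ x = χ x → ψ' x = χ x → ψ η = ψ' η → ψ = χ ∨ ψ = χ') :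
    ∃ (δ : ℕ) (xs ys : Fin δ → F) (χ χ' : Fin δ → (A →ₐ[F] F)), Function.Injective xs ∧
      (∀ j, Nn x η (xs j) (ys j) (χ j) (χ' j)) ∧
      ∀ ψ ψ' : A →ₐ[F] F, ψ ≠ ψ' → ψ x = ψ' x → ψ η = ψ' η → ∃ j, ψ x = xs j ∧ ψ η = ys j := by
  have nn : ∀ χ χ' : A →ₐ[F] F, χ ≠ χ' → χ' x = χ x → χ' η = χ η → Nn x η (χ x) (χ η) χ χ' := by
    intro χ χ' h h1 h2
    obtain ⟨a1, a2, a3⟩ := H χ χ' h h1 h2
    obtain ⟨D, hD, hD1⟩ := a1 χ rfl
    obtain ⟨D', hD', hD1'⟩ := a1 χ' h1
    refine ⟨h, rfl, rfl, h1, h2, fun ψ e1 e2 => ?_, fun ψ e => ?_, D, D', hD, hD', hD1, hD1',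
      a2 D D' hD hD' hD1 hD1'⟩
    · by_cases e : ψ = χ
      · exact Or.inl e
      · exact a3 ψ χ e e1 rfl e2
    · obtain ⟨E, hE, hE1⟩ := a1 ψ e
      exact ⟨E, hE, hE1 ▸ one_ne_zero⟩
  let Z : Set F := {t | ∃ χ χ' : A →ₐ[F] F, χ ≠ χ' ∧ χ' x = χ x ∧ χ' η = χ η ∧ χ x = t}
  have hZ : Z.Finite := by
    obtain ⟨-, V, d, hd, hV⟩ := hS
    refine (Polynomial.finite_setOfPred_isRoot hd).subset ?_
    rintro _ ⟨χ, χ', h, h1, h2, rfl⟩
    obtain ⟨b0, b1, b2, b3, b4, b5, b6, D, D', b7, b8, b9, b10, b11⟩ := nn χ χ' h h1 h2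
    have h0 := (hNODE F A x hx η G hK _ _ χ χ' D D' b0 b1 b2 b3 b4 b5 b6 b7 b8 b9 b10 b11).1 1
    have := congrArg χ hV
    rw [(hC F A χ 0 (fun z w => by simp) x η _).1, map_mul, h0, mul_zero,
      ← Polynomial.aeval_algHom_apply, Polynomial.coe_aeval_eq_eval] at this
    exact this.symm
  let e := hZ.toFinset.equivFin.symm
  have he : ∀ j, (e j : F) ∈ Z := fun j => hZ.mem_toFinset.1 (e j).2
  choose χ χ' h h1 h2 h3 using he
  refine ⟨_, fun j => e j, fun j => χ j η, χ, χ', Subtype.val_injective.comp e.injective,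
    fun j => by
      show Nn x η (e j : F) _ _ _
      rw [← h3 j]
      exact nn _ _ (h j) (h1 j) (h2 j), fun ψ ψ' c1 c2 c3 => ?_⟩
  obtain ⟨j, hj⟩ := e.surjective ⟨ψ x, hZ.mem_toFinset.2 ⟨ψ, ψ', c1, c2.symm, c3.symm, rfl⟩⟩
  have hj' : ψ x = χ j x := by rw [h3, hj]
  refine ⟨j, hj'.trans (h3 j), ?_⟩
  show ψ η = χ j η
  rcases (H _ _ (h j) (h1 j) (h2 j)).2.2 ψ ψ' c1 hj' (c2 ▸ hj') c3 with r | r
  · rw [r]
  · rw [r, h2]

end

end Fi

open Fi

theorem fin (hC : CHN_s) (hPT : PT_s) (hSM : SM_s) (hNODE : NODE_s) (hN6 : N6_s) (hINF : INF_s)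
    (hGB : GB_s) (hGA : GA_s) (hKA : KA_s) (hWT : WT_s) (hIND : IND_s) : NOD1_s := by
  intro F K _ _ _ _ x hGen hx hfd hsep
  have hx0 : x ≠ 0 := fun h => hx (h ▸ isAlgebraic_zero)
  have hxi : Transcendental F x⁻¹ := fun h => hx (IsAlgebraic.inv_iff.1 h)
  have hE : F⟮x⁻¹⟯ = F⟮x⟯ := le_antisymm
    (IntermediateField.adjoin_simple_le_iff.2 (inv_mem (IntermediateField.mem_adjoin_simple_self F x)))
    (IntermediateField.adjoin_simple_le_iff.2
      (inv_mem_iff.1 (IntermediateField.mem_adjoin_simple_self F x⁻¹)))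
  obtain ⟨iD, ⟨hm, hcr, hsb⟩, hk1⟩ := hKA F K x hx hfd hsep
  obtain ⟨iD', ⟨hm', hcr', -⟩, hk2⟩ := hKA F K x⁻¹ hxi (hE ▸ hfd) (hE ▸ hsep)
  rw [inv_inv] at hk2
  obtain ⟨n, σ, hσ⟩ := hcr.fin
  obtain ⟨n', σ', hσ'⟩ := hcr'.fin
  obtain ⟨k1, hk⟩ : ∃ k1 : ℕ, ∀ k ≥ k1, (∀ l, x ^ k * σ' l ∈ IC F x) ∧ ∀ l, x⁻¹ ^ k * σ l ∈ IC F x⁻¹ :=
    Filter.eventually_atTop.1 ((Filter.eventually_all.2 fun l =>
      Filter.eventually_atTop.2 (hk1 _ (σ' l).2)).and (Filter.eventually_all.2 fun l =>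
      Filter.eventually_atTop.2 (hk2 _ (σ l).2)))
  let t : Fin n ⊕ Fin n ⊕ Fin n' → K :=
    Sum.elim (fun l => σ l) (Sum.elim (fun l => x * σ l) fun l => x ^ (k1 + 2) * σ' l)
  have ht : ∀ m, t m ∈ IC F x := by
    rintro (l | l | l)
    · exact (σ l).2
    · exact mul_mem hm (σ l).2
    · exact (hk _ (by omega)).1 l
  have ht' : ∀ m, t m / x ^ (k1 + 2) ∈ IC F x⁻¹ := by
    rintro (l | l | l)
    · convert (hk (k1 + 2) (by omega)).2 l using 1
      simp only [t, Sum.elim_inl, inv_pow]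
      field_simp
    · convert (hk (k1 + 1) (by omega)).2 l using 1
      simp only [t, Sum.elim_inl, Sum.elim_inr, inv_pow]
      field_simp
      ring
    · convert (σ' l).2 using 1
      simp only [t, Sum.elim_inr]
      field_simp
  let τ : _ → IC F x := fun m => ⟨t m, ht m⟩
  let τ' : _ → IC F x⁻¹ := fun m => ⟨t m / x ^ (k1 + 2), ht' m⟩
  obtain ⟨S1, B, hS1, hB, hga⟩ := hGA F _ _ hcr hsb n σ hσ _ τ
    fun l => ⟨⟨.inl l, rfl⟩, .inr (.inl l), rfl⟩
  choose S2 hS2 hgb using hGB F _ _ hcr n σ hσ _ τ fun l => ⟨.inl l, rfl⟩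
  obtain ⟨S3, hS3, hgb'⟩ := hGB F _ _ hcr' n' σ' hσ' _ τ' (fun l => ⟨.inr (.inr l), Subtype.ext (by
    simp only [τ', t, Sum.elim_inr]
    field_simp)⟩) 0
  obtain ⟨c, hc⟩ := hGen (S1 ∪ S3 ∪ ⋃ x0 ∈ insert 0 B, S2 x0)
    ((hS1.union hS3).union ((hB.insert 0).biUnion fun x0 _ => hS2 x0)) (Fin n ⊕ Fin n ⊕ Fin n')
  replace hga := hga _ c (fun z hz => Subfield.subset_closure (Or.inl (Or.inl hz))) hc
  replace hgb' := hgb' _ c (fun z hz => Subfield.subset_closure (Or.inl (Or.inr hz))) hc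
  replace hgb := fun x0 (h : x0 ∈ insert 0 B) => hgb x0 _ c
    (fun z hz => Subfield.subset_closure (Or.inr (Set.mem_biUnion h hz))) hc
  have hη' : ((∑ m, c m • τ' m : IC F x⁻¹) : K) = (∑ m, c m • τ m : IC F x) / x ^ (k1 + 2) := by
    simp only [AddSubmonoidClass.coe_finsetSum, SetLike.val_smul, τ, τ', Finset.sum_div, smul_div_assoc]
  generalize (∑ m, c m • τ m : IC F x) = η at *
  generalize (∑ m, c m • τ' m : IC F x⁻¹) = η' at *
  have hmem' : (η : K) / x ^ (k1 + 2) ∈ IC F x⁻¹ := hη' ▸ η'.2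
  obtain rfl : η' = ⟨_, hmem'⟩ := Subtype.ext hη'
  obtain ⟨N, g, hN, hK, hK', hS⟩ := hWT F K x hx hfd hsep (k1 + 2) η η.2 hmem'
  have hKA : Ker (⟨x, hm⟩ : IC F x) η (Gaf (k1 + 2) N g) := ker_coe hK
  have hKA' : Ker (⟨x⁻¹, hm'⟩ : IC F x⁻¹) ⟨_, hmem'⟩ (Ginf (k1 + 2) N g) := ker_coe hK'
  have imm : ∀ χ : IC F x →ₐ[F] F, Imm χ ⟨x, hm⟩ η := fun χ => by
    by_cases h : χ ⟨x, hm⟩ ∈ B
    · exact ((hgb _ (Or.inr h)).1 χ rfl).1
    · obtain ⟨D, hD, h1⟩ := (hga χ h).1
      exact ⟨D, hD, Or.inl (h1 ▸ one_ne_zero)⟩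
  obtain ⟨δ, xs, ys, χ, χ', hinj, hnn, hall⟩ := nodes hC hNODE hcr hKA (sep_coe hS) fun χ χ' h h1 h2 => by
    have hb : χ ⟨x, hm⟩ ∉ B := fun hb => h ((hgb _ (Or.inr hb)).2 χ χ' rfl h1 h2.symm)
    exact ⟨fun ψ e => (hga ψ (e ▸ hb)).1, (hga χ hb).2 χ' h h1 h2⟩
  have nd := fun j => by
    obtain ⟨b0, b1, b2, b3, b4, b5, b6, h⟩ := hnn j
    exact hNODE F _ _ hcr η _ hKA _ _ _ _ h.choose h.choose_spec.choose b0 b1 b2 b3 b4 b5 b6
      h.choose_spec.choose_spec.1 h.choose_spec.choose_spec.2.1 h.choose_spec.choose_spec.2.2.1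
      h.choose_spec.choose_spec.2.2.2.1 h.choose_spec.choose_spec.2.2.2.2
  have lf := (hPT F _ _ hcr).2.2.2 η _ hKA
  have lf' := (hPT F _ _ hcr').2.2.2 _ _ hKA'
  have hG0 : ev x (η : K) (Gaf (k1 + 2) N g) = 0 := (hK _).2 dvd_rfl
  have hz : ∀ ψ : IC F x →ₐ[F] F, eval ![ψ ⟨x, hm⟩, ψ η] (Gaf (k1 + 2) N g) = 0 := fun ψ => by
    rw [← (hC F _ ψ 0 (fun z w => by simp) _ η _).1, (hKA _).2 dvd_rfl, map_zero]
  have hz' : ∀ j, eval ![xs j, ys j] (Gaf (k1 + 2) N g) = 0 := fun j => by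
    rw [← (hnn j).2.1, ← (hnn j).2.2.1]; exact hz _
  have ha : ∀ x0 : F, Polynomial.aeval x (Polynomial.X - Polynomial.C x0) ≠ 0 := fun x0 h =>
    hx ⟨_, Polynomial.X_sub_C_ne_zero x0, h⟩
  have h5 : ∀ (j : Fin δ) (α β γ : P2 F), Dec (Gaf (k1 + 2) N g) (Polynomial.X - Polynomial.C (xs j))
      (Polynomial.C (ys j)) α β γ →
      ∃ h : th x η (Polynomial.X - Polynomial.C (xs j)) (Polynomial.C (ys j)) β γ ∈ IC F x,
      (eval ![xs j, ys j] γ ≠ 0 ∧ eval ![xs j, ys j] (β ^ 2 - 4 * α * γ) ≠ 0 ∧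
        χ j ⟨_, h⟩ ≠ χ' j ⟨_, h⟩ ∧ ∀ t : F, t ^ 2 + eval ![xs j, ys j] β * t +
          eval ![xs j, ys j] (α * γ) = 0 → t = χ j ⟨_, h⟩ ∨ t = χ' j ⟨_, h⟩) ∧
      (∃ f : P2 F, (⟨x, hm⟩ - algebraMap F (IC F x) (xs j)) * ⟨_, h⟩ = ev ⟨x, hm⟩ η f) ∧
      ∃ f : P2 F, (η - algebraMap F (IC F x) (ys j)) * ⟨_, h⟩ = ev ⟨x, hm⟩ η f := by
    intro j α β γ hd
    obtain ⟨e1, e2, e3⟩ := th_eq hG0 (ha _) hd
    have h := quad (ev (⟨x, hm⟩ : IC F x) η β).2 (ev (⟨x, hm⟩ : IC F x) η (α * γ)).2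
      (by rw [ev_coe, ev_coe]; exact e1)
    refine ⟨h, (nd j).2.2 _ _ α β γ ⟨_, h⟩ (by simp) (by simp) (by simp) hd (Subtype.ext ?_)
      (Subtype.ext ?_), ⟨-β * (X 0 - C (xs j)) - γ * (X 1 - C (ys j)), Subtype.ext ?_⟩,
      α * (X 0 - C (xs j)), Subtype.ext ?_⟩
    · push_cast [ev_coe]
      exact e1
    · push_cast [ev_coe, aev_coe]
      exact e2
    · push_cast [ev_coe]
      simpa [ev] using e2
    · push_cast [ev_coe]
      simpa [ev] using e3
  refine ⟨k1 + 2, N, δ, η, g, xs, ys, by omega, hN, fun hδ => ?_, hinj, η.2, hmem', hK, hK', ⟨?_, ?_⟩,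
    fun j => ⟨hz' j, (nd j).1⟩, fun x0 y0 h0 hn => ?_, fun y0 h0 => ?_, ?_, fun x0 y0 h0 => ?_,
    fun y0 h0 => ?_, fun j α β γ hd => ?_, fun α β γ hd z hz => ?_, fun z hz => ?_⟩
  · by_contra h
    obtain rfl : N = 1 := by omega
    have := (nd ⟨0, by omega⟩).1 1
    rw [gaf1, map_one] at this
    exact one_ne_zero this
  · intro h
    obtain ⟨ψ, e1, e2⟩ := lf 0 0 ((gaf0 hN g).trans h)
    exact ((hgb 0 (Or.inl rfl)).1 ψ e1).2 e2
  · intro h
    obtain ⟨ψ, e1, e2⟩ := lf' 0 0 ((ginf0 hN g).trans h)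
    exact (hgb'.1 ψ e1).2 e2
  · obtain ⟨ψ, rfl, rfl⟩ := lf x0 y0 h0
    refine hSM F _ _ hcr η _ hKA ψ (imm ψ) fun ψ' e1 e2 => ?_
    by_contra h
    obtain ⟨j, hj⟩ := hall ψ ψ' (Ne.symm h) e1.symm e2.symm
    exact hn j hj
  · obtain ⟨ψ, e, rfl⟩ := lf' 0 y0 h0
    have := hSM F _ _ hcr' _ _ hKA' ψ (hgb'.1 ψ e).1 fun ψ' e1 e2 => hgb'.2 ψ' ψ (e1.trans e) e e2
    rwa [e] at this
  · refine hIND F K x hx (k1 + 2) N δ η g xs ys (by omega) hN hinj hmem' hK (fun j q hq => ?_) hz'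
    obtain ⟨u, hu⟩ := (nd j).2.1 q fun ψ e => by
      by_cases h : ψ η = ys j
      · have := (sub2 (xs j) (ys j) (Gaf (k1 + 2) N g)).2
        rw [← hq, (nd j).1 1] at this
        simpa [h] using this
      · have := (sub2 (xs j) (ψ η) (Gaf (k1 + 2) N g)).1
        rw [← hq, ← e, hz] at this
        simpa [sub_eq_zero, h, e] using this
    have hu' := congrArg Subtype.val hu
    push_cast [aev_coe] at hu'
    have h0 : x - algebraMap F K (xs j) ≠ 0 := by simpa using ha (xs j)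
    rw [← hu', mul_div_cancel_left₀ _ h0]
    exact u.2
  · obtain ⟨ψ, e1, e2⟩ := lf x0 y0 h0
    exact ⟨ψ, ⟨hm, e1⟩, η.2, e2⟩
  · obtain ⟨ψ, e1, e2⟩ := lf' 0 y0 h0
    exact ⟨ψ, ⟨hm', e1⟩, hmem', e2⟩
  · obtain ⟨h, ⟨a1, a2, -, a3⟩, -⟩ := h5 j α β γ hd
    obtain ⟨-, b1, b2, b3, b4, -⟩ := hnn j
    refine ⟨h, a1, a2, fun t ht => ?_⟩
    rcases a3 t ht with r | r
    · exact ⟨χ j, ⟨hm, b1⟩, ⟨η.2, b2⟩, h, r.symm⟩
    · exact ⟨χ' j, ⟨hm, b3⟩, ⟨η.2, b4⟩, h, r.symm⟩
  · choose h a1 a2 using fun j => h5 j _ _ _ (hd j)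
    obtain ⟨f, e, hf⟩ := hN6 F _ _ hcr η δ xs ys (fun j => ⟨_, h j⟩) hinj imm a2 (fun ψ ψ' c1 c2 c3 => by
      obtain ⟨j, e1, e2⟩ := hall ψ ψ' c1 c2 c3
      obtain ⟨-, -, -, -, -, b, -⟩ := hnn j
      have hne := (a1 j).2.2.1
      rcases b ψ e1 e2 with r | r <;> rcases b ψ' (c2 ▸ e1) (c3 ▸ e2) with r' | r'
      · exact absurd (r.trans r'.symm) c1
      · exact ⟨fun φ f1 f2 => by rw [r, r']; exact b φ (f1.trans e1) (f2.trans e2), j, e1,
          by rw [r, r']; exact hne⟩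
      · exact ⟨fun φ f1 f2 => by rw [r, r']; exact (b φ (f1.trans e1) (f2.trans e2)).symm, j, e1,
          by rw [r, r']; exact hne.symm⟩
      · exact absurd (r.trans r'.symm) c1) ⟨z, hz⟩
    refine ⟨f, e, ?_⟩
    have := congrArg Subtype.val hf
    simpa only [AddMemClass.coe_add, ev_coe, AddSubmonoidClass.coe_finsetSum, SetLike.val_smul] using this
  · obtain ⟨B0, f, h0, hf⟩ := hINF F _ _ hcr' _ (fun ψ e => (hgb'.1 ψ e).1) hgb'.2 ⟨z, hz⟩
    refine ⟨B0, f, h0, ?_⟩
    have := congrArg Subtype.val hf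
    simpa only [MulMemClass.coe_mul, ev_coe, aev_coe] using this

end Pool.Agent.MP_855f4c_ag.Nd

end

section
namespace Pool.Agent.MP_855f4c_ag.Nd

theorem nod1 : NOD1_s :=
  fin chn pt (sm (loc rad)) (node chn rad (loc rad) pt) (n6 (glob (loc rad))) (inf (loc rad))
    (gb pt) (ga chn pt td) ka wt ind

end Pool.Agent.MP_855f4c_ag.Nd

end

section
/-! h92c section N: from the two charts to the weighted homogeneous model. -/

open MvPolynomial
open scoped Polynomial IntermediateField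

namespace Pool.Agent.MP_855f4c_ag.Nd.Br

open Cu

variable {F : Type} [Field F]

abbrev P3 (F : Type) [Field F] := MvPolynomial (Option (Fin 2)) F

/-- the weights -/
abbrev wt (k : ℕ) : Option (Fin 2) → ℕ := fun o => o.elim k fun _ => 1

/-- the form -/
noncomputable def Gh (k N : ℕ) (g : ℕ → ℕ → F) : P3 F :=
  X none ^ N + ∑ b ∈ Finset.range N, ∑ i ∈ Finset.range (k * (N - b) + 1),
    C (g b i) * X (some 0) ^ (k * (N - b) - i) * X (some 1) ^ i * X none ^ b

noncomputable def φ : P3 F →ₐ[F] P2 F := aeval (pt3 (X 0) (X 1))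

noncomputable def ψ : P3 F →ₐ[F] P2 F := aeval fun o => o.elim (X 1) ![X 0, 1]

theorem φ_Gh (k N : ℕ) (g : ℕ → ℕ → F) : φ (Gh k N g) = Gaf k N g := by
  simp [φ, Gh, Gaf, pt3, map_sum]

theorem ψ_Gh (k N : ℕ) (g : ℕ → ℕ → F) : ψ (Gh k N g) = Ginf k N g := by
  simp [ψ, Gh, Ginf, map_sum]

theorem aeval_φ {A : Type} [CommRing A] [Algebra F A] (x η : A) (P : P3 F) :
    aeval (pt3 x η) P = ev x η (φ P) := by
  have h : (aeval (pt3 x η) : P3 F →ₐ[F] A) = (ev x η).comp φ := by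
    refine MvPolynomial.algHom_ext fun o => ?_
    rcases o with _ | i
    · simp [φ, ev, pt3]
    · fin_cases i <;> simp [φ, ev, pt3]
  rw [h]; rfl

theorem aeval_ψ {A : Type} [CommRing A] [Algebra F A] (s η : A) (P : P3 F) :
    aeval (fun o : Option (Fin 2) => o.elim η ![s, 1]) P = ev s η (ψ P) := by
  have h : (aeval (fun o : Option (Fin 2) => o.elim η ![s, 1]) : P3 F →ₐ[F] A) = (ev s η).comp ψ := by
    refine MvPolynomial.algHom_ext fun o => ?_
    rcases o with _ | i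
    · simp [ψ, ev]
    · fin_cases i <;> simp [ψ, ev]
  rw [h]; rfl

theorem eval_φ (x η : F) (P : P3 F) : eval (pt3 x η) P = eval ![x, η] (φ P) :=
  aeval_φ x η P

theorem eval_ψ (s η : F) (P : P3 F) :
    eval (fun o : Option (Fin 2) => o.elim η ![s, 1]) P = eval ![s, η] (ψ P) :=
  aeval_ψ s η P

theorem pd (f : P3 F →ₐ[F] P2 F) (v : Option (Fin 2)) (w : Fin 2)
    (h : ∀ n, f (pderiv v (X n)) = pderiv w (f (X n))) (P : P3 F) :
    f (pderiv v P) = pderiv w (f P) := by
  induction P using MvPolynomial.induction_on with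
  | C a => rw [pderiv_C, map_zero, algHom_C, algebraMap_eq, pderiv_C]
  | add p q hp hq => simp only [map_add, hp, hq]
  | mul_X p n hp => simp only [map_mul, Derivation.leibniz, smul_eq_mul, map_add, hp, h]

theorem pd_φ (w : Fin 2) : ∃ v, ∀ P : P3 F, φ (pderiv v P) = pderiv w (φ P) ∧
    v = ![some 1, none] w := by
  refine ⟨![some 1, none] w, fun P => ⟨pd φ _ _ (fun n => ?_) P, rfl⟩⟩
  rcases n with _ | i
  · fin_cases w <;> simp [φ, pt3, pderiv_X]
  · fin_cases w <;> fin_cases i <;> simp [φ, pt3, pderiv_X]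

theorem pd_ψ (w : Fin 2) : ∃ v, ∀ P : P3 F, ψ (pderiv v P) = pderiv w (ψ P) := by
  refine ⟨![some 0, none] w, fun P => pd ψ _ _ (fun n => ?_) P⟩
  rcases n with _ | i
  · fin_cases w <;> simp [ψ, pderiv_X]
  · fin_cases w <;> fin_cases i <;> simp [ψ, pderiv_X]

theorem scale {A : Type} [CommRing A] [Algebra F A] {σ : Type} [Fintype σ] {w : σ → ℕ} {n : ℕ}
    {P : MvPolynomial σ F} (h : P.IsWeightedHomogeneous w n) (t : A) (a : σ → A) :
    aeval (fun o => t ^ w o * a o) P = t ^ n * aeval a P := by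
  rw [aeval_def, aeval_def, eval₂_eq', eval₂_eq', Finset.mul_sum]
  refine Finset.sum_congr rfl fun d hd => ?_
  have hn : n = ∑ i, w i * d i := by
    rw [← h (mem_support_iff.1 hd), Finsupp.weight_apply, Finsupp.sum_fintype _ _ (by simp)]
    exact Finset.sum_congr rfl fun i _ => by rw [smul_eq_mul, mul_comm]
  simp only [mul_pow, Finset.prod_mul_distrib, ← pow_mul, Finset.prod_pow_eq_pow_sum, ← hn]
  ring

theorem hX (k : ℕ) (o : Option (Fin 2)) (n : ℕ) :
    (X o ^ n : P3 F).IsWeightedHomogeneous (wt k) (n * wt k o) := by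
  simpa using (isWeightedHomogeneous_X F (wt k) o).pow n

theorem hom (k N : ℕ) (g : ℕ → ℕ → F) : (Gh k N g).IsWeightedHomogeneous (wt k) (k * N) := by
  refine IsWeightedHomogeneous.add ?_ (IsWeightedHomogeneous.sum _ _ _ fun b hb =>
    IsWeightedHomogeneous.sum _ _ _ fun i hi => ?_)
  · rw [mul_comm]; exact hX k none N
  · have h := (((isWeightedHomogeneous_C (wt k) (g b i)).mul (hX k (some 0) (k * (N - b) - i))).mul
      (hX k (some 1) i)).mul (hX k none b)
    have e : 0 + (k * (N - b) - i) * wt k (some 0) + i * wt k (some 1) + b * wt k none = k * N := by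
      have h1 := Finset.mem_range.1 hb
      have h2 := Finset.mem_range.1 hi
      obtain ⟨c, rfl⟩ : ∃ c, N = b + c := ⟨N - b, by omega⟩
      rw [Nat.add_sub_cancel_left] at h2 ⊢
      show 0 + (k * c - i) * 1 + i * 1 + b * k = k * (b + c)
      rw [mul_add, mul_comm b k]; omega
    rwa [e] at h

theorem mo {k N : ℕ} (g : ℕ → ℕ → F) (hk : 0 < k) (hN : 0 < N) : Mo k N (Gh k N g) := by
  refine ⟨hN, hom k N g, ?_, degreeOf_le_iff.2 fun m hm => ?_⟩
  · rw [Gh, coeff_add, coeff_X_pow, if_pos rfl, coeff_sum, Finset.sum_eq_zero, add_zero]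
    intro b hb
    rw [coeff_sum]
    refine Finset.sum_eq_zero fun i _ => ?_
    simp only [X_pow_eq_monomial, C_apply, monomial_mul, coeff_monomial]
    rw [if_neg]
    intro e
    have := DFunLike.congr_fun e none
    have h1 := Finset.mem_range.1 hb
    simp at this
    omega
  · have h := hom k N g (mem_support_iff.1 hm)
    rw [Finsupp.weight_apply, Finsupp.sum_fintype _ _ (by simp), Fintype.sum_option] at h
    have h2 : m none * k ≤ k * N := by rw [← h]; exact Nat.le_add_right _ _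
    rw [mul_comm] at h2
    exact Nat.le_of_mul_le_mul_left h2 hk

theorem homog (k : ℕ) (f : P2 F) :
    ∃ n0, ∀ n ≥ n0, ∃ A : P3 F, A.IsWeightedHomogeneous (wt k) n ∧ ψ A = f := by
  induction f using MvPolynomial.induction_on with
  | C a =>
    refine ⟨0, fun n _ => ⟨C a * X (some 1) ^ n, ?_, by simp [ψ]⟩⟩
    simpa using (isWeightedHomogeneous_C (wt k) a).mul (hX k (some 1) n)
  | add p q hp hq =>
    obtain ⟨n1, h1⟩ := hp
    obtain ⟨n2, h2⟩ := hq
    refine ⟨max n1 n2, fun n hn => ?_⟩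
    obtain ⟨A, hA, eA⟩ := h1 n (le_trans (le_max_left _ _) hn)
    obtain ⟨B, hB, eB⟩ := h2 n (le_trans (le_max_right _ _) hn)
    exact ⟨A + B, hA.add hB, by rw [map_add, eA, eB]⟩
  | mul_X p i hp =>
    obtain ⟨n1, h1⟩ := hp
    refine ⟨n1 + wt k (![some 0, none] i), fun n hn => ?_⟩
    obtain ⟨A, hA, eA⟩ := h1 (n - wt k (![some 0, none] i)) (by omega)
    refine ⟨A * X (![some 0, none] i), ?_, ?_⟩
    · have h := hA.mul (isWeightedHomogeneous_X F (wt k) (![some 0, none] i))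
      rwa [Nat.sub_add_cancel (by omega)] at h
    · rw [map_mul, eA]
      fin_cases i <;> simp [ψ]

theorem dec {k N : ℕ} {g : ℕ → ℕ → F} {a b : F} {al be ga : P3 F}
    (h : Gh k N g = al * fa a ^ 2 + be * (fa a * fb k b) + ga * fb k b ^ 2) :
    Dec (Gaf k N g) (Polynomial.X - Polynomial.C a) (Polynomial.C b) (φ al) (φ be) (φ ga) := by
  have ha : φ (fa a) = X 0 - C a := by simp [φ, fa, pt3]
  have hb : φ (fb k b) = X 1 - C b := by simp [φ, fb, pt3]
  rw [Dec, ← φ_Gh, h]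
  simp only [map_add, map_mul, map_pow, ha, hb, map_sub, Polynomial.aeval_X, Polynomial.aeval_C,
    algebraMap_eq]
  ring

theorem theta {K : Type} [Field K] [Algebra F K] {x η θ : K} {k : ℕ} {G : P3 F} {a b : F}
    {al be ga : P3 F} (h : G = al * fa a ^ 2 + be * (fa a * fb k b) + ga * fb k b ^ 2)
    (h0 : aeval (pt3 x η) G = 0) (hx : x ≠ algebraMap F K a) (hη : η ≠ algebraMap F K b)
    (hθ : θ * aeval (pt3 x η) (fb k b) = aeval (pt3 x η) (al * fa a)) :
    θ = th x η (Polynomial.X - Polynomial.C a) (Polynomial.C b) (φ be) (φ ga) := by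
  have ha : aeval (pt3 x η) (fa a) = x - algebraMap F K a := by simp [fa, pt3]
  have hb : aeval (pt3 x η) (fb k b) = η - algebraMap F K b := by simp [fb, pt3]
  rw [h] at h0
  simp only [map_add, map_mul, map_pow, ha, hb] at h0 hθ
  rw [th, ← aeval_φ, ← aeval_φ]
  simp only [map_sub, Polynomial.aeval_X, Polynomial.aeval_C]
  have h1 := sub_ne_zero.2 hx
  have h2 := sub_ne_zero.2 hη
  refine mul_right_cancel₀ h2 ?_
  rw [hθ]
  field_simp
  linear_combination h0

theorem ev_aeval {A : Type} [CommRing A] [Algebra F A] (s η : A) (B : F[X]) :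
    ev s η (Polynomial.aeval (X 0 : P2 F) B) = Polynomial.aeval s B := by
  rw [← Polynomial.aeval_algHom_apply]; simp [ev]

theorem pdhom {k N : ℕ} (g : ℕ → ℕ → F) (hk : 0 < k) (hN : 0 < N) (v : Option (Fin 2)) :
    ∃ n, (pderiv v (Gh k N g)).IsWeightedHomogeneous (wt k) n := by
  refine ⟨k * N - wt k v, (hom k N g).pderiv (Nat.sub_add_cancel ?_)⟩
  have : k ≤ k * N := Nat.le_mul_of_pos_right k hN
  rcases v with _ | i
  · exact this
  · exact le_trans hk this

theorem val {K : Type} [Field K] [Algebra F K] {A : Subalgebra F K} {χ : A →ₐ[F] F} {z : K} {v : F}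
    (h : Val χ z v) : ∀ h', χ ⟨z, h'⟩ = v := fun _ => h.2

/-- the bridge -/
noncomputable def nod {K : Type} [Field K] [Algebra F K] {x : K} (hx : Transcendental F x)
    {k N δ : ℕ} {η : K} {g : ℕ → ℕ → F} {xs ys : Fin δ → F} (H : Nod1 F x k N δ η g xs ys) :
    Cu.Nod F x :=
  have hk : 0 < k := lt_of_lt_of_le two_pos H.hk
  have hroot : aeval (pt3 x η) (Gh k N g) = 0 := by
    rw [aeval_φ, φ_Gh]; exact (H.ker _).2 dvd_rfl
  have hxa : ∀ a : F, x ≠ algebraMap F K a := fun a e => hx (e ▸ isAlgebraic_algebraMap a)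
  have hne : ∀ j, η ≠ algebraMap F K (ys j) := fun j e => by
    obtain ⟨q, hq⟩ := (H.ker (X 1 - C (ys j))).1 (by simp [ev, e])
    have h := congrArg (fun P => eval ![xs j, ys j] (pderiv 1 P)) hq
    simp [(H.n2 j).1, (H.n2 j).2 1] at h
  { k := k, N := N, δ := δ, η := η, G := Gh k N g, xn := xs, yn := ys
    two := H.hk
    mo := mo g hk H.hN
    root := hroot
    n1 := by
      intro i
      have hN : N ≠ 0 := Nat.pos_iff_ne_zero.1 H.hN
      simp only [Gh, map_add, map_sum, map_mul, map_pow, eval_X, eval_C, Option.elim]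
      rw [zero_pow hN, zero_add, Finset.sum_eq_single 0 (fun b _ hb => by simp [hb])
        (fun h => absurd (Finset.mem_range.2 H.hN) h)]
      fin_cases i
      · rw [Finset.sum_eq_single 0 (fun i _ hi => by simp [hi]) (by simp)]
        simpa using H.n1.1
      · rw [Finset.sum_eq_single (k * N) (fun i hi hi' => ?_) (by simp)]
        · simpa using H.n1.2
        · have := Finset.mem_range.1 hi
          have h : k * N - i ≠ 0 := by rw [Nat.sub_zero] at this; omega
          simp [h]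
    inj := H.inj
    ne := hne
    N2 := fun h => H.hN2 h.ne'
    sing := by
      intro j
      have h0 : eval (pt3 (xs j) (ys j)) (Gh k N g) = 0 := by rw [eval_φ, φ_Gh]; exact (H.n2 j).1
      have h1 : ∀ w : Fin 2, eval (pt3 (xs j) (ys j)) (pderiv (![some 1, none] w) (Gh k N g)) = 0 := by
        intro w
        obtain ⟨v, hv⟩ := pd_φ (F := F) w
        rw [← (hv 0).2, eval_φ, (hv _).1, φ_Gh]; exact (H.n2 j).2 w
      have h10 : eval (pt3 (xs j) (ys j)) (pderiv (some 1) (Gh k N g)) = 0 := h1 0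
      have h11 : eval (pt3 (xs j) (ys j)) (pderiv none (Gh k N g)) = 0 := h1 1
      refine ⟨h0, fun v => ?_⟩
      rcases v with _ | i
      · exact h11
      · have h := congrArg (eval (pt3 (xs j) (ys j))) (hom k N g).sum_weight_X_mul_pderiv
        rw [Fintype.sum_option, Fin.sum_univ_two] at h
        simp only [map_add, map_nsmul, map_mul, h10, h11, h0, eval_X, mul_zero, smul_zero] at h
        fin_cases i
        · simpa [pt3] using h
        · exact h10
    node := by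
      intro j al be ga h
      obtain ⟨-, h1, h2, -⟩ := H.n5 j _ _ _ (dec h)
      refine ⟨by rwa [eval_φ], ?_⟩
      rw [eval_φ]
      simpa only [map_sub, map_mul, map_pow, map_ofNat] using h2
    smooth := by
      intro a ha h0 hn
      have key : ∀ (t : F) (a' : Option (Fin 2) → F), a' = (fun o => t ^ wt k o * a o) →
          eval a' (Gh k N g) = 0 ∧ ∀ v, eval a' (pderiv v (Gh k N g)) ≠ 0 →
            eval a (pderiv v (Gh k N g)) ≠ 0 := by
        rintro t _ rfl
        refine ⟨(scale (hom k N g) t a).trans (mul_eq_zero_of_right _ h0), fun v hv e => hv ?_⟩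
        obtain ⟨n, hn⟩ := pdhom g hk H.hN v
        exact (scale hn t a).trans (mul_eq_zero_of_right _ e)
      by_cases h : a (some 0) = 0
      · have h1 : a (some 1) ≠ 0 := by
          obtain ⟨i, hi⟩ := ha
          fin_cases i
          · exact absurd h hi
          · exact hi
        obtain ⟨k0, k1⟩ := key (a (some 1))⁻¹
          (fun o => o.elim ((a (some 1))⁻¹ ^ k * a none) ![0, 1]) (by
            funext o
            rcases o with _ | i
            · rfl
            · fin_cases i <;> simp [h, h1])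
        rw [eval_ψ, ψ_Gh] at k0
        obtain ⟨w, hw⟩ := H.n3' _ k0
        obtain ⟨v, hv⟩ := pd_ψ (F := F) w
        exact ⟨v, k1 v (by rwa [eval_ψ, hv, ψ_Gh])⟩
      · obtain ⟨k0, k1⟩ := key (a (some 0))⁻¹
          (pt3 ((a (some 0))⁻¹ * a (some 1)) ((a (some 0))⁻¹ ^ k * a none)) (by
            funext o
            rcases o with _ | i
            · rfl
            · fin_cases i <;> simp [pt3, h])
        rw [eval_φ, φ_Gh] at k0
        obtain ⟨w, hw⟩ := H.n3 _ _ k0 fun j hj => hn j (by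
          simp only [fa, fb, map_sub, map_mul, map_pow, eval_X, eval_C, ← hj.1, ← hj.2]
          refine ⟨?_, ?_⟩
          · rw [mul_comm, mul_inv_cancel_left₀ h, sub_self]
          · rw [inv_pow, mul_comm, mul_inv_cancel_left₀ (pow_ne_zero k h), sub_self])
        obtain ⟨v, hv⟩ := pd_φ (F := F) w
        exact ⟨v, k1 v (by rwa [eval_φ, (hv _).1, φ_Gh])⟩
    ind := fun lam h => H.n4 lam fun b hb i hi => by simpa only [mul_assoc] using h i b hb hi
    chr := by
      intro x0 y0 h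
      rw [eval_φ, φ_Gh] at h
      obtain ⟨χ, h1, h2⟩ := H.lift x0 y0 h
      exact ⟨χ, val h1, val h2⟩
    chr' := by
      intro y0 h
      rw [eval_ψ, ψ_Gh] at h
      obtain ⟨χ, h1, h2⟩ := H.lift' y0 h
      exact ⟨χ, val h1, val h2⟩
    chrn := by
      intro j al be ga θ h hθ τ hτ
      obtain ⟨-, -, -, h3⟩ := H.n5 j _ _ _ (dec h)
      rw [eval_φ, eval_φ, map_mul] at hτ
      obtain ⟨χ, h1, h2, h4⟩ := h3 τ hτ
      rw [← theta h hroot (hxa _) (hne j) hθ] at h4
      exact ⟨χ, val h1, val h2, val h4⟩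
    span := by
      intro al be ga θ h hθ z hz
      obtain ⟨f, c, e⟩ := H.n6 _ _ _ (fun j => dec (h j)) z hz
      refine ⟨aeval ![X (some 1), X none] f, c, ?_⟩
      have e1 : aeval (pt3 x η) (aeval ![X (some 1), X none] f : P3 F) = ev x η f := by
        rw [← AlgHom.comp_apply, comp_aeval, ev]
        refine congrArg (fun a => aeval a f) (funext fun i => ?_)
        fin_cases i <;> simp [pt3]
      rw [e, e1]
      exact congrArg _ (Finset.sum_congr rfl fun j _ => by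
        rw [← theta (h j) hroot (hxa _) (hne j) (hθ j)])
    span' := by
      intro z hz
      obtain ⟨B, f, hB, e⟩ := H.inf z hz
      obtain ⟨n1, h1⟩ := homog k f
      obtain ⟨n2, h2⟩ := homog k (Polynomial.aeval (X 0 : P2 F) B)
      obtain ⟨A, hA, eA⟩ := h1 _ (le_max_left n1 n2)
      obtain ⟨B', hB', eB⟩ := h2 _ (le_max_right n1 n2)
      have hx0 : x ≠ 0 := by simpa using hxa 0
      have hp : pt3 x η = fun o => x ^ wt k o * (o.elim (η / x ^ k) ![x⁻¹, 1] : K) := by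
        funext o
        rcases o with _ | i
        · show η = x ^ k * (η / x ^ k)
          field_simp
        · fin_cases i <;> simp [pt3, hx0]
      refine ⟨_, A, B', hA, hB', ?_, fun y0 _ => ?_⟩
      · rw [hp, scale hA, scale hB', aeval_ψ, aeval_ψ, eA, eB, ev_aeval, mul_assoc, e]
      · rw [eval_ψ, eB]
        have := ev_aeval (0 : F) y0 B
        rw [Polynomial.coe_aeval_eq_eval] at this
        exact fun e0 => hB (this.symm.trans e0) }

end Pool.Agent.MP_855f4c_ag.Nd.Br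

namespace Pool.Agent.MP_855f4c_ag.Nd

theorem br (hG : ∀ (F : Type) [Field F] [Uncountable F], Gen F) (h : NOD1_s) : Cu.NOD_s := by
  intro F K _ _ _ _ _ x hF hs
  obtain ⟨k, N, δ, η, g, xs, ys, H⟩ := h F K x (hG F) hF.1 hF.2 hs
  exact ⟨Br.nod hF.1 H⟩

end Pool.Agent.MP_855f4c_ag.Nd

end

namespace Pool.Agent.MP_855f4c_ag.Cu

theorem nod : NOD_s := Nd.br Nd.gen Nd.nod1

end Pool.Agent.MP_855f4c_ag.Cu

end

section

/-! h92c: estimates for values of polynomials. -/

open MvPolynomial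

namespace Pool.Agent.MP_855f4c_ag.Cu.CVv

section nrm
variable {F : Type} [NormedField F] [IsUltrametricDist F]

/-- Pairs of integral elements at distance at most `ε`. -/
def cl (F : Type) [NormedField F] [IsUltrametricDist F] (ε : ℝ) (h : 0 ≤ ε) : Subring (F × F) where
  carrier := {a | ‖a.1‖ ≤ 1 ∧ ‖a.2‖ ≤ 1 ∧ ‖a.1 - a.2‖ ≤ ε}
  mul_mem' := by
    rintro ⟨a, b⟩ ⟨c, d⟩ ⟨h1, h2, h3⟩ ⟨h4, h5, h6⟩
    refine ⟨(norm_mul_le _ _).trans (mul_le_one₀ h1 (norm_nonneg _) h4),
      (norm_mul_le _ _).trans (mul_le_one₀ h2 (norm_nonneg _) h5), ?_⟩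
    change ‖a * c - b * d‖ ≤ ε
    rw [show a * c - b * d = a * (c - d) + (a - b) * d by ring]
    refine (IsUltrametricDist.norm_add_le_max _ _).trans (max_le ?_ ?_)
    · exact (norm_mul_le _ _).trans ((mul_le_of_le_one_left (norm_nonneg _) h1).trans h6)
    · exact (norm_mul_le _ _).trans ((mul_le_of_le_one_right (norm_nonneg _) h5).trans h3)
  one_mem' := ⟨by simp, by simp, by simpa using h⟩
  add_mem' := by
    rintro ⟨a, b⟩ ⟨c, d⟩ ⟨h1, h2, h3⟩ ⟨h4, h5, h6⟩
    refine ⟨(IsUltrametricDist.norm_add_le_max _ _).trans (max_le h1 h4),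
      (IsUltrametricDist.norm_add_le_max _ _).trans (max_le h2 h5), ?_⟩
    change ‖a + c - (b + d)‖ ≤ ε
    rw [show a + c - (b + d) = (a - b) + (c - d) by ring]
    exact (IsUltrametricDist.norm_add_le_max _ _).trans (max_le h3 h6)
  zero_mem' := ⟨by simp, by simp, by simpa using h⟩
  neg_mem' := by
    rintro ⟨a, b⟩ ⟨h1, h2, h3⟩
    refine ⟨(norm_neg _).trans_le h1, (norm_neg _).trans_le h2, ?_⟩
    change ‖-a - -b‖ ≤ ε
    rw [show -a - -b = -(a - b) by ring, norm_neg]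
    exact h3

theorem lip {σ Ω : Type} [CommRing Ω] (ι : Ω →+* F) (P : MvPolynomial σ Ω)
    (hP : ∀ m, ‖ι (coeff m P)‖ ≤ 1) (x y : σ → F) (ε : ℝ) (h : 0 ≤ ε) (hx : ∀ s, ‖x s‖ ≤ 1)
    (hy : ∀ s, ‖y s‖ ≤ 1) (hxy : ∀ s, ‖x s - y s‖ ≤ ε) :
    ‖eval₂ ι x P‖ ≤ 1 ∧ ‖eval₂ ι x P - eval₂ ι y P‖ ≤ ε := by
  obtain h1 : eval₂ (ι.prod ι) (fun s => (x s, y s)) P ∈ cl F ε h := by
    refine eval₂_mem (fun m _ => ?_) fun s => ?_
    · exact ⟨hP m, hP m, by simpa using h⟩
    · exact ⟨hx s, hy s, hxy s⟩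
  obtain h2 : (eval₂ (ι.prod ι) (fun s => (x s, y s)) P).1 = eval₂ ι x P :=
    eval₂_comp_left (RingHom.fst F F) _ _ P
  obtain h3 : (eval₂ (ι.prod ι) (fun s => (x s, y s)) P).2 = eval₂ ι y P :=
    eval₂_comp_left (RingHom.snd F F) _ _ P
  rw [← h2, ← h3]
  exact ⟨h1.1, h1.2.2⟩

theorem ev_le {σ Ω : Type} [CommRing Ω] (ι : Ω →+* F) (P : MvPolynomial σ Ω)
    (hP : ∀ m, ‖ι (coeff m P)‖ ≤ 1) (x : σ → F) (hx : ∀ s, ‖x s‖ ≤ 1) : ‖eval₂ ι x P‖ ≤ 1 :=
  (lip ι P hP x x 0 le_rfl hx hx (by simp)).1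

/-- Polynomials with integral coefficients. -/
def in1 (σ F : Type) [NormedField F] [IsUltrametricDist F] : Subring (MvPolynomial σ F) where
  carrier := {P | In1 P}
  mul_mem' := by
    classical
    intro a b ha hb m
    rw [coeff_mul]
    exact IsUltrametricDist.norm_sum_le_of_forall_le_of_nonneg zero_le_one fun _ _ =>
      (norm_mul_le _ _).trans (mul_le_one₀ (ha _) (norm_nonneg _) (hb _))
  one_mem' := by
    classical
    intro m
    rw [coeff_one]
    split_ifs <;> simp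
  add_mem' := fun ha hb m => by
    rw [coeff_add]
    exact (IsUltrametricDist.norm_add_le_max _ _).trans (max_le (ha m) (hb m))
  zero_mem' := fun m => by simp
  neg_mem' := fun ha m => by
    rw [coeff_neg, norm_neg]
    exact ha m

theorem in1_mon {σ : Type} (m : σ →₀ ℕ) (c : F) (h : ‖c‖ ≤ 1) : monomial m c ∈ in1 σ F := by
  classical
  intro n
  rw [coeff_monomial]
  split_ifs
  · exact h
  · simp

theorem in1_X {σ : Type} (s : σ) : X s ∈ in1 σ F := in1_mon _ _ norm_one.le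

theorem in1_aeval {σ τ : Type} (g : σ → MvPolynomial τ F) (hg : ∀ s, g s ∈ in1 τ F)
    (P : MvPolynomial σ F) (hP : In1 P) : aeval g P ∈ in1 τ F :=
  eval₂_mem (fun m _ => in1_mon 0 _ (hP m)) hg

theorem in1_rename {σ τ : Type} (g : σ → τ) (P : MvPolynomial σ F) (hP : In1 P) :
    rename g P ∈ in1 τ F := by
  rw [rename_eq_aeval]
  exact in1_aeval _ (fun _ => in1_X _) P hP

omit [IsUltrametricDist F] in
theorem mon_le {σ : Type} [Fintype σ] [DecidableEq σ] (x : σ → F) (o : σ) (ρ : ℝ)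
    (hx : ∀ s ≠ o, ‖x s‖ ≤ ρ) (b : σ →₀ ℕ) :
    ‖b.prod fun i k => x i ^ k‖ ≤ ‖x o‖ ^ b o * ρ ^ (b.degree - b o) := by
  rw [Finsupp.prod_fintype _ _ (by simp), ← Finset.mul_prod_erase _ _ (Finset.mem_univ o),
    Finsupp.degree_eq_sum, ← Finset.add_sum_erase _ _ (Finset.mem_univ o), Nat.add_sub_cancel_left,
    norm_mul, norm_pow, norm_prod, ← Finset.prod_pow_eq_pow_sum]
  refine mul_le_mul_of_nonneg_left (Finset.prod_le_prod (fun _ _ => norm_nonneg _) fun s hs => ?_)
    (by positivity)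
  rw [norm_pow]
  exact pow_le_pow_left₀ (norm_nonneg _) (hx s (Finset.ne_of_mem_erase hs)) _

omit [IsUltrametricDist F] in
theorem root_near [IsAlgClosed F] (f : Polynomial F) (hf : f.Monic) (hd : 0 < f.natDegree) (x : F)
    (r : ℝ) (hr : 0 ≤ r) (h : ‖f.eval x‖ ≤ r ^ f.natDegree) : ∃ a ∈ f.roots, ‖x - a‖ ≤ r := by
  by_contra hc
  push Not at hc
  obtain hs : f.Splits := IsAlgClosed.splits f
  obtain hn : f.roots.card = f.natDegree := hs.natDegree_eq_card_roots.symm
  rw [hs.eval_eq_prod_roots_of_monic hf, ← hn] at h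
  refine absurd h (not_le.2 ?_)
  rw [← hn] at hd
  generalize f.roots = s at hc hd
  obtain key : ∀ s : Multiset F, (∀ a ∈ s, r < ‖x - a‖) → 0 < ‖(s.map (x - ·)).prod‖ ∧
      r ^ s.card ≤ ‖(s.map (x - ·)).prod‖ ∧ (0 < s.card → r ^ s.card < ‖(s.map (x - ·)).prod‖) := by
    intro s
    induction s using Multiset.induction_on with
    | empty => simp
    | cons a s ih =>
      intro h
      obtain h1 := h a (Multiset.mem_cons_self _ _)
      obtain h2 := (ih fun b hb => h b (Multiset.mem_cons_of_mem hb))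
      obtain h3 : r ^ (a ::ₘ s).card < ‖((a ::ₘ s).map (x - ·)).prod‖ := by
        rw [Multiset.map_cons, Multiset.prod_cons, norm_mul, Multiset.card_cons, pow_succ']
        exact (mul_le_mul_of_nonneg_left h2.2.1 hr).trans_lt (mul_lt_mul_of_pos_right h1 h2.1)
      exact ⟨(pow_nonneg hr _).trans_lt h3, h3.le, fun _ => h3⟩
  exact (key s hc).2.2 hd

end nrm

/-- Homogeneous of degree `m` and monic in the variable `o`. -/
def Tm {σ A : Type} [CommRing A] (o : σ) (m : ℕ) (χ : MvPolynomial σ A) : Prop :=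
  χ.IsHomogeneous m ∧ coeff (Finsupp.single o m) χ = 1

section tm
variable {σ A : Type} [Fintype σ] [DecidableEq σ] [CommRing A] {o : σ} {m : ℕ}
  {χ : MvPolynomial σ A}

theorem Tm.lt (h : Tm o m χ) {b : σ →₀ ℕ} (hb : coeff b χ ≠ 0) :
    b.degree = m ∧ b o ≤ m ∧ (b o = m → b = Finsupp.single o m) := by
  obtain h1 : b.degree = m := by
    by_contra hc
    exact hb (h.1.coeff_eq_zero hc)
  refine ⟨h1, h1 ▸ Finsupp.le_degree o b, fun h2 => ?_⟩
  rw [Finsupp.degree_eq_sum, ← Finset.add_sum_erase _ _ (Finset.mem_univ o), h2,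
    Nat.add_eq_left, Finset.sum_eq_zero_iff] at h1
  ext s
  by_cases hs : s = o
  · rw [hs, h2, Finsupp.single_eq_same]
  · rw [h1 s (by simpa using hs), Finsupp.single_eq_of_ne hs]

theorem Tm.top (h : Tm o m χ) : weightedTotalDegree (Pi.single o 1 : σ → ℕ) χ ≤ m ∧
    weightedHomogeneousComponent (Pi.single o 1 : σ → ℕ) m χ = monomial (Finsupp.single o m) 1 := by
  refine ⟨Finset.sup_le fun b hb => ?_, ?_⟩
  · rw [Finsupp.weight_single_one_apply]
    exact (h.lt (mem_support_iff.1 hb)).2.1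
  · ext b
    rw [coeff_weightedHomogeneousComponent, Finsupp.weight_single_one_apply, coeff_monomial]
    by_cases hb : Finsupp.single o m = b
    · rw [if_pos hb, ← hb, Finsupp.single_eq_same, if_pos rfl, h.2]
    · rw [if_neg hb]
      split_ifs with h1
      · by_contra hc
        exact hb ((h.lt hc).2.2 h1).symm
      · rfl

theorem Tm.fl (h : Tm o m χ) (p : ℕ) [Fact p.Prime] {A' : Type} [CommRing A'] (β : A → A')
    (hβ : β 1 = 1) (t : A') (N : ℕ) [Nontrivial A] : Tm o (p ^ N * m) (fl p β t N χ) := by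
  classical
  refine ⟨(fls p).2.2.2.2.1 _ _ _ _ β t N χ 1 m h.1, ?_⟩
  obtain h1 := congrArg (coeff (Finsupp.single o (p ^ N * m)))
    (FL.fl_top p β t N χ _ m h.top.1).2
  rw [coeff_weightedHomogeneousComponent, Finsupp.weight_single_one_apply, Finsupp.single_eq_same,
    if_pos rfl, h.top.2] at h1
  rw [h1, Cu.fl, support_monomial, if_neg one_ne_zero, FL.asum_single,
    coeff_monomial, if_pos rfl, hβ, monomial_pow, one_pow, Finsupp.smul_single, smul_eq_mul,
    coeff_monomial, if_pos rfl]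

theorem Tm.norm (h : Tm o m χ) {F : Type} [NormedField F] [IsUltrametricDist F] (ι : A →+* F)
    (κ ρ : ℝ) (hκ : 0 ≤ κ) (hρ : 0 ≤ ρ) (hc : ∀ b, ‖ι (coeff b χ)‖ ≤ κ ^ (m - b o)) (x : σ → F)
    (hx : ∀ s ≠ o, ‖x s‖ ≤ ρ) (ho : κ * ρ < ‖x o‖) : ‖eval₂ ι x χ‖ = ‖x o‖ ^ m := by
  obtain h0 : 0 < ‖x o‖ := (mul_nonneg hκ hρ).trans_lt ho
  obtain hq : κ * ρ / ‖x o‖ < 1 := (div_lt_one h0).2 ho
  obtain hq0 : 0 ≤ κ * ρ / ‖x o‖ := by positivity
  obtain h1 : eval₂ ι x χ = x o ^ m + eval₂ ι x (χ - monomial (Finsupp.single o m) 1) := by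
    rw [eval₂_sub, eval₂_monomial, map_one, one_mul,
      Finsupp.prod_single_index (h := fun n e => x n ^ e) (pow_zero _)]
    ring
  obtain h2 : ‖eval₂ ι x (χ - monomial (Finsupp.single o m) 1)‖ ≤
      ‖x o‖ ^ m * (κ * ρ / ‖x o‖) := by
    rw [eval₂_eq]
    refine IsUltrametricDist.norm_sum_le_of_forall_le_of_nonneg (by positivity) fun b hb => ?_
    rw [mem_support_iff] at hb
    rw [coeff_sub, coeff_monomial] at hb ⊢
    obtain hb' : Finsupp.single o m ≠ b := by
      rintro rfl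
      exact hb (by rw [if_pos rfl, h.2, sub_self])
    rw [if_neg hb', sub_zero] at hb ⊢
    obtain ⟨h3, h4, h5⟩ := h.lt hb
    obtain ⟨j, hj⟩ : ∃ j, m = b o + (j + 1) :=
      Nat.exists_eq_add_of_lt (lt_of_le_of_ne h4 fun h6 => hb' (h5 h6).symm)
    refine (norm_mul_le _ _).trans ((mul_le_mul (hc b) (mon_le x o ρ hx b) (norm_nonneg _)
      (by positivity)).trans ?_)
    rw [h3, hj, Nat.add_sub_cancel_left]
    refine le_trans (le_of_eq ?_) (mul_le_mul_of_nonneg_left
      (pow_le_of_le_one hq0 hq.le (Nat.succ_ne_zero j)) (by positivity))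
    rw [div_pow, mul_pow, pow_add ‖x o‖, Nat.succ_eq_add_one]
    field_simp
  obtain h3 : ‖eval₂ ι x (χ - monomial (Finsupp.single o m) 1)‖ < ‖x o ^ m‖ :=
    h2.trans_lt (by rw [norm_pow]; exact mul_lt_of_lt_one_right (by positivity) hq)
  rw [h1, IsUltrametricDist.norm_add_eq_max_of_norm_ne_norm h3.ne', max_eq_left h3.le, norm_pow]

end tm

section tp
variable {σ A R : Type} [CommRing A] [CommRing R] (φ : A →+* R) (v : σ → R) (w : σ → ℕ)

/-- A polynomial in one variable, graded by `w`. -/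
noncomputable def tp : MvPolynomial σ A →+* Polynomial R :=
  eval₂Hom (Polynomial.C.comp φ) fun s => Polynomial.C (v s) * Polynomial.X ^ w s

theorem tp_mon (m : σ →₀ ℕ) (a : A) : tp φ v w (monomial m a) =
    Polynomial.monomial (Finsupp.weight w m) (eval₂ φ v (monomial m a)) := by
  rw [tp, eval₂Hom_monomial, eval₂_monomial, ← Polynomial.C_mul_X_pow_eq_monomial, Finsupp.prod,
    Finsupp.prod, Finsupp.weight_apply, Finsupp.sum, ← Finset.prod_pow_eq_pow_sum, map_mul,
    map_prod, mul_assoc, ← Finset.prod_mul_distrib]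
  congr 1
  refine Finset.prod_congr rfl fun s _ => ?_
  rw [mul_pow, map_pow, ← pow_mul, smul_eq_mul, mul_comm (w s)]

theorem tp_coeff (P : MvPolynomial σ A) (k : ℕ) :
    (tp φ v w P).coeff k = eval₂ φ v (weightedHomogeneousComponent w k P) := by
  conv_lhs => rw [P.as_sum]
  conv_rhs => rw [P.as_sum]
  rw [map_sum, map_sum, Polynomial.finsetSum_coeff, eval₂_sum]
  refine Finset.sum_congr rfl fun m _ => ?_
  rw [tp_mon, Polynomial.coeff_monomial,
    weightedHomogeneousComponent_of_mem (isWeightedHomogeneous_monomial w m _ rfl)]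
  by_cases h : Finsupp.weight w m = k
  · rw [if_pos h, if_pos h.symm]
  · rw [if_neg h, if_neg (Ne.symm h), eval₂_zero]

theorem tp_deg (P : MvPolynomial σ A) (e : ℕ) (h : weightedTotalDegree w P ≤ e) :
    (tp φ v w P).natDegree ≤ e :=
  Polynomial.natDegree_le_iff_coeff_eq_zero.2 fun k hk => by
    rw [tp_coeff, weightedHomogeneousComponent_eq_zero k P (h.trans_lt hk), eval₂_zero]

theorem tp_eval {R' : Type} [CommRing R'] (ψ : R →+* R') (y : R') (P : MvPolynomial σ A) :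
    (tp φ v w P).eval₂ ψ y = eval₂ (ψ.comp φ) (fun s => ψ (v s) * y ^ w s) P := by
  refine (eval₂_comp_left (Polynomial.eval₂RingHom ψ y) _ _ P).trans ?_
  congr 1
  · ext a
    simp
  · funext s
    simp

theorem Tm.monic [Fintype σ] [DecidableEq σ] [Nontrivial R] {o : σ} {m : ℕ} {χ : MvPolynomial σ A}
    (h : Tm o m χ) (hv : v o = 1) :
    (tp φ v (Pi.single o 1) χ).Monic ∧ (tp φ v (Pi.single o 1) χ).natDegree = m := by
  obtain h1 : (tp φ v (Pi.single o 1) χ).coeff m = 1 := by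
    rw [tp_coeff, h.top.2, eval₂_monomial, map_one, one_mul,
      Finsupp.prod_single_index (h := fun n e => v n ^ e) (pow_zero _), hv, one_pow]
  obtain h2 := tp_deg φ v _ χ m h.top.1
  exact ⟨Polynomial.monic_of_natDegree_le_of_coeff_eq_one m h2 h1,
    Polynomial.natDegree_eq_of_le_of_coeff_ne_zero h2 (h1.trans_ne one_ne_zero)⟩

end tp

section flr
variable (p : ℕ) [Fact p.Prime] {σ τ Ω A : Type} [CommRing Ω] [CommRing A] (β : Ω → A) (t : A)
  (N : ℕ)

theorem fl_rename (f : σ → τ) (hf : Function.Injective f) (P : MvPolynomial σ Ω) :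
    fl p β t N (rename f P) = rename f (fl p β t N P) := by
  classical
  refine Eq.trans ?_ (FL.map_asum p (rename f : MvPolynomial σ A →ₐ[A] _).toRingHom _ _ _ _).symm
  rw [fl, support_rename_of_injective hf, asum, asum,
    Finset.sum_image fun _ _ _ _ h => Finsupp.mapDomain_injective hf h]
  simp [coeff_rename_mapDomain f hf, rename_monomial]

theorem fl_mul_X (s : σ) (P : MvPolynomial σ Ω) :
    fl p β t N (P * X s) = fl p β t N P * X s ^ p ^ N := by
  rw [fl, fl, mul_comm _ (X s ^ p ^ N), ← FL.asum_mul, support_mul_X, asum, asum, Finset.sum_map]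
  simp [X, monomial_mul, add_comm]

theorem eval_scale {F : Type} [CommRing F] (φ : A →+* F) (P : MvPolynomial σ A) (e : ℕ)
    (h : P.IsHomogeneous e) (c : F) (x : σ → F) :
    eval₂ φ (fun s => c * x s) P = c ^ e * eval₂ φ x P := by
  rw [eval₂_eq, eval₂_eq, Finset.mul_sum]
  refine Finset.sum_congr rfl fun m hm => ?_
  rw [h.degree_eq_sum_deg_support hm, ← Finset.prod_pow_eq_pow_sum, mul_left_comm,
    ← Finset.prod_mul_distrib]
  simp only [mul_pow]

end flr

end Pool.Agent.MP_855f4c_ag.Cu.CVv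

end

section

/-! h92c: from algebras over `F[X]` to function fields with a coordinate. -/

open MvPolynomial

namespace Pool.Agent.MP_855f4c_ag.Cu.CVv

/-- The exponent of `Z ^ j X₁ ^ k X₀ ^ l`. -/
noncomputable def ex (j k l : ℕ) : Option (Fin 2) →₀ ℕ :=
  Finsupp.single none j + Finsupp.single (some 1) k + Finsupp.single (some 0) l

theorem bd_of {F K : Type} [NormedField F] [IsUltrametricDist F] [Field K] [Algebra F K]
    [Algebra (Polynomial F) K] [IsScalarTower F (Polynomial F) K] (w : ℕ) (z : K)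
    (h : Pt.Bd F w z) : Bd F (algebraMap (Polynomial F) K Polynomial.X) w z := by
  classical
  obtain ⟨χ, hm, h0, h1, h2⟩ := h
  obtain hd : 0 < χ.natDegree := by
    refine Nat.pos_of_ne_zero fun h => ?_
    rw [hm.natDegree_eq_zero.1 h, map_one] at h0
    exact one_ne_zero h0
  obtain hn : ∀ j k l, ex j k l none = j := fun j k l => by simp [ex]
  refine ⟨χ.natDegree, ∑ j ∈ Finset.range (χ.natDegree + 1),
    ∑ k ∈ Finset.range (w * (χ.natDegree - j) + 1),
      monomial (ex j k (w * (χ.natDegree - j) - k)) ((χ.coeff j).coeff k), ⟨hd, ?_, ?_, ?_⟩, ?_, ?_⟩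
  · refine IsWeightedHomogeneous.sum _ _ _ fun j hj => IsWeightedHomogeneous.sum _ _ _ fun k hk =>
      isWeightedHomogeneous_monomial _ _ _ ?_
    rw [Finset.mem_range, Nat.lt_succ_iff] at hj hk
    obtain ⟨i, hi⟩ := Nat.exists_eq_add_of_le hj
    rw [ex, map_add, map_add, Finsupp.weight_single, Finsupp.weight_single, Finsupp.weight_single]
    rw [hi, Nat.add_sub_cancel_left] at hk ⊢
    simp only [Option.elim, smul_eq_mul, mul_one, mul_add, mul_comm j w]
    omega
  · rw [Finset.sum_range_succ, coeff_add, coeff_sum, Finset.sum_eq_zero, zero_add, Nat.sub_self,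
      mul_zero, zero_add, Finset.sum_range_one, hm.coeff_natDegree, coeff_monomial,
      if_pos (by simp [ex]), Polynomial.coeff_one_zero]
    intro j hj
    rw [coeff_sum]
    refine Finset.sum_eq_zero fun k _ => ?_
    rw [coeff_monomial, if_neg]
    intro h
    obtain h3 := congrArg (· none) h
    simp only [hn, Finsupp.single_eq_same] at h3
    exact (Finset.mem_range.1 hj).ne h3
  · refine degreeOf_le_iff.2 fun m hm => ?_
    obtain ⟨j, hj, hm⟩ := Finset.mem_biUnion.1 (support_sum hm)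
    obtain ⟨k, -, hm⟩ := Finset.mem_biUnion.1 (support_sum hm)
    rw [Finset.mem_singleton.1 (support_monomial_subset hm), hn]
    exact Nat.lt_succ_iff.1 (Finset.mem_range.1 hj)
  · exact (in1 _ F).sum_mem fun j _ => (in1 _ F).sum_mem fun k _ => in1_mon _ _ (h1 j k)
  · rw [← h0, Polynomial.aeval_eq_sum_range, map_sum]
    refine Finset.sum_congr rfl fun j _ => ?_
    rw [map_sum, Algebra.smul_def]
    conv_rhs => rw [(χ.coeff j).as_sum_range_C_mul_X_pow' (Nat.lt_succ_of_le (h2 j))]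
    rw [map_sum, Finset.sum_mul]
    refine Finset.sum_congr rfl fun k _ => ?_
    rw [aeval_monomial, ex, Finsupp.prod_add_index' (by simp) (fun _ _ _ => pow_add _ _ _),
      Finsupp.prod_add_index' (by simp) (fun _ _ _ => pow_add _ _ _), map_mul, map_pow,
      Polynomial.C_eq_algebraMap, ← IsScalarTower.algebraMap_apply]
    simp [pt3, mul_comm, mul_left_comm]

theorem ff_of {F K : Type} [Field F] [Field K] [Algebra F K] [Algebra (Polynomial F) K]
    [IsScalarTower F (Polynomial F) K] [Algebra (RatFunc F) K]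
    [IsScalarTower (Polynomial F) (RatFunc F) K] [FiniteDimensional (RatFunc F) K]
    [Algebra.IsSeparable (RatFunc F) K] : FF F (algebraMap (Polynomial F) K Polynomial.X) ∧
      Algebra.IsSeparable
        (IntermediateField.adjoin F {algebraMap (Polynomial F) K Polynomial.X}) K := by
  obtain h1 : ∀ f : Polynomial F, Polynomial.aeval (algebraMap (Polynomial F) K Polynomial.X) f =
      algebraMap (Polynomial F) K f := fun f => by
    rw [Polynomial.aeval_algebraMap_apply, Polynomial.aeval_X_left_apply]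
  obtain h2 : ∀ f : Polynomial F, algebraMap (Polynomial F) K f ∈
      IntermediateField.adjoin F {algebraMap (Polynomial F) K Polynomial.X} := fun f =>
    h1 f ▸ IntermediateField.algebra_adjoin_le_adjoin F _
      (Polynomial.aeval_mem_adjoin_singleton F _)
  obtain h3 : ∀ f : RatFunc F, algebraMap (RatFunc F) K f ∈
      IntermediateField.adjoin F {algebraMap (Polynomial F) K Polynomial.X} := fun f => by
    rw [← f.num_div_denom, map_div₀, ← IsScalarTower.algebraMap_apply,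
      ← IsScalarTower.algebraMap_apply]
    exact div_mem (h2 _) (h2 _)
  let _ := ((algebraMap (RatFunc F) K).codRestrict _ h3).toAlgebra
  have : IsScalarTower (RatFunc F)
      (IntermediateField.adjoin F {algebraMap (Polynomial F) K Polynomial.X}) K :=
    IsScalarTower.of_algebraMap_eq fun _ => rfl
  refine ⟨⟨transcendental_iff.2 fun f hf => ?_,
    Module.Finite.of_restrictScalars_finite (RatFunc F) _ _⟩,
    Algebra.isSeparable_tower_top_of_isSeparable (RatFunc F) _ _⟩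
  rw [h1, IsScalarTower.algebraMap_apply (Polynomial F) (RatFunc F) K, map_eq_zero] at hf
  exact RatFunc.algebraMap_injective F (hf.trans (map_zero _).symm)

end Pool.Agent.MP_855f4c_ag.Cu.CVv

end

section

/-! h92c: solutions of the tower lie in the tube. -/

open MvPolynomial

namespace Pool.Agent.MP_855f4c_ag.Cu.CVv

theorem evc {σ τ Ω F : Type} [CommRing Ω] [CommRing F] (ι : Ω →+* F) (z : τ → F)
    (g : σ → MvPolynomial τ Ω) (Φ : MvPolynomial σ Ω) :
    eval₂ ι z (aeval g Φ) = eval₂ ι (fun s => eval₂ ι z (g s)) Φ := by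
  refine (map_aeval g (eval₂Hom ι z) Φ).trans ?_
  rw [algebraMap_eq, eval₂Hom_comp_C]
  rfl

variable {p : ℕ} [Fact p.Prime]

theorem pi_lt : 0 < ‖(p : PadicAlgCl p)‖ ∧ ‖(p : PadicAlgCl p)‖ < 1 := by
  rw [← map_natCast (algebraMap ℚ_[p] (PadicAlgCl p)), PadicAlgCl.norm_extends]
  exact ⟨norm_pos_iff.2 (Nat.cast_ne_zero.2 (Fact.out : p.Prime).ne_zero), Padic.norm_p_lt_one⟩

theorem pi_le {a b : ℕ} (h : a ≤ b) : ‖(p : PadicAlgCl p)‖ ^ b ≤ ‖(p : PadicAlgCl p)‖ ^ a :=
  pow_le_pow_of_le_one (norm_nonneg _) pi_lt.2.le h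

theorem pN (N : ℕ) : p ^ N ≠ 0 := pow_ne_zero N (Fact.out : p.Prime).ne_zero

variable {F F' : Type} [NormedField F] [NormedField F'] (T : Tl p F F')

theorem nβ (c : PadicAlgCl p) : ‖T.β c‖ = ‖c‖ := by
  rw [← T.sh_norm, Tl.β, T.sh_rt, T.ι_norm]

theorem β1 : T.β 1 = 1 := by rw [Tl.β, T.rt_one, map_one]

theorem AP {σ : Type} (P : MvPolynomial σ (PadicAlgCl p)) (x : σ → F) (c : F) (N : ℕ)
    (hP : In1 P) (h : ∀ m ∈ P.support, ‖c * m.prod fun i k => x i ^ k‖ ≤ 1) :
    (‖c‖ * ‖eval₂ T.ι (T.sh ∘ x) P‖) ^ p ^ N ≤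
      max (‖c‖ ^ p ^ N * ‖eval x (fl p T.β (T.β p) N P)‖) (‖(p : PadicAlgCl p)‖ ^ (N * p ^ N)) ∧
    ‖c‖ ^ p ^ N * ‖eval x (fl p T.β (T.β p) N P)‖ ≤
      max ((‖c‖ * ‖eval₂ T.ι (T.sh ∘ x) P‖) ^ p ^ N) (‖(p : PadicAlgCl p)‖ ^ (N * p ^ N)) := by
  obtain h1 := T.ap2 _ P.support (fun m => c * (T.β (coeff m P) * m.prod fun i k => x i ^ k)) N
    fun m hm => by
      rw [mul_left_comm, norm_mul, nβ]
      exact mul_le_one₀ (hP m) (norm_nonneg _) (h m hm)
  obtain h2 : ∑ m ∈ P.support, T.sh (c * (T.β (coeff m P) * m.prod fun i k => x i ^ k)) =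
      T.sh c * eval₂ T.ι (T.sh ∘ x) P := by
    rw [eval₂_eq, Finset.mul_sum]
    refine Finset.sum_congr rfl fun m _ => ?_
    rw [map_mul, map_mul, Tl.β, T.sh_rt, Finsupp.prod, map_prod]
    simp only [map_pow, Function.comp_apply]
  rw [h2, FL.asum_mul, norm_mul, norm_mul, T.sh_norm, norm_pow] at h1
  rw [← eval₂_id, FL.eval_fl]
  exact h1

theorem mon1 {σ : Type} (x : σ → F) (hx : ∀ s, ‖x s‖ ≤ 1) (m : σ →₀ ℕ) :
    ‖(1 : F) * m.prod fun i k => x i ^ k‖ ≤ 1 := by
  rw [one_mul, Finsupp.prod, norm_prod]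
  exact Finset.prod_le_one (fun _ _ => norm_nonneg _) fun s _ => by
    rw [norm_pow]
    exact pow_le_one₀ (norm_nonneg _) (hx s)

theorem ap_zero {σ : Type} (P : MvPolynomial σ (PadicAlgCl p)) (x : σ → F) (c : F) (N : ℕ)
    (hP : In1 P) (h : ∀ m ∈ P.support, ‖c * m.prod fun i k => x i ^ k‖ ≤ 1)
    (h0 : eval x (fl p T.β (T.β p) N P) = 0) :
    ‖c‖ * ‖eval₂ T.ι (T.sh ∘ x) P‖ ≤ ‖(p : PadicAlgCl p)‖ ^ N := by
  obtain h1 := (AP T P x c N hP h).1
  rw [h0, norm_zero, mul_zero, max_eq_right (by positivity), pow_mul] at h1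
  exact (pow_le_pow_iff_left₀ (by positivity) (by positivity) (pN N)).1 h1

theorem ap_le {σ : Type} (P : MvPolynomial σ (PadicAlgCl p)) (x : σ → F) (N : ℕ) (hP : In1 P)
    (hx : ∀ s, ‖x s‖ ≤ 1) (h : ‖eval₂ T.ι (T.sh ∘ x) P‖ ≤ ‖(p : PadicAlgCl p)‖ ^ N) :
    ‖eval x (fl p T.β (T.β p) N P)‖ ≤ ‖(p : PadicAlgCl p)‖ ^ (N * p ^ N) := by
  obtain h1 := (AP T P x 1 N hP fun m _ => mon1 x hx m).2
  rw [norm_one, one_pow, one_mul, one_mul] at h1
  refine h1.trans (max_le ?_ le_rfl)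
  rw [pow_mul]
  exact pow_le_pow_left₀ (norm_nonneg _) h _

theorem ap_ge {σ : Type} (P : MvPolynomial σ (PadicAlgCl p)) (x : σ → F) (N K : ℕ) (hP : In1 P)
    (hx : ∀ s, ‖x s‖ ≤ 1) (hK : K < N)
    (h : ‖(p : PadicAlgCl p)‖ ^ (K * p ^ N) ≤ ‖eval x (fl p T.β (T.β p) N P)‖) :
    ‖(p : PadicAlgCl p)‖ ^ K ≤ ‖eval₂ T.ι (T.sh ∘ x) P‖ := by
  obtain h1 := (AP T P x 1 N hP fun m _ => mon1 x hx m).2
  rw [norm_one, one_pow, one_mul, one_mul] at h1
  rcases le_max_iff.1 (h.trans h1) with h2 | h2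
  · rw [pow_mul] at h2
    exact (pow_le_pow_iff_left₀ (by positivity) (by positivity) (pN N)).1 h2
  · exact absurd h2 (not_le.2 (pow_lt_pow_right_of_lt_one₀ pi_lt.1 pi_lt.2
      (Nat.mul_lt_mul_of_pos_right hK (Nat.pos_of_ne_zero (pN N)))))

theorem inv_max (ξ : F) : ∃ c : F, 0 < ‖c‖ ∧ ‖c‖ ≤ 1 ∧ ‖c‖ * ‖ξ‖ ≤ 1 ∧ ‖c‖ * max 1 ‖ξ‖ = 1 := by
  rcases le_or_gt ‖ξ‖ 1 with h | h
  · exact ⟨1, by simp, by simp, by simpa using h, by simpa using h⟩
  · obtain h1 : ‖ξ⁻¹‖ * ‖ξ‖ = 1 := by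
      rw [norm_inv]
      exact inv_mul_cancel₀ (by positivity)
    exact ⟨ξ⁻¹, by rw [norm_inv]; positivity, by rw [norm_inv]; exact inv_le_one_of_one_le₀ h.le,
      h1.le, by rw [max_eq_right h.le, h1]⟩

variable [IsUltrametricDist F] [IsUltrametricDist F']

omit [IsUltrametricDist F'] in
theorem fl1 {σ : Type} (P : MvPolynomial σ (PadicAlgCl p)) (N : ℕ) (hP : In1 P) :
    In1 (fl p T.β (T.β p) N P) :=
  FL.fl_in1 p _ _ N P ((nβ T p).trans_le pi_lt.2.le) fun m => (nβ T _).trans_le (hP m)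

omit [IsUltrametricDist F] in
theorem sh1 {σ : Type} (P : MvPolynomial σ (PadicAlgCl p)) (hP : In1 P) (z : σ → F)
    (hz : ∀ s, ‖z s‖ ≤ 1) : ‖eval₂ T.ι (T.sh ∘ z) P‖ ≤ 1 :=
  ev_le _ P (fun m => (T.ι_norm _).trans_le (hP m)) _ fun s => (T.sh_norm _).trans_le (hz s)

omit [IsUltrametricDist F'] in
theorem root_le {σ : Type} [Fintype σ] [DecidableEq σ] {o : σ} {m : ℕ} (H : MvPolynomial σ F)
    (h : Tm o m H) (hH : In1 H) (z : σ → F) (hz : ∀ s ≠ o, ‖z s‖ ≤ 1) :
    max 1 ‖z o‖ ^ m = max 1 ‖eval z H‖ := by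
  rcases le_or_gt ‖z o‖ 1 with h1 | h1
  · rw [max_eq_left h1, one_pow, max_eq_left]
    refine ev_le (RingHom.id F) H hH z fun s => ?_
    by_cases hs : s = o
    · exact hs ▸ h1
    · exact hz s hs
  · rw [max_eq_right h1.le, ← eval₂_id, h.norm (RingHom.id F) 1 1 zero_le_one zero_le_one
      (fun b => (hH b).trans_eq (one_pow _).symm) z hz ((one_mul 1).trans_lt h1),
      max_eq_right (one_le_pow₀ h1.le)]

/-- The linear equation for the extra coordinate. -/
noncomputable def Q {Ω : Type} [CommRing Ω] (d A : MvPolynomial (Option (Fin 2)) Ω) :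
    MvPolynomial (Option (Option (Fin 2))) Ω := rename some d * X none - rename some A

theorem Q_top {Ω : Type} [CommRing Ω] (d A : MvPolynomial (Option (Fin 2)) Ω) :
    weightedTotalDegree (Pi.single none 1 : _ → ℕ) (Q d A) ≤ 1 ∧
      weightedHomogeneousComponent (Pi.single none 1 : _ → ℕ) 1 (Q d A) = rename some d * X none := by
  obtain h0 : ∀ P : MvPolynomial (Option (Fin 2)) Ω,
      (rename some P).IsWeightedHomogeneous (Pi.single none 1 : _ → ℕ) 0 := fun P m hm => by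
    obtain ⟨u, rfl, -⟩ := coeff_rename_ne_zero _ _ _ hm
    rw [Finsupp.weight_single_one_apply, Finsupp.mapDomain_of_notMem_range _ _ (by simp)]
  obtain h1 : (rename some d * X none).IsWeightedHomogeneous (Pi.single none 1 : _ → ℕ) 1 :=
    (h0 d).mul (isWeightedHomogeneous_X Ω _ none)
  refine ⟨Finset.sup_le fun m hm => ?_, ?_⟩
  · rcases Finset.mem_union.1 (support_sub _ _ _ hm) with h | h
    · exact (h1 (mem_support_iff.1 h)).le
    · exact ((h0 A) (mem_support_iff.1 h)).trans_le zero_le_one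
  · rw [Q, map_sub, h1.weightedHomogeneousComponent_same,
      (h0 A).weightedHomogeneousComponent_ne 1 one_ne_zero, sub_zero]

omit [IsUltrametricDist F] in
theorem tube1 {N K m : ℕ} (d H A μ B : MvPolynomial (Option (Fin 2)) (PadicAlgCl p))
    (z : Option (Fin 2) → F) (ξ : F) (hz : ∀ s, ‖z s‖ ≤ 1) (hd : In1 d) (hA : In1 A) (hB : In1 B)
    (hμ : Tm none m μ) (hm : 0 < m) (hc : ∀ b, ‖coeff b μ‖ ≤ ‖(p : PadicAlgCl p)‖ ^ (m - b none))
    (hid : aeval (fun o : Option (Fin 2) => o.elim A fun k => d * X (some k)) μ = H * B)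
    (hH : ‖eval₂ T.ι (T.sh ∘ z) H‖ ≤ ‖(p : PadicAlgCl p)‖ ^ N)
    (hK : ‖(p : PadicAlgCl p)‖ ^ K ≤ ‖eval₂ T.ι (T.sh ∘ z) d‖) (hN : (K + 1) * m ≤ N)
    (h0 : eval (fun o => o.elim ξ z) (fl p T.β (T.β p) N (Q d A)) = 0) :
    ‖ξ‖ ≤ ‖(p : PadicAlgCl p)‖ ∧
      ‖eval₂ T.ι (T.sh ∘ z) A - eval₂ T.ι (T.sh ∘ z) d * T.sh ξ‖ ≤ ‖(p : PadicAlgCl p)‖ ^ N := by
  obtain ⟨hp0, hp1⟩ := pi_lt (p := p)
  obtain hQ : In1 (Q d A) := (in1 _ _).sub_mem
    ((in1 _ _).mul_mem (in1_rename _ d hd) (in1_X _)) (in1_rename _ A hA)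
  obtain ⟨c, hc0, hc1, hc2, hc3⟩ := inv_max ξ
  obtain h1 := ap_zero T (Q d A) (fun o => o.elim ξ z) c N hQ (fun b hb => by
    obtain h2 := (le_weightedTotalDegree _ hb).trans (Q_top d A).1
    rw [Finsupp.weight_single_one_apply] at h2
    rw [norm_mul]
    refine (mul_le_mul_of_nonneg_left (mon_le _ none 1 (fun s hs => ?_) b) hc0.le).trans ?_
    · obtain ⟨s, rfl⟩ := Option.ne_none_iff_exists'.1 hs
      exact hz s
    · rw [one_pow, mul_one]
      rcases Nat.le_one_iff_eq_zero_or_eq_one.1 h2 with h | h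
      · rw [h, pow_zero, mul_one]
        exact hc1
      · rw [h, pow_one]
        exact hc2) h0
  obtain h2 : eval₂ T.ι (T.sh ∘ fun o : Option (Option (Fin 2)) => o.elim ξ z) (Q d A) =
      -(eval₂ T.ι (T.sh ∘ z) A - eval₂ T.ι (T.sh ∘ z) d * T.sh ξ) := by
    rw [Q, eval₂_sub, eval₂_mul, eval₂_rename, eval₂_rename, eval₂_X, neg_sub]
    rfl
  rw [h2, norm_neg] at h1
  obtain h3 := congrArg (fun P => ‖eval₂ T.ι (T.sh ∘ z) P‖) hid
  simp only [evc, eval₂_mul, norm_mul] at h3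
  obtain h4 := sh1 T B hB z hz
  generalize eval₂ T.ι (T.sh ∘ z) H = H' at *
  generalize eval₂ T.ι (T.sh ∘ z) B = B' at *
  obtain hNK : ‖(p : PadicAlgCl p)‖ ^ N ≤ ‖(p : PadicAlgCl p)‖ * ‖eval₂ T.ι (T.sh ∘ z) d‖ :=
    (pi_le ((Nat.le_mul_of_pos_right _ hm).trans hN)).trans (by
      rw [pow_succ']
      exact mul_le_mul_of_nonneg_left hK hp0.le)
  obtain h5 : ‖eval₂ T.ι (T.sh ∘ z) A‖ ≤ ‖(p : PadicAlgCl p)‖ * ‖eval₂ T.ι (T.sh ∘ z) d‖ := by
    by_contra hc4
    rw [hμ.norm T.ι _ ‖eval₂ T.ι (T.sh ∘ z) d‖ hp0.le (norm_nonneg _)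
      (fun b => (T.ι_norm _).trans_le (hc b)) _ (fun s hs => ?_) (not_le.1 hc4)] at h3
    · refine hc4 (le_trans ?_ (mul_le_mul_of_nonneg_left hK hp0.le))
      rw [← pow_succ', ← pow_le_pow_iff_left₀ (norm_nonneg _) (by positivity) hm.ne', ← pow_mul]
      exact h3.trans_le (((mul_le_of_le_one_right (norm_nonneg _) h4).trans hH).trans (pi_le hN))
    · obtain ⟨s, rfl⟩ := Option.ne_none_iff_exists'.1 hs
      change ‖eval₂ T.ι (T.sh ∘ z) (d * X (some s))‖ ≤ _
      rw [eval₂_mul, eval₂_X, norm_mul]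
      exact mul_le_of_le_one_right (norm_nonneg _) ((T.sh_norm _).trans_le (hz _))
  obtain hd0 : 0 < ‖eval₂ T.ι (T.sh ∘ z) d‖ := (pow_pos hp0 K).trans_le hK
  generalize eval₂ T.ι (T.sh ∘ z) d = d' at *
  generalize eval₂ T.ι (T.sh ∘ z) A = A' at *
  obtain h6 : ‖A' - d' * T.sh ξ‖ ≤ ‖(p : PadicAlgCl p)‖ ^ N * max 1 ‖ξ‖ := by
    refine le_trans (le_of_eq ?_) (mul_le_mul_of_nonneg_right h1 (by positivity))
    rw [mul_right_comm, hc3, one_mul]
  obtain h7 : ‖d'‖ * ‖ξ‖ ≤ ‖d'‖ * (‖(p : PadicAlgCl p)‖ * max 1 ‖ξ‖) := by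
    rw [← T.sh_norm ξ, ← norm_mul, T.sh_norm ξ,
      show d' * T.sh ξ = A' + -(A' - d' * T.sh ξ) by ring, ← mul_assoc, mul_comm ‖d'‖]
    refine (IsUltrametricDist.norm_add_le_max _ _).trans (max_le ?_ ?_)
    · exact h5.trans (le_mul_of_one_le_right (by positivity) (le_max_left _ _))
    · rw [norm_neg]
      exact h6.trans (mul_le_mul_of_nonneg_right hNK (by positivity))
  obtain h8 := le_of_mul_le_mul_left h7 hd0
  obtain h9 : ‖ξ‖ ≤ 1 := by
    by_contra h
    rw [max_eq_right (not_le.1 h).le] at h8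
    exact absurd h8 (not_le.2 (mul_lt_of_lt_one_left (zero_lt_one.trans (not_le.1 h)) hp1))
  rw [max_eq_left h9, mul_one] at h8 h6
  exact ⟨h8, h6⟩

omit [IsUltrametricDist F] in
theorem tube2 {σ : Type} {N K k e : ℕ} (H B : MvPolynomial (Option (Fin 2)) (PadicAlgCl p))
    (Φ : MvPolynomial σ (PadicAlgCl p)) (g : σ → MvPolynomial (Option (Fin 2)) (PadicAlgCl p))
    (z : Option (Fin 2) → F) (w : σ → F) (D : F') (hz : ∀ s, ‖z s‖ ≤ 1) (hw : ∀ s, ‖w s‖ ≤ 1)
    (hΦ : In1 Φ) (he : Φ.IsHomogeneous e) (hg : ∀ s, In1 (g s)) (hB : In1 B)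
    (hid : aeval g Φ = H * B) (hH : ‖eval₂ T.ι (T.sh ∘ z) H‖ ≤ ‖(p : PadicAlgCl p)‖ ^ N)
    (hK : ‖(p : PadicAlgCl p)‖ ^ K ≤ ‖D‖) (hD : ‖D‖ ≤ 1) (hN : K * e + k ≤ N)
    (hs : ∀ s, ‖eval₂ T.ι (T.sh ∘ z) (g s) - D * T.sh (w s)‖ ≤ ‖(p : PadicAlgCl p)‖ ^ N) :
    ‖eval w (fl p T.β (T.β p) k Φ)‖ ≤ ‖(p : PadicAlgCl p)‖ ^ (k * p ^ k) := by
  obtain ⟨hp0, hp1⟩ := pi_lt (p := p)
  refine ap_le T Φ w k hΦ hw ?_
  obtain h1 := (lip T.ι Φ (fun m => (T.ι_norm _).trans_le (hΦ m)) _
    (fun s => D * (T.sh ∘ w) s) _ (by positivity) (fun s => sh1 T _ (hg s) z hz)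
    (fun s => (norm_mul_le _ _).trans
      (mul_le_one₀ hD (norm_nonneg _) ((T.sh_norm _).trans_le (hw s)))) hs).2
  rw [← evc, hid, eval₂_mul, eval_scale _ Φ e he] at h1
  obtain h2 : ‖D‖ ^ e * ‖eval₂ T.ι (T.sh ∘ w) Φ‖ ≤ ‖(p : PadicAlgCl p)‖ ^ N := by
    rw [← norm_pow, ← norm_mul, ← sub_sub_cancel
      (eval₂ T.ι (T.sh ∘ z) H * eval₂ T.ι (T.sh ∘ z) B) (D ^ e * _), sub_eq_add_neg]
    refine (IsUltrametricDist.norm_add_le_max _ _).trans (max_le ?_ ((norm_neg _).trans_le h1))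
    exact (norm_mul_le _ _).trans
      ((mul_le_of_le_one_right (norm_nonneg _) (sh1 T B hB z hz)).trans hH)
  refine le_of_mul_le_mul_left (a := ‖(p : PadicAlgCl p)‖ ^ (K * e)) ?_ (by positivity)
  rw [← pow_add]
  refine le_trans ?_ (h2.trans (pi_le hN))
  rw [pow_mul]
  exact mul_le_mul_of_nonneg_right (pow_le_pow_left₀ (by positivity) hK e) (norm_nonneg _)

theorem mo_tm {A : Type} [CommRing A] {m : ℕ} {χ : MvPolynomial (Option (Fin 2)) A}
    (h : Mo 1 m χ) : Tm none m χ := by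
  refine ⟨?_, h.2.2.1⟩
  obtain h1 := h.2.1
  rwa [one_mul, show (fun o : Option (Fin 2) => o.elim 1 fun _ => 1) = (1 : Option (Fin 2) → ℕ)
    from funext fun o => by cases o <;> rfl] at h1

omit [IsUltrametricDist F] [IsUltrametricDist F'] in
theorem fl_scale {σ : Type} (P : MvPolynomial σ (PadicAlgCl p)) (e N : ℕ) (h : P.IsHomogeneous e)
    (c : F) (x : σ → F) : eval (fun s => c * x s) (fl p T.β (T.β p) N P) =
      c ^ (p ^ N * e) * eval x (fl p T.β (T.β p) N P) :=
  eval_scale (RingHom.id F) _ _ ((fls p).2.2.2.2.1 _ _ _ _ _ _ N P 1 e h) c x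

theorem tube {r u δ NH N K n n' : ℕ} {J : Fin u → MvPolynomial (CV r) (PadicAlgCl p)}
    {dJ : Fin u → ℕ} {d : MvPolynomial (Fin 2) (PadicAlgCl p)}
    {H : MvPolynomial (Option (Fin 2)) (PadicAlgCl p)}
    {A μ : Fin r → MvPolynomial (Option (Fin 2)) (PadicAlgCl p)} {m : Fin r → ℕ}
    (hd : Tm 1 δ d) (hdI : In1 d) (hH : Mo 1 NH H) (hHI : In1 H)
    (hA : ∀ i, (A i).IsHomogeneous (δ + 1) ∧ In1 (A i) ∧ Mo 1 (m i) (μ i) ∧
      (∀ b, ‖coeff b (μ i)‖ ≤ ‖(p : PadicAlgCl p)‖ ^ (m i - b none)) ∧ ∃ B, In1 B ∧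
        aeval (fun o : Option (Fin 2) => o.elim (A i) fun k => rename some d * X (some k)) (μ i) =
          H * B)
    (hJ : ∀ j, (J j).IsHomogeneous (dJ j) ∧ In1 (J j) ∧ ∃ B, In1 B ∧
      aeval (Sum.elim (fun k => rename some d * X (some k)) A) (J j) = H * B)
    (h1 : K < N) (h2 : ∀ i, (K + 1) * m i + n' ≤ N) (h3 : ∀ j, K * dJ j + n ≤ N) (x y : F)
    (ξ : Fin r → F)
    (e1 : ‖(p : PadicAlgCl p)‖ ^ (K * p ^ N) ≤ ‖eval ![1, x] (fl p T.β (T.β p) N d)‖)
    (e2 : eval (pt3 x y) (fl p T.β (T.β p) N H) = 0)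
    (e3 : ∀ i, eval (fun o => o.elim (ξ i) (pt3 x y))
      (fl p T.β (T.β p) N (Q (rename some d) (A i))) = 0) :
    (∀ i, ‖ξ i‖ ≤ ‖(p : PadicAlgCl p)‖ * max 1 ‖x‖) ∧
    (∀ j, ‖eval (Sum.elim ![1, x] ξ) (fl p T.β (T.β p) n (J j))‖ ≤
      ‖(p : PadicAlgCl p)‖ ^ (n * p ^ n) * max 1 ‖x‖ ^ (p ^ n * dJ j)) ∧
    ∀ i, ‖eval (pt3 x (ξ i)) (fl p T.β (T.β p) n' (μ i))‖ ≤
      ‖(p : PadicAlgCl p)‖ ^ (n' * p ^ n') * max 1 ‖x‖ ^ (p ^ n' * m i) := by
  obtain ⟨hp0, hp1⟩ := pi_lt (p := p)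
  obtain ⟨c, hc0, hc1, hc2, hc3⟩ := inv_max x
  obtain un : ∀ (E : ℕ) (v : F) (b : ℝ), ‖c ^ E * v‖ ≤ b → ‖v‖ ≤ b * max 1 ‖x‖ ^ E := by
    intro E v b h
    refine le_trans (le_of_eq ?_) (mul_le_mul_of_nonneg_right h (by positivity))
    rw [norm_mul, norm_pow, mul_right_comm, ← mul_pow, hc3, one_pow, one_mul]
  obtain hx : ∀ k : Fin 2, ‖c * ![1, x] k‖ ≤ 1 :=
    Fin.forall_fin_two.2 ⟨by simpa using hc1, by simpa using hc2⟩
  obtain e2' : eval (fun o => c * pt3 x y o) (fl p T.β (T.β p) N H) = 0 := by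
    rw [fl_scale T H NH N (mo_tm hH).1, e2, mul_zero]
  obtain hz : ∀ o, ‖c * pt3 x y o‖ ≤ 1 := by
    rintro (_ | k)
    · obtain h := root_le _ ((mo_tm hH).fl p _ (β1 T) (T.β p) N) (fl1 T H N hHI)
        (fun o => c * pt3 x y o) fun s hs => by
          obtain ⟨k, rfl⟩ := Option.ne_none_iff_exists'.1 hs
          exact hx k
      rw [e2', norm_zero, max_eq_left zero_le_one, pow_eq_one_iff_of_nonneg (by positivity)
        (mul_ne_zero (pN N) hH.1.ne')] at h
      exact (le_max_right _ _).trans h.le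
    · exact hx k
  obtain hH' := ap_zero T H _ 1 N hHI (fun b _ => mon1 _ hz b) e2'
  rw [norm_one, one_mul] at hH'
  obtain hdI' : In1 (rename some d) := in1_rename _ d hdI
  obtain hK := ap_ge T (rename some d) _ N K hdI' hz h1 (by
    obtain h := root_le _ (hd.fl p _ (β1 T) (T.β p) N) (fl1 T d N hdI) ![1, x]
      (Fin.forall_fin_two.2 ⟨by simp, by simp⟩)
    rw [fl_scale T _ δ N hd.1.rename_isHomogeneous, fl_rename p _ _ _ _ (Option.some_injective _),
      eval_rename, norm_mul, norm_pow]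
    change _ ≤ _ * ‖eval ![1, x] _‖
    obtain h4 : ‖c‖ ^ (p ^ N * δ) * max 1 ‖eval ![1, x] (fl p T.β (T.β p) N d)‖ = 1 := by
      rw [← h, ← mul_pow]
      exact (congrArg (· ^ _) hc3).trans (one_pow _)
    rcases le_total ‖eval ![1, x] (fl p T.β (T.β p) N d)‖ 1 with h5 | h5
    · rw [max_eq_left h5, mul_one] at h4
      rwa [h4, one_mul]
    · rw [max_eq_right h5] at h4
      rw [h4]
      exact pow_le_one₀ hp0.le hp1.le)
  obtain t1 : ∀ i, ‖c * ξ i‖ ≤ ‖(p : PadicAlgCl p)‖ ∧ _ := fun i => by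
    obtain ⟨a1, a2, a3, a4, B, a5, a6⟩ := hA i
    refine tube1 T (rename some d) H (A i) (μ i) B _ (c * ξ i) hz hdI' a2 a5 (mo_tm a3) a3.1 a4 a6
      hH' hK ((Nat.le_add_right _ _).trans (h2 i)) ?_
    rw [show (fun o : Option (Option (Fin 2)) => o.elim (c * ξ i) fun o => c * pt3 x y o) =
      fun o => c * o.elim (ξ i) (pt3 x y) from funext fun o => by cases o <;> rfl,
      fl_scale T (Q (rename some d) (A i)) (δ + 1) N ((hd.1.rename_isHomogeneous.rename_isHomogeneous.mul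
        (isHomogeneous_X _ _)).sub a1.rename_isHomogeneous), e3, mul_zero]
  obtain t0 : ∀ k : Fin 2, ‖eval₂ T.ι (T.sh ∘ fun o => c * pt3 x y o) (rename some d * X (some k)) -
      eval₂ T.ι (T.sh ∘ fun o => c * pt3 x y o) (rename some d) * T.sh (c * ![1, x] k)‖ ≤
      ‖(p : PadicAlgCl p)‖ ^ N := fun k => by
    rw [eval₂_mul, eval₂_X]
    exact (congrArg norm (sub_self _)).trans_le (norm_zero.trans_le (by positivity))
  obtain hg : ∀ k : Fin 2, In1 (rename some d * X (some k)) := fun k =>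
    (in1 _ _).mul_mem hdI' (in1_X _)
  refine ⟨fun i => ?_, fun j => un _ _ _ ?_, fun i => un _ _ _ ?_⟩
  · simpa using un 1 (ξ i) _ (by simpa using (t1 i).1)
  · obtain ⟨a1, a2, B, a3, a4⟩ := hJ j
    rw [← fl_scale T _ _ n a1]
    exact tube2 T H B (J j) _ _ _ _ hz (Sum.rec hx fun i => (t1 i).1.trans hp1.le) a2 a1
      (Sum.rec hg fun i => (hA i).2.1) a3 a4 hH' hK (sh1 T _ hdI' _ hz) (h3 j)
      (Sum.rec t0 fun i => (t1 i).2)
  · obtain ⟨a1, a2, a3, a4, B, a5, a6⟩ := hA i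
    rw [← fl_scale T _ _ n' (mo_tm a3).1]
    exact tube2 T H B (μ i) _ _ _ _ hz (Option.rec ((t1 i).1.trans hp1.le) hx)
      (fun b => (a4 b).trans (pow_le_one₀ hp0.le hp1.le)) (mo_tm a3).1 (Option.rec a2 hg) a5 a6 hH'
      hK (sh1 T _ hdI' _ hz) (le_trans (by rw [add_mul]; omega) (h2 i)) (Option.rec (t1 i).2 t0)

end Pool.Agent.MP_855f4c_ag.Cu.CVv

end

section

/-! h92c: the curve in the tube. -/

open MvPolynomial

namespace Pool.Agent.MP_855f4c_ag.Cu

namespace CVv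

theorem tp_ev {σ F R : Type} [CommRing F] [CommRing R] (φ : F →+* R) (v : σ → R) (w : σ → ℕ)
    (ψ : R →+* F) (hψ : ψ.comp φ = RingHom.id F) (y : F) (P : MvPolynomial σ F) (z : σ → F)
    (hz : ∀ s, ψ (v s) * y ^ w s = z s) : (tp φ v w P).eval₂ ψ y = eval z P := by
  rw [tp_eval, hψ, funext hz, eval₂_id]

theorem tp_ev1 {F : Type} [CommRing F] (P : MvPolynomial (Fin 2) F) (x : F) :
    (tp (RingHom.id F) (fun _ => 1) (Pi.single 1 1) P).eval x = eval ![1, x] P :=
  tp_ev _ _ _ (RingHom.id F) rfl x P _ (Fin.forall_fin_two.2 ⟨by simp, by simp⟩)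

theorem tp_ev2 {F : Type} [CommRing F] (P : MvPolynomial (Option (Fin 2)) F) (x y : F) :
    (tp (RingHom.id F) (pt3 x 1) (Pi.single none 1) P).eval y = eval (pt3 x y) P :=
  tp_ev _ _ _ (RingHom.id F) rfl y P _ (by rintro (_ | k) <;> simp [pt3])

theorem tp_ev3 {F : Type} [CommRing F] (P : MvPolynomial (Option (Fin 2)) F) (x y : F) :
    (tp Polynomial.C (pt3 Polynomial.X 1) (Pi.single none 1) P).evalEval x y = eval (pt3 x y) P := by
  rw [← Polynomial.eval₂_evalRingHom]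
  refine tp_ev _ _ _ _ (by ext; simp) y P _ ?_
  rintro (_ | k)
  · simp [pt3]
  · fin_cases k <;> simp [pt3]

theorem tp_ev4 {F : Type} [CommRing F] (P : MvPolynomial (Option (Option (Fin 2))) F) (x y z : F) :
    ((tp (Polynomial.C.comp Polynomial.C)
      (fun o => o.elim 1 (pt3 (Polynomial.C Polynomial.X) Polynomial.X)) (Pi.single none 1) P).map
        (Polynomial.evalEvalRingHom x y)).eval z = eval (fun o => o.elim z (pt3 x y)) P := by
  rw [Polynomial.eval_map]
  refine tp_ev _ _ _ _ (by ext; simp) z P _ ?_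
  rintro (_ | _ | k)
  · simp
  · simp [pt3]
  · fin_cases k <;> simp [pt3]

theorem lead {p : ℕ} [Fact p.Prime] {Ω F : Type} [CommRing Ω] [CommRing F] (β : Ω → F) (t : F)
    (N : ℕ) (d : MvPolynomial (Fin 2) Ω) (A : MvPolynomial (Option (Fin 2)) Ω) :
    (tp (Polynomial.C.comp Polynomial.C)
      (fun o => o.elim 1 (pt3 (Polynomial.C Polynomial.X) Polynomial.X)) (Pi.single none 1)
        (fl p β t N (Q (rename some d) A))).natDegree ≤ p ^ N * 1 ∧
    (tp (Polynomial.C.comp Polynomial.C)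
      (fun o => o.elim 1 (pt3 (Polynomial.C Polynomial.X) Polynomial.X)) (Pi.single none 1)
        (fl p β t N (Q (rename some d) A))).coeff (p ^ N * 1) =
      Polynomial.C (tp (RingHom.id F) (fun _ => 1) (Pi.single 1 1) (fl p β t N d)) := by
  obtain ⟨h1, h2⟩ := FL.fl_top p β t N _ _ 1 (Q_top (rename some d) A).1
  refine ⟨tp_deg _ _ _ _ _ h1, ?_⟩
  rw [tp_coeff, h2, (Q_top _ _).2, fl_mul_X, fl_rename p _ _ _ _ (Option.some_injective _),
    fl_rename p _ _ _ _ (Option.some_injective _), eval₂_mul, eval₂_pow, eval₂_X, eval₂_rename,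
    eval₂_rename]
  refine ((congrArg (_ * ·) (one_pow _)).trans (mul_one _)).trans
    (Eq.trans ?_ (eval₂_comp_left Polynomial.C _ _ _).symm)
  congr 1
  funext k
  fin_cases k <;> simp [pt3]

/-- The coordinates of the affine chart. -/
noncomputable def gg (r : ℕ) (F : Type) [CommRing F] : CV r → MvPolynomial (Option (Fin r)) F :=
  Sum.elim ![1, X none] fun i => X (some i)

theorem gg_ev {r : ℕ} {F K : Type} [CommRing F] [CommRing K] (ψ : F →+* K)
    (ζ : Option (Fin r) → K) (P : MvPolynomial (CV r) F) : eval₂ ψ ζ (aeval (gg r F) P) =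
      eval₂ ψ (Sum.elim ![1, ζ none] fun i => ζ (some i)) P := by
  rw [evc]
  congr 1
  funext s
  rcases s with k | i
  · fin_cases k <;> simp [gg]
  · simp [gg]

theorem gg_deg {r : ℕ} {F : Type} [CommRing F] [Nontrivial F] (P : MvPolynomial (CV r) F) (e : ℕ)
    (h : P.IsHomogeneous e) : (aeval (gg r F) P).totalDegree ≤ e := by
  obtain h1 : ∀ s, (gg r F s).totalDegree ≤ 1 := by
    rintro (k | i)
    · fin_cases k <;> simp [gg]
    · simp [gg]
  rw [aeval_def, eval₂_eq]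
  refine totalDegree_finsetSum_le fun m hm => (totalDegree_mul _ _).trans ?_
  rw [algebraMap_eq, totalDegree_C, zero_add, h.degree_eq_sum_deg_support hm]
  exact (totalDegree_finsetProd _ _).trans (Finset.sum_le_sum fun s _ =>
    (totalDegree_pow _ _).trans (mul_le_of_le_one_right' (h1 s)))

theorem gg_in {r : ℕ} {F : Type} [NormedField F] [IsUltrametricDist F] (s : CV r) :
    gg r F s ∈ in1 _ F := by
  rcases s with k | i
  · fin_cases k
    · exact one_mem _
    · exact in1_X _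
  · exact in1_X _

end CVv

open CVv in
theorem curve (hT : Pt.TOW_s) (hC : Pt.CUR_s) : CURVE_s := by
  classical
  intro p _ F F' iF _ _ _ _ _ _ T r u J dJ hCD n
  obtain ⟨d, H, δ, NH, A, μ, m, hδ, hdh, hd0, hd1, hdI, hH, hHI, hA, hJ⟩ := hCD
  obtain ⟨d, rfl⟩ := exists_rename_eq_of_vars_subset_range d some (Option.some_injective _) (by
    rintro (_ | k) hk
    · exact absurd hd0 (mem_vars_iff_degreeOf_ne_zero.1 hk)
    · exact ⟨k, rfl⟩)
  obtain hd : Tm 1 δ d := ⟨(IsHomogeneous.rename_isHomogeneous_iff (Option.some_injective _)).1 hdh,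
    by rwa [← Finsupp.mapDomain_single, coeff_rename_mapDomain _ (Option.some_injective _)] at hd1⟩
  replace hdI : In1 d := fun b =>
    coeff_rename_mapDomain some (Option.some_injective _) d b ▸ hdI _
  obtain ⟨hp0, hp1⟩ := pi_lt (p := p)
  obtain ht : ‖T.β p‖ = ‖(p : PadicAlgCl p)‖ := nβ T p
  obtain ht0 : T.β p ≠ 0 := norm_pos_iff.1 (ht ▸ hp0)
  obtain ⟨n', hn'⟩ : ∃ n', ∀ i, (n * p ^ n + 2) * m i ≤ n' :=
    ⟨_, fun i => Finset.single_le_sum (f := fun i => (n * p ^ n + 2) * m i)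
      (fun _ _ => Nat.zero_le _) (Finset.mem_univ i)⟩
  obtain ⟨K, hK⟩ : ∃ K, K = (n' * p ^ n' + (n * p ^ n + 2)) * δ := ⟨_, rfl⟩
  obtain ⟨N, h1, h2, h3⟩ : ∃ N, K < N ∧ (∀ i, (K + 1) * m i + n' ≤ N) ∧ ∀ j, K * dJ j + n ≤ N :=
    ⟨K + 1 + ∑ i, ((K + 1) * m i + n') + ∑ j, (K * dJ j + n), by omega, fun i => by
      obtain h := Finset.single_le_sum (f := fun i => (K + 1) * m i + n')
        (fun _ _ => Nat.zero_le _) (Finset.mem_univ i)
      omega, fun j => by
      obtain h := Finset.single_le_sum (f := fun j => K * dJ j + n)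
        (fun _ _ => Nat.zero_le _) (Finset.mem_univ j)
      omega⟩
  obtain hfd := hd.fl p _ (β1 T) (T.β p) N
  obtain ⟨m1, m2⟩ := Tm.monic (RingHom.id F) (fun _ => 1) hfd rfl
  obtain ⟨m3, m4⟩ := Tm.monic Polynomial.C (pt3 Polynomial.X 1)
    ((mo_tm hH).fl p _ (β1 T) (T.β p) N) rfl
  obtain hpN : 0 < p ^ N := Nat.pos_of_ne_zero (pN N)
  obtain ⟨S, _, _, _, x, y, ξ, s1, s2, s3, s4⟩ := hT F (Fin r) _ (T.β p ^ (K * p ^ N)) _
    (fun i => tp (Polynomial.C.comp Polynomial.C)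
      (fun o => o.elim 1 (pt3 (Polynomial.C Polynomial.X) Polynomial.X)) (Pi.single none 1)
        (fl p T.β (T.β p) N (Q (rename some d) (A i)))) m1 (m2 ▸ Nat.mul_pos hpN hδ)
    (pow_ne_zero _ ht0) m3 (m4 ▸ Nat.mul_pos hpN hH.1) fun i => by
      obtain ⟨a1, a2⟩ := lead (p := p) T.β (T.β p) N d (A i)
      obtain a3 := Polynomial.natDegree_eq_of_le_of_coeff_ne_zero a1
        (a2.trans_ne (Polynomial.C_ne_zero.2 m1.ne_zero))
      exact ⟨a3 ▸ Nat.mul_pos hpN one_pos, by rw [Polynomial.leadingCoeff, a3, a2]⟩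
  simp only [tp_ev1, tp_ev3, tp_ev4] at s4
  let _ : NontriviallyNormedField F := { iF with
    non_trivial := ⟨(T.β p)⁻¹, by
      rw [norm_inv, ht]
      exact (one_lt_inv₀ hp0).2 hp1⟩ }
  obtain ⟨s₀, hs⟩ := hC p F S (Option (Fin r)) (Fin u ⊕ Fin r) (fun o => o.elim x ξ) none
    (Sum.elim (fun j => C (T.β p) * aeval (gg r F) (fl p T.β (T.β p) n (J j)))
      fun i => C (T.β p ^ (n * p ^ n)) * X (some i))
    (Sum.elim (fun j => p ^ n * dJ j) fun _ => 1) (T.β p ^ (n * p ^ n + 1)) (T.β p ^ (K * p ^ N))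
    (p ^ N * δ) (‖(p : PadicAlgCl p)‖ ^ (n * p ^ n + 2))
    (Fintype.piFinset fun _ =>
      (tp (RingHom.id F) (fun _ => 1) (Pi.single 1 1) (fl p T.β (T.β p) N d)).roots.toFinset ∪
      (tp (RingHom.id F) (fun _ => 1) (Pi.single 1 1) (fl p T.β (T.β p) N d)).roots.toFinset.biUnion
        fun a => Finset.univ.biUnion fun i => (tp (RingHom.id F) (pt3 a 1) (Pi.single none 1)
          (fl p T.β (T.β p) n' (μ i))).roots.toFinset)
    s1 s2 s3 (Nat.mul_pos hpN hδ) (pow_ne_zero _ ht0)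
    (by rw [norm_pow, ht]; exact pow_le_one₀ hp0.le hp1.le) (by positivity)
    (by rw [norm_pow, ht]; exact pow_lt_pow_right_of_lt_one₀ hp0 hp1 (Nat.lt_succ_self _))
    (by rw [norm_pow, ht]; exact pow_le_one₀ hp0.le hp1.le) (by
      rintro (j | i)
      · refine ⟨(totalDegree_mul _ _).trans ?_, (in1 _ F).mul_mem (in1_mon 0 _ (ht.trans_le hp1.le))
          (in1_aeval _ gg_in _ (fl1 T _ n (hJ j).2.1))⟩
        rw [totalDegree_C, zero_add]
        exact gg_deg _ _ ((fls p).2.2.2.2.1 _ _ _ _ _ _ n _ 1 _ (hJ j).1)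
      · refine ⟨(totalDegree_mul _ _).trans (by rw [totalDegree_C, totalDegree_X]; rfl),
          (in1 _ F).mul_mem (in1_mon 0 _ ?_) (in1_X _)⟩
        rw [norm_pow, ht]
        exact pow_le_one₀ hp0.le hp1.le) (by
      intro φ v hφ hv
      obtain ⟨e1, e2, e3⟩ := s4 φ v hφ
      obtain e4 : ‖eval ![1, φ x] (fl p T.β (T.β p) N d)‖ =
          ‖(p : PadicAlgCl p)‖ ^ (K * p ^ N) * ‖v‖ := by rw [e1, norm_mul, norm_pow, ht]
      obtain ⟨t1, t2, t3⟩ := tube T hd hdI hH hHI hA hJ h1 h2 h3 (φ x) (φ y) (fun i => φ (ξ i))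
        (e4 ▸ le_mul_of_one_le_right (by positivity) hv) e2 e3
      obtain t4 := root_le _ hfd (fl1 T d N hdI) ![1, φ x] (Fin.forall_fin_two.2 ⟨by simp, by simp⟩)
      refine ⟨e1 ▸ t4, ?_, ?_, fun hv1 => ?_⟩
      · rintro (_ | i)
        · exact le_max_right _ _
        · exact (t1 i).trans (mul_le_of_le_one_left (by positivity) hp1.le)
      · rintro (j | i)
        · rw [Sum.elim_inl, map_mul, eval_C, ← eval₂_id, gg_ev, norm_mul, norm_pow, ht, pow_succ',
            mul_assoc]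
          exact mul_le_mul_of_nonneg_left (t2 j) hp0.le
        · rw [Sum.elim_inr, map_mul, eval_C, eval_X, norm_mul, norm_pow, norm_pow, ht, pow_succ,
            mul_assoc, Sum.elim_inr, pow_one]
          exact mul_le_mul_of_nonneg_left (t1 i) (by positivity)
      · rw [hv1, mul_one] at e4
        rw [e4, max_eq_left (pow_le_one₀ hp0.le hp1.le), pow_eq_one_iff_of_nonneg (by positivity)
          (Nat.mul_pos hpN hδ).ne'] at t4
        obtain hx : ‖φ x‖ ≤ 1 := (le_max_right _ _).trans t4.le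
        obtain ⟨a, ha, ha1⟩ := root_near _ m1 (m2 ▸ Nat.mul_pos hpN hδ) (φ x)
          (‖(p : PadicAlgCl p)‖ ^ (n' * p ^ n' + (n * p ^ n + 2))) (by positivity) (by
            rw [tp_ev1, e4, m2, ← pow_mul, hK, mul_assoc, mul_comm δ])
        obtain ha2 : ‖a‖ ≤ 1 := by
          rw [← sub_sub_cancel (φ x) a, sub_eq_add_neg]
          exact (IsUltrametricDist.norm_add_le_max _ _).trans (max_le hx ((norm_neg _).trans_le
            (ha1.trans (pow_le_one₀ hp0.le hp1.le))))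
        simp only [max_eq_left hx, one_pow, mul_one] at t1 t3
        obtain hb : ∀ i, ∃ b ∈ (tp (RingHom.id F) (pt3 a 1) (Pi.single none 1)
            (fl p T.β (T.β p) n' (μ i))).roots,
            ‖φ (ξ i) - b‖ ≤ ‖(p : PadicAlgCl p)‖ ^ (n * p ^ n + 2) := fun i => by
          obtain ⟨a1, a2, a3, a4, -⟩ := hA i
          obtain ⟨m5, m6⟩ := Tm.monic (RingHom.id F) (pt3 a 1)
            ((mo_tm a3).fl p _ (β1 T) (T.β p) n') rfl
          refine root_near _ m5 (m6 ▸ Nat.mul_pos (Nat.pos_of_ne_zero (pN n')) a3.1) _ _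
            (by positivity) ?_
          obtain h4 := (lip (RingHom.id F) _ (fl1 T (μ i) n' fun b =>
            (a4 b).trans (pow_le_one₀ hp0.le hp1.le)) (pt3 (φ x) (φ (ξ i))) (pt3 a (φ (ξ i)))
            (‖(p : PadicAlgCl p)‖ ^ (n' * p ^ n')) (by positivity)
            (Option.rec ((t1 i).trans hp1.le) (Fin.forall_fin_two.2 ⟨norm_one.le, hx⟩))
            (Option.rec ((t1 i).trans hp1.le) (Fin.forall_fin_two.2 ⟨norm_one.le, ha2⟩))
            (Option.rec (by simp [pt3]) (Fin.forall_fin_two.2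
              ⟨by simp [pt3], ha1.trans (pi_le (Nat.le_add_right _ _))⟩))).2
          rw [tp_ev2, m6, ← pow_mul, ← sub_sub_cancel
            (eval (pt3 (φ x) (φ (ξ i))) (fl p T.β (T.β p) n' (μ i))) (eval _ _), sub_eq_add_neg]
          refine ((IsUltrametricDist.norm_add_le_max _ _).trans
            (max_le (t3 i) ((norm_neg _).trans_le h4))).trans (pi_le ?_)
          rw [mul_left_comm, mul_comm]
          exact Nat.mul_le_mul_right _ (hn' i)
        choose b hb1 hb2 using hb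
        refine ⟨fun o => o.elim a b, Fintype.mem_piFinset.2 ?_, ?_⟩
        · rintro (_ | i)
          · exact Finset.mem_union_left _ (Multiset.mem_toFinset.2 ha)
          · exact Finset.mem_union_right _ (Finset.mem_biUnion.2 ⟨a, Multiset.mem_toFinset.2 ha,
              Finset.mem_biUnion.2 ⟨i, Finset.mem_univ _, Multiset.mem_toFinset.2 (hb1 i)⟩⟩)
        · rintro (_ | i)
          · exact ha1.trans (pi_le (Nat.le_add_left _ _))
          · exact hb2 i)
  refine ⟨s₀, fun s h => ?_⟩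
  obtain ⟨s₁, 𝒦, _, _, _, _, _, _, ζ, z1, -, z2⟩ := hs s h
  let _ : Algebra F 𝒦 := ((algebraMap (Polynomial F) 𝒦).comp Polynomial.C).toAlgebra
  have : IsScalarTower F (Polynomial F) 𝒦 := IsScalarTower.of_algebraMap_eq fun _ => rfl
  obtain hq : ∀ k : ℕ, algebraMap F 𝒦 ((T.β p ^ k) ^ p ^ (s + s₁)) ≠ 0 := fun k =>
    (map_ne_zero _).2 (pow_ne_zero _ (pow_ne_zero _ ht0))
  refine ⟨𝒦, inferInstance, inferInstance, algebraMap (Polynomial F) 𝒦 Polynomial.X, s₁,
    fun i => ζ (some i), ff_of.1, ff_of.2, fun i => ?_, fun j => ?_⟩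
  · obtain h4 := bd_of _ _ (z2 (.inr i))
    rw [Sum.elim_inr, Sum.elim_inr, mul_one, eval₂_mul, eval₂_C, eval₂_X] at h4
    change Bd F _ _ (algebraMap F 𝒦 ((T.β p ^ (n * p ^ n)) ^ p ^ (s + s₁)) * _ /
      algebraMap F 𝒦 _) at h4
    rwa [pow_succ, mul_pow, map_mul, mul_div_mul_left _ _ (hq _)] at h4
  · obtain h4 := bd_of _ _ (z2 (.inl j))
    rw [Sum.elim_inl, Sum.elim_inl, ← mul_assoc, eval₂_mul, eval₂_C, gg_ev, z1, map_pow,
      FL.eval_fl] at h4
    change Bd F _ _ (algebraMap F 𝒦 (T.β p ^ p ^ (s + s₁)) * _ / algebraMap F 𝒦 _) at h4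
    rw [pow_succ', mul_pow, map_mul, mul_div_mul_left _ _ (pow_one (T.β p) ▸ hq 1), ← pow_mul,
      mul_comm (n * _), ← mul_assoc] at h4
    rw [aeval_def, FL.eval_fl]
    exact h4

end Pool.Agent.MP_855f4c_ag.Cu

end

section

/-! h92c: section P closed. -/

namespace Pool.Agent.MP_855f4c_ag.Cu

theorem curves : CURVE_s := curve Pt.tow (Pt.cur Pt.Gal.gal Pat.patch)

end Pool.Agent.MP_855f4c_ag.Cu

end
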