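import Pool.Agent.MP_855f4c_ag.CC.Cg
import Pool.Agent.MP_855f4c_ag.TC.All

set_option linter.all false

section

/-! The top cohomology under a finite map that is bijective over the dense points. -/

set_option backward.isDefEq.respectTransparency false

open CategoryTheory Limits Abelian Opposite AlgebraicGeometry Function

namespace Pool.Agent.MP_855f4c_ag.T

open E E3 E4

theorem deg (l : ℕ) [Fact l.Prime] {P X₁ X₂ : Scheme.{0}} (N : ℕ) (π : X₂ ⟶ P) (ρ : X₁ ⟶ X₂)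
    [IsIntegralHom π] [IsIntegralHom ρ] (hl : Linv l P) (hC : D.CDZ l P N)
    (hs : ∀ (k : Type) [Field k] [IsAlgClosed k] (y : Spec (.of k) ⟶ X₂), ∃ w, w ≫ ρ = y)
    (hu : ∀ (k : Type) [Field k] [IsAlgClosed k] (w w' : Spec (.of k) ⟶ X₁),
      (∀ z, Dense ({(w ≫ ρ ≫ π) z} : Set P)) → w ≫ ρ = w' ≫ ρ → w = w') :
    Injective (hpb l ρ N) := by
  have hL := G0.linf_Tc l X₂
  have hl2 : Linv l X₂ := hl.of_hom π
  let η : Linf l X₂ ⟶ (pf ρ).obj ((pb ρ).obj (Linf l X₂)) := (pbpf ρ).unit.app (Linf l X₂)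
  have hm : Mono η := unit_mono ρ hL.1 hl2 hs
  have hE := pf_tc ρ (hL.pb ρ)
  have hQ : Tc l (cokernel η) := Tc.coker _ hL.1 hE
  have hS : (ShortComplex.mk _ _ (cokernel.condition η)).ShortExact :=
    { exact := ShortComplex.exact_cokernel _ }
  have gz : D.GZr ((pf π).obj (cokernel η)) := fun k _ _ x hx s => by
    refine stalk_inj π hQ.1 (hl k x) x (funext fun y => Eq.trans ?_ (map_zero _).symm)
    change atLift π _ y s = 0
    generalize atLift π _ y s = t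
    have : Presheaf.IsLocallySurjective (Scheme.etaleTopology.over X₂) (cokernel.π η).hom :=
      (Sheaf.isLocallySurjective_iff_epi' Ab.{1} _).2 inferInstance
    obtain ⟨s, rfl⟩ := shl_surj y.left (cokernel.π η).hom t
    obtain ⟨w, hw⟩ := hs k y.left
    let v : Over.mk y.left ⟶ Over.mk ρ := Over.homMk w hw
    obtain ⟨a, ha⟩ := (atLift_unit ρ (Linf l X₂) v).2 (atLift ρ _ v s)
    obtain rfl : η.hom.app _ a = s :=
      stalk_inj ρ (pb_cc ρ hL.1) (hl k x) y.left (funext fun v' => by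
        obtain rfl : v = v' := Over.OverMorphism.ext (hu k w v'.left (fun z => by
          rw [reassoc_of% hw, show y.left ≫ π = x from Over.w y]; exact hx z)
          (hw.trans (Over.w v').symm))
        exact ha)
    exact congrArg (fun b => b.hom.app (op (Over.mk y.left)) a) (cokernel.condition η)
  have van (q : ℕ) (hq : N ≤ q + 1) (y : Ext (Zs X₂) (cokernel η) q) : y = 0 := by
    refine (CLZ.adj_bij π (zpb π) _ q).1 ((pre_bij (Hb.z1 P) _ q).1 ?_)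
    rw [map_zero, map_zero]
    exact hC _ (pf_tc π hQ) gz q hq _
  refine (injective_iff_map_eq_zero _).2 fun y hy => ?_
  have h1 := CLZ.adj_pb ρ (zpb ρ) (lpb l ρ).hom N y
  have h2 : post _ η N y = 0 := by
    refine (post_bij (Zs X₂) ((pf ρ).map (lpb l ρ).hom) N).1 ?_
    rw [post_post, map_zero]
    exact h1.symm.trans ((congrArg _ hy).trans (map_zero _))
  cases N with
  | zero => exact (Ext.postcomp_mk₀_injective_of_mono _ η) (h2.trans (map_zero _).symm)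
  | succ q =>
    obtain ⟨z, rfl⟩ := Ext.covariant_sequence_exact₁ _ hS y h2 rfl
    rw [van q le_rfl z, Ext.zero_comp]

end Pool.Agent.MP_855f4c_ag.T

end

section

/-! h92c: Bezout on products of curves. -/

set_option backward.isDefEq.respectTransparency false

open CategoryTheory Limits Abelian AlgebraicGeometry Function MvPolynomial

namespace Pool.Agent.MP_855f4c_ag.Cu

open T E E3 E4 ZP

namespace Bc

/-- Finitely many geometric points in each fibre. -/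
lemma qf {X P : Scheme.{0}} (g : X ⟶ P) [IsProper g]
    (h : ∀ (k : Type) [Field k] [IsAlgClosed k] (y : Spec (.of k) ⟶ P),
      Set.Finite {w : Spec (.of k) ⟶ X | w ≫ g = y}) : IsFinite g := by
  have : LocallyQuasiFinite g := .of_finite_preimage_singleton g fun p => by
    obtain ⟨k, _, _, y, hy⟩ := stk_geom P p
    have hJ : JacobsonSpace (pullback g y :) := LocallyOfFiniteType.jacobsonSpace (pullback.snd g y)
    have := (h k y).to_subtype
    have : Finite {q : Spec (.of k) ⟶ pullback g y // q ≫ pullback.snd g y = 𝟙 _} :=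
      .of_injective (β := {w : Spec (.of k) ⟶ X | w ≫ g = y})
        (fun q => ⟨q.1 ≫ pullback.fst g y, by
          rw [Set.mem_ofPred_eq, Category.assoc, pullback.condition, reassoc_of% q.2]⟩)
        fun q q' e => Subtype.ext (pullback.hom_ext (congrArg Subtype.val e) (q.2.trans q'.2.symm))
    have h1 : (closedPoints (pullback g y :)).Finite :=
      Set.finite_coe_iff.1 (Finite.of_equiv _ (pointEquivClosedPoint (pullback.snd g y)))
    have h2 : IsClosed (closedPoints (pullback g y :)) := by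
      rw [← Set.biUnion_of_singleton (closedPoints _)]
      exact h1.isClosed_biUnion fun _ h => h
    rw [← h2.closure_eq, closure_closedPoints] at h1
    refine (h1.image (pullback.fst g y)).subset fun x hx => ?_
    obtain ⟨q, hq, -⟩ := Scheme.exists_preimage_of_isPullback (.of_hasPullback g y) x
      (IsLocalRing.closedPoint k) (hx.trans (hy _).symm)
    exact ⟨q, trivial, hq⟩
  exact .of_isProper_of_locallyQuasiFinite g

section
variable {κ : Type} [Fintype κ] [DecidableEq κ] {c : ℕ} {e : Fin c → κ → ℕ}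
  {R : Type} [CommRing R] {X Y : Scheme.{0}} {f : X ⟶ Spec (.of R)} {z : κ → (X ⟶ P1)}
  {cf : MI e → R}

/-- Maps to a zero locus. -/
lemma zl_map (h : ZL f z cf) (g : Y ⟶ Spec (.of R)) (y : κ → (Y ⟶ P1))
    (hv : ∀ (D : Type) [CommRing D] (τ : R →+* D) (w : Spec (.of D) ⟶ Y), w ≫ g = spc τ →
      VanAt (τ ∘ cf) fun k => w ≫ y k) : ∃ a : Y ⟶ X, a ≫ f = g ∧ ∀ k, a ≫ z k = y k := by
  have ex : ∀ (D : Type) [CommRing D] (w' : Spec (.of D) ⟶ Y), ∃ w : Spec (.of D) ⟶ X,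
      w ≫ f = w' ≫ g ∧ ∀ k, w ≫ z k = w' ≫ y k := fun D _ w' => by
    obtain ⟨τ, hτ⟩ := exists_spc (w' ≫ g)
    rw [hτ]
    exact (h.mem D τ _).2 (hv D τ w' hτ)
  obtain ⟨a, ha⟩ := glue (fun D _ w' w => w ≫ f = w' ≫ g ∧ ∀ k, w ≫ z k = w' ≫ y k)
    (fun D _ w' w w₁ p q => h.inj _ _ _ (p.1.trans q.1.symm) fun k => (p.2 k).trans (q.2 k).symm)
    (fun D D' _ _ φ w' w p => by simp only [Category.assoc, p.1, p.2, implies_true, and_self])
    fun p => by
      obtain ⟨i, q, hq⟩ := Y.affineCover.exists_eq p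
      obtain ⟨w, hw⟩ := ex _ (Y.affineOpenCover.f i)
      exact ⟨_, _, _, w, inferInstance, ⟨q, hq⟩, hw⟩
  exact ⟨a, ext_pts fun D _ w' =>
    let ⟨w, hw⟩ := ex D w'; by rw [← Category.assoc, ha _ _ _ hw, hw.1], fun k =>
    ext_pts fun D _ w' => let ⟨w, hw⟩ := ex D w'; by rw [← Category.assoc, ha _ _ _ hw, hw.2]⟩

/-- Restriction of forms to the variables they depend on. -/
lemma restr {κ' : Type} [Fintype κ'] [DecidableEq κ'] {c' : ℕ} (m : κ' → κ) (hm : Injective m)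
    (s : Fin c' → Fin c) (h : ∀ a j, j ∉ Set.range m → e (s a) j = 0) (cf : MI e → R) :
    ∃ cf' : MI (fun a k => e (s a) (m k)) → R, ∀ (D : Type) [CommRing D] (φ : R →+* D)
      (x : XV κ → D) a, gen (φ ∘ cf') a (fun v => x (m v.1, v.2)) = gen (φ ∘ cf) (s a) x := by
  classical
  refine ⟨fun i => ∑ j : ∀ k, Fin (e (s i.1) k + 1) with (fun k => j (m k)) = i.2, cf ⟨_, j⟩,
    fun D _ φ x a => ?_⟩
  simp only [gen, comp_apply, map_sum, Finset.sum_mul]
  rw [← Finset.sum_fiberwise (s := Finset.univ) (g := fun (j : ∀ k, Fin (e (s a) k + 1)) k => j (m k))]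
  refine Finset.sum_congr rfl fun i _ => Finset.sum_congr rfl fun j hj => congrArg _ ?_
  rw [← (Finset.mem_filter.1 hj).2]
  refine Fintype.prod_of_injective m hm _ _ (fun k hk => ?_) fun _ => rfl
  have := (j k).2
  rw [show (j k : ℕ) = 0 by have := h a k hk; omega, h a k hk]
  simp

lemma van_restr {κ' D : Type} [Fintype κ'] [DecidableEq κ'] [CommRing D] {c' : ℕ}
    {e' : Fin c' → κ' → ℕ} (m : κ' → κ) {g : MI e → D} {g' : MI e' → D}
    (h : ∀ (C : Type) [CommRing C] (φ : D →+* C) (x : XV κ → C), (∀ a, gen (φ ∘ g) a x = 0) →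
      ∀ a, gen (φ ∘ g') a (fun v => x (m v.1, v.2)) = 0) {y : κ → (Spec (.of D) ⟶ P1)}
    (hy : VanAt g y) : VanAt g' fun k => y (m k) :=
  vanAt_of_loc fun C _ _ φ σ t ht => by
    have : ∀ k, ∃ i t, spc φ ≫ y k = pts i t := fun k =>
      (pt_local _).elim (fun ⟨a, h⟩ => ⟨0, a, h⟩) fun ⟨b, _, h⟩ => ⟨1, b, h⟩
    choose σ' t' ht' using this
    have h1 := vanAt_map hy φ
    simp only [ht'] at h1
    have h2 := (vanAt_pts (σ := σ' ∘ m) (t := t' ∘ m)).2 (h C φ (xv σ' t') (vanAt_pts.1 h1))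
    rw [show (fun k => pts ((σ' ∘ m) k) ((t' ∘ m) k)) = fun k => pts (σ k) (t k) from
      funext fun k => (ht' _).symm.trans (ht k)] at h2
    exact vanAt_pts.1 h2

end

section
variable {k : Type} [Field k]

lemma cov_of {x : Fin 2 → k} (h : ∃ i, x i ≠ 0) : ∃ b, T.Cov x b :=
  let ⟨i, hi⟩ := h
  ⟨Pi.single i (x i)⁻¹, by rw [T.Cov, Finset.sum_eq_single i] <;> simp +contextual [hi]⟩

lemma ex_nm (y : Spec (.of k) ⟶ P1) :
    ∃ x : Fin 2 → k, CoA y x ∧ (x 0 = 1 ∨ x 0 = 0 ∧ x 1 = 1) := by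
  rcases pt_field y with ⟨a, rfl⟩ | rfl
  exacts [⟨_, coA_pt1 a, .inl rfl⟩, ⟨_, coA_pt2 0, .inr ⟨rfl, rfl⟩⟩]

lemma ex_pt {x : Fin 2 → k} (h : ∃ i, x i ≠ 0) : ∃ y, CoA y x := by
  obtain ⟨i, hi⟩ := h
  refine ⟨pts i (x i.rev / x i), ?_⟩
  convert coA_pts i (x i.rev / x i) (x i) using 1
  funext j
  fin_cases i <;> fin_cases j <;> simp [vc] at hi ⊢ <;> field_simp

lemma nm_nz {x : Fin 2 → k} (h : x 0 = 1 ∨ x 0 = 0 ∧ x 1 = 1) : ∃ i, x i ≠ 0 :=
  h.elim (fun h => ⟨0, h ▸ one_ne_zero⟩) fun h => ⟨1, h.2 ▸ one_ne_zero⟩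

lemma nm_eq {y : Spec (.of k) ⟶ P1} {x x' : Fin 2 → k} (h : CoA y x) (h' : CoA y x')
    (n : x 0 = 1 ∨ x 0 = 0 ∧ x 1 = 1) (n' : x' 0 = 1 ∨ x' 0 = 0 ∧ x' 1 = 1) : x = x' := by
  have := h.min h' (cov_of (nm_nz n)).choose_spec (cov_of (nm_nz n')).choose_spec 0 1
  funext i
  fin_cases i <;> rcases n with n | n <;> rcases n' with n' | n' <;> simp_all

variable {κ : Type} [Fintype κ] [DecidableEq κ] {c : ℕ} {e : Fin c → κ → ℕ}
  {R : Type} [CommRing R] {X : Scheme.{0}} {f : X ⟶ Spec (.of R)} {z : κ → (X ⟶ P1)}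
  {cf : MI e → R}

lemma pt_co (h : ZL f z cf) (τ : R →+* k) {w : Spec (.of k) ⟶ X} (hw : w ≫ f = spc τ) :
    ∃ x, Nm x ∧ Ze cf τ x ∧ ∀ j, CoA (w ≫ z j) fun i => x (j, i) := by
  choose x h1 h2 using fun j => ex_nm (w ≫ z j)
  refine ⟨fun v => x v.1 v.2, h2, (h.mem k τ _).1 ⟨w, hw, fun _ => rfl⟩ k (.id k) _ fun j =>
    ⟨?_, cov_of (nm_nz (h2 j))⟩, h1⟩
  exact (h1 j).map (.id k)

lemma co_pt (h : ZL f z cf) (τ : R →+* k) {x : XV κ → k} (h1 : Nz x) (h2 : Ze cf τ x) :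
    ∃ w : Spec (.of k) ⟶ X, w ≫ f = spc τ ∧ ∀ j, CoA (w ≫ z j) fun i => x (j, i) := by
  choose y hy using fun j => ex_pt (x := fun i => x (j, i)) (h1 j)
  choose b hb using fun j => cov_of (x := fun i => x (j, i)) (h1 j)
  obtain ⟨w, p, q⟩ := (h.mem k τ y).2 (vanAt_of_ad (m := fun v => x (v.1, v.2.1) * b v.1 v.2.2)
    (fun j => ⟨by have := hb j; rw [T.Cov, Fin.sum_univ_two] at this; linear_combination this,
      by ring⟩) (fun j i => by simpa only [mul_comm] using (hy j).smul (b j i)) fun a σ =>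
      (gen_scale _ a x fun j => b j (σ j)).trans (mul_eq_zero_of_left (h2 a) _))
  exact ⟨w, p, fun j => q j ▸ hy j⟩

/-- A dense point of a product of lines avoids the zeros of monic polynomials. -/
lemma dns {Ω : Type} [Field Ω] [Infinite Ω] {g : X ⟶ Spec (.of Ω)} (h : ZL g z (noEq κ Ω))
    (Δ : κ → Polynomial Ω) (hΔ : ∀ b, Δ b ≠ 0) (τ : Ω →+* k) {w : Spec (.of k) ⟶ X}
    (hw : w ≫ g = spc τ) (hd : ∀ q, Dense ({w q} : Set X)) (b : κ) :
    ∃ t, w ≫ z b = pt1 t ∧ (Δ b).eval₂ τ t ≠ 0 := by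
  obtain ⟨u, hu⟩ := exists_ch h 0
  have := (hu.open h).1
  let d := (Δ b).eval₂ (algebraMap Ω _) (ct (noEq κ Ω) 0 b)
  have hd' (F : Type) [Field F] (χ : Ch (noEq κ Ω) 0 →+* F) (q : Spec (.of F)) :
      d ∉ (spc χ q).asIdeal ↔
        (Δ b).eval₂ (χ.comp (algebraMap Ω _)) (χ (ct (noEq κ Ω) 0 b)) ≠ 0 := by
    rw [← Polynomial.hom_eval₂]
    refine not_congr (show χ d ∈ q.asIdeal ↔ _ from ?_)
    rw [Ideal.eq_bot_of_prime q.asIdeal, Ideal.mem_bot]
  obtain ⟨t₀, h₀⟩ : ∃ t, (Δ b).eval t ≠ 0 := by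
    by_contra! H
    exact hΔ b (Polynomial.funext fun t => (H t).trans Polynomial.eval_zero.symm)
  obtain ⟨χ₀, p1, p2⟩ := ch_lift (cf := noEq κ Ω) (σ := 0) (.id Ω) (fun _ => t₀) fun a => a.elim0
  obtain ⟨_, ⟨q, hq, rfl⟩, e⟩ := (hd default).inter_open_nonempty _
    (u.isOpenEmbedding.isOpenMap _ (PrimeSpectrum.basicOpen d).2)
    ⟨_, spc χ₀ default, (hd' _ _ _).2 (by rw [p1, p2]; exact h₀), rfl⟩
  have H : Set.range w ⊆ Set.range u := by
    rintro _ ⟨r, rfl⟩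
    exact ⟨q, e.trans (congrArg w (Subsingleton.elim _ _))⟩
  obtain ⟨χ, hχ⟩ := exists_spc (IsOpenImmersion.lift u w H)
  have e1 : spc χ ≫ u = w := hχ ▸ IsOpenImmersion.lift_fac u w H
  have e2 : spc χ default = q := u.isOpenEmbedding.injective (by
    rw [← Scheme.Hom.comp_apply, e1]; exact e.symm)
  refine ⟨χ (ct _ 0 b), by rw [← e1, Category.assoc, hu.2, map_pts]; rfl, ?_⟩
  rw [← spc_inj (show spc (χ.comp (algebraMap Ω _)) = spc τ by
    rw [← spc_spc, ← hu.1, reassoc_of% e1, hw]), ← hd' _ _ default, e2]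
  exact hq

end

/-- A product of linear forms with nonnegative coefficients. -/
lemma top_ne {κ ι : Type} [Fintype κ] [DecidableEq κ] [Fintype ι] (n : ι → κ → ℕ) (s : ι ≃ κ)
    (h : ∀ i, n i (s i) ≠ 0) : top (∏ i, lin fun k => (n i k : ℤ)) ≠ 0 := by
  classical
  have key (S : Finset ι) : coeff (∑ i ∈ S, Finsupp.single (s i) 1)
      (∏ i ∈ S, ∑ k, C (n i k) * X k : MvPolynomial κ ℕ) ≠ 0 := by
    induction S using Finset.induction_on with
    | empty => simp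
    | insert i S hi ih =>
      rw [Finset.sum_insert hi, Finset.prod_insert hi, coeff_mul]
      have : coeff (Finsupp.single (s i) 1) (∑ k, C (n i k) * X k : MvPolynomial κ ℕ) ≠ 0 := by
        rw [coeff_sum]
        refine fun H => h i ?_
        have := Finset.sum_eq_zero_iff.1 H (s i) (Finset.mem_univ _)
        rwa [coeff_C_mul, coeff_X_same, mul_one] at this
      exact fun H => mul_ne_zero this ih (Finset.sum_eq_zero_iff.1 H (_, _)
        (Finset.HasAntidiagonal.mem_antidiagonal.2 rfl))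
  have e1 : (∏ i, lin fun k => (n i k : ℤ)) =
      map (Nat.castRingHom ℤ) (∏ i, ∑ k, C (n i k) * X k) := by simp [lin]
  have e2 : (Finsupp.equivFunOnFinite.symm 1 : κ →₀ ℕ) = ∑ i, Finsupp.single (s i) 1 := by
    rw [s.sum_comp fun k => Finsupp.single k 1]
    ext k
    simp [Finsupp.finsetSum_apply, Finsupp.single_apply]
  rw [T.top, e1, e2, coeff_map]
  exact Nat.cast_ne_zero.2 (key _)

open Bez

variable {l : ℕ} [Fact l.Prime] {Ω : Type} [Field Ω] [IsAlgClosed Ω] [CharZero Ω]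
  (Ch : Chern l Ω) (hP : P1L_s) {κ κ₀ R : Type} [Fintype κ] [DecidableEq κ] [Fintype κ₀]
  [DecidableEq κ₀] [CommRing R] {c : ℕ} {e : Fin c → κ → ℕ} {cf : MI e → R} (A : Amb κ₀ cf)
  (ψ : R →+* Ω)

omit [Fintype κ₀] [DecidableEq κ₀] in
lemma em_inj : Injective (Sum.elim A.inc A.uu) := by
  have p (b b') (h : A.uu b = A.inc b') : False := by
    obtain rfl : b = b' := by rw [← A.pr_uu b, h, A.pr_inc]
    exact A.uu_ne b h
  rintro (b | b) (b' | b') h
  · rw [← A.pr_inc b, ← A.pr_inc b']; exact congrArg (Sum.inl <| A.pr ·) h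
  · exact (p _ _ h.symm).elim
  · exact (p _ _ h).elim
  · rw [← A.pr_uu b, ← A.pr_uu b']; exact congrArg (Sum.inr <| A.pr ·) h

section
variable {A ψ} {X Y P : Scheme.{0}} {f : X ⟶ Spec (.of Ω)} {z : κ → (X ⟶ P1)}
  (hX : ZL f z (ψ ∘ cf)) {k : Type} [Field k]
include hX

omit [IsAlgClosed Ω] [CharZero Ω] in
lemma sur [IsAlgClosed k] {c₂ : ℕ} {e₂ : Fin c₂ → κ₀ ⊕ κ₀ → ℕ} {cf₂ : MI e₂ → Ω}
    {f₂ : Y ⟶ Spec (.of Ω)} {y : κ₀ ⊕ κ₀ → (Y ⟶ P1)} (hY : ZL f₂ y cf₂) {ρ : X ⟶ Y}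
    (r1 : ρ ≫ f₂ = f) (r2 : ∀ i, ρ ≫ y i = z (Sum.elim A.inc A.uu i))
    (hc : ∀ (τ : Ω →+* k) (u : XV κ → k), Ze cf₂ τ (fun v => u (Sum.elim A.inc A.uu v.1, v.2)) →
      ∀ b, gen (τ.comp ψ ∘ cf) (A.j₀ b) u = 0) (v : Spec (.of k) ⟶ Y) : ∃ w, w ≫ ρ = v := by
  obtain ⟨τ, hτ⟩ := exists_spc (v ≫ f₂)
  obtain ⟨u, u1, u2, u3⟩ := pt_co hY τ hτ
  let u' : XV κ → k := fun j => extend (Sum.elim A.inc A.uu) (fun i => u (i, j.2)) 1 j.1
  have hu (i j) : u' (Sum.elim A.inc A.uu i, j) = u (i, j) := (em_inj A).extend_apply _ _ _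
  obtain ⟨u'', n, ze, ag⟩ := A.onto k (τ.comp ψ) u' (fun j => by
    by_cases h : j ∈ Set.range (Sum.elim A.inc A.uu)
    · obtain ⟨i, rfl⟩ := h
      simpa only [hu] using nm_nz (x := fun j => u (i, j)) (u1 i)
    · exact ⟨0, (extend_apply' _ _ _ h).trans_ne one_ne_zero⟩)
    (hc τ u' (by simpa only [hu] using u2))
  obtain ⟨w, w1, w2⟩ := co_pt hX τ n ze
  refine ⟨w, hY.inj _ _ _ (by rw [Category.assoc, r1, w1, hτ]) fun i => ?_⟩
  rw [Category.assoc, r2]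
  refine CoA.ext ?_ (u3 i) (cov_of (nm_nz (x := fun j => u (i, j)) (u1 i))).choose_spec
  convert w2 (Sum.elim A.inc A.uu i) using 2 with j
  rw [← hu]
  cases i
  exacts [(ag _ j).1.symm, (ag _ j).2.symm]

omit [IsAlgClosed Ω] [CharZero Ω] in
lemma pinj {w w' : Spec (.of k) ⟶ X} (h : w ≫ f = w' ≫ f) {u : XV κ → k}
    (n : Nm u) (q : ∀ j, CoA (w ≫ z j) fun i => u (j, i))
    (q' : ∀ j, CoA (w' ≫ z j) fun i => u (j, i)) : w = w' :=
  hX.inj _ _ _ h fun j =>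
    (q j).ext (q' j) (cov_of (nm_nz (x := fun i => u (j, i)) (n j))).choose_spec

variable {g : P ⟶ Spec (.of Ω)} {x : κ₀ → (P ⟶ P1)} {π : X ⟶ P} (e1 : π ≫ g = f)
  (e2 : ∀ b, π ≫ x b = z (A.inc b))
include e1 e2

omit [IsAlgClosed Ω] [CharZero Ω] [Fintype κ₀] [DecidableEq κ₀] in
lemma fin (v : Spec (.of k) ⟶ P) : Set.Finite {w : Spec (.of k) ⟶ X | w ≫ π = v} := by
  obtain ⟨τ, hτ⟩ := exists_spc (v ≫ g)
  choose u u1 u2 using fun b => ex_nm (v ≫ x b)
  have e3 (w : {w : Spec (.of k) ⟶ X | w ≫ π = v}) : w.1 ≫ f = spc τ := by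
    rw [← e1, ← hτ, reassoc_of% (show w.1 ≫ π = v from w.2)]
  choose F F1 F2 F3 using fun w => pt_co hX τ (e3 w)
  have := (A.fin k (τ.comp ψ) fun j => u j.1 j.2).to_subtype
  refine Set.finite_coe_iff.1 (.of_injective (β := {x : XV κ → k | Nm x ∧ Ze cf (τ.comp ψ) x ∧
    ∀ b i, x (A.inc b, i) = u b i}) (fun w => ⟨F w, F1 w, F2 w, fun b => congrFun
      (nm_eq (F3 w _) ?_ (F1 w _) (u2 b))⟩) fun w w' h => Subtype.ext
        (pinj hX ((e3 w).trans (e3 w').symm) (F1 w) (F3 w)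
          ((show F w = F w' from Subtype.ext_iff.1 h) ▸ F3 w')))
  rw [← e2, reassoc_of% (show w.1 ≫ π = v from w.2)]
  exact u1 b

omit [IsAlgClosed Ω] in
lemma unq (hg : ZL g x (noEq κ₀ Ω)) {w w' : Spec (.of k) ⟶ X} (e3 : w ≫ f = w' ≫ f)
    (e4 : ∀ i, w ≫ z (Sum.elim A.inc A.uu i) = w' ≫ z (Sum.elim A.inc A.uu i))
    (hd : ∀ q, Dense ({(w ≫ π) q} : Set P)) : w = w' := by
  obtain ⟨τ, hτ⟩ := exists_spc (w ≫ f)
  obtain ⟨u, u1, u2, u3⟩ := pt_co hX τ hτ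
  obtain ⟨u', v1, v2, v3⟩ := pt_co hX τ (e3.symm.trans hτ)
  have ag (i) := congrFun (nm_eq (v3 _) (e4 i ▸ u3 _) (v1 _) (u1 _))
  have : u' = u := A.uniq k (τ.comp ψ) u u' u1 v1 u2 v2
    (fun b i => ⟨ag (.inl b) i, ag (.inr b) i⟩) fun b => by
      obtain ⟨t, t1, t2⟩ := dns hg (fun b => (A.Δ b).map ψ) (fun b => ((A.mon b).map ψ).ne_zero) τ
        (by rw [Category.assoc, e1, hτ]) hd b
      rw [Category.assoc, e2] at t1
      have := congrFun (nm_eq (u3 (A.inc b)) (t1 ▸ coA_pt1 t) (u1 _) (.inl rfl))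
      rw [Polynomial.eval₂_map] at t2
      exact ⟨this 0, (show u (A.inc b, 1) = t from this 1) ▸ t2⟩
  exact pinj hX e3 u1 u3 (this ▸ v3)

end

/-- The product of the classes of the lines `κ₀` is not zero on the product of the curves. -/
lemma topc {X : Scheme.{0}} {f : X ⟶ Spec (.of Ω)} [IsProper f] {z : κ → (X ⟶ P1)}
    (hX : ZL f z (ψ ∘ cf)) (K : List κ₀) (h1 : K.Nodup) (h2 : ∀ b, b ∈ K) :
    ∃ a, (K.reverse.map fun b => mo (Ch.x hP f (z (A.inc b)))).prod (sg X a) (2 * K.length) ≠ 0 := by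
  let m : κ₀ ⊕ κ₀ → κ := Sum.elim A.inc A.uu
  let s := (Fintype.equivFin κ₀).symm
  obtain ⟨cf₂, hc⟩ := restr m (em_inj A) (fun a => A.j₀ (s a)) (fun a j hj => by_contra fun H =>
    hj ((A.supp _ _ H).elim (⟨.inl _, ·.symm⟩) (⟨.inr _, ·.symm⟩))) (ψ ∘ cf)
  obtain ⟨Y, f₂, y, _, hY⟩ := exists_zl cf₂
  obtain ⟨P, g, x, tw, hg, -⟩ := All.hTOP l Ω Ch hP κ₀ K h1 h2
  have := (D.twf.1 _ _ _ g tw).1
  obtain ⟨π, p1, p2⟩ := zl_map hg f₂ (fun b => y (.inl b)) fun _ _ _ _ _ _ _ _ _ _ a => a.elim0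
  obtain ⟨ρ, r1, r2⟩ := zl_map hY f (fun k => z (m k)) fun D _ τ w hw =>
    van_restr (y := fun k => w ≫ z k) m
      (fun C _ φ v h a => (hc C (φ.comp τ) v a).trans (h _))
      ((hX.mem D τ _).1 ⟨w, hw, fun _ => rfl⟩)
  have hs (k : Type) [Field k] [IsAlgClosed k] (v : Spec (.of k) ⟶ Y) : ∃ w, w ≫ ρ = v :=
    sur hX hY r1 r2 (fun τ u h b => by
      obtain ⟨a, rfl⟩ := s.surjective b
      exact (hc k τ u a).symm.trans (h a)) v
  have e1 : (ρ ≫ π) ≫ g = f := by rw [Category.assoc, p1, r1]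
  have e2 (b) : (ρ ≫ π) ≫ x b = z (A.inc b) := by rw [Category.assoc, p2, r2]; rfl
  have : IsProper (π ≫ g) := p1 ▸ inferInstance
  have : IsProper π := .of_comp π g
  have : IsProper ((ρ ≫ π) ≫ g) := e1 ▸ inferInstance
  have : IsProper (ρ ≫ π) := .of_comp _ g
  have : IsFinite π := qf π fun k _ _ v => ((fin hX e1 e2 v).image (· ≫ ρ)).subset fun w hw =>
    let ⟨w', h⟩ := hs k w; ⟨w', by rw [Set.mem_ofPred_eq, reassoc_of% h]; exact hw, h⟩
  have : IsFinite (ρ ≫ π) := qf _ fun k _ _ => fin hX e1 e2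
  have : IsFinite ρ := .of_comp ρ π
  have hd := deg l (2 * K.length) π ρ ((Linv.spec (isUnit_iff_ne_zero.2 (Nat.cast_ne_zero.2
    (Fact.out : l.Prime).ne_zero : (l : Ω) ≠ 0))).of_hom g) (All.hTOW l Ω _ P g tw).2.1 hs
    fun k _ _ w w' hd h => unq hX e1 e2 hg (by rw [← r1, reassoc_of% h])
      (fun i => by rw [← r2, reassoc_of% h]) hd
  let L : List (κ₀ ⊕ κ₀ → ℤ) := K.map fun b k => ((Pi.single (.inl b) 1 : _ → ℕ) k : ℤ)
  obtain ⟨a, ha⟩ := All.hBEZZ l Ω Ch hP _ _ _ cf₂ Y f₂ y hY L 1 one_ne_zero (by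
    have := top_ne (Sum.elim (fun b => Pi.single (.inl b) 1) fun a k => e (A.j₀ (s a)) (m k))
      ((Equiv.refl κ₀).sumCongr s) (by rintro (b | a); exacts [by simp, (A.pos _).ne'])
    rw [Fintype.prod_sum_type] at this
    rw [List.map_map, ← List.prod_toFinset _ h1, Finset.eq_univ_of_forall fun b =>
      List.mem_toFinset.2 (h2 b)]
    exact this)
  rw [Ne, ← pv_iff, one_smul, List.length_map] at ha
  refine ⟨a, fun H => ha (hd ?_)⟩
  rw [map_zero, pv_pb kpb, r1, ← H]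
  simp only [r2, pv, L, ← List.map_reverse, List.map_map]
  refine congrArg (fun F : κ₀ → AddMonoid.End (HS l X) => (K.reverse.map F).prod (sg X a) _)
    (funext fun b => ?_)
  simp [Chern.cl, Pi.single_apply, m]

/-- Weights on all lines as weights on the lines `κ₀`. -/
def ps (v : κ → ℤ) (b : κ₀) : ℤ := ∑ j, if A.pr j = b then A.ω j * v j else 0

lemma rel {z : κ → (Spec (.of (JB (ψ ∘ cf))) ⟶ P1)} (hz : Ad (je (ψ ∘ cf)) z) (v : κ → ℤ) :
    Ch.cl hP (spc (algebraMap Ω _)) z v =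
      ∑ b, ps A v b • Ch.x hP (spc (algebraMap Ω _)) (z (A.inc b)) := by
  have j0 := Bez.jp_je (ψ ∘ cf)
  have key (j) : Ch.x hP (spc (algebraMap Ω _)) (z j) =
      (A.ω j : ℤ) • Ch.x hP (spc (algebraMap Ω _)) (z (A.inc (A.pr j))) := by
    obtain ⟨s, s1, s2⟩ := A.unit Ω ψ j
    have s3 := M0.hg_map (algebraMap Ω (JB (ψ ∘ cf))) s1
    obtain ⟨I, -, hI⟩ := (w0 κ _).2.1 _ _ _ j0 s3
    obtain ⟨θ, hθ⟩ := (jxb l Ω Ch hP κ _ (spc (algebraMap Ω _)) _ z j0 hz).2.2 _ _ _ s3 hI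
    have hO : opI I = ⊤ := top_unique fun q _ hq => by
      obtain ⟨m, hm, hq'⟩ := q.asIdeal.exists_le_maximal q.isPrime.ne_top
      let _ := Ideal.Quotient.field m
      have : Module.Finite Ω (JB (ψ ∘ cf) ⧸ m) := finite_of_finite_type_of_isJacobsonRing _ _
      let χ := (AlgEquiv.ofBijective (Algebra.ofId Ω (JB (ψ ∘ cf) ⧸ m))
        IsAlgClosed.algebraMap_bijective_of_isIntegral).symm.toAlgHom.comp (Ideal.Quotient.mkₐ Ω m)
      have j1 := jp_map χ.toRingHom j0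
      choose σ hσ using fun k => show ∃ i, IsUnit (χ (je (ψ ∘ cf) (k, i, i))) from
        (IsLocalRing.isUnit_or_isUnit_of_add_one (j1 k).1).elim (⟨0, ·⟩) (⟨1, ·⟩)
      obtain ⟨a, ha⟩ := (w0 κ Ω).2.2.1 _ σ j1 hσ
      have e0 : χ.toRingHom.comp (algebraMap Ω _) = .id Ω := RingHom.ext χ.commutes
      refine s2 a (Ja.rel_of_jp (ha ▸ j1)) (fun b => ?_) ?_
      · have := congrArg χ.toRingHom (Bez.gen_je (ψ ∘ cf) b σ)
        rw [map_zero, Bez.map_gen, ← comp_assoc, ← RingHom.coe_comp, e0,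
          show χ.toRingHom ∘ col (je (ψ ∘ cf)) σ = fun v => a (.inl v) * a (.inr (v.1, σ v.1)) from
            funext fun v => (congrFun ha (v.1, v.2, σ v.1)).symm,
          gen_scale _ _ _ fun k => a (.inr (k, σ k))] at this
        exact (mul_eq_zero.1 this).resolve_right (Finset.prod_ne_zero_iff.2 fun k _ => pow_ne_zero _
          (right_ne_zero_of_mul ((congrFun ha (k, σ k, σ k)).trans_ne (hσ k).ne_zero)))
      · have := hI Ω χ.toRingHom a ha
        rw [eval₂_map, e0, (Ideal.map_eq_bot_iff_le_ker _).2 fun r hr => by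
          simp [χ, Ideal.Quotient.eq_zero_iff_mem.2 (hq' (hq hr))]] at this
        exact Ideal.span_singleton_eq_bot.1 this.symm
    generalize opI I = O at θ hθ hO
    subst hO
    rw [JX.piU_top, pre_apply, Ext.mk₀_zero, Ext.zero_comp] at hθ
    simp only [Chern.cl, Pi.sub_apply, Pi.smul_apply, sub_smul, Finset.sum_sub_distrib,
      Pi.single_apply, smul_eq_mul, mul_ite, ite_smul, mul_one, mul_zero, zero_smul, one_smul,
      Finset.sum_ite_eq', Finset.mem_univ, if_true] at hθ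
    exact (sub_eq_zero.1 hθ.symm).symm
  simp only [ps, Finset.sum_smul, ite_smul, zero_smul]
  rw [Finset.sum_comm, Chern.cl]
  refine Finset.sum_congr rfl fun j _ => ?_
  rw [Finset.sum_ite_eq, if_pos (Finset.mem_univ _), key, smul_smul, mul_comm]

omit [IsAlgClosed Ω] [CharZero Ω] in
lemma sg_smul (T : Scheme.{0}) (N : ℤ) (a : QZ l) : sg T (N • a) = N • sg T a := funext fun
  | 0 => tau_smul _ _ _
  | _ + 1 => (zsmul_zero N).symm

lemma core {c₀ c' : ℕ} {e₀ : Fin c₀ → κ → ℕ} {e' : Fin c' → κ → ℕ} (cf₀ : MI e₀ → Ω)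
    {cf' : MI e' → Ω} {Z : Scheme.{0}} {f : Z ⟶ Spec (.of Ω)} {z : κ → (Z ⟶ P1)} (hZ : ZL f z cf')
    (hj : ∀ (D : Type) [CommRing D] (φ : Ω →+* D) (x : XV κ → D), Ze (ψ ∘ cf) φ x → Ze cf₀ φ x →
      Ze cf' φ x) (L : List (κ → ℤ)) (N : ℤ) (hN : N ≠ 0)
    (hL : T.top ((L.map fun n => lin (ps A n)).prod * ∏ a, lin (ps A fun k => e₀ a k)) ≠ 0) :
    ∃ a, tau (N • pw (L.map (Ch.cl hP f z))) a ≠ 0 := by
  by_contra! H
  have j0 := Bez.jp_je (ψ ∘ cf)
  obtain ⟨X, g, x, _, hX⟩ := exists_zl (ψ ∘ cf)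
  obtain ⟨ρ, r1, hz₀, r3⟩ := exists_rho hX
  let K := (Finset.univ : Finset κ₀).toList
  obtain ⟨a₀, ha⟩ := topc Ch hP A ψ hX K (Finset.nodup_toList _) (by simp [K])
  replace ha := mt ((injective_iff_map_eq_zero _).1 (hpb_aff zb All.hABU l g ρ r3 _).1 _) ha
  rw [show hpb l ρ _ _ = _ from congrFun (rs_prod ρ _ K.reverse (sg X a₀)) _, rs_sg] at ha
  simp only [JX.x_nat, r1] at ha
  generalize hy : (fun k => ρ ≫ x k) = z₀ at hz₀
  simp only [fun k => congrFun hy k] at ha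
  let t₀ := spc (algebraMap Ω (JB (ψ ∘ cf)))
  obtain ⟨sq, com, -⟩ := jxb l Ω Ch hP κ _ t₀ _ z₀ j0 hz₀
  have ht : (((((List.finRange c₀).map fun a k => (e₀ a k : ℤ)) ++ L.reverse).map (ps A)).map
      lin).prod = (L.map fun n => lin (ps A n)).prod * ∏ a, lin (ps A fun k => e₀ a k) := by
    rw [List.map_map, List.map_append, List.prod_append, List.map_reverse, List.prod_reverse,
      mul_comm, List.map_map, Fin.prod_univ_def]
    rfl
  obtain ⟨p1, p2⟩ := perm κ₀ _ (fun b => mo (Ch.x hP t₀ (z₀ (A.inc b))))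
    (fun i j => op_com (com _ _)) (fun k => op_sq (sq _)) _ K.reverse
    (List.nodup_reverse.2 (Finset.nodup_toList _)) (by simp [K]) (ht ▸ hL)
  rw [ht] at p2
  obtain ⟨a, rfl⟩ := (endq l).2.2.1 _ a₀ (mul_ne_zero hL hN)
  have hc : (fun n : κ₀ → ℤ => ∑ b, n b • mo (Ch.x hP t₀ (z₀ (A.inc b)))) ∘ ps A =
      fun n => mo (Ch.cl hP t₀ z₀ n) := funext fun n => by
    rw [rel Ch hP A ψ hz₀, map_sum, comp_apply]
    simp only [map_zsmul, t₀]
  rw [List.map_map (f := ps A), hc, List.map_append, List.prod_append, List.map_map] at p2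
  simp only [List.length_append, List.length_map, List.length_reverse] at p1
  have k1 := kill (Ch := Ch) (hP := hP) clz jxb kpb (List.finRange c₀) _ t₀ (algebraMap Ω _ ∘ cf₀) _
    z₀ j0 hz₀ (pv Ch hP t₀ z₀ L (N • a)) (2 * L.length) (2 * K.length) (by omega) fun F _ φ hφ => by
      obtain ⟨w, w1, w2⟩ := (hZ.mem F (φ.comp (algebraMap Ω _)) _).2
        (vanAt_of_ad (jp_map φ j0) (Bez.ad_map φ hz₀) fun b σ => hj F _ _
          (fun b => (Bez.map_gen φ _ b _).symm.trans ((congrArg φ (Bez.gen_je _ b σ)).trans φ.map_zero))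
          (fun b => (Bez.map_gen φ _ b _).symm.trans (hφ b (List.mem_finRange b) σ)) b)
      rw [pv_pb kpb, spc_spc, ← w1, ← funext w2, ← pv_pb kpb, (pv_iff _ _ _ _ _).2 (H a), map_zero]
  have k2 := congrFun (DFunLike.congr_fun p2 (sg _ (N • a))) (2 * K.length)
  refine ha ?_
  rw [mul_smul, sg_smul, map_zsmul]
  exact k2.symm.trans k1

end Bc

open Bc in
theorem bezc : BEZC_s := by
  intro l _ Ω _ _ _ κ κ₀ R _ _ _ _ _ c e cf A ψ c₀ e₀ cf₀ c' e' cf' Z f z ⟨j, j1, j2⟩ hZ M M' e₁ hM hM'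
    he Ch hP L N hN hL
  have ev {D : Type} [CommRing D] (φ : Ω →+* D) (x : XV κ → D) {c : ℕ} {e : Fin c → κ → ℕ}
      (g : MI e → Ω) (a) : eval₂Hom φ x (gp g a) = gen (φ ∘ g) a x := by
    rw [gp, map_gen]
    congr 1 <;> funext v <;> simp
  refine core Ch hP A ψ cf₀ hZ (fun D _ φ x h1 h2 a => ?_) _ N hN ?_
  · obtain ⟨i | i, rfl⟩ := j.surjective a
    · rw [← ev, (j1 i).2, ev, h1]
    · rw [← ev, (j2 i).2, ev, h2]
  have hl (m : ℤ) (n : κ₀ → ℤ) : lin (fun b => m * n b) = C m * lin n := by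
    simp only [lin, Finset.mul_sum, map_mul, mul_assoc]
  have h1 (n : κ₀ → ℤ) : ps A (push A.inc M n) = fun b => M * n b := funext fun b => by
    change (∑ j, if A.pr j = b then A.ω j * (∑ b, (M * n b) • Pi.single (A.inc b) 1 : κ → ℤ) j
      else 0) = _
    simp only [Finset.sum_apply, Pi.smul_apply, Pi.single_apply, smul_eq_mul, mul_ite, mul_one,
      mul_zero, Finset.mul_sum, Finset.ite_sum_zero, ← ite_and]
    rw [Finset.sum_comm, Finset.sum_eq_single b, Finset.sum_eq_single (A.inc b)]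
    · simp [A.pr_inc, A.ω_inc]
    · simp +contextual
    · simp
    · exact fun b' _ hb => Finset.sum_eq_zero fun j _ => if_neg fun h =>
        hb (by rw [← h.1, h.2, A.pr_inc])
    · simp
  have h2 (a) : ps A (fun k => e₀ a k) = fun b => M' * e₁ a b := funext fun b => by
    simpa [ps] using he a b
  simp only [List.map_map, comp_def, h1, h2, hl, List.prod_map_mul, Finset.prod_mul_distrib,
    List.map_const', List.prod_replicate, Finset.prod_const]
  rw [mul_mul_mul_comm, ← map_pow, ← map_pow, ← map_mul, T.top, coeff_C_mul]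
  exact mul_ne_zero (mul_ne_zero (pow_ne_zero _ hM) (pow_ne_zero _ hM')) hL

end Pool.Agent.MP_855f4c_ag.Cu

end

section

/-! h92c row ZSMC: smoothness of a zero locus with redundant equations. -/

set_option backward.isDefEq.respectTransparency false

open CategoryTheory AlgebraicGeometry MvPolynomial

namespace Pool.Agent.MP_855f4c_ag.Cu

open T E

namespace Zsm

/-- The first order term. -/
noncomputable def dr {R κ : Type} [CommRing R] [Fintype κ] (y : κ → MvPolynomial κ R)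
    (P : MvPolynomial κ R) : MvPolynomial κ R := ∑ j, pderiv j P * y j

theorem split {R κ ρ : Type} [CommRing R] [Fintype κ] (g : ρ → MvPolynomial κ R)
    (h : ∀ (k : Type) [Field k] (ψ : R →+* k) (t : κ → k), (∀ a, eval₂ ψ t (g a) = 0) →
      ∃ (S : Finset ρ) (w : MvPolynomial κ R), (∀ a, w * g a ∈ Ideal.span (g '' S)) ∧
        eval₂ ψ t w ≠ 0 ∧ ∀ lam : ρ → k,
          (∀ j, ∑ a ∈ S, lam a * eval₂ ψ t (pderiv j (g a)) = 0) → ∀ a ∈ S, lam a = 0) :
    ∃ y : κ → MvPolynomial κ R, (∀ j, y j ∈ Ideal.span (Set.range g)) ∧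
      ∀ a, g a - dr y (g a) ∈ Ideal.span (Set.range g) * Ideal.span (Set.range g) := by
  classical
  obtain ⟨𝔞, h𝔞⟩ : ∃ 𝔞, 𝔞 = Ideal.span (Set.range g) := ⟨_, rfl⟩
  rw [← h𝔞]
  have hg (a : ρ) : g a ∈ 𝔞 := h𝔞 ▸ Ideal.subset_span ⟨a, rfl⟩
  let W : Ideal (MvPolynomial κ R) :=
    { carrier := {w | ∃ y : κ → MvPolynomial κ R, (∀ j, y j ∈ 𝔞) ∧
        ∀ a, w * g a - dr y (g a) ∈ 𝔞 * 𝔞}
      zero_mem' := ⟨0, fun _ => zero_mem _, fun a => by simp [dr]⟩
      add_mem' := by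
        rintro w w' ⟨y, h1, h2⟩ ⟨y', h3, h4⟩
        refine ⟨y + y', fun j => add_mem (h1 j) (h3 j), fun a => ?_⟩
        refine (congrArg (· ∈ 𝔞 * 𝔞) ?_).mp (add_mem (h2 a) (h4 a))
        simp only [dr, Pi.add_apply, mul_add, Finset.sum_add_distrib]
        ring
      smul_mem' := by
        rintro r w ⟨y, h1, h2⟩
        refine ⟨fun j => r * y j, fun j => 𝔞.mul_mem_left _ (h1 j), fun a => ?_⟩
        refine (congrArg (· ∈ 𝔞 * 𝔞) ?_).mp ((𝔞 * 𝔞).mul_mem_left r (h2 a))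
        simp only [dr, smul_eq_mul, mul_sub, Finset.mul_sum, mul_assoc, mul_left_comm r] }
  suffices hW : (1 : MvPolynomial κ R) ∈ W by
    obtain ⟨y, h1, h2⟩ := hW
    exact ⟨y, h1, fun a => by simpa only [one_mul] using h2 a⟩
  rw [← Ideal.eq_top_iff_one]
  by_contra hne
  obtain ⟨m, hm, hle⟩ := Ideal.exists_le_maximal W hne
  let := Ideal.Quotient.field m
  let π := Ideal.Quotient.mk m
  have e (P : MvPolynomial κ R) : eval₂ (π.comp C) (fun j => π (X j)) P = π P :=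
    (eval₂_comp_left π C X P).symm.trans (congrArg π (eval₂_eta P))
  obtain ⟨S, w, h1, h2, h3⟩ := h _ (π.comp C) (fun j => π (X j)) fun a => (e _).trans
    (Ideal.Quotient.eq_zero_iff_mem.2 (hle ⟨0, fun _ => zero_mem _, fun b => by
      simpa [dr] using Ideal.mul_mem_mul (hg a) (hg b)⟩))
  simp only [e] at h2 h3
  obtain ⟨L, hL⟩ := Smj.rinv (fun (a : S) j => π (pderiv j (g a))) fun n hn lam hl => by
    obtain rfl : n = ⊥ := (Ideal.eq_bot_or_top n).resolve_right hn.ne_top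
    choose l hl' using fun a => Ideal.Quotient.mk_surjective (lam a)
    have h4 := h3 (fun a => if ha : a ∈ S then l ⟨a, ha⟩ else 0) fun j => by
      rw [← Finset.sum_coe_sort, ← Ideal.mem_bot, ← Ideal.Quotient.eq_zero_iff_mem, ← hl j, map_sum]
      exact Finset.sum_congr rfl fun a _ => by rw [dif_pos a.2, map_mul, hl']
    funext a
    have h5 := h4 a a.2
    rw [dif_pos a.2] at h5
    rw [← hl', h5, map_zero, Pi.zero_apply]
  choose L' hL' using fun b j => Ideal.Quotient.mk_surjective (I := m) (L b j)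
  obtain ⟨M, hM⟩ : ∃ M : Matrix S S (MvPolynomial κ R),
      ∀ a b, M a b = ∑ j, pderiv j (g a) * L' b j := ⟨fun a b => _, fun _ _ => rfl⟩
  have hd : π M.det = 1 := by
    rw [RingHom.map_det, show π.mapMatrix M = 1 from ?_, Matrix.det_one]
    ext a b
    rw [RingHom.mapMatrix_apply, Matrix.map_apply, hM, map_sum, Matrix.one_apply, ← hL a b]
    exact Finset.sum_congr rfl fun j _ => by rw [map_mul, hL']
  obtain ⟨y, hy⟩ : ∃ y : κ → MvPolynomial κ R,
      ∀ j, y j = ∑ b, L' b j * (M.adjugate.mulVec fun s => g s) b := ⟨_, fun _ => rfl⟩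
  have y1 (j : κ) : y j ∈ 𝔞 := hy j ▸ sum_mem fun b _ => 𝔞.mul_mem_left _
    (sum_mem fun s _ => 𝔞.mul_mem_left _ (hg s))
  have y2 (a : S) : dr y (g a) = M.det * g a := by
    have h4 := congrFun (Matrix.mulVec_mulVec (fun s : S => g s) M M.adjugate) a
    rw [Matrix.mul_adjugate, Matrix.smul_mulVec, Matrix.one_mulVec, Pi.smul_apply, smul_eq_mul] at h4
    rw [← h4]
    simp only [dr, hy, Finset.mul_sum, ← mul_assoc]
    rw [Finset.sum_comm]
    exact Finset.sum_congr rfl fun b _ => by rw [← Finset.sum_mul, ← hM]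
  have y3 (r P : MvPolynomial κ R) (hP : P ∈ 𝔞) : dr y (r * P) - r * dr y P ∈ 𝔞 * 𝔞 := by
    refine (congrArg (· ∈ 𝔞 * 𝔞) ?_).mp
      (sum_mem fun j (_ : j ∈ Finset.univ) => (𝔞 * 𝔞).mul_mem_left (pderiv j r)
        (Ideal.mul_mem_mul hP (y1 j)))
    simp only [dr, Derivation.leibniz, smul_eq_mul, Finset.mul_sum, ← Finset.sum_sub_distrib]
    exact Finset.sum_congr rfl fun j _ => by ring
  have y4 (P : MvPolynomial κ R) (hP : P ∈ Ideal.span (g '' S)) :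
      P ∈ 𝔞 ∧ M.det * P - dr y P ∈ 𝔞 * 𝔞 := by
    induction hP using Submodule.span_induction with
    | mem P hP =>
      obtain ⟨a, ha, rfl⟩ := hP
      exact ⟨hg a, by rw [y2 ⟨a, ha⟩, sub_self]; exact zero_mem _⟩
    | zero => exact ⟨zero_mem _, by simp [dr]⟩
    | add P Q _ _ p q =>
      refine ⟨add_mem p.1 q.1, (congrArg (· ∈ 𝔞 * 𝔞) ?_).mp (add_mem p.2 q.2)⟩
      simp only [dr, map_add, add_mul, Finset.sum_add_distrib]
      ring
    | smul r P _ p =>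
      refine ⟨𝔞.mul_mem_left r p.1, (congrArg (· ∈ 𝔞 * 𝔞) ?_).mp
        (sub_mem ((𝔞 * 𝔞).mul_mem_left r p.2) (y3 r P p.1))⟩
      rw [smul_eq_mul]
      ring
  have hw : M.det * w ∈ W := by
    refine ⟨fun j => w * y j, fun j => 𝔞.mul_mem_left _ (y1 j), fun a => ?_⟩
    refine (congrArg (· ∈ 𝔞 * 𝔞) ?_).mp (add_mem (y4 _ (h1 a)).2 (y3 w _ (hg a)))
    simp only [dr, Finset.mul_sum, mul_left_comm w]
    ring
  have := Ideal.Quotient.eq_zero_iff_mem.2 (hle hw)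
  rw [map_mul, hd, one_mul] at this
  exact h2 this

/-- Jacobian criterion with redundant equations. -/
theorem smj {R κ ρ : Type} [CommRing R] [Finite κ] [Finite ρ] (g : ρ → MvPolynomial κ R)
    (h : ∀ (k : Type) [Field k] (ψ : R →+* k) (t : κ → k), (∀ a, eval₂ ψ t (g a) = 0) →
      ∃ (S : Finset ρ) (w : MvPolynomial κ R), (∀ a, w * g a ∈ Ideal.span (g '' S)) ∧
        eval₂ ψ t w ≠ 0 ∧ ∀ lam : ρ → k,
          (∀ j, ∑ a ∈ S, lam a * eval₂ ψ t (pderiv j (g a)) = 0) → ∀ a ∈ S, lam a = 0) :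
    Algebra.Smooth R (MvPolynomial κ R ⧸ Ideal.span (Set.range g)) := by
  have := Fintype.ofFinite κ
  obtain ⟨y, y1, y2⟩ := split g h
  set 𝔞 := Ideal.span (Set.range g)
  refine ⟨.of_comp_surjective fun B _ _ I hI φ => ?_,
    .quotient (Submodule.fg_span (Set.finite_range g))⟩
  choose s hs using Ideal.Quotient.mk_surjective (I := I)
  let u : κ → B := fun j => s (φ (Ideal.Quotient.mk 𝔞 (X j)))
  have hu (P : MvPolynomial κ R) : Ideal.Quotient.mk I (aeval u P) = φ (Ideal.Quotient.mk 𝔞 P) :=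
    DFunLike.congr_fun (algHom_ext (f := (Ideal.Quotient.mkₐ R I).comp (aeval u))
      (g := φ.comp (Ideal.Quotient.mkₐ R 𝔞)) fun j => by simp [u, hs]) P
  have hI2 {x y : B} (hx : x ∈ I) (hy : y ∈ I) : x * y = 0 :=
    Ideal.mem_bot.1 (hI ▸ pow_two I ▸ Ideal.mul_mem_mul hx hy)
  have h0 {P : MvPolynomial κ R} (hP : P ∈ 𝔞) : aeval u P ∈ I :=
    Ideal.Quotient.eq_zero_iff_mem.1 (by rw [hu, Ideal.Quotient.eq_zero_iff_mem.2 hP, map_zero])
  let v : κ → B := fun j => -aeval u (y j)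
  have hv (j : κ) : v j ∈ I := neg_mem (h0 (y1 j))
  have hz (a : ρ) : aeval (u + v) (g a) = 0 := by
    have e : aeval u (g a - dr y (g a)) = 0 := Submodule.mul_induction_on (y2 a)
      (fun P hP Q hQ => by rw [map_mul]; exact hI2 (h0 hP) (h0 hQ))
      fun P Q p q => by rw [map_add, p, q, add_zero]
    rw [Smj.taylor u v fun i j => hI2 (hv i) (hv j), ← e, map_sub, sub_eq_add_neg]
    simp only [v, dr, map_sum, map_mul, mul_neg, Finset.sum_neg_distrib]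
  refine ⟨Ideal.Quotient.liftₐ 𝔞 (aeval (u + v)) fun P hP => ?_, Ideal.Quotient.algHom_ext _
    (algHom_ext fun j => ?_)⟩
  · exact (Ideal.span_le (I := RingHom.ker (aeval (u + v) : MvPolynomial κ R →ₐ[R] B))).2
      (by rintro _ ⟨a, rfl⟩; exact hz a) hP
  · change Ideal.Quotient.mk I (aeval (u + v) (X j : MvPolynomial κ R)) = _
    rw [aeval_X, Pi.add_apply, map_add, Ideal.Quotient.eq_zero_iff_mem.2 (hv j), add_zero]
    exact hs _

variable {κ : Type} [Fintype κ] [DecidableEq κ] {c : ℕ} {e : Fin c → κ → ℕ}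

theorem eval_gp {R k : Type} [CommRing R] [CommRing k] (cf : MI e → R) (ψ : R →+* k)
    (x : XV κ → k) (a : Fin c) : eval₂ ψ x (gp cf a) = gen (ψ ∘ cf) a x := by
  rw [gp, ← coe_eval₂Hom, ZP.map_gen]
  congr 1 <;> funext v <;> simp

theorem gp_hom {R : Type} [CommRing R] (cf : MI e → R) (a : Fin c) (k : κ) :
    (gp cf a).IsWeightedHomogeneous (fun v => if v.1 = k then 1 else 0) (e a k) := by
  refine IsWeightedHomogeneous.sum _ _ _ fun j _ => ?_
  have h := (IsWeightedHomogeneous.prod Finset.univ _ _ fun l _ =>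
      ((isWeightedHomogeneous_X R (fun v : XV κ => if v.1 = k then 1 else 0) (l, 0)).pow
        (e a l - j l)).mul ((isWeightedHomogeneous_X R _ (l, 1)).pow (j l))).C_mul (cf ⟨a, j⟩)
  refine (congrArg (IsWeightedHomogeneous _ _) ?_).mp h
  have := (j k).2
  simp [Finset.sum_add_distrib]
  omega

/-- Euler's identity in the block `k`. -/
theorem euler {R D : Type} [CommRing R] [CommRing D] (cf : MI e → R) (ψ : R →+* D)
    (x : XV κ → D) (a : Fin c) (k : κ) :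
    ∑ i, x (k, i) * eval₂ ψ x (pderiv (k, i) (gp cf a)) = e a k * gen (ψ ∘ cf) a x := by
  have h := congrArg (eval₂Hom ψ x) (gp_hom cf a k).sum_weight_X_mul_pderiv
  rw [map_nsmul, coe_eval₂Hom, eval_gp, nsmul_eq_mul] at h
  rw [← h, ← coe_eval₂Hom, map_sum, Fintype.sum_prod_type, Finset.sum_eq_single k]
  · simp
  · intro l _ hl
    simp [hl]
  · simp

omit [Fintype κ] in
theorem pderiv_ch {R : Type} [CommRing R] (σ : κ → Fin 2) (j : κ) (P : MvPolynomial (XV κ) R) :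
    pderiv j (aeval (ZP.xv σ X) P : MvPolynomial κ R) =
      aeval (ZP.xv σ X) (pderiv (j, (σ j).rev) P) := by
  induction P using MvPolynomial.induction_on with
  | C a => simp
  | add p q hp hq => simp only [map_add, hp, hq]
  | mul_X p v hp =>
    obtain ⟨l, i⟩ := v
    have h : pderiv j (ZP.xv σ X (l, i) : MvPolynomial κ R) =
        aeval (ZP.xv σ X) (pderiv (j, (σ j).rev) (X (l, i) : MvPolynomial (XV κ) R)) := by
      by_cases hl : l = j
      · subst hl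
        simp only [ZP.xv, ZP.vc, pderiv_X, Pi.single_apply, Prod.mk.injEq, true_and]
        generalize σ l = s
        fin_cases s <;> fin_cases i <;> simp
      · simp only [ZP.xv, ZP.vc, pderiv_X, Pi.single_apply, Prod.mk.injEq, hl, false_and, if_false,
          map_zero]
        split_ifs <;> simp [hl]
    simp only [map_mul, Derivation.leibniz, smul_eq_mul, map_add, aeval_X, hp, h]

omit [Fintype κ] [DecidableEq κ] in
theorem eval_ch {R k : Type} [CommRing R] [CommRing k] (ψ : R →+* k) (σ : κ → Fin 2) (t : κ → k)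
    (P : MvPolynomial (XV κ) R) :
    eval₂ ψ t (aeval (ZP.xv σ X) P : MvPolynomial κ R) = eval₂ ψ (ZP.xv σ t) P := by
  have h := ZP.map_xv (eval₂Hom ψ t) σ X
  rw [show eval₂Hom ψ t ∘ X = t from funext fun j => eval₂Hom_X' _ _ j] at h
  rw [← h, aeval_def, ← coe_eval₂Hom, eval₂_comp_left]
  congr 1
  exact RingHom.ext fun r => eval₂Hom_C _ _ r

theorem ch_gp {R : Type} [CommRing R] (cf : MI e → R) (σ : κ → Fin 2) (a : Fin c) :
    aeval (ZP.xv σ X) (gp cf a) = aff cf σ a := by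
  rw [aeval_def, eval_gp]
  rfl

theorem smooth_aff {R : Type} [CommRing R] {cf : MI e → R} (A : Loc cf)
    (h : ∀ (k : Type) [Field k] (ψ : R →+* k), A.Sm ψ) (σ : κ → Fin 2) :
    Algebra.Smooth R (MvPolynomial κ R ⧸ Ideal.span (Set.range (aff cf σ))) := by
  refine smj _ fun k _ ψ t ht => ?_
  have hz : Ze cf ψ (ZP.xv σ t) := fun a => by rw [← eval_gp, ← eval_ch, ch_gp, ht]
  obtain ⟨s, h1, h2⟩ := h k ψ (ZP.xv σ t) (fun j => ⟨σ j, by simp [ZP.xv, ZP.vc]⟩) hz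
  refine ⟨A.S s, aeval (ZP.xv σ X) (A.h s), fun a => ?_, by rwa [eval_ch], fun lam hl => ?_⟩
  · have h3 := Ideal.mem_map_of_mem (aeval (ZP.xv σ X) : _ →ₐ[R] MvPolynomial κ R) (A.idn s a)
    rwa [Ideal.map_span, map_mul, ch_gp, Set.image_image, funext (ch_gp cf σ)] at h3
  have h4 (j : κ) : ∑ a ∈ A.S s, lam a *
      eval₂ ψ (ZP.xv σ t) (pderiv (j, (σ j).rev) (gp cf a)) = 0 := by
    simpa only [← ch_gp, pderiv_ch, eval_ch] using hl j
  refine h2 lam fun ⟨j, i⟩ => ?_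
  by_cases hi : i = (σ j).rev
  · exact hi ▸ h4 j
  have h5 (a : Fin c) : eval₂ ψ (ZP.xv σ t) (pderiv (j, i) (gp cf a)) =
      -t j * eval₂ ψ (ZP.xv σ t) (pderiv (j, (σ j).rev) (gp cf a)) := by
    have h6 := euler cf ψ (ZP.xv σ t) a j
    rw [hz, mul_zero, Fin.sum_univ_two] at h6
    have x0 : ∀ i, ZP.xv σ t (j, i) = if i = σ j then 1 else t j := fun _ => rfl
    rw [x0, x0] at h6
    generalize ZP.xv σ t = x at h6 ⊢
    generalize σ j = s at h6 hi ⊢
    fin_cases s <;> fin_cases i <;> simp at h6 hi ⊢ <;> linear_combination h6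
  simp only [h5, mul_left_comm _ (-t j), ← Finset.mul_sum, h4, mul_zero]

end Zsm

theorem zsmc : ZSMC_s := by
  intro κ _ _ c e R _ cf A X f z h hA
  obtain ⟨g, h1, h2⟩ := ZP.charts h
  refine IsZariskiLocalAtSource.of_openCover (.mkOfCovers _ _ g h2 fun σ => (h1 σ).2) fun σ => ?_
  have := Zsm.smooth_aff A hA σ
  exact (h1 σ).1.1 ▸ (HasRingHomProperty.Spec_iff (P := @Smooth)).2 (RingHom.smooth_algebraMap.2 this)

end Pool.Agent.MP_855f4c_ag.Cu

end

section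

/-! h92c row FAMC: the smooth family through a generic member. -/

open MvPolynomial AlgebraicGeometry

namespace Pool.Agent.MP_855f4c_ag.Cu

open T

namespace Famc

variable {κ : Type} [Fintype κ] [DecidableEq κ] {R R' k : Type} [CommRing R] [CommRing R']
  [CommRing k] {c c₁ c₀ : ℕ} {e : Fin c → κ → ℕ} {e₁ : Fin c₁ → κ → ℕ} {e₀ : Fin c₀ → κ → ℕ}

lemma gp_map (φ : R →+* R') (cf : MI e → R) (a : Fin c) : gp (φ ∘ cf) a = map φ (gp cf a) := by
  rw [gp, gp, ZP.map_gen]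
  congr 1 <;> funext v <;> simp

lemma ev_gp (cf : MI e → R) (a : Fin c) (ψ : R →+* k) (x : XV κ → k) :
    eval₂ ψ x (gp cf a) = gen (ψ ∘ cf) a x := by
  rw [gp, ← coe_eval₂Hom, ZP.map_gen]
  congr 1 <;> funext v <;> simp

lemma ev_pd (φ : R →+* R') (cf : MI e → R) (a : Fin c) (ψ : R' →+* k) (x : XV κ → k) (v : XV κ) :
    eval₂ ψ x (pderiv v (gp (φ ∘ cf) a)) = eval₂ (ψ.comp φ) x (pderiv v (gp cf a)) := by
  rw [gp_map, pderiv_map, eval₂_map]

/-- Base change of local systems. -/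
lemma lmap (φ : R →+* R') {cf : MI e → R} (A : Loc cf) : ∃ A' : Loc (φ ∘ cf),
    (∀ σ', ∃ σ, A'.S σ' = A.S σ) ∧
    ∀ (k : Type) [CommRing k] (ψ : R' →+* k), A.Sm (ψ.comp φ) → A'.Sm ψ := by
  refine ⟨⟨A.ns, A.S, fun σ => map φ (A.h σ), A.dh, fun σ d hd => A.hom σ fun h0 => hd ?_,
    fun σ a => ?_⟩, fun σ => ⟨σ, rfl⟩, fun k _ ψ h x hx hz => ?_⟩
  · rw [coeff_map, h0, map_zero]
  · have := Ideal.mem_map_of_mem (map φ) (A.idn σ a)
    rw [Ideal.map_span, map_mul, Set.image_image] at this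
    simpa only [gp_map] using this
  · obtain ⟨σ, h1, h2⟩ := h x hx hz
    exact ⟨σ, by rwa [eval₂_map], fun lam hl => h2 lam fun v => by simpa only [ev_pd] using hl v⟩

lemma jn (cf₁ : MI e₁ → R) (cf₀ : MI e₀ → R) :
    ∃ (c : ℕ) (e : Fin c → κ → ℕ) (cf : MI e → R), Jn cf cf₁ cf₀ := by
  let j : Fin c₁ ⊕ Fin c₀ ≃ Fin (c₁ + c₀) := finSumFinEquiv
  let E : Fin c₁ ⊕ Fin c₀ → κ → ℕ := Sum.elim e₁ e₀
  let g : ∀ s, (∀ k, Fin (E s k + 1)) → R := fun s =>
    Sum.rec (motive := fun s => (∀ k, Fin (E s k + 1)) → R)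
      (fun i m => cf₁ ⟨i, m⟩) (fun i m => cf₀ ⟨i, m⟩) s
  let G : Fin c₁ ⊕ Fin c₀ → MvPolynomial (XV κ) R := fun s => ∑ m, C (g s m) * mon m X
  exact ⟨_, fun a => E (j.symm a), fun i => g _ i.2, j,
    fun i => ⟨congrArg E (j.symm_apply_apply _), congrArg G (j.symm_apply_apply (.inl i))⟩,
    fun i => ⟨congrArg E (j.symm_apply_apply _), congrArg G (j.symm_apply_apply (.inr i))⟩⟩

lemma jn_map {cf : MI e → R} {cf₁ : MI e₁ → R} {cf₀ : MI e₀ → R} (h : Jn cf cf₁ cf₀)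
    (φ : R →+* R') : Jn (φ ∘ cf) (φ ∘ cf₁) (φ ∘ cf₀) := by
  obtain ⟨j, h1, h2⟩ := h
  exact ⟨j, fun i => ⟨(h1 i).1, by rw [gp_map, gp_map, (h1 i).2]⟩,
    fun i => ⟨(h2 i).1, by rw [gp_map, gp_map, (h2 i).2]⟩⟩

/-- The local systems of a union. -/
lemma join {cf : MI e → R} {cf₁ : MI e₁ → R} {cf₀ : MI e₀ → R} (h : Jn cf cf₁ cf₀) (A : Loc cf₁) :
    ∃ A' : Loc cf, ∀ ψ : R →+* k, A.Sm ψ →
      (∀ x, Nz x → Ze cf₁ ψ x → Ze cf₀ ψ x → ∀ σ (lam : Fin c₁ → k) (mu : Fin c₀ → k),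
        (∀ v, ∑ j ∈ A.S σ, lam j * eval₂ ψ x (pderiv v (gp cf₁ j)) +
          ∑ b, mu b * eval₂ ψ x (pderiv v (gp cf₀ b)) = 0) → mu = 0) → A'.Sm ψ := by
  obtain ⟨j, h1, h2⟩ := h
  let S := fun σ => ((A.S σ).disjSum Finset.univ).map j.toEmbedding
  have m (σ s) : j s ∈ S σ ↔ s ∈ (A.S σ).disjSum Finset.univ := Finset.mem_map' j.toEmbedding
  refine ⟨⟨A.ns, S, A.h, A.dh, A.hom, fun σ a => ?_⟩, fun ψ hA hB x hx hz => ?_⟩
  · obtain ⟨i | i, rfl⟩ := j.surjective a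
    · rw [(h1 i).2]
      refine Ideal.span_mono ?_ (A.idn σ i)
      rintro _ ⟨b, hb, rfl⟩
      exact ⟨j (.inl b), (m σ _).2 (Finset.inl_mem_disjSum.2 hb), (h1 b).2⟩
    · exact Ideal.mul_mem_left _ _ (Ideal.subset_span
        ⟨_, (m σ _).2 (Finset.inr_mem_disjSum.2 (Finset.mem_univ i)), rfl⟩)
  have z1 : Ze cf₁ ψ x := fun i => by rw [← ev_gp, ← (h1 i).2, ev_gp, hz]
  have z0 : Ze cf₀ ψ x := fun i => by rw [← ev_gp, ← (h2 i).2, ev_gp, hz]
  obtain ⟨σ, p, q⟩ := hA x hx z1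
  refine ⟨σ, p, fun lam hl a ha => ?_⟩
  have hl' := fun v => hl v
  simp only [S, Finset.sum_map, Finset.sum_disjSum, Equiv.coe_toEmbedding, (h1 _).2,
    (h2 _).2] at hl'
  have h0 := congrFun (hB x hx z1 z0 σ _ _ hl')
  obtain ⟨i | i, rfl⟩ := j.surjective a
  · refine q (fun i => lam (j (.inl i))) (fun v => ?_) i (Finset.inl_mem_disjSum.1 ((m σ _).1 ha))
    simpa only [h0, Pi.zero_apply, zero_mul, Finset.sum_const_zero, add_zero] using hl' v
  · exact h0 i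

end Famc

open Famc in
theorem famc (hB : BERTC_s) (hS : SPR_s) (hZ : ZSMC_s) : FAMC_s := by
  intro F κ κ₀ R _ _ _ _ _ hR c e cf A a c₀ e₀ E y hA he ha hy
  let R₂ := MvPolynomial (MI e₀) R
  let a₂ : R₂ →+* F := eval₂Hom a y
  have ha₂ : a₂.comp C = a := RingHom.ext fun r => eval₂Hom_C _ _ r
  have hy₂ : a₂ ∘ X = y := funext fun i => eval₂Hom_X' _ _ i
  obtain ⟨c', e', cf', hJ⟩ := jn ((C : R →+* R₂) ∘ cf) (X : MI e₀ → R₂)
  obtain ⟨A₁, s₁, h₁⟩ := lmap (C : R →+* R₂) A.toLoc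
  obtain ⟨A₂, h₂⟩ := join (k := F) hJ A₁
  obtain ⟨Δ, hΔ, h₃⟩ := hS F κ c' e' R₂ cf' A₂ a₂ (h₂ a₂ (h₁ F a₂ (ha₂.symm ▸ hA))
    fun x hx z1 z0 σ' lam mu hl => by
      obtain ⟨σ, hσ⟩ := s₁ σ'
      refine hB F κ κ₀ R c e cf A a c₀ e₀ E y he ha hy x hx (ha₂ ▸ z1) (hy₂ ▸ z0) σ lam mu
        fun v => ?_
      have := hl v
      simp only [hσ, ev_pd, ha₂] at this
      simpa only [← hy₂, gp_map, pderiv_map, eval_map] using this)
  let R' := Localization.Away Δ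
  let ι := algebraMap R₂ R'
  have hu : IsUnit (ι Δ) := IsLocalization.Away.algebraMap_isUnit Δ
  let a' : R' →+* F := IsLocalization.Away.lift Δ hΔ.isUnit
  have ha' : a'.comp ι = a₂ := IsLocalization.Away.lift_comp Δ _
  obtain ⟨A₃, -, h₄⟩ := lmap ι A₂
  obtain ⟨Y, f, z, hp, hz⟩ := zlx κ c' e' R' (ι ∘ cf')
  refine ⟨R', _, ι.comp C, a', ι ∘ X, c', e', ι ∘ cf', Y, f, z, ?_, ?_, ?_, jn_map hJ ι,
    hZ κ c' e' R' _ A₃ Y f z hz fun k _ ψ => h₄ k ψ (h₃ k _ (hu.map ψ).ne_zero), hp, hz⟩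
  · have t1 : (algebraMap ℤ R).Smooth := RingHom.smooth_algebraMap.2 hR
    have t2 : (algebraMap R R₂).Smooth := RingHom.smooth_algebraMap.2 ⟨inferInstance, inferInstance⟩
    have t3 : ι.Smooth := RingHom.smooth_algebraMap.2 (.of_isLocalization_Away Δ)
    have t4 := (t1.comp t2).comp t3
    rw [RingHom.ext_int (RingHom.comp _ _) (@algebraMap ℤ R' _ _ (Ring.toIntAlgebra R'))] at t4
    exact (@RingHom.smooth_algebraMap ℤ R' _ _ (Ring.toIntAlgebra R')).1 t4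
  · rw [← RingHom.comp_assoc, ha', ha₂]
  · rw [← Function.comp_assoc, ← RingHom.coe_comp, ha', hy₂]

end Pool.Agent.MP_855f4c_ag.Cu

end
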