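import Pool.Agent.MP_855f4c_ag.CC.Cg
import Pool.Agent.MP_855f4c_ag.TC.QQ
import Pool.Agent.MP_855f4c_ag.TC.Tj
import Pool.Agent.MP_855f4c_ag.EG.Ga

set_option linter.all false

section

/-! h92c row APXC: assembly of the approximation. -/

set_option backward.isDefEq.respectTransparency false

open CategoryTheory Limits AlgebraicGeometry MvPolynomial Filter

namespace Pool.Agent.MP_855f4c_ag.Cu

open T E

namespace Ax

section
variable {κ : Type} [Fintype κ] [DecidableEq κ] {R k : Type} [CommRing R] [CommRing k]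

lemma ev_gp {c : ℕ} {e : Fin c → κ → ℕ} (cf : MI e → R) (a : Fin c) (ψ : R →+* k)
    (x : XV κ → k) : eval₂ ψ x (gp cf a) = gen (ψ ∘ cf) a x := by
  rw [gp, ← coe_eval₂Hom, Bez.map_gen]
  congr 1 <;> funext v <;> simp

lemma gp_map {c : ℕ} {e : Fin c → κ → ℕ} (cf : MI e → R) (a : Fin c) (ψ : R →+* k) :
    gp (ψ ∘ cf) a = map ψ (gp cf a) := by
  rw [gp, gp, Bez.map_gen]
  congr 1 <;> funext v <;> simp

variable {c c₁ c₀ : ℕ} {e : Fin c → κ → ℕ} {e₁ : Fin c₁ → κ → ℕ} {e₀ : Fin c₀ → κ → ℕ}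
  {cf : MI e → R} {cf₁ : MI e₁ → R} {cf₀ : MI e₀ → R}

lemma jn_map (h : Jn cf cf₁ cf₀) (ψ : R →+* k) : Jn (ψ ∘ cf) (ψ ∘ cf₁) (ψ ∘ cf₀) :=
  h.imp fun _ h => ⟨fun i => ⟨(h.1 i).1, by rw [gp_map, gp_map, (h.1 i).2]⟩,
    fun i => ⟨(h.2 i).1, by rw [gp_map, gp_map, (h.2 i).2]⟩⟩

lemma jn_ze (h : Jn cf cf₁ cf₀) {ψ : R →+* k} {x : XV κ → k} (hx : Ze cf ψ x) :
    Ze cf₁ ψ x ∧ Ze cf₀ ψ x := by
  obtain ⟨j, h1, h0⟩ := h
  exact ⟨fun i => by rw [← ev_gp, ← (h1 i).2, ev_gp, hx], fun i => by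
    rw [← ev_gp, ← (h0 i).2, ev_gp, hx]⟩

lemma ze_smul {u : R} (ψ : R →+* k) (hu : IsUnit (ψ u)) (x : XV κ → k) :
    Ze (fun i => u * cf i) ψ x ↔ Ze cf ψ x := forall_congr' fun a => by
  rw [show ψ ∘ (fun i => u * cf i) = fun i => ψ u * (ψ ∘ cf) i from funext fun i => map_mul _ _ _,
    M0.gen_smul, hu.mul_right_eq_zero]

lemma zl_smul {u : R} (hu : IsUnit u) {X : Scheme.{0}} {f : X ⟶ Spec (.of R)} {z : κ → (X ⟶ P1)}
    (h : ZL f z cf) : ZL f z fun i => u * cf i :=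
  ⟨h.inj, fun D _ τ y => (h.mem D τ y).trans (forall₅_congr fun _ _ ψ x _ =>
    (ze_smul (ψ.comp τ) (hu.map _) x).symm)⟩

end

lemma ctb {R F : Type} [CommRing R] [Algebra.FiniteType ℤ R] [Field F] (a : R →+* F) :
    Countable (Subfield.closure (Set.range a)) := by
  obtain ⟨n, g, hg⟩ := Algebra.FiniteType.iff_quotient_mvPolynomial''.1 ‹Algebra.FiniteType ℤ R›
  refine Cardinal.mk_le_aleph0_iff.1 ((Subfield.cardinalMk_closure_le_max _).trans (max_le
    (Cardinal.mk_range_le.trans ((Cardinal.mk_le_of_surjective hg).trans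
      (cardinalMk_le_max.trans (by simp)))) le_rfl))

variable {p : ℕ} [Fact p.Prime] {F F' : Type} [NormedField F] [NormedField F'] (T : Tl p F F')

lemma norm_β (c : PadicAlgCl p) : ‖T.β c‖ = ‖c‖ := by
  rw [← T.sh_norm, Tl.β, T.sh_rt, T.ι_norm]

lemma norm_p : ‖(p : PadicAlgCl p)‖ < 1 := by
  rw [← map_natCast (algebraMap ℚ_[p] _)]
  exact (PadicAlgCl.norm_extends p _).trans_lt Padic.norm_p_lt_one

lemma ev_le (s : T.B) {ϱ : ℝ} (h : 1 < ϱ) : ∀ᶠ M in T.U, ‖T.lv M s‖ ≤ ϱ := by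
  obtain ⟨c, hc⟩ := (T.mem _).1 s.2
  have hp := (Fact.out : p.Prime).one_lt
  filter_upwards [hc, T.le (((tendsto_pow_atTop_atTop_of_one_lt h).comp
    (tendsto_pow_atTop_atTop_of_one_lt hp)).eventually_ge_atTop c)] with M h1 h2
  exact (pow_le_pow_iff_left₀ (norm_nonneg _) (by linarith) (pow_pos (by omega) M).ne').1
    (h1.trans h2)

/-- The geometric part of the approximation. -/
def CB {p : ℕ} [Fact p.Prime] (l : ℕ) [Fact l.Prime] {κ₀ κ R : Type} [Fintype κ₀] [Fintype κ]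
    [DecidableEq κ] {c : ℕ} {e : Fin c → κ → ℕ} [CommRing R] [Algebra R (PadicAlgCl p)]
    {Z : Scheme.{0}} (F : Z ⟶ Spec (.of R)) (z : κ → (Z ⟶ P1)) (c' : MI e → PadicAlgCl p)
    (ω : (κ₀ → ℤ) →+ (κ → ℤ)) (P : MvPolynomial κ₀ ℤ) (Q : Prop) : Prop :=
  ZL (X := (fbr F (spc (algebraMap R (PadicAlgCl p)))).left) (pullback.fst _ _)
    (fun k => pullback.snd _ _ ≫ z k) c' ∧
  Bez l (Z := (fbr F (spc (algebraMap R (PadicAlgCl p)))).left) (pullback.fst _ _)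
    (fun k => pullback.snd _ _ ≫ z k) ω P ∧ Q

lemma cb {l : ℕ} [Fact l.Prime] {κ₀ κ R : Type} [Fintype κ₀] [Fintype κ]
    [DecidableEq κ] {c : ℕ} {e : Fin c → κ → ℕ} [CommRing R] [Algebra R (PadicAlgCl p)]
    {Z : Scheme.{0}} {F : Z ⟶ Spec (.of R)} {z : κ → (Z ⟶ P1)} {cf : MI e → R} {u : PadicAlgCl p}
    {ω : (κ₀ → ℤ) →+ (κ → ℤ)} {P : MvPolynomial κ₀ ℤ} {Q : Prop} (hZ : ZLB_s) (hu : u ≠ 0)
    (h : ZL F z cf) (hB : ∀ (Y : Scheme.{0}) (g : Y ⟶ Spec (.of (PadicAlgCl p))) (y : κ → (Y ⟶ P1)),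
      ZL g y (algebraMap R _ ∘ cf) → Bez l g y ω P) (hQ : Q) :
    CB l F z (fun i => u * (algebraMap R _ ∘ cf) i) ω P Q :=
  have zl' := Mglue.zl hZ h (c' := algebraMap R _ ∘ cf) fun _ => rfl
  ⟨zl_smul hu.isUnit zl', hB _ _ _ zl', hQ⟩

open LP in
lemma ca {l : ℕ} [Fact l.Prime] {K κ₀ σ β : Type} [CommRing K] [Fintype κ₀]
    {τ : K →+* PadicAlgCl p} {w : σ → κ₀ → ℤ} {G : β → MvPolynomial σ K} {P : MvPolynomial κ₀ ℤ}
    (h : ∀ n : ℕ, ∃ (κ : Type) (_ : Fintype κ) (_ : DecidableEq κ) (c : ℕ) (e : Fin c → κ → ℕ)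
    (R : Type) (_ : CommRing R) (_ : Algebra.FiniteType ℤ R) (_ : Algebra R (PadicAlgCl p))
    (Z : Scheme.{0}) (F : Z ⟶ Spec (.of R)) (z : κ → (Z ⟶ P1)) (c' : MI e → PadicAlgCl p)
    (ω : (κ₀ → ℤ) →+ (κ → ℤ)) (θ : σ → MvPolynomial (XY κ) (PadicAlgCl p)),
    IsProper F ∧ (∀ i, ‖c' i‖ ≤ 1) ∧ CB l F z c' ω P
      ((∀ (i : ℕ) (φ u : PadicAlgCl p ≃ₐ[R] PadicAlgCl p) (Q : ℕ), 1 < Q →
        Frob ℤ_[p] Q φ → Frob ℤ_[p] 1 u →
        (∃ (n : ℕ) (r : PadicAlgCl p) (o : ℤ_[p]), r ^ l ^ n = algebraMap _ _ o ∧ u r ≠ r) →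
        Mw Q i (E.gal F l i φ) (E.gal F l i u)) ∧
      (∀ v, Hg (ω (w v)) (θ v)) ∧ Val p τ G c' θ 0 n)) : CApx p l τ w G P := ⟨0, h⟩

end Ax

open Ax in
theorem apxc (h0 : F0_s) (hC : CURVE_s) (hO : MODEL_s) (hP : PROD_s) (hG : GEN_s) (hF : FAMC_s)
    (hN : E.G.NGL_s) (hL : LIFT_s) (hB : BEZC_s) (hZ : ZLB_s) (hV : VAL_s) : APXC_s := by
  intro p l _ _ hl κ₀ _ _ r u J dJ c f e hJ hf hf1
  obtain ⟨F, F', _, _, _, _, _, _, _, _, ⟨T⟩⟩ := h0 p
  have hp : (p : PadicAlgCl p) ≠ 0 := Nat.cast_ne_zero.2 (Fact.out : p.Prime).ne_zero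
  refine ca fun n => ?_
  choose s₀ hs₀ using fun b => hC p F F' T (r b) (u b) (J b) (dJ b) (hJ b) (n + 1)
  choose 𝒦 i1 i2 x s₁ ζ k1 k2 k3 k4 using fun b => hs₀ b (Finset.univ.sup s₀)
    (Finset.le_sup (f := s₀) (Finset.mem_univ b))
  choose κ i3 i4 d₁ e₂ R₁ i5 cf₁ a₁ A₁ m1 m2 m3 using fun b => hO F (𝒦 b) (x b) (k1 b) (k2 b)
  obtain ⟨d, e₁, R, _, cf, a, A, _, hA, p1, p2, p3, p4⟩ := hP F κ₀ κ d₁ e₂ R₁ cf₁ a₁ A₁ m1 m2
  obtain ⟨e₀, y₀, ρ, N', hρ, hN', b1, b2, hM⟩ := hV p F F' T κ₀ r u J dJ c f e hJ hf hf1 n _ 𝒦 x s₁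
    ζ k3 k4 κ d₁ e₂ R₁ cf₁ a₁ _ _ m3
  have := ctb a
  obtain ⟨y, hy, hy'⟩ := hG F (T.β p) (by rwa [norm_β, norm_pos_iff]) ((norm_β T _).trans_lt norm_p)
    (Subfield.closure (Set.range a)) (MI e₀) y₀ ρ hρ
  obtain ⟨R', _, φ, a', cf₀, c', e', cf', Z, g, z, _, s2, s3, s4, _, _, zl⟩ := hF F _ κ₀ R d e₁ cf A
    a c e₀ _ y hA (by simpa only [p1] using b1)
    (fun x => Subfield.subset_closure (Set.mem_range_self x)) hy
  obtain ⟨s, hs⟩ := (inferInstance : Algebra.FiniteType ℤ R').out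
  obtain ⟨ϱ, hϱ, mw⟩ := hN R' s s.finite_toSet hs Z g p l hl
  obtain ⟨b, rfl⟩ := hL p F F' T R' a'
  obtain ⟨M, h1, N, θ, hN0, t1, t2⟩ := (((eventually_all_finset s).2 fun x _ =>
    ev_le T (b x) hϱ).and (hM y hy' c' e' (b ∘ cf') fun w hw =>
      have := jn_ze s4 (ψ := T.π.comp b) hw
      ⟨p4 w (s2 ▸ this.1), fun t => s3 ▸ this.2 t⟩)).exists
  let τ := (T.lv M).comp b
  let : Algebra R' (PadicAlgCl p) := τ.toAlgebra
  obtain ⟨k, hk⟩ := M0.dens p fun i => (C (τ (cf' i)) : MvPolynomial Unit (PadicAlgCl p))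
  refine ⟨_, _, _, c', e', R', _, inferInstance, _, Z, g, z, _, push A.inc N, θ, ‹_›, fun i => ?_,
    cb hZ (pow_ne_zero k hp) zl (fun Y g' y' zl' => hB l _ _ κ₀ R d e₁ cf A (τ.comp φ) c e₀ (τ ∘ cf₀)
      c' e' _ Y g' y' (jn_map s4 τ) zl' N N' e hN0 hN' (by simpa only [p1, p3] using b2))
      ⟨mw h1, (funext p2 : A.inc = _) ▸ t1, t2 _ (pow_ne_zero _ hp)⟩⟩
  show ‖p ^ k * τ (cf' i)‖ ≤ 1
  simpa [M0.mem_OK] using hk i _ (M0.OK p _) (RingHom.id _) 0 (fun _ h => h) fun _ => zero_mem _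

end Pool.Agent.MP_855f4c_ag.Cu

end

section

/-! h92c row LC: the final statement from the approximation. -/

set_option backward.isDefEq.respectTransparency false

open CategoryTheory Limits AlgebraicGeometry MvPolynomial

namespace Pool.Agent.MP_855f4c_ag.Cu

open T G.La Lr

attribute [local instance] MvPolynomial.gradedAlgebra

namespace Lc

section
variable {K K' σ τ M N : Type} [CommRing K] [CommRing K'] [AddCommGroup M] [AddCommMonoid N]

theorem hren {w : σ → M} (w' : τ → M) {f : σ → τ} (h : ∀ s, w' (f s) = w s)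
    {P : MvPolynomial σ K} {n : M} (hP : P.IsWeightedHomogeneous w n) :
    (rename f P).IsWeightedHomogeneous w' n := by
  rw [rename_eq_aeval]
  exact subst w' (.id _) (fun s => h s ▸ isWeightedHomogeneous_X K w' (f s)) hP

theorem hblk (w' : τ → M) (x : M) {f : σ → τ} (h : ∀ s, w' (f s) = x)
    {P : MvPolynomial σ K} {n : ℕ} (hP : P.IsHomogeneous n) :
    (rename f P).IsWeightedHomogeneous w' (n • x) := by
  rw [rename_eq_aeval]
  refine subst w' (u := 1) (multiplesHom M x) (fun s => ?_) hP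
  rw [multiplesHom_apply, Pi.one_apply, one_nsmul, ← h s]
  exact isWeightedHomogeneous_X K w' (f s)

theorem hmap {w : σ → N} (φ : K →+* K') {P : MvPolynomial σ K} {n : N}
    (hP : P.IsWeightedHomogeneous w n) : (map φ P).IsWeightedHomogeneous w n :=
  fun d hd => hP fun h0 => hd (by rw [coeff_map, h0, map_zero])

theorem hiff (φ : N →+ M) (hφ : Function.Injective φ) {w : σ → N} {w' : σ → M}
    (h : ∀ s, w' s = φ (w s)) {P : MvPolynomial σ K} {n : N} :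
    P.IsWeightedHomogeneous w' (φ n) ↔ P.IsWeightedHomogeneous w n := by
  refine forall_congr' fun d => imp_congr_right fun _ => ?_
  rw [← hφ.eq_iff, Finsupp.weight_apply, Finsupp.weight_apply, map_finsuppSum]
  simp only [h, map_nsmul]

end

/-- Casting weights. -/
def wc (κ : Type) : (κ → ℕ) →+ (κ → ℤ) where
  toFun e := fun j => e j
  map_zero' := rfl
  map_add' _ _ := funext fun _ => Nat.cast_add _ _

theorem scale {p : ℕ} [hp : Fact p.Prime] {K σ : Type} [Field K] [Algebra K (PadicAlgCl p)]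
    (P : MvPolynomial σ K) :
    ∃ k : ℕ, In1 (map (algebraMap K (PadicAlgCl p)) (C ((p : K) ^ k) * P)) := by
  have h1 : ‖(p : PadicAlgCl p)‖ < 1 := by
    rw [← map_natCast (algebraMap ℚ_[p] (PadicAlgCl p)), norm_algebraMap']
    exact Padic.norm_p_lt_one
  obtain ⟨k, hk⟩ := ((Filter.eventually_all_finset P.support).2 fun m _ =>
    ((tendsto_pow_atTop_nhds_zero_of_lt_one (norm_nonneg _) h1).mul_const
      ‖algebraMap K (PadicAlgCl p) (coeff m P)‖).eventually_le_const (by simp : _ < (1 : ℝ))).exists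
  refine ⟨k, fun m => ?_⟩
  rw [coeff_map, coeff_C_mul, map_mul, map_pow, map_natCast, norm_mul, norm_pow]
  by_cases h : m ∈ P.support
  · exact hk m h
  · simp [notMem_support_iff.1 h]

theorem cd_line {p : ℕ} [Fact p.Prime] (J : Fin 0 → MvPolynomial (CV 0) (PadicAlgCl p))
    (dJ : Fin 0 → ℕ) : CD J dJ := by
  have h (o : Option (Fin 2)) : In1 (X o : MvPolynomial _ (PadicAlgCl p)) := fun m => by
    rw [coeff_X]
    split_ifs <;> simp
  refine ⟨X (some 1), X none, 1, 1, Fin.elim0, Fin.elim0, Fin.elim0, one_pos, isHomogeneous_X _ _,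
    by simp [degreeOf_X], by simp, h _, ⟨one_pos, isWeightedHomogeneous_X _ _ _, by simp, by simp⟩, h _, fun i => i.elim0, fun i => i.elim0⟩

theorem ev_map {K A L σ : Type} [CommRing K] [CommRing A] [CommRing L] (τ : K →+* A) (ψ : A →+* L)
    (x : σ → L) (P : MvPolynomial σ K) :
    eval₂ (ψ.comp τ) x P = eval₂ (ψ.comp (RingHom.id A)) x (map τ P) := by
  rw [RingHom.comp_id, eval₂_map]

open E E3 E4 LP in
/-- `CApx` with the valuative condition as a parameter. -/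
def CA (p l : ℕ) [Fact p.Prime] [Fact l.Prime] {κ₀ σ : Type} [Fintype κ₀] (w : σ → κ₀ → ℤ)
    (P : MvPolynomial κ₀ ℤ) (V : ∀ (κ : Type) [Fintype κ] [DecidableEq κ] (c : ℕ)
      (e : Fin c → κ → ℕ), (MI e → PadicAlgCl p) → (σ → MvPolynomial (XY κ) (PadicAlgCl p)) →
        ℕ → ℕ → Prop) : Prop :=
  ∃ j : ℕ, ∀ n : ℕ, ∃ (κ : Type) (_ : Fintype κ) (_ : DecidableEq κ) (c : ℕ) (e : Fin c → κ → ℕ)
    (R : Type) (_ : CommRing R) (_ : Algebra.FiniteType ℤ R) (_ : Algebra R (PadicAlgCl p))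
    (Z : Scheme.{0}) (F : Z ⟶ Spec (.of R)) (z : κ → (Z ⟶ P1)) (c' : MI e → PadicAlgCl p)
    (ω : (κ₀ → ℤ) →+ (κ → ℤ)) (θ : σ → MvPolynomial (XY κ) (PadicAlgCl p)),
    IsProper F ∧ (∀ i, ‖c' i‖ ≤ 1) ∧
    ZL (X := (fbr F (spc (algebraMap R (PadicAlgCl p)))).left) (pullback.fst _ _)
      (fun k => pullback.snd _ _ ≫ z k) c' ∧
    Bez l (Z := (fbr F (spc (algebraMap R (PadicAlgCl p)))).left) (pullback.fst _ _)
      (fun k => pullback.snd _ _ ≫ z k) ω P ∧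
    (∀ (i : ℕ) (φ u : PadicAlgCl p ≃ₐ[R] PadicAlgCl p) (Q : ℕ), 1 < Q →
      Frob ℤ_[p] Q φ → Frob ℤ_[p] 1 u →
      (∃ (n : ℕ) (r : PadicAlgCl p) (o : ℤ_[p]), r ^ l ^ n = algebraMap _ _ o ∧ u r ≠ r) →
      Mw Q i (E.gal F l i φ) (E.gal F l i u)) ∧
    (∀ v, Hg (ω (w v)) (θ v)) ∧ V κ c e c' θ j n

theorem capx {p l : ℕ} [Fact p.Prime] [Fact l.Prime] {K κ₀ σ β : Type} [CommRing K] [Fintype κ₀]
    (τ : K →+* PadicAlgCl p) {w : σ → κ₀ → ℤ} {G : β → MvPolynomial σ K} {P : MvPolynomial κ₀ ℤ}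
    (h : CApx p l (RingHom.id _) w (fun b => map τ (G b)) P) : CApx p l τ w G P := by
  have h' : CA p l w P fun κ _ _ c e => Val p (RingHom.id _) fun b => map τ (G b) := h
  have e : (fun (κ : Type) [Fintype κ] [DecidableEq κ] (c : ℕ) (e : Fin c → κ → ℕ) =>
      Val (e := e) p (RingHom.id _) fun b => map τ (G b)) =
      fun (κ : Type) [Fintype κ] [DecidableEq κ] c e => Val p τ G := by
    funext κ _ _ c e c' θ j n
    simp only [Val, ← ev_map]
  exact (congrArg (CA p l w P) e).mp h'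

theorem map_cG {K K' κ₀ : Type} [Field K] [Field K'] (τ : K →+* K') {r u : κ₀ → ℕ} {c : ℕ}
    (J : ∀ b, Fin (u b) → MvPolynomial (CV (r b)) K) (f : Fin c → MvPolynomial (Σ b, CV (r b)) K)
    (b) : map τ (cG J f b) = cG (fun b j => map τ (J b j)) (fun j => map τ (f j)) b := by
  rcases b with b | b | b
  · simp [cG, Np.rl]
  all_goals exact map_rename _ _ _

section
variable {α β : Type} {k n : α → ℕ} {r : β → ℕ}

/-- From lines to blocks. -/
def pr (k n : α → ℕ) (β : Type) : KK k n ⊕ β → LL k ⊕ β := Sum.map (·.1) id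

/-- Pulling back weights. -/
def wψ (k n : α → ℕ) (β : Type) : (LL k ⊕ β → ℕ) →+ (KK k n ⊕ β → ℤ) where
  toFun e := fun j => e (pr k n β j)
  map_zero' := rfl
  map_add' _ _ := funext fun _ => Nat.cast_add _ _

/-- The vectors. -/
noncomputable def VL {D : Type} [CommRing D] (x : XV (KK k n ⊕ β) → D) : VV k n → D :=
  V fun v => x (.inl v.1, v.2)

theorem VL_map {D E : Type} [CommRing D] [CommRing E] (φ : D →+* E) (x : XV (KK k n ⊕ β) → D)
    (t : VV k n) : φ (VL x t) = VL (fun v => φ (x v)) t := V_map φ _ _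

theorem VL_ev {K D σ : Type} [CommRing K] [CommRing D] [Algebra K D]
    (g : XV (KK k n ⊕ β) → σ) (z : σ → D) (t : VV k n) :
    aeval z (VL (fun v => (X (g v) : MvPolynomial σ K)) t) = VL (z ∘ g) t :=
  (VL_map (aeval z : _ →ₐ[K] D).toRingHom _ t).trans (congrArg (VL · t) (funext fun _ => by simp))

variable [DecidableEq α] [DecidableEq β]

theorem wψ_inl (l : LL k) : wψ k n β (Pi.single (.inl l) 1) =
    ∑ j : Fin (n l.1), (Pi.single (.inl ⟨l, j⟩) 1 : KK k n ⊕ β → ℤ) := by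
  funext x
  rcases x with ⟨l', i⟩ | b
  · by_cases h : l' = l
    · subst h
      simp [wψ, pr, Pi.single_apply]
    · simp [wψ, pr, h]
  · simp [wψ, pr]

theorem wψ_inr (b : β) : wψ k n β (Pi.single (.inr b) 1) = Pi.single (.inr b) 1 := by
  funext x
  rcases x with x | b' <;> simp [wψ, pr, Pi.single_apply]

theorem VL_hom {K σ : Type} [CommRing K] (w : σ → KK k n ⊕ β → ℤ) (g : XV (KK k n ⊕ β) → σ)
    (hg : ∀ v, w (g v) = Pi.single v.1 1) (t : VV k n) :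
    (VL (fun v => (X (g v) : MvPolynomial σ K)) t).IsWeightedHomogeneous w
      (wψ k n β (Pi.single (.inl t.1) 1)) := by
  rw [wψ_inl]
  exact vec_hom w (fun j => hg (.inl ⟨t.1, j⟩, 0) ▸ isWeightedHomogeneous_X K w _)
    (fun j => hg (.inl ⟨t.1, j⟩, 1) ▸ isWeightedHomogeneous_X K w _) _

variable [Fintype α] [Fintype β]

theorem card_pr (l : LL k ⊕ β) :
    (Finset.univ.filter fun j => pr k n β j = l).card =
      Finsupp.equivFunOnFinite.symm (Sum.elim (fun a : LL k => n a.1) 1) l := by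
  rw [Finset.card_filter, Fintype.sum_sum_type]
  rcases l with l | b
  · have := card_fib (n := n) l
    rw [Finset.card_filter] at this
    simpa [pr] using this
  · simp [pr]

/-- The sections which force independence, and the intersection number. -/
theorem lred0 (K Ω : Type) [Field K] [Field Ω] [IsAlgClosed Ω] [Algebra K Ω] :
    ∃ (s : TT k → MvPolynomial (XY (KK k n ⊕ β)) K) (ns : TT k → KK k n ⊕ β → ℤ),
      (∀ t, Hg (ns t) (s t)) ∧
      (∀ a : XY (KK k n ⊕ β) → Ω, Rel a → (∀ t, aeval a (s t) = 0) → ∀ b,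
        LinearIndependent Ω fun (i : Fin (k b)) (x : Fin (n b + 1)) =>
          VL (a ∘ Sum.inl) ⟨⟨b, i⟩, x⟩) ∧
      ∀ (c d : ℕ) (e : Fin c → LL k ⊕ β → ℕ) (m : LL k ⊕ β → ℕ),
        coeff (Finsupp.equivFunOnFinite.symm (Sum.elim (fun a : LL k => n a.1) 1))
          ((∏ b, ∏ i : Fin (k b), ∏ j ∈ Finset.Ioi i, (X (.inl ⟨b, j⟩) - X (.inl ⟨b, i⟩))) ^ 2 *
            lin (fun l => m l) ^ d * ∏ a, lin fun l => e a l) ≠ 0 →
        top ((∏ t, lin (ns t)) ^ 2 * lin (wψ k n β m) ^ d * ∏ a, lin fun j => e a (pr k n β j)) ≠ 0 := by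
  let v : VV k n → MvPolynomial (XY (KK k n ⊕ β)) K := VL fun x => X (.inl x)
  have hv (t) : Hg (wψ k n β (Pi.single (.inl t.1) 1)) (v t) :=
    VL_hom wt Sum.inl (fun _ => rfl) t
  have ev (a : XY (KK k n ⊕ β) → Ω) (t) : aeval a (v t) = VL (a ∘ Sum.inl) t :=
    VL_ev Sum.inl a t
  choose lam _ hl hl' using fun l : LL k => (null K Ω (KK k n ⊕ β) (Fin (n l.1 + 1)) Empty
    (fun t => t.elim) (fun t => t.elim) fun t => t.elim).1 (fun a => v ⟨l, a⟩)
    (wψ k n β (Pi.single (.inl l) 1)) (fun a => hv ⟨l, a⟩) fun a ha _ => by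
      obtain ⟨i, hi, h⟩ := vec_ne (x := fun j => a (.inl (.inl ⟨l, j⟩, 0)))
        (y := fun j => a (.inl (.inl ⟨l, j⟩, 1))) fun j => by
          by_contra! h
          simpa [h.1, h.2] using ha (.inl ⟨l, j⟩)
      exact ⟨⟨i, by simpa using Nat.lt_succ_of_le hi⟩, by rwa [ev]⟩
  refine ⟨fun t => ∑ a, lam ⟨t.1, t.2.1⟩ a * v ⟨⟨t.1, t.2.2⟩, a⟩,
    fun t j => (Pi.single (.inl ⟨t.1, t.2.2⟩) 1 - Pi.single (.inl ⟨t.1, t.2.1⟩) 1 :
      LL k ⊕ β → ℤ) (pr k n β j),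
    fun t => IsWeightedHomogeneous.sum _ _ _ fun a _ => ?_, fun a ha hs b => ?_,
    fun c d e m H2 => ?_⟩
  · convert (hl ⟨t.1, t.2.1⟩ a).mul (hv ⟨⟨t.1, t.2.2⟩, a⟩) using 1
    funext j
    simp [wψ, Pi.single_apply, neg_add_eq_sub]
  · refine tri _ (fun i => ∑ x, aeval a (lam ⟨b, i⟩ x) • LinearMap.proj x)
      (fun i => ?_) fun i j h => ?_
    · simpa [← ev, aeval_def] using hl' ⟨b, i⟩ Ω (algebraMap K Ω) a ha
    · simpa [← ev] using hs ⟨b, i, j, Finset.mem_Ioi.2 h⟩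
  · have h := coef (pr k n β) _ card_pr
      ((∏ b, ∏ i : Fin (k b), ∏ j ∈ Finset.Ioi i, (X (.inl ⟨b, j⟩) - X (.inl ⟨b, i⟩))) ^ 2 *
        lin (fun l => m l) ^ d * ∏ a, lin fun l => e a l)
    simp only [← lin_sub, map_mul, map_pow, map_prod, sg_lin] at h
    simp only [← lin_sub] at H2
    rw [top, Np.ones, Fintype.prod_sigma]
    simp only [Fintype.prod_sigma]
    refine fun h0 => mul_ne_zero (Nat.cast_ne_zero.2 (Finset.prod_ne_zero_iff.2 fun _ _ =>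
      Nat.factorial_ne_zero _)) H2 (h.symm.trans (Eq.trans ?_ h0))
    congr 4
    refine Finset.prod_congr rfl fun b _ => Finset.prod_congr rfl fun i _ => ?_
    exact (Finset.prod_coe_sort _ _).symm

/-- Zero on the lines. -/
abbrev ext (r : β → ℕ) : KK k n ⊕ β → ℕ := Sum.elim (fun _ => 0) r

/-- The coordinates of a curve. -/
def toCV (r : ℕ) : Fin (r + 2) → CV r := Fin.cons (.inl 0) (Fin.cons (.inl 1) .inr)

omit [DecidableEq α] [DecidableEq β] [Fintype α] [Fintype β] in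
theorem toCV_bij (r : ℕ) : ∃ g : CV r → Fin (r + 2), (∀ x, toCV r (g x) = x) ∧
    (∀ x, g (toCV r x) = x) ∧ g (.inl 0) = 0 ∧ g (.inl 1) = 1 := by
  refine ⟨Sum.elim ![0, 1] fun i => i.succ.succ, ?_, ?_, rfl, rfl⟩
  · rintro (i | i)
    · fin_cases i <;> rfl
    · rfl
  · exact Fin.cases rfl (Fin.cases rfl fun _ => rfl)

variable {K : Type} [Field K] (γ : ∀ b, CV (r b) → MvPolynomial (CV (r b)) K)

/-- The substitution. -/
noncomputable def sub : (VV k n ⊕ Σ b, Fin (r b + 2)) →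
    MvPolynomial (Σ b : KK k n ⊕ β, CV (ext r b)) K :=
  Sum.elim (VL fun v => X ⟨v.1, .inl v.2⟩) fun t =>
    rename (fun x => ⟨.inr t.1, x⟩) (γ t.1 (toCV _ t.2))

omit [Fintype α] [Fintype β] in
theorem sub_hom (hγ : ∀ b i, (γ b i).IsHomogeneous 1) (t : VV k n ⊕ Σ b, Fin (r b + 2)) :
    (sub γ t).IsWeightedHomogeneous (fun v => (Pi.single v.1 1 : KK k n ⊕ β → ℤ))
      (wψ k n β (Pi.single (t.map Sigma.fst Sigma.fst) 1)) := by
  rcases t with t | ⟨b, i⟩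
  · exact VL_hom _ (fun v => (⟨v.1, .inl v.2⟩ : Σ b : KK k n ⊕ β, CV (ext r b))) (fun _ => rfl) t
  · have := hblk (fun v : Σ b : KK k n ⊕ β, CV (ext r b) => (Pi.single v.1 1 : KK k n ⊕ β → ℤ))
      (Pi.single (.inr b) 1) (f := fun x => ⟨.inr b, x⟩) (fun _ => rfl) (hγ b (toCV _ i))
    rw [one_nsmul, ← wψ_inr] at this
    exact this

omit [DecidableEq α] [DecidableEq β] [Fintype α] [Fintype β] in
theorem sub_ev {D : Type} [CommRing D] [Algebra K D] (z : CW (ext (k := k) (n := n) r) → D)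
    (G : MvPolynomial (VV k n ⊕ Σ b, Fin (r b + 2)) K) :
    aeval z (rename (cv _) (aeval (sub γ) G)) = aeval (Sum.elim (VL ((z ∘ .inl) ∘ .inl)) fun t =>
      aeval (fun x => z (cv _ ⟨.inr t.1, x⟩)) (γ t.1 (toCV _ t.2))) G := by
  rw [aeval_rename, ← AlgHom.comp_apply, comp_aeval]
  refine congrArg (aeval · G) (funext ?_)
  rintro (t | ⟨b, i⟩)
  · exact VL_ev (fun v => (⟨v.1, .inl v.2⟩ : Σ b : KK k n ⊕ β, CV (ext r b))) _ t
  · exact aeval_rename _ _ _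

end

end Lc

open E M3 Lc in
theorem lc (hQ : QA_s) (hA : APXC_s) (hC : CD_s) (hP : PBCX_s) (hE : EMB_s) (hI : ISO_s)
    (hX : EXT_s) (hF : FRB_s) : FINALC_s := by
  intro K _ Y f d N _ _ ι _ hι s g c k n r t J δ hJ F e hFe q m hq H2 O Ω _ _ _ _ _ _ _ _ _ _ _
    C1 C2 H1 l _ ul i φ u Q h1 h2 h3 h4
  have : IsProper f := hι ▸ prp K _ ι
  simp only [lin_nat] at H2
  obtain ⟨s', ns, a1, a2, a3⟩ := lred0 (k := k) (n := n) (β := Fin g) K Ω
  refine Et.mw_of f l i Q φ u (geno hP hE hI hX hF f O Ω l ul i (fun p hp _ em hl => ?_)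
    φ u Q h1 h2 h3 h4)
  choose cg g5 g6 g7 g8 using toCV_bij
  choose γ kk g1 g3 g2 using fun b => hC p K (r b) (t b) (fun j => rename (toCV _) (J b j)) (δ b)
    (fun j => (hJ b j).rename_isHomogeneous)
    (fun w hw h0 => funext fun x => by
      simpa [g5] using tr0 Ω (PadicAlgCl p) (Sum.elim (J b) ![X 0, X 1]) (X (cg _ x))
        (fun y hy => by
          simpa using congrFun (C1 b y (fun j => hy (.inl j)) (by simpa using hy (.inr 0))
            (by simpa using hy (.inr 1))) _) (w ∘ toCV _)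
        (by
          rintro (j | j)
          · exact (aeval_rename _ _ _).symm.trans (hw j)
          · fin_cases j
            exacts [(aeval_X _ _).trans (h0 0), (aeval_X _ _).trans (h0 1)]))
    (((C2 b).image em.injective.injOn).mono (by
      rintro _ ⟨_, ⟨w, w1, w2, rfl⟩, rfl⟩
      refine ⟨fun i => em (w (cg _ i)), fun j => ?_, by simp [g7, w2], by simp [g8]⟩
      rw [aeval_rename, show _ ∘ _ = fun i => em (w i) from funext fun i => by simp [g6],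
        ← comp_aeval, AlgHom.comp_apply, w1 j, map_zero]))
  have g4 (b) (w : CV (r b) → Ω) (hw : ∀ i, aeval w (γ b i) = 0) (x) : w x = 0 := by
    simpa using tr0 (PadicAlgCl p) Ω (γ b) (X x)
      (fun y hy => by simpa using congrFun (g3 b y hy) x) w hw
  choose kf hkf using fun j => scale (p := p) (aeval (sub (k := k) (n := n) γ) (F j))
  let J' : ∀ b : KK k n ⊕ Fin g, Fin (ext t b) → MvPolynomial (CV (ext r b)) K :=
    Sum.rec (fun _ => Fin.elim0) fun b j =>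
      C ((p : K) ^ kk b) * aeval (γ b) (rename (toCV _) (J b j))
  let δ' : ∀ b : KK k n ⊕ Fin g, Fin (ext t b) → ℕ := Sum.rec (fun _ => Fin.elim0) δ
  let F' (j) := C ((p : K) ^ kf j) * aeval (sub (k := k) (n := n) γ) (F j)
  have hF' (j) := (subst _ _ (sub_hom γ g1) (hFe j)).C_mul ((p : K) ^ kf j)
  have hcv (v) : cw (ext (k := k) (n := n) r) (cv _ v) = Pi.single v.1 1 := by
    rcases v with ⟨b, v | v⟩ <;> rfl
  have hi {m : KK k n ⊕ Fin g → ℤ} {P : MvPolynomial (XY (KK k n ⊕ Fin g)) K} (h : Hg m P) :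
      (rename .inl P).IsWeightedHomogeneous (cw (ext r)) m := hren _ (fun _ => rfl) h
  refine hQ p l hl K Y f d _ ι (KK k n ⊕ Fin g) (CW (ext r)) _ _ (cw _) (cG J' F')
    (Sum.elim 0 (Sum.elim (fun j => δ' j.1 j.2 • Pi.single j.1 1) fun j => wψ k n _ (e j)))
    (fun j => rename .inl (s' j)) ns (fun j => rename (cv _) (aeval (sub γ) (q j))) _ _ hι
    (GeometricallyIrreducible.geometrically_irreducibleSpace _ _ _
      (IsPullback.of_hasPullback _ f).flip) ?_ (fun j => hi (a1 j))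
    (fun j => hren _ hcv (subst _ _ (sub_hom γ g1) (hq j))) (fun a b1 b2 => ?_)
    (a3 c d e m H2) ?_ i
  · rintro (j | ⟨j | b, j'⟩ | j)
    · exact hi (Np.rl_hg K j)
    · exact j'.elim0
    · refine hblk (cw (ext r)) (Pi.single (.inr b) 1) (f := fun v => cv (ext r) ⟨.inr b, v⟩)
        (fun v => hcv ⟨.inr b, v⟩) (P := J' (.inr b) j') (n := δ b j')
        (IsWeightedHomogeneous.C_mul ?_ _)
      have := ((hJ b j').rename_isHomogeneous (f := toCV _)).aeval (γ b) (g1 b)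
      rwa [one_mul] at this
    · exact hren _ hcv (hF' j)
  · have := tr1 Ω (PadicAlgCl p) (Sum.elim (cG J' F') fun j => rename .inl (s' j))
      (fun j => rename (cv _) (aeval (sub γ) (q j)))
      (fun G => ∃ t, G.IsHomogeneous t ∧ ∀ y : Y, G ∈ (ι y).asHomogeneousIdeal)
      (fun z hz => ?_) a (by rintro (j | j); exacts [b1 j, b2 j])
    · exact ⟨this.1, fun G t c1 c2 => this.2 G ⟨t, c1, c2⟩⟩
    have hr : Rel (z ∘ .inl) := (Np.rl_ev (algebraMap K Ω) _).1 fun j =>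
      (aeval_rename _ _ _).symm.trans (hz (.inl (.inl j)))
    have hp0 {σ : Type} (x : σ → Ω) (j : ℕ) (P : MvPolynomial σ K)
        (h : aeval x (C ((p : K) ^ j) * P) = 0) : aeval x P = 0 := by
      simpa [hp.out.ne_zero] using h
    simp only [sub_ev]
    have := H1 (VL ((z ∘ .inl) ∘ .inl))
      (fun b i => aeval (fun x => z (cv _ ⟨.inr b, x⟩)) (γ b (toCV _ i)))
      (a2 _ hr fun j => (aeval_rename _ _ _).symm.trans (hz (.inr j))) (fun b h0 => ?_)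
      (fun b j => ?_) fun j => (sub_ev γ z _).symm.trans ((aeval_rename _ _ _).trans
        (hp0 _ _ _ ((aeval_rename _ _ _).symm.trans (hz (.inl (.inr (.inr j)))))))
    · exact ⟨this.1, fun G ⟨t, c1, c2⟩ => this.2 G t c1 c2⟩
    · have h5 (i) : z (.inl (.inl (.inr b, i))) = 0 :=
        g4 b _ (fun x => by simpa [g5] using congrFun h0 (cg _ x)) (.inl i)
      simpa [h5] using hr (.inr b)
    · have := hp0 (fun x : CV (r b) => z (cv _ ⟨.inr b, x⟩)) (kk b)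
        (aeval (γ b) (rename (toCV _) (J b j)))
        ((aeval_rename _ _ _).symm.trans (hz (.inl (.inr (.inl ⟨.inr b, j⟩)))))
      rwa [← AlgHom.comp_apply (aeval _) (aeval (γ b)), comp_aeval, aeval_rename] at this
  refine capx _ ?_
  rw [funext (map_cG (algebraMap K (PadicAlgCl p)) J' F')]
  exact (hA p l hl _ (ext r) (ext t) _ δ' c _
    (fun j x => e j (pr k n _ x)) (by rintro (b | b); exacts [cd_line _ _, g2 b])
    (fun j => hmap _ ((hiff (wc _) (fun a b h => funext fun x => Nat.cast_injective (congrFun h x))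
      (fun v => funext fun x => by simp [wc, Pi.single_apply])).1 (hF' j))) hkf)

end Pool.Agent.MP_855f4c_ag.Cu

end
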