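import Pool.Agent.MP_855f4c_ag.CC.Cg
import Pool.Agent.MP_855f4c_ag.TC.All

set_option linter.all false

section

section

/-! h92c section M: the algebraic part of the main argument. -/

open MvPolynomial

namespace Pool.Agent.MP_855f4c_ag.T

namespace Qa

open M0

variable {p : ℕ} [Fact p.Prime]

lemma ex_den (S : Finset (PadicAlgCl p)) : ∃ j : ℕ, ∀ x ∈ S, ‖(p : PadicAlgCl p) ^ j * x‖ ≤ 1 := by
  choose n hn using fun x : PadicAlgCl p => ex_pow p x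
  exact ⟨S.sup n, fun x hx => hn x _ (Finset.le_sup hx)⟩

/-- Extension of a valued point. -/
theorem vext (hI : ∀ z : PadicAlgCl p, ‖z‖ ≤ 1 → IsIntegral ℤ_[p] z) (O : Subring (PadicAlgCl p))
    (h1 : ∀ x ∈ O, ‖x‖ ≤ 1) (h3 : ∀ o : ℤ_[p], algebraMap _ _ o ∈ O) {L : Type} [Field L]
    [IsAlgClosed L] (W : ValuationSubring L) (ψ₀ : O →+* L) (hp : (p : L) ≠ 0)
    (hW : ∀ o, ψ₀ o ∈ W) : ∃ ψ : PadicAlgCl p →+* L, (∀ o : O, ψ o = ψ₀ o) ∧
      ∀ x, ‖x‖ ≤ 1 → ψ x ∈ W := by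
  let _ : Algebra ℤ_[p] O := ((algebraMap ℤ_[p] (PadicAlgCl p)).codRestrict O h3).toAlgebra
  have : IsScalarTower ℤ_[p] O (PadicAlgCl p) := .of_algebraMap_eq fun _ => rfl
  have : Algebra.IsIntegral ℤ_[p] O := ⟨fun o =>
    (isIntegral_algebraMap_iff Subtype.val_injective).1 (hI _ (h1 _ o.2))⟩
  let _ := ψ₀.toAlgebra
  have inj : Function.Injective ψ₀ := by
    rw [RingHom.injective_iff_ker_eq_bot]
    refine Ideal.eq_bot_of_comap_eq_bot (R := ℤ_[p]) (by_contra fun h => ?_)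
    obtain ⟨n, hn⟩ := PadicInt.ideal_eq_span_pow_p h
    have : ψ₀ (algebraMap ℤ_[p] O (p ^ n)) = 0 :=
      (hn ▸ Ideal.mem_span_singleton_self _ : _ ∈ (RingHom.ker ψ₀).comap _)
    rw [map_pow, map_pow, map_natCast, map_natCast] at this
    exact pow_ne_zero _ hp this
  have : FaithfulSMul O L := (faithfulSMul_iff_algebraMap_injective _ _).2 inj
  have : Algebra.IsAlgebraic O (PadicAlgCl p) := ⟨fun x => by
    obtain ⟨j, hj⟩ := ex_den {x}
    refine .of_smul_isIntegral (y := (p : O) ^ j) ?_ ?_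
    · rw [isNilpotent_iff_eq_zero]
      exact fun h => pow_ne_zero j hp (by simpa using congrArg ψ₀ h)
    · simpa [Algebra.smul_def] using (hI _ (hj x (Finset.mem_singleton_self x))).tower_top (A := O)⟩
  let ψ : PadicAlgCl p →ₐ[O] L := IsAlgClosed.lift
  refine ⟨ψ, ψ.commutes, fun x hx => ?_⟩
  obtain ⟨y, hy⟩ := (IsIntegrallyClosed.isIntegral_iff (R := W) (K := L)).1
    (((hI x hx).tower_top (A := O)).map_of_comp_eq (ψ₀.codRestrict W hW) ψ.toRingHom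
      (RingHom.ext fun o => (ψ.commutes o).symm))
  exact hy ▸ y.2

lemma hg_sub {σ κ₀ κ K A : Type} [DecidableEq κ] [CommRing K] [CommRing A] {w : σ → κ₀ → ℤ}
    (ω : (κ₀ → ℤ) →+ (κ → ℤ)) (χ : K →+* A) {θ : σ → MvPolynomial (XY κ) A}
    (hθ : ∀ v, Hg (ω (w v)) (θ v)) {P : MvPolynomial σ K} {n : κ₀ → ℤ}
    (hP : P.IsWeightedHomogeneous w n) : Hg (ω n) (eval₂ (C.comp χ) θ P) := by
  rw [eval₂_eq]
  refine IsWeightedHomogeneous.sum _ _ _ fun d hd => IsWeightedHomogeneous.C_mul ?_ _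
  rw [← hP (mem_support_iff.1 hd), Finsupp.weight_apply, Finsupp.sum, map_sum]
  exact IsWeightedHomogeneous.prod _ _ _ fun v _ => map_nsmul ω _ _ ▸ (hθ v).pow _

/-- Bounded denominators at points with bounded denominators. -/
lemma densj {K σ τ : Type} [Field K] [Algebra K (PadicAlgCl p)] [Finite τ]
    (P : τ → MvPolynomial σ K) (j : ℕ) : ∃ c : ℕ, ∀ t, ∀ (L : Type)
    [CommRing L] (W : Subring L) (ψ : K →+* L) (a : σ → L), (∀ o ∈ OK p K, ψ o ∈ W) →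
      (∀ v, (p : L) ^ j * a v ∈ W) → (p : L) ^ c * eval₂ ψ a (P t) ∈ W := by
  obtain ⟨c, hc⟩ := dens p fun t => aeval (fun v => C ((p : K)⁻¹ ^ j) * X v) (P t)
  refine ⟨c, fun t L _ W ψ a h h' => ?_⟩
  have := hc t L W ψ _ h h'
  rw [ev_aeval] at this
  refine (congrArg (fun a => (p : L) ^ c * eval₂ ψ a (P t) ∈ W) (funext fun v => ?_)).mp this
  rw [eval₂_mul, eval₂_C, eval₂_X, ← mul_assoc, ← map_natCast ψ, ← map_pow, ← map_mul, ← mul_pow,
    inv_mul_cancel₀ (p_ne p K), one_pow, map_one, one_mul]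

/-- Integral models of finitely many polynomials. -/
lemma ex_mod {σ υ : Type} [Finite σ] (θ : σ → MvPolynomial υ (PadicAlgCl p)) :
    ∃ (j : ℕ) (E : Finset (PadicAlgCl p)), (∀ z ∈ E, ‖z‖ ≤ 1) ∧ ∀ O : Subring (PadicAlgCl p),
      (∀ z ∈ E, z ∈ O) → ∃ θ₀ : σ → MvPolynomial υ O,
        ∀ v, map O.subtype (θ₀ v) = C ((p : PadicAlgCl p) ^ j) * θ v := by
  classical
  have := Fintype.ofFinite σ
  let S := Finset.univ.biUnion fun v => (θ v).support.image fun d => coeff d (θ v)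
  obtain ⟨j, hj⟩ := ex_den S
  refine ⟨j, S.image fun x => p ^ j * x, fun z hz => ?_, fun O hO => ?_⟩
  · obtain ⟨x, hx, rfl⟩ := Finset.mem_image.1 hz
    exact hj x hx
  · refine Classical.skolem.1 fun v => mem_range_map_iff_coeffs_subset.2 fun x hx => ?_
    obtain ⟨d, hd, rfl⟩ := mem_coeffs_iff.1 hx
    rw [mem_support_iff, coeff_C_mul] at hd
    rw [coeff_C_mul]
    exact ⟨⟨_, hO _ (Finset.mem_image_of_mem _ (Finset.mem_biUnion.2 ⟨v, Finset.mem_univ _,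
      Finset.mem_image_of_mem _ (mem_support_iff.2 (right_ne_zero_of_mul hd))⟩))⟩, rfl⟩

lemma mem {K σ τ : Type} [CommRing K] [Fintype τ] {f : τ → MvPolynomial σ K} {g : MvPolynomial σ K}
    (h : g ∈ Ideal.span (Set.range f)) : ∃ b : τ → MvPolynomial σ K, ∀ (D : Type) [CommRing D]
      (χ : K →+* D) (a : σ → D), eval₂Hom χ a g = ∑ t, eval₂ χ a (b t) * eval₂ χ a (f t) := by
  obtain ⟨c, rfl⟩ := Ideal.mem_span_range_iff_exists_fun.1 h
  exact ⟨c, fun D _ χ a => by simp⟩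

end Qa

end Pool.Agent.MP_855f4c_ag.T

end

section

/-! h92c section M: the algebraic part of the main argument. -/

open MvPolynomial

namespace Pool.Agent.MP_855f4c_ag.T

def M0C_s : Prop := ∀ (p : ℕ) [Fact p.Prime] (K : Type) [Field K] [Algebra K (PadicAlgCl p)]
  (κ₀ σ β τ ι ρ : Type) [Finite σ] [Fintype β] [Fintype τ] [Fintype ι] [Finite ρ]
  (w : σ → κ₀ → ℤ) (G : β → MvPolynomial σ K) (gw : β → κ₀ → ℤ) (s : τ → MvPolynomial σ K)
  (n : τ → κ₀ → ℤ) (q : ι → MvPolynomial σ K) (m : κ₀ → ℤ) (g : ρ → MvPolynomial (ι × ι) K)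
  (j : ℕ), (∀ z : PadicAlgCl p, ‖z‖ ≤ 1 → IsIntegral ℤ_[p] z) →
    (∀ b, (G b).IsWeightedHomogeneous w (gw b)) → (∀ t, (s t).IsWeightedHomogeneous w (n t)) →
    (∀ i, (q i).IsWeightedHomogeneous w m) →
    Algebra.FormallySmooth K (MvPolynomial (ι × ι) K ⧸ Ideal.span (Set.range g)) →
    (∀ a : σ → PadicAlgCl p, (∀ b, aeval a (G b) = 0) →
      (∀ t, aeval a (s t) = 0) → (∃ i, aeval a (q i) ≠ 0) ∧ ∀ lam : ι → PadicAlgCl p,
        ∑ i, lam i * aeval a (q i) = 1 →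
        ∀ j, aeval (fun v : ι × ι => aeval a (q v.1) * lam v.2) (g j) = 0) →
    ∃ N : ℕ, ∀ (κ : Type) [Fintype κ] [DecidableEq κ] (c : ℕ) (e : Fin c → κ → ℕ)
      (ω : (κ₀ → ℤ) →+ (κ → ℤ)) (θ : σ → MvPolynomial (XY κ) (PadicAlgCl p)),
      (∀ v, Hg (ω (w v)) (θ v)) → ∃ E : Finset (PadicAlgCl p), (∀ z ∈ E, ‖z‖ ≤ 1) ∧
        ∀ O : Subring (PadicAlgCl p), (∀ z ∈ E, z ∈ O) → (∀ z ∈ O, ‖z‖ ≤ 1) →
          (∀ o : ℤ_[p], algebraMap _ _ o ∈ O) →
          (∀ x : K, ‖algebraMap K (PadicAlgCl p) x‖ ≤ 1 → algebraMap K _ x ∈ O) →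
          ∀ c' : MI e → O, Val p (algebraMap K _) G (fun i => c' i) θ j N →
            ∀ (B C₀ : Type) [CommRing B] [CommRing C₀] [Algebra B C₀]
              [IsLocalization.Away (p : B) C₀] (β : JB c' →+* B) (χ : K →+* C₀),
              Newt B (Ideal.span {(p : B)}) →
              (∀ (x : K) (o : O), algebraMap K _ x = (o : PadicAlgCl p) →
                χ x = algebraMap B C₀ (β (algebraMap O _ o))) →
              ∃ (s' : τ → MvPolynomial (XY κ) C₀) (q' lam' : ι → MvPolynomial (XY κ) C₀)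
                (I : τ → Ideal C₀) (e₀ z : ι × ι → C₀), (∀ t, Hg (ω (n t)) (s' t)) ∧
                (∀ i, Hg (ω m) (q' i)) ∧ (∀ i, Hg (-ω m) (lam' i)) ∧
                (∀ t, (I t).FG ∧ Zer (algebraMap B C₀ ∘ β ∘ je c') (s' t) (I t)) ∧
                (∀ (D : Type) [CommRing D] (ψ : C₀ →+* D) (a : XY κ → D),
                  emat a = ψ ∘ algebraMap B C₀ ∘ β ∘ je c' → ∀ v, ψ (e₀ v) =
                    eval₂ ψ a (q' v.1) * eval₂ ψ a (lam' v.2)) ∧
                (∀ j, eval₂ χ z (g j) ∈ ∑ t, I t) ∧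
                IsUnit (Ideal.Quotient.mk (∑ t, I t) (∑ v, z v * e₀ v.swap))

open M0 Qa in
theorem m0c (hW : W0_s) (hN : NEWT_s) (hE : ELK_s) : M0C_s := by
  intro p _ K _ _ κ₀ σ β τ ι ρ _ _ _ _ _ w G gw s n q m g j₀ hI' hG hs hq hg h1
  have := Fintype.ofFinite ρ
  have h1' (a : σ → PadicAlgCl p) (h : ∀ t, aeval a (Sum.elim G s t) = 0) :=
    h1 a (fun b => h (.inl b)) fun t => h (.inr t)
  obtain ⟨lam, hlam, n1⟩ := Pool.Agent.MP_855f4c_ag.G.La.wns (PadicAlgCl p) w (r := Sum.elim G s) (ρ := Sum.elim gw n)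
    (by rintro (b | t); exacts [hG b, hs t]) hq fun a h => (h1' a h).1
  obtain ⟨b₀, hb₁⟩ := mem n1
  have hb₀ (D : Type) [CommRing D] (χ : K →+* D) (a : σ → D) :
      ∑ i, eval₂ χ a (lam i) * eval₂ χ a (q i) =
        1 + ∑ t, eval₂ χ a (b₀ t) * eval₂ χ a (Sum.elim G s t) := by
    rw [← hb₁ D χ a]
    simp
  choose N' hN' using fun j => Pool.Agent.MP_855f4c_ag.G.La.ns (PadicAlgCl p) (Sum.elim G s)
    (aeval (fun v : ι × ι => q v.1 * lam v.2) (g j)) fun a h => by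
      have h2 : ∑ i, aeval a (lam i) * aeval a (q i) = 1 := (hb₀ _ _ a).trans
        (add_eq_left.2 (Finset.sum_eq_zero fun t _ => mul_eq_zero_of_right _ (h t)))
      refine (ev_aeval _ a _ _).trans ?_
      simp only [eval₂_mul]
      exact (h1' a h).2 _ h2 j
  choose b hb using fun j => mem
    (Ideal.mul_mem_right (aeval (fun v : ι × ι => q v.1 * lam v.2) (g j)) _ (hN' j))
  let N := fun j => N' j + 1
  obtain ⟨c₀, hc₀⟩ := densj (p := p) (fun v : ι × ι => q v.1 * lam v.2) j₀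
  obtain ⟨c₁, hc₁⟩ := hE (OK p K) K p (ι × ι) ρ g hg c₀ c₀
  obtain ⟨c₃, hc₃⟩ := densj (p := p) (fun x : Option ρ × β => x.1.elim b₀ b (.inl x.2)) j₀
  refine ⟨c₃ + (1 + ∑ j, (c₁ + 1) * N j), fun κ _ _ c e ω θ hθ => ?_⟩
  obtain ⟨j₁, E, hE1, hE2⟩ := ex_mod θ
  refine ⟨E, hE1, fun O hO o1 o3 hO' c' hap B C₀ _ _ _ _ β χ hB hχ => ?_⟩
  obtain ⟨θ₀, hθ₀⟩ := hE2 O hO
  let β' := (algebraMap B C₀).comp β
  let γ : O →+* C₀ := β'.comp (algebraMap O _)
  let θ' (v : σ) : MvPolynomial (XY κ) C₀ := C (χ (p : K)⁻¹ ^ j₁) * map γ (θ₀ v)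
  have hθ' (v) : Hg (ω (w v)) (θ' v) := IsWeightedHomogeneous.C_mul (hg_map γ fun d hd =>
    IsWeightedHomogeneous.C_mul (hθ v) ((p : PadicAlgCl p) ^ j₁) (by
      rw [← hθ₀, coeff_map]
      exact fun h => hd (Subtype.ext h))) _
  let T : MvPolynomial σ K →+* _ := eval₂Hom (C.comp χ) θ'
  have hT {D : Type} [CommRing D] (ψ : C₀ →+* D) (a : XY κ → D) (P) :
      eval₂ ψ a (T P) = eval₂ (ψ.comp χ) (fun v => eval₂ ψ a (θ' v)) P :=
    (eval₂_comp_left (eval₂Hom ψ a) _ _ P).trans (by congr 1; ext; simp)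
  have hT' {P : MvPolynomial σ K} {k} (h : P.IsWeightedHomogeneous w k) : Hg (ω k) (T P) :=
    hg_sub ω χ hθ' h
  choose I hI using fun t => (hW κ C₀).2.1 _ _ _ (JP.map β' (jp_je c')) (hT' (hs t))
  choose P hP using fun v : ι × ι => (hW κ C₀).1 (T (q v.1) * T (lam v.2))
    (by simpa only [map_neg, add_neg_cancel] using (hT' (hq v.1)).mul (hT' (hlam v.2)))
  let e₀ (v : ι × ι) : C₀ := eval₂ (.id _) (β' ∘ je c') (P v)
  have he {D : Type} [CommRing D] (ψ : C₀ →+* D) (a : XY κ → D) (h : emat a = ψ ∘ β' ∘ je c') (v) :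
      ψ (e₀ v) = eval₂ ψ a (T (q v.1)) * eval₂ ψ a (T (lam v.2)) := by
    rw [← eval₂_mul, ← hP, ev_aeval, eval₂_comp_left, ← h]
    congr 1
    ext x
    simp [emat]
  let mk := Ideal.Quotient.mk (∑ t, I t)
  let ϖ : OK p K →+* O :=
    ((algebraMap K _).comp (OK p K).subtype).codRestrict O fun x => hO' x x.2
  let π := mk (χ (p : K)⁻¹)
  have hπ : p * π = 1 := by
    have := (map_mul (mk.comp χ) (p : K) (p : K)⁻¹).symm
    rwa [map_natCast, mul_inv_cancel₀ (p_ne p K), map_one] at this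
  have hπ' {L : Type} [Field L] (ψ : C₀ ⧸ ∑ t, I t →+* L) : p * ψ π = 1 := by
    rw [← map_natCast ψ, ← map_mul, hπ, map_one]
  have val (L : Type) [Field L] [IsAlgClosed L] (ψ : C₀ ⧸ ∑ t, I t →+* L) (W : ValuationSubring L)
      (hψ : ∀ x, ψ (algebraMap B _ x) ∈ W) : ∃ a : σ → L,
        (∀ v, ψ (mk (e₀ v)) = eval₂ ((ψ.comp mk).comp χ) a (q v.1 * lam v.2)) ∧
        (∀ v : ι × ι, (p : L) ^ c₀ * eval₂ ((ψ.comp mk).comp χ) a (q v.1 * lam v.2) ∈ W) ∧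
        ∀ (x : Option ρ) (d : ℕ), d ≤ 1 + ∑ j, (c₁ + 1) * N j →
          ψ π ^ d * ∑ t, eval₂ ((ψ.comp mk).comp χ) a (x.elim b₀ b t) *
            eval₂ ((ψ.comp mk).comp χ) a (Sum.elim G s t) ∈ W := by
    set χ' := (ψ.comp mk).comp χ
    let φ : JB c' →+* W := ((ψ.comp mk).comp β').codRestrict W fun x => hψ (β x)
    obtain ⟨a, ha, h0⟩ := ex_triv hW c' φ
    have ha' : emat (W.subtype ∘ a) = (ψ.comp mk) ∘ β' ∘ je c' :=
      funext fun v => congrArg W.subtype (congrFun ha v)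
    obtain ⟨ψ', e1, e2⟩ := vext hI' O o1 o3 W ((ψ.comp mk).comp γ)
      (left_ne_zero_of_mul_eq_one (hπ' ψ)) fun o => hψ _
    have e3 : ψ'.comp (algebraMap K _) = χ' := hom_ext p fun o ho =>
      (e1 (ϖ ⟨o, ho⟩)).trans (congrArg (ψ ∘ mk) (hχ o (ϖ ⟨o, ho⟩) rfl).symm)
    have e4 : (fun v => eval₂ (ψ.comp mk) (W.subtype ∘ a) (θ' v)) =
        fun v => eval₂ ψ' (W.subtype ∘ a) (θ v) := funext fun v => by
      have := congrArg (eval₂ ψ' (W.subtype ∘ a)) (hθ₀ v)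
      rw [eval₂_map, show ψ'.comp O.subtype = _ from RingHom.ext e1, eval₂_mul, eval₂_C, map_pow,
        map_natCast] at this
      rw [eval₂_mul, eval₂_C, eval₂_map, this, map_pow, ← mul_assoc, ← mul_pow,
        show (ψ.comp mk) (χ (p : K)⁻¹) * p = 1 from (mul_comm _ _).trans (hπ' ψ), one_pow, one_mul]
    obtain ⟨hm, hap'⟩ := hap L W ψ' (W.subtype ∘ a) e2 (fun v => (a v).2)
      (rel_of (ha' ▸ JP.map _ (JP.map β' (jp_je c')))) fun i => by
        have := congrArg W.subtype (h0 i)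
        rw [map_gen, map_zero] at this
        exact Eq.trans (congrArg (gen · i _) (funext fun x => e1 (c' x))) this
    rw [e3] at hap'
    set a' := fun v => eval₂ ψ' (W.subtype ∘ a) (θ v)
    have hO'' : ∀ o ∈ OK p K, χ' o ∈ W.toSubring := fun o ho => e3 ▸ e2 _ ho
    refine ⟨a', fun v => by rw [eval₂_mul, ← e4, ← hT, ← hT]; exact he (ψ.comp mk) _ ha' v,
      fun v => hc₀ v L _ χ' a' hO'' hm, fun x d hd => ?_⟩
    have hs0 (t) : eval₂ χ' a' (s t) = 0 := by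
      have := (hI t).2 L (ψ.comp mk) _ ha'
      rw [hT, e4, (Ideal.map_eq_bot_iff_le_ker _).2 fun y hy => ?_, eq_comm,
        Ideal.span_singleton_eq_bot] at this
      · exact this
      · change ψ (mk y) = 0
        rw [Ideal.Quotient.eq_zero_iff_mem.2
          ((Finset.single_le_sum (f := I) (fun _ _ => bot_le) (Finset.mem_univ t) :) hy), map_zero]
    rw [Fintype.sum_sum_type]
    simp only [Sum.elim_inr, hs0, mul_zero, Finset.sum_const_zero, add_zero, Sum.elim_inl]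
    exact est W (hπ' ψ) _ _ (Nat.add_le_add_left hd c₃)
      (fun i => hc₃ (x, i) L _ χ' a' hO'' hm) hap'
  obtain ⟨z, hz, hu⟩ := lift hN p g c₀ c₁ hc₁ ((β.comp (algebraMap O _)).comp ϖ) (mk.comp χ)
    (fun o => congrArg mk (hχ _ (ϖ o) rfl)) π hπ (fun x => by
      obtain ⟨x, rfl⟩ := Ideal.Quotient.mk_surjective x
      obtain ⟨k, y, h⟩ := IsLocalization.Away.surj (p : B) x
      have := congrArg mk h
      rw [map_mul, map_pow, map_natCast, map_natCast] at this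
      exact ⟨k, y, this⟩) hB (fun v => mk (e₀ v)) Prod.swap
    (fun v => Pool.Agent.MP_855f4c_ag.G.vint _ fun L _ _ ψ W hψ => by
      obtain ⟨a, h₁, h₂, -⟩ := val L ψ W hψ
      simpa only [map_mul, map_pow, map_natCast, h₁] using h₂ v)
    (fun j => Pool.Agent.MP_855f4c_ag.G.vint _ fun L _ _ ψ W hψ => by
      obtain ⟨a, h₁, -, h₄⟩ := val L ψ W hψ
      have := h₄ (some j) _ ((Finset.single_le_sum (f := fun j => (c₁ + 1) * N j)
        (fun _ _ => Nat.zero_le _) (Finset.mem_univ j)).trans (Nat.le_add_left _ 1))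
      rw [Option.elim_some, ← hb j L _ a, ← pow_succ, map_pow, pow_mul, ← mul_pow, coe_eval₂Hom,
        ev_aeval] at this
      rw [map_mul, map_pow, eval₂_comp_left]
      simpa only [Function.comp_def, h₁, RingHom.comp_assoc] using of_pow W (N' j).succ_pos this)
    (Pool.Agent.MP_855f4c_ag.G.vint _ fun L _ _ ψ W hψ => by
      obtain ⟨a, h₁, -, h₄⟩ := val L ψ W hψ
      have h5 := h₄ none 1 (Nat.le_add_right _ _)
      have h6 := hb₀ L ((ψ.comp mk).comp χ) a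
      rw [Option.elim_none, pow_one] at h5
      generalize ∑ t, eval₂ _ a (b₀ t) * eval₂ _ a (Sum.elim G s t) = y at h5 h6
      convert mul_mem h5 (add_mem (natCast_mem W 2) (mul_mem (natCast_mem W p) h5)) using 1
      simp only [map_mul, map_sub, map_sum, map_one, h₁, eval₂_mul, Prod.fst_swap, Prod.snd_swap]
      rw [Fintype.sum_prod_type, Finset.sum_congr rfl fun i _ => Finset.sum_congr rfl fun j _ =>
        (by ring : _ = (eval₂ _ a (lam i) * eval₂ _ a (q i)) * (eval₂ _ a (lam j) * eval₂ _ a (q j))),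
        ← Finset.sum_mul_sum, h6]
      push_cast
      linear_combination (-ψ π * y ^ 2) * hπ' ψ)
  choose z' hz' using fun v => Ideal.Quotient.mk_surjective (z v)
  refine ⟨fun t => T (s t), fun i => T (q i), fun i => T (lam i), I, e₀, z', fun t => hT' (hs t),
    fun i => hT' (hq i), fun i => map_neg ω m ▸ hT' (hlam i), hI, fun D _ => he,
    fun j => Ideal.Quotient.eq_zero_iff_mem.1 ?_, ?_⟩
  · rw [eval₂_comp_left]
    simpa only [Function.comp_def, hz'] using hz j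
  · simpa only [map_sum, map_mul, hz'] using hu

end Pool.Agent.MP_855f4c_ag.T

end

section

/-! h92c section M: the main argument. -/

set_option backward.isDefEq.respectTransparency false

open CategoryTheory Limits Abelian Opposite AlgebraicGeometry MvPolynomial TensorProduct Function

namespace Pool.Agent.MP_855f4c_ag.T

open E E3 E4 LP

attribute [local instance] MvPolynomial.gradedAlgebra

namespace Qa

theorem midc (l : ℕ) [Fact l.Prime] (K Ω : Type) [CommRing K] [Field Ω] (τ : K →+* Ω)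
    (Ch : Chern l Ω) (hP : P1L_s) (κ ι ν ρ : Type) [Fintype κ] [DecidableEq κ] [Fintype ι]
    [Fintype ν] [Finite ρ] (X : Scheme.{0}) (f : X ⟶ Spec (.of K)) (g : ρ → MvPolynomial (ν × ν) K)
    (co : ∀ U : Over (fbr f (spc τ)).left, (ν → Γ(U.left, ⊤)) → Prop) (hco : IsLin co)
    (O : Type) [CommRing O] [Algebra O Ω] (C : Type) [CommRing C] [Algebra O C] (χ : K →+* C)
    (e : EV κ → C) (x : κ → (Spec (.of (Ω ⊗[O] C)) ⟶ P1)) (n : ι → κ → ℤ) (m : κ → ℤ)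
    (s : ι → MvPolynomial (XY κ) C) (q lam : ν → MvPolynomial (XY κ) C) (I : ι → Ideal C)
    (e₀ z : ν × ν → C) (A : List ι) (hl : (l : Ω) ≠ 0)
    (hg : Algebra.FormallySmooth K (MvPolynomial (ν × ν) K ⧸ Ideal.span (Set.range g)))
    (hY : Mglue.YT τ f g co) (hχ : (iR O Ω C).comp χ = (iL O Ω C).comp τ) (he : JP e)
    (hx : Ad (iR O Ω C ∘ e) x) (hs : ∀ t, Hg (n t) (s t)) (hq : ∀ i, Hg m (q i))
    (hlam : ∀ i, Hg (-m) (lam i)) (hA : A.Nodup) (hA' : ∀ t, t ∈ A)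
    (hI : ∀ t, (I t).FG ∧ Zer e (s t) (I t))
    (he₀ : ∀ (D : Type) [CommRing D] (ψ : C →+* D) (a : XY κ → D), emat a = ψ ∘ e → ∀ v,
      ψ (e₀ v) = eval₂ ψ a (q v.1) * eval₂ ψ a (lam v.2))
    (hz : ∀ j, eval₂ χ z (g j) ∈ ∑ t, I t)
    (hu : IsUnit (Ideal.Quotient.mk (∑ t, I t) (∑ v, z v * e₀ v.swap))) :
    ∃ (W : Scheme.{0}) (π : W ⟶ Spec (.of (Ω ⊗[O] C))) (r : W ⟶ (fbr f (spc τ)).left)
      (tr : Tr π (pw (A.map fun t => Ch.cl hP (spc (iL O Ω C)) x (n t)))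
        (pw (A.reverse.map fun t => Ch.cl hP (spc (iL O Ω C)) x (n t)))),
      epb l r 2 (Ch.c (pullback.fst _ _) hco.coc) = epb l π 2 (Ch.cl hP (spc (iL O Ω C)) x m) ∧
      ∀ (σ : Ω ≃ₐ[O] Ω) (h : spc (σ : Ω →+* Ω) ≫ spc τ = spc τ) (Q : ℕ), Tw l (σ : Ω →+* Ω) Q →
        ∃ gW : W ⟶ W, gW ≫ r = r ≫ fa f (σ : Ω →+* Ω) h ∧
          tr.Eqv (spc (tw σ C)) gW (Q ^ A.length) := by
  classical
  have sum : (A.map I).sum = ∑ t, I t := by
    rw [← List.sum_toFinset _ hA]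
    exact Finset.sum_congr (Finset.eq_univ_of_forall fun t => List.mem_toFinset.2 (hA' t))
      fun _ _ => rfl
  obtain ⟨D, _, _, φ, w, H, w1, w2, -⟩ := All.hCHAIN O K (ν × ν) ρ g hg C χ (A.map I) z
    (∑ v, MvPolynomial.X v * MvPolynomial.C (e₀ v.swap)) (fun j => sum ▸ hz j)
    (Cha.unit_congr sum (by simpa using hu))
  obtain ⟨tr, htr⟩ := twt l Ω Ch hP κ ι O C D φ e n s I A x hl he hx (fun t _ => ⟨hs t, hI t⟩) H
  let ψ : C →+* Ω ⊗[O] D := (iR O Ω D).comp φ.toRingHom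
  have bR : (bcf Ω φ).comp (iR O Ω C) = ψ := RingHom.ext fun _ => rfl
  have bL : (bcf Ω φ).comp (iL O Ω C) = iL O Ω D := RingHom.ext fun x => by simp [bcf, iL]
  have hψ : ψ.comp χ = (iL O Ω D).comp τ := by
    rw [← bR, ← bL, RingHom.comp_assoc, hχ, RingHom.comp_assoc]
  obtain ⟨rk, r, r1, r2, r3⟩ := hY (Ω ⊗[O] D) (iL O Ω D) (iR O Ω D ∘ w) fun j => by
    rw [← hψ, RingHom.comp_assoc, ← eval₂_comp_left, w1, map_zero]
  refine ⟨_, spc (bcf Ω φ), r, tr, ?_, fun σ h Q hQ => ⟨spc (tw σ D), r2 σ h _ ?_ fun p => ?_,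
    htr σ Q hQ⟩⟩
  · rw [JX.cl_nat, Twt.spc_spc, bL, Ch.c_nat r _ (γ' := (hco.pb r).coc)
      ⟨fun _ a => a, fun _ _ => rfl, fun _ _ _ => rfl⟩, r1]
    refine rhx l Ω Ch hP κ ν _ _ (ψ ∘ e) _ (fun i => map ψ (q i))
      (fun i => map ψ (lam i)) m (ψ ∘ e₀) (iR O Ω D ∘ w) _ _ (Twt.jp_map _ he)
      (Twt.ad_map (bcf Ω φ) hx) (fun i => Twt.hg_map _ (hq i)) (fun i => Twt.hg_map _ (hlam i))
      (fun D' _ θ a ha v => ?_) rk ?_ r3
    · rw [eval₂_map, eval₂_map]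
      exact he₀ D' (θ.comp ψ) a ha v
    · simpa [ψ] using w2.map (iR O Ω D)
  · exact RingHom.ext fun x => by simp [tw, iL]
  · simp [tw, iR]

open Eps in
theorem epsc (l : ℕ) [Fact l.Prime] (Ω : Type) [Field Ω] (Ch : Chern l Ω) (hP : P1L_s) (κ : Type)
    [Fintype κ] (X W Y Z : Scheme.{0}) (f : Z ⟶ Spec (.of Ω))
    (z : κ → (Z ⟶ P1)) (t : X ⟶ Spec (.of Ω)) (x : κ → (X ⟶ P1)) (ρ : W ⟶ X) (r : W ⟶ Y)
    (s : X ⟶ Z) (S S' : List (κ → ℤ)) (m : κ → ℤ) (d : ℕ) (L L' : List (EE l X 2))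
    (tr : Tr ρ (pw L) (pw L')) (h : EE l Y 2) (e1 : s ≫ f = t) (e2 : ∀ k, s ≫ z k = x k)
    (hs : ∀ n, Bijective (hpb l s n)) (hL : L = S.map (Ch.cl hP t x))
    (hL' : L' = S'.map (Ch.cl hP t x)) (hr : epb l r 2 h = epb l ρ 2 (Ch.cl hP t x m))
    (tp : ∀ i, 2 * d < i → ∀ y : HH l Y i, y = 0)
    (ha : ∀ (i j : ℕ) (hij : i + j = 2 * d) (α : EE l Y i) η, (∃ a, tau α a ≠ 0) →
      ∃ (n : ℕ) (α' : EE l Y j), α.comp α' hij = l ^ n • η)
    (hB : ∀ N : ℤ, N ≠ 0 →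
      ∃ a, tau (N • pw ((S ++ List.replicate d m ++ S').map (Ch.cl hP f z))) a ≠ 0) :
    ∃ ε : ∀ i, EE l Y i →+ QZ l →+ HH l Z (i + 2 * L.length),
      (∀ i α, ε i α = 0 → ∀ a, tau α a = 0) ∧
      ∀ (gX : X ⟶ X) (gW : W ⟶ W) (gY : Y ⟶ Y) (gZ : Z ⟶ Z) (M : ℕ), gX ≫ s = s ≫ gZ →
        gW ≫ r = r ≫ gY → tr.Eqv gX gW M →
        ∀ i α a, hpb l gZ _ (ε i α a) = M • ε i (epb l gY i α) a := by
  have q (T : Scheme.{0}) (y : EE l T 2) : 2 * (List.replicate d y).length = 2 * d := by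
    rw [List.length_replicate]
  refine (inj l X W Y Z ρ r s _ _ (2 * d) _ _ tr (pn _ (q _ h))
    (pn _ (q _ (Ch.cl hP t x m))) (by
      rw [epb_pn _ _ _ (by simp), epb_pn _ _ _ (by simp)]
      exact pn_congr (by rw [List.map_replicate, List.map_replicate, hr]) _ _) tp
    (fun i j hij α => ha i j hij α _) (fun n => ?_) hs).imp fun ε h => h.2
  obtain ⟨a, h0⟩ := hB (l ^ n : ℕ) (Nat.cast_ne_zero.2 (pow_ne_zero _ (Fact.out : l.Prime).ne_zero))
  refine ⟨a, fun h3 => h0 ((hs _).1 ?_)⟩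
  have e3 : (((S ++ List.replicate d m ++ S').map (Ch.cl hP f z)).map (epb l s 2)) =
      L ++ List.replicate d (Ch.cl hP t x m) ++ L' := by
    rw [List.map_map, show epb l s 2 ∘ Ch.cl hP f z = Ch.cl hP t x from funext fun n => by
      rw [comp_apply, JX.cl_nat, e1, funext e2], List.map_append, List.map_append,
      List.map_replicate, hL, hL']
  have e4 := congrArg List.length e3
  rw [List.length_map] at e4
  rw [map_zero, Pbc.tau_pb, natCast_zsmul, map_nsmul]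
  have key : ∀ {k : ℕ} (hk : 2 * (L ++ List.replicate d (Ch.cl hP t x m) ++ L').length = k),
      tau (l ^ n • pn _ hk) a = 0 := by
    intro k hk
    have := pn_append (L ++ List.replicate d (Ch.cl hP t x m)) L' (k := 2 * L.length + 2 * d +
      2 * L'.length) (n := 2 * L.length + 2 * d) (by simp; omega) rfl rfl (by simp; omega)
    rw [← pn_append L _ rfl (q _ _) rfl] at this
    obtain rfl : k = 2 * L.length + 2 * d + 2 * L'.length := by
      simp at hk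
      omega
    rw [← this]
    exact h3
  rw [show pw _ = pn ((S ++ List.replicate d m ++ S').map (Ch.cl hP f z)) rfl from rfl,
    epb_pn _ _ _ (by rw [List.length_map]), pn_congr e3 _ (by rw [e4])]
  exact key _

lemma num {κ τ : Type} [Fintype κ] [Fintype τ] (n : τ → κ → ℤ) (m : κ → ℤ) (d : ℕ)
    (P : MvPolynomial κ ℤ) (h : top ((∏ t, lin (n t)) ^ 2 * lin m ^ d * P) ≠ 0) :
    top ((((Finset.univ : Finset τ).toList.map n ++ List.replicate d m ++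
      (Finset.univ : Finset τ).toList.reverse.map n).map lin).prod * P) ≠ 0 := by
  rw [List.map_append, List.map_append, List.prod_append, List.prod_append, List.map_replicate,
    List.prod_replicate, (((List.reverse_perm _).map n).map lin).prod_eq, List.map_map,
    Finset.prod_map_toList, mul_right_comm _ (lin m ^ d), ← sq]
  exact h

/-- Finitely many integers determine a map out of a ring of finite type. -/
lemma gens {p : ℕ} [Fact p.Prime] (R : Type) [CommRing R] [h : Algebra.FiniteType ℤ R]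
    (a : R →+* PadicAlgCl p) : ∃ E : Finset (PadicAlgCl p), (∀ z ∈ E, ‖z‖ ≤ 1) ∧
      ∀ g : PadicAlgCl p →+* PadicAlgCl p, (∀ z ∈ E, g z = z) → ∀ x, g (a x) = a x := by
  classical
  obtain ⟨S, hS⟩ := h.1
  obtain ⟨j, hj⟩ := ex_den (S.image a)
  refine ⟨(S.image a).image fun x => p ^ j * x, fun z hz => ?_, fun g hg x => ?_⟩
  · obtain ⟨x, hx, rfl⟩ := Finset.mem_image.1 hz
    exact hj x hx
  · refine DFunLike.congr_fun (AlgHom.ext_of_adjoin_eq_top (φ₁ := (g.comp a).toIntAlgHom)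
      (φ₂ := a.toIntAlgHom) hS fun y hy => ?_) x
    have := hg _ (Finset.mem_image_of_mem _ (Finset.mem_image_of_mem a hy))
    rw [map_mul, map_pow, map_natCast] at this
    exact mul_left_cancel₀ (pow_ne_zero j (M0.p_ne p _)) this

/-- The body of `CApx`. -/
def CB (p l : ℕ) [Fact p.Prime] [Fact l.Prime] {K κ₀ σ β : Type} [CommRing K] [Fintype κ₀]
    (τ : K →+* PadicAlgCl p) (w : σ → κ₀ → ℤ) (G : β → MvPolynomial σ K)
    (P : MvPolynomial κ₀ ℤ) (j n : ℕ) {κ : Type} [Fintype κ] [DecidableEq κ] {c : ℕ}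
    {e : Fin c → κ → ℕ} {R : Type} [CommRing R] [Algebra R (PadicAlgCl p)] {Z : Scheme.{0}}
    (F : Z ⟶ Spec (.of R)) (z : κ → (Z ⟶ P1)) (c' : MI e → PadicAlgCl p)
    (ω : (κ₀ → ℤ) →+ (κ → ℤ)) (θ : σ → MvPolynomial (XY κ) (PadicAlgCl p)) : Prop :=
    IsProper F ∧ (∀ i, ‖c' i‖ ≤ 1) ∧
    ZL (X := (fbr F (spc (algebraMap R (PadicAlgCl p)))).left) (pullback.fst _ _)
      (fun k => pullback.snd _ _ ≫ z k) c' ∧
    Bez l (Z := (fbr F (spc (algebraMap R (PadicAlgCl p)))).left) (pullback.fst _ _)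
      (fun k => pullback.snd _ _ ≫ z k) ω P ∧
    (∀ (i : ℕ) (φ u : PadicAlgCl p ≃ₐ[R] PadicAlgCl p) (Q : ℕ), 1 < Q →
      Frob ℤ_[p] Q φ → Frob ℤ_[p] 1 u →
      (∃ (n : ℕ) (r : PadicAlgCl p) (o : ℤ_[p]), r ^ l ^ n = algebraMap _ _ o ∧ u r ≠ r) →
      Mglue.MG F l i Q φ u) ∧
    (∀ v, Hg (ω (w v)) (θ v)) ∧ Val p τ G c' θ j n

lemma cb {p l : ℕ} [Fact p.Prime] [Fact l.Prime] {K κ₀ σ β : Type} [CommRing K] [Fintype κ₀]
    {τ : K →+* PadicAlgCl p} {w : σ → κ₀ → ℤ} {G : β → MvPolynomial σ K}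
    {P : MvPolynomial κ₀ ℤ} (h : CApx p l τ w G P) :
    ∃ j : ℕ, ∀ n : ℕ, ∃ (κ : Type) (_ : Fintype κ) (_ : DecidableEq κ) (c : ℕ) (e : Fin c → κ → ℕ)
    (R : Type) (_ : CommRing R) (_ : Algebra.FiniteType ℤ R) (_ : Algebra R (PadicAlgCl p))
    (Z : Scheme.{0}) (F : Z ⟶ Spec (.of R)) (z : κ → (Z ⟶ P1)) (c' : MI e → PadicAlgCl p)
    (ω : (κ₀ → ℤ) →+ (κ → ℤ)) (θ : σ → MvPolynomial (XY κ) (PadicAlgCl p)),
    CB p l τ w G P j n F z c' ω θ := h

end Qa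

open Qa in
theorem qa : QA_s := by
  classical
  intro p l _ _ hlp K _ _ X f _ d _ ν _ ι _ κ₀ σ' β τ _ _ _ _ w G gw s n q m P hι hirr hG hs hq H1 H2
    HA i φ u Q hQ hφ hu hr
  obtain ⟨j₀, HA⟩ := cb HA
  change Mglue.MG f l i Q φ u
  have hl : (l : PadicAlgCl p) ≠ 0 := Nat.cast_ne_zero.2 (Fact.out : l.Prime).ne_zero
  have : Smooth f := SmoothOfRelativeDimension.smooth d f
  obtain ⟨Ch⟩ := All.hCHERN l (PadicAlgCl p) hl
  obtain ⟨w₀, g, co, hco, g1, g2, g3⟩ := Mglue.yo yo K (PadicAlgCl p) ν (algebraMap K _) X f ι hι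
  obtain ⟨N, hM⟩ := m0c w0 newt elkA p K κ₀ σ' β τ ν (Fin w₀) w G gw s n q m g j₀
    (fun z => ((Pow.pow p l hlp).2.2 z).1) hG hs hq g1
    fun a a2 a3 => ⟨(H1 a a2 a3).1, fun lam h j =>
      g2 (PadicAlgCl p) (fun i => aeval a (q i)) lam h (fun G k _ h2 h3 =>
        (H1 a a2 a3).2 G k h2 fun x => not_not.1 fun h4 => h3 x h4) j⟩
  obtain ⟨κ, _, _, c, e, R, _, _, _, Z, F, z, c₀, ω, θ, HB⟩ := HA N
  have := HB.1
  have hc₀ := HB.2.1
  have hθ := HB.2.2.2.2.2.1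
  have val := HB.2.2.2.2.2.2
  obtain ⟨E, hE1, hM2⟩ := hM κ c e ω θ hθ
  obtain ⟨E', hE', r2⟩ := gens R (algebraMap R (PadicAlgCl p))
  obtain ⟨k, O, σ, υ, hk, o1, o2, o3, o4, o5, o6, o7, o8, o9, t1, t2⟩ :=
    opr p l hlp K φ u Q (E ∪ E' ∪ Finset.univ.image c₀) hQ hφ hu hr fun x hx => by
      simp only [Finset.mem_union, Finset.mem_image, Finset.mem_univ, true_and] at hx
      obtain (h | h) | ⟨j, rfl⟩ := hx
      exacts [hE1 x h, hE' x h, hc₀ j]
  let c' : MI e → O := fun j => ⟨c₀ j, o2 _ (by simp)⟩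
  obtain ⟨B, _, _, b1, b2, b3⟩ := hens (JB c') (Ideal.span {(p : JB c')})
  let _ : Algebra O B := ((algebraMap (JB c') B).comp (algebraMap O (JB c'))).toAlgebra
  have := IsScalarTower.of_algebraMap_eq (R := O) (S := JB c') (A := B) fun _ => rfl
  let C := Localization.Away (p : B)
  obtain ⟨χ, c1, c2⟩ := chi p K O C o4 (by
    simpa using IsLocalization.Away.algebraMap_isUnit (S := C) (p : B))
  obtain ⟨s', q', lam, I, e₀, y, w1, w2, w3, m1, m2, m3, m4⟩ :=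
    hM2 O (fun x hx => o2 x (by simp [hx])) o1 o3 o4 c' val B C (algebraMap _ B) χ
      (by simpa [Ideal.map_span] using newt.1 B _ b2) c1
  obtain ⟨t, s1, s2, s3, s4⟩ := All.hSU p l O κ c _ c' B C _ _ _ hlp o1 o3 b1 b3 b2 HB.2.2.1
  obtain ⟨W, π, a, tr, i1, i2⟩ := midc l K _ (algebraMap K _) Ch p1l κ τ ν (Fin w₀) X f g co hco O C
    χ (algebraMap B C ∘ algebraMap _ B ∘ je c') _ _ _ s' q' lam I e₀ y Finset.univ.toList hl g1 g3 c2
    (Twt.jp_map _ (Twt.jp_map _ (jp_je c'))) s2 w1 w2 w3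
    (Finset.nodup_toList _) (fun _ => Finset.mem_toList.2 (Finset.mem_univ _)) m1 m2 m3 m4
  obtain ⟨-, k2, -, k4, -⟩ := All.hKPD l K _ (algebraMap K (PadicAlgCl p)) X f d
    (chart_of D.twf K X f d) hirr
  obtain ⟨ε, e1, e2⟩ := epsc l _ Ch p1l κ _ W _ _ _ _ _ _ π a t
    ((Finset.univ.toList.map n).map ω) ((Finset.univ.toList.reverse.map n).map ω) _ d _ _ tr _ s1
    (fun _ => rfl) s3 (by rw [List.map_map, List.map_map]; rfl)
    (by rw [List.map_map, List.map_map]; rfl) i1 k2 k4 fun N hN => by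
      have := HB.2.2.2.1 Ch p1l _ N hN (num n m d P H2)
      rwa [List.map_append (f := ω), List.map_append (f := ω), List.map_replicate] at this
  have fK (g : PadicAlgCl p ≃ₐ[O] PadicAlgCl p) (g' : PadicAlgCl p ≃ₐ[K] PadicAlgCl p)
      (h : ∀ x, g x = g' x) : spc (g : PadicAlgCl p →+* PadicAlgCl p) ≫
        spc (algebraMap K (PadicAlgCl p)) = spc (algebraMap K _) :=
    (ZP.spc_spc _ _).trans (congrArg spc (RingHom.ext fun x => (h _).trans (g'.commutes x)))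
  have fR (g : PadicAlgCl p ≃ₐ[O] PadicAlgCl p) (x : R) : g (algebraMap R _ x) = algebraMap R _ x :=
    r2 (g : PadicAlgCl p →+* PadicAlgCl p) (fun y hy => g.commutes ⟨y, o2 y (by simp [hy])⟩) x
  have fR' (g : PadicAlgCl p ≃ₐ[O] PadicAlgCl p) : spc (g : PadicAlgCl p →+* PadicAlgCl p) ≫
      spc (algebraMap R (PadicAlgCl p)) = spc (algebraMap R _) :=
    (ZP.spc_spc _ _).trans (congrArg spc (RingHom.ext (fR g)))
  have key (g : PadicAlgCl p ≃ₐ[O] PadicAlgCl p) (h) (M : ℕ)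
      (hg : Tw l (g : PadicAlgCl p →+* PadicAlgCl p) M) (j α x) :
      hpb l (fa F _ (fR' g)) _ (ε j α x) = (M ^ (Finset.univ : Finset τ).toList.length) •
        ε j (epb l (fa f (g : PadicAlgCl p →+* PadicAlgCl p) h) j α) x := by
    obtain ⟨gW, h1, h2⟩ := i2 g h M hg
    exact e2 _ gW _ _ _ (s4 g _ (pullback.lift_fst _ _ _) fun k => by
      rw [← Category.assoc]; exact congrArg (· ≫ z k) (pullback.lift_snd _ _ _)) h1 h2 j α x
  exact Mglue.endq All.hEND l K R _ X Z f F d _ _ Q k _ _ φ u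
    (.ofRingEquiv (f := σ.toRingEquiv) (fR σ))
    (.ofRingEquiv (f := υ.toRingEquiv) (fR υ)) σ υ (fK σ _ o5) (fK υ _ o6) (fR' σ) (fR' υ)
    (chart_of D.twf K X f d) hirr hQ hk (by rw [List.length_map]) rfl (one_pow _) o5 o6
    (fun _ => rfl) (fun _ => rfl) t1 (fun j => HB.2.2.2.2.1 j _ _ _ (Nat.one_lt_pow hk.ne' hQ) o7 o8 o9) ε e1
    (key σ _ _ t1) (key υ _ _ t2) i

end Pool.Agent.MP_855f4c_ag.T

end

end
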