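import Pool.Agent.MP_855f4c_ag.CC.Ce
import Pool.Agent.MP_855f4c_ag.CC.Cf
import Pool.Agent.MP_855f4c_ag.CC.Ch
import Pool.Agent.MP_855f4c_ag.CC.Ci
import Pool.Agent.MP_855f4c_ag.CC.Cj

set_option linter.all false

section

/-! h92c: every row without hypotheses. -/

namespace Pool.Agent.MP_855f4c_ag.Cu.All

open E

theorem hFAMC : FAMC_s := famc bertc spr zsmc

theorem hFINALC : FINALC_s :=
  lc T.qa (apxc f0 curves (model nod modn) prod gens hFAMC E.G.nglA lift bezc T.zlb (val tr)) cds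
    E.All.pbcx M3.emb M3.iso M3.ext M3.frb

end Pool.Agent.MP_855f4c_ag.Cu.All

end
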