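import Mathlib

set_option linter.all false

section

section
/-! h92c section N: statements. Mathlib only. -/

open MvPolynomial
open scoped Polynomial IntermediateField

namespace Pool.Agent.MP_855f4c_ag.Nd

abbrev P2 (F : Type) [Field F] := MvPolynomial (Fin 2) F

/-- `Y^N + Σ g b i x^i Y^b` (chart `X0 = 1`). -/
noncomputable def Gaf {R : Type} [CommRing R] (k N : ℕ) (g : ℕ → ℕ → R) : MvPolynomial (Fin 2) R :=
  X 1 ^ N + ∑ b ∈ Finset.range N, ∑ i ∈ Finset.range (k * (N - b) + 1), C (g b i) * X 0 ^ i * X 1 ^ b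

/-- The same form in the chart `X1 = 1` (`s = X 0`). -/
noncomputable def Ginf {R : Type} [CommRing R] (k N : ℕ) (g : ℕ → ℕ → R) : MvPolynomial (Fin 2) R :=
  X 1 ^ N + ∑ b ∈ Finset.range N, ∑ i ∈ Finset.range (k * (N - b) + 1),
    C (g b i) * X 0 ^ (k * (N - b) - i) * X 1 ^ b

/-- Enough algebraically independent elements. -/
def Gen (F : Type) [Field F] : Prop :=
  ∀ S : Set F, S.Finite → ∀ (ι : Type) [Fintype ι], ∃ c : ι → F, AlgebraicIndependent (Subfield.closure S) c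

section Abs
variable {F : Type} [Field F] {A : Type} [CommRing A] [Algebra F A]

noncomputable def ev (x η : A) : P2 F →ₐ[F] A := aeval ![x, η]

/-- `σ` generates `A` over `F[x]`. -/
def Spans (F : Type) [Field F] {A : Type} [CommRing A] [Algebra F A] (x : A) {n : ℕ} (σ : Fin n → A) : Prop :=
  ∀ z : A, ∃ c : Fin n → F[X], z = ∑ l, Polynomial.aeval x (c l) * σ l

structure Crv (F : Type) [Field F] {A : Type} [CommRing A] [Algebra F A] (x : A) : Prop where
  tr : Transcendental F x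
  fin : ∃ (n : ℕ) (σ : Fin n → A), Spans F x σ

def IsDer (χ : A →ₐ[F] F) (D : A →ₗ[F] F) : Prop := ∀ z w, D (z * w) = χ z * D w + χ w * D z

def Imm (χ : A →ₐ[F] F) (x η : A) : Prop := ∃ D, IsDer χ D ∧ (D x ≠ 0 ∨ D η ≠ 0)

def Ker (x η : A) (G : P2 F) : Prop := ∀ f : P2 F, ev x η f = 0 ↔ G ∣ f

/-- `g(x,z) = 0` and `V g_Y (x,z) = d(x) ≠ 0`. -/
def SepEq (x z : A) (g : P2 F) : Prop :=
  ev x z g = 0 ∧ ∃ (V : P2 F) (d : F[X]), d ≠ 0 ∧ ev x z (V * pderiv 1 g) = Polynomial.aeval x d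

def Sepb (F : Type) [Field F] {A : Type} [CommRing A] [Algebra F A] (x : A) : Prop :=
  ∀ z : A, ∃ g : P2 F, SepEq x z g

/-- `G = α a² + β a b + γ b²` with `a = c(x)`, `b = Y - y(x)`. -/
def Dec (G : P2 F) (c y : F[X]) (α β γ : P2 F) : Prop :=
  G = α * Polynomial.aeval (X 0) c ^ 2 + β * Polynomial.aeval (X 0) c * (X 1 - Polynomial.aeval (X 0) y) +
    γ * (X 1 - Polynomial.aeval (X 0) y) ^ 2

end Abs

section Fld
variable (F : Type) [Field F] {K : Type} [Field K] [Algebra F K]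

/-- Integral closure of `F[t]` in `K`. -/
noncomputable def IC (t : K) : Subalgebra F K := (integralClosure (Algebra.adjoin F {t}) K).restrictScalars F

/-- `z` lies in `A` and has the value `v` under `χ`. -/
def Val {F : Type} [Field F] {K : Type} [Field K] [Algebra F K] {A : Subalgebra F K} (χ : A →ₐ[F] F)
    (z : K) (v : F) : Prop := ∃ h : z ∈ A, χ ⟨z, h⟩ = v

/-- `θ = -β - γ b / a`. -/
noncomputable def th {F : Type} [Field F] {K : Type} [Field K] [Algebra F K] (x η : K) (c y : F[X]) (β γ : P2 F) : K :=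
  -ev x η β - ev x η γ * (η - Polynomial.aeval x y) / Polynomial.aeval x c

/-- `∏ (x - x_j)` -/
noncomputable def c1 {F : Type} [Field F] {δ : ℕ} (xs : Fin δ → F) : F[X] := ∏ j, (Polynomial.X - Polynomial.C (xs j))

/-- The nodal model. -/
structure Nod (x : K) (k N δ : ℕ) (η : K) (g : ℕ → ℕ → F) (xs ys : Fin δ → F) : Prop where
  hk : 2 ≤ k
  hN : 1 ≤ N
  hN2 : δ ≠ 0 → 2 ≤ N
  inj : Function.Injective xs
  memA : η ∈ IC F x
  memA' : η / x ^ k ∈ IC F x⁻¹
  ker : Ker x η (Gaf k N g)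
  ker' : Ker x⁻¹ (η / x ^ k) (Ginf k N g)
  n1 : g 0 0 ≠ 0 ∧ g 0 (k * N) ≠ 0
  n2 : ∀ j, eval ![xs j, ys j] (Gaf k N g) = 0 ∧ ∀ i, eval ![xs j, ys j] (pderiv i (Gaf k N g)) = 0
  n3 : ∀ x0 y0, eval ![x0, y0] (Gaf k N g) = 0 → (∀ j, ¬(x0 = xs j ∧ y0 = ys j)) →
    ∃ i, eval ![x0, y0] (pderiv i (Gaf k N g)) ≠ 0
  n3' : ∀ y0, eval ![0, y0] (Ginf k N g) = 0 → ∃ i, eval ![0, y0] (pderiv i (Ginf k N g)) ≠ 0
  n4 : ∀ lam : Fin δ → F, (∀ b < N, ∀ i ≤ k * (N - b), ∑ j, lam j * xs j ^ i * ys j ^ b = 0) → lam = 0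
  lift : ∀ x0 y0, eval ![x0, y0] (Gaf k N g) = 0 → ∃ χ : IC F x →ₐ[F] F, Val χ x x0 ∧ Val χ η y0
  lift' : ∀ y0, eval ![0, y0] (Ginf k N g) = 0 →
    ∃ χ : IC F x⁻¹ →ₐ[F] F, Val χ x⁻¹ 0 ∧ Val χ (η / x ^ k) y0
  n5 : ∀ (y : F[X]) (α β γ : P2 F), (∀ j, y.eval (xs j) = ys j) → Dec (Gaf k N g) (c1 xs) y α β γ →
    th x η (c1 xs) y β γ ∈ IC F x ∧
    (∀ j, eval ![xs j, ys j] γ ≠ 0 ∧ eval ![xs j, ys j] (β ^ 2 - 4 * α * γ) ≠ 0 ∧
      ∀ t : F, t ^ 2 + eval ![xs j, ys j] β * t + eval ![xs j, ys j] (α * γ) = 0 →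
        ∃ χ : IC F x →ₐ[F] F, Val χ x (xs j) ∧ Val χ η (ys j) ∧ Val χ (th x η (c1 xs) y β γ) t) ∧
    ∀ z ∈ IC F x, ∃ (f : P2 F) (c : F[X]), z = ev x η f + Polynomial.aeval x c * th x η (c1 xs) y β γ
  inf : ∀ z ∈ IC F x⁻¹, ∃ (B : F[X]) (f : P2 F), B.eval 0 ≠ 0 ∧
    Polynomial.aeval x⁻¹ B * z = ev x⁻¹ (η / x ^ k) f

end Fld

def NOD_s : Prop := ∀ (F K : Type) [Field F] [IsAlgClosed F] [Field K] [Algebra F K] (x : K),
  Gen F → Transcendental F x → FiniteDimensional F⟮x⟯ K → Algebra.IsSeparable F⟮x⟯ K →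
  ∃ (k N δ : ℕ) (η : K) (g : ℕ → ℕ → F) (xs ys : Fin δ → F), Nod F x k N δ η g xs ys

/-! ### Rows on an abstract Dedekind ring -/

/-- chain rule -/
def CHN_s : Prop := ∀ (F A : Type) [Field F] [CommRing A] [Algebra F A] (χ : A →ₐ[F] F) (D : A →ₗ[F] F),
  IsDer χ D → ∀ (x η : A) (f : P2 F), χ (ev x η f) = eval ![χ x, χ η] f ∧
    D (ev x η f) = eval ![χ x, χ η] (pderiv 0 f) * D x + eval ![χ x, χ η] (pderiv 1 f) * D η

def PT_s : Prop := ∀ (F A : Type) [Field F] [IsAlgClosed F] [CommRing A] [IsDedekindDomain A] [Algebra F A]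
  (x : A), Crv F x →
    (∀ P : Ideal A, P.IsMaximal → ∃ χ : A →ₐ[F] F, RingHom.ker χ = P) ∧
    (∀ χ : A →ₐ[F] F, ∃ D, IsDer χ D ∧ D ≠ 0) ∧
    (∀ x0 : F, {χ : A →ₐ[F] F | χ x = x0}.Finite) ∧
    ∀ (η : A) (G : P2 F), Ker x η G → ∀ x0 y0, eval ![x0, y0] G = 0 →
      ∃ χ : A →ₐ[F] F, χ x = x0 ∧ χ η = y0

def RAD_s : Prop := ∀ (F A : Type) [Field F] [IsAlgClosed F] [CommRing A] [IsDedekindDomain A] [Algebra F A]
  (x : A), Crv F x → ∀ I : Ideal A,
    (∀ χ : A →ₐ[F] F, (∀ z ∈ I, χ z = 0) → ∃ D, IsDer χ D ∧ ∃ z ∈ I, D z ≠ 0) →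
    ∀ z, (∀ χ : A →ₐ[F] F, (∀ w ∈ I, χ w = 0) → χ z = 0) → z ∈ I

def LOC_s : Prop := ∀ (F A : Type) [Field F] [IsAlgClosed F] [CommRing A] [IsDedekindDomain A] [Algebra F A]
  (x : A), Crv F x → ∀ (η u : A) (x0 y0 : F),
    (∀ χ : A →ₐ[F] F, χ x = x0 → χ η = y0 → Imm χ x η) →
    (∀ z : A, ∃ c d : F, ∀ χ : A →ₐ[F] F, χ x = x0 → χ η = y0 → χ z = c + d * χ u) →
    ∃ w : P2 F, eval ![x0, y0] w ≠ 0 ∧ ∀ z : A, ∃ f h : P2 F, ev x η w * z = ev x η f + ev x η h * u

/-- smooth point -/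
def SM_s : Prop := ∀ (F A : Type) [Field F] [IsAlgClosed F] [CommRing A] [IsDedekindDomain A] [Algebra F A]
  (x : A), Crv F x → ∀ (η : A) (G : P2 F), Ker x η G → ∀ χ : A →ₐ[F] F, Imm χ x η →
    (∀ ψ : A →ₐ[F] F, ψ x = χ x → ψ η = χ η → ψ = χ) → ∃ i, eval ![χ x, χ η] (pderiv i G) ≠ 0

def NODE_s : Prop := ∀ (F A : Type) [Field F] [IsAlgClosed F] [CommRing A] [IsDedekindDomain A] [Algebra F A]
  (x : A), Crv F x → ∀ (η : A) (G : P2 F), Ker x η G → ∀ (x0 y0 : F) (χ χ' : A →ₐ[F] F) (D D' : A →ₗ[F] F),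
    χ ≠ χ' → χ x = x0 → χ η = y0 → χ' x = x0 → χ' η = y0 →
    (∀ ψ : A →ₐ[F] F, ψ x = x0 → ψ η = y0 → ψ = χ ∨ ψ = χ') →
    (∀ ψ : A →ₐ[F] F, ψ x = x0 → ∃ E, IsDer ψ E ∧ E x ≠ 0) →
    IsDer χ D → IsDer χ' D' → D x = 1 → D' x = 1 → D η ≠ D' η →
    (∀ i, eval ![x0, y0] (pderiv i G) = 0) ∧
    (∀ q : F[X], (∀ ψ : A →ₐ[F] F, ψ x = x0 → q.eval (ψ η) = 0) →
      ∃ u : A, (x - algebraMap F A x0) * u = Polynomial.aeval η q) ∧
    ∀ (c y : F[X]) (α β γ : P2 F) (θ : A), c.eval x0 = 0 → c.derivative.eval x0 ≠ 0 → y.eval x0 = y0 →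
      Dec G c y α β γ → θ ^ 2 + ev x η β * θ + ev x η (α * γ) = 0 →
      Polynomial.aeval x c * θ = -ev x η β * Polynomial.aeval x c - ev x η γ * (η - Polynomial.aeval x y) →
      eval ![x0, y0] γ ≠ 0 ∧ eval ![x0, y0] (β ^ 2 - 4 * α * γ) ≠ 0 ∧ χ θ ≠ χ' θ ∧
        ∀ t : F, t ^ 2 + eval ![x0, y0] β * t + eval ![x0, y0] (α * γ) = 0 → t = χ θ ∨ t = χ' θ

/-- `A = O + F[x] θ` -/
def GLOB_s : Prop := ∀ (F A : Type) [Field F] [IsAlgClosed F] [CommRing A] [IsDedekindDomain A] [Algebra F A]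
  (x : A), Crv F x → ∀ (η θ : A) (y : F[X]), (∀ χ : A →ₐ[F] F, Imm χ x η) →
    (∃ f : P2 F, (η - Polynomial.aeval x y) * θ = ev x η f) →
    (∀ χ χ' : A →ₐ[F] F, χ ≠ χ' → χ x = χ' x → χ η = χ' η →
      (∀ ψ : A →ₐ[F] F, ψ x = χ x → ψ η = χ η → ψ = χ ∨ ψ = χ') ∧ χ θ ≠ χ' θ) →
    ∀ z : A, ∃ (f : P2 F) (c : F[X]), z = ev x η f + Polynomial.aeval x c * θ

def INF_s : Prop := ∀ (F A : Type) [Field F] [IsAlgClosed F] [CommRing A] [IsDedekindDomain A] [Algebra F A]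
  (x : A), Crv F x → ∀ η : A, (∀ χ : A →ₐ[F] F, χ x = 0 → Imm χ x η) →
    (∀ χ χ' : A →ₐ[F] F, χ x = 0 → χ' x = 0 → χ η = χ' η → χ = χ') →
    ∀ z : A, ∃ (B : F[X]) (f : P2 F), B.eval 0 ≠ 0 ∧ Polynomial.aeval x B * z = ev x η f

/-- transcendence count -/
def TD_s : Prop := ∀ (F : Type) [Field F] (F0 : Subfield F) (ι : Type) [Fintype ι] (c v w : ι → F) (x0 : F),
  AlgebraicIndependent F0 c →
  (∀ m, IsAlgebraic (Algebra.adjoin F0 {x0}) (v m) ∧ IsAlgebraic (Algebra.adjoin F0 {x0}) (w m)) →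
  ∑ m, c m * v m = 0 → ∑ m, c m * w m = 0 → ∀ i j, v i * w j = v j * w i

/-- generic at one given fibre -/
def GB_s : Prop := ∀ (F A : Type) [Field F] [IsAlgClosed F] [CommRing A] [IsDedekindDomain A] [Algebra F A]
  (x : A), Crv F x → ∀ (n : ℕ) (σ : Fin n → A), Spans F x σ → ∀ (ι : Type) [Fintype ι] (τ : ι → A),
    (∀ l, ∃ m, τ m = σ l) → ∀ x0 : F, ∃ S : Set F, S.Finite ∧ ∀ (F0 : Subfield F) (c : ι → F), S ⊆ F0 →
      AlgebraicIndependent F0 c →
      (∀ χ : A →ₐ[F] F, χ x = x0 → Imm χ x (∑ m, c m • τ m) ∧ χ (∑ m, c m • τ m) ≠ 0) ∧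
      ∀ χ χ' : A →ₐ[F] F, χ x = x0 → χ' x = x0 → χ (∑ m, c m • τ m) = χ' (∑ m, c m • τ m) → χ = χ'

/-- generic off a finite set of fibres -/
def GA_s : Prop := ∀ (F A : Type) [Field F] [IsAlgClosed F] [CommRing A] [IsDedekindDomain A] [Algebra F A]
  (x : A), Crv F x → Sepb F x → ∀ (n : ℕ) (σ : Fin n → A), Spans F x σ →
    ∀ (ι : Type) [Fintype ι] (τ : ι → A), (∀ l, (∃ m, τ m = σ l) ∧ ∃ m, τ m = x * σ l) →
    ∃ S B : Set F, S.Finite ∧ B.Finite ∧ ∀ (F0 : Subfield F) (c : ι → F), S ⊆ F0 →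
      AlgebraicIndependent F0 c → ∀ χ : A →ₐ[F] F, χ x ∉ B →
      (∃ D, IsDer χ D ∧ D x = 1) ∧
      ∀ χ' : A →ₐ[F] F, χ ≠ χ' → χ' x = χ x → χ' (∑ m, c m • τ m) = χ (∑ m, c m • τ m) →
        (∀ D D', IsDer χ D → IsDer χ' D' → D x = 1 → D' x = 1 → D (∑ m, c m • τ m) ≠ D' (∑ m, c m • τ m)) ∧
        ∀ ψ ψ' : A →ₐ[F] F, ψ ≠ ψ' → ψ x = χ x → ψ' x = χ x →
          ψ (∑ m, c m • τ m) = ψ' (∑ m, c m • τ m) → ψ = χ ∨ ψ = χ'

/-! ### Rows in the field -/

def KA_s : Prop := ∀ (F K : Type) [Field F] [Field K] [Algebra F K] (x : K),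
  Transcendental F x → FiniteDimensional F⟮x⟯ K → Algebra.IsSeparable F⟮x⟯ K →
  IsDedekindDomain (IC F x) ∧ (∃ h : x ∈ IC F x, Crv F (⟨x, h⟩ : IC F x) ∧ Sepb F (⟨x, h⟩ : IC F x)) ∧
    ∀ z ∈ IC F x⁻¹, ∃ k0 : ℕ, ∀ k ≥ k0, x ^ k * z ∈ IC F x

def WT_s : Prop := ∀ (F K : Type) [Field F] [Field K] [Algebra F K] (x : K),
  Transcendental F x → FiniteDimensional F⟮x⟯ K → Algebra.IsSeparable F⟮x⟯ K →
  ∀ (k : ℕ) (η : K), η ∈ IC F x → η / x ^ k ∈ IC F x⁻¹ → ∃ (N : ℕ) (g : ℕ → ℕ → F), 1 ≤ N ∧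
    Ker x η (Gaf k N g) ∧ Ker x⁻¹ (η / x ^ k) (Ginf k N g) ∧ SepEq x η (Gaf k N g)

def IND_s : Prop := ∀ (F K : Type) [Field F] [Field K] [Algebra F K] (x : K), Transcendental F x →
  ∀ (k N δ : ℕ) (η : K) (g : ℕ → ℕ → F) (xs ys : Fin δ → F), 1 ≤ k → 1 ≤ N → Function.Injective xs →
    η / x ^ k ∈ IC F x⁻¹ → Ker x η (Gaf k N g) →
    (∀ j (q : F[X]), q * (Polynomial.X - Polynomial.C (ys j)) =
        aeval ![Polynomial.C (xs j), Polynomial.X] (Gaf k N g) →
      Polynomial.aeval η q / (x - algebraMap F K (xs j)) ∈ IC F x) →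
    (∀ j, eval ![xs j, ys j] (Gaf k N g) = 0) →
    ∀ lam : Fin δ → F, (∀ b < N, ∀ i ≤ k * (N - b), ∑ j, lam j * xs j ^ i * ys j ^ b = 0) → lam = 0

end Pool.Agent.MP_855f4c_ag.Nd

end

section
/-! h92c section N: the nodal model, one `θ` per node. -/

open MvPolynomial
open scoped Polynomial IntermediateField

namespace Pool.Agent.MP_855f4c_ag.Nd

section Fld
variable (F : Type) [Field F] {K : Type} [Field K] [Algebra F K]

/-- The nodal model. -/
structure Nod1 (x : K) (k N δ : ℕ) (η : K) (g : ℕ → ℕ → F) (xs ys : Fin δ → F) : Prop where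
  hk : 2 ≤ k
  hN : 1 ≤ N
  hN2 : δ ≠ 0 → 2 ≤ N
  inj : Function.Injective xs
  memA : η ∈ IC F x
  memA' : η / x ^ k ∈ IC F x⁻¹
  ker : Ker x η (Gaf k N g)
  ker' : Ker x⁻¹ (η / x ^ k) (Ginf k N g)
  n1 : g 0 0 ≠ 0 ∧ g 0 (k * N) ≠ 0
  n2 : ∀ j, eval ![xs j, ys j] (Gaf k N g) = 0 ∧ ∀ i, eval ![xs j, ys j] (pderiv i (Gaf k N g)) = 0
  n3 : ∀ x0 y0, eval ![x0, y0] (Gaf k N g) = 0 → (∀ j, ¬(x0 = xs j ∧ y0 = ys j)) →
    ∃ i, eval ![x0, y0] (pderiv i (Gaf k N g)) ≠ 0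
  n3' : ∀ y0, eval ![0, y0] (Ginf k N g) = 0 → ∃ i, eval ![0, y0] (pderiv i (Ginf k N g)) ≠ 0
  n4 : ∀ lam : Fin δ → F, (∀ b < N, ∀ i ≤ k * (N - b), ∑ j, lam j * xs j ^ i * ys j ^ b = 0) → lam = 0
  lift : ∀ x0 y0, eval ![x0, y0] (Gaf k N g) = 0 → ∃ χ : IC F x →ₐ[F] F, Val χ x x0 ∧ Val χ η y0
  lift' : ∀ y0, eval ![0, y0] (Ginf k N g) = 0 →
    ∃ χ : IC F x⁻¹ →ₐ[F] F, Val χ x⁻¹ 0 ∧ Val χ (η / x ^ k) y0
  n5 : ∀ (j : Fin δ) (α β γ : P2 F),
    Dec (Gaf k N g) (Polynomial.X - Polynomial.C (xs j)) (Polynomial.C (ys j)) α β γ →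
    th x η (Polynomial.X - Polynomial.C (xs j)) (Polynomial.C (ys j)) β γ ∈ IC F x ∧
    eval ![xs j, ys j] γ ≠ 0 ∧ eval ![xs j, ys j] (β ^ 2 - 4 * α * γ) ≠ 0 ∧
      ∀ t : F, t ^ 2 + eval ![xs j, ys j] β * t + eval ![xs j, ys j] (α * γ) = 0 →
        ∃ χ : IC F x →ₐ[F] F, Val χ x (xs j) ∧ Val χ η (ys j) ∧
          Val χ (th x η (Polynomial.X - Polynomial.C (xs j)) (Polynomial.C (ys j)) β γ) t
  n6 : ∀ α β γ : Fin δ → P2 F,
    (∀ j, Dec (Gaf k N g) (Polynomial.X - Polynomial.C (xs j)) (Polynomial.C (ys j)) (α j) (β j) (γ j)) →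
    ∀ z ∈ IC F x, ∃ (f : P2 F) (c : Fin δ → F), z = ev x η f +
      ∑ j, c j • th x η (Polynomial.X - Polynomial.C (xs j)) (Polynomial.C (ys j)) (β j) (γ j)
  inf : ∀ z ∈ IC F x⁻¹, ∃ (B : F[X]) (f : P2 F), B.eval 0 ≠ 0 ∧
    Polynomial.aeval x⁻¹ B * z = ev x⁻¹ (η / x ^ k) f

end Fld

def NOD1_s : Prop := ∀ (F K : Type) [Field F] [IsAlgClosed F] [Field K] [Algebra F K] (x : K),
  Gen F → Transcendental F x → FiniteDimensional F⟮x⟯ K → Algebra.IsSeparable F⟮x⟯ K →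
  ∃ (k N δ : ℕ) (η : K) (g : ℕ → ℕ → F) (xs ys : Fin δ → F), Nod1 F x k N δ η g xs ys

/-- `A = O + Σ F θ_j` -/
def N6_s : Prop := ∀ (F A : Type) [Field F] [IsAlgClosed F] [CommRing A] [IsDedekindDomain A] [Algebra F A]
  (x : A), Crv F x → ∀ (η : A) (δ : ℕ) (xs ys : Fin δ → F) (θ : Fin δ → A), Function.Injective xs →
    (∀ χ : A →ₐ[F] F, Imm χ x η) →
    (∀ j, (∃ f : P2 F, (x - algebraMap F A (xs j)) * θ j = ev x η f) ∧
      ∃ f : P2 F, (η - algebraMap F A (ys j)) * θ j = ev x η f) →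
    (∀ χ χ' : A →ₐ[F] F, χ ≠ χ' → χ x = χ' x → χ η = χ' η →
      (∀ ψ : A →ₐ[F] F, ψ x = χ x → ψ η = χ η → ψ = χ ∨ ψ = χ') ∧
        ∃ j, χ x = xs j ∧ χ (θ j) ≠ χ' (θ j)) →
    ∀ z : A, ∃ (f : P2 F) (c : Fin δ → F), z = ev x η f + ∑ j, c j • θ j

end Pool.Agent.MP_855f4c_ag.Nd

end

section
/-! Rows CHN, PT, RAD. -/

open MvPolynomial
open scoped Polynomial IntermediateField

namespace Pool.Agent.MP_855f4c_ag.Nd

theorem chn : CHN_s := by
  intro F A _ _ _ χ D hD x η f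
  have h1 : D 1 = 0 := by simpa using hD 1 1
  have a1 : ∀ f : P2 F, χ (ev x η f) = eval ![χ x, χ η] f := fun f => by
    have : χ.comp (ev x η) = aeval ![χ x, χ η] := by
      ext i; fin_cases i <;> simp [ev]
    rw [← AlgHom.comp_apply, this]; rfl
  refine ⟨a1 f, ?_⟩
  induction f using MvPolynomial.induction_on with
  | C a => simp [ev, Algebra.algebraMap_eq_smul_one, h1]
  | add p q hp hq => simp only [map_add, hp, hq]; ring
  | mul_X p i hp =>
    rw [map_mul, hD, hp, a1, a1]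
    fin_cases i <;> simp [ev, Derivation.leibniz, pderiv_X] <;> ring

section
variable {F A : Type} [Field F] [CommRing A] [Algebra F A]

theorem Crv.ft {x : A} (h : Crv F x) : Algebra.FiniteType F A := by
  classical
  obtain ⟨n, σ, hσ⟩ := h.fin
  refine ⟨⟨insert x (Finset.univ.image σ), eq_top_iff.2 fun z _ => ?_⟩⟩
  obtain ⟨c, rfl⟩ := hσ z
  refine sum_mem fun l _ => mul_mem ?_ (Algebra.subset_adjoin (by simp))
  exact Algebra.adjoin_mono (by simp) (Polynomial.aeval_mem_adjoin_singleton F x)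

theorem Crv.int {x : A} (h : Crv F x) :
    (Polynomial.aeval x : F[X] →ₐ[F] A).toRingHom.IsIntegral := by
  obtain ⟨n, σ, hσ⟩ := h.fin
  let _ : Algebra F[X] A := (Polynomial.aeval x : F[X] →ₐ[F] A).toRingHom.toAlgebra
  have : Module.Finite F[X] A := ⟨(Submodule.fg_iff_exists_fin_generating_family).2 ⟨n, σ,
    eq_top_iff.2 fun z _ => by
      obtain ⟨c, rfl⟩ := hσ z
      exact sum_mem fun l _ => Submodule.smul_mem _ (c l) (Submodule.subset_span ⟨l, rfl⟩)⟩⟩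
  exact fun z => Algebra.IsIntegral.isIntegral (R := F[X]) z

theorem exists_char [IsAlgClosed F] [Algebra.FiniteType F A] (P : Ideal A) (hP : P.IsMaximal) :
    ∃ ψ : A →ₐ[F] F, RingHom.ker ψ = P := by
  let _ : Field (A ⧸ P) := Ideal.Quotient.field P
  have : Module.Finite F (A ⧸ P) := finite_of_finite_type_of_isJacobsonRing F (A ⧸ P)
  have hb : Function.Bijective (algebraMap F (A ⧸ P)) :=
    IsAlgClosed.algebraMap_bijective_of_isIntegral
  let e : F ≃ₐ[F] (A ⧸ P) := AlgEquiv.ofBijective (Algebra.ofId F (A ⧸ P)) hb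
  refine ⟨(e.symm : (A ⧸ P) →ₐ[F] F).comp (Ideal.Quotient.mkₐ F P), Ideal.ext fun z => ?_⟩
  simp [RingHom.mem_ker, Ideal.Quotient.eq_zero_iff_mem]

theorem ker_max (ψ : A →ₐ[F] F) : (RingHom.ker ψ).IsMaximal :=
  RingHom.ker_isMaximal_of_surjective ψ (fun c => ⟨algebraMap F A c, by simp⟩)

theorem IsDer.sq {ψ : A →ₐ[F] F} {D : A →ₗ[F] F} (h : IsDer ψ D) (u : A)
    (hu : u ∈ (RingHom.ker ψ) ^ 2) : D u = 0 := by
  rw [pow_two] at hu
  refine Submodule.mul_induction_on hu (fun a ha b hb => ?_) (fun a b ha hb => ?_)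
  · rw [RingHom.mem_ker] at ha hb
    rw [h]; simp [ha, hb]
  · simp [ha, hb]

theorem Crv.ne {x : A} (h : Crv F x) (c : F) : x - algebraMap F A c ≠ 0 := fun e =>
  h.tr ⟨Polynomial.X - Polynomial.C c, Polynomial.X_sub_C_ne_zero c, by simpa using e⟩

theorem exists_der [IsDedekindDomain A] (ψ : A →ₐ[F] F) (h0 : RingHom.ker ψ ≠ ⊥) :
    ∃ D : A →ₗ[F] F, IsDer ψ D ∧ D ≠ 0 := by
  set P := RingHom.ker ψ with hP
  have hm : P.IsMaximal := ker_max ψ
  obtain ⟨π, hπ, hπ2⟩ := Ideal.exists_mem_pow_notMem_pow_succ P h0 hm.ne_top 1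
  rw [pow_one] at hπ
  obtain ⟨φ, hφ1, hφ2⟩ := Submodule.exists_le_ker_of_notMem
    (p := ((P ^ 2).restrictScalars F)) (v := π) (by simpa using hπ2)
  refine ⟨φ - (φ 1) • ψ.toLinearMap, fun u v => ?_, fun h => hφ1 ?_⟩
  · have hu : u - algebraMap F A (ψ u) ∈ P := by simp [hP, RingHom.mem_ker]
    have hv : v - algebraMap F A (ψ v) ∈ P := by simp [hP, RingHom.mem_ker]
    have h2 : φ ((u - algebraMap F A (ψ u)) * (v - algebraMap F A (ψ v))) = 0 :=
      hφ2 (show _ ∈ P ^ 2 by rw [pow_two]; exact Ideal.mul_mem_mul hu hv)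
    have e : (u - algebraMap F A (ψ u)) * (v - algebraMap F A (ψ v)) =
        u * v - ψ u • v - ψ v • u + (ψ u * ψ v) • (1 : A) := by
      simp only [Algebra.smul_def, map_mul]; ring
    rw [e] at h2
    simp only [map_add, map_sub, map_smul, smul_eq_mul] at h2
    simp only [LinearMap.sub_apply, LinearMap.smul_apply, AlgHom.toLinearMap_apply, smul_eq_mul,
      map_mul]
    linear_combination h2
  · have := congrArg (fun D : A →ₗ[F] F => D π) h
    rw [RingHom.mem_ker] at hπ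
    simpa [hπ] using this

end

theorem pt : PT_s := by
  intro F A _ _ _ _ _ x hx
  have := hx.ft
  refine ⟨exists_char, fun χ => exists_der χ fun h => hx.ne (χ x) ?_, fun x0 => ?_,
    fun η G hG x0 y0 h0 => ?_⟩
  · rw [← Ideal.mem_bot, ← h, RingHom.mem_ker]; simp
  · have hI : Ideal.span {x - algebraMap F A x0} ≠ ⊥ := by
      rw [Ne, Ideal.span_singleton_eq_bot]; exact hx.ne x0
    have hf := Ideal.finite_factors hI
    refine Set.Finite.of_finite_image (f := fun χ : A →ₐ[F] F => RingHom.ker χ)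
      ((hf.image fun v => v.asIdeal).subset ?_) fun χ _ χ' _ e => ?_
    · rintro _ ⟨χ, hχ, rfl⟩
      have hm : x - algebraMap F A x0 ∈ RingHom.ker χ := by
        rw [RingHom.mem_ker, map_sub, hχ]; simp
      exact ⟨⟨RingHom.ker χ, (ker_max χ).isPrime, fun h => hx.ne x0 (by rwa [h] at hm)⟩,
        Ideal.dvd_span_singleton.2 hm, rfl⟩
    · ext z
      have e' : RingHom.ker χ = RingHom.ker χ' := e
      have : z - algebraMap F A (χ z) ∈ RingHom.ker χ' := by
        rw [← e', RingHom.mem_ker]; simp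
      rw [RingHom.mem_ker, map_sub, sub_eq_zero] at this
      simpa using this.symm
  · let _ : Algebra (P2 F) A := (ev x η : P2 F →ₐ[F] A).toRingHom.toAlgebra
    have hi : (ev x η : P2 F →ₐ[F] A).toRingHom.IsIntegral := by
      refine RingHom.IsIntegral.tower_top
        (Polynomial.aeval (X 0) : F[X] →ₐ[F] P2 F).toRingHom _ ?_
      have : (ev x η : P2 F →ₐ[F] A).toRingHom.comp (Polynomial.aeval (X 0) : F[X] →ₐ[F] P2 F).toRingHom =
          (Polynomial.aeval x : F[X] →ₐ[F] A).toRingHom := by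
        ext <;> simp [ev]
      rw [this]; exact hx.int
    have : Algebra.IsIntegral (P2 F) A := ⟨hi⟩
    have hm := ker_max (aeval ![x0, y0] : P2 F →ₐ[F] F)
    obtain ⟨Q, hQ, hc⟩ := Ideal.exists_ideal_over_maximal_of_isIntegral (S := A)
      (RingHom.ker (aeval ![x0, y0] : P2 F →ₐ[F] F)) (fun f hf => by
        obtain ⟨q, rfl⟩ := (hG f).1 hf
        rw [RingHom.mem_ker, map_mul, show aeval ![x0, y0] G = 0 from h0, zero_mul])
    obtain ⟨χ, hχ⟩ := exists_char (F := F) Q hQ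
    have key : ∀ f : P2 F, aeval ![x0, y0] f = 0 → χ (ev x η f) = 0 := fun f hf => by
      rw [← RingHom.mem_ker, hχ]
      have : f ∈ Q.comap (algebraMap (P2 F) A) := hc ▸ hf
      exact this
    refine ⟨χ, ?_, ?_⟩
    · have := key (X 0 - C x0) (by simp)
      rw [map_sub, map_sub, sub_eq_zero] at this
      simpa [ev] using this
    · have := key (X 1 - C y0) (by simp)
      rw [map_sub, map_sub, sub_eq_zero] at this
      simpa [ev] using this

theorem rad : RAD_s := by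
  intro F A _ _ _ _ _ x hx I h z hz
  have := hx.ft
  have hI : I ≠ ⊥ := by
    rintro rfl
    obtain ⟨P, hP⟩ := Ideal.exists_maximal A
    obtain ⟨χ, -⟩ := exists_char (F := F) P hP
    obtain ⟨D, -, w, hw, h0⟩ := h χ (fun w hw => by rw [Ideal.mem_bot.1 hw, map_zero])
    exact h0 (by rw [Ideal.mem_bot.1 hw, map_zero])
  have hsq : Squarefree I := by
    intro J hJ
    rw [Ideal.isUnit_iff]
    by_contra hne
    obtain ⟨P, hP, hle⟩ := Ideal.exists_le_maximal J hne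
    obtain ⟨ψ, rfl⟩ := exists_char (F := F) P hP
    have h2 : I ≤ RingHom.ker ψ ^ 2 := by
      refine (Ideal.le_of_dvd hJ).trans ?_
      rw [pow_two]; exact Ideal.mul_mono hle hle
    obtain ⟨D, hD, u, hu, hu2⟩ := h ψ (fun u hu => Ideal.pow_le_self two_ne_zero (h2 hu))
    exact hu2 (hD.sq u (h2 hu))
  have hr : z ∈ I.radical := by
    rw [Ideal.radical_eq_sInf, Ideal.mem_sInf]
    rintro P ⟨hle, hP⟩
    have hP0 : P ≠ ⊥ := fun h0 => hI (le_bot_iff.1 (h0 ▸ hle))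
    obtain ⟨ψ, rfl⟩ := exists_char (F := F) P (hP.isMaximal hP0)
    exact hz ψ (fun u hu => hle hu)
  obtain ⟨n, hn⟩ := hr
  have := hsq.isRadical n (Ideal.span {z}) (by
    rw [Ideal.span_singleton_pow, Ideal.dvd_span_singleton]; exact hn)
  rwa [Ideal.dvd_span_singleton] at this

end Pool.Agent.MP_855f4c_ag.Nd

end

section
/-! h92c section N: rows LOC, SM (`nak`, `unif`, `grad` from helper9's lemma file). -/

open MvPolynomial
open scoped Polynomial

namespace Pool.Agent.MP_855f4c_ag.Nd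

namespace Lc

variable {F A : Type} [Field F] [CommRing A] [Algebra F A]

theorem d_alg {χ : A →ₐ[F] F} {D : A →ₗ[F] F} (h : IsDer χ D) (a : F) :
    D (algebraMap F A a) = 0 := by
  have : D 1 = 0 := by simpa using h 1 1
  rw [Algebra.algebraMap_eq_smul_one, map_smul, this, smul_zero]

theorem d_sq {ψ : A →ₐ[F] F} {D : A →ₗ[F] F} (h : IsDer ψ D) (u : A)
    (hu : u ∈ (RingHom.ker ψ) ^ 2) : D u = 0 := by
  rw [pow_two] at hu
  refine Submodule.mul_induction_on hu (fun a ha b hb => ?_) (fun a b ha hb => ?_)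
  · rw [RingHom.mem_ker] at ha hb
    rw [h, ha, hb]
    simp
  · rw [map_add, ha, hb, add_zero]

theorem unif [IsDedekindDomain A] (P : Ideal A) (π e : A) (hπ : π ∈ P) (hπ2 : π ∉ P ^ 2)
    (he : e ∈ P) : ∃ j z : A, j ∉ P ∧ j * e = π * z := by
  obtain ⟨J, hJ⟩ := Ideal.dvd_span_singleton.2 hπ
  have hJP : ¬ J ≤ P := fun hle => hπ2 (by
    have : π ∈ P * J := hJ ▸ Ideal.mem_span_singleton_self π
    rw [pow_two]; exact Ideal.mul_mono_right hle this)
  obtain ⟨j, hj, hjP⟩ := SetLike.not_le_iff_exists.1 hJP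
  have : e * j ∈ Ideal.span {π} := hJ ▸ Ideal.mul_mem_mul he hj
  obtain ⟨z, hz⟩ := Ideal.mem_span_singleton'.1 this
  exact ⟨j, z, hjP, by rw [mul_comm j, ← hz, mul_comm]⟩

theorem nak {S : Type} [CommRing S] [Algebra S A] [Module.Finite S A] (m : Ideal S)
    (N : Submodule S A) (h : ∀ z : A, ∃ n ∈ N, z - n ∈ m.map (algebraMap S A)) :
    ∃ W : S, W - 1 ∈ m ∧ ∀ z : A, W • z ∈ N := by
  obtain ⟨W, hW, hW2⟩ := Submodule.exists_sub_one_mem_and_smul_eq_zero_of_fg_of_le_smul m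
    (⊤ : Submodule S (A ⧸ N)) Module.Finite.fg_top (by
      intro q _
      obtain ⟨z, rfl⟩ := N.mkQ_surjective q
      obtain ⟨n, hn, hz⟩ := h z
      have e : N.mkQ z = N.mkQ (z - n) := by
        rw [map_sub, show N.mkQ n = 0 from (Submodule.Quotient.mk_eq_zero N).2 hn, sub_zero]
      rw [e]
      have h2 : z - n ∈ m • (⊤ : Submodule S A) := by
        rw [Ideal.smul_top_eq_map]; exact hz
      have := Submodule.mem_map_of_mem (f := N.mkQ) h2
      rw [Submodule.map_smul''] at this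
      exact Submodule.smul_mono le_rfl le_top this)
  refine ⟨W, hW, fun z => ?_⟩
  have := hW2 (N.mkQ z) trivial
  rw [← map_smul] at this
  exact (Submodule.Quotient.mk_eq_zero N).1 this

theorem grad [IsDedekindDomain A] {S : Type} [CommRing S] [Algebra F S] (ev : S →ₐ[F] A) (G : S)
    (hker : ∀ f, ev f = 0 → G ∣ f) (ψ : A →ₐ[F] F) (W : S) (hW : ψ (ev W) ≠ 0)
    (hWA : ∀ z : A, ∃ f, ev f = ev W * z) (π e : S) (hπ : ψ (ev π) = 0)
    (hπ2 : ev π ∉ (RingHom.ker ψ) ^ 2) (he : ψ (ev e) = 0) (hG : ev G = 0)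
    (E : S →ₗ[F] F) (hE : IsDer (ψ.comp ev) E) (hEπ : E π = 0) (hEe : E e ≠ 0) : E G ≠ 0 := by
  obtain ⟨j, z, hj, hjz⟩ := unif (RingHom.ker ψ) (ev π) (ev e) hπ hπ2 he
  obtain ⟨fj, hfj⟩ := hWA j
  obtain ⟨fz, hfz⟩ := hWA z
  obtain ⟨q, hq⟩ := hker (fj * e - π * fz) (by
    rw [map_sub, map_mul, map_mul, hfj, hfz, mul_assoc, hjz]; ring)
  intro h0
  have h1 := congrArg E hq
  rw [map_sub, hE, hE, hE] at h1
  simp only [AlgHom.comp_apply, hπ, he, hEπ, hG, h0, hfj, map_mul, map_zero, zero_mul, mul_zero,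
    add_zero, sub_zero] at h1
  rw [RingHom.mem_ker] at hj
  exact (mul_ne_zero (mul_ne_zero hW hj) hEe) h1

theorem chi_ev (χ : A →ₐ[F] F) (x η : A) : χ.comp (ev x η) = aeval ![χ x, χ η] := by
  ext i
  fin_cases i <;> simp [ev]

end Lc

open Lc in
theorem loc (hR : RAD_s) : LOC_s := by
  intro F A _ _ _ _ _ x hx η u x0 y0 him hz
  obtain ⟨n, σ, hσ⟩ := hx.fin
  let _ : Algebra (P2 F) A := (ev x η).toRingHom.toAlgebra
  have am : ∀ f : P2 F, algebraMap (P2 F) A f = ev x η f := fun _ => rfl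
  have : Module.Finite (P2 F) A := ⟨Submodule.fg_def.2 ⟨Set.range σ, Set.finite_range σ,
    eq_top_iff.2 fun z _ => by
      obtain ⟨c, rfl⟩ := hσ z
      refine Submodule.sum_mem _ fun l _ => ?_
      have : Polynomial.aeval x (c l) * σ l = (Polynomial.aeval (X 0 : P2 F) (c l)) • σ l := by
        rw [Algebra.smul_def, am, ← Polynomial.aeval_algHom_apply]
        simp [ev]
      rw [this]
      exact Submodule.smul_mem _ _ (Submodule.subset_span ⟨l, rfl⟩)⟩⟩
  have key : ∀ ψ : A →ₐ[F] F,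
      (∀ z ∈ Ideal.span {x - algebraMap F A x0, η - algebraMap F A y0}, ψ z = 0) →
      ψ x = x0 ∧ ψ η = y0 := fun ψ h => by
    have h1 := h _ (Ideal.subset_span (Or.inl rfl))
    have h2 := h _ (Ideal.subset_span (Or.inr rfl))
    rw [map_sub, AlgHom.commutes, sub_eq_zero] at h1 h2
    exact ⟨h1, h2⟩
  obtain ⟨W, hW, hW2⟩ := nak (RingHom.ker (eval ![x0, y0] : P2 F →+* F))
    (Submodule.span (P2 F) {1, u}) fun z => by
      obtain ⟨c, d, hcd⟩ := hz z
      refine ⟨(C c : P2 F) • (1 : A) + (C d : P2 F) • u, Submodule.mem_span_pair.2 ⟨_, _, rfl⟩, ?_⟩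
      have hle : Ideal.span {x - algebraMap F A x0, η - algebraMap F A y0} ≤
          (RingHom.ker (eval ![x0, y0] : P2 F →+* F)).map (algebraMap (P2 F) A) := by
        rw [Ideal.span_le]
        rintro _ (rfl | rfl)
        · have := Ideal.mem_map_of_mem (algebraMap (P2 F) A)
            (show X 0 - C x0 ∈ RingHom.ker (eval ![x0, y0] : P2 F →+* F) by simp [RingHom.mem_ker])
          simpa [am, ev] using this
        · have := Ideal.mem_map_of_mem (algebraMap (P2 F) A)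
            (show X 1 - C y0 ∈ RingHom.ker (eval ![x0, y0] : P2 F →+* F) by simp [RingHom.mem_ker])
          simpa [am, ev] using this
      refine hle (hR F A x hx _ (fun ψ h => ?_) _ fun ψ h => ?_)
      · obtain ⟨D, hD, h1 | h1⟩ := him ψ (key ψ h).1 (key ψ h).2
        · exact ⟨D, hD, _, Ideal.subset_span (Or.inl rfl), by rwa [map_sub, d_alg hD, sub_zero]⟩
        · exact ⟨D, hD, _, Ideal.subset_span (Or.inr rfl), by rwa [map_sub, d_alg hD, sub_zero]⟩
      · simp [Algebra.smul_def, am, ev, hcd ψ (key ψ h).1 (key ψ h).2]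
  refine ⟨W, ?_, fun z => ?_⟩
  · rw [RingHom.mem_ker, map_sub, map_one, sub_eq_zero] at hW
    rw [hW]
    exact one_ne_zero
  · obtain ⟨f, h, e⟩ := Submodule.mem_span_pair.1 (hW2 z)
    exact ⟨f, h, by simpa [Algebra.smul_def, am] using e.symm⟩

open Lc in
theorem sm (hL : LOC_s) : SM_s := by
  intro F A _ _ _ _ _ x hx η G hG χ him uniq
  obtain ⟨w, hw, hW⟩ := hL F A x hx η 0 (χ x) (χ η) (fun ψ h1 h2 => by rw [uniq ψ h1 h2]; exact him)
    fun z => ⟨χ z, 0, fun ψ h1 h2 => by rw [uniq ψ h1 h2]; simp⟩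
  have c0 : ∀ f, χ (ev x η f) = eval ![χ x, χ η] f := fun f => by
    rw [← AlgHom.comp_apply, chi_ev]
    rfl
  have main : ∀ (i : Fin 2) (π e : P2 F), eval ![χ x, χ η] π = 0 → eval ![χ x, χ η] e = 0 →
      ev x η π ∉ (RingHom.ker χ) ^ 2 → pderiv i π = 0 → pderiv i e = 1 →
      eval ![χ x, χ η] (pderiv i G) ≠ 0 := fun i π e h1 h2 h3 h4 h5 =>
    grad (ev x η) G (fun f => (hG f).1) χ w (by rwa [c0])
      (fun z => (hW z).elim fun f h => h.elim fun _ e => ⟨f, by simpa using e.symm⟩) π e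
      (by rwa [c0]) h3 (by rwa [c0]) ((hG G).2 dvd_rfl)
      ((aeval ![χ x, χ η] : P2 F →ₐ[F] F).toLinearMap ∘ₗ (pderiv i).toLinearMap)
      (fun a b => by
        rw [chi_ev]
        simp [Derivation.leibniz]) (by simp [h4]) (by simp [h5])
  obtain ⟨D, hD, h | h⟩ := him
  · exact ⟨1, main 1 (X 0 - C (χ x)) (X 1 - C (χ η)) (by simp) (by simp)
      (fun e => h (by simpa [ev, d_alg hD] using d_sq hD _ e)) (by simp [pderiv_X]) (by simp)⟩
  · exact ⟨0, main 0 (X 1 - C (χ η)) (X 0 - C (χ x)) (by simp) (by simp)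
      (fun e => h (by simpa [ev, d_alg hD] using d_sq hD _ e)) (by simp [pderiv_X]) (by simp)⟩

end Pool.Agent.MP_855f4c_ag.Nd

end

section
/-! h92c section N: the ordinary node. -/

open MvPolynomial
open scoped Polynomial

namespace Pool.Agent.MP_855f4c_ag.Nd

section
variable {F A : Type} [Field F] [CommRing A] [Algebra F A]

theorem Node.der_one {χ : A →ₐ[F] F} {D : A →ₗ[F] F} (h : IsDer χ D) : D 1 = 0 := by
  obtain h1 := h 1 1
  simp only [mul_one, map_one, one_mul] at h1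
  linear_combination -h1

theorem Node.der_alg {χ : A →ₐ[F] F} {D : A →ₗ[F] F} (h : IsDer χ D) (c : F) :
    D (algebraMap F A c) = 0 := by
  rw [Algebra.algebraMap_eq_smul_one, map_smul, Node.der_one h, smul_zero]

theorem Node.chi_aeval (χ : A →ₐ[F] F) (z : A) (c : F[X]) :
    χ (Polynomial.aeval z c) = c.eval (χ z) := by
  rw [← Polynomial.aeval_algHom_apply, Polynomial.coe_aeval_eq_eval]

theorem Node.der_aeval {χ : A →ₐ[F] F} {D : A →ₗ[F] F} (h : IsDer χ D) (z : A) (c : F[X]) :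
    D (Polynomial.aeval z c) = c.derivative.eval (χ z) * D z := by
  induction c using Polynomial.induction_on with
  | C a => simp [Node.der_alg h]
  | add p q hp hq => simp [hp, hq, add_mul]
  | monomial n a ih =>
    rw [pow_succ, ← mul_assoc, map_mul, h, ih, Node.chi_aeval,
      Polynomial.derivative_mul (f := _ * _)]
    simp only [Polynomial.aeval_X, Polynomial.derivative_X, Polynomial.eval_add,
      Polynomial.eval_mul, Polynomial.eval_X, Polynomial.eval_one]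
    ring

theorem Node.ev0 (x η : A) (c : F[X]) :
    ev x η (Polynomial.aeval (X 0 : P2 F) c) = Polynomial.aeval x c := by
  rw [← Polynomial.aeval_algHom_apply]; simp [ev]

theorem Node.ev1 (x η : A) (c : F[X]) :
    ev x η (Polynomial.aeval (X 1 : P2 F) c) = Polynomial.aeval η c := by
  rw [← Polynomial.aeval_algHom_apply]; simp [ev]

theorem Node.res (x0 y0 : F) (f : P2 F) :
    (ev (Polynomial.C x0) (Polynomial.X : F[X]) f).eval y0 = eval ![x0, y0] f := by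
  induction f using MvPolynomial.induction_on with
  | C a => simp [ev]
  | add p q hp hq => simp [hp, hq]
  | mul_X p i ih =>
    rw [map_mul, Polynomial.eval_mul, ih, map_mul]
    fin_cases i <;> simp [ev]

end

theorem node (hC : CHN_s) (hR : RAD_s) (hL : LOC_s) (hP : PT_s) : NODE_s := by
  classical
  intro F A _ _ _ _ _ x hx η G hG x0 y0 χ χ' D D' hne h1 h2 h1' h2' htwo hun hD hD' hx1 hx1' hd
  obtain hdiv : ∀ q : F[X], (∀ ψ : A →ₐ[F] F, ψ x = x0 → q.eval (ψ η) = 0) →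
      ∃ u : A, (x - algebraMap F A x0) * u = Polynomial.aeval η q := by
    intro q hq
    obtain hm : ∀ ψ : A →ₐ[F] F, (∀ z ∈ Ideal.span {x - algebraMap F A x0}, ψ z = 0) → ψ x = x0 := by
      intro ψ hψ
      obtain h := hψ _ (Ideal.mem_span_singleton_self _)
      rw [map_sub, AlgHom.commutes] at h
      exact sub_eq_zero.mp h
    obtain h := hR F A x hx (Ideal.span {x - algebraMap F A x0}) (fun ψ hψ => by
      obtain ⟨E, hE, hEx⟩ := hun ψ (hm ψ hψ)
      refine ⟨E, hE, _, Ideal.mem_span_singleton_self _, ?_⟩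
      rwa [map_sub, Node.der_alg hE, sub_zero]) (Polynomial.aeval η q) (fun ψ hψ => by
      rw [Node.chi_aeval]; exact hq ψ (hm ψ hψ))
    obtain ⟨u, hu⟩ := Ideal.mem_span_singleton'.mp h
    exact ⟨u, by rw [mul_comm, hu]⟩
  obtain hG0 : ev x η G = 0 := (hG G).mpr dvd_rfl
  refine ⟨?_, hdiv, ?_⟩
  · obtain e1 := (hC F A χ D hD x η G).2
    obtain e2 := (hC F A χ' D' hD' x η G).2
    rw [hG0, map_zero, h1, h2, hx1] at e1
    rw [hG0, map_zero, h1', h2', hx1'] at e2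
    obtain e3 : eval ![x0, y0] (pderiv 1 G) = 0 := by
      obtain e : eval ![x0, y0] (pderiv 1 G) * (D η - D' η) = 0 := by linear_combination e2 - e1
      exact (mul_eq_zero.mp e).resolve_right (sub_ne_zero.mpr hd)
    intro i
    fin_cases i
    · rw [e3] at e1
      simpa using e1.symm
    · exact e3
  intro c y α β γ θ hc hc' hy hdec hθ hcθ
  obtain hfin := (hP F A x hx).2.2.1 x0
  obtain ⟨h, hh0, hh⟩ : ∃ h : F[X], h.eval y0 ≠ 0 ∧
      ∀ ψ : A →ₐ[F] F, ψ x = x0 → ψ η ≠ y0 → h.eval (ψ η) = 0 := by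
    refine ⟨∏ t ∈ (hfin.toFinset.image fun ψ => ψ η).erase y0, (Polynomial.X - Polynomial.C t),
      ?_, fun ψ hψ hψ' => ?_⟩
    · rw [Polynomial.eval_prod, Finset.prod_ne_zero_iff]
      intro t ht
      simpa using sub_ne_zero.mpr (Finset.ne_of_mem_erase ht).symm
    · rw [Polynomial.eval_prod]
      refine Finset.prod_eq_zero (i := ψ η) ?_ (by simp)
      exact Finset.mem_erase.mpr ⟨hψ', Finset.mem_image.mpr ⟨ψ, hfin.mem_toFinset.mpr hψ, rfl⟩⟩
  obtain ⟨u, hu⟩ := hdiv ((Polynomial.X - Polynomial.C y0) * h) (fun ψ hψ => by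
    by_cases e : ψ η = y0
    · simp [e]
    · simp [hh ψ hψ e])
  obtain hval : ∀ (ψ : A →ₐ[F] F) (E : A →ₗ[F] F), IsDer ψ E → ψ x = x0 → ψ η = y0 → E x = 1 →
      ψ u = h.eval y0 * E η := by
    intro ψ E hE a1 a2 a3
    obtain e := congrArg E hu
    rw [hE, Node.der_aeval hE, map_sub, map_sub, Node.der_alg hE, AlgHom.commutes, a1, a2, a3] at e
    simpa using e
  obtain hune : χ u ≠ χ' u := by
    rw [hval χ D hD h1 h2 hx1, hval χ' D' hD' h1' h2' hx1']
    exact fun e => hd (mul_left_cancel₀ hh0 e)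
  obtain ⟨w, hw0, hw⟩ := hL F A x hx η u x0 y0 (fun ψ a1 _ => by
      obtain ⟨E, hE, hEx⟩ := hun ψ a1
      exact ⟨E, hE, Or.inl hEx⟩) (fun z => by
      refine ⟨χ z - (χ z - χ' z) / (χ u - χ' u) * χ u, (χ z - χ' z) / (χ u - χ' u),
        fun ψ a1 a2 => ?_⟩
      obtain hs := sub_ne_zero.mpr hune
      rcases htwo ψ a1 a2 with rfl | rfl
      · ring
      · field_simp
        ring)
  obtain hγ : eval ![x0, y0] γ ≠ 0 := by
    obtain ⟨f, g, hfg⟩ := hw (u ^ 2)
    obtain ⟨Q, hQ⟩ := (hG (w * Polynomial.aeval (X 1) ((Polynomial.X - Polynomial.C y0) * h) ^ 2 -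
        (X 0 - C x0) ^ 2 * f -
        (X 0 - C x0) * g * Polynomial.aeval (X 1) ((Polynomial.X - Polynomial.C y0) * h))).mp (by
      obtain ea : ev x η (X 0 - C x0 : P2 F) = x - algebraMap F A x0 := by simp [ev]
      simp only [map_sub (ev x η) (_ - _ * f), map_sub (ev x η) _ (_ * f), map_mul (ev x η),
        map_pow (ev x η), Node.ev1, ea, ← hu]
      linear_combination (x - algebraMap F A x0) ^ 2 * hfg)
    obtain e := congrArg (ev (Polynomial.C x0) (Polynomial.X : F[X])) hQ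
    obtain ea : ev (Polynomial.C x0) (Polynomial.X : F[X]) (X 0 - C x0 : P2 F) = 0 := by simp [ev]
    obtain eb : ev (Polynomial.C x0) (Polynomial.X : F[X]) (X 1 : P2 F) = Polynomial.X := by simp [ev]
    obtain ec : ∀ r : F[X], Polynomial.aeval (Polynomial.C x0 : F[X]) r = Polynomial.C (r.eval x0) := by
      intro r
      rw [← Polynomial.algebraMap_eq, Polynomial.aeval_algebraMap_apply, Polynomial.coe_aeval_eq_eval]
    rw [hdec] at e
    simp only [map_sub (ev _ _) (_ - _ * f), map_sub (ev _ _) _ (_ * f), map_mul (ev _ _),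
      map_pow (ev _ _), map_add (ev _ _), map_sub (ev _ _) (X 1), Node.ev1, Node.ev0, ea, eb, ec, hc,
      hy, Polynomial.aeval_X_left_apply, map_zero] at e
    obtain e' : (Polynomial.X - Polynomial.C y0) ^ 2 *
        (ev (Polynomial.C x0) (Polynomial.X : F[X]) w * h ^ 2) =
        (Polynomial.X - Polynomial.C y0) ^ 2 * (ev (Polynomial.C x0) (Polynomial.X : F[X]) γ *
          ev (Polynomial.C x0) (Polynomial.X : F[X]) Q) := by linear_combination e
    obtain e'' := congrArg (Polynomial.eval y0)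
      (mul_left_cancel₀ (pow_ne_zero 2 (Polynomial.X_sub_C_ne_zero y0)) e')
    rw [Polynomial.eval_mul, Polynomial.eval_mul, Polynomial.eval_pow, Node.res, Node.res] at e''
    intro z
    rw [z, zero_mul] at e''
    exact mul_ne_zero hw0 (pow_ne_zero 2 hh0) e''
  obtain hth : ∀ (ψ : A →ₐ[F] F) (E : A →ₗ[F] F), IsDer ψ E → ψ x = x0 → ψ η = y0 → E x = 1 →
      ψ θ * c.derivative.eval x0 = -eval ![x0, y0] β * c.derivative.eval x0 -
        eval ![x0, y0] γ * (E η - y.derivative.eval x0) ∧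
      ψ θ ^ 2 + eval ![x0, y0] β * ψ θ + eval ![x0, y0] (α * γ) = 0 := by
    intro ψ E hE a1 a2 a3
    obtain hv : ∀ f : P2 F, ψ (ev x η f) = eval ![x0, y0] f := fun f => by
      rw [(hC F A ψ E hE x η f).1, a1, a2]
    constructor
    · obtain e := congrArg E hcθ
      rw [map_sub, hE, hE, hE, map_sub, map_sub, Node.der_aeval hE, Node.der_aeval hE,
        Node.chi_aeval, Node.chi_aeval, map_neg, hv, hv, a1, a2, a3, hc, hy] at e
      linear_combination e
    · obtain e := congrArg ψ hθ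
      rwa [map_add, map_add, map_pow, map_mul, hv, hv, map_zero] at e
  obtain ⟨e1, r1⟩ := hth χ D hD h1 h2 hx1
  obtain ⟨e2, r2⟩ := hth χ' D' hD' h1' h2' hx1'
  obtain hθne : χ θ ≠ χ' θ := by
    intro e
    rw [e] at e1
    obtain e3 : eval ![x0, y0] γ * (D η - D' η) = 0 := by linear_combination e1 - e2
    exact mul_ne_zero hγ (sub_ne_zero.mpr hd) e3
  obtain hs := sub_ne_zero.mpr hθne
  obtain hb : eval ![x0, y0] β = -(χ θ + χ' θ) :=
    mul_left_cancel₀ hs (by linear_combination r1 - r2)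
  refine ⟨hγ, ?_, hθne, fun t ht => ?_⟩
  · obtain e : eval ![x0, y0] (β ^ 2 - 4 * α * γ) = (χ θ - χ' θ) ^ 2 := by
      rw [map_mul] at r1
      rw [map_sub, map_pow, map_mul, map_mul, map_ofNat]
      rw [hb] at r1 ⊢
      linear_combination -4 * r1
    rw [e]
    exact pow_ne_zero 2 hs
  · obtain e : (t - χ θ) * (t - χ' θ) = 0 := by
      rw [hb] at ht r1
      linear_combination ht - r1
    rcases mul_eq_zero.mp e with e | e
    · exact Or.inl (sub_eq_zero.mp e)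
    · exact Or.inr (sub_eq_zero.mp e)

end Pool.Agent.MP_855f4c_ag.Nd

end

section
open MvPolynomial
open scoped Polynomial

namespace Pool.Agent.MP_855f4c_ag.Nd

namespace Glob18

theorem top_of {F : Type} [Field F] [IsAlgClosed F] (J : Ideal (P2 F))
    (h : ∀ x0 y0 : F, ∃ w ∈ J, eval ![x0, y0] w ≠ 0) : J = ⊤ := by
  by_contra hJ
  obtain ⟨m, hm, hJm⟩ := Ideal.exists_le_maximal J hJ
  obtain ⟨p, rfl⟩ := (MvPolynomial.isMaximal_iff_eq_vanishingIdeal_singleton).1 hm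
  obtain ⟨w, hw, hw0⟩ := h (p 0) (p 1)
  have h1 := hJm hw
  rw [MvPolynomial.mem_vanishingIdeal_singleton_iff] at h1
  apply hw0
  have : (![p 0, p 1] : Fin 2 → F) = p := by
    funext i; fin_cases i <;> rfl
  rw [this]
  simpa [MvPolynomial.aeval_eq_eval] using h1

variable {F : Type} [Field F] {A : Type} [CommRing A] [Algebra F A]

theorem ev_X0 (x η : A) : ev x η (X 0 : P2 F) = x := by simp [ev]

theorem ev_X1 (x η : A) : ev x η (X 1 : P2 F) = η := by simp [ev]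

theorem ev_aeval (x η : A) (c : F[X]) :
    ev x η (Polynomial.aeval (X 0 : P2 F) c) = Polynomial.aeval x c := by
  rw [← Polynomial.aeval_algHom_apply, ev_X0]

theorem split (x η : A) (y : F[X]) (h : P2 F) :
    ∃ (q : P2 F) (c : F[X]), ev x η h = ev x η q * (η - Polynomial.aeval x y) + Polynomial.aeval x c := by
  induction h using MvPolynomial.induction_on with
  | C a => exact ⟨0, Polynomial.C a, by simp [ev]⟩
  | add p q hp hq =>
    obtain ⟨q1, c1, h1⟩ := hp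
    obtain ⟨q2, c2, h2⟩ := hq
    exact ⟨q1 + q2, c1 + c2, by simp only [map_add, h1, h2]; ring⟩
  | mul_X p i hp =>
    obtain ⟨q, c, h⟩ := hp
    fin_cases i
    · refine ⟨q * X 0, c * Polynomial.X, ?_⟩
      show ev x η (p * X 0) = _
      simp only [map_mul, h, ev_X0, Polynomial.aeval_X]; ring
    · refine ⟨q * X 1 + Polynomial.aeval (X 0 : P2 F) c, c * y, ?_⟩
      show ev x η (p * X 1) = _
      simp only [map_mul, map_add, h, ev_X1, ev_aeval]; ring

/-- multipliers of `A` into `O + O u` -/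
def cond (F : Type) [Field F] {A : Type} [CommRing A] [Algebra F A] (x η u : A) : Ideal (P2 F) where
  carrier := {w | ∀ z : A, ∃ f h : P2 F, ev x η w * z = ev x η f + ev x η h * u}
  add_mem' := by
    intro a b ha hb z
    obtain ⟨f, h, e⟩ := ha z
    obtain ⟨f', h', e'⟩ := hb z
    exact ⟨f + f', h + h', by simp only [map_add, add_mul, e, e']; ring⟩
  zero_mem' := fun z => ⟨0, 0, by simp⟩
  smul_mem' := by
    intro c a ha z
    obtain ⟨f, h, e⟩ := ha z
    exact ⟨c * f, c * h, by simp only [smul_eq_mul, map_mul, mul_assoc, e]; ring⟩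

end Glob18

open Glob18 in
theorem glob (hLOC : LOC_s) : GLOB_s := by
  intro F A _ _ _ _ _ x hx η θ y himm hf0 hn z
  obtain ⟨f0, hf0⟩ := hf0
  have hJ : cond F x η θ = ⊤ := by
    apply top_of
    intro x0 y0
    obtain ⟨w, hw0, hw⟩ := hLOC F A x hx η θ x0 y0 (fun χ _ _ => himm χ) (by
      intro z
      by_cases h2 : ∃ χ χ' : A →ₐ[F] F, χ ≠ χ' ∧ χ x = x0 ∧ χ η = y0 ∧ χ' x = x0 ∧ χ' η = y0
      · obtain ⟨χ, χ', hne, a1, a2, b1, b2⟩ := h2
        obtain ⟨h3, h4⟩ := hn χ χ' hne (a1.trans b1.symm) (a2.trans b2.symm)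
        have h5 : χ θ - χ' θ ≠ 0 := sub_ne_zero.2 h4
        refine ⟨χ z - (χ z - χ' z) / (χ θ - χ' θ) * χ θ, (χ z - χ' z) / (χ θ - χ' θ), ?_⟩
        intro ψ c1 c2
        rcases h3 ψ (c1.trans a1.symm) (c2.trans a2.symm) with rfl | rfl
        · ring
        · field_simp
          ring
      · by_cases h1 : ∃ χ : A →ₐ[F] F, χ x = x0 ∧ χ η = y0
        · obtain ⟨χ, a1, a2⟩ := h1
          refine ⟨χ z, 0, fun ψ c1 c2 => ?_⟩
          have : ψ = χ := by
            by_contra hne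
            exact h2 ⟨ψ, χ, hne, c1, c2, a1, a2⟩
          simp [this]
        · exact ⟨0, 0, fun ψ c1 c2 => (h1 ⟨ψ, c1, c2⟩).elim⟩)
    exact ⟨w, hw, hw0⟩
  have h1 : (1 : P2 F) ∈ cond F x η θ := hJ ▸ Submodule.mem_top
  obtain ⟨f, h, e⟩ := h1 z
  obtain ⟨q, c, hq⟩ := split x η y h
  refine ⟨f + q * f0, c, ?_⟩
  rw [map_one, one_mul] at e
  rw [e, hq, map_add, map_mul, ← hf0]; ring

open Glob18 in
theorem inf (hLOC : LOC_s) : INF_s := by
  intro F A _ _ _ _ _ x hx η himm hinj z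
  have hJ : cond F x η 0 ⊔ Ideal.span {X 0} = ⊤ := by
    apply top_of
    intro x0 y0
    by_cases h0 : x0 = 0
    · subst h0
      obtain ⟨w, hw0, hw⟩ := hLOC F A x hx η 0 0 y0 (fun χ a _ => himm χ a) (by
        intro z
        by_cases h1 : ∃ χ : A →ₐ[F] F, χ x = 0 ∧ χ η = y0
        · obtain ⟨χ, a1, a2⟩ := h1
          refine ⟨χ z, 0, fun ψ c1 c2 => ?_⟩
          simp [hinj ψ χ c1 a1 (c2.trans a2.symm)]
        · exact ⟨0, 0, fun ψ c1 c2 => (h1 ⟨ψ, c1, c2⟩).elim⟩)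
      exact ⟨w, Ideal.mem_sup_left hw, hw0⟩
    · exact ⟨X 0, Ideal.mem_sup_right (Ideal.mem_span_singleton_self _), by simpa using h0⟩
  have h1 : (1 : P2 F) ∈ cond F x η 0 ⊔ Ideal.span {X 0} := hJ ▸ Submodule.mem_top
  obtain ⟨w, hw, v, hv, hwv⟩ := Submodule.mem_sup.1 h1
  obtain ⟨v', rfl⟩ := Ideal.mem_span_singleton'.1 hv
  let _ : Algebra F[X] A := (Polynomial.aeval x : F[X] →ₐ[F] A).toRingHom.toAlgebra
  have hs : ∀ (c : F[X]) (a : A), c • a = Polynomial.aeval x c * a := fun _ _ => rfl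
  let N : Submodule F[X] A :=
    { carrier := {a | ∃ f : P2 F, a = ev x η f}
      add_mem' := by
        rintro a b ⟨f, rfl⟩ ⟨g, rfl⟩
        exact ⟨f + g, by simp⟩
      zero_mem' := ⟨0, by simp⟩
      smul_mem' := by
        rintro c a ⟨f, rfl⟩
        exact ⟨Polynomial.aeval (X 0 : P2 F) c * f, by rw [hs, map_mul, ev_aeval]⟩ }
  obtain ⟨n, σ, hσ⟩ := hx.fin
  have hfg : (⊤ : Submodule F[X] A).FG := by
    refine ⟨(Set.finite_range σ).toFinset, ?_⟩
    rw [Set.Finite.coe_toFinset, eq_top_iff]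
    intro a _
    obtain ⟨c, rfl⟩ := hσ a
    refine Submodule.sum_mem _ fun l _ => ?_
    rw [← hs]
    exact Submodule.smul_mem _ _ (Submodule.subset_span ⟨l, rfl⟩)
  have hle : (⊤ : Submodule F[X] A) ≤ N ⊔ (Ideal.span {(Polynomial.X : F[X])}) • (⊤ : Submodule F[X] A) := by
    intro a _
    obtain ⟨f, h, e⟩ := hw a
    have e1 : a = ev x η f + (Polynomial.X : F[X]) • (ev x η v' * a) := by
      have e2 : ev x η w + ev x η v' * x = 1 := by
        have := congrArg (ev x η) hwv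
        rwa [map_add, map_mul, ev_X0, map_one] at this
      rw [hs, Polynomial.aeval_X]
      rw [mul_zero, add_zero] at e
      rw [← e]
      linear_combination (-a) * e2
    rw [e1]
    exact Submodule.add_mem_sup ⟨f, rfl⟩
      (Submodule.smul_mem_smul (Ideal.mem_span_singleton_self _) Submodule.mem_top)
  obtain ⟨r, hr1, hr⟩ := Submodule.exists_sub_one_mem_and_smul_le_of_fg_of_le_sup hfg le_rfl hle
  obtain ⟨f, hf⟩ : r • z ∈ N := hr (Submodule.smul_mem_pointwise_smul z r ⊤ Submodule.mem_top)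
  refine ⟨r, f, ?_, by rw [← hs]; exact hf⟩
  obtain ⟨t, ht⟩ := Ideal.mem_span_singleton'.1 hr1
  have : r = t * Polynomial.X + 1 := by rw [ht]; ring
  rw [this]; simp

end Pool.Agent.MP_855f4c_ag.Nd

end

section
/-! h92c section N: one generator per node. -/


open MvPolynomial
open scoped Polynomial

namespace Pool.Agent.MP_855f4c_ag.Nd

theorem n6' (hG : GLOB_s) (F A : Type) [Field F] [IsAlgClosed F] [CommRing A] [IsDedekindDomain A]
    [Algebra F A] (x : A) (hx : Crv F x) (η : A) (δ : ℕ) (xs ys : Fin δ → F)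
    (inj : Function.Injective xs) (himm : ∀ χ : A →ₐ[F] F, Imm χ x η) (θ : Fin δ → A)
    (ha : ∀ j, ∃ f : P2 F, (x - algebraMap F A (xs j)) * θ j = ev x η f)
    (hb : ∀ j, ∃ f : P2 F, (η - algebraMap F A (ys j)) * θ j = ev x η f)
    (hp : ∀ χ χ' : A →ₐ[F] F, χ ≠ χ' → χ x = χ' x → χ η = χ' η →
      (∀ ψ : A →ₐ[F] F, ψ x = χ x → ψ η = χ η → ψ = χ ∨ ψ = χ') ∧
        ∃ j, χ x = xs j ∧ χ (θ j) ≠ χ' (θ j)) (z : A) :
    ∃ (f : P2 F) (lam : Fin δ → F), z = ev x η f + ∑ j, lam j • θ j := by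
  classical
  obtain hO : ∀ p : F[X], Polynomial.aeval x p ∈ (ev x η).range := fun p =>
    ⟨Polynomial.aeval (X 0 : P2 F) p, by
      change ev x η _ = _
      rw [← Polynomial.aeval_algHom_apply]; simp [ev]⟩
  obtain hred : ∀ (p : F[X]) (j : Fin δ),
      Polynomial.aeval x p * θ j - p.eval (xs j) • θ j ∈ (ev x η).range := by
    intro p j
    obtain ⟨r, hr⟩ := Polynomial.X_sub_C_dvd_sub_C_eval (a := xs j) (p := p)
    obtain ⟨f, hf⟩ := ha j
    obtain e := congrArg (Polynomial.aeval x) hr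
    simp only [map_sub, map_mul, Polynomial.aeval_X, Polynomial.aeval_C] at e
    obtain e' : Polynomial.aeval x p * θ j - p.eval (xs j) • θ j =
        Polynomial.aeval x r * ev x η f := by
      rw [Algebra.smul_def, ← hf]
      linear_combination θ j * e
    rw [e']
    exact mul_mem (hO r) ⟨f, rfl⟩
  obtain hi : Set.InjOn xs (Finset.univ : Finset (Fin δ)) := inj.injOn
  obtain ⟨f, c, hz⟩ := hG F A x hx η
    (∑ j, Polynomial.aeval x (Lagrange.basis Finset.univ xs j) * θ j)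
    (Lagrange.interpolate Finset.univ xs ys) himm (by
      obtain h : (η - Polynomial.aeval x (Lagrange.interpolate Finset.univ xs ys)) *
          ∑ j, Polynomial.aeval x (Lagrange.basis Finset.univ xs j) * θ j ∈ (ev x η).range := by
        rw [Finset.mul_sum]
        refine sum_mem fun j _ => ?_
        obtain h1 := hred (Lagrange.interpolate Finset.univ xs ys) j
        rw [Lagrange.eval_interpolate_at_node ys hi (Finset.mem_univ j)] at h1
        obtain ⟨f, hf⟩ := hb j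
        obtain h2 := mul_mem (hO (Lagrange.basis Finset.univ xs j))
          (sub_mem (show ev x η f ∈ (ev x η).range from ⟨f, rfl⟩) h1)
        rw [← hf, Algebra.smul_def] at h2
        obtain e : ∀ a b c d t : A, (a - b) * (c * t) = c * ((a - d) * t - (b * t - d * t)) :=
          fun a b c d t => by ring
        rw [e _ _ _ (algebraMap F A (ys j))]
        exact h2
      obtain ⟨f, hf⟩ := h
      exact ⟨f, hf.symm⟩) (fun χ χ' h1 h2 h3 => by
      obtain ⟨h4, j, h5, h6⟩ := hp χ χ' h1 h2 h3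
      obtain hv : ∀ ψ : A →ₐ[F] F, ψ x = xs j →
          ψ (∑ i, Polynomial.aeval x (Lagrange.basis Finset.univ xs i) * θ i) = ψ (θ j) := by
        intro ψ hψ
        rw [map_sum, Finset.sum_eq_single j]
        · rw [map_mul, ← Polynomial.aeval_algHom_apply, Polynomial.coe_aeval_eq_eval, hψ,
            Lagrange.eval_basis_self hi (Finset.mem_univ j), one_mul]
        · intro i _ hij
          rw [map_mul, ← Polynomial.aeval_algHom_apply, Polynomial.coe_aeval_eq_eval, hψ,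
            Lagrange.eval_basis_of_ne hij (Finset.mem_univ j), zero_mul]
        · exact fun h => (h (Finset.mem_univ j)).elim
      refine ⟨h4, ?_⟩
      rwa [hv χ h5, hv χ' (h2 ▸ h5)]) z
  obtain ⟨g, hg⟩ : ∑ j, (Polynomial.aeval x (c * Lagrange.basis Finset.univ xs j) * θ j -
      (c * Lagrange.basis Finset.univ xs j).eval (xs j) • θ j) ∈ (ev x η).range :=
    sum_mem fun j _ => hred _ j
  refine ⟨f + g, fun j => (c * Lagrange.basis Finset.univ xs j).eval (xs j), ?_⟩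
  change ev x η g = _ at hg
  rw [map_add, hg, Finset.sum_sub_distrib, hz, Finset.mul_sum]
  simp only [map_mul, mul_assoc]
  ring

theorem n6 (hG : GLOB_s) : N6_s := fun F A _ _ _ _ _ x hx η δ xs ys θ inj himm hab hp z =>
  n6' hG F A x hx η δ xs ys inj himm θ (fun j => (hab j).1) (fun j => (hab j).2) hp z

end Pool.Agent.MP_855f4c_ag.Nd

end

section
open MvPolynomial
open scoped Polynomial

namespace Pool.Agent.MP_855f4c_ag.Nd

theorem td : TD_s := by
  intro F _ F0 ι _ c v w x0 hc halg hv hw i j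
  by_contra hne
  classical
  have hij : i ≠ j := by
    rintro rfl
    exact hne rfl
  let g : ι → F := fun m => if m = i then x0 else c m
  let S : Set F := g '' {j}ᶜ
  let T := Subalgebra.algebraicClosure (Algebra.adjoin F0 S) F
  have hS : ∀ z ∈ S, z ∈ T := fun z hz => (Subalgebra.mem_algebraicClosure _ _).2
    (isAlgebraic_algebraMap (⟨z, Algebra.subset_adjoin hz⟩ : Algebra.adjoin F0 S))
  have hx0 : x0 ∈ S := ⟨i, hij, if_pos rfl⟩
  have hle : Algebra.adjoin F0 {x0} ≤ Algebra.adjoin F0 S :=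
    Algebra.adjoin_mono (Set.singleton_subset_iff.2 hx0)
  have hvT : ∀ m, v m ∈ T := fun m => (Subalgebra.mem_algebraicClosure _ _).2
    ((halg m).1.tower_top_of_subalgebra_le hle)
  have hwT : ∀ m, w m ∈ T := fun m => (Subalgebra.mem_algebraicClosure _ _).2
    ((halg m).2.tower_top_of_subalgebra_le hle)
  have hcT : ∀ m, m ≠ i → m ≠ j → c m ∈ T := fun m h1 h2 => hS _ ⟨m, h2, if_neg h1⟩
  have key : ∀ a b : ι, (∀ m, m ≠ a → m ≠ b → c m ∈ T) → v a * w b ≠ v b * w a → c a ∈ T := by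
    intro a b hm hab
    have h0 : ∑ m, c m * (v m * w b - v b * w m) = 0 := by
      have : ∑ m, c m * (v m * w b - v b * w m) = (∑ m, c m * v m) * w b - v b * ∑ m, c m * w m := by
        rw [Finset.sum_mul, Finset.mul_sum, ← Finset.sum_sub_distrib]
        exact Finset.sum_congr rfl fun m _ => by ring
      rw [this, hv, hw]; ring
    rw [← Finset.add_sum_erase _ _ (Finset.mem_univ a)] at h0
    have h1 : (v a * w b - v b * w a) * c a ∈ T := by
      have : (v a * w b - v b * w a) * c a =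
          -∑ m ∈ Finset.univ.erase a, c m * (v m * w b - v b * w m) := by
        linear_combination h0
      rw [this]
      refine neg_mem (sum_mem fun m hm' => ?_)
      by_cases hb : m = b
      · rw [hb, sub_self, mul_zero]; exact zero_mem _
      · exact mul_mem (hm m (Finset.ne_of_mem_erase hm') hb)
          (sub_mem (mul_mem (hvT _) (hwT _)) (mul_mem (hvT _) (hwT _)))
    exact (Subalgebra.mem_algebraicClosure _ _).2 (IsAlgebraic.of_mul
      (mem_nonZeroDivisors_of_ne_zero (sub_ne_zero.2 hab))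
      ((Subalgebra.mem_algebraicClosure _ _).1
        (sub_mem (mul_mem (hvT _) (hwT _)) (mul_mem (hvT _) (hwT _))))
      ((Subalgebra.mem_algebraicClosure _ _).1 h1))
  let M := AlgebraicIndependent.matroid F0 F
  have h1 : M.Indep (Set.range c) := hc.to_subtype_range
  have h2 : Set.range c ⊆ M.closure S := by
    rintro _ ⟨m, rfl⟩
    rw [AlgebraicIndependent.matroid_closure_eq]
    change c m ∈ T
    by_cases ha : m = i
    · rw [ha]; exact key i j hcT hne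
    by_cases hb : m = j
    · rw [hb]; exact key j i (fun m h1 h2 => hcT m h2 h1) (fun h => hne h.symm)
    exact hcT m ha hb
  have h3 : (Set.range c).encard ≤ ({j}ᶜ : Set ι).encard :=
    h1.eRk_eq_encard.symm.trans_le ((M.eRk_mono h2).trans ((M.eRk_closure_eq _).trans_le
      ((M.eRk_le_encard _).trans (Set.encard_image_le _ _))))
  rw [← Set.image_univ, hc.injective.encard_image] at h3
  exact absurd h3 (not_le.2 ((Set.toFinite _).encard_lt_encard
    ⟨Set.subset_univ _, fun hh => hh (Set.mem_univ j) rfl⟩))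

end Pool.Agent.MP_855f4c_ag.Nd

end

section
open MvPolynomial
open scoped Polynomial

namespace Pool.Agent.MP_855f4c_ag.Nd

namespace Gb

variable {F : Type} [Field F] {A : Type} [CommRing A] [Algebra F A]

lemma lin {F0 : Subfield F} {ι : Type} [Fintype ι] {c : ι → F} (hc : AlgebraicIndependent F0 c)
    (v : ι → F) (hv : ∀ m, v m ∈ F0) (h : ∑ m, c m * v m = 0) (m : ι) : v m = 0 := by
  have h1 := Fintype.linearIndependent_iff.1 hc.linearIndependent (fun m => ⟨v m, hv m⟩) (by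
    rw [← h]
    exact Finset.sum_congr rfl fun m _ => mul_comm _ _) m
  exact congrArg Subtype.val h1

lemma der_one {χ : A →ₐ[F] F} {D : A →ₗ[F] F} (h : IsDer χ D) : D 1 = 0 := by
  have := h 1 1
  rw [mul_one, map_one χ, one_mul] at this
  linear_combination -this

lemma der_aeval {χ : A →ₐ[F] F} {D : A →ₗ[F] F} (h : IsDer χ D) (x : A) (q : F[X]) :
    D (Polynomial.aeval x q) = q.derivative.eval (χ x) * D x := by
  induction q using Polynomial.induction_on with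
  | C a => rw [Polynomial.aeval_C, Algebra.algebraMap_eq_smul_one, map_smul, der_one h]; simp
  | add p q hp hq => rw [map_add, map_add, hp, hq]; simp [add_mul]
  | monomial n a ih =>
    rw [pow_succ, ← mul_assoc]
    generalize Polynomial.C a * Polynomial.X ^ n = r at ih ⊢
    rw [map_mul, h, ih, Polynomial.derivative_mul, Polynomial.aeval_X,
      ← Polynomial.aeval_algHom_apply]
    simp only [Polynomial.coe_aeval_eq_eval, Polynomial.derivative_X, mul_one, Polynomial.eval_add,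
      Polynomial.eval_mul, Polynomial.eval_X]
    ring

lemma chi_aeval (χ : A →ₐ[F] F) (x : A) (q : F[X]) : χ (Polynomial.aeval x q) = q.eval (χ x) := by
  rw [← Polynomial.aeval_algHom_apply, Polynomial.coe_aeval_eq_eval]

lemma der_zero {χ : A →ₐ[F] F} {D : A →ₗ[F] F} (h : IsDer χ D) {x : A} {n : ℕ} {σ : Fin n → A}
    (hσ : Spans F x σ) (hx : D x = 0) (hs : ∀ l, D (σ l) = 0) : D = 0 := by
  ext z
  obtain ⟨c, rfl⟩ := hσ z
  rw [map_sum]
  exact Finset.sum_eq_zero fun l _ => by rw [h, hs, der_aeval h, hx]; ring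

lemma chi_span (χ : A →ₐ[F] F) {x : A} {n : ℕ} (σ : Fin n → A) (c : Fin n → F[X]) :
    χ (∑ l, Polynomial.aeval x (c l) * σ l) = ∑ l, (c l).eval (χ x) * χ (σ l) := by
  rw [map_sum]
  exact Finset.sum_congr rfl fun l _ => by rw [map_mul, chi_aeval]

lemma chi_ext {χ χ' : A →ₐ[F] F} {x : A} {n : ℕ} {σ : Fin n → A}
    (hσ : Spans F x σ) (hx : χ x = χ' x) (hs : ∀ l, χ (σ l) = χ' (σ l)) : χ = χ' := by
  ext z
  obtain ⟨c, rfl⟩ := hσ z
  rw [chi_span, chi_span, hx]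
  exact Finset.sum_congr rfl fun l _ => by rw [hs]

lemma chi_sum (χ : A →ₐ[F] F) {ι : Type} [Fintype ι] (c : ι → F) (τ : ι → A) :
    χ (∑ m, c m • τ m) = ∑ m, c m * χ (τ m) := by
  rw [map_sum]
  exact Finset.sum_congr rfl fun l _ => by rw [map_smul, smul_eq_mul]

lemma der_sum (D : A →ₗ[F] F) {ι : Type} [Fintype ι] (c : ι → F) (τ : ι → A) :
    D (∑ m, c m • τ m) = ∑ m, c m * D (τ m) := by
  rw [map_sum]
  exact Finset.sum_congr rfl fun l _ => by rw [map_smul, smul_eq_mul]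

end Gb

open Gb

theorem gb (hPT : PT_s) : GB_s := by
  intro F A _ _ _ _ _ x hx n σ hσ ι _ τ hτ x0
  obtain ⟨-, hD, hfin, -⟩ := hPT F A x hx
  choose D hD hD0 using hD
  refine ⟨⋃ χ ∈ {χ : A →ₐ[F] F | χ x = x0},
    (Set.range fun m => χ (τ m)) ∪ Set.range fun m => D χ (τ m),
    (hfin x0).biUnion fun χ _ => (Set.finite_range _).union (Set.finite_range _), ?_⟩
  intro F0 c hS hc
  have h1 : ∀ χ : A →ₐ[F] F, χ x = x0 → ∀ m, χ (τ m) ∈ F0 := fun χ h m =>
    hS (Set.mem_biUnion (show χ ∈ {χ : A →ₐ[F] F | χ x = x0} from h) (Or.inl ⟨m, rfl⟩))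
  have h2 : ∀ χ : A →ₐ[F] F, χ x = x0 → ∀ m, D χ (τ m) ∈ F0 := fun χ h m =>
    hS (Set.mem_biUnion (show χ ∈ {χ : A →ₐ[F] F | χ x = x0} from h) (Or.inr ⟨m, rfl⟩))
  refine ⟨fun χ h => ⟨⟨D χ, hD χ, ?_⟩, fun h0 => ?_⟩, fun χ χ' h h' he => ?_⟩
  · by_contra hn
    rw [not_or, not_not, not_not, der_sum] at hn
    refine hD0 χ (der_zero (hD χ) hσ hn.1 fun l => ?_)
    obtain ⟨m, hm⟩ := hτ l
    rw [← hm]
    exact lin hc _ (h2 χ h) hn.2 m
  · rw [chi_sum] at h0
    obtain ⟨e, he⟩ := hσ 1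
    have := chi_span χ (x := x) σ e
    rw [← he, map_one] at this
    refine one_ne_zero (this.trans (Finset.sum_eq_zero fun l _ => ?_))
    obtain ⟨m, hm⟩ := hτ l
    rw [← hm, lin hc _ (h1 χ h) h0 m, mul_zero]
  · refine chi_ext hσ (h.trans h'.symm) fun l => ?_
    obtain ⟨m, hm⟩ := hτ l
    rw [← hm, ← sub_eq_zero]
    refine lin hc (fun m => χ (τ m) - χ' (τ m)) (fun m => sub_mem (h1 χ h m) (h1 χ' h' m)) ?_ m
    rw [chi_sum, chi_sum, ← sub_eq_zero, ← Finset.sum_sub_distrib] at he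
    rw [← he]
    exact Finset.sum_congr rfl fun m _ => mul_sub _ _ _

end Pool.Agent.MP_855f4c_ag.Nd

end

section
open MvPolynomial
open scoped Polynomial

namespace Pool.Agent.MP_855f4c_ag.Nd

namespace Ga

variable {F : Type} [Field F]

theorem alg {F0 : Subfield F} (R : Subalgebra F0 F) (a : R) (g : MvPolynomial (Fin 2) F0) (y : F)
    (h0 : aeval ![a.1, y] g = 0) (h1 : aeval ![a.1, y] (pderiv 1 g) ≠ 0) : IsAlgebraic R y := by
  let φ : MvPolynomial (Fin 2) F0 →ₐ[F0] R[X] := aeval ![Polynomial.C a, Polynomial.X]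
  have e : ∀ f, Polynomial.aeval y (φ f) = aeval ![a.1, y] f := fun f => by
    have : ((Polynomial.aeval y).restrictScalars F0).comp φ = aeval ![a.1, y] := by
      ext i; fin_cases i <;> simp [φ]
    exact DFunLike.congr_fun this f
  have d : ∀ f, Polynomial.derivative (φ f) = φ (pderiv 1 f) := fun f => by
    induction f using MvPolynomial.induction_on with
    | C r => simp [φ, Polynomial.algebraMap_apply]
    | add p q hp hq => simp [hp, hq]
    | mul_X p i hp =>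
      rw [map_mul, Polynomial.derivative_mul, hp, Derivation.leibniz]
      fin_cases i <;> simp [φ, mul_comm, add_comm]
  refine ⟨φ g, fun h => h1 ?_, by rw [e, h0]⟩
  rw [← e, ← d, h]; simp

theorem mem {F0 : Subfield F} (R : Subalgebra F0 F) (a : R) (g : MvPolynomial (Fin 2) F0) (y : F)
    (h : IsAlgebraic R y) : IsAlgebraic R (aeval ![a.1, y] g) := by
  induction g using MvPolynomial.induction_on with
  | C r =>
    rw [aeval_C, IsScalarTower.algebraMap_apply F0 R F]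
    exact isAlgebraic_algebraMap _
  | add p q hp hq => rw [map_add]; exact hp.add hq
  | mul_X p i hp =>
    rw [map_mul, aeval_X]
    refine hp.mul ?_
    fin_cases i
    exacts [isAlgebraic_algebraMap a, h]

variable {A : Type} [CommRing A] [Algebra F A]

theorem der {χ : A →ₐ[F] F} {D : A →ₗ[F] F} (h : IsDer χ D) {x : A} (hx : D x = 0) (c : F[X]) :
    D (Polynomial.aeval x c) = 0 := by
  have h1 : D 1 = 0 := by simpa using h 1 1
  have h2 : ∀ n : ℕ, D (x ^ n) = 0 := fun n => by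
    induction n with
    | zero => simpa using h1
    | succ n ih => rw [pow_succ, h, ih, hx]; simp
  induction c using Polynomial.induction_on' with
  | add p q hp hq => simp [hp, hq]
  | monomial n a => rw [Polynomial.aeval_monomial, ← Algebra.smul_def, map_smul, h2, smul_zero]

theorem sep {χ ψ : A →ₐ[F] F} (h : ψ ≠ χ) : ∃ u, χ u = 0 ∧ ψ u ≠ 0 := by
  obtain ⟨z, hz⟩ := DFunLike.ne_iff.1 h
  exact ⟨z - algebraMap F A (χ z), by simp, by simpa [sub_eq_zero] using hz⟩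

theorem dif {x : A} {n : ℕ} {σ : Fin n → A} (hσ : Spans F x σ) {χ ψ : A →ₐ[F] F} (h : ψ x = χ x)
    (z : A) : ∃ c : Fin n → F[X], z = ∑ l, Polynomial.aeval x (c l) * σ l ∧
      χ z - ψ z = ∑ l, (c l).eval (χ x) * (χ (σ l) - ψ (σ l)) := by
  obtain ⟨c, rfl⟩ := hσ z
  refine ⟨c, rfl, ?_⟩
  simp only [map_sum, map_mul, ← Polynomial.aeval_algHom_apply, h, ← Finset.sum_sub_distrib,
    Polynomial.coe_aeval_eq_eval, mul_sub]

end Ga

theorem ga (hC : CHN_s) (hP : PT_s) (hT : TD_s) : GA_s := by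
  intro F A _ _ _ _ _ x hx hs n σ hσ ι _ τ hτ
  classical
  choose g h0 V d hd hV using fun m => hs (τ m)
  refine ⟨⋃ m, ((g m).coeffs : Set F), ⋃ m, (d m).rootSet F, Set.finite_iUnion fun m =>
    Finset.finite_toSet _, Set.finite_iUnion fun m => Polynomial.rootSet_finite _ _,
    fun F0 c hS hc χ hχ => ?_⟩
  have hg : ∀ m, ∃ g' : MvPolynomial (Fin 2) F0, map (algebraMap F0 F) g' = g m := fun m =>
    mem_range_map_iff_coeffs_subset.2 fun z hz => ⟨⟨z, hS (Set.mem_iUnion.2 ⟨m, hz⟩)⟩, rfl⟩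
  choose g' hg' using hg
  have ee : ∀ (f : MvPolynomial (Fin 2) F0) (v : Fin 2 → F),
      eval v (map (algebraMap F0 F) f) = aeval v f := fun f v => by rw [eval_map, aeval_def]
  have ev0 : ∀ (ψ : A →ₐ[F] F) (z : A) (f : P2 F), ψ (ev x z f) = eval ![ψ x, ψ z] f :=
    fun ψ z f => (hC F A ψ 0 (fun _ _ => by simp) x z f).1
  let R : Subalgebra F0 F := Algebra.adjoin F0 {χ x}
  let a : R := ⟨χ x, Algebra.self_mem_adjoin_singleton _ _⟩
  have k1 : ∀ ψ : A →ₐ[F] F, ψ x = χ x → ∀ m, aeval ![a.1, ψ (τ m)] (pderiv 1 (g' m)) ≠ 0 := by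
    intro ψ h m h1
    have h2 := congrArg ψ (hV m)
    rw [ev0, map_mul, ← hg', pderiv_map, ee, h, h1, mul_zero, ← Polynomial.aeval_algHom_apply,
      h] at h2
    exact hχ (Set.mem_iUnion.2 ⟨m, Polynomial.mem_rootSet.2 ⟨hd m, h2.symm⟩⟩)
  have k2 : ∀ ψ : A →ₐ[F] F, ψ x = χ x → ∀ m, IsAlgebraic R (ψ (τ m)) := by
    intro ψ h m
    refine Ga.alg R a (g' m) _ ?_ (k1 ψ h m)
    have h2 := congrArg ψ (h0 m)
    rwa [ev0, ← hg', ee, h, map_zero] at h2
  have k3 : ∀ ψ : A →ₐ[F] F, ψ x = χ x → ∀ D, IsDer ψ D → ∀ m, D (τ m) =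
      -aeval ![a.1, ψ (τ m)] (pderiv 0 (g' m)) * (aeval ![a.1, ψ (τ m)] (pderiv 1 (g' m)))⁻¹ *
        D x := by
    intro ψ h D hD m
    have h2 := (hC F A ψ D hD x (τ m) (g m)).2
    rw [h0, map_zero, ← hg', pderiv_map, pderiv_map, ee, ee, h] at h2
    have h3 := k1 ψ h m
    field_simp
    linear_combination -h2
  have k4 : ∀ ψ : A →ₐ[F] F, ψ x = χ x → ∀ D, IsDer ψ D → D x = 1 → ∀ m,
      IsAlgebraic R (D (τ m)) := by
    intro ψ h D hD h1 m
    rw [k3 ψ h D hD, h1, mul_one]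
    exact (Ga.mem R a _ _ (k2 ψ h m)).neg.mul (Ga.mem R a _ _ (k2 ψ h m)).inv
  have k5 : ∀ ψ ψ' : A →ₐ[F] F, ψ (∑ m, c m • τ m) = ψ' (∑ m, c m • τ m) →
      ∑ m, c m * (ψ (τ m) - ψ' (τ m)) = 0 := fun ψ ψ' h => by
    simpa [mul_sub, sub_eq_zero] using h
  refine ⟨?_, fun χ' hne h he => ?_⟩
  · obtain ⟨D, hD, hD0⟩ := (hP F A x hx).2.1 χ
    have h1 : D x ≠ 0 := fun h1 => hD0 (LinearMap.ext fun z => by
      obtain ⟨b, rfl⟩ := hσ z
      rw [map_sum, LinearMap.zero_apply]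
      refine Finset.sum_eq_zero fun l _ => ?_
      obtain ⟨m, hm⟩ := (hτ l).1
      rw [hD, Ga.der hD h1, ← hm, k3 χ rfl D hD, h1]; simp)
    refine ⟨(D x)⁻¹ • D, fun z w => ?_, by simp [h1]⟩
    simp only [LinearMap.smul_apply, hD z w, smul_eq_mul]; ring
  obtain ⟨l, hl⟩ : ∃ l, χ (σ l) - χ' (σ l) ≠ 0 := by
    by_contra hn
    push Not at hn
    refine hne (AlgHom.ext fun z => sub_eq_zero.1 ?_)
    obtain ⟨b, -, hb⟩ := Ga.dif hσ h z
    rw [hb]; simp [hn]
  obtain ⟨⟨i, hi⟩, j, hj⟩ := hτ l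
  refine ⟨fun D D' hD hD' h1 h1' hh => hl ?_, fun ψ ψ' hψ h1 h1' hh => ?_⟩
  · have := hT F F0 ι c (fun m => χ (τ m) - χ' (τ m)) (fun m => D (τ m) - D' (τ m)) (χ x) hc
      (fun m => ⟨(k2 χ rfl m).sub (k2 χ' h m), (k4 χ rfl D hD h1 m).sub (k4 χ' h D' hD' h1' m)⟩)
      (k5 _ _ he.symm) (by simpa [mul_sub, sub_eq_zero] using hh) i j
    simp only [hi, hj, map_mul, hD x, hD' x, h, h1, h1'] at this
    exact pow_eq_zero_iff two_ne_zero |>.1 (by linear_combination this)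
  · have h2 := hT F F0 ι c (fun m => χ (τ m) - χ' (τ m)) (fun m => ψ (τ m) - ψ' (τ m)) (χ x) hc
      (fun m => ⟨(k2 χ rfl m).sub (k2 χ' h m), (k2 ψ h1 m).sub (k2 ψ' h1' m)⟩)
      (k5 _ _ he.symm) (k5 _ _ hh) i
    by_contra hn
    push Not at hn
    obtain ⟨u1, a1, b1⟩ := Ga.sep hψ
    obtain ⟨u2, a2, b2⟩ := Ga.sep hn.1
    obtain ⟨u3, a3, b3⟩ := Ga.sep hn.2
    obtain ⟨b, hb⟩ := hσ (u1 * u2 * u3)
    have h3 : (χ (σ l) - χ' (σ l)) * (ψ (u1 * u2 * u3) - ψ' (u1 * u2 * u3)) =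
        (χ (u1 * u2 * u3) - χ' (u1 * u2 * u3)) * (ψ (σ l) - ψ' (σ l)) := by
      rw [hb]
      simp only [map_sum, map_mul, ← Polynomial.aeval_algHom_apply, h, h1, h1',
        ← Finset.sum_sub_distrib, Finset.mul_sum, Finset.sum_mul]
      refine Finset.sum_congr rfl fun l' _ => ?_
      obtain ⟨m, hm⟩ := (hτ l').1
      have h4 := h2 m
      simp only [hi, hm] at h4
      linear_combination (Polynomial.aeval (χ x) (b l')) * h4
    simp [a1, a2, a3, b1, b2, b3, hl] at h3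

end Pool.Agent.MP_855f4c_ag.Nd

end

section
namespace Pool.Agent.MP_855f4c_ag.Nd

theorem gen_of_countable {F : Type} [Field F] [Uncountable F] (E : Subfield F) [Countable E]
    (I : Type) [hI : Finite I] : ∃ y : I → F, AlgebraicIndependent E y := by
  induction I using Finite.induction_empty_option with
  | of_equiv e ih => exact ⟨_, ih.choose_spec.comp _ e.symm.injective⟩
  | h_empty => exact ⟨fun i => i.elim, algebraicIndependent_empty_type⟩
  | @h_option α _ ih =>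
    obtain ⟨y, h⟩ := ih
    have hc : Countable (Algebra.adjoin E (Set.range y)) := by
      rw [Algebra.adjoin_range_eq_range_aeval]
      have : Countable (MvPolynomial α E) := AddMonoidAlgebra.coeff_injective.countable
      exact (Set.countable_range _).to_subtype
    obtain ⟨a, ha⟩ : ∃ a : F, Transcendental (Algebra.adjoin E (Set.range y)) a := by
      by_contra hn
      exact Set.not_countable_univ ((Algebraic.countable (Algebra.adjoin E (Set.range y)) F).mono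
        fun a _ => not_not.1 fun h => hn ⟨a, h⟩)
    exact ⟨fun o => o.elim a y, AlgebraicIndependent.option_iff.2 ⟨h, ha⟩⟩

theorem gen (F : Type) [Field F] [Uncountable F] : Gen F := by
  intro S hS ι _
  have : Countable (Subfield.closure S) := Cardinal.mk_le_aleph0_iff.1
    ((Subfield.cardinalMk_closure_le_max S).trans
      (max_le (Cardinal.lt_aleph0_iff_set_finite.2 hS).le le_rfl))
  exact gen_of_countable _ ι

end Pool.Agent.MP_855f4c_ag.Nd

end

end
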