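import Mathlib

set_option linter.all false

section

/-! h92c, section P: statements of the patching construction. -/

open Polynomial Function

namespace Pool.Agent.MP_855f4c_ag.Pt

/-- `z` is integral over `F[X]`, of size at most `max 1 ‖x‖ ^ w`. -/
def Bd (F : Type) {K : Type} [NormedField F] [CommRing K] [Algebra F[X] K] (w : ℕ) (z : K) :
    Prop :=
  ∃ χ : F[X][X], χ.Monic ∧ aeval z χ = 0 ∧ (∀ j k, ‖(χ.coeff j).coeff k‖ ≤ 1) ∧
    ∀ j, (χ.coeff j).natDegree ≤ w * (χ.natDegree - j)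

/-- Points of norm at most one at mutual distance one. -/
def Sep {F : Type} [NormedField F] (S : Finset F) : Prop :=
  (∀ x ∈ S, ‖x‖ = 1) ∧ ∀ x ∈ S, ∀ y ∈ S, x ≠ y → ‖x - y‖ = 1

/-- Characters of integral extensions. -/
def EXT_s : Prop := ∀ (F : Type) [Field F] [IsAlgClosed F],
  (∀ (A A' : Type) [CommRing A] [CommRing A'] [Algebra A A'] [Algebra.IsIntegral A A'],
    Injective (algebraMap A A') → ∀ χ : A →+* F, ∃ ψ : A' →+* F, ψ.comp (algebraMap A A') = χ) ∧
  ∀ (A : Type) [CommRing A] [IsDomain A] [Algebra F[X] A] [Algebra.IsIntegral F[X] A],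
    Injective (algebraMap F[X] A) → ∀ (z : A) (x y : F),
      ((minpoly F[X] z).map (evalRingHom x)).eval y = 0 →
      ∃ ψ : A →+* F, ψ.comp (algebraMap F[X] A) = evalRingHom x ∧ ψ z = y

/-- Bounded values give a certificate; growth makes `z` a parameter. -/
def BD_s : Prop := ∀ (p : ℕ) [Fact p.Prime] (F : Type) [NontriviallyNormedField F]
  [IsUltrametricDist F] [IsAlgClosed F] [CharP F p] (A : Type) [CommRing A] [IsDomain A]
  [Algebra F[X] A] [Algebra.IsIntegral F[X] A], Injective (algebraMap F[X] A) → ∀ z : A,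
    (∀ w : ℕ, (∀ (ψ : A →+* F) (x : F), ψ.comp (algebraMap F[X] A) = evalRingHom x →
      ‖ψ z‖ ≤ max 1 ‖x‖ ^ w) → Bd F w z) ∧
    ∀ (D Q : ℕ) (c M : ℝ), 0 < D → 0 < Q → 0 < c →
      (∀ (ψ : A →+* F) (x : F), ψ.comp (algebraMap F[X] A) = evalRingHom x → M ≤ ‖x‖ →
        ‖ψ z‖ ^ D = c * ‖x‖ ^ Q) →
      Injective (eval₂RingHom ((algebraMap F[X] A).comp C) z) ∧
        (eval₂RingHom ((algebraMap F[X] A).comp C) z).IsIntegral

/-- Polynomials that separate balls. -/
def IND_s : Prop := ∀ (F σ : Type) [NormedField F] [IsUltrametricDist F] [Fintype σ] (ρ : ℝ)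
  (c : σ → F) (Z : Finset (σ → F)), 0 ≤ ρ → (∀ z ∈ Z, ρ < dist z c) →
    ∃ (e : MvPolynomial σ F) (θ : ℝ), θ < 1 ∧
      (∀ v, dist v c ≤ ρ → ‖MvPolynomial.eval v e - 1‖ ≤ θ) ∧
      ∀ z ∈ Z, ∀ v, dist v z ≤ ρ → ‖MvPolynomial.eval v e‖ ≤ θ

section
variable {F O R ι : Type} [NormedField F] [CommRing O] [CommRing R] [Algebra F R] [Algebra O R]

/-- All coordinates of `z` have norm at most `M`. -/
def NL (β : Module.Basis (ι × ℤ) F R) (z : R) (M : ℝ) : Prop := ∀ x, ‖β.repr z x‖ ≤ M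

/-- `R = O[1 / t]` with the basis `t ^ k ω_j`. -/
structure LB (t : O) (β : Module.Basis (ι × ℤ) F R) (κ n : ℕ) : Prop where
  inj : Injective (algebraMap O R)
  unit : IsUnit (algebraMap O R t)
  shift : ∀ j k, algebraMap O R t * β (j, k) = β (j, k + 1)
  rng : ∀ z, z ∈ Set.range (algebraMap O R) ↔ ∀ j k, k < 0 → β.repr z (j, k) = 0
  deg : ∀ j j' j'' k, (κ : ℤ) < k → β.repr (β (j, 0) * β (j', 0)) (j'', k) = 0
  nrm : ∀ j j', NL β (β (j, 0) * β (j', 0)) 1
  ch : ∀ (b : R) (r M : ℝ), 0 < r →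
    (∀ ψ : R →ₐ[F] F, ‖ψ (algebraMap O R t)‖ = 1 → ‖ψ b‖ ≤ r) →
    (∀ i < n, NL β (b ^ i) (M * r ^ i)) → ∀ q, NL β (b ^ q) (M * r ^ q)

end

/-- The Galois closure of a generic solution. -/
def GAL_s : Prop := ∀ (p : ℕ) [Fact p.Prime] (F : Type) [NontriviallyNormedField F]
  [IsUltrametricDist F] [IsAlgClosed F] [CharP F p] (S σ : Type) [CommRing S] [IsDomain S]
  [Algebra F[X] S] [Fintype σ] (x : σ → S), Injective (algebraMap F[X] S) →
    IsUnit (algebraMap F[X] S X) → (∀ s : S, ∃ k, IsIntegral F[X] (algebraMap F[X] S X ^ k * s)) →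
    ∃ (O R ι G : Type) (_ : CommRing O) (_ : IsDomain O) (_ : CommRing R) (_ : Algebra F R)
      (_ : Algebra F[X] O) (_ : Algebra.IsIntegral F[X] O) (_ : Algebra O R) (_ : Fintype ι)
      (_ : Fintype G) (_ : Nonempty G) (β : Module.Basis (ι × ℤ) F R) (κ n j : ℕ)
      (act : G → R →ₐ[F] R) (w : σ → R), Injective (algebraMap F[X] O) ∧
      (∀ a : F, algebraMap O R (algebraMap F[X] O (C a)) = algebraMap F R a) ∧
      LB (algebraMap F[X] O X) β κ n ∧
      (∀ z : R, ∃ (f : F[X]) (k : ℕ), algebraMap O R (algebraMap F[X] O X) ^ k * ∏ g, act g z =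
        aeval (algebraMap O R (algebraMap F[X] O X)) f) ∧
      (∀ χ : O →+* F, (∀ a, χ (algebraMap F[X] O (C a)) = a) → χ (algebraMap F[X] O X) ≠ 0 →
        ∃ ψ : R →ₐ[F] F, ∀ o, ψ (algebraMap O R o) = χ o) ∧
      ∀ (ψ : R →ₐ[F] F) (g : G), ∃ φ : S →+* F,
        φ.comp (algebraMap F[X] S) = evalRingHom (ψ (algebraMap O R (algebraMap F[X] O X))) ∧
        ∀ i, ψ (act g (w i)) = φ (x i) ^ p ^ j

/-- Patching. -/
def PATCH_s : Prop := ∀ (p : ℕ) [Fact p.Prime] (F : Type) [NontriviallyNormedField F]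
  [IsUltrametricDist F] [CompleteSpace F] [CharP F p] (O R ι G σ Φ : Type) [CommRing O]
  [IsDomain O] [CommRing R] [Algebra F R] [Algebra O R] [Fintype ι] [Fintype G] [Nonempty G]
  [Fintype σ] [Fintype Φ] (t : O) (β : Module.Basis (ι × ℤ) F R) (κ n : ℕ) (ω : F →+* O)
  (w : G → σ → R) (c : G → σ → F) (E : Φ → R) (π : Φ → G ≃ G) (ρ θ : ℝ),
    (∀ a, algebraMap O R (ω a) = algebraMap F R a) → LB t β κ n → 0 < ρ → θ < 1 →
    (∀ ψ : R →ₐ[F] F, ‖ψ (algebraMap O R t)‖ = 1 → ∃ a, ‖ψ (E a) - 1‖ ≤ θ ∧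
      (∀ b, b ≠ a → ‖ψ (E b)‖ ≤ θ) ∧ ∀ g i, ‖ψ (w g i) - c (π a g) i‖ ≤ ρ) →
    ∃ (M : ℝ) (m : ℕ), ∀ j : ℕ, ∃ (A : Type) (_ : CommRing A) (_ : IsDomain A) (_ : Algebra O A)
      (_ : Algebra.IsIntegral O A) (ξ : σ → A), Injective (algebraMap O A) ∧
      ∀ (P : MvPolynomial σ F) (χ : A →+* F), (∀ a, χ (algebraMap O A (ω a)) = a) →
        (‖χ (algebraMap O A t)‖ ≤ 1 → ∃ (g : G) (v : σ → F),
          χ (MvPolynomial.eval₂ ((algebraMap O A).comp ω) ξ P) = MvPolynomial.eval v P ∧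
          ∀ i, ‖v i - c g i ^ p ^ j‖ ≤ M * ρ ^ p ^ j) ∧
        ∀ ψ : R →ₐ[F] F, (∀ o, ψ (algebraMap O R o) = χ (algebraMap O A o)) →
          1 ≤ ‖χ (algebraMap O A t)‖ → ∃ (g : G) (v : σ → F),
          χ (MvPolynomial.eval₂ ((algebraMap O A).comp ω) ξ P) = MvPolynomial.eval v P ∧
          ∀ i, ‖v i - ψ (w g i) ^ p ^ j‖ ≤ M * ρ ^ p ^ j * ‖χ (algebraMap O A t)‖ ^ m

/-- A curve in the tube from a generic solution of the tower. -/
def CUR_s : Prop := ∀ (p : ℕ) [Fact p.Prime] (F : Type) [NontriviallyNormedField F]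
  [IsUltrametricDist F] [CompleteSpace F] [IsAlgClosed F] [CharP F p] (S σ J : Type) [CommRing S]
  [IsDomain S] [Algebra F[X] S] [Fintype σ] (x : σ → S) (o : σ) (P : J → MvPolynomial σ F)
  (e : J → ℕ) (a τ : F) (D : ℕ) (ρ : ℝ) (Z : Finset (σ → F)), Injective (algebraMap F[X] S) →
    IsUnit (algebraMap F[X] S X) → (∀ s : S, ∃ k, IsIntegral F[X] (algebraMap F[X] S X ^ k * s)) →
    0 < D → τ ≠ 0 → ‖τ‖ ≤ 1 → 0 < ρ → ρ < ‖a‖ → ‖a‖ ≤ 1 →
    (∀ k, (P k).totalDegree ≤ e k ∧ ∀ d, ‖(P k).coeff d‖ ≤ 1) →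
    (∀ (φ : S →+* F) (y : F), φ.comp (algebraMap F[X] S) = evalRingHom y → 1 ≤ ‖y‖ →
      max 1 ‖φ (x o)‖ ^ D = max 1 ‖τ * y‖ ∧ (∀ i, ‖φ (x i)‖ ≤ max 1 ‖φ (x o)‖) ∧
      (∀ k, ‖MvPolynomial.eval (φ ∘ x) (P k)‖ ≤ ‖a‖ * max 1 ‖φ (x o)‖ ^ e k) ∧
      (‖y‖ = 1 → ∃ z ∈ Z, ∀ i, ‖φ (x i) - z i‖ ≤ ρ)) →
    ∃ s₀ : ℕ, ∀ s ≥ s₀, ∃ (s₁ : ℕ) (K : Type) (_ : Field K) (_ : Algebra F[X] K)
      (_ : Algebra (RatFunc F) K) (_ : IsScalarTower F[X] (RatFunc F) K)
      (_ : FiniteDimensional (RatFunc F) K) (_ : Algebra.IsSeparable (RatFunc F) K) (ζ : σ → K),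
      ζ o = algebraMap F[X] K (X ^ p ^ s₁) ∧ (∀ i, Bd F (p ^ s₁) (ζ i)) ∧
      ∀ k, Bd F (p ^ s₁ * e k)
        (MvPolynomial.eval₂ ((algebraMap F[X] K).comp (C.comp (iterateFrobenius F p (s + s₁)))) ζ
          (P k) / algebraMap F[X] K (C (a ^ p ^ (s + s₁))))

/-- A generic solution of the tower. -/
def TOW_s : Prop := ∀ (F ι : Type) [Field F] [Fintype ι] (d : F[X]) (τ : F) (H : F[X][X])
  (L : ι → F[X][X][X]), d.Monic → 0 < d.natDegree → τ ≠ 0 → H.Monic → 0 < H.natDegree →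
    (∀ i, 0 < (L i).natDegree ∧ (L i).leadingCoeff = C d) →
    ∃ (S : Type) (_ : CommRing S) (_ : IsDomain S) (_ : Algebra F[X] S) (x y : S) (ξ : ι → S),
      Injective (algebraMap F[X] S) ∧ IsUnit (algebraMap F[X] S X) ∧
      (∀ s : S, ∃ k, IsIntegral F[X] (algebraMap F[X] S X ^ k * s)) ∧
      ∀ (φ : S →+* F) (u : F), φ.comp (algebraMap F[X] S) = evalRingHom u →
        d.eval (φ x) = τ * u ∧ H.evalEval (φ x) (φ y) = 0 ∧
        ∀ i, ((L i).map (evalEvalRingHom (φ x) (φ y))).eval (φ (ξ i)) = 0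

end Pool.Agent.MP_855f4c_ag.Pt

end

section

/-! h92c, section P: Gauss norms, growth, roots. -/

open Polynomial Function

namespace Pool.Agent.MP_855f4c_ag.Pt

namespace Gs

variable {F : Type}

section
variable [NormedField F] [IsUltrametricDist F]

theorem sum_le {ι : Type} (s : Finset ι) (f : ι → F) {r : ℝ} (hr : 0 ≤ r)
    (h : ∀ i ∈ s, ‖f i‖ ≤ r) : ‖∑ i ∈ s, f i‖ ≤ r :=
  IsUltrametricDist.norm_sum_le_of_forall_le_of_nonneg hr h

theorem sub_le {a b : F} {r : ℝ} (ha : ‖a‖ ≤ r) (hb : ‖b‖ ≤ r) : ‖a - b‖ ≤ r := by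
  rw [sub_eq_add_neg]
  exact (IsUltrametricDist.norm_add_le_max _ _).trans (max_le ha (by rwa [norm_neg]))

theorem add_le {a b : F} {r : ℝ} (ha : ‖a‖ ≤ r) (hb : ‖b‖ ≤ r) : ‖a + b‖ ≤ r :=
  (IsUltrametricDist.norm_add_le_max _ _).trans (max_le ha hb)

theorem mul_coeff {f g : F[X]} {r s : ℝ} (hf : ∀ k, ‖f.coeff k‖ ≤ r) (hg : ∀ k, ‖g.coeff k‖ ≤ s)
    (k : ℕ) : ‖(f * g).coeff k‖ ≤ r * s := by
  have hr := (norm_nonneg _).trans (hf 0)
  have hs := (norm_nonneg _).trans (hg 0)
  rw [coeff_mul]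
  exact sum_le _ _ (mul_nonneg hr hs) fun c _ => by
    rw [norm_mul]; exact mul_le_mul (hf _) (hg _) (norm_nonneg _) hr

theorem prod_coeff {ι : Type} (s : Finset ι) (f : ι → F[X]) (h : ∀ i ∈ s, ∀ k, ‖(f i).coeff k‖ ≤ 1)
    (k : ℕ) : ‖(∏ i ∈ s, f i).coeff k‖ ≤ 1 := by
  classical
  induction s using Finset.induction_on generalizing k with
  | empty => rw [Finset.prod_empty, coeff_one]; split_ifs <;> simp
  | insert a s ha ih =>
    rw [Finset.prod_insert ha]
    simpa using mul_coeff (h a (Finset.mem_insert_self _ _))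
      (ih fun i hi => h i (Finset.mem_insert_of_mem hi)) k

theorem eval_le' (f : F[X]) (r : ℝ) (x : F) (w : ℕ) (h : ∀ k, ‖f.coeff k‖ ≤ r)
    (hw : f.natDegree ≤ w) : ‖f.eval x‖ ≤ r * max 1 ‖x‖ ^ w := by
  have hr := (norm_nonneg _).trans (h 0)
  rw [eval_eq_sum_range]
  refine sum_le _ _ (by positivity) fun k hk => ?_
  rw [norm_mul, norm_pow]
  refine mul_le_mul (h k) ((pow_le_pow_left₀ (norm_nonneg _) (le_max_right _ _) k).trans
    (pow_le_pow_right₀ (le_max_left _ _) ?_)) (by positivity) hr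
  have := Finset.mem_range.1 hk
  omega

theorem interp (S : Finset F) (f : F[X]) (r : ℝ) (hS : Sep S) (hd : f.natDegree < S.card)
    (h : ∀ x ∈ S, ‖f.eval x‖ ≤ r) (k : ℕ) : ‖f.coeff k‖ ≤ r := by
  classical
  obtain ⟨x₀, hx₀⟩ := Finset.card_pos.1 (Nat.zero_lt_of_lt hd)
  have hr := (norm_nonneg _).trans (h x₀ hx₀)
  have e : f = Lagrange.interpolate S id fun x => f.eval x :=
    Lagrange.eq_interpolate (Set.injOn_id _) (degree_le_natDegree.trans_lt (by exact_mod_cast hd))
  rw [e, Lagrange.interpolate_apply, finsetSum_coeff]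
  refine sum_le _ _ hr fun x hx => ?_
  rw [coeff_C_mul, norm_mul, ← mul_one r]
  refine mul_le_mul (h x hx) ?_ (norm_nonneg _) hr
  refine prod_coeff _ _ (fun y hy j => ?_) k
  obtain ⟨h1, h2⟩ := Finset.mem_erase.1 hy
  rw [Lagrange.basisDivisor, coeff_C_mul, norm_mul, norm_inv, id, id, hS.2 x hx y h2 h1.symm,
    inv_one, one_mul, coeff_sub, coeff_X, coeff_C]
  refine sub_le ?_ ?_ <;> split_ifs <;> simp [(hS.1 y h2).le]

theorem top (f : F[X]) (hf : f ≠ 0) :
    ∃ M : ℝ, ∀ x, M ≤ ‖x‖ → ‖f.eval x‖ = ‖f.leadingCoeff‖ * ‖x‖ ^ f.natDegree := by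
  have hl : 0 < ‖f.leadingCoeff‖ := norm_pos_iff.2 (leadingCoeff_ne_zero.2 hf)
  obtain ⟨r, hr⟩ : ∃ r : ℝ, ∀ k, ‖f.eraseLead.coeff k‖ ≤ r :=
    ⟨∑ k ∈ f.eraseLead.support, ‖f.eraseLead.coeff k‖, fun k => by
      by_cases hk : k ∈ f.eraseLead.support
      · exact Finset.single_le_sum (f := fun k => ‖f.eraseLead.coeff k‖)
          (fun _ _ => norm_nonneg _) hk
      · rw [notMem_support_iff.1 hk, norm_zero]; positivity⟩
  have r0 := (norm_nonneg _).trans (hr 0)
  refine ⟨r / ‖f.leadingCoeff‖ + 1, fun x hx => ?_⟩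
  have x1 : 1 ≤ ‖x‖ := le_trans (le_add_of_nonneg_left (by positivity)) hx
  have hn : ‖(C f.leadingCoeff * X ^ f.natDegree).eval x‖ =
      ‖f.leadingCoeff‖ * ‖x‖ ^ f.natDegree := by simp
  conv_lhs => rw [← f.eraseLead_add_C_mul_X_pow, eval_add]
  rcases f.eraseLead_natDegree_lt_or_eraseLead_eq_zero with h | h
  · rw [IsUltrametricDist.norm_add_eq_max_of_norm_ne_norm, max_eq_right, hn]
    all_goals
      have := eval_le' f.eraseLead r x (f.natDegree - 1) hr (by omega)
      rw [max_eq_right x1] at this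
      have h2 : r * ‖x‖ ^ (f.natDegree - 1) < ‖f.leadingCoeff‖ * ‖x‖ ^ f.natDegree := by
        obtain ⟨d, hd⟩ : ∃ d, f.natDegree = d + 1 := ⟨f.natDegree - 1, by omega⟩
        rw [hd, Nat.add_sub_cancel, pow_succ', ← mul_assoc]
        refine mul_lt_mul_of_pos_right ?_ (by positivity)
        rw [mul_comm, ← div_lt_iff₀ hl]
        linarith
      rw [hn]
    · exact (this.trans_lt h2).le
    · exact (this.trans_lt h2).ne
  · rw [h, eval_zero, zero_add, hn]

theorem coeffs [IsAlgClosed F] (r : ℝ) (hr : 0 ≤ r) : ∀ (n : ℕ) (f : F[X]), f.natDegree = n →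
    f.Monic → (∀ y, f.eval y = 0 → ‖y‖ ≤ r) → ∀ j ≤ n, ‖f.coeff j‖ ≤ r ^ (n - j)
  | 0, f, hn, hf, _, j, hj => by
    rw [Nat.le_zero.1 hj, (Monic.natDegree_eq_zero hf).1 hn]; simp
  | n + 1, f, hn, hf, h, j, hj => by
    obtain ⟨y, hy⟩ := IsAlgClosed.exists_root f (fun e => by
      rw [natDegree_eq_zero_iff_degree_le_zero.2 e.le] at hn; omega)
    obtain ⟨g, rfl⟩ := dvd_iff_isRoot.2 hy
    have hg : g.Monic := (monic_X_sub_C y).of_mul_monic_left hf
    have dg : g.natDegree = n := by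
      rw [(monic_X_sub_C y).natDegree_mul hg, natDegree_X_sub_C] at hn; omega
    have ih := coeffs r hr n g dg hg fun z hz => h z (by rw [eval_mul, hz, mul_zero])
    have hy' := h y hy
    have b : ∀ i ≤ n + 1, ‖y * g.coeff i‖ ≤ r ^ (n + 1 - i) := fun i hi => by
      rcases hi.eq_or_lt with e | e
      · rw [e, coeff_eq_zero_of_natDegree_lt (by omega)]; simp
      · rw [norm_mul, show n + 1 - i = n - i + 1 by omega, pow_succ']
        exact mul_le_mul hy' (ih i (by omega)) (norm_nonneg _) hr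
    rw [sub_mul, coeff_sub, coeff_C_mul]
    refine sub_le ?_ (b j hj)
    cases j with
    | zero => simp; positivity
    | succ j => rw [coeff_X_mul, Nat.add_sub_add_right]; exact ih j (by omega)

end

theorem exps [NontriviallyNormedField F] {a b M : ℝ} {i j : ℕ} (ha : 0 < a)
    (h : ∀ x : F, M ≤ ‖x‖ → a * ‖x‖ ^ i ≤ b * ‖x‖ ^ j) : i ≤ j := by
  by_contra hij
  obtain ⟨x, hx⟩ := NormedField.exists_lt_norm F (max (max M 1) (b / a))
  have x1 : 1 ≤ ‖x‖ := ((le_max_right _ _).trans (le_max_left _ _)).trans hx.le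
  have h1 := h x (((le_max_left _ _).trans (le_max_left _ _)).trans hx.le)
  have h2 : b < a * ‖x‖ := by
    rw [mul_comm, ← div_lt_iff₀ ha]; exact (le_max_right _ _).trans_lt hx
  have h3 : ‖x‖ ^ (j + 1) ≤ ‖x‖ ^ i := pow_le_pow_right₀ x1 (by omega)
  have h4 : b * ‖x‖ ^ j < a * ‖x‖ * ‖x‖ ^ j := mul_lt_mul_of_pos_right h2 (by positivity)
  rw [mul_assoc, ← pow_succ'] at h4
  linarith [mul_le_mul_of_nonneg_left h3 ha.le]

theorem zeta (p : ℕ) [Fact p.Prime] [NormedField F] [IsAlgClosed F] [CharP F p] (n : ℕ) :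
    ∃ ζ : F, ‖ζ‖ = 1 ∧ ∀ a ≤ n, ∀ b ≤ n, a ≠ b → ‖ζ ^ a - ζ ^ b‖ = 1 := by
  have hp : p.Prime := Fact.out
  have h1 : n + 1 < p ^ (n + 1) := Nat.lt_pow_self hp.one_lt
  obtain ⟨m, hm⟩ : ∃ m, p ^ (n + 1) = m + 1 := ⟨p ^ (n + 1) - 1, by omega⟩
  have m0 : (m : F) ≠ 0 := by
    have : ((m + 1 : ℕ) : F) = 0 := by rw [← hm]; simp
    intro e
    simp [e] at this
  have : NeZero (m : F) := ⟨m0⟩
  obtain ⟨ζ, hζ⟩ := HasEnoughRootsOfUnity.exists_primitiveRoot F m
  have one : ∀ u : F, u ≠ 0 → u ^ p ^ (n + 1) = u → ‖u‖ = 1 := fun u h0 hu => by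
    rw [hm, pow_succ, mul_eq_right₀ h0] at hu
    have := congrArg norm hu
    rw [norm_pow, norm_one] at this
    exact (pow_eq_one_iff_of_nonneg (norm_nonneg _) (by omega)).1 this
  have fix : ∀ a, (ζ ^ a) ^ p ^ (n + 1) = ζ ^ a := fun a => by
    rw [hm, pow_succ, ← pow_mul, mul_comm a, pow_mul, hζ.pow_eq_one, one_pow, one_mul]
  refine ⟨ζ, one ζ (hζ.ne_zero (by omega)) (by simpa using fix 1), fun a ha b hb hab => ?_⟩
  refine one _ (sub_ne_zero.2 fun e => hab (hζ.pow_inj (by omega) (by omega) e)) ?_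
  rw [sub_pow_char_pow, fix, fix]

theorem sep (p : ℕ) [Fact p.Prime] [NormedField F] [IsAlgClosed F] [CharP F p] (n : ℕ) :
    ∃ S : Finset F, n < S.card ∧ Sep S := by
  classical
  obtain ⟨ζ, h1, h2⟩ := zeta (F := F) p n
  refine ⟨(Finset.range (n + 1)).image (ζ ^ ·), ?_, fun x hx => ?_, fun x hx y hy hxy => ?_⟩
  · rw [Finset.card_image_of_injOn, Finset.card_range]
    · omega
    · intro a ha b hb e
      by_contra hab
      have := h2 a (by simpa [Nat.lt_succ_iff] using ha) b (by simpa [Nat.lt_succ_iff] using hb) hab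
      simp only at e
      simp [e] at this
  · obtain ⟨a, -, rfl⟩ := Finset.mem_image.1 hx
    simp [h1]
  · obtain ⟨a, ha, rfl⟩ := Finset.mem_image.1 hx
    obtain ⟨b, hb, rfl⟩ := Finset.mem_image.1 hy
    exact h2 a (by simpa [Nat.lt_succ_iff] using ha) b (by simpa [Nat.lt_succ_iff] using hb)
      fun e => hxy (by rw [e])

theorem gauss (p : ℕ) [Fact p.Prime] [NormedField F] [IsUltrametricDist F] [IsAlgClosed F]
    [CharP F p] (f : F[X]) (r : ℝ) (h : ∀ x, ‖x‖ = 1 → ‖f.eval x‖ ≤ r) (k : ℕ) :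
    ‖f.coeff k‖ ≤ r := by
  obtain ⟨S, h1, h2⟩ := sep (F := F) p f.natDegree
  exact interp S f r h2 h1 (fun x hx => h x (h2.1 x hx)) k

variable [NontriviallyNormedField F] [IsUltrametricDist F]

theorem deg_le (f : F[X]) (D w : ℕ) (C M : ℝ)
    (h : ∀ x, M ≤ ‖x‖ → ‖f.eval x‖ ^ D ≤ C * ‖x‖ ^ w) : D * f.natDegree ≤ w := by
  by_cases hf : f = 0
  · simp [hf]
  obtain ⟨M', hM⟩ := top f hf
  have hl : 0 < ‖f.leadingCoeff‖ := norm_pos_iff.2 (leadingCoeff_ne_zero.2 hf)
  refine exps (F := F) (a := ‖f.leadingCoeff‖ ^ D) (b := C) (M := max M M') (by positivity)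
    fun x hx => ?_
  have := h x ((le_max_left _ _).trans hx)
  rwa [hM x ((le_max_right _ _).trans hx), mul_pow, ← pow_mul, mul_comm _ D] at this

theorem le_deg (f : F[X]) (D w : ℕ) (c M : ℝ) (hc : 0 < c)
    (h : ∀ x, M ≤ ‖x‖ → c * ‖x‖ ^ w ≤ ‖f.eval x‖ ^ D) : w ≤ D * f.natDegree := by
  by_cases hf : f = 0
  · refine exps (F := F) (b := 0 ^ D) (M := M) hc fun x hx => ?_
    simpa [hf] using h x hx
  obtain ⟨M', hM⟩ := top f hf
  refine exps (F := F) (b := ‖f.leadingCoeff‖ ^ D) (M := max M M') hc fun x hx => ?_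
  have := h x ((le_max_left _ _).trans hx)
  rwa [hM x ((le_max_right _ _).trans hx), mul_pow, ← pow_mul, mul_comm _ D] at this

end Gs

end Pool.Agent.MP_855f4c_ag.Pt

end

section

/-! h92c, section P: characters of integral extensions, certificates for bounded elements. -/

open Polynomial Function

namespace Pool.Agent.MP_855f4c_ag.Pt

namespace Ext

variable {F : Type} [Field F] [IsAlgClosed F]

theorem ext {A A' : Type} [CommRing A] [CommRing A'] [Algebra A A'] [Algebra.IsIntegral A A']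
    (h : Injective (algebraMap A A')) (χ : A →+* F) :
    ∃ ψ : A' →+* F, ψ.comp (algebraMap A A') = χ := by
  have : (RingHom.ker χ).IsPrime := RingHom.ker_isPrime χ
  obtain ⟨Q, -, hQ, e⟩ := Ideal.exists_ideal_over_prime_of_isIntegral (RingHom.ker χ)
    (⊥ : Ideal A') (by
      rw [← RingHom.ker_eq_comap_bot, (RingHom.injective_iff_ker_eq_bot _).1 h]; exact bot_le)
  let P := Q.comap (algebraMap A A')
  let χ' : A ⧸ P →+* F := Ideal.Quotient.lift P χ fun a ha => by
    rw [← RingHom.mem_ker, ← e]; exact ha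
  have hχ : Injective χ' := RingHom.lift_injective_of_ker_le_ideal P _ e.ge
  let _ : Algebra (A ⧸ P) F := χ'.toAlgebra
  have : Module.IsTorsionFree (A ⧸ P) F := (Module.isTorsionFree_iff_algebraMap_injective).2 hχ
  have : Module.IsTorsionFree (A ⧸ P) (A' ⧸ Q) :=
    (Module.isTorsionFree_iff_algebraMap_injective).2 Ideal.algebraMap_quotient_injective
  let φ : (A' ⧸ Q) →ₐ[A ⧸ P] F := IsAlgClosed.lift
  exact ⟨φ.toRingHom.comp (Ideal.Quotient.mk Q), RingHom.ext fun a =>
    φ.commutes (Ideal.Quotient.mk P a)⟩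

theorem root {R A : Type} [CommRing R] [IsDomain R] [IsIntegrallyClosed R] [CommRing A]
    [IsDomain A] [Algebra R A] [Algebra.IsIntegral R A] (h : Injective (algebraMap R A)) (z : A)
    (χ : R →+* F) (y : F) (hy : ((minpoly R z).map χ).eval y = 0) :
    ∃ ψ : A →+* F, ψ.comp (algebraMap R A) = χ ∧ ψ z = y := by
  have : Module.IsTorsionFree R A := (Module.isTorsionFree_iff_algebraMap_injective).2 h
  have hz : IsIntegral R z := Algebra.IsIntegral.isIntegral z
  let e := minpoly.equivAdjoin hz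
  have hy' : eval₂ χ y (minpoly R z) = 0 := by rwa [eval₂_eq_eval_map]
  let χ' : Algebra.adjoin R ({z} : Set A) →+* F :=
    (AdjoinRoot.lift χ y hy').comp e.symm.toRingEquiv.toRingHom
  have : Algebra.IsIntegral (Algebra.adjoin R ({z} : Set A)) A := Algebra.IsIntegral.tower_top R
  obtain ⟨ψ, hψ⟩ := ext (A := Algebra.adjoin R ({z} : Set A)) (A' := A) Subtype.val_injective χ'
  refine ⟨ψ, RingHom.ext fun a => ?_, ?_⟩
  · have := RingHom.congr_fun hψ (algebraMap R _ a)
    refine this.trans ?_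
    change AdjoinRoot.lift χ y hy' (e.symm (algebraMap R _ a)) = _
    rw [AlgEquiv.commutes]
    exact AdjoinRoot.lift_of _
  · have := RingHom.congr_fun hψ (e (AdjoinRoot.root _))
    refine Eq.trans ?_ (this.trans ?_)
    · have : (e (AdjoinRoot.root _) : A) = z := by simp [e, minpoly.coe_equivAdjoin]
      exact congrArg ψ this.symm
    · change AdjoinRoot.lift χ y hy' (e.symm (e _)) = _
      rw [AlgEquiv.symm_apply_apply]
      exact AdjoinRoot.lift_root _

end Ext

theorem ext : EXT_s := fun _ _ _ =>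
  ⟨fun _ _ _ _ _ _ => Ext.ext, fun _ _ _ _ _ h z x y hy => Ext.root h z (evalRingHom x) y hy⟩

namespace Bdd

variable {F : Type}

theorem const [NormedField F] [IsAlgClosed F] (r : ℝ) : ∀ (n : ℕ) (f : F[X]), f.natDegree = n →
    f.Monic → (∀ y, f.eval y = 0 → ‖y‖ = r) → ‖f.coeff 0‖ = r ^ n
  | 0, f, hn, hf, _ => by rw [(Monic.natDegree_eq_zero hf).1 hn]; simp
  | n + 1, f, hn, hf, h => by
    obtain ⟨y, hy⟩ := IsAlgClosed.exists_root f (fun e => by
      rw [natDegree_eq_zero_iff_degree_le_zero.2 e.le] at hn; omega)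
    obtain ⟨g, rfl⟩ := dvd_iff_isRoot.2 hy
    have hg : g.Monic := (monic_X_sub_C y).of_mul_monic_left hf
    have dg : g.natDegree = n := by
      rw [(monic_X_sub_C y).natDegree_mul hg, natDegree_X_sub_C] at hn; omega
    have ih := const r n g dg hg fun z hz => h z (by rw [eval_mul, hz, mul_zero])
    rw [mul_coeff_zero, norm_mul, ih, pow_succ', ← h y hy]
    simp

variable (p : ℕ) [Fact p.Prime] [NontriviallyNormedField F] [IsUltrametricDist F] [IsAlgClosed F]
  {A : Type} [CommRing A] [IsDomain A] [Algebra F[X] A] [Algebra.IsIntegral F[X] A]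

theorem coef (h : Injective (algebraMap F[X] A)) (z : A) (x : F) (r : ℝ) (hr : 0 ≤ r)
    (hz : ∀ ψ : A →+* F, ψ.comp (algebraMap F[X] A) = evalRingHom x → ‖ψ z‖ ≤ r) (j : ℕ)
    (hj : j ≤ (minpoly F[X] z).natDegree) :
    ‖((minpoly F[X] z).coeff j).eval x‖ ≤ r ^ ((minpoly F[X] z).natDegree - j) := by
  have hm := minpoly.monic (Algebra.IsIntegral.isIntegral (R := F[X]) z)
  have := Gs.coeffs r hr _ _ (hm.natDegree_map (evalRingHom x)) (hm.map _) (fun y hy => by
    obtain ⟨ψ, h1, rfl⟩ := Ext.root h z _ y hy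
    exact hz ψ h1) j hj
  rwa [coeff_map] at this

include p in
theorem bd [CharP F p] (h : Injective (algebraMap F[X] A)) (z : A) (w : ℕ)
    (hz : ∀ (ψ : A →+* F) (x : F), ψ.comp (algebraMap F[X] A) = evalRingHom x →
      ‖ψ z‖ ≤ max 1 ‖x‖ ^ w) : Bd F w z := by
  refine ⟨minpoly F[X] z, minpoly.monic (Algebra.IsIntegral.isIntegral z), minpoly.aeval _ _,
    fun j => ?_, fun j => ?_⟩ <;>
    rcases le_or_gt j (minpoly F[X] z).natDegree with hj | hj
  · refine Gs.gauss p _ _ fun x hx => ?_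
    simpa using coef h z x 1 zero_le_one (fun ψ hψ => by simpa [hx] using hz ψ x hψ) j hj
  · simp [coeff_eq_zero_of_natDegree_lt hj]
  · rw [← one_mul (natDegree _)]
    refine Gs.deg_le _ 1 _ 1 1 fun x hx => ?_
    rw [pow_one, one_mul, pow_mul]
    exact coef h z x _ (by positivity) (fun ψ hψ => by simpa [hx] using hz ψ x hψ) j hj
  · simp [coeff_eq_zero_of_natDegree_lt hj]

theorem par (h : Injective (algebraMap F[X] A)) (z : A) (D Q : ℕ) (c M : ℝ) (hD : 0 < D)
    (hQ : 0 < Q) (hc : 0 < c)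
    (hz : ∀ (ψ : A →+* F) (x : F), ψ.comp (algebraMap F[X] A) = evalRingHom x → M ≤ ‖x‖ →
      ‖ψ z‖ ^ D = c * ‖x‖ ^ Q) :
    Injective (eval₂RingHom ((algebraMap F[X] A).comp C) z) ∧
      (eval₂RingHom ((algebraMap F[X] A).comp C) z).IsIntegral := by
  set φ := eval₂RingHom ((algebraMap F[X] A).comp C) z with hφ
  have hi : IsIntegral F[X] z := Algebra.IsIntegral.isIntegral z
  have hm := minpoly.monic hi
  set μ := minpoly F[X] z with hμ
  have n0 : 0 < μ.natDegree := minpoly.natDegree_pos hi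
  constructor
  · refine (injective_iff_map_eq_zero _).2 fun f hf => by_contra fun f0 => ?_
    obtain ⟨a, ha⟩ : ∃ a, z = algebraMap F[X] A (C a) := by
      rw [(IsAlgClosed.splits f).eq_prod_roots, map_mul, mul_eq_zero, map_multiset_prod,
        Multiset.prod_eq_zero_iff] at hf
      rcases hf with hf | hf
      · simp only [hφ, coe_eval₂RingHom, eval₂_C, RingHom.comp_apply] at hf
        exact absurd (C_eq_zero.1 (h (hf.trans (map_zero _).symm))) (leadingCoeff_ne_zero.2 f0)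
      · simp only [Multiset.map_map, Multiset.mem_map] at hf
        obtain ⟨a, -, ha⟩ := hf
        exact ⟨a, by simpa [hφ, sub_eq_zero] using ha⟩
    have := Gs.exps (F := F) (i := Q) (j := 0) (b := ‖a‖ ^ D) (M := M) hc fun x hx => by
      obtain ⟨ψ, hψ⟩ := Ext.ext h (evalRingHom x)
      rw [← hz ψ x hψ hx, ha, pow_zero, mul_one]
      have := RingHom.congr_fun hψ (C a)
      simp only [RingHom.comp_apply, coe_evalRingHom, eval_C] at this
      rw [this]
    omega
  have rt : ∀ x : F, ∃ r : ℝ, 0 ≤ r ∧ r ^ D = c * ‖x‖ ^ Q := fun x =>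
    ⟨(c * ‖x‖ ^ Q) ^ (D : ℝ)⁻¹, by positivity, Real.rpow_inv_natCast_pow (by positivity) hD.ne'⟩
  have up : ∀ j ≤ μ.natDegree, D * (μ.coeff j).natDegree ≤ Q * (μ.natDegree - j) := fun j hj => by
    refine Gs.deg_le _ D _ (c ^ (μ.natDegree - j)) M fun x hx => ?_
    obtain ⟨r, r0, hr⟩ := rt x
    have := coef h z x r r0 (fun ψ hψ => by
      rw [← pow_le_pow_iff_left₀ (norm_nonneg _) r0 hD.ne', hr, hz ψ x hψ hx]) j hj
    refine (pow_le_pow_left₀ (norm_nonneg _) this D).trans_eq ?_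
    rw [← pow_mul, mul_comm, pow_mul, hr, mul_pow, ← pow_mul]
  have lo : Q * μ.natDegree ≤ D * (μ.coeff 0).natDegree := by
    refine Gs.le_deg _ D _ (c ^ μ.natDegree) M (by positivity) fun x hx => ?_
    obtain ⟨r, r0, hr⟩ := rt x
    have := const r _ _ (hm.natDegree_map (evalRingHom x)) (hm.map _) fun y hy => by
      obtain ⟨ψ, h1, rfl⟩ := Ext.root h z _ y hy
      rw [← pow_left_inj₀ (norm_nonneg _) r0 hD.ne', hr, hz ψ x h1 hx]
    rw [coeff_map, coe_evalRingHom] at this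
    rw [this, ← pow_mul r, mul_comm _ D, pow_mul r, hr, mul_pow, ← pow_mul]
  have lt : ∀ j, 0 < j → j ≤ μ.natDegree → (μ.coeff j).natDegree < (μ.coeff 0).natDegree :=
    fun j j0 hj => lt_of_mul_lt_mul_left (((up j hj).trans_lt
      (Nat.mul_lt_mul_of_pos_left (by omega) hQ)).trans_le lo) D.zero_le
  have m0 : μ.coeff 0 ≠ 0 := fun e => by simpa [e] using lt _ n0 le_rfl
  have ev : ∀ f : F[X], eval₂ φ (algebraMap F[X] A X) (f.map C) = algebraMap F[X] A f := fun f => by
    rw [eval₂_map]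
    have : eval₂RingHom (φ.comp C) (algebraMap F[X] A X) = algebraMap F[X] A := by
      ext <;> simp [hφ]
    exact RingHom.congr_fun this f
  have hT : φ.IsIntegralElem (algebraMap F[X] A X) := by
    let g : F[X][X] := (μ.coeff 0).map C +
      ∑ j ∈ Finset.range μ.natDegree, C (X ^ (j + 1)) * (μ.coeff (j + 1)).map C
    have l0 := leadingCoeff_ne_zero.2 m0
    have dl : (∑ j ∈ Finset.range μ.natDegree, C (X ^ (j + 1)) * (μ.coeff (j + 1)).map C :
        F[X][X]).degree < ((μ.coeff 0).map (C : F →+* F[X])).degree := by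
      rw [degree_map_eq_of_injective C_injective, degree_eq_natDegree m0]
      refine (degree_sum_le _ _).trans_lt ((Finset.sup_lt_iff (WithBot.bot_lt_coe _)).2
        fun j hj => ?_)
      refine degree_le_natDegree.trans_lt (Nat.cast_lt.2 ?_)
      exact ((natDegree_C_mul_le _ _).trans natDegree_map_le).trans_lt
        (lt _ j.succ_pos (Finset.mem_range.1 hj))
    refine ⟨C (C (μ.coeff 0).leadingCoeff⁻¹) * g, monic_C_mul_of_mul_leadingCoeff_eq_one ?_, ?_⟩
    · rw [leadingCoeff_add_of_degree_lt' dl, leadingCoeff_map_of_injective C_injective, ← C_mul,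
        inv_mul_cancel₀ l0, C_1]
    · have h0 := minpoly.aeval F[X] z
      rw [aeval_eq_sum_range, Finset.sum_range_succ', add_comm] at h0
      rw [eval₂_mul, eval₂_add, eval₂_finsetSum, ev]
      refine mul_eq_zero_of_right _ (Eq.trans ?_ h0)
      simp only [eval₂_mul, ev, eval₂_C, Algebra.smul_def, pow_zero, mul_one]
      congr 1
      exact Finset.sum_congr rfl fun j _ => by simp [hφ, mul_comm, hμ]
  let S : Subring A :=
    { carrier := {a | φ.IsIntegralElem a}
      mul_mem' := RingHom.IsIntegralElem.mul φ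
      add_mem' := RingHom.IsIntegralElem.add φ
      neg_mem' := RingHom.IsIntegralElem.neg φ
      one_mem' := φ.isIntegralElem_one
      zero_mem' := φ.isIntegralElem_zero }
  have hS : ∀ f : F[X], algebraMap F[X] A f ∈ S := fun f => by
    induction f using Polynomial.induction_on with
    | C a =>
      have : φ.IsIntegralElem (φ (C a)) := φ.isIntegralElem_map
      have e : φ (C a) = algebraMap F[X] A (C a) := by simp [hφ]
      exact e ▸ this
    | add f g hf hg => rw [map_add]; exact S.add_mem hf hg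
    | monomial n a ih => rw [pow_succ, ← mul_assoc, map_mul]; exact S.mul_mem ih hT
  have h1 : (φ.codRestrict S fun f => φ.isIntegralElem_map).IsIntegral := fun a => by
    obtain ⟨q, hq, e⟩ : φ.IsIntegralElem a.1 := a.2
    exact ⟨q, hq, Subtype.ext (((hom_eval₂ q _ S.subtype a)).trans e)⟩
  have h2 : S.subtype.IsIntegral := fun a => by
    obtain ⟨q, hq, e⟩ : IsIntegral F[X] a := Algebra.IsIntegral.isIntegral a
    exact ⟨q.map ((algebraMap F[X] A).codRestrict S hS), hq.map _, by rw [eval₂_map]; exact e⟩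
  exact RingHom.IsIntegral.trans _ _ h1 h2

end Bdd

theorem bd : BD_s := fun p _ _ _ _ _ _ _ _ _ _ _ h z =>
  ⟨Bdd.bd p h z, Bdd.par h z⟩

end Pool.Agent.MP_855f4c_ag.Pt

end

section

/-! h92c, section P: polynomials that separate balls. -/

open Function MvPolynomial

namespace Pool.Agent.MP_855f4c_ag.Pt

theorem Ind.bdd {F σ : Type} [NormedField F] [Fintype σ] (e : MvPolynomial σ F) (z : σ → F)
    (ρ : ℝ) : ∃ M : ℝ, 0 < M ∧ ∀ v, dist v z ≤ ρ → ‖eval v e‖ ≤ M := by
  induction e using MvPolynomial.induction_on with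
  | C a => exact ⟨‖a‖ + 1, by positivity, fun v _ => by simp⟩
  | add f g hf hg =>
    obtain ⟨a, a0, ha⟩ := hf
    obtain ⟨b, b0, hb⟩ := hg
    exact ⟨a + b, by positivity, fun v hv => by
      rw [map_add]; exact norm_add_le_of_le (ha v hv) (hb v hv)⟩
  | mul_X f i hf =>
    obtain ⟨a, a0, ha⟩ := hf
    refine ⟨a * (‖z i‖ + |ρ| + 1), by positivity, fun v hv => ?_⟩
    rw [map_mul, norm_mul, eval_X]
    refine mul_le_mul (ha v hv) ?_ (norm_nonneg _) a0.le
    have h1 := (dist_le_pi_dist v z i).trans hv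
    rw [dist_eq_norm] at h1
    linarith [norm_le_norm_add_norm_sub' (v i) (z i), le_abs_self ρ]

theorem ind : IND_s := by
  classical
  intro F σ _ _ _ ρ c Z hρ
  induction Z using Finset.induction_on_max_value (fun z => dist z c) with
  | empty => exact fun _ => ⟨1, 0, one_pos, fun v _ => by simp, fun z hz => by simp at hz⟩
  | insert z Z _ hmax ih =>
    intro h
    obtain ⟨e, θ, θ1, h1, h2⟩ := ih fun y hy => h y (Finset.mem_insert_of_mem hy)
    have hz := h z (Finset.mem_insert_self _ _)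
    have d0 : 0 < dist z c := hρ.trans_lt hz
    obtain ⟨i, hi⟩ : ∃ i, ‖c i - z i‖ = dist z c := by
      by_contra hn
      refine lt_irrefl _ ((dist_pi_lt_iff d0).2 fun i => lt_of_le_of_ne (dist_le_pi_dist z c i) ?_)
      rw [dist_comm, dist_eq_norm]
      exact fun e => hn ⟨i, e⟩
    have c0 : c i - z i ≠ 0 := by rw [← norm_pos_iff, hi]; exact d0
    let L : MvPolynomial σ F := C (c i - z i)⁻¹ * (X i - C (z i))
    have eL : ∀ v, ‖eval v L‖ = ‖v i - z i‖ / dist z c := fun v => by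
      simp [L, hi, div_eq_inv_mul]
    have co : ∀ v y : σ → F, dist v y ≤ ρ → ‖v i - y i‖ ≤ ρ := fun v y hv => by
      rw [← dist_eq_norm]; exact (dist_le_pi_dist v y i).trans hv
    have η1 : ρ / dist z c < 1 := (div_lt_one d0).2 hz
    have η0 : 0 ≤ ρ / dist z c := by positivity
    have L1 : ∀ v, dist v c ≤ ρ → ‖eval v L - 1‖ ≤ ρ / dist z c := fun v hv => by
      have : eval v L - 1 = (v i - c i) / (c i - z i) := by
        simp only [L, map_mul, map_sub, eval_C, eval_X]; field_simp; ring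
      rw [this, norm_div, hi]
      exact div_le_div_of_nonneg_right (co v c hv) d0.le
    have L2 : ∀ y ∈ Z, ∀ v, dist v y ≤ ρ → ‖eval v L‖ ≤ 1 := fun y hy v hv => by
      rw [eL, div_le_one d0, show v i - z i = v i - y i + (y i - c i) + (c i - z i) by ring]
      refine Gs.add_le (Gs.add_le ((co v y hv).trans hz.le) ?_) hi.le
      rw [← dist_eq_norm]
      exact (dist_le_pi_dist y c i).trans (hmax y hy)
    obtain ⟨M, M0, hM⟩ := Ind.bdd e z ρ
    obtain ⟨m, hm⟩ := exists_pow_lt_of_lt_one (show 0 < 1 / (2 * M) by positivity) η1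
    have θ0 : 0 ≤ θ := (norm_nonneg _).trans (h1 c (by simpa))
    have one : ∀ {a : F} {r : ℝ}, r < 1 → ‖a - 1‖ ≤ r → ‖a‖ ≤ 1 := fun {a r} hr ha => by
      rw [← sub_add_cancel a 1]; exact Gs.add_le (ha.trans hr.le) norm_one.le
    refine ⟨e * L ^ m, max θ (max (ρ / dist z c) (1 / 2)), by simp [θ1, η1]; norm_num,
      fun v hv => ?_, fun y hy v hv => ?_⟩
    · have : ∀ k, ‖eval v L ^ k - 1‖ ≤ ρ / dist z c := fun k => by
        induction k with
        | zero => simpa using η0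
        | succ k ih =>
          rw [show eval v L ^ (k + 1) - 1 = eval v L * (eval v L ^ k - 1) + (eval v L - 1) by ring]
          refine Gs.add_le ?_ (L1 v hv)
          rw [norm_mul]
          exact (mul_le_of_le_one_left (norm_nonneg _) (one η1 (L1 v hv))).trans ih
      rw [map_mul, map_pow, show eval v e * eval v L ^ m - 1 =
        eval v e * (eval v L ^ m - 1) + (eval v e - 1) by ring]
      refine Gs.add_le ?_ ((h1 v hv).trans (le_max_left _ _))
      rw [norm_mul]
      exact ((mul_le_of_le_one_left (norm_nonneg _) (one θ1 (h1 v hv))).trans (this m)).trans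
        ((le_max_left _ _).trans (le_max_right _ _))
    · rw [map_mul, map_pow, norm_mul, norm_pow]
      rcases Finset.mem_insert.1 hy with rfl | hy
      · refine le_trans ?_ ((le_max_right _ _).trans (le_max_right _ _))
        have : ‖eval v L‖ ^ m ≤ 1 / (2 * M) := (pow_le_pow_left₀ (norm_nonneg _) (by
          rw [eL]; exact div_le_div_of_nonneg_right (co v y hv) d0.le) m).trans hm.le
        refine (mul_le_mul (hM v hv) this (by positivity) M0.le).trans_eq ?_
        field_simp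
      · exact (mul_le_of_le_one_right (norm_nonneg _)
          (pow_le_one₀ (norm_nonneg _) (L2 y hy v hv))).trans ((h2 y hy v hv).trans (le_max_left _ _))

end Pool.Agent.MP_855f4c_ag.Pt

end

section

/-! h92c, section P: from functions with bounded values to a curve with certificates. -/

open Polynomial Function

namespace Pool.Agent.MP_855f4c_ag.Pt.Cur

theorem frob (p : ℕ) [Fact p.Prime] {F σ : Type} [Field F] [CharP F p] (f : F →+* F) (j : ℕ)
    (u : σ → F) (P : MvPolynomial σ F) :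
    MvPolynomial.eval₂ ((iterateFrobenius F p j).comp f) (fun i => u i ^ p ^ j) P =
      MvPolynomial.eval₂ f u P ^ p ^ j :=
  (MvPolynomial.eval₂_comp_left (iterateFrobenius F p j) f u P).symm

theorem sepPow (p : ℕ) [Fact p.Prime] {k L : Type} [Field k] [CharP k p] [Field L] [Algebra k L]
    (z : L) (hz : IsIntegral k z) : ∃ n, ∀ m ≥ n, IsSeparable k (z ^ p ^ m) := by
  obtain ⟨n, g, hg, e⟩ := exists_separable_of_irreducible p (minpoly.irreducible hz)
    (Fact.out : p.Prime).ne_zero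
  have h : z ^ p ^ n ∈ separableClosure k L :=
    hg.of_dvd (minpoly.dvd k _ (by rw [← expand_aeval, e, minpoly.aeval]))
  refine ⟨n, fun m hm => ?_⟩
  obtain ⟨c, rfl⟩ := Nat.exists_eq_add_of_le hm
  rw [pow_add, pow_mul]
  exact pow_mem h _

theorem sepK (p : ℕ) [Fact p.Prime] {F A σ : Type} [Field F] [CharP F p] [CommRing A] [IsDomain A]
    [Algebra F[X] A] [Algebra.IsIntegral F[X] A] [Fintype σ] (h : Injective (algebraMap F[X] A))
    (ξ : σ → A) : ∃ (s₁ : ℕ) (K : Type) (_ : Field K) (_ : Algebra F[X] K)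
      (_ : Algebra (RatFunc F) K) (_ : IsScalarTower F[X] (RatFunc F) K)
      (_ : FiniteDimensional (RatFunc F) K) (_ : Algebra.IsSeparable (RatFunc F) K) (ζ : σ → K)
      (L : Type) (_ : Field L) (_ : Algebra F[X] L) (f : A →ₐ[F[X]] L) (g : K →ₐ[F[X]] L),
      ∀ i, g (ζ i) = f (ξ i) ^ p ^ s₁ := by
  let L := FractionRing A
  have hL : Injective (algebraMap F[X] L) := (IsFractionRing.injective A L).comp h
  let _ : Algebra (RatFunc F) L := (IsFractionRing.lift hL).toAlgebra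
  have : IsScalarTower F[X] (RatFunc F) L :=
    IsScalarTower.of_algebraMap_eq fun x => (IsFractionRing.lift_algebraMap hL x).symm
  have hi : ∀ i, IsIntegral (RatFunc F) (algebraMap A L (ξ i)) := fun i =>
    ((Algebra.IsIntegral.isIntegral (R := F[X]) (ξ i)).algebraMap (B := L)).tower_top
  choose n hn using fun i => sepPow p _ (hi i)
  let s := Finset.univ.sup n
  let K := IntermediateField.adjoin (RatFunc F) (Set.range fun i => algebraMap A L (ξ i) ^ p ^ s)
  refine ⟨s, K, inferInstance, inferInstance, inferInstance, inferInstance,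
    IntermediateField.finiteDimensional_adjoin ?_,
    (IntermediateField.isSeparable_adjoin_iff_isSeparable _ _).2 ?_,
    fun i => ⟨_, IntermediateField.subset_adjoin _ _ ⟨i, rfl⟩⟩, L, inferInstance, inferInstance,
    IsScalarTower.toAlgHom _ A L, K.val.restrictScalars _, fun i => rfl⟩
  · rintro _ ⟨i, rfl⟩
    exact (hi i).pow _
  · rintro _ ⟨i, rfl⟩
    exact hn i s (Finset.le_sup (Finset.mem_univ i))

theorem move {F A K L : Type} [NormedField F] [CommRing A] [Field K] [Field L] [Algebra F[X] A]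
    [Algebra F[X] K] [Algebra F[X] L] (f : A →ₐ[F[X]] L) (g : K →ₐ[F[X]] L) {w : ℕ} {z : A}
    {y : K} (h : g y = f z) (hz : Bd F w z) : Bd F w y := by
  obtain ⟨χ, h1, h2, h3⟩ := hz
  refine ⟨χ, h1, (show Injective g from g.toRingHom.injective) ?_, h3⟩
  rw [← aeval_algHom_apply, h, aeval_algHom_apply, h2, map_zero, map_zero]

section
variable {F : Type} [NormedField F] [IsUltrametricDist F]

theorem mulsub {a b c d : F} {δ A B : ℝ} (hb : ‖b‖ ≤ A) (hc : ‖c‖ ≤ B) (h1 : ‖a - b‖ ≤ δ * A)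
    (h2 : ‖c - d‖ ≤ δ * B) : ‖a * c - b * d‖ ≤ δ * (A * B) := by
  have A0 := (norm_nonneg _).trans hb
  rw [show a * c - b * d = (a - b) * c + b * (c - d) by ring]
  refine Gs.add_le ?_ ?_ <;> rw [norm_mul]
  · exact (mul_le_mul h1 hc (norm_nonneg _) ((norm_nonneg _).trans h1)).trans_eq (by ring)
  · exact (mul_le_mul hb h2 (norm_nonneg _) A0).trans_eq (by ring)

theorem powsub {a b : F} {δ M : ℝ} (δ0 : 0 ≤ δ) (ha : ‖a‖ ≤ M) (hb : ‖b‖ ≤ M)
    (h : ‖a - b‖ ≤ δ * M) (k : ℕ) : ‖a ^ k - b ^ k‖ ≤ δ * M ^ k := by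
  induction k with
  | zero => simpa using δ0
  | succ k ih =>
    simp only [pow_succ]
    exact mulsub (by rw [norm_pow]; exact pow_le_pow_left₀ (norm_nonneg _) hb k) ha ih h

theorem evalsub {σ : Type} [Fintype σ] (P : MvPolynomial σ F) {e : ℕ} (he : P.totalDegree ≤ e)
    (hP : ∀ d, ‖P.coeff d‖ ≤ 1) {u v : σ → F} {δ M : ℝ} (δ0 : 0 ≤ δ) (M1 : 1 ≤ M)
    (hu : ∀ i, ‖u i‖ ≤ M) (hv : ∀ i, ‖v i‖ ≤ M) (h : ∀ i, ‖u i - v i‖ ≤ δ * M) :
    ‖MvPolynomial.eval u P - MvPolynomial.eval v P‖ ≤ δ * M ^ e := by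
  classical
  have key : ∀ (d : σ →₀ ℕ) (s : Finset σ),
      ‖∏ i ∈ s, u i ^ d i - ∏ i ∈ s, v i ^ d i‖ ≤ δ * M ^ ∑ i ∈ s, d i := fun d s => by
    induction s using Finset.induction_on with
    | empty => simpa using δ0
    | insert i s hi ih =>
      simp only [Finset.prod_insert hi, Finset.sum_insert hi, pow_add]
      refine mulsub (by rw [norm_pow]; exact pow_le_pow_left₀ (norm_nonneg _) (hv i) _) ?_
        (powsub δ0 (hu i) (hv i) (h i) _) ih
      rw [norm_prod, ← Finset.prod_pow_eq_pow_sum]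
      exact Finset.prod_le_prod (fun _ _ => norm_nonneg _) fun j _ => by
        rw [norm_pow]; exact pow_le_pow_left₀ (norm_nonneg _) (hu j) _
  rw [MvPolynomial.eval_eq, MvPolynomial.eval_eq, ← Finset.sum_sub_distrib]
  refine Gs.sum_le _ _ (by positivity) fun d hd => ?_
  rw [← mul_sub, norm_mul]
  refine (mul_le_of_le_one_left (norm_nonneg _) (hP d)).trans ((key d _).trans ?_)
  exact mul_le_mul_of_nonneg_left
    (pow_le_pow_right₀ M1 ((MvPolynomial.le_totalDegree hd).trans he)) δ0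

end

/-- Functions on an integral extension of `F[X]` whose values are bounded in terms of one of them. -/
theorem core (p : ℕ) [Fact p.Prime] {F A σ J : Type} [NontriviallyNormedField F]
    [IsUltrametricDist F] [IsAlgClosed F] [CharP F p] [CommRing A] [IsDomain A] [Algebra F[X] A]
    [Algebra.IsIntegral F[X] A] [Fintype σ] (h : Injective (algebraMap F[X] A)) (ξ : σ → A)
    (o : σ) (ho : ξ o = algebraMap F[X] A X) (P : J → MvPolynomial σ F) (e : J → ℕ) (a : F)
    (a0 : a ≠ 0) (s : ℕ)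
    (H : ∀ χ : A →+* F, (∀ c, χ (algebraMap F[X] A (C c)) = c) →
      (∀ i, ‖χ (ξ i)‖ ≤ max 1 ‖χ (ξ o)‖) ∧ ∀ k,
        ‖MvPolynomial.eval₂ (iterateFrobenius F p s) (χ ∘ ξ) (P k)‖ ≤
          ‖a‖ ^ p ^ s * max 1 ‖χ (ξ o)‖ ^ e k) :
    ∃ (s₁ : ℕ) (K : Type) (_ : Field K) (_ : Algebra F[X] K)
      (_ : Algebra (RatFunc F) K) (_ : IsScalarTower F[X] (RatFunc F) K)
      (_ : FiniteDimensional (RatFunc F) K) (_ : Algebra.IsSeparable (RatFunc F) K) (ζ : σ → K),
      ζ o = algebraMap F[X] K (X ^ p ^ s₁) ∧ (∀ i, Bd F (p ^ s₁) (ζ i)) ∧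
      ∀ k, Bd F (p ^ s₁ * e k)
        (MvPolynomial.eval₂ ((algebraMap F[X] K).comp (C.comp (iterateFrobenius F p (s + s₁)))) ζ
          (P k) / algebraMap F[X] K (C (a ^ p ^ (s + s₁)))) := by
  obtain ⟨s₁, K, _, _, _, _, _, _, ζ, L, _, _, f, g, hζ⟩ := sepK p h ξ
  have H' : ∀ (χ : A →+* F) (x : F), χ.comp (algebraMap F[X] A) = evalRingHom x →
      (∀ c, χ (algebraMap F[X] A (C c)) = c) ∧ χ (ξ o) = x := fun χ x hχ =>
    ⟨fun c => by simpa using RingHom.congr_fun hχ (C c),
      by simpa [ho] using RingHom.congr_fun hχ X⟩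
  refine ⟨s₁, K, inferInstance, inferInstance, inferInstance, inferInstance, inferInstance,
    inferInstance, ζ, (show Injective g from g.toRingHom.injective) ?_,
    fun i => ?_, fun k => ?_⟩
  · rw [hζ, ho]; simp
  · refine move f g (z := ξ i ^ p ^ s₁) (by rw [hζ, map_pow]) (Bdd.bd p h _ _ fun χ x hχ => ?_)
    obtain ⟨h1, rfl⟩ := H' χ x hχ
    rw [map_pow, norm_pow]
    exact pow_le_pow_left₀ (norm_nonneg _) ((H χ h1).1 i) _
  · refine move f g (z := MvPolynomial.eval₂
      ((algebraMap F[X] A).comp (C.comp (iterateFrobenius F p (s + s₁)))) (fun i => ξ i ^ p ^ s₁)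
      (P k) * algebraMap F[X] A (C (a ^ p ^ (s + s₁))⁻¹)) ?_ (Bdd.bd p h _ _ fun χ x hχ => ?_)
    · have e1 := MvPolynomial.eval₂_comp_left (g : K →+* L)
        ((algebraMap F[X] K).comp (C.comp (iterateFrobenius F p (s + s₁)))) ζ (P k)
      have e2 := MvPolynomial.eval₂_comp_left (f : A →+* L)
        ((algebraMap F[X] A).comp (C.comp (iterateFrobenius F p (s + s₁))))
        (fun i => ξ i ^ p ^ s₁) (P k)
      rw [← RingHom.comp_assoc _ (algebraMap _ _), AlgHom.comp_algebraMap] at e1 e2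
      have e3 : (g : K →+* L) ∘ ζ = (f : A →+* L) ∘ fun i => ξ i ^ p ^ s₁ := by
        ext i; simp [hζ]
      rw [div_eq_mul_inv, map_mul, map_mul, map_inv₀, AlgHom.commutes, AlgHom.commutes]
      congr 1
      · exact e1.trans (e3 ▸ e2.symm)
      · exact (map_inv₀ ((algebraMap F[X] L).comp C) _).symm
    · obtain ⟨h1, rfl⟩ := H' χ x hχ
      have e1 : χ.comp ((algebraMap F[X] A).comp (C.comp (iterateFrobenius F p (s + s₁)))) =
          (iterateFrobenius F p s₁).comp (iterateFrobenius F p s) := by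
        ext c
        rw [← iterateFrobenius_add, add_comm s₁]
        exact h1 _
      have e2 : (χ ∘ fun i => ξ i ^ p ^ s₁) = fun i => (χ ∘ ξ) i ^ p ^ s₁ := by
        ext i; simp
      have n0 : 0 < ‖a‖ := norm_pos_iff.2 a0
      rw [map_mul, h1, MvPolynomial.eval₂_comp_left, e1, e2, frob, norm_mul, norm_inv, norm_pow,
        norm_pow, ← div_eq_mul_inv, div_le_iff₀ (by positivity)]
      refine (pow_le_pow_left₀ (norm_nonneg _) ((H χ h1).2 k) _).trans_eq ?_
      rw [mul_pow, ← pow_mul, ← pow_mul, pow_add, mul_comm (e k), mul_comm]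

end Pool.Agent.MP_855f4c_ag.Pt.Cur

end

section

/-! h92c, section P: a generic solution of the tower. -/

open Polynomial Function

namespace Pool.Agent.MP_855f4c_ag.Pt

namespace Tow

variable {A Ω : Type} [CommRing A] [Field Ω] [Algebra A Ω]

/-- The elements that become integral after multiplication by a power of `t`. -/
def loc (Ω : Type) [Field Ω] [Algebra A Ω] (t : A) : Subalgebra A Ω where
  carrier := {s | ∃ k : ℕ, IsIntegral A (algebraMap A Ω t ^ k * s)}
  mul_mem' := by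
    rintro a b ⟨k, hk⟩ ⟨l, hl⟩
    refine ⟨k + l, ?_⟩
    have h : algebraMap A Ω t ^ (k + l) * (a * b) =
        (algebraMap A Ω t ^ k * a) * (algebraMap A Ω t ^ l * b) := by ring
    rw [h]
    exact hk.mul hl
  add_mem' := by
    rintro a b ⟨k, hk⟩ ⟨l, hl⟩
    refine ⟨k + l, ?_⟩
    have h : algebraMap A Ω t ^ (k + l) * (a + b) =
        algebraMap A Ω t ^ l * (algebraMap A Ω t ^ k * a) +
          algebraMap A Ω t ^ k * (algebraMap A Ω t ^ l * b) := by ring
    rw [h]
    exact ((isIntegral_algebraMap.pow l).mul hk).add ((isIntegral_algebraMap.pow k).mul hl)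
  algebraMap_mem' a := ⟨0, by simpa using isIntegral_algebraMap⟩

theorem le_loc (t : A) : integralClosure A Ω ≤ loc Ω t := fun s hs =>
  ⟨0, by rw [pow_zero, one_mul]; exact hs⟩

/-- A root of a polynomial over the integral closure. -/
theorem root [IsAlgClosed Ω] (P : (integralClosure A Ω)[X]) (h : 0 < P.natDegree) :
    ∃ z : Ω, aeval z P = 0 ∧ IsIntegral A ((P.leadingCoeff : Ω) * z) := by
  obtain ⟨z, hz⟩ := IsAlgClosed.exists_aeval_eq_zero_of_injective Ω
    (Subtype.val_injective : Injective (algebraMap (integralClosure A Ω) Ω)) P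
    (natDegree_pos_iff_degree_pos.mp h).ne'
  refine ⟨z, hz, ?_⟩
  have h1 := isIntegral_leadingCoeff_smul P z hz
  rw [Algebra.smul_def] at h1
  exact isIntegral_trans _ h1

theorem root_monic [IsAlgClosed Ω] (P : (integralClosure A Ω)[X]) (hP : P.Monic)
    (h : 0 < P.natDegree) : ∃ z : integralClosure A Ω, P.eval z = 0 := by
  obtain ⟨z, hz, hi⟩ := root P h
  rw [hP.leadingCoeff, OneMemClass.coe_one, one_mul] at hi
  refine ⟨⟨z, hi⟩, ?_⟩
  apply Subtype.val_injective
  have h1 := aeval_algebraMap_apply Ω (⟨z, hi⟩ : integralClosure A Ω) P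
  rw [coe_aeval_eq_eval] at h1
  exact h1.symm.trans hz

end Tow

open Tow in
theorem tow : TOW_s := by
  intro F ι _ _ d τ H L hd hd0 hτ hH hH0 hL
  let Ω := AlgebraicClosure (FractionRing F[X])
  have inj : Injective (algebraMap F[X] Ω) := by
    rw [IsScalarTower.algebraMap_eq F[X] (FractionRing F[X]) Ω]
    exact (algebraMap (FractionRing F[X]) Ω).injective.comp (IsFractionRing.injective _ _)
  have hT : algebraMap F[X] Ω X ≠ 0 := fun h => X_ne_zero (inj (h.trans (map_zero _).symm))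
  let O := integralClosure F[X] Ω
  let c : F →+* O := (algebraMap F[X] O).comp C
  have hdm : (d.map c).Monic := hd.map c
  have hdd : (d.map c).natDegree = d.natDegree := hd.natDegree_map c
  obtain ⟨x, hx⟩ := root_monic (d.map c - C (algebraMap F[X] O (C τ * X)))
    (hdm.sub_of_left (degree_C_le.trans_lt (natDegree_pos_iff_degree_pos.mp (hdd ▸ hd0))))
    (by rw [natDegree_sub_C, hdd]; exact hd0)
  let e1 : F[X] →+* O := eval₂RingHom c x
  have hx1 : e1 d = algebraMap F[X] O (C τ * X) := by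
    rw [eval_sub, eval_C, eval_map, sub_eq_zero] at hx
    exact hx
  obtain ⟨y, hy⟩ := root_monic (H.map e1) (hH.map e1) (by rw [hH.natDegree_map]; exact hH0)
  let e2 : F[X][X] →+* O := eval₂RingHom e1 y
  have hy1 : e2 H = 0 := by
    rw [eval_map] at hy
    exact hy
  have hlc : ∀ i, e2 (L i).leadingCoeff = algebraMap F[X] O (C τ * X) := fun i => by
    rw [(hL i).2, ← hx1]
    exact eval₂_C _ _
  have hne : algebraMap F[X] O (C τ * X) ≠ 0 := fun h => by
    have h1 : algebraMap F[X] Ω (C τ * X) = 0 := congrArg Subtype.val h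
    exact mul_ne_zero (C_ne_zero.mpr hτ) X_ne_zero (inj (h1.trans (map_zero _).symm))
  have hξ : ∀ i, ∃ z : loc Ω (X : F[X]), aeval (z : Ω) ((L i).map e2) = 0 := fun i => by
    have h0 : e2 (L i).leadingCoeff ≠ 0 := by rw [hlc]; exact hne
    obtain ⟨z, hz, hi⟩ := root ((L i).map e2)
      (by rw [natDegree_map_of_leadingCoeff_ne_zero _ h0]; exact (hL i).1)
    rw [leadingCoeff_map_of_leadingCoeff_ne_zero _ h0, hlc] at hi
    refine ⟨⟨z, 1, ?_⟩, hz⟩
    have h1 : algebraMap F[X] Ω X ^ 1 * z =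
        algebraMap F[X] Ω (C τ⁻¹) * (algebraMap F[X] Ω (C τ * X) * z) := by
      rw [← mul_assoc, ← map_mul, ← mul_assoc, ← C_mul, inv_mul_cancel₀ hτ, C_1, one_mul, pow_one]
    rw [h1]
    exact isIntegral_algebraMap.mul hi
  choose ξ hξ using hξ
  let j : O →ₐ[F[X]] loc Ω (X : F[X]) := Subalgebra.inclusion (le_loc X)
  refine ⟨loc Ω (X : F[X]), inferInstance, inferInstance, inferInstance, j x, j y, ξ,
    fun a b h => inj (congrArg Subtype.val h), ?_, ?_, ?_⟩
  · refine IsUnit.of_mul_eq_one ⟨(algebraMap F[X] Ω X)⁻¹, 1, ?_⟩ (Subtype.ext ?_)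
    · rw [pow_one, mul_inv_cancel₀ hT]
      exact isIntegral_one
    · exact mul_inv_cancel₀ hT
  · rintro ⟨s, k, hk⟩
    exact ⟨k, (isIntegral_algHom_iff (loc Ω (X : F[X])).val Subtype.val_injective).mp hk⟩
  · intro φ u hφ
    have hφ' : ∀ f, φ (j (algebraMap F[X] O f)) = f.eval u := fun f => by
      rw [j.commutes]
      exact RingHom.congr_fun hφ f
    have h1 : (φ.comp (j : O →+* _)).comp e1 = evalRingHom (φ (j x)) := by
      refine ringHom_ext (fun a => ?_) ?_
      · have h : e1 (C a) = algebraMap F[X] O (C a) := eval₂_C _ _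
        show φ (j (e1 (C a))) = Polynomial.eval _ (C a)
        rw [h, hφ', eval_C, eval_C]
      · have h : e1 X = x := eval₂_X _ _
        show φ (j (e1 X)) = Polynomial.eval _ X
        rw [h, eval_X]
    have h2 : (φ.comp (j : O →+* _)).comp e2 = evalEvalRingHom (φ (j x)) (φ (j y)) := by
      refine ringHom_ext (fun a => ?_) ?_
      · have h : e2 (C a) = e1 a := eval₂_C _ _
        show φ (j (e2 (C a))) = evalEval _ _ (C a)
        rw [h, evalEval_C]
        exact RingHom.congr_fun h1 a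
      · have h : e2 X = y := eval₂_X _ _
        show φ (j (e2 X)) = evalEval _ _ X
        rw [h, evalEval_X]
    refine ⟨?_, ?_, fun i => ?_⟩
    · have h : φ (j (e1 d)) = d.eval (φ (j x)) := RingHom.congr_fun h1 d
      rw [← h, hx1, hφ', eval_mul, eval_C, eval_X]
    · have h : φ (j (e2 H)) = H.evalEval (φ (j x)) (φ (j y)) := RingHom.congr_fun h2 H
      rw [← h, hy1, map_zero, map_zero]
    · have h : eval₂ ((j : O →+* _).comp e2) (ξ i) (L i) = 0 := by
        apply Subtype.val_injective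
        have h3 := hom_eval₂ (L i) ((j : O →+* _).comp e2)
          (loc Ω (X : F[X])).val.toRingHom (ξ i)
        have h4 := hξ i
        rw [aeval_def, eval₂_map] at h4
        exact h3.trans h4
      rw [eval_map, ← h2, RingHom.comp_assoc, ← hom_eval₂, h, map_zero]

end Pool.Agent.MP_855f4c_ag.Pt

end

section

open Polynomial

namespace Pool.Agent.MP_855f4c_ag.Pat

/-- Patching: `S = O[1/T]` is a finite cover of the punctured line with symmetries `σ`, the
functions `w` take values in finitely many `ρ`-balls over the unit circle. Then a cover `A` of the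
affine line carries functions `ξ` close to the values of `w ^ q` over `|T| ≥ 1`. -/
def PATCH_s : Prop := ∀ (p : ℕ) [Fact p.Prime] (F : Type) [NontriviallyNormedField F]
  [IsUltrametricDist F] [CompleteSpace F] [IsAlgClosed F] [CharP F p]
  (S J G ι : Type) [CommRing S] [IsDomain S] [Algebra F S] [Fintype J] [DecidableEq J] [Fintype G]
  [Nonempty G] [Fintype ι] (T : Sˣ) (O : Subalgebra F S) (hT : (T : S) ∈ O)
  (β : Module.Basis (ℤ × J) F S) (σ : G → S →ₐ[F] S) (η : J → S) (Δ : F[X]) (w : ι → S) (ρ : ℝ)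
  (Λ : Finset (ι → F)),
    (∀ i j, β (i, j) = ((T ^ i : Sˣ) : S) * β (0, j)) →
    O.toSubmodule = Submodule.span F (β '' {x | 0 ≤ x.1}) → (∀ g, σ g T = T) →
    (∀ s, ∃ (k : ℕ) (f : F[X]), (T : S) ^ k * ∏ g, σ g s = aeval (T : S) f) → Δ ≠ 0 →
    (∀ i j, ∑ g, σ g (β (0, i) * η j) = if i = j then aeval (T : S) Δ else 0) →
    (∀ t : F, ‖t‖ = 1 → ∃ ψ : S →ₐ[F] F, ψ T = t) → 0 < ρ →
    (∀ ψ : S →ₐ[F] F, ‖ψ T‖ = 1 → ∃ c ∈ Λ, ∀ i, ‖ψ (w i) - c i‖ ≤ ρ) →
    ∃ (C : ℝ) (m : ℕ), ∀ e : ℕ, ∃ (A : Type) (_ : CommRing A) (_ : IsDomain A) (_ : Algebra F A)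
      (a : O →ₐ[F] A) (ξ : ι → A), Function.Injective a ∧ (a : O →+* A).IsIntegral ∧
        ∀ (P : MvPolynomial ι F) (χ : A →ₐ[F] F), ∃ (ψ : S →ₐ[F] F) (v : ι → F),
          χ (MvPolynomial.aeval ξ P) = MvPolynomial.eval v P ∧
          ‖ψ T‖ = max 1 ‖χ (a ⟨T, hT⟩)‖ ∧
          ∀ i, ‖v i - ψ (w i) ^ p ^ e‖ ≤ C * ρ ^ p ^ e * ‖ψ T‖ ^ m

end Pool.Agent.MP_855f4c_ag.Pat

end

section

open Polynomial Function

namespace Pool.Agent.MP_855f4c_ag.Pt.Gal

/-- The Galois closure of a generic solution, in the shape required for patching. -/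
def GAL_s : Prop := ∀ (p : ℕ) [Fact p.Prime] (F : Type) [Field F] [IsAlgClosed F] [CharP F p]
  (S ι : Type) [CommRing S] [IsDomain S] [Algebra F[X] S] [Fintype ι] (x : ι → S),
    Injective (algebraMap F[X] S) →
    (∀ s : S, ∃ k, IsIntegral F[X] (algebraMap F[X] S X ^ k * s)) →
    ∃ (R J G : Type) (_ : CommRing R) (_ : IsDomain R) (_ : Algebra F R) (_ : Fintype J)
      (_ : DecidableEq J) (_ : Fintype G) (_ : Nonempty G) (T : Rˣ) (O : Subalgebra F R)
      (hT : (T : R) ∈ O) (β : Module.Basis (ℤ × J) F R) (σ : G → R →ₐ[F] R) (η : J → R)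
      (Δ : F[X]) (w : ι → R) (n : ℕ),
      (∀ i j, β (i, j) = ((T ^ i : Rˣ) : R) * β (0, j)) ∧
      O.toSubmodule = Submodule.span F (β '' {x | 0 ≤ x.1}) ∧ (∀ g, σ g T = T) ∧
      (∀ s, ∃ (k : ℕ) (f : F[X]), (T : R) ^ k * ∏ g, σ g s = aeval (T : R) f) ∧ Δ ≠ 0 ∧
      (∀ i j, ∑ g, σ g (β (0, i) * η j) = if i = j then aeval (T : R) Δ else 0) ∧
      (∀ t : F, t ≠ 0 → ∃ ψ : R →ₐ[F] F, ψ T = t) ∧
      Injective (aeval (⟨T, hT⟩ : O) : F[X] →ₐ[F] O) ∧
      ((aeval (⟨T, hT⟩ : O) : F[X] →ₐ[F] O) : F[X] →+* O).IsIntegral ∧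
      ∀ ψ : R →ₐ[F] F, ∃ φ : S →+* F, φ.comp (algebraMap F[X] S) = evalRingHom (ψ T) ∧
        ∀ i, ψ (w i) = φ (x i) ^ p ^ n

end Pool.Agent.MP_855f4c_ag.Pt.Gal

end

section

open Polynomial Function

namespace Pool.Agent.MP_855f4c_ag.Pt.Gal

/-- Elements that become integral after multiplication by a power of `X`. -/
def RR (F L : Type) [Field F] [CommRing L] [Algebra F[X] L] : Subalgebra F[X] L where
  carrier := {u | ∃ k : ℕ, IsIntegral F[X] (algebraMap F[X] L X ^ k * u)}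
  mul_mem' := by
    rintro a b ⟨k, ha⟩ ⟨l, hb⟩
    exact ⟨k + l, by rw [pow_add, mul_mul_mul_comm]; exact ha.mul hb⟩
  add_mem' := by
    rintro a b ⟨k, ha⟩ ⟨l, hb⟩
    refine ⟨k + l, ?_⟩
    have := ((isIntegral_algebraMap (R := F[X]) (A := L) (x := X)).pow l).mul ha |>.add
      (((isIntegral_algebraMap (R := F[X]) (A := L) (x := X)).pow k).mul hb)
    rwa [show algebraMap F[X] L X ^ l * (algebraMap F[X] L X ^ k * a) +
      algebraMap F[X] L X ^ k * (algebraMap F[X] L X ^ l * b) =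
      algebraMap F[X] L X ^ (k + l) * (a + b) by ring] at this
  algebraMap_mem' r := ⟨0, by rw [pow_zero, one_mul]; exact isIntegral_algebraMap⟩

lemma li_zpow (F : Type) [Field F] :
    LinearIndependent F (fun k : ℤ => (RatFunc.X : RatFunc F) ^ k) := by
  classical
  rw [linearIndependent_iff']
  intro s g h i hi
  obtain ⟨N, hN⟩ : ∃ N : ℕ, ∀ k ∈ s, 0 ≤ k + N := by
    refine ⟨s.sup fun k => k.natAbs, fun k hk => ?_⟩
    have : k.natAbs ≤ s.sup fun k => k.natAbs := Finset.le_sup (f := fun k : ℤ => k.natAbs) hk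
    omega
  have h1 : algebraMap F[X] (RatFunc F) (∑ k ∈ s, monomial (k + N).toNat (g k)) = 0 := by
    have := congrArg (· * (RatFunc.X : RatFunc F) ^ (N : ℤ)) h
    simp only [zero_mul, Finset.sum_mul] at this
    rw [map_sum, ← this]
    refine Finset.sum_congr rfl fun k hk => ?_
    rw [← C_mul_X_pow_eq_monomial, map_mul, map_pow, RatFunc.algebraMap_X, RatFunc.algebraMap_C,
      smul_mul_assoc, ← zpow_add₀ RatFunc.X_ne_zero, ← zpow_natCast, Int.toNat_of_nonneg (hN k hk),
      RatFunc.smul_eq_C_mul]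
  have h2 := congrArg (coeff · (i + N).toNat)
    ((map_eq_zero_iff _ (IsFractionRing.injective F[X] (RatFunc F))).1 h1)
  simp only [finsetSum_coeff, coeff_monomial, coeff_zero] at h2
  rw [Finset.sum_eq_single i] at h2
  · simpa using h2
  · intro k hk hne
    have := hN k hk
    have := hN i hi
    rw [if_neg (by omega)]
  · exact fun h => (h hi).elim

section
variable (F L : Type) [Field F] [Field L] [Algebra F[X] L] [Algebra (RatFunc F) L]
  [IsScalarTower F[X] (RatFunc F) L]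

lemma inj : Injective (algebraMap F[X] L) := by
  rw [IsScalarTower.algebraMap_eq F[X] (RatFunc F) L]
  exact (algebraMap (RatFunc F) L).injective.comp (IsFractionRing.injective F[X] (RatFunc F))

lemma tne : algebraMap F[X] L X ≠ 0 := (map_ne_zero_iff _ (inj F L)).2 X_ne_zero

/-- The parameter as a unit. -/
noncomputable def TT : (RR F L)ˣ where
  val := algebraMap F[X] _ X
  inv := ⟨(algebraMap F[X] L X)⁻¹, 1, by
    rw [pow_one, mul_inv_cancel₀ (tne F L)]; exact isIntegral_one⟩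
  val_inv := Subtype.ext (mul_inv_cancel₀ (tne F L))
  inv_val := Subtype.ext (inv_mul_cancel₀ (tne F L))

lemma TT_zpow (k : ℤ) : ((((TT F L) ^ k : (RR F L)ˣ) : RR F L) : L) =
    algebraMap (RatFunc F) L (RatFunc.X ^ k) := by
  have h : algebraMap (RatFunc F) L RatFunc.X = algebraMap F[X] L X := by
    rw [IsScalarTower.algebraMap_apply F[X] (RatFunc F) L, RatFunc.algebraMap_X]
  have := map_zpow (Units.map ((RR F L).val : RR F L →* L)) (TT F L) k
  have := congrArg Units.val this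
  rw [Units.val_zpow_eq_zpow_val] at this
  rw [map_zpow₀, h]
  exact this

omit [Algebra (RatFunc F) L] [IsScalarTower F[X] (RatFunc F) L] in
lemma le_RR : integralClosure F[X] L ≤ RR F L := fun u hu => ⟨0, by rw [pow_zero, one_mul]; exact hu⟩

/-- The action of the Galois group. -/
noncomputable def act (g : Gal(L/RatFunc F)) : RR F L →ₐ[F[X]] RR F L :=
  ((g.toAlgHom.restrictScalars F[X]).comp (RR F L).val).codRestrict _ (by
    rintro ⟨u, k, hu⟩
    refine ⟨k, ?_⟩
    have := hu.map (g.toAlgHom.restrictScalars F[X])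
    rwa [map_mul, map_pow, AlgHom.commutes] at this)

lemma act_val (g : Gal(L/RatFunc F)) (u : RR F L) : (act F L g u : L) = g u := rfl

lemma inv_laurent [FiniteDimensional (RatFunc F) L] [IsGalois (RatFunc F) L] (u : RR F L)
    (h : ∀ g, act F L g u = u) :
    ∃ (f : F[X]) (k : ℕ), algebraMap F[X] (RR F L) X ^ k * u = algebraMap F[X] _ f := by
  obtain ⟨e, he⟩ := (IsGalois.mem_range_algebraMap_iff_fixed (F := RatFunc F) (u : L)).2
    fun g => congrArg Subtype.val (h g)
  obtain ⟨k, hk⟩ := u.2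
  rw [← he, IsScalarTower.algebraMap_apply F[X] (RatFunc F) L, ← map_pow, ← map_mul,
    isIntegral_algebraMap_iff (algebraMap (RatFunc F) L).injective,
    IsIntegrallyClosed.isIntegral_iff] at hk
  obtain ⟨f, hf⟩ := hk
  refine ⟨f, k, Subtype.ext ?_⟩
  change algebraMap F[X] L X ^ k * (u : L) = algebraMap F[X] L f
  rw [← he, IsScalarTower.algebraMap_apply F[X] (RatFunc F) L f, hf, map_mul, map_pow,
    ← IsScalarTower.algebraMap_apply]

lemma ext_char {A A' F : Type} [CommRing A] [CommRing A'] [Field F] [IsAlgClosed F]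
    (f : A →+* A') (hi : Injective f) (hf : f.IsIntegral) (χ : A →+* F) :
    ∃ ψ : A' →+* F, ψ.comp f = χ := by
  let := f.toAlgebra
  have : Algebra.IsIntegral A A' := ⟨hf⟩
  have := RingHom.ker_isPrime χ
  obtain ⟨Q, -, hQ, h⟩ := Ideal.exists_ideal_over_prime_of_isIntegral (RingHom.ker χ)
    (⊥ : Ideal A') (by
      exact ((RingHom.injective_iff_ker_eq_bot f).1 hi).le.trans bot_le)
  let χ' : A ⧸ Q.comap (algebraMap A A') →+* F :=
    Ideal.Quotient.lift _ χ fun a ha => by rwa [h] at ha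
  have hχ' : Injective χ' := by
    rw [injective_iff_map_eq_zero]
    intro a ha
    obtain ⟨a, rfl⟩ := Ideal.Quotient.mk_surjective a
    rw [Ideal.Quotient.eq_zero_iff_mem, h]
    exact ha
  let := χ'.toAlgebra
  have : FaithfulSMul (A ⧸ Q.comap (algebraMap A A')) F :=
    (faithfulSMul_iff_algebraMap_injective _ _).2 hχ'
  have : FaithfulSMul (A ⧸ Q.comap (algebraMap A A')) (A' ⧸ Q) :=
    (faithfulSMul_iff_algebraMap_injective _ _).2 Ideal.algebraMap_quotient_injective
  let l : (A' ⧸ Q) →ₐ[A ⧸ Q.comap (algebraMap A A')] F := IsAlgClosed.lift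
  refine ⟨l.toRingHom.comp (Ideal.Quotient.mk Q), RingHom.ext fun a => ?_⟩
  exact l.commutes (Ideal.Quotient.mk _ a)

variable [Algebra F L] [IsScalarTower F F[X] L]

lemma aeval_TT (f : F[X]) : aeval ((TT F L : (RR F L)ˣ) : RR F L) f = algebraMap F[X] _ f := by
  change aeval (algebraMap F[X] (RR F L) X) f = _
  rw [aeval_algebraMap_apply, aeval_X_left_apply]

lemma basis [FiniteDimensional (RatFunc F) L] [Algebra.IsSeparable (RatFunc F) L] {J : Type}
    (ω : Module.Basis J F[X] (integralClosure F[X] L)) :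
    ∃ β : Module.Basis (ℤ × J) F (RR F L),
      (∀ i j, β (i, j) = ((TT F L ^ i : (RR F L)ˣ) : RR F L) *
        Subalgebra.inclusion (le_RR F L) (ω j)) ∧
      ∀ u : RR F L, IsIntegral F[X] (u : L) ↔ u ∈ Submodule.span F (β '' {x | 0 ≤ x.1}) := by
  have : IsScalarTower F (RatFunc F) L := IsScalarTower.of_algebraMap_eq fun a => by
    rw [IsScalarTower.algebraMap_apply F F[X] L, IsScalarTower.algebraMap_apply F F[X] (RatFunc F),
      ← IsScalarTower.algebraMap_apply F[X] (RatFunc F) L]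
  have := IsIntegralClosure.isLocalization F[X] (RatFunc F) L (integralClosure F[X] L)
  let b := ω.localizationLocalization (RatFunc F) (nonZeroDivisors F[X]) L
  let v : ℤ × J → RR F L := fun x => ((TT F L ^ x.1 : (RR F L)ˣ) : RR F L) *
    Subalgebra.inclusion (le_RR F L) (ω x.2)
  have hli : LinearIndependent F v := by
    refine LinearIndependent.of_comp ((RR F L).val.restrictScalars F).toLinearMap ?_
    have h := linearIndependent_smul (li_zpow F) b.linearIndependent
    refine (congrArg (fun f : ℤ × J → L => LinearIndependent F f) (funext fun x => ?_)).mp h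
    rw [Algebra.smul_def, ← TT_zpow, Module.Basis.localizationLocalization_apply]
    rfl
  have key : ∀ (N : ℕ) (o : integralClosure F[X] L),
      ((TT F L ^ (-(N : ℤ)) : (RR F L)ˣ) : RR F L) * Subalgebra.inclusion (le_RR F L) o ∈
        Submodule.span F (v '' {x | -(N : ℤ) ≤ x.1}) := by
    intro N o
    have ho : o ∈ Submodule.span F[X] (Set.range ω) := by rw [ω.span_eq]; trivial
    obtain ⟨c, rfl⟩ := (Finsupp.mem_span_range_iff_exists_finsupp).1 ho
    rw [Finsupp.sum, map_sum, Finset.mul_sum]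
    refine Submodule.sum_mem _ fun j _ => ?_
    rw [map_smul]
    induction c j using Polynomial.induction_on' with
    | add f g hf hg => rw [add_smul, mul_add]; exact add_mem hf hg
    | monomial n a =>
      rw [← C_mul_X_pow_eq_monomial, mul_smul, ← algebraMap_eq, algebraMap_smul, mul_smul_comm]
      refine Submodule.smul_mem _ _ (Submodule.subset_span ⟨(-(N : ℤ) + n, j), by simp, ?_⟩)
      simp only [v]
      rw [zpow_add, zpow_natCast, Units.val_mul, Units.val_pow_eq_pow_val, mul_assoc,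
        Algebra.smul_def, map_pow]
      rfl
  have hsp : ⊤ ≤ Submodule.span F (Set.range v) := by
    rintro ⟨u, k, hu⟩ -
    refine Submodule.span_mono (Set.image_subset_range _ _) (?_ : _ ∈ Submodule.span F
      (v '' {x | -(k : ℤ) ≤ x.1}))
    refine (congrArg (· ∈ _) (Eq.symm ?_)).mp (key k ⟨_, hu⟩)
    rw [zpow_neg, zpow_natCast, Units.eq_inv_mul_iff_mul_eq, Units.val_pow_eq_pow_val]
    rfl
  refine ⟨Module.Basis.mk hli hsp, fun i j => Module.Basis.mk_apply _ _ _, fun u => ?_⟩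
  rw [Module.Basis.coe_mk]
  refine ⟨fun hu => by simpa using key 0 ⟨u, hu⟩, fun hu => ?_⟩
  induction hu using Submodule.span_induction with
  | mem y hy =>
    obtain ⟨⟨i, j⟩, hi, rfl⟩ := hy
    obtain ⟨n, rfl⟩ := Int.eq_ofNat_of_zero_le (show 0 ≤ i from hi)
    simp only [v]
    rw [zpow_natCast, Units.val_pow_eq_pow_val]
    exact ((isIntegral_algebraMap (R := F[X]) (A := L) (x := X)).pow n).mul (ω j).2
  | zero => exact isIntegral_zero
  | add a b _ _ ha hb => exact ha.add hb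
  | smul a y _ hy =>
    rw [← algebraMap_smul F[X] a y]
    exact hy.smul _

omit [Algebra F L] [IsScalarTower F F[X] L] in
lemma dual [FiniteDimensional (RatFunc F) L] [IsGalois (RatFunc F) L] {J : Type} [Fintype J]
    [DecidableEq J] (ω : Module.Basis J F[X] (integralClosure F[X] L)) :
    ∃ (η : J → RR F L) (Δ : F[X]), Δ ≠ 0 ∧ ∀ i j, ∑ g, act F L g
      (Subalgebra.inclusion (le_RR F L) (ω i) * η j) =
        if i = j then algebraMap F[X] _ Δ else 0 := by
  classical
  have := IsIntegralClosure.isLocalization F[X] (RatFunc F) L (integralClosure F[X] L)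
  let b := ω.localizationLocalization (RatFunc F) (nonZeroDivisors F[X]) L
  obtain ⟨Δ, h0, hΔ⟩ := exists_integral_multiples F[X] (RatFunc F)
    (Finset.univ.image b.traceDual)
  refine ⟨fun j => ⟨Δ • b.traceDual j, le_RR F L (hΔ _ (by simp))⟩, Δ, h0, fun i j => ?_⟩
  apply Subtype.ext
  have h1 := trace_eq_sum_automorphisms (K := RatFunc F)
    (algebraMap F[X] (RatFunc F) Δ • (b i * b.traceDual j))
  rw [map_smul, Module.Basis.trace_mul_traceDual] at h1
  rw [AddSubmonoidClass.coe_finsetSum]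
  have h2 : ∀ g, ((act F L g (Subalgebra.inclusion (le_RR F L) (ω i) *
      ⟨Δ • b.traceDual j, le_RR F L (hΔ _ (by simp))⟩) : RR F L) : L) =
      g (algebraMap F[X] (RatFunc F) Δ • (b i * b.traceDual j)) := fun g => by
    rw [act_val, algebraMap_smul, ← mul_smul_comm, Module.Basis.localizationLocalization_apply]
    rfl
  rw [Finset.sum_congr rfl fun g _ => h2 g, ← h1]
  split_ifs
  · rw [smul_eq_mul, mul_one, ← IsScalarTower.algebraMap_apply]; rfl
  · simp

lemma chars [IsAlgClosed F] (t : F) (ht : t ≠ 0) :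
    ∃ ψ : RR F L →ₐ[F] F, ψ (TT F L : (RR F L)ˣ) = t := by
  let : Algebra (integralClosure F[X] L) (RR F L) :=
    (Subalgebra.inclusion (le_RR F L)).toRingHom.toAlgebra
  have : IsLocalization.Away (algebraMap F[X] (integralClosure F[X] L) X) (RR F L) := by
    refine IsLocalization.Away.mk _ (TT F L).isUnit ?_ ?_
    · rintro ⟨u, k, hu⟩
      exact ⟨k, ⟨_, hu⟩, Subtype.ext (mul_comm _ _)⟩
    · intro a b h
      exact ⟨0, by rw [Subalgebra.inclusion_injective _ h]⟩
  obtain ⟨χ, hχ⟩ := ext_char (algebraMap F[X] (integralClosure F[X] L))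
    (fun a b h => inj F L (congrArg Subtype.val h))
    (fun o => integralClosure.isIntegral o) (evalRingHom t)
  have hX : χ (algebraMap F[X] _ X) = t := by simpa using RingHom.congr_fun hχ X
  let ψ : RR F L →+* F := IsLocalization.Away.lift (algebraMap F[X] (integralClosure F[X] L) X)
    (g := χ) (by rw [hX]; exact ht.isUnit)
  have hψ : ∀ f : F[X], ψ (algebraMap F[X] _ f) = f.eval t := fun f => by
    have := IsLocalization.Away.lift_eq (S := RR F L)
      (algebraMap F[X] (integralClosure F[X] L) X) (g := χ) (by rw [hX]; exact ht.isUnit)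
      (algebraMap F[X] _ f)
    exact this.trans (RingHom.congr_fun hχ f)
  refine ⟨{ ψ with commutes' := fun a => ?_ }, (hψ X).trans eval_X⟩
  rw [IsScalarTower.algebraMap_apply F F[X] (RR F L)]
  exact (hψ (C a)).trans eval_C

end

theorem gal : GAL_s := by
  intro p _ F _ _ _ S ι _ _ _ _ x hinj hint
  classical
  let E := RatFunc F
  let Ω := AlgebraicClosure E
  have hΩ : Injective (algebraMap F[X] Ω) := inj F Ω
  have := (faithfulSMul_iff_algebraMap_injective F[X] S).2 hinj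
  have := (faithfulSMul_iff_algebraMap_injective F[X] Ω).2 hΩ
  have : Algebra.IsAlgebraic F[X] S := ⟨fun s => by
    obtain ⟨k, hk⟩ := hint s
    rw [← map_pow, ← Algebra.smul_def] at hk
    exact IsAlgebraic.of_smul_isIntegral
      (fun h => pow_ne_zero k X_ne_zero (isNilpotent_iff_eq_zero.1 h)) hk⟩
  let j : S →ₐ[F[X]] Ω := IsAlgClosed.lift
  have hj : ∀ s, j s ∈ RR F Ω := fun s => by
    obtain ⟨k, hk⟩ := hint s
    refine ⟨k, ?_⟩
    have := hk.map j
    rwa [map_mul, map_pow, AlgHom.commutes] at this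
  let K := separableClosure E Ω
  have : CharP E p := charP_of_injective_algebraMap (algebraMap F E).injective p
  have : CharP K p := charP_of_injective_algebraMap (algebraMap E K).injective p
  have : ExpChar K p := ExpChar.prime Fact.out
  choose m y hy using fun i => IsPurelyInseparable.pow_mem K p (j (x i))
  let n := Finset.univ.sup m
  let y' : ι → K := fun i => y i ^ p ^ (n - m i)
  have hy' : ∀ i, (y' i : Ω) = j (x i) ^ p ^ n := fun i => by
    have h : m i ≤ n := Finset.le_sup (Finset.mem_univ i)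
    change algebraMap K Ω (y i ^ p ^ (n - m i)) = _
    rw [map_pow, hy, ← pow_mul, ← pow_add, Nat.add_sub_cancel' h]
  let L' := FiniteGaloisIntermediateField.adjoin E (Set.range y')
  let L := L'.toIntermediateField
  let e : L →ₐ[F[X]] Ω := ((K.val.comp L.val).restrictScalars F[X])
  have he : Injective e := e.toRingHom.injective
  have hR : ∀ u : L, u ∈ RR F L ↔ e u ∈ RR F Ω := fun u => exists_congr fun k => by
    rw [← isIntegral_algHom_iff e he, map_mul, map_pow, AlgHom.commutes]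
  let w : ι → RR F L := fun i => ⟨⟨y' i, FiniteGaloisIntermediateField.subset_adjoin E _ ⟨i, rfl⟩⟩,
    (hR _).2 (by
      change (y' i : Ω) ∈ _
      rw [hy']
      exact pow_mem (hj _) _)⟩
  have : IsScalarTower F F[X] L := IsScalarTower.of_algebraMap_eq fun a => he (by
    rw [e.commutes, ← IsScalarTower.algebraMap_apply]; rfl)
  have := (faithfulSMul_iff_algebraMap_injective F[X] L).2 (inj F L)
  have := IsIntegralClosure.module_free F[X] E L (integralClosure F[X] L)
  have := IsIntegralClosure.finite F[X] E L (integralClosure F[X] L)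
  let ω := Module.Free.chooseBasis F[X] (integralClosure F[X] L)
  obtain ⟨β, hβ, hO⟩ := basis F L ω
  obtain ⟨η, Δ, h0, hη⟩ := dual F L ω
  let O : Subalgebra F (RR F L) :=
    ((integralClosure F[X] L).comap (RR F L).val).restrictScalars F
  have hT : ((TT F L : (RR F L)ˣ) : RR F L) ∈ O :=
    isIntegral_algebraMap (R := F[X]) (A := L) (x := X)
  have hae : ∀ f : F[X], (((aeval (⟨_, hT⟩ : O) f : O) : RR F L) : L) = algebraMap F[X] L f :=
    fun f => by
      rw [← Subalgebra.aeval_coe]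
      exact congrArg Subtype.val (aeval_TT F L f)
  refine ⟨RR F L, _, Gal(L/E), inferInstance, inferInstance, inferInstance, inferInstance,
    inferInstance, inferInstance, inferInstance, TT F L, O, hT, β,
    fun g => (act F L g).restrictScalars F, η, Δ, w, n, fun i j => ?_, Submodule.ext hO,
    fun g => (act F L g).commutes X, fun s => ?_, h0, fun i j => ?_, chars F L,
    fun a b h => inj F L ?_, fun o => ?_, fun ψ => ?_⟩
  · rw [hβ, hβ, zpow_zero, Units.val_one, one_mul]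
  · obtain ⟨f, k, h⟩ := inv_laurent F L (∏ g, act F L g s) fun g => by
      rw [map_prod]
      exact Fintype.prod_equiv (Equiv.mulLeft g) _ _ fun _ => rfl
    exact ⟨k, f, h.trans (aeval_TT F L f).symm⟩
  · rw [hβ, zpow_zero, Units.val_one, one_mul, aeval_TT]
    exact hη i j
  · rw [← hae, ← hae, h]
  · obtain ⟨q, hq, h⟩ : IsIntegral F[X] ((o : RR F L) : L) := o.2
    refine ⟨q, hq, Subtype.ext (Subtype.ext ?_)⟩
    have := hom_eval₂ q ((aeval (⟨_, hT⟩ : O) : F[X] →ₐ[F] O) : F[X] →+* O)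
      ((RR F L).val.toRingHom.comp O.val.toRingHom) o
    refine this.trans (Eq.trans ?_ h)
    exact congrArg (eval₂ · _ q) (RingHom.ext hae)
  · let r : RR F L →ₐ[F[X]] RR F Ω :=
      (e.comp (RR F L).val).codRestrict _ fun u => (hR u).1 u.2
    have hr : Injective r := fun a b h => Subtype.ext (he (congrArg (RR F Ω).val h))
    obtain ⟨χ, hχ⟩ := ext_char r.toRingHom hr (fun u => by
      let := r.toRingHom.toAlgebra
      have : IsScalarTower F[X] (RR F L) (RR F Ω) :=
        IsScalarTower.of_algebraMap_eq fun a => (r.commutes a).symm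
      obtain ⟨k, hk⟩ := u.2
      have h1 : IsIntegral F[X] (algebraMap F[X] (RR F Ω) X ^ k * u) :=
        (isIntegral_algHom_iff (RR F Ω).val Subtype.val_injective).1 hk
      have h2 : IsIntegral (RR F L) (algebraMap F[X] (RR F Ω) X ^ k * u) := h1.tower_top
      have h3 := (isIntegral_algebraMap (R := RR F L) (A := RR F Ω)
        (x := ((TT F L)⁻¹ : (RR F L)ˣ) ^ k)).mul h2
      rwa [IsScalarTower.algebraMap_apply F[X] (RR F L) (RR F Ω), ← map_pow, ← mul_assoc, ← map_mul,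
        ← mul_pow, show (((TT F L)⁻¹ : (RR F L)ˣ) : RR F L) * algebraMap F[X] (RR F L) X = 1 from
          (TT F L).inv_mul, one_pow, map_one, one_mul] at h3) (ψ : RR F L →+* F)
    let j' : S →ₐ[F[X]] RR F Ω := j.codRestrict _ hj
    refine ⟨χ.comp j'.toRingHom, RingHom.ext fun f => ?_, fun i => ?_⟩
    · change χ (j' (algebraMap F[X] S f)) = eval _ f
      rw [j'.commutes, ← r.commutes, ← aeval_TT, ← coe_aeval_eq_eval, aeval_algHom_apply]
      exact RingHom.congr_fun hχ _
    · change _ = χ (j' (x i)) ^ p ^ n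
      rw [← map_pow, ← map_pow]
      refine (RingHom.congr_fun hχ (w i)).symm.trans (congrArg χ (Subtype.ext ?_))
      exact (hy' i).trans (map_pow j _ _).symm

end Pool.Agent.MP_855f4c_ag.Pt.Gal

end
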