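import Pool.Agent.MP_855f4c_ag.CC.Cd

set_option linter.all false

section

section
/-! h92c section E: the model of a nodal curve, definitions and statements. -/

open MvPolynomial

namespace Pool.Agent.MP_855f4c_ag.Cu.Md

open T

/-- Polynomials in `X0, X1` and `η`. -/
abbrev P3 (R : Type) [CommRing R] : Type := MvPolynomial (Option (Fin 2)) R

/-- The lines `x, u, v` and `z j`. -/
abbrev KC (δ : ℕ) : Type := Fin 3 ⊕ Fin δ

/-- The forms `G` and `Z1, Z2, Z3` at each node. -/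
abbrev EO (δ : ℕ) : Type := Option (Fin δ × Fin 3)

/-- The equations: the link, and the forms in two charts. -/
abbrev EI (δ : ℕ) : Type := Option (Fin 2 × EO δ)

/-- The subsystems. -/
abbrev SI (δ : ℕ) : Type := Fin 2 ⊕ Fin δ × Fin 2

/-- Homogeneous of weight `n`, where `η` has weight `k`. -/
abbrev Wh {R : Type} [CommRing R] (k n : ℕ) (P : P3 R) : Prop :=
  P.IsWeightedHomogeneous (fun o => o.elim k fun _ => 1) n

/-- The point `(X0, X1, η)`. -/
def p3 {D : Type} (X : Fin 2 → D) (η : D) : Option (Fin 2) → D := fun o => o.elim η X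

/-- A plane curve with decompositions at the nodes. -/
structure Dat (R : Type) [CommRing R] (k N δ w : ℕ) where
  G : P3 R
  xn : Fin δ → R
  yn : Fin δ → R
  al : Fin δ → P3 R
  be : Fin δ → P3 R
  ga : Fin δ → P3 R
  k0 : 0 < k
  mo : Mo k N G
  n1 : ∀ i : Fin 2, IsUnit (eval (fun o => o.elim 0 (Pi.single i 1)) G)
  dec : ∀ j, G = al j * fa (xn j) ^ 2 + be j * (fa (xn j) * fb k (yn j)) + ga j * fb k (yn j) ^ 2
  hal : ∀ j, ∃ n, n + 2 = k + w ∧ Wh k n (al j)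
  hbe : ∀ j, ∃ n, n + 1 = w ∧ Wh k n (be j)
  hga : ∀ j, ∃ n, n + k = w ∧ Wh k n (ga j)

section
variable {R D : Type} [CommRing R] [CommRing D] {k N δ w : ℕ}

/-- The value of `t ^ m * P (X, s / t)`. -/
noncomputable def hv (ψ : R →+* D) (m : ℕ) (x : Fin 2 → D) (s t : D) (P : P3 R) : D :=
  ∑ d ∈ P.support, ψ (coeff d P) *
    (x 0 ^ d (some 0) * x 1 ^ d (some 1) * s ^ d none * t ^ (m - d none))

/-- The coordinates of the first line. -/
def xx (y : XV (KC δ) → D) : Fin 2 → D := fun i => y (.inl 0, i)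

/-- The numerator of `η` in the chart `c`. -/
def ss (k : ℕ) (y : XV (KC δ) → D) (c : Fin 2) : D := y (.inl 0, c) ^ k * y (.inl c.succ, 1)

/-- The numerator of `θ j`. -/
def tt (w : ℕ) (y : XV (KC δ) → D) (j : Fin δ) : D :=
  y (.inl 0, 0) ^ w * y (.inr j, 1) - y (.inl 0, 1) ^ w * y (.inr j, 0)

/-- `η` is the value of the third coordinate at `y`. -/
def On (k : ℕ) (y : XV (KC δ) → D) (η : D) : Prop := ∀ c, ss k y c = η * y (.inl c.succ, 0)

/-- The degrees in `η` that are cleared. -/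
def mm (k N w : ℕ) : EO δ → ℕ := fun o => o.elim N fun _ => k + 2 * w

/-- The three relations for `θ = T / z`; `H` evaluates polynomials. -/
noncomputable def Dat.zq (𝒟 : Dat R k N δ w) (H : P3 R → D) (T z : D) (j : Fin δ) : Fin 3 → D :=
  ![H (fb k (𝒟.yn j)) * T - H (X (some 0) * 𝒟.al j * fa (𝒟.xn j)) * z,
    H (fa (𝒟.xn j)) * T +
      H (X (some 0) * (𝒟.ga j * fb k (𝒟.yn j) + 𝒟.be j * fa (𝒟.xn j))) * z,
    H 1 * T ^ 2 + H (X (some 0) * 𝒟.be j) * (T * z) +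
      H (X (some 0) ^ 2 * (𝒟.al j * 𝒟.ga j)) * z ^ 2]

/-- The forms. -/
noncomputable def Dat.form (𝒟 : Dat R k N δ w) (H : P3 R → D) (y : XV (KC δ) → D) : EO δ → D :=
  fun o => o.elim (H 𝒟.G) fun q => 𝒟.zq H (tt w y q.1) (y (.inr q.1, 0)) q.1 q.2

/-- The values of the equations. -/
noncomputable def Dat.eqv (𝒟 : Dat R k N δ w) (ψ : R →+* D) (y : XV (KC δ) → D) : EI δ → D :=
  fun i => i.elim (ss k y 0 * y (.inl 2, 0) - ss k y 1 * y (.inl 1, 0)) fun q =>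
    𝒟.form (hv ψ (mm k N w q.2) (xx y) (ss k y q.1) (y (.inl q.1.succ, 0))) y q.2

/-- The equations. -/
noncomputable def Dat.eqp (𝒟 : Dat R k N δ w) : EI δ → MvPolynomial (XV (KC δ)) R := 𝒟.eqv C X

/-- The multidegrees of the equations. -/
def dg (k N w : ℕ) : EI δ → KC δ → ℕ := fun i =>
  i.elim (Pi.single (Sum.inl 0) k + Pi.single (Sum.inl 1) 1 + Pi.single (Sum.inl 2) 1) fun q =>
    Pi.single (Sum.inl q.1.succ) (mm k N w q.2) + q.2.elim (Pi.single (Sum.inl 0) (k * N)) fun r =>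
      Pi.single (Sum.inl 0) (![k + w, w + 1, 2 * w] r.2) + Pi.single (Sum.inr r.1) (![1, 1, 2] r.2)

/-- The weights of the lines. -/
def om (k w : ℕ) : KC δ → ℕ := Sum.elim ![1, k, k] fun _ => w

/-- The chart of a subsystem. -/
def ch : SI δ → Fin 2 := Sum.elim id fun _ => 0

/-- The forms of a subsystem. -/
def fo (σ : SI δ) : Option (Fin δ) → EO δ := fun o =>
  o.elim (σ.elim (fun _ => none) fun q => if q.2 = 0 then none else some (q.1, 2)) fun i =>
    some (i, if σ = .inr (i, 0) then 0 else 1)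

/-- The equations of a subsystem. -/
def sub (σ : SI δ) : Option (Option (Fin δ)) → EI δ := fun o => o.map fun o' => (ch σ, fo σ o')

/-- The linear form that vanishes over the node `j`. -/
def Dat.av (𝒟 : Dat R k N δ w) (ψ : R →+* D) (y : XV (KC δ) → D) (j : Fin δ) : D :=
  y (.inl 0, 1) - ψ (𝒟.xn j) * y (.inl 0, 0)

/-- The forms that define the domains of the subsystems. -/
noncomputable def Dat.hq (𝒟 : Dat R k N δ w) (ψ : R →+* D) (y : XV (KC δ) → D) : SI δ → D :=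
  Sum.elim (fun c => y (.inl c.succ, 0) * ∏ j, 𝒟.av ψ y j) fun q =>
    y (.inl 1, 0) * (∏ j ∈ Finset.univ.erase q.1, 𝒟.av ψ y j) *
      if q.2 = 0 then hv ψ 1 (xx y) (ss k y 0) (y (.inl 1, 0)) (fb k (𝒟.yn q.1))
      else y (.inl 0, 0) * y (.inr q.1, 0) *
        hv ψ (k + 2 * w) (xx y) (ss k y 0) (y (.inl 1, 0)) (𝒟.ga q.1)

/-- The standard point over `(X, η, θ)`. -/
def pt (k w : ℕ) (x : Fin 2 → D) (η : D) (θ : Fin δ → D) : XV (KC δ) → D := fun v =>
  v.1.elim (fun l => ![x, ![x 0 ^ k, η], ![x 1 ^ k, η]] l v.2) fun j =>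
    ![x 0 ^ w, θ j + x 1 ^ w] v.2

/-- The relations between `X, η, θ`. -/
def Dat.Rl (𝒟 : Dat R k N δ w) (ψ : R →+* D) (x : Fin 2 → D) (η : D) (θ : Fin δ → D) : Prop :=
  eval₂ ψ (p3 x η) 𝒟.G = 0 ∧ ∀ j i, 𝒟.zq (eval₂ ψ (p3 x η)) (θ j) 1 j i = 0

/-- A zero of all equations. -/
def Dat.Z (𝒟 : Dat R k N δ w) (ψ : R →+* D) (y : XV (KC δ) → D) : Prop := ∀ i, 𝒟.eqv ψ y i = 0

end

/-- The data lift the nodal model. -/
def Dat.Over {R F 𝒦 : Type} [CommRing R] [Field F] [Field 𝒦] [Algebra F 𝒦] {x : 𝒦} (𝒩 : Nod F x)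
    {w : ℕ} (𝒟 : Dat R 𝒩.k 𝒩.N 𝒩.δ w) (a : R →+* F) : Prop :=
  map a 𝒟.G = 𝒩.G ∧ (∀ j, a (𝒟.xn j) = 𝒩.xn j) ∧ ∀ j, a (𝒟.yn j) = 𝒩.yn j

/-- The values at `y` of the forms of multidegree `n`. -/
def Mv (F : Type) {κ A : Type} [Fintype κ] [DecidableEq κ] [Field F] [CommRing A] [Algebra F A]
    (y : XV κ → A) (n : κ → ℕ) : Set A := {f | ∃ Ξ : MvPolynomial (XV κ) F, Hx n Ξ ∧ aeval y Ξ = f}

/-! ### Weights and scaling -/

section
variable {R D : Type} [CommRing R] [CommRing D] {k N δ w : ℕ}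

theorem pt3_eq (x z : D) : pt3 x z = p3 ![1, x] z := rfl

theorem ev_wh {σ : Type} {ω : σ → ℕ} {n : ℕ} {P : MvPolynomial σ R} (h : P.IsWeightedHomogeneous ω n)
    (ψ : R →+* D) (y : σ → D) (c : D) :
    eval₂ ψ (fun v => c ^ ω v * y v) P = c ^ n * eval₂ ψ y P := by
  simp only [eval₂_eq, Finset.mul_sum]
  refine Finset.sum_congr rfl fun d hd => ?_
  rw [← h (mem_support_iff.1 hd), Finsupp.weight_apply, Finsupp.sum, ← Finset.prod_pow_eq_pow_sum,
    mul_left_comm, ← Finset.prod_mul_distrib]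
  refine congrArg _ (Finset.prod_congr rfl fun v _ => ?_)
  rw [mul_pow, ← pow_mul, smul_eq_mul, mul_comm (d v)]

theorem Wh.scale {n : ℕ} {P : P3 R} (h : Wh k n P) (ψ : R →+* D) (x : Fin 2 → D) (η c : D) :
    eval₂ ψ (p3 (fun i => c * x i) (c ^ k * η)) P = c ^ n * eval₂ ψ (p3 x η) P := by
  rw [← ev_wh h]
  congr 1
  ext (_ | i) <;> simp [p3]

theorem wt3 (k : ℕ) (d : Option (Fin 2) →₀ ℕ) :
    Finsupp.weight (fun o : Option (Fin 2) => o.elim k fun _ => 1) d =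
      d (some 0) + d (some 1) + k * d none := by
  rw [Finsupp.weight_apply, Finsupp.sum_fintype _ _ (by simp)]
  simp [Fintype.sum_option, Fin.sum_univ_two]
  ring

theorem Wh.deg {n : ℕ} {P : P3 R} (h : Wh k n P) (hk : 0 < k) : P.degreeOf none ≤ n := by
  refine degreeOf_le_iff.2 fun d hd => ?_
  have := (wt3 k d).symm.trans (h (mem_support_iff.1 hd))
  nlinarith

theorem wh_X (k : ℕ) (i : Fin 2) : Wh k 1 (X (some i) : P3 R) := isWeightedHomogeneous_X R _ _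

theorem wh_pow {n : ℕ} {P : P3 R} (h : Wh k n P) (m : ℕ) : Wh k (m * n) (P ^ m) := by
  induction m with
  | zero => simpa using isWeightedHomogeneous_one R _
  | succ m ih => simpa [pow_succ, add_mul] using ih.mul h

theorem wh_sub {n : ℕ} {P Q : P3 R} (h : Wh k n P) (h' : Wh k n Q) : Wh k n (P - Q) :=
  (weightedHomogeneousSubmodule R _ n).sub_mem h h'

theorem wh_fa (k : ℕ) (x : R) : Wh k 1 (fa x) :=
  wh_sub (wh_X k 1) (by simpa using (isWeightedHomogeneous_C _ x).mul (wh_X k 0))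

theorem wh_fb (k : ℕ) (y : R) : Wh k k (fb k y) :=
  wh_sub (isWeightedHomogeneous_X R _ none)
    (by simpa using (isWeightedHomogeneous_C _ y).mul (wh_pow (wh_X k 0) k))

theorem Dat.wh (𝒟 : Dat R k N δ w) (j : Fin δ) :
    Wh k (k + w) (X (some 0) * 𝒟.al j * fa (𝒟.xn j)) ∧
    Wh k (w + 1) (X (some 0) * (𝒟.ga j * fb k (𝒟.yn j) + 𝒟.be j * fa (𝒟.xn j))) ∧
    Wh k w (X (some 0) * 𝒟.be j) ∧ Wh k (2 * w) (X (some 0) ^ 2 * (𝒟.al j * 𝒟.ga j)) ∧ 0 < w := by
  obtain ⟨n₁, e₁, h₁⟩ := 𝒟.hal j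
  obtain ⟨n₂, e₂, h₂⟩ := 𝒟.hbe j
  obtain ⟨n₃, e₃, h₃⟩ := 𝒟.hga j
  refine ⟨?_, ?_, ?_, ?_, by omega⟩
  · convert ((wh_X k 0).mul h₁).mul (wh_fa k _) using 1
    omega
  · have a := h₃.mul (wh_fb k (𝒟.yn j))
    have b := h₂.mul (wh_fa k (𝒟.xn j))
    rw [e₃] at a
    rw [e₂] at b
    exact add_comm 1 w ▸ (wh_X k 0).mul (a.add b)
  · convert (wh_X k 0).mul h₂ using 1
    omega
  · convert (wh_pow (wh_X k 0) 2).mul (h₁.mul h₃) using 1
    omega

theorem Dat.Rl.scale {𝒟 : Dat R k N δ w} {ψ : R →+* D} {x : Fin 2 → D} {η : D} {θ : Fin δ → D}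
    (h : 𝒟.Rl ψ x η θ) (c : D) : 𝒟.Rl ψ (fun i => c * x i) (c ^ k * η) fun j => c ^ w * θ j := by
  refine ⟨by rw [Wh.scale 𝒟.mo.2.1, h.1, mul_zero], fun j i => ?_⟩
  obtain ⟨a, b, d, e, -⟩ := 𝒟.wh j
  have h0 := h.2 j 0
  have h1 := h.2 j 1
  have h2 := h.2 j 2
  simp only [Dat.zq, Matrix.cons_val, eval₂_one] at h0 h1 h2
  fin_cases i <;> simp only [Dat.zq, Matrix.cons_val, Fin.zero_eta, Fin.mk_one, Fin.reduceFinMk,
    a.scale, b.scale, d.scale, e.scale, (wh_fa k _).scale, (wh_fb k _).scale, eval₂_one]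
  · linear_combination c ^ (k + w) * h0
  · linear_combination c ^ (w + 1) * h1
  · linear_combination c ^ (2 * w) * h2

theorem pt_scale (x : Fin 2 → D) (η c : D) (θ : Fin δ → D) (v : XV (KC δ)) :
    pt k w (fun i => c * x i) (c ^ k * η) (fun j => c ^ w * θ j) v =
      c ^ om k w v.1 * pt k w x η θ v := by
  rcases v with ⟨l | j, i⟩
  · fin_cases l <;> fin_cases i <;> simp [pt, om, mul_pow]
  · fin_cases i <;> simp [pt, om, mul_pow, mul_add]

end

/-! ### Statements -/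

/-- Monic forms as polynomials in one variable; reduction of powers. -/
def MO_s : Prop :=
  (∀ (R A : Type) [CommRing R] [CommRing A] [Nontrivial A] (w m : ℕ) (χ : P3 R) (ψ : R →+* A)
    (x : Fin 2 → A), Mo w m χ → ∃ q : Polynomial A, q.Monic ∧ q.natDegree = m ∧
      ∀ (D : Type) [CommRing D] (φ : A →+* D) (z : D),
        q.eval₂ φ z = eval₂ (φ.comp ψ) (p3 (φ ∘ x) z) χ) ∧
  ∀ (F A : Type) [Field F] [CommRing A] [Algebra F A] (w d : ℕ) (χ : P3 F) (x : Fin 2 → A) (z : A),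
    Mo w d χ → aeval (p3 x z) χ = 0 → ∀ m : ℕ, z ^ m ∈ Submodule.span F
      {f | ∃ i j l, l < d ∧ i + j + l * w = m * w ∧ f = x 0 ^ i * x 1 ^ j * z ^ l}

/-- The data over a smooth ring. -/
def MR_s : Prop := ∀ (F 𝒦 : Type) [Field F] [IsAlgClosed F] [Field 𝒦] [Algebra F 𝒦] (x : 𝒦)
  (𝒩 : Nod F x), ∃ (R : Type) (_ : CommRing R) (w : ℕ) (𝒟 : Dat R 𝒩.k 𝒩.N 𝒩.δ w) (a : R →+* F),
    Algebra.Smooth ℤ R ∧ 𝒟.Over 𝒩 a

/-- Naturality, and the equations at a point with a value of `η`. -/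
def EQ_s : Prop := ∀ (R : Type) [CommRing R] (k N δ w : ℕ) (𝒟 : Dat R k N δ w),
  (∀ (D D' : Type) [CommRing D] [CommRing D'] (ψ : R →+* D) (φ : D →+* D') (y : XV (KC δ) → D),
    (∀ i, φ (𝒟.eqv ψ y i) = 𝒟.eqv (φ.comp ψ) (φ ∘ y) i) ∧
    ∀ σ, φ (𝒟.hq ψ y σ) = 𝒟.hq (φ.comp ψ) (φ ∘ y) σ) ∧
  (∀ (D : Type) [CommRing D] (ψ : R →+* D) (m : ℕ) (x : Fin 2 → D) (η t : D) (P : P3 R),
    P.degreeOf none ≤ m → hv ψ m x (η * t) t P = t ^ m * eval₂ ψ (p3 x η) P) ∧
  ∀ (D : Type) [CommRing D] (ψ : R →+* D) (y : XV (KC δ) → D),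
    (∀ c, ∃ r, 𝒟.eqv ψ y (some (c, none)) = ss k y c ^ N + y (.inl c.succ, 0) * r) ∧
    ∀ η, On k y η → 𝒟.eqv ψ y none = 0 ∧
      (∀ c o, 𝒟.eqv ψ y (some (c, o)) =
        y (.inl c.succ, 0) ^ mm k N w o * 𝒟.form (eval₂ ψ (p3 (xx y) η)) y o) ∧
      ∀ j, 𝒟.hq ψ y (.inr (j, 0)) = y (.inl 1, 0) ^ 2 * (∏ i ∈ Finset.univ.erase j, 𝒟.av ψ y i) *
          (η - ψ (𝒟.yn j) * y (.inl 0, 0) ^ k) ∧
        𝒟.hq ψ y (.inr (j, 1)) =
          y (.inl 1, 0) ^ (k + 2 * w + 1) * (∏ i ∈ Finset.univ.erase j, 𝒟.av ψ y i) *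
            (y (.inl 0, 0) * y (.inr j, 0) * eval₂ ψ (p3 (xx y) η) (𝒟.ga j))

/-- The equations are multihomogeneous. -/
def HX_s : Prop := ∀ (R : Type) [CommRing R] (k N δ w : ℕ) (𝒟 : Dat R k N δ w),
  (∀ i, Hx (dg k N w i) (𝒟.eqp i)) ∧ ∀ σ, ∃ n, Hx n (𝒟.hq C X σ)

/-- Normal form of the zeros over a field. -/
def PAR_s : Prop := ∀ (R : Type) [CommRing R] (k N δ w : ℕ) (𝒟 : Dat R k N δ w) (L : Type) [Field L]
  (ψ : R →+* L),
    (∀ (x : Fin 2 → L) (η : L) (θ : Fin δ → L), x ≠ 0 → 𝒟.Rl ψ x η θ →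
      Nz (pt k w x η θ) ∧ (x 0 = 0 → θ = 0) ∧ ∀ c : KC δ → L, c (.inl 0) = 1 →
        𝒟.Z ψ fun v => c v.1 * pt k w x η θ v) ∧
    ∀ y : XV (KC δ) → L, Nz y → 𝒟.Z ψ y → ∃ (η : L) (θ : Fin δ → L) (c : KC δ → L),
      c (.inl 0) = 1 ∧ (∀ j, c j ≠ 0) ∧ 𝒟.Rl ψ (xx y) η θ ∧
        ∀ v, y v = c v.1 * pt k w (xx y) η θ v

/-- Each subsystem generates the equations on its domain. -/
def IDN_s : Prop := ∀ (R : Type) [CommRing R] (k N δ w : ℕ) (𝒟 : Dat R k N δ w) (σ : SI δ),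
  ∃ r : ℕ, 0 < r ∧ ∀ i, 𝒟.hq C X σ ^ r * 𝒟.eqp i ∈ Ideal.span (Set.range fun o => 𝒟.eqp (sub σ o))

/-- Tangent vectors for fewer equations than lines. -/
def TAN_s : Prop := ∀ (R κ ι L : Type) [CommRing R] [Fintype κ] [DecidableEq κ] [Fintype ι]
  [Field L] (P : ι → MvPolynomial (XV κ) R) (ψ : R →+* L) (x : XV κ → L) (E : Subfield L),
    Fintype.card ι < Fintype.card κ → Nz x → (∀ r, ψ r ∈ E) → (∀ v, x v ∈ E) →
    ∃ w : XV κ → L, (∀ v, w v ∈ E) ∧ (∃ j, w (j, 0) * x (j, 1) ≠ w (j, 1) * x (j, 0)) ∧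
      ∀ i, ∑ v, w v * eval₂ ψ x (pderiv v (P i)) = 0

/-- Forms are given by their coefficients. -/
def PACK_s : Prop := ∀ (R κ : Type) [CommRing R] [Fintype κ] [DecidableEq κ] (c : ℕ)
  (e : Fin c → κ → ℕ) (P : Fin c → MvPolynomial (XV κ) R), (∀ a, Hx (e a) (P a)) →
    ∃ cf : MI e → R, (∀ a, gp cf a = P a) ∧ ∀ (D : Type) [CommRing D] (ψ : R →+* D) (y : XV κ → D)
      (a : Fin c), gen (ψ ∘ cf) a y = eval₂ ψ y (P a)

/-- The Jacobian criterion. -/
def SM_s : Prop := ∀ (F 𝒦 : Type) [Field F] [Field 𝒦] [Algebra F 𝒦] (x : 𝒦) (𝒩 : Nod F x)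
  (R : Type) [CommRing R] (w : ℕ) (𝒟 : Dat R 𝒩.k 𝒩.N 𝒩.δ w) (a : R →+* F), 𝒟.Over 𝒩 a →
    ∀ y, Nz y → 𝒟.Z a y → ∃ σ, 𝒟.hq a y σ ≠ 0 ∧ ∀ lam : Option (Option (Fin 𝒩.δ)) → F,
      (∀ v, ∑ o, lam o * eval₂ a y (pderiv v (𝒟.eqp (sub σ o))) = 0) → lam = 0

/-- Sections without zeros. -/
def UNIT_s : Prop := ∀ (R : Type) [CommRing R] (k N δ w : ℕ) (𝒟 : Dat R k N δ w) (L : Type)
  [Field L] [IsAlgClosed L] (ψ : R →+* L) (j : KC δ), ∃ s : MvPolynomial (XY (KC δ)) L,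
    Hg ((om k w j : ℤ) • Pi.single (Sum.inl 0) 1 - Pi.single j 1) s ∧
    ∀ a : XY (KC δ) → L, Rel a → 𝒟.Z ψ (a ∘ .inl) → eval a s ≠ 0

/-- Algebraic and finite over the first line. -/
def FIN_s : Prop := ∀ (R : Type) [CommRing R] (k N δ w : ℕ) (𝒟 : Dat R k N δ w) (L : Type)
  [Field L] (ψ : R →+* L),
    (∀ (y : XV (KC δ) → L) (E : Subfield L) (j : KC δ), Nm y → 𝒟.Z ψ y → (∀ r, ψ r ∈ E) →
      y (.inl 0, 1) ∈ E → IsAlgebraic E (y (j, 1))) ∧
    ∀ x : Fin 2 → L, Set.Finite {y : XV (KC δ) → L | Nm y ∧ 𝒟.Z ψ y ∧ xx y = x}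

/-- Onto the plane model, and injective away from the nodes. -/
def ONTO_s : Prop := ∀ (R : Type) [CommRing R] (k N δ w : ℕ) (𝒟 : Dat R k N δ w) (L : Type)
  [Field L] (ψ : R →+* L),
    (IsAlgClosed L → ∀ y : XV (KC δ) → L, Nz y → 𝒟.eqv ψ y (some (0, none)) = 0 →
      ∃ y', Nz y' ∧ 𝒟.Z ψ y' ∧ ∀ i, y' (.inl 0, i) = y (.inl 0, i) ∧ y' (.inl 1, i) = y (.inl 1, i)) ∧
    ∀ y y' : XV (KC δ) → L, Nm y → Nm y' → 𝒟.Z ψ y → 𝒟.Z ψ y' →
      (∀ i, y' (.inl 0, i) = y (.inl 0, i) ∧ y' (.inl 1, i) = y (.inl 1, i)) →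
      y (.inl 0, 0) = 1 → (∀ j, y (.inl 0, 1) ≠ ψ (𝒟.xn j)) → y' = y

/-- Integral elements on the chart `X0 = 1`. -/
def RA_s : Prop := ∀ (F 𝒦 : Type) [Field F] [Field 𝒦] [Algebra F 𝒦] (x : 𝒦) (𝒩 : Nod F x)
  (R : Type) [CommRing R] (w : ℕ) (𝒟 : Dat R 𝒩.k 𝒩.N 𝒩.δ w) (a : R →+* F), 𝒟.Over 𝒩 a →
  ∀ θ : Fin 𝒩.δ → 𝒦, 𝒟.Rl ((algebraMap F 𝒦).comp a) ![1, x] 𝒩.η θ → ∀ z ∈ IC F x,
    ∃ i : ℕ, z ∈ Mv F (pt 𝒩.k w ![1, x] 𝒩.η θ) (fun j => if j = .inl 0 then i else 𝒩.N)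

/-- Integral elements on the chart `X1 = 1`. -/
def RB_s : Prop := ∀ (F 𝒦 : Type) [Field F] [IsAlgClosed F] [Field 𝒦] [Algebra F 𝒦] (x : 𝒦)
  (𝒩 : Nod F x) (R : Type) [CommRing R] (w : ℕ) (𝒟 : Dat R 𝒩.k 𝒩.N 𝒩.δ w) (a : R →+* F),
  x ≠ 0 → 𝒟.Over 𝒩 a → ∀ θ : Fin 𝒩.δ → 𝒦,
  𝒟.Rl ((algebraMap F 𝒦).comp a) ![x⁻¹, 1] (𝒩.η / x ^ 𝒩.k) θ → ∀ z ∈ IC F x⁻¹, ∀ n i : ℕ,
    x⁻¹ ^ n * z ∈ Mv F (pt 𝒩.k w ![x⁻¹, 1] (𝒩.η / x ^ 𝒩.k) θ)
      (fun j => if j = .inl 0 then i else 𝒩.N) →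
    ∃ i' : ℕ, z ∈ Mv F (pt 𝒩.k w ![x⁻¹, 1] (𝒩.η / x ^ 𝒩.k) θ)
      (fun j => if j = .inl 0 then i' else 𝒩.N)

/-- Powers of elements of weight `ϖ` are values of forms. -/
def RC_s : Prop := ∀ (F 𝒦 : Type) [Field F] [IsAlgClosed F] [Field 𝒦] [Algebra F 𝒦] (x : 𝒦)
  (𝒩 : Nod F x) (R : Type) [CommRing R] (w : ℕ) (𝒟 : Dat R 𝒩.k 𝒩.N 𝒩.δ w) (a : R →+* F),
  x ≠ 0 → 𝒟.Over 𝒩 a → ∀ θ : Fin 𝒩.δ → 𝒦, 𝒟.Rl ((algebraMap F 𝒦).comp a) ![1, x] 𝒩.η θ →
  ∀ (ϖ : ℕ) (z : 𝒦), 0 < ϖ → Mn F x ϖ z → ∃ m₀ : ℕ, ∀ m ≥ m₀, ∀ i : ℕ,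
    i + ∑ j ∈ Finset.univ.erase (.inl 0 : KC 𝒩.δ), om 𝒩.k w j * 𝒩.N = m * ϖ →
    z ^ m ∈ Mv F (pt 𝒩.k w ![1, x] 𝒩.η θ) (fun j => if j = .inl 0 then i else 𝒩.N)

/-- Zeros of the model give characters. -/
def CH_s : Prop := ∀ (F 𝒦 : Type) [Field F] [Field 𝒦] [Algebra F 𝒦] (x : 𝒦) (𝒩 : Nod F x)
  (R : Type) [CommRing R] (w : ℕ) (𝒟 : Dat R 𝒩.k 𝒩.N 𝒩.δ w) (a : R →+* F),
  x ≠ 0 → 𝒟.Over 𝒩 a → ∃ θ : Fin 𝒩.δ → 𝒦, 𝒟.Rl ((algebraMap F 𝒦).comp a) ![1, x] 𝒩.η θ ∧
    ∀ y : XV (KC 𝒩.δ) → F, Nz y → 𝒟.Z a y →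
      ∃ (s : 𝒦) (A : Subalgebra F 𝒦) (χ : A →ₐ[F] F) (u : F) (c : KC 𝒩.δ → F) (q : XV (KC 𝒩.δ) → A),
        (s = 1 ∧ A = IC F x ∨ s = x⁻¹ ∧ A = IC F x⁻¹) ∧ u ≠ 0 ∧ c (.inl 0) = 1 ∧ (∀ j, c j ≠ 0) ∧
        (∀ v, (q v : 𝒦) = s ^ om 𝒩.k w v.1 * pt 𝒩.k w ![1, x] 𝒩.η θ v) ∧
        ∀ v, y v = c v.1 * u ^ om 𝒩.k w v.1 * χ (q v)

/-- The representation of powers. -/
def REP_s : Prop := ∀ (F 𝒦 : Type) [Field F] [IsAlgClosed F] [Field 𝒦] [Algebra F 𝒦] (x : 𝒦)
  (𝒩 : Nod F x) (R : Type) [CommRing R] (w : ℕ) (𝒟 : Dat R 𝒩.k 𝒩.N 𝒩.δ w) (a : R →+* F),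
  x ≠ 0 → 𝒟.Over 𝒩 a → ∀ (c : ℕ) (e : Fin c → KC 𝒩.δ → ℕ) (cf : MI e → R),
    (∀ y, Ze cf a y → 𝒟.Z a y) → Rep cf a (.inl 0) (om 𝒩.k w) x

end Pool.Agent.MP_855f4c_ag.Cu.Md

end

section
/-! h92c section E: monic forms. -/

open MvPolynomial

namespace Pool.Agent.MP_855f4c_ag.Cu.Md

theorem mo_top {R : Type} [CommRing R] {w m : ℕ} {χ : P3 R} (h : Mo w m χ)
    {d : Option (Fin 2) →₀ ℕ} (hd : d ∈ χ.support) :
    d (some 0) + d (some 1) + w * d none = w * m ∧ d none ≤ m ∧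
      (d none = m → d = Finsupp.single none m) := by
  have e := (wt3 w d).symm.trans (h.2.1 (mem_support_iff.1 hd))
  refine ⟨e, degreeOf_le_iff.1 h.2.2.2 d hd, fun hm => ?_⟩
  rw [hm] at e
  ext (_ | i)
  · simp [hm]
  · fin_cases i <;> simp <;> omega

theorem ev_p3 {R D : Type} [CommRing R] [CommRing D] (ψ : R →+* D) (x : Fin 2 → D) (z : D)
    (χ : P3 R) : eval₂ ψ (p3 x z) χ =
      ∑ d ∈ χ.support, ψ (coeff d χ) * (x 0 ^ d (some 0) * x 1 ^ d (some 1)) * z ^ d none := by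
  rw [eval₂_eq']
  refine Finset.sum_congr rfl fun d _ => ?_
  simp only [Fintype.prod_option, Fin.prod_univ_two, p3, Option.elim]
  ring

theorem mo : MO_s := by
  classical
  refine ⟨fun R A _ _ _ w m χ ψ x h => ?_, fun F A _ _ _ w d χ x z h hz m => ?_⟩
  · let q : Polynomial A := ∑ d ∈ χ.support,
      Polynomial.monomial (d none) (ψ (coeff d χ) * (x 0 ^ d (some 0) * x 1 ^ d (some 1)))
    have h1 : q.natDegree ≤ m := Polynomial.natDegree_sum_le_of_forall_le _ _ fun d hd =>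
      (Polynomial.natDegree_monomial_le _).trans (mo_top h hd).2.1
    have h2 : q.coeff m = 1 := by
      rw [Polynomial.finsetSum_coeff, Finset.sum_eq_single (Finsupp.single none m)]
      · simp [h.2.2.1]
      · exact fun d hd hne => by
          rw [Polynomial.coeff_monomial, if_neg fun e => hne ((mo_top h hd).2.2 e)]
      · exact fun hn => by simp [notMem_support_iff.1 hn]
    refine ⟨q, Polynomial.monic_of_natDegree_le_of_coeff_eq_one m h1 h2,
      Polynomial.natDegree_eq_of_le_of_coeff_ne_zero h1 (h2 ▸ one_ne_zero), fun D _ φ z => ?_⟩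
    simp [q, ev_p3, Polynomial.eval₂_finsetSum]
  · induction m using Nat.strong_induction_on with
    | _ m ih =>
    rcases lt_or_ge m d with hm | hm
    · exact Submodule.subset_span ⟨0, 0, m, hm, by simp, by simp⟩
    obtain ⟨n, rfl⟩ := Nat.exists_eq_add_of_le hm
    have hs : Finsupp.single none d ∈ χ.support := by simp [h.2.2.1]
    rw [aeval_def, ev_p3, ← Finset.add_sum_erase _ _ hs, h.2.2.1, add_eq_zero_iff_eq_neg] at hz
    simp only [map_one, Finsupp.single_apply, reduceCtorEq, if_false, if_true, pow_zero,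
      one_mul] at hz
    rw [pow_add, hz, neg_mul, Finset.sum_mul]
    refine Submodule.neg_mem _ (Submodule.sum_mem _ fun e he => ?_)
    obtain ⟨hne, he⟩ := Finset.mem_erase.1 he
    obtain ⟨e1, e2, e3⟩ := mo_top h he
    have hlt : e none < d := lt_of_le_of_ne e2 fun h' => hne (e3 h')
    rw [mul_assoc, mul_assoc, ← pow_add, ← Algebra.smul_def]
    refine Submodule.smul_mem _ _ (Submodule.span_induction ?_ (by simp)
      (fun a b _ _ ha hb => mul_add _ a b ▸ Submodule.add_mem _ ha hb)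
      (fun c a _ ha => (mul_smul_comm c _ a).symm ▸ Submodule.smul_mem _ c ha)
      (ih (e none + n) (by omega)))
    rintro _ ⟨i, j, l, hl, hw, rfl⟩
    refine Submodule.subset_span ⟨e (some 0) + i, e (some 1) + j, l, hl, ?_, by ring⟩
    rw [add_mul] at hw ⊢
    rw [mul_comm d, ← e1, mul_comm w]
    omega

end Pool.Agent.MP_855f4c_ag.Cu.Md

end

section
/-! The nodal model lifts to a ring that is smooth over the integers. -/

open MvPolynomial

namespace Pool.Agent.MP_855f4c_ag.Cu.Sev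

/-- The member of a linear family with coefficients `c`. -/
noncomputable def fam {s τ : Type} [Fintype s] (μ₀ : MvPolynomial τ ℤ) (μ : s → MvPolynomial τ ℤ)
    {A : Type} [CommRing A] (c : s → A) : MvPolynomial τ A :=
  map (Int.castRingHom A) μ₀ + ∑ m, C (c m) * map (Int.castRingHom A) (μ m)

theorem map_fam {s τ : Type} [Fintype s] (μ₀ : MvPolynomial τ ℤ) (μ : s → MvPolynomial τ ℤ)
    {A B : Type} [CommRing A] [CommRing B] (φ : A →+* B) (c : s → A) :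
    map φ (fam μ₀ μ c) = fam μ₀ μ fun m => φ (c m) := by
  simp only [fam, map_add, map_sum, map_mul, map_C, map_map,
    Subsingleton.elim (φ.comp (Int.castRingHom A)) (Int.castRingHom B)]

theorem pderiv_fam {s τ : Type} [Fintype s] (μ₀ : MvPolynomial τ ℤ) (μ : s → MvPolynomial τ ℤ)
    {A : Type} [CommRing A] (c : s → A) (l : τ) :
    pderiv l (fam μ₀ μ c) = fam (pderiv l μ₀) (fun m => pderiv l (μ m)) c := by
  simp only [fam, map_add, map_sum, pderiv_C_mul, pderiv_map]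

theorem eval_fam {s τ : Type} [Fintype s] (μ₀ : MvPolynomial τ ℤ) (μ : s → MvPolynomial τ ℤ)
    {A : Type} [CommRing A] [inst : Algebra ℤ A] (c : s → A) (p : τ → A) :
    eval p (fam μ₀ μ c) = aeval p μ₀ + ∑ m, c m * aeval p (μ m) := by
  simp only [fam, map_add, map_sum, map_mul, eval_C, eval_map, aeval_def,
    Subsingleton.elim (algebraMap ℤ A) (Int.castRingHom A)]

theorem hom_aeval {τ A B : Type} [CommRing A] [CommRing B] [Algebra ℤ A] [Algebra ℤ B]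
    (φ : A →+* B) (p : τ → A) (P : MvPolynomial τ ℤ) :
    φ (aeval p P) = aeval (fun v => φ (p v)) P := by
  rw [aeval_def, aeval_def, eval₂_comp_left,
    Subsingleton.elim (φ.comp (algebraMap ℤ A)) (algebraMap ℤ B)]
  rfl

theorem chain {τ σ : Type} [Fintype τ] (p : τ → MvPolynomial σ ℤ) (v : σ) (P : MvPolynomial τ ℤ) :
    pderiv v (aeval p P) = ∑ l, aeval p (pderiv l P) * pderiv v (p l) := by
  classical
  induction P using MvPolynomial.induction_on with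
  | C a => simp
  | add P Q hP hQ => simp only [map_add, hP, hQ, add_mul, Finset.sum_add_distrib]
  | mul_X P j hP =>
    simp only [map_mul, aeval_X, Derivation.leibniz, hP, smul_eq_mul, map_add, add_mul,
      Finset.sum_add_distrib, pderiv_X, Pi.single_apply, apply_ite (aeval p), map_zero,
      mul_ite, ite_mul, mul_one, mul_zero, zero_mul, Finset.sum_ite_eq, Finset.mem_univ, if_true,
      Finset.mul_sum, mul_assoc]

/-- The universal value at the point number `j`. -/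
noncomputable def uv {s τ ι : Type} [Fintype s] (μ₀ : MvPolynomial τ ℤ) (μ : s → MvPolynomial τ ℤ)
    (j : ι) : MvPolynomial (s ⊕ ι × τ) ℤ :=
  eval (fun l => X (.inr (j, l))) (fam μ₀ μ fun m => X (.inl m))

theorem aeval_uv {s τ ι A : Type} [Fintype s] [CommRing A] (μ₀ : MvPolynomial τ ℤ)
    (μ : s → MvPolynomial τ ℤ) (j : ι) (t : s ⊕ ι × τ → A) :
    aeval t (uv μ₀ μ j) = eval (fun l => t (.inr (j, l))) (fam μ₀ μ fun m => t (.inl m)) := by
  have h (P : MvPolynomial τ ℤ) := hom_aeval (aeval t : MvPolynomial (s ⊕ ι × τ) ℤ →ₐ[ℤ] A).toRingHom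
    (fun l => X (.inr (j, l))) P
  simp only [AlgHom.toRingHom_eq_coe, RingHom.coe_coe, aeval_X] at h
  simp only [uv, eval_fam, map_add, map_sum, map_mul, aeval_X]
  exact congrArg₂ _ (h _) (Finset.sum_congr rfl fun m _ => congrArg _ (h _))

theorem uv_eq {s τ ι : Type} [Fintype s] (μ₀ : MvPolynomial τ ℤ) (μ : s → MvPolynomial τ ℤ)
    (j : ι) : uv μ₀ μ j =
      aeval (fun l => (X (.inr (j, l)) : MvPolynomial (s ⊕ ι × τ) ℤ)) μ₀ +
      ∑ m, (X (.inl m) : MvPolynomial (s ⊕ ι × τ) ℤ) *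
        aeval (fun l => (X (.inr (j, l)) : MvPolynomial (s ⊕ ι × τ) ℤ)) (μ m) :=
  eval_fam _ _ _ _

theorem d_inl {s τ ι : Type} [Fintype s] [Fintype τ] (μ₀ : MvPolynomial τ ℤ)
    (μ : s → MvPolynomial τ ℤ) (j : ι) (m : s) :
    pderiv (.inl m) (uv μ₀ μ j) = aeval (fun l => X (.inr (j, l))) (μ m) := by
  classical
  have h (P : MvPolynomial τ ℤ) : pderiv (.inl m)
      (aeval (fun l => (X (.inr (j, l)) : MvPolynomial (s ⊕ ι × τ) ℤ)) P) = 0 := by
    rw [chain]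
    simp [pderiv_X]
  rw [uv_eq]
  simp [-aeval_eq_bind₁, h, Derivation.leibniz, pderiv_X, Pi.single_apply]

theorem d_inr {s τ ι : Type} [Fintype s] [Fintype τ] [DecidableEq ι] (μ₀ : MvPolynomial τ ℤ)
    (μ : s → MvPolynomial τ ℤ) (j j' : ι) (l : τ) :
    pderiv (.inr (j', l)) (uv μ₀ μ j) =
      if j = j' then uv (pderiv l μ₀) (fun m => pderiv l (μ m)) j else 0 := by
  classical
  have h (P : MvPolynomial τ ℤ) : pderiv (.inr (j', l))
      (aeval (fun l => (X (.inr (j, l)) : MvPolynomial (s ⊕ ι × τ) ℤ)) P) =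
      if j = j' then aeval (fun l => X (.inr (j, l))) (pderiv l P) else 0 := by
    rw [chain]
    split_ifs with h <;> simp [-aeval_eq_bind₁, pderiv_X, Pi.single_apply, h]
  rw [uv_eq, uv_eq]
  simp only [map_add, map_sum, Derivation.leibniz, h]
  split_ifs with h' <;> simp [-aeval_eq_bind₁, pderiv_X]

/-- The family of hypersurfaces with ordinary double points is smooth. -/
theorem core (sma : SMA_s) (F : Type) [Field F] [IsAlgClosed F] {s τ ι : Type} [Fintype s] [Fintype τ] [Fintype ι]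
    (μ₀ : MvPolynomial τ ℤ) (μ : s → MvPolynomial τ ℤ) (c : s → F) (p : ι → τ → F)
    (d : MvPolynomial (s ⊕ ι × τ) ℤ)
    (h0 : ∀ j, eval (p j) (fam μ₀ μ c) = 0) (h1 : ∀ j l, eval (p j) (pderiv l (fam μ₀ μ c)) = 0)
    (h2 : ∀ j (ν : τ → F),
      (∀ l', ∑ l, ν l * eval (p j) (pderiv l' (pderiv l (fam μ₀ μ c))) = 0) → ν = 0)
    (h3 : ∀ lam : ι → F, (∀ m, ∑ j, lam j * aeval (p j) (μ m) = 0) → lam = 0)
    (hd : aeval (Sum.elim c fun q => p q.1 q.2) d ≠ 0) :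
    ∃ (R : Type) (_ : CommRing R) (a : R →+* F) (c' : s → R) (p' : ι → τ → R),
      Algebra.Smooth ℤ R ∧ (∀ m, a (c' m) = c m) ∧ (∀ j l, a (p' j l) = p j l) ∧
      (∀ j, eval (p' j) (fam μ₀ μ c') = 0) ∧ (∀ j l, eval (p' j) (pderiv l (fam μ₀ μ c')) = 0) ∧
      IsUnit (aeval (Sum.elim c' fun q => p' q.1 q.2) d) := by
  classical
  let E : ι × Option τ → MvPolynomial (s ⊕ ι × τ) ℤ := fun q =>
    q.2.elim (uv μ₀ μ q.1) fun l => uv (pderiv l μ₀) (fun m => pderiv l (μ m)) q.1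
  obtain ⟨R, _, z, a, hR, ha, hE, hu⟩ := sma F (s ⊕ ι × τ) (ι × Option τ) E
    (Sum.elim c fun q => p q.1 q.2) d (by
      rintro ⟨j, _ | l⟩
      · exact (aeval_uv _ _ _ _).trans (h0 j)
      · exact (aeval_uv _ _ _ _).trans ((congrArg _ (pderiv_fam _ _ _ _).symm).trans (h1 j l))) hd
    fun lam hl => by
      have e₁ (j : ι) : (fun l => lam (j, some l)) = 0 := h2 j _ fun l' => by
        have := hl (.inr (j, l'))
        simp only [Fintype.sum_prod_type, Fintype.sum_option, E, Option.elim, d_inr,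
          apply_ite (aeval _), map_zero, mul_ite, mul_zero, aeval_uv, Sum.elim_inl, Sum.elim_inr,
          ← pderiv_fam, h1, ite_self, zero_add] at this
        rw [Finset.sum_comm] at this
        simpa only [Finset.sum_ite_eq', Finset.mem_univ, if_true] using this
      have e₁' (j : ι) (l : τ) : lam (j, some l) = 0 := congrFun (e₁ j) l
      have e₀ : (fun j => lam (j, none)) = 0 := h3 _ fun m => by
        have := hl (.inl m)
        simp only [Fintype.sum_prod_type, Fintype.sum_option, E, Option.elim, e₁', zero_mul,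
          Finset.sum_const_zero, add_zero, d_inl] at this
        refine Eq.trans (Finset.sum_congr rfl fun j _ => congrArg _ ?_) this
        have h := hom_aeval (aeval (Sum.elim c fun q : ι × τ => p q.1 q.2) :
          MvPolynomial (s ⊕ ι × τ) ℤ →ₐ[ℤ] F).toRingHom (fun l => X (.inr (j, l))) (μ m)
        simp only [AlgHom.toRingHom_eq_coe, RingHom.coe_coe, aeval_X] at h
        exact h.symm
      funext ⟨j, o⟩
      cases o with
      | none => exact congrFun e₀ j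
      | some l => exact e₁' j l
  refine ⟨R, inferInstance, a, fun m => z (.inl m), fun j l => z (.inr (j, l)), hR,
    fun m => ha _, fun j l => ha _, fun j => (aeval_uv _ _ _ _).symm.trans (hE (j, none)),
    fun j l => ?_, ?_⟩
  · rw [pderiv_fam]
    exact (aeval_uv _ _ _ _).symm.trans (hE (j, some l))
  · have : (Sum.elim (fun m => z (.inl m)) fun q : ι × τ => z (.inr (q.1, q.2))) = z := by
      funext v
      cases v <;> rfl
    rw [this]
    exact hu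

section
variable {R : Type} [CommRing R]

/-- Restriction to the orbit of the point `(1, x, y)`. -/
noncomputable def orb (k : ℕ) (x y : R) :
    MvPolynomial (Option (Fin 2)) R →ₐ[R] MvPolynomial (Option (Fin 2)) R :=
  aeval fun o => o.elim (C y * X (some 0) ^ k) ![X (some 0), C x * X (some 0)]

theorem orb_hom {k n : ℕ} (x y : R) {P : MvPolynomial (Option (Fin 2)) R}
    (h : P.IsWeightedHomogeneous (fun o => o.elim k fun _ => 1) n) :
    orb k x y P = C (eval (pt3 x y) P) * X (some 0) ^ n := by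
  induction h using IsWeightedHomogeneous.induction_on with
  | zero => simp
  | add _ _ _ _ h h' => rw [map_add, h, h', map_add, map_add, add_mul]
  | monomial d r hr =>
    rw [Finsupp.weight_eq_sum] at hr
    simp only [Fintype.sum_option, Fin.sum_univ_two, Option.elim, smul_eq_mul, mul_one] at hr
    rw [orb, aeval_monomial, eval_monomial, Finsupp.prod_fintype _ _ (by simp),
      Finsupp.prod_fintype _ _ (by simp), ← hr]
    simp only [Fintype.prod_option, Fin.prod_univ_two, Option.elim, pt3, Matrix.cons_val_zero,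
      Matrix.cons_val_one, algebraMap_eq, map_mul, map_pow, map_one]
    ring

theorem tay0 (k : ℕ) (x y : R) (P : MvPolynomial (Option (Fin 2)) R) :
    ∃ c₁ c₂ c₃, P = orb k x y P + orb k x y (pderiv (some 1) P) * fa x +
      orb k x y (pderiv none P) * fb k y + (c₁ * fa x ^ 2 + c₂ * (fa x * fb k y) + c₃ * fb k y ^ 2) := by
  induction P using MvPolynomial.induction_on with
  | C a => exact ⟨0, 0, 0, by simp [orb]⟩
  | add P Q hP hQ =>
    obtain ⟨c₁, c₂, c₃, h⟩ := hP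
    obtain ⟨d₁, d₂, d₃, h'⟩ := hQ
    refine ⟨c₁ + d₁, c₂ + d₂, c₃ + d₃, ?_⟩
    simp only [map_add]
    linear_combination h + h'
  | mul_X P v hP =>
    obtain ⟨c₁, c₂, c₃, h⟩ := hP
    have e₀ : orb k x y (X (some 0)) = X (some 0) := aeval_X _ _
    have e₁ : orb k x y (X (some 1)) = C x * X (some 0) := aeval_X _ _
    have e₂ : orb k x y (X none) = C y * X (some 0) ^ k := aeval_X _ _
    rcases v with _ | v
    · refine ⟨c₁ * X none, c₂ * X none + orb k x y (pderiv (some 1) P),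
        c₃ * X none + orb k x y (pderiv none P), ?_⟩
      simp only [Derivation.leibniz, smul_eq_mul, map_add, map_mul, e₂, pderiv_X_self,
        pderiv_X_of_ne (Option.some_ne_none (1 : Fin 2)).symm, map_zero, map_one]
      simp only [fa, fb] at h ⊢
      linear_combination X none * h
    · fin_cases v
      · refine ⟨c₁ * X (some 0), c₂ * X (some 0), c₃ * X (some 0), ?_⟩
        simp only [Fin.zero_eta, Derivation.leibniz, smul_eq_mul, map_add, map_mul, e₀,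
          pderiv_X_of_ne (Option.some_ne_none (0 : Fin 2)),
          pderiv_X_of_ne (show (some 0 : Option (Fin 2)) ≠ some 1 by decide), map_zero]
        linear_combination X (some 0) * h
      · refine ⟨c₁ * X (some 1) + orb k x y (pderiv (some 1) P),
          c₂ * X (some 1) + orb k x y (pderiv none P), c₃ * X (some 1), ?_⟩
        simp only [Fin.mk_one, Derivation.leibniz, smul_eq_mul, map_add, map_mul, e₁, pderiv_X_self,
          pderiv_X_of_ne (Option.some_ne_none (1 : Fin 2)), map_zero, map_one]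
        simp only [fa, fb] at h ⊢
        linear_combination X (some 1) * h

theorem comp_mul {σ : Type} (w : σ → ℕ) {v : MvPolynomial σ R} {m : ℕ}
    (hv : v.IsWeightedHomogeneous w m) (n : ℕ) (c : MvPolynomial σ R) :
    weightedHomogeneousComponent w (n + m) (c * v) = weightedHomogeneousComponent w n c * v := by
  classical
  induction c using MvPolynomial.induction_on' with
  | monomial d r =>
    have h := isWeightedHomogeneous_monomial w d r rfl
    rw [weightedHomogeneousComponent_of_mem (h.mul hv), weightedHomogeneousComponent_of_mem h]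
    simp
  | add p q hp hq => rw [add_mul, map_add, hp, hq, map_add, add_mul]

theorem fa_hom (k : ℕ) (x : R) :
    (fa x).IsWeightedHomogeneous (fun o : Option (Fin 2) => o.elim k fun _ => 1) 1 :=
  (isWeightedHomogeneous_X R _ (some 1)).sub ((isWeightedHomogeneous_X R _ (some 0)).C_mul x)

theorem fb_hom (k : ℕ) (y : R) :
    (fb k y).IsWeightedHomogeneous (fun o : Option (Fin 2) => o.elim k fun _ => 1) k :=
  (isWeightedHomogeneous_X R _ none).sub (IsWeightedHomogeneous.C_mul (by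
    simpa using (isWeightedHomogeneous_X R (fun o : Option (Fin 2) => o.elim k fun _ => 1)
      (some 0)).pow k) y)

/-- A form that is singular at `(1, x, y)` is a quadratic expression in the two local forms. -/
theorem tay {k n : ℕ} (hk : 1 ≤ k) (hn : 2 * k ≤ n) (x y : R) {G : MvPolynomial (Option (Fin 2)) R}
    (h : G.IsWeightedHomogeneous (fun o => o.elim k fun _ => 1) n) (h₀ : eval (pt3 x y) G = 0)
    (h₁ : eval (pt3 x y) (pderiv (some 1) G) = 0) (h₂ : eval (pt3 x y) (pderiv none G) = 0) :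
    ∃ al be ga : MvPolynomial (Option (Fin 2)) R,
      al.IsWeightedHomogeneous (fun o => o.elim k fun _ => 1) (n - 2) ∧
      be.IsWeightedHomogeneous (fun o => o.elim k fun _ => 1) (n - 1 - k) ∧
      ga.IsWeightedHomogeneous (fun o => o.elim k fun _ => 1) (n - 2 * k) ∧
      G = al * fa x ^ 2 + be * (fa x * fb k y) + ga * fb k y ^ 2 := by
  obtain ⟨c₁, c₂, c₃, e⟩ := tay0 k x y G
  rw [orb_hom x y h, orb_hom x y (h.pderiv (n' := n - 1) (i := some 1) (by simp; omega)),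
    orb_hom x y (h.pderiv (n' := n - k) (i := none) (by simp; omega)), h₀, h₁, h₂] at e
  simp only [map_zero, zero_mul, zero_add] at e
  refine ⟨_, _, _, weightedHomogeneousComponent_isWeightedHomogeneous _ c₁,
    weightedHomogeneousComponent_isWeightedHomogeneous _ c₂,
    weightedHomogeneousComponent_isWeightedHomogeneous _ c₃, ?_⟩
  rw [← comp_mul _ ((fa_hom k x).pow 2), ← comp_mul _ ((fa_hom k x).mul (fb_hom k y)),
    ← comp_mul _ ((fb_hom k y).pow 2), show n - 2 + 2 • 1 = n by simp; omega,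
    show n - 1 - k + (1 + k) = n by omega, show n - 2 * k + 2 • k = n by simp; omega,
    ← map_add, ← map_add, ← e, weightedHomogeneousComponent_eq_self h]

end

/-- The chart `X0 = 1`. -/
noncomputable def aff (A : Type) [CommRing A] :
    MvPolynomial (Option (Fin 2)) A →ₐ[A] MvPolynomial (Fin 2) A := aeval (pt3 (X 0) (X 1))

/-- The variables of the chart. -/
def io : Fin 2 → Option (Fin 2) := ![some 1, none]

theorem eval_aff {A : Type} [CommRing A] (p : Fin 2 → A) (P : MvPolynomial (Option (Fin 2)) A) :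
    eval p (aff A P) = eval (pt3 (p 0) (p 1)) P := by
  induction P using MvPolynomial.induction_on with
  | C a => simp [aff]
  | add P Q hP hQ => simp only [map_add, hP, hQ]
  | mul_X P v hP =>
    simp only [map_mul, hP]
    rcases v with _ | v
    · simp [aff, pt3]
    · fin_cases v <;> simp [aff, pt3]

theorem pderiv_aff {A : Type} [CommRing A] (l : Fin 2) (P : MvPolynomial (Option (Fin 2)) A) :
    pderiv l (aff A P) = aff A (pderiv (io l) P) := by
  induction P using MvPolynomial.induction_on with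
  | C a => simp [aff]
  | add P Q hP hQ => simp only [map_add, hP, hQ]
  | mul_X P v hP =>
    have : pderiv l (aff A (X v)) = aff A (pderiv (io l) (X v)) := by
      rcases v with _ | v
      · fin_cases l <;> simp [aff, pt3, io, pderiv_X]
      · fin_cases v <;> fin_cases l <;> simp [aff, pt3, io, pderiv_X]
    simp only [map_mul, Derivation.leibniz, smul_eq_mul, map_add, hP, this]

theorem aff_fam {s A : Type} [Fintype s] [CommRing A] (ν₀ : MvPolynomial (Option (Fin 2)) ℤ)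
    (ν : s → MvPolynomial (Option (Fin 2)) ℤ) (c : s → A) :
    aff A (fam ν₀ ν c) = fam (aff ℤ ν₀) (fun m => aff ℤ (ν m)) c := by
  have h (P : MvPolynomial (Option (Fin 2)) ℤ) :
      aff A (map (Int.castRingHom A) P) = map (Int.castRingHom A) (aff ℤ P) := by
    induction P using MvPolynomial.induction_on with
    | C a => simp [aff]
    | add P Q hP hQ => simp only [map_add, hP, hQ]
    | mul_X P v hP =>
      simp only [map_mul, hP]
      rcases v with _ | v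
      · simp [aff, pt3]
      · fin_cases v <;> simp [aff, pt3]
  simp only [fam, map_add, map_sum, map_mul, h]
  exact congrArg _ (Finset.sum_congr rfl fun m _ => congrArg (· * _) (by simp [aff]))

theorem aeval_aff {A : Type} [CommRing A] (p : Fin 2 → A) (m : Option (Fin 2) →₀ ℕ) :
    aeval p (aff ℤ (monomial m 1)) = p 0 ^ m (some 1) * p 1 ^ m none := by
  rw [aff, aeval_monomial, Finsupp.prod_fintype _ _ (by simp)]
  simp [Fintype.prod_option, Fin.prod_univ_two, pt3, mul_comm]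

theorem hess {F : Type} [Field F] {k : ℕ} {x y : F} {G al be ga : MvPolynomial (Option (Fin 2)) F}
    (h : G = al * fa x ^ 2 + be * (fa x * fb k y) + ga * fb k y ^ 2)
    (hd : eval (pt3 x y) (be ^ 2 - 4 * al * ga) ≠ 0) (ν : Fin 2 → F)
    (hν : ∀ l', ∑ l, ν l * eval (pt3 x y) (pderiv (io l') (pderiv (io l) G)) = 0) : ν = 0 := by
  have a0 : eval (pt3 x y) (fa x) = 0 := by simp [fa, pt3]
  have b0 : eval (pt3 x y) (fb k y) = 0 := by simp [fb, pt3]
  have a1 : pderiv (some 1) (fa x) = 1 := by simp [fa, pderiv_X]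
  have a2 : pderiv none (fa x) = 0 := by simp [fa, pderiv_X]
  have b1 : pderiv (some 1) (fb k y) = 0 := by simp [fb, pderiv_X]
  have b2 : pderiv none (fb k y) = 1 := by simp [fb, pderiv_X]
  have h0 := hν 0
  have h1 := hν 1
  simp only [Fin.sum_univ_two, io, Matrix.cons_val_zero, Matrix.cons_val_one, h, pow_two, map_add,
    Derivation.leibniz, smul_eq_mul, a1, a2, b1, b2, map_mul, a0, b0, mul_zero, zero_mul, add_zero,
    zero_add, mul_one, map_one, map_zero] at h0 h1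
  simp only [map_sub, map_mul, map_pow, map_ofNat] at hd
  funext l
  fin_cases l
  · exact (mul_eq_zero.1 (show ν 0 * _ = 0 by
      linear_combination eval (pt3 x y) be * h1 - 2 * eval (pt3 x y) ga * h0)).resolve_right hd
  · exact (mul_eq_zero.1 (show ν 1 * _ = 0 by
      linear_combination eval (pt3 x y) be * h0 - 2 * eval (pt3 x y) al * h1)).resolve_right hd

/-- The monomials below the leading one. -/
noncomputable def mons (k N : ℕ) (hk : k ≠ 0) : Finset (Option (Fin 2) →₀ ℕ) :=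
  (Finsupp.finite_of_nat_weight_le (fun o : Option (Fin 2) => o.elim k fun _ => 1)
    (fun o => by cases o <;> simp [hk]) (k * N)).toFinset.filter fun m =>
      m none * k + (m (some 0) + m (some 1)) = k * N ∧ m none < N

theorem wt (k : ℕ) (m : Option (Fin 2) →₀ ℕ) :
    Finsupp.weight (fun o : Option (Fin 2) => o.elim k fun _ => 1) m =
      m none * k + (m (some 0) + m (some 1)) := by
  simp [Finsupp.weight_eq_sum, Fintype.sum_option, Fin.sum_univ_two]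

theorem mem_mons {k N : ℕ} {hk : k ≠ 0} {m : Option (Fin 2) →₀ ℕ} :
    m ∈ mons k N hk ↔ m none * k + (m (some 0) + m (some 1)) = k * N ∧ m none < N := by
  simp only [mons, Finset.mem_filter, Set.Finite.mem_toFinset, Set.mem_ofPred_eq, wt]
  exact ⟨fun h => h.2, fun h => ⟨h.1.le, h⟩⟩

theorem coeff_fam {A : Type} [CommRing A] {k N : ℕ} {hk : k ≠ 0} (c : mons k N hk → A)
    (m : Option (Fin 2) →₀ ℕ) :
    coeff m (fam (X none ^ N) (fun q : mons k N hk => monomial q.1 1) c) =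
      (if Finsupp.single none N = m then 1 else 0) + if h : m ∈ mons k N hk then c ⟨m, h⟩ else 0 := by
  simp only [fam, map_pow, map_X, map_monomial, map_one, C_mul_monomial, mul_one, coeff_add,
    coeff_sum, coeff_monomial, coeff_X_pow]
  congr 1
  split_ifs with h
  · rw [Finset.sum_eq_single ⟨m, h⟩ (fun q _ hq => if_neg fun e => hq (Subtype.ext e))
      (fun h => absurd (Finset.mem_univ _) h), if_pos rfl]
  · exact Finset.sum_eq_zero fun q _ => if_neg fun e : q.1 = m => h (e ▸ q.2)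

theorem mo_fam {A : Type} [CommRing A] {k N : ℕ} {hk : k ≠ 0} (hN : 0 < N) (c : mons k N hk → A) :
    Mo k N (fam (X none ^ N) (fun q : mons k N hk => monomial q.1 1) c) := by
  have h (m : Option (Fin 2) →₀ ℕ)
      (hm : coeff m (fam (X none ^ N) (fun q : mons k N hk => monomial q.1 1) c) ≠ 0) :
      Finsupp.single none N = m ∨ m ∈ mons k N hk := by
    by_contra hc
    rw [not_or] at hc
    exact hm (by rw [coeff_fam, if_neg hc.1, dif_neg hc.2, add_zero])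
  refine ⟨hN, fun m hm => ?_, ?_, degreeOf_le_iff.2 fun m hm => ?_⟩
  · rw [wt]
    rcases h m hm with rfl | h
    · simp [mul_comm]
    · exact (mem_mons.1 h).1
  · rw [coeff_fam, if_pos rfl, dif_neg fun h => by simpa using (mem_mons.1 h).2, add_zero]
  · rcases h m (mem_support_iff.1 hm) with rfl | h
    · simp
    · exact (mem_mons.1 h).2.le

theorem eq_fam {A : Type} [CommRing A] {k N : ℕ} (hk : k ≠ 0) {G : MvPolynomial (Option (Fin 2)) A}
    (h : Mo k N G) :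
    fam (X none ^ N) (fun q : mons k N hk => monomial q.1 1) (fun q => coeff q.1 G) = G := by
  ext m
  rw [coeff_fam]
  by_cases e : Finsupp.single none N = m
  · subst e
    rw [if_pos rfl, dif_neg fun h => by simpa using (mem_mons.1 h).2, add_zero, h.2.2.1]
  rw [if_neg e, zero_add]
  split_ifs with hm
  · rfl
  by_contra hc
  have h1 := h.2.1 (Ne.symm hc)
  have h2 := degreeOf_le_iff.1 h.2.2.2 m (mem_support_iff.2 (Ne.symm hc))
  rw [wt] at h1
  rcases h2.lt_or_eq with h2 | h2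
  · exact hm (mem_mons.2 ⟨h1, h2⟩)
  · rw [h2, mul_comm] at h1
    refine e (Finsupp.ext fun o => ?_)
    rcases o with _ | o
    · simp [h2]
    · fin_cases o <;> simp <;> omega

/-- The lift of a nodal model. -/
theorem r1 (sma : SMA_s) {F 𝒦 : Type} [Field F] [IsAlgClosed F] [Field 𝒦] [Algebra F 𝒦] {x : 𝒦} (M : Nod F x) :
    ∃ (R : Type) (_ : CommRing R) (a : R →+* F) (G : MvPolynomial (Option (Fin 2)) R)
      (xn yn : Fin M.δ → R) (al be ga : Fin M.δ → MvPolynomial (Option (Fin 2)) R),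
      Algebra.Smooth ℤ R ∧ map a G = M.G ∧ Mo M.k M.N G ∧ (∀ j, a (xn j) = M.xn j) ∧
      (∀ j, a (yn j) = M.yn j) ∧
      (∀ i : Fin 2, IsUnit (eval (fun o => o.elim 0 (Pi.single i 1)) G)) ∧
      (∀ i j, i ≠ j → IsUnit (xn i - xn j)) ∧ ∀ j,
        (al j).IsWeightedHomogeneous (fun o => o.elim M.k fun _ => 1) (M.k * M.N - 2) ∧
        (be j).IsWeightedHomogeneous (fun o => o.elim M.k fun _ => 1) (M.k * M.N - 1 - M.k) ∧
        (ga j).IsWeightedHomogeneous (fun o => o.elim M.k fun _ => 1) (M.k * M.N - 2 * M.k) ∧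
        G = al j * fa (xn j) ^ 2 + be j * (fa (xn j) * fb M.k (yn j)) + ga j * fb M.k (yn j) ^ 2 := by
  classical
  have hk : M.k ≠ 0 := by have := M.two; omega
  have hk1 : 1 ≤ M.k := by have := M.two; omega
  have hn (j : Fin M.δ) : 2 * M.k ≤ M.k * M.N := by
    rw [mul_comm]
    exact Nat.mul_le_mul_left _ (M.N2 j.pos)
  let s := mons M.k M.N hk
  let ν₀ : MvPolynomial (Option (Fin 2)) ℤ := X none ^ M.N
  let ν : s → MvPolynomial (Option (Fin 2)) ℤ := fun q => monomial q.1 1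
  let c : s → F := fun q => coeff q.1 M.G
  have hG : fam ν₀ ν c = M.G := eq_fam hk M.mo
  let u : Fin 2 → MvPolynomial (s ⊕ Fin M.δ × Fin 2) ℤ := fun i =>
    eval (fun o => o.elim 0 (Pi.single i 1)) (fam ν₀ ν fun q => X (.inl q))
  have hu (A : Type) [CommRing A] (t : s ⊕ Fin M.δ × Fin 2 → A) (i : Fin 2) : aeval t (u i) =
      eval (fun o => o.elim 0 (Pi.single i 1)) (fam ν₀ ν fun q => t (.inl q)) := by
    have h (P : MvPolynomial (Option (Fin 2)) ℤ) :=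
      hom_aeval (aeval t : MvPolynomial (s ⊕ Fin M.δ × Fin 2) ℤ →ₐ[ℤ] A).toRingHom
        (fun o : Option (Fin 2) => o.elim 0 (Pi.single i 1)) P
    have e : (fun v : Option (Fin 2) => (aeval t : MvPolynomial (s ⊕ Fin M.δ × Fin 2) ℤ →ₐ[ℤ] A)
        (v.elim 0 (Pi.single i 1))) = fun o => o.elim 0 (Pi.single i 1) := by
      funext v
      rcases v with _ | v
      · exact map_zero _
      · simp only [Option.elim, Pi.single_apply, apply_ite (aeval t), map_one, map_zero]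
    simp only [AlgHom.toRingHom_eq_coe, RingHom.coe_coe, e] at h
    simp only [u, eval_fam, map_add, map_sum, map_mul, aeval_X]
    exact congrArg₂ _ (h _) (Finset.sum_congr rfl fun m _ => congrArg _ (h _))
  obtain ⟨R, _, a, c', p, hR, hc, hp, h0, h1, hd⟩ := core sma F (aff ℤ ν₀) (fun q => aff ℤ (ν q)) c
    (fun j => ![M.xn j, M.yn j])
    ((∏ i, u i) * ∏ q ∈ Finset.univ.offDiag, (X (Sum.inr (q.1, 0)) - X (Sum.inr (q.2, 0))))
    (fun j => by rw [← aff_fam, hG, eval_aff]; exact (M.sing j).1)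
    (fun j l => by rw [← aff_fam, hG, pderiv_aff, eval_aff]; exact (M.sing j).2 _)
    (fun j μ hμ => by
      obtain ⟨al, be, ga, -, -, -, e⟩ := tay hk1 (hn j) (M.xn j) (M.yn j) M.mo.2.1 (M.sing j).1
        ((M.sing j).2 _) ((M.sing j).2 _)
      refine hess e (M.node j al be ga e).2 μ fun l' => ?_
      have := hμ l'
      simp only [← aff_fam, hG, pderiv_aff, eval_aff] at this
      exact this)
    (fun lam hl => M.ind lam fun i b hb hi => by
      have := hl ⟨Finsupp.single none b + Finsupp.single (some 1) i +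
        Finsupp.single (some 0) (M.k * (M.N - b) - i), mem_mons.2 ⟨by
          have : M.k * (M.N - b) + M.k * b = M.k * M.N := by
            rw [← mul_add, Nat.sub_add_cancel hb.le]
          simp [mul_comm b]
          omega, by simpa using hb⟩⟩
      simpa [ν, aeval_aff] using this)
    (by
      simp only [map_mul, map_prod, hu, map_sub, aeval_X, Sum.elim_inl, Sum.elim_inr]
      refine mul_ne_zero (Finset.prod_ne_zero_iff.2 fun i _ => ?_)
        (Finset.prod_ne_zero_iff.2 fun q hq => sub_ne_zero.2 fun e => ?_)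
      · rw [show (fam ν₀ ν fun q => c q) = M.G from hG]
        exact M.n1 i
      · exact (Finset.mem_offDiag.1 hq).2.2 (M.inj e))
  have hM : Mo M.k M.N (fam ν₀ ν c') := mo_fam M.mo.1 c'
  simp only [map_mul, map_prod, hu, map_sub, aeval_X, Sum.elim_inl, Sum.elim_inr,
    IsUnit.mul_iff, IsUnit.prod_iff] at hd
  simp only [← aff_fam, pderiv_aff, eval_aff] at h0 h1
  choose al be ga hh using fun j => tay hk1 (hn j) (p j 0) (p j 1) hM.2.1 (h0 j) (h1 j 0) (h1 j 1)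
  refine ⟨R, inferInstance, a, fam ν₀ ν c', fun j => p j 0, fun j => p j 1, al, be, ga, hR, ?_, hM,
    fun j => hp j 0, fun j => hp j 1, fun i => hd.1 i (Finset.mem_univ _),
    fun i j h => hd.2 (i, j) (by simpa using h), hh⟩
  rw [map_fam, ← hG]
  exact congrArg _ (funext hc)

end Pool.Agent.MP_855f4c_ag.Cu.Sev

namespace Pool.Agent.MP_855f4c_ag.Cu.Md

theorem mr (sma : SMA_s) : MR_s := by
  intro F 𝒦 _ _ _ _ x M
  obtain ⟨R, _, a, G, xn, yn, al, be, ga, hR, hG, hM, hx, hy, hu, -, hh⟩ := Sev.r1 sma M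
  have h2 := M.two
  have hn (j : Fin M.δ) : 2 * M.k ≤ M.k * M.N := by
    rw [mul_comm]
    exact Nat.mul_le_mul_left _ (M.N2 j.pos)
  exact ⟨R, inferInstance, M.k * M.N - M.k,
    ⟨G, xn, yn, al, be, ga, by omega, hM, hu, fun j => (hh j).2.2.2,
      fun j => ⟨_, by have := hn j; omega, (hh j).1⟩,
      fun j => ⟨_, by have := hn j; omega, (hh j).2.1⟩,
      fun j => ⟨_, by have := hn j; omega, (hh j).2.2.1⟩⟩, a, hR, hG, hx, hy⟩

end Pool.Agent.MP_855f4c_ag.Cu.Md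

end

section
/-! h92c section E: naturality and values of the equations. -/

open MvPolynomial

namespace Pool.Agent.MP_855f4c_ag.Cu.Md

open T

namespace EQ

variable {R D D' : Type} [CommRing R] [CommRing D] [CommRing D'] {k N δ w : ℕ}

theorem map_hv (ψ : R →+* D) (φ : D →+* D') (m : ℕ) (x : Fin 2 → D) (s t : D) (P : P3 R) :
    φ (hv ψ m x s t P) = hv (φ.comp ψ) m (φ ∘ x) (φ s) (φ t) P := by
  simp [hv, map_sum]

theorem hv_on (ψ : R →+* D) {m : ℕ} (x : Fin 2 → D) (η t : D) {P : P3 R}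
    (h : P.degreeOf none ≤ m) : hv ψ m x (η * t) t P = t ^ m * eval₂ ψ (p3 x η) P := by
  rw [hv, eval₂_eq', Finset.mul_sum]
  refine Finset.sum_congr rfl fun d hd => ?_
  obtain ⟨e, he⟩ := Nat.exists_eq_add_of_le (degreeOf_le_iff.1 h d hd)
  rw [Fintype.prod_option, Fin.prod_univ_two, he, Nat.add_sub_cancel_left]
  simp only [p3, Option.elim]
  ring

theorem hv_top (ψ : R →+* D) (x : Fin 2 → D) (s t : D) {P : P3 R} (h : Mo k N P) :
    ∃ r, hv ψ N x s t P = s ^ N + t * r := by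
  have : Ideal.Quotient.mk (Ideal.span {t}) (hv ψ N x s t P) =
      Ideal.Quotient.mk (Ideal.span {t}) (s ^ N) := by
    rw [hv, map_sum, Finset.sum_eq_single (Finsupp.single none N)]
    · simp [h.2.2.1]
    · intro d hd hne
      have h1 := (wt3 k d).symm.trans (h.2.1 (mem_support_iff.1 hd))
      have h2 : d none < N := by
        refine lt_of_le_of_ne (degreeOf_le_iff.1 h.2.2.2 d hd) fun e => hne ?_
        rw [e] at h1
        ext (_ | i)
        · simp [e]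
        · fin_cases i <;> simp <;> omega
      refine Ideal.Quotient.eq_zero_iff_mem.2 (Ideal.mem_span_singleton.2 ?_)
      exact ((dvd_pow_self t (by omega)).mul_left _).mul_left _
    · intro hd
      simp [notMem_support_iff.1 hd]
  obtain ⟨r, hr⟩ := Ideal.mem_span_singleton.1 (Ideal.Quotient.eq.1 this)
  exact ⟨r, by rw [← hr]; ring⟩

theorem deg_fb (k : ℕ) (y : R) : (fb k y).degreeOf none ≤ 1 := by
  classical
  rcases subsingleton_or_nontrivial R with _ | _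
  · simp [Subsingleton.elim (fb k y) 0]
  refine (degreeOf_sub_le _ _ _).trans (max_le (by simp) ?_)
  refine (degreeOf_C_mul_le _ _ _).trans ((degreeOf_pow_le _ _ _).trans ?_)
  simp [degreeOf_X]

end EQ

open EQ in
theorem eq : EQ_s := by
  intro R _ k N δ w 𝒟
  refine ⟨fun D D' _ _ ψ φ y => ⟨fun i => ?_, fun σ => ?_⟩, fun D _ ψ m x η t P h => hv_on ψ x η t h,
    fun D _ ψ y => ⟨fun c => hv_top ψ _ _ _ 𝒟.mo, fun η h => ⟨?_, fun c o => ?_, fun j => ⟨?_, ?_⟩⟩⟩⟩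
  · have e : φ ∘ xx y = xx (φ ∘ y) := rfl
    rcases i with _ | ⟨c, _ | ⟨j, i⟩⟩
    · simp [Dat.eqv, ss]
    · simp [Dat.eqv, Dat.form, map_hv, e, ss]
    · fin_cases i <;> simp [Dat.eqv, Dat.form, Dat.zq, map_hv, e, ss, tt]
  · have e : φ ∘ xx y = xx (φ ∘ y) := rfl
    rcases σ with c | ⟨j, i⟩
    · simp [Dat.hq, Dat.av]
    · fin_cases i <;> simp [Dat.hq, Dat.av, map_hv, e, ss]
  · have h0 : ss k y 0 = η * y (.inl 1, 0) := h 0
    have h1 : ss k y 1 = η * y (.inl 2, 0) := h 1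
    show ss k y 0 * y (.inl 2, 0) - ss k y 1 * y (.inl 1, 0) = 0
    rw [h0, h1]; ring
  · have k0 := 𝒟.k0
    show 𝒟.form (hv ψ (mm k N w o) (xx y) (ss k y c) (y (.inl c.succ, 0))) y o = _
    rw [h c]
    rcases o with _ | ⟨j, i⟩
    · exact hv_on ψ _ _ _ 𝒟.mo.2.2.2
    · obtain ⟨a, b, d, e, w0⟩ := 𝒟.wh j
      have q : ∀ {n : ℕ} {P : P3 R}, Wh k n P → n ≤ k + 2 * w →
          hv ψ (k + 2 * w) (xx y) (η * y (.inl c.succ, 0)) (y (.inl c.succ, 0)) P =
            y (.inl c.succ, 0) ^ (k + 2 * w) * eval₂ ψ (p3 (xx y) η) P :=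
        fun hP hn => hv_on ψ _ _ _ ((hP.deg k0).trans hn)
      fin_cases i <;> simp only [Dat.form, Dat.zq, mm, Option.elim, Matrix.cons_val, Fin.zero_eta,
        Fin.mk_one, Fin.reduceFinMk]
      · rw [q (wh_fb k _) (by omega), q a (by omega)]; ring
      · rw [q (wh_fa k _) (by omega), q b (by omega)]; ring
      · rw [q (isWeightedHomogeneous_one R _) (by omega), q d (by omega), q e (by omega)]; ring
  · have h0 : ss k y 0 = η * y (.inl 1, 0) := h 0
    simp only [Dat.hq, Sum.elim_inr, if_true]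
    rw [h0, hv_on ψ _ _ _ (deg_fb k _)]
    simp only [fb, eval₂_sub, eval₂_mul, eval₂_pow, eval₂_X, eval₂_C, p3, Option.elim, xx]
    ring
  · have h0 : ss k y 0 = η * y (.inl 1, 0) := h 0
    obtain ⟨n, e, hn⟩ := 𝒟.hga j
    simp only [Dat.hq, Sum.elim_inr, one_ne_zero, if_false]
    rw [h0, hv_on ψ _ _ _ ((hn.deg 𝒟.k0).trans (by omega))]
    ring

end Pool.Agent.MP_855f4c_ag.Cu.Md

end

section
/-! h92c section E: the equations of the model are multihomogeneous. -/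

open MvPolynomial

namespace Pool.Agent.MP_855f4c_ag.Cu.Md

open T

namespace HX

section
variable {κ R : Type} [DecidableEq κ] [CommRing R]

theorem var (j : κ) (i : Fin 2) : Hx (Pi.single j 1) (X (j, i) : MvPolynomial (XV κ) R) :=
  isWeightedHomogeneous_X R (fun v : XV κ => (Pi.single v.1 1 : κ → ℕ)) (j, i)

theorem pw (j : κ) (i : Fin 2) (m : ℕ) :
    Hx (Pi.single j m) ((X (j, i) : MvPolynomial (XV κ) R) ^ m) := by
  induction m with
  | zero => simpa using isWeightedHomogeneous_one R _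
  | succ m ih => rw [pow_succ, Pi.single_add]; exact ih.mul (var j i)

theorem cast {n n' : κ → ℕ} {P : MvPolynomial (XV κ) R} (h : Hx n P) (e : n = n') : Hx n' P := e ▸ h

theorem sub {n : κ → ℕ} {P Q : MvPolynomial (XV κ) R} (h : Hx n P) (h' : Hx n Q) : Hx n (P - Q) :=
  (weightedHomogeneousSubmodule R _ n).sub_mem h h'

theorem cmul {n : κ → ℕ} {P : MvPolynomial (XV κ) R} (h : Hx n P) (c : R) : Hx n (C c * P) :=
  cast ((isWeightedHomogeneous_C _ c).mul h) (zero_add n)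

end

variable {R : Type} [CommRing R] {k N δ w : ℕ}

theorem hss (k : ℕ) (c : Fin 2) : Hx (Pi.single (Sum.inl 0) k + Pi.single (Sum.inl c.succ) 1)
    (ss k (X : XV (KC δ) → MvPolynomial _ R) c) := by
  rw [ss]
  exact (pw (.inl 0 : KC δ) c k).mul (var (.inl c.succ : KC δ) 1)

theorem htt (w : ℕ) (j : Fin δ) : Hx (Pi.single (Sum.inl 0) w + Pi.single (Sum.inr j) 1)
    (tt w (X : XV (KC δ) → MvPolynomial _ R) j) := by
  rw [tt]
  exact sub ((pw (.inl 0 : KC δ) 0 w).mul (var (.inr j : KC δ) 1)) ((pw (.inl 0 : KC δ) 1 w).mul (var (.inr j : KC δ) 0))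

theorem hhv {n m : ℕ} {P : P3 R} (h : Wh k n P) (hm : P.degreeOf none ≤ m) (c : Fin 2) :
    Hx (Pi.single (Sum.inl c.succ) m + Pi.single (Sum.inl 0) n)
      (hv C m (xx (X : XV (KC δ) → MvPolynomial _ R)) (ss k X c) (X (.inl c.succ, 0)) P) := by
  rw [hv]
  refine IsWeightedHomogeneous.sum _ _ _ fun d hd => cmul ?_ _
  have e := (wt3 k d).symm.trans (h (mem_support_iff.1 hd))
  have e' := degreeOf_le_iff.1 hm d hd
  rw [ss, mul_pow, ← pow_mul, xx, xx]
  refine cast ((((pw (.inl 0 : KC δ) 0 _).mul (pw (.inl 0 : KC δ) 1 _)).mul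
    ((pw (.inl 0 : KC δ) c _).mul (pw (.inl c.succ : KC δ) 1 _))).mul (pw (.inl c.succ : KC δ) 0 _)) ?_
  rw [← e, show m = d none + (m - d none) by omega]
  simp only [Pi.single_add, Nat.add_sub_cancel_left]
  abel

theorem hav (𝒟 : Dat R k N δ w) (j : Fin δ) : Hx (Pi.single (Sum.inl 0) 1) (𝒟.av C X j) := by
  rw [Dat.av]
  exact sub (var (.inl 0 : KC δ) 1) (cmul (var (.inl 0 : KC δ) 0) _)

theorem degreeOf_X_le' (o : Option (Fin 2)) : (X o : P3 R).degreeOf none ≤ 1 :=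
  (degreeOf_le_totalDegree _ _).trans (isHomogeneous_X R o).totalDegree_le

theorem deg_fb (y : R) : (fb k y).degreeOf none ≤ 1 := by
  refine (degreeOf_sub_le _ _ _).trans (max_le (degreeOf_X_le' _) ?_)
  refine (degreeOf_C_mul_le _ _ _).trans ((degreeOf_pow_le _ _ _).trans ?_)
  rcases subsingleton_or_nontrivial R with h | h
  · simp [Subsingleton.elim (X (some 0) : P3 R) 0]
  · simp [degreeOf_X]

end HX

open HX

theorem hx : HX_s := by
  intro R _ k N δ w 𝒟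
  have hk := 𝒟.k0
  refine ⟨?_, ?_⟩
  · rintro (_ | ⟨c, _ | ⟨j, r⟩⟩)
    · simp only [Dat.eqp, Dat.eqv, dg, Option.elim]
      refine HX.sub ((hss k 0).mul (var (.inl 2 : KC δ) 0)) (cast ((hss k 1).mul (var (.inl 1 : KC δ) 0)) ?_)
      exact add_right_comm _ _ _
    · simp only [Dat.eqp, Dat.eqv, dg, Option.elim, Dat.form, mm]
      exact hhv 𝒟.mo.2.1 𝒟.mo.2.2.2 c
    · obtain ⟨a, b, d, e, hw⟩ := 𝒟.wh j
      have H {n : ℕ} {P : P3 R} (h : Wh k n P) (hn : n ≤ k + 2 * w) :=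
        hhv (δ := δ) h ((h.deg hk).trans hn) c
      have t := htt (R := R) w j
      have z := var (R := R) (.inr j : KC δ) 0
      have s2 : (Pi.single (Sum.inr j) 2 : KC δ → ℕ) = Pi.single (Sum.inr j) 1 + Pi.single (Sum.inr j) 1 :=
        Pi.single_add _ 1 1
      have t2 := t.mul t
      rw [← pow_two] at t2
      have o : Wh k 0 (1 : P3 R) := isWeightedHomogeneous_one R _
      simp only [Dat.eqp, Dat.eqv, dg, Option.elim, Dat.form, mm, Dat.zq]
      fin_cases r <;> simp only [Fin.zero_eta, Fin.mk_one, Fin.reduceFinMk, Matrix.cons_val]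
      · refine HX.sub (cast ((H (wh_fb k _) (by omega)).mul t) ?_)
          (cast ((H a (by omega)).mul z) ?_) <;>
        simp only [Pi.single_add] <;> abel
      · refine IsWeightedHomogeneous.add (cast ((H (wh_fa k _) (by omega)).mul t) ?_)
          (cast ((H b (by omega)).mul z) ?_) <;>
        simp only [Pi.single_add] <;> abel
      · refine IsWeightedHomogeneous.add (IsWeightedHomogeneous.add
          (cast ((H o (by omega)).mul t2) ?_)
          (cast ((H d (by omega)).mul (t.mul z)) ?_))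
          (cast ((H e (by omega)).mul (pw (.inr j : KC δ) 0 2)) ?_) <;>
        simp only [two_mul, s2, Pi.single_add, Pi.single_zero] <;> abel
  · have hp (s : Finset (Fin δ)) := IsWeightedHomogeneous.prod s (𝒟.av C X) _ fun j _ => hav 𝒟 j
    rintro (c | ⟨j, r⟩)
    · simp only [Dat.hq, Sum.elim_inl]
      exact ⟨_, (var (.inl c.succ : KC δ) 0).mul (hp _)⟩
    · obtain ⟨n, e, h⟩ := 𝒟.hga j
      simp only [Dat.hq, Sum.elim_inr]
      split_ifs
      · exact ⟨_, ((var (.inl 1 : KC δ) 0).mul (hp _)).mul (hhv (wh_fb k _) (deg_fb _) 0)⟩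
      · exact ⟨_, ((var (.inl 1 : KC δ) 0).mul (hp _)).mul (((var (.inl 0 : KC δ) 0).mul (var (.inr j : KC δ) 0)).mul
          (hhv h ((h.deg hk).trans (by omega)) 0))⟩

end Pool.Agent.MP_855f4c_ag.Cu.Md

end

section
/-! h92c section E, row PAR. -/

open MvPolynomial

namespace Pool.Agent.MP_855f4c_ag.Cu.Md

open T

namespace Par

variable {R L : Type} [CommRing R] [Field L] {k N δ w : ℕ}

theorem prop2 {a b p q : L} (h : a ≠ 0 ∨ b ≠ 0) (h' : p ≠ 0 ∨ q ≠ 0) (e : a * q = b * p) :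
    ∃ c, c ≠ 0 ∧ a = c * p ∧ b = c * q := by
  have k : ∃ c, a = c * p ∧ b = c * q := by
    rcases h' with h' | h'
    · refine ⟨a / p, (div_mul_cancel₀ a h').symm, ?_⟩
      rw [div_mul_eq_mul_div, e, mul_div_cancel_right₀ b h']
    · refine ⟨b / q, ?_, (div_mul_cancel₀ b h').symm⟩
      rw [div_mul_eq_mul_div, ← e, mul_div_cancel_right₀ a h']
  obtain ⟨c, h1, h2⟩ := k
  refine ⟨c, ?_, h1, h2⟩
  rintro rfl
  rw [zero_mul] at h1 h2
  exact h.elim (fun h => h h1) fun h => h h2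

theorem zq_sc (𝒟 : Dat R k N δ w) (H : P3 R → L) (θ z : L) (j : Fin δ) (i : Fin 3) :
    𝒟.zq H (z * θ) z j i = z ^ (![1, 1, 2] i) * 𝒟.zq H θ 1 j i := by
  fin_cases i <;> simp only [Dat.zq, Matrix.cons_val, Fin.zero_eta, Fin.mk_one, Fin.reduceFinMk] <;>
    ring

theorem ev0 (ψ : R →+* L) (x : Fin 2 → L) (η : L) : eval₂ ψ (p3 x η) (X (some 0)) = x 0 :=
  eval₂_X _ _ _

theorem zq2 (𝒟 : Dat R k N δ w) (ψ : R →+* L) (x : Fin 2 → L) (η T z : L) (j : Fin δ)
    (h : x 0 * z = 0) (h2 : 𝒟.zq (eval₂ ψ (p3 x η)) T z j 2 = 0) : T = 0 := by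
  simp only [Dat.zq, Matrix.cons_val, eval₂_one, eval₂_mul, eval₂_pow, ev0] at h2
  refine pow_eq_zero_iff (two_ne_zero) |>.1 ?_
  linear_combination h2 - (eval₂ ψ (p3 x η) (𝒟.be j) * T +
    x 0 * z * (eval₂ ψ (p3 x η) (𝒟.al j) * eval₂ ψ (p3 x η) (𝒟.ga j))) * h

theorem zq0 (𝒟 : Dat R k N δ w) (ψ : R →+* L) (x : Fin 2 → L) (η : L) (j : Fin δ)
    (h : x 0 = 0) (i : Fin 3) : 𝒟.zq (eval₂ ψ (p3 x η)) 0 1 j i = 0 := by
  fin_cases i <;> simp only [Dat.zq, Matrix.cons_val, Fin.zero_eta, Fin.mk_one, Fin.reduceFinMk,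
    eval₂_mul, eval₂_pow, ev0, h] <;> ring

theorem ne2 {x : Fin 2 → L} (h : x ≠ 0) : x 0 ≠ 0 ∨ x 1 ≠ 0 := by
  by_contra q
  rw [not_or, not_not, not_not] at q
  exact h (funext fun i => by fin_cases i <;> simp [q.1, q.2])

theorem eta_ne (𝒟 : Dat R k N δ w) (ψ : R →+* L) (x : Fin 2 → L) (i : Fin 2) (c : L) (hc : c ≠ 0)
    (hx : x = fun l => c * (Pi.single i 1 : Fin 2 → L) l) : eval₂ ψ (p3 x 0) 𝒟.G ≠ 0 := by
  have a := Wh.scale 𝒟.mo.2.1 ψ (Pi.single i 1) 0 c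
  rw [mul_zero, ← hx] at a
  rw [a]
  refine mul_ne_zero (pow_ne_zero _ hc) ?_
  have b := ((𝒟.n1 i).map ψ).ne_zero
  rw [← eval₂_id, eval₂_comp_left, RingHom.comp_id] at b
  refine fun e => b (Eq.trans ?_ e)
  congr 1
  funext o
  rcases o with _ | l
  · simp [p3]
  · simp only [p3, Function.comp, Option.elim, Pi.single_apply]
    split_ifs <;> simp

theorem nz (𝒟 : Dat R k N δ w) (ψ : R →+* L) (x : Fin 2 → L) (η : L) (θ : Fin δ → L) (hx : x ≠ 0)
    (h : 𝒟.Rl ψ x η θ) : (∀ j, pt k w x η θ (j, 0) ≠ 0 ∨ pt k w x η θ (j, 1) ≠ 0) ∧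
      (x 0 = 0 → θ = 0) := by
  have b : x 0 = 0 → θ = 0 := fun h0 => by
    funext j
    exact zq2 𝒟 ψ x η (θ j) 1 j (by rw [h0, zero_mul]) (h.2 j 2)
  have n := ne2 hx
  refine ⟨fun j => ?_, b⟩
  rcases j with l | j
  · fin_cases l
    · exact n
    · change x 0 ^ k ≠ 0 ∨ η ≠ 0
      by_cases h0 : x 0 = 0
      · refine .inr fun e => eta_ne 𝒟 ψ x 1 (x 1) (n.resolve_left fun q => q h0) ?_ (e ▸ h.1)
        funext l
        fin_cases l <;> simp [h0]
      · exact .inl (pow_ne_zero _ h0)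
    · change x 1 ^ k ≠ 0 ∨ η ≠ 0
      by_cases h1 : x 1 = 0
      · refine .inr fun e => eta_ne 𝒟 ψ x 0 (x 0) (n.resolve_right fun q => q h1) ?_ (e ▸ h.1)
        funext l
        fin_cases l <;> simp [h1]
      · exact .inl (pow_ne_zero _ h1)
  · change x 0 ^ w ≠ 0 ∨ θ j + x 1 ^ w ≠ 0
    by_cases h0 : x 0 = 0
    · rw [b h0, Pi.zero_apply, zero_add]
      exact .inr (pow_ne_zero _ (n.resolve_left fun q => q h0))
    · exact .inl (pow_ne_zero _ h0)

theorem nz2 {κ : Type} {y : XV κ → L} (h : Nz y) (j : κ) : y (j, 0) ≠ 0 ∨ y (j, 1) ≠ 0 := by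
  obtain ⟨i, hi⟩ := h j
  fin_cases i
  exacts [.inl hi, .inr hi]

end Par

open Par in
theorem par (hE : EQ_s) : PAR_s := by
  intro R _ k N δ w 𝒟 L _ ψ
  have E := (hE R k N δ w 𝒟).2.2 L ψ
  refine ⟨fun x η θ hx h => ⟨fun j => (nz 𝒟 ψ x η θ hx h).1 j |>.elim (fun a => ⟨0, a⟩) fun a => ⟨1, a⟩,
    (nz 𝒟 ψ x η θ hx h).2, fun c hc => ?_⟩, fun y hy hz => ?_⟩
  · set y : XV (KC δ) → L := fun v => c v.1 * pt k w x η θ v with hy
    have y0 : ∀ i, y (.inl 0, i) = x i := fun i => by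
      change c (.inl 0) * x i = x i
      rw [hc, one_mul]
    have xy : xx y = x := funext y0
    have on : On k y η := fun l => by
      rw [ss, y0]
      fin_cases l
      · change x 0 ^ k * (c (.inl 1) * η) = η * (c (.inl 1) * x 0 ^ k)
        ring
      · change x 1 ^ k * (c (.inl 2) * η) = η * (c (.inl 2) * x 1 ^ k)
        ring
    obtain ⟨e0, e1, -⟩ := (E y).2 η on
    rintro (_ | ⟨l, o⟩)
    · exact e0
    · rw [e1, xy]
      refine mul_eq_zero_of_right _ ?_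
      rcases o with _ | ⟨j, i⟩
      · exact h.1
      · have t : tt w y j = y (.inr j, 0) * θ j := by
          rw [tt, y0, y0]
          change x 0 ^ w * (c (.inr j) * (θ j + x 1 ^ w)) - x 1 ^ w * (c (.inr j) * x 0 ^ w) =
            c (.inr j) * x 0 ^ w * θ j
          ring
        change 𝒟.zq _ (tt w y j) (y (.inr j, 0)) j i = 0
        rw [t, zq_sc, h.2, mul_zero]
  · have n0 := nz2 hy (.inl 0)
    have hx : xx y ≠ 0 := fun e => n0.elim (fun a => a (congrFun e 0)) fun a => a (congrFun e 1)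
    have t0 : ∀ l : Fin 2, y (.inl l.succ, 0) = 0 → y (.inl 0, l) = 0 := fun l e => by
      obtain ⟨r, hr⟩ := (E y).1 l
      rw [hz, e, zero_mul, add_zero] at hr
      have a := mul_eq_zero.1 (pow_eq_zero_iff 𝒟.mo.1.ne' |>.1 hr.symm)
      exact pow_eq_zero_iff 𝒟.k0.ne' |>.1
        (a.resolve_right ((nz2 hy _).resolve_left fun q => q e))
    have lk : ss k y 0 * y (.inl 2, 0) = ss k y 1 * y (.inl 1, 0) := sub_eq_zero.1 (hz none)
    have ex : ∃ (η : L) (l : Fin 2), On k y η ∧ y (.inl l.succ, 0) ≠ 0 := by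
      rcases n0 with a | a
      · have b : y (.inl 1, 0) ≠ 0 := fun e => a (t0 0 e)
        refine ⟨ss k y 0 / y (.inl 1, 0), 0, fun l => ?_, b⟩
        fin_cases l
        · exact (div_mul_cancel₀ _ b).symm
        · change ss k y 1 = ss k y 0 / y (.inl 1, 0) * y (.inl 2, 0)
          rw [div_mul_eq_mul_div, lk, mul_div_cancel_right₀ _ b]
      · have b : y (.inl 2, 0) ≠ 0 := fun e => a (t0 1 e)
        refine ⟨ss k y 1 / y (.inl 2, 0), 1, fun l => ?_, b⟩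
        fin_cases l
        · change ss k y 0 = ss k y 1 / y (.inl 2, 0) * y (.inl 1, 0)
          rw [div_mul_eq_mul_div, ← lk, mul_div_cancel_right₀ _ b]
        · exact (div_mul_cancel₀ _ b).symm
    obtain ⟨η, l, on, hl⟩ := ex
    have fm : ∀ o, 𝒟.form (eval₂ ψ (p3 (xx y) η)) y o = 0 := fun o =>
      (mul_eq_zero.1 ((((E y).2 η on).2.1 l o).symm.trans (hz _))).resolve_left (pow_ne_zero _ hl)
    have th : ∀ j, ∃ θ : L, tt w y j = y (.inr j, 0) * θ ∧
        ∀ i, 𝒟.zq (eval₂ ψ (p3 (xx y) η)) θ 1 j i = 0 := fun j => by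
      have f : ∀ i, 𝒟.zq (eval₂ ψ (p3 (xx y) η)) (tt w y j) (y (.inr j, 0)) j i = 0 :=
        fun i => fm (some (j, i))
      by_cases e : y (.inr j, 0) = 0
      · have a := zq2 𝒟 ψ _ η _ _ j (by rw [e, mul_zero]) (f 2)
        refine ⟨0, by rw [a, mul_zero], zq0 𝒟 ψ _ η j ?_⟩
        rw [tt, e, mul_zero, sub_zero] at a
        exact pow_eq_zero_iff (𝒟.wh j).2.2.2.2.ne' |>.1
          ((mul_eq_zero.1 a).resolve_right ((nz2 hy _).resolve_left fun q => q e))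
      · have a : tt w y j = y (.inr j, 0) * (tt w y j / y (.inr j, 0)) :=
          (mul_div_cancel₀ _ e).symm
        refine ⟨_, a, fun i => ?_⟩
        have b := f i
        rw [a, zq_sc] at b
        exact (mul_eq_zero.1 b).resolve_left (pow_ne_zero _ e)
    choose θ h1 h2 using th
    have rl : 𝒟.Rl ψ (xx y) η θ := ⟨fm none, h2⟩
    have sc : ∀ j : KC δ, ∃ c : L, c ≠ 0 ∧ (j = .inl 0 → c = 1) ∧
        y (j, 0) = c * pt k w (xx y) η θ (j, 0) ∧ y (j, 1) = c * pt k w (xx y) η θ (j, 1) := fun j => by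
      by_cases e : j = .inl 0
      · subst e
        exact ⟨1, one_ne_zero, fun _ => rfl, (one_mul _).symm, (one_mul _).symm⟩
      have g : y (j, 0) * pt k w (xx y) η θ (j, 1) = y (j, 1) * pt k w (xx y) η θ (j, 0) := by
        rcases j with m | j
        · fin_cases m
          · exact (e rfl).elim
          · have a : y (.inl 0, 0) ^ k * y (.inl 1, 1) = η * y (.inl 1, 0) := on 0
            change y (.inl 1, 0) * η = y (.inl 1, 1) * y (.inl 0, 0) ^ k
            linear_combination -a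
          · have a : y (.inl 0, 1) ^ k * y (.inl 2, 1) = η * y (.inl 2, 0) := on 1
            change y (.inl 2, 0) * η = y (.inl 2, 1) * y (.inl 0, 1) ^ k
            linear_combination -a
        · have a := h1 j
          rw [tt] at a
          change y (.inr j, 0) * (θ j + y (.inl 0, 1) ^ w) = y (.inr j, 1) * y (.inl 0, 0) ^ w
          linear_combination -a
      obtain ⟨c, c0, c1, c2⟩ := prop2 (nz2 hy j) ((nz 𝒟 ψ _ η θ hx rl).1 j) g
      exact ⟨c, c0, fun q => (e q).elim, c1, c2⟩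
    choose c c0 c1 c2 c3 using sc
    refine ⟨η, θ, c, c1 _ rfl, c0, rl, fun v => ?_⟩
    rcases v with ⟨j, i⟩
    fin_cases i
    exacts [c2 j, c3 j]

end Pool.Agent.MP_855f4c_ag.Cu.Md

end

section
/-! h92c section E, row IDN: the subsystems generate the equations. -/

open MvPolynomial

namespace Pool.Agent.MP_855f4c_ag.Cu.Md

open T

namespace Idn

variable {R D : Type} [CommRing R] [CommRing D] {k N δ w : ℕ} (𝒟 : Dat R k N δ w)
  (H : P3 R →+* D) (T z : D) (j : Fin δ)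

lemma dec : H 𝒟.G = H (𝒟.al j) * H (fa (𝒟.xn j)) ^ 2 +
    H (𝒟.be j) * (H (fa (𝒟.xn j)) * H (fb k (𝒟.yn j))) + H (𝒟.ga j) * H (fb k (𝒟.yn j)) ^ 2 := by
  rw [𝒟.dec j]
  simp only [map_add, map_mul, map_pow]

lemma all (h0 : 𝒟.zq H T z j 0 = 0) (h1 : 𝒟.zq H T z j 1 = 0) (h2 : 𝒟.zq H T z j 2 = 0)
    (i : Fin 3) : 𝒟.zq H T z j i = 0 := by
  fin_cases i
  exacts [h0, h1, h2]

lemma la (u : IsUnit (H (fa (𝒟.xn j)))) (g : H 𝒟.G = 0) (h1 : 𝒟.zq H T z j 1 = 0) (i : Fin 3) :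
    𝒟.zq H T z j i = 0 := by
  refine all 𝒟 H T z j (u.mul_right_eq_zero.1 ?_) h1 ((u.pow 2).mul_right_eq_zero.1 ?_) i <;>
    rw [dec 𝒟 H j] at g <;>
    simp only [Dat.zq, Matrix.cons_val, map_add, map_mul, map_pow, map_one] at h1 ⊢
  · linear_combination H (fb k (𝒟.yn j)) * h1 - z * H (X (some 0)) * g
  · linear_combination H (X (some 0)) ^ 2 * H (𝒟.ga j) * z ^ 2 * g +
      (H (fa (𝒟.xn j)) * T - H (X (some 0)) * H (𝒟.ga j) * H (fb k (𝒟.yn j)) * z) * h1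

lemma lb (u : IsUnit (H (fb k (𝒟.yn j)))) (g : H 𝒟.G = 0) (h0 : 𝒟.zq H T z j 0 = 0) (i : Fin 3) :
    𝒟.zq H T z j i = 0 := by
  refine all 𝒟 H T z j h0 (u.mul_right_eq_zero.1 ?_) ((u.pow 2).mul_right_eq_zero.1 ?_) i <;>
    rw [dec 𝒟 H j] at g <;>
    simp only [Dat.zq, Matrix.cons_val, map_add, map_mul, map_pow, map_one] at h0 ⊢
  · linear_combination H (fa (𝒟.xn j)) * h0 + z * H (X (some 0)) * g
  · linear_combination H (X (some 0)) ^ 2 * H (𝒟.al j) * z ^ 2 * g +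
      (H (fb k (𝒟.yn j)) * T + H (X (some 0)) * H (𝒟.al j) * H (fa (𝒟.xn j)) * z +
        H (X (some 0)) * H (𝒟.be j) * H (fb k (𝒟.yn j)) * z) * h0

lemma lc (u : IsUnit (H (X (some 0)) * z * H (𝒟.ga j))) (h1 : 𝒟.zq H T z j 1 = 0)
    (h2 : 𝒟.zq H T z j 2 = 0) : H 𝒟.G = 0 ∧ ∀ i, 𝒟.zq H T z j i = 0 := by
  have h0 : 𝒟.zq H T z j 0 = 0 := by
    refine u.mul_right_eq_zero.1 ?_
    simp only [Dat.zq, Matrix.cons_val, map_add, map_mul, map_pow, map_one] at h1 h2 ⊢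
    linear_combination T * h1 - H (fa (𝒟.xn j)) * h2
  refine ⟨(isUnit_of_mul_isUnit_left u).mul_right_eq_zero.1 ?_, all 𝒟 H T z j h0 h1 h2⟩
  rw [dec 𝒟 H j]
  simp only [Dat.zq, Matrix.cons_val, map_add, map_mul, map_pow, map_one] at h0 h1
  linear_combination H (fb k (𝒟.yn j)) * h1 - H (fa (𝒟.xn j)) * h0

variable (ψ : R →+* D) (y : XV (KC δ) → D)

lemma on (c : Fin 2) (u : IsUnit (y (.inl c.succ, 0))) (h : 𝒟.eqv ψ y none = 0) :
    ∃ η, On k y η := by
  obtain ⟨t, ht⟩ := u.exists_right_inv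
  have h' : ss k y 0 * y (.inl 2, 0) - ss k y 1 * y (.inl 1, 0) = 0 := h
  refine ⟨ss k y c * t, fun c' => ?_⟩
  fin_cases c <;> fin_cases c'
  · change y (.inl 1, 0) * t = 1 at ht
    change ss k y 0 = ss k y 0 * t * y (.inl 1, 0)
    linear_combination -ss k y 0 * ht
  · change y (.inl 1, 0) * t = 1 at ht
    change ss k y 1 = ss k y 0 * t * y (.inl 2, 0)
    linear_combination -ss k y 1 * ht - t * h'
  · change y (.inl 2, 0) * t = 1 at ht
    change ss k y 0 = ss k y 1 * t * y (.inl 1, 0)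
    linear_combination -ss k y 0 * ht + t * h'
  · change y (.inl 2, 0) * t = 1 at ht
    change ss k y 1 = ss k y 1 * t * y (.inl 2, 0)
    linear_combination -ss k y 1 * ht

lemma main (hE : EQ_s) (σ : SI δ) (u : IsUnit (𝒟.hq ψ y σ))
    (h : ∀ o, 𝒟.eqv ψ y (sub σ o) = 0) : 𝒟.Z ψ y := by
  have u0 : IsUnit (y (.inl (ch σ).succ, 0)) := by
    rcases σ with c | q
    · exact isUnit_of_mul_isUnit_left u
    · exact isUnit_of_mul_isUnit_left (isUnit_of_mul_isUnit_left u)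
  obtain ⟨η, hη⟩ := on 𝒟 ψ y _ u0 (h none)
  obtain ⟨e0, e1, e2⟩ := ((hE R k N δ w 𝒟).2.2 D ψ y).2 η hη
  let H : P3 R →+* D := eval₂Hom ψ (p3 (xx y) η)
  have f : ∀ o, 𝒟.form H y (fo σ o) = 0 := fun o =>
    (u0.pow _).mul_right_eq_zero.1 ((e1 _ _).symm.trans (h (some o)))
  have a : ∀ i, H (fa (𝒟.xn i)) = 𝒟.av ψ y i := fun i => by
    simp only [H, fa, map_sub, map_mul, eval₂Hom_X', eval₂Hom_C]
    rfl
  have b : ∀ i, H (fb k (𝒟.yn i)) = η - ψ (𝒟.yn i) * y (.inl 0, 0) ^ k := fun i => by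
    simp only [H, fb, map_sub, map_mul, map_pow, eval₂Hom_X', eval₂Hom_C]
    rfl
  have x0 : H (X (some 0)) = y (.inl 0, 0) := eval₂Hom_X' _ _ _
  have key : H 𝒟.G = 0 ∧ ∀ j i, 𝒟.zq H (tt w y j) (y (.inr j, 0)) j i = 0 := by
    rcases σ with c | ⟨j, q⟩
    · have ua := IsUnit.prod_iff.1 (isUnit_of_mul_isUnit_right u)
      exact ⟨f none, fun j => la 𝒟 H _ _ j (a j ▸ ua j (Finset.mem_univ _)) (f none) (f (some j))⟩
    · have ua := IsUnit.prod_iff.1 (isUnit_of_mul_isUnit_right (isUnit_of_mul_isUnit_left u))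
      have f1 : ∀ i, (Sum.inr (j, q) : SI δ) ≠ .inr (i, 0) →
          𝒟.zq H (tt w y i) (y (.inr i, 0)) i 1 = 0 := fun i hi => by
        have := f (some i)
        simp only [fo, Option.elim, if_neg hi] at this
        exact this
      have r : H 𝒟.G = 0 → (∀ i, 𝒟.zq H (tt w y j) (y (.inr j, 0)) j i = 0) →
          H 𝒟.G = 0 ∧ ∀ j i, 𝒟.zq H (tt w y j) (y (.inr j, 0)) j i = 0 := fun g hj =>
        ⟨g, fun i => by
          rcases eq_or_ne i j with rfl | n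
          · exact hj
          · exact la 𝒟 H _ _ i (a i ▸ ua i (Finset.mem_erase.2 ⟨n, Finset.mem_univ _⟩)) g
              (f1 i fun e => n (congrArg Prod.fst (Sum.inr.inj e)).symm)⟩
      fin_cases q
      · have f0 := f (some j)
        simp only [fo, Option.elim, Fin.zero_eta, if_true] at f0
        exact r (f none) (lb 𝒟 H _ _ j
          (b j ▸ isUnit_of_mul_isUnit_right ((e2 j).1 ▸ u)) (f none) f0)
      · obtain ⟨g, hj⟩ := lc 𝒟 H (tt w y j) (y (.inr j, 0)) j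
          (x0 ▸ isUnit_of_mul_isUnit_right ((e2 j).2 ▸ u))
          (f1 j fun e => one_ne_zero (α := Fin 2) (congrArg Prod.snd (Sum.inr.inj e))) (f none)
        exact r g hj
  rintro (_ | ⟨c, _ | ⟨j, i⟩⟩)
  · exact e0
  · exact (e1 c none).trans (mul_eq_zero_of_right _ key.1)
  · exact (e1 c (some (j, i))).trans (mul_eq_zero_of_right _ (key.2 j i))

end Idn

theorem idn (hE : EQ_s) : IDN_s := by
  intro R _ k N δ w 𝒟 σ
  set I := Ideal.span (Set.range fun o => 𝒟.eqp (sub σ o))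
  let q := Ideal.Quotient.mk I
  let φ := (algebraMap _ (Localization.Away (q (𝒟.hq C X σ)))).comp q
  obtain ⟨n1, n2⟩ := (hE R k N δ w 𝒟).1 _ _ C φ X
  have z := Idn.main 𝒟 (φ.comp C) (φ ∘ X) hE σ
    (n2 σ ▸ IsLocalization.Away.algebraMap_isUnit (q (𝒟.hq C X σ))) fun o => by
      rw [← n1]
      have : q (𝒟.eqv C X (sub σ o)) = 0 :=
        Ideal.Quotient.eq_zero_iff_mem.2 (Ideal.subset_span ⟨o, rfl⟩)
      rw [RingHom.comp_apply, this, map_zero]
  have e : ∀ i, ∃ n : ℕ, 𝒟.hq C X σ ^ n * 𝒟.eqp i ∈ I := fun i => by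
    obtain ⟨⟨_, n, rfl⟩, hn⟩ := (IsLocalization.map_eq_zero_iff
      (Submonoid.powers (q (𝒟.hq C X σ))) _ (q (𝒟.eqp i))).1 ((n1 i).trans (z i))
    exact ⟨n, Ideal.Quotient.eq_zero_iff_mem.1 (by rw [map_mul, map_pow]; exact hn)⟩
  choose n hn using e
  refine ⟨Finset.univ.sup n + 1, Nat.succ_pos _, fun i => ?_⟩
  obtain ⟨m, hm⟩ := Nat.exists_eq_add_of_le
    ((Finset.le_sup (f := n) (Finset.mem_univ i)).trans (Nat.le_succ _))
  rw [Nat.succ_eq_add_one] at hm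
  rw [hm, add_comm, pow_add, mul_assoc]
  exact I.mul_mem_left _ (hn i)

end Pool.Agent.MP_855f4c_ag.Cu.Md

end

section
/-! h92c section E: tangent vectors for fewer equations than lines. -/

open MvPolynomial

namespace Pool.Agent.MP_855f4c_ag.Cu.Md

open T

theorem tan_mem {R σ L : Type} [CommRing R] [Field L] (ψ : R →+* L) (x : σ → L) (E : Subfield L)
    (hψ : ∀ r, ψ r ∈ E) (hx : ∀ v, x v ∈ E) (P : MvPolynomial σ R) : eval₂ ψ x P ∈ E := by
  rw [eval₂_eq]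
  exact sum_mem fun d _ => mul_mem (hψ _) (prod_mem fun v _ => pow_mem (hx v) _)

theorem tan : TAN_s := by
  classical
  intro R κ ι L _ _ _ _ _ P ψ x E hc hz hψ hx
  choose i hi using hz
  let f : (κ → E) →ₗ[E] (ι → E) := Matrix.toLin' (Matrix.of fun a j =>
    (⟨eval₂ ψ x (pderiv (j, (i j).rev) (P a)), tan_mem ψ x E hψ hx _⟩ : E))
  obtain ⟨t, ht, h0⟩ : ∃ t, f t = 0 ∧ t ≠ 0 := by
    have := LinearMap.ker_ne_bot_of_finrank_lt (f := f) (by simpa using hc)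
    obtain ⟨t, ht, h0⟩ := Submodule.exists_mem_ne_zero_of_ne_bot this
    exact ⟨t, ht, h0⟩
  obtain ⟨j, hj⟩ := Function.ne_iff.1 h0
  have hj' : (t j : L) ≠ 0 := fun h => hj (Subtype.ext h)
  refine ⟨fun v => if v.2 = (i v.1).rev then (t v.1 : L) else 0, fun v => ?_, ⟨j, ?_⟩, fun a => ?_⟩
  · show (if _ then _ else _) ∈ E
    split_ifs
    exacts [(t v.1).2, zero_mem E]
  · have h := hi j
    have h2 : i j = 0 ∨ i j = 1 := by
      rcases i j with ⟨_ | _ | n, hn⟩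
      exacts [.inl rfl, .inr rfl, by omega]
    rcases h2 with e | e <;> rw [e] at h <;> simp [e, hj', h, Fin.rev]
  · have := congrArg Subtype.val (congrFun ht a)
    simp only [f, Matrix.toLin'_apply, Matrix.mulVec, dotProduct, Matrix.of_apply,
      AddSubmonoidClass.coe_finsetSum, MulMemClass.coe_mul, Pi.zero_apply,
      ZeroMemClass.coe_zero] at this
    rw [Fintype.sum_prod_type]
    refine Eq.trans (Finset.sum_congr rfl fun l _ => ?_) this
    simp only [ite_mul, zero_mul, Finset.sum_ite_eq', Finset.mem_univ, if_true, mul_comm]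

end Pool.Agent.MP_855f4c_ag.Cu.Md

end

section
/-! h92c section E: forms are given by their coefficients. -/

open MvPolynomial

namespace Pool.Agent.MP_855f4c_ag.Cu.Md

open T

theorem pack : PACK_s := by
  classical
  intro R κ _ _ _ c e P hP
  let ex : ∀ a, (∀ k, Fin (e a k + 1)) → XV κ →₀ ℕ := fun a j =>
    Finsupp.equivFunOnFinite.symm fun v => ![e a v.1 - j v.1, j v.1] v.2
  have hm : ∀ a j, mon j X = monomial (ex a j) (1 : R) := fun a j => by
    rw [monomial_eq, Finsupp.prod_fintype _ _ (by simp), Fintype.prod_prod_type]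
    simp [mon, ex]
  have h1 : ∀ a, gp (fun i : MI e => coeff (ex i.1 i.2) (P i.1)) a = P a := fun a => by
    ext d
    simp only [gp, gen, hm, coeff_sum, coeff_C_mul, coeff_monomial, mul_ite, mul_one, mul_zero]
    by_cases hd : coeff d (P a) = 0
    · exact (Finset.sum_eq_zero fun j _ => by split_ifs with h <;> simp [*]).trans hd.symm
    have hw : ∀ k, d (k, 0) + d (k, 1) = e a k := fun k => by
      have := congrFun (hP a hd) k
      rw [Finsupp.weight_apply, Finsupp.sum_fintype _ _ (by simp), Fintype.sum_prod_type] at this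
      simpa [Pi.single_apply, Finset.sum_add_distrib] using this
    obtain ⟨j₀, hj₀⟩ : ∃ j₀ : ∀ k, Fin (e a k + 1), ∀ k, (j₀ k : ℕ) = d (k, 1) :=
      ⟨fun k => ⟨d (k, 1), by have := hw k; omega⟩, fun _ => rfl⟩
    have he : ex a j₀ = d := by
      ext ⟨k, i⟩
      have := hw k
      fin_cases i <;> simp [ex, hj₀]
      omega
    rw [Finset.sum_eq_single_of_mem j₀ (Finset.mem_univ _) fun j _ hj => if_neg fun h => hj
      (funext fun k => Fin.ext (by simpa [ex, hj₀] using DFunLike.congr_fun h (k, 1))), if_pos he, he]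
  refine ⟨_, h1, fun D _ ψ y a => ?_⟩
  rw [← h1, ← coe_eval₂Hom]
  simp [gp, gen, mon]

end Pool.Agent.MP_855f4c_ag.Cu.Md

end

section
/-! h92c section E: the Jacobian criterion for the model. -/

open MvPolynomial TrivSqZeroExt

namespace Pool.Agent.MP_855f4c_ag.Cu.Md

open T

namespace Sm

section
variable {R F : Type} [CommRing R] [Field F]

/-- The coefficients in the dual numbers. -/
noncomputable abbrev du (a : R →+* F) : R →+* DualNumber F := (inlHom F F).comp a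

theorem fst_ev {σ : Type} (a : R →+* F) (y : σ → DualNumber F) (P : MvPolynomial σ R) :
    (eval₂ (du a) y P).fst = eval₂ a (fun v => (y v).fst) P := by
  induction P using MvPolynomial.induction_on with
  | C r => simp [du]
  | add p q hp hq => simp [hp, hq]
  | mul_X p i hp => simp [hp]

theorem snd_ev {σ : Type} [Fintype σ] [DecidableEq σ] (a : R →+* F) (y : σ → DualNumber F)
    (P : MvPolynomial σ R) :
    (eval₂ (du a) y P).snd = ∑ v, (y v).snd * eval₂ a (fun v => (y v).fst) (pderiv v P) := by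
  induction P using MvPolynomial.induction_on with
  | C r => simp [du]
  | add p q hp hq => simp [hp, hq, mul_add, Finset.sum_add_distrib]
  | mul_X p i hp =>
    rw [eval₂_mul, eval₂_X, DualNumber.snd_mul, hp, fst_ev, Finset.sum_mul]
    simp only [Derivation.leibniz, smul_eq_mul, eval₂_add, eval₂_mul, eval₂_X, mul_add,
      Finset.sum_add_distrib, pderiv_X]
    congr 1
    · rw [Finset.sum_eq_single i (fun b _ hb => by simp [hb.symm]) (by simp)]
      simp [mul_comm]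
    · exact Finset.sum_congr rfl fun v _ => by ring

theorem ev_inl {σ : Type} (a : R →+* F) (y : σ → F) (P : MvPolynomial σ R) :
    eval₂ (du a) (fun v => inl (y v)) P = inl (eval₂ a y P) :=
  (eval₂_comp_left (inlHom F F) a y P).symm

variable {k N δ w : ℕ}

/-- The forms in terms of `X, η` and the coordinates `ζ` of the lines `z j`. -/
noncomputable def fm {D : Type} [CommRing D] (𝒟 : Dat R k N δ w) (ψ : R →+* D) (x : Fin 2 → D)
    (η : D) (ζ : Fin δ → Fin 2 → D) : EO δ → D := fun o =>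
  o.elim (eval₂ ψ (p3 x η) 𝒟.G) fun q => 𝒟.zq (eval₂ ψ (p3 x η))
    (x 0 ^ w * ζ q.1 1 - x 1 ^ w * ζ q.1 0) (ζ q.1 0) q.1 q.2

/-- The linear relation `μ` holds for all first order deformations. -/
def Rel1 (𝒟 : Dat R k N δ w) (a : R →+* F) (x : Fin 2 → F) (η : F) (ζ : Fin δ → Fin 2 → F)
    (σ : SI δ) (μ : Option (Fin δ) → F) : Prop :=
  ∀ (x' : Fin 2 → DualNumber F) (η' : DualNumber F) (ζ' : Fin δ → Fin 2 → DualNumber F),
    (∀ i, (x' i).fst = x i) → η'.fst = η → (∀ j i, (ζ' j i).fst = ζ j i) →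
      ∑ o, μ o * (fm 𝒟 (du a) x' η' ζ' (fo σ o)).snd = 0

/-- The derivative of the three relations in the direction `(dT, dz)`. -/
noncomputable def dq (𝒟 : Dat R k N δ w) (H : P3 R → F) (T z dT dz : F) (j : Fin δ) : Fin 3 → F :=
  ![H (fb k (𝒟.yn j)) * dT - H (X (some 0) * 𝒟.al j * fa (𝒟.xn j)) * dz,
    H (fa (𝒟.xn j)) * dT +
      H (X (some 0) * (𝒟.ga j * fb k (𝒟.yn j) + 𝒟.be j * fa (𝒟.xn j))) * dz,
    H 1 * (2 * T * dT) + H (X (some 0) * 𝒟.be j) * (T * dz + dT * z) +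
      H (X (some 0) ^ 2 * (𝒟.al j * 𝒟.ga j)) * (2 * z * dz)]

theorem snd_zq (𝒟 : Dat R k N δ w) (H : P3 R → F) (T z : DualNumber F) (j : Fin δ) (r : Fin 3) :
    (𝒟.zq (fun P => inl (H P)) T z j r).snd = dq 𝒟 H T.fst z.fst T.snd z.snd j r := by
  fin_cases r <;> simp [Dat.zq, dq, pow_two]
  ring

theorem dq_zero (𝒟 : Dat R k N δ w) (H : P3 R → F) (T z : F) (j : Fin δ) (r : Fin 3) :
    dq 𝒟 H T z 0 0 j r = 0 := by
  fin_cases r <;> simp [dq]

/-- The derivative of a form when only the line `z j` moves. -/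
noncomputable def dz (𝒟 : Dat R k N δ w) (a : R →+* F) (x : Fin 2 → F) (η : F)
    (ζ : Fin δ → Fin 2 → F) (j : Fin δ) (e : Fin 2 → F) : EO δ → F := fun o =>
  o.elim 0 fun q => if q.1 = j then dq 𝒟 (eval₂ a (p3 x η)) (x 0 ^ w * ζ j 1 - x 1 ^ w * ζ j 0)
    (ζ j 0) (x 0 ^ w * e 1 - x 1 ^ w * e 0) (e 0) j q.2 else 0

variable {𝒟 : Dat R k N δ w} {a : R →+* F} {x : Fin 2 → F} {η : F} {ζ : Fin δ → Fin 2 → F}
  {σ : SI δ} {μ : Option (Fin δ) → F}

theorem Rel1.z (h : Rel1 𝒟 a x η ζ σ μ) (j : Fin δ) (e : Fin 2 → F) :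
    μ none * dz 𝒟 a x η ζ j e (fo σ none) + μ (some j) * dz 𝒟 a x η ζ j e (fo σ (some j)) = 0 := by
  have h1 := h (fun i => inl (x i)) (inl η)
    (fun i r => inl (ζ i r) + inr (if i = j then e r else 0)) (by simp) (by simp)
    (fun _ _ => by rw [fst_add, fst_inl, fst_inr, add_zero])
  have hp : p3 (fun i => (inl (x i) : DualNumber F)) (inl η) = fun v => inl (p3 x η v) := by
    ext1 (_ | i) <;> rfl
  have hH : eval₂ (du a) (p3 (fun i => (inl (x i) : DualNumber F)) (inl η)) =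
      fun P : P3 R => inl (eval₂ a (p3 x η) P) := by
    ext1 P
    rw [hp, ev_inl]
  have h2 : ∀ o, (fm 𝒟 (du a) (fun i => inl (x i)) (inl η)
      (fun i r => inl (ζ i r) + inr (if i = j then e r else 0)) o).snd = dz 𝒟 a x η ζ j e o := by
    rintro (_ | ⟨i, r⟩)
    · simp [fm, dz, hH]
    · simp only [fm, dz, hH, Option.elim, snd_zq]
      by_cases hi : i = j
      · subst hi
        simp
      · simp [hi, dq_zero]
  simp only [h2, Fintype.sum_option] at h1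
  rw [Finset.sum_eq_single j (fun b _ hb => by simp [fo, dz, hb]) (by simp)] at h1
  exact h1

theorem Rel1.g (h : Rel1 𝒟 a x η ζ σ μ) (hσ : fo σ none = none) (h0 : ∀ i, μ (some i) = 0)
    (v : Option (Fin 2)) (hv : eval₂ a (p3 x η) (pderiv v 𝒟.G) ≠ 0) : μ none = 0 := by
  have h1 := h (fun i => inl (x i) + inr ((Pi.single v 1 : Option (Fin 2) → F) (some i)))
    (inl η + inr ((Pi.single v 1 : Option (Fin 2) → F) none)) (fun i r => inl (ζ i r))
    (by simp) (by simp) (by simp)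
  have hp : p3 (fun i => (inl (x i) + inr ((Pi.single v 1 : Option (Fin 2) → F) (some i)) :
      DualNumber F)) (inl η + inr ((Pi.single v 1 : Option (Fin 2) → F) none)) =
      fun o => inl (p3 x η o) + inr ((Pi.single v 1 : Option (Fin 2) → F) o) := by
    ext1 (_ | i) <;> rfl
  simp only [Fintype.sum_option, h0, zero_mul, Finset.sum_const_zero, add_zero, hσ, fm,
    Option.elim, hp] at h1
  rw [snd_ev, Finset.sum_eq_single v (fun b _ hb => by simp [hb]) (by simp)] at h1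
  simpa [hv] using h1

theorem ev_fa {D : Type} [CommRing D] (ψ : R →+* D) (x : Fin 2 → D) (η : D) (s : R) :
    eval₂ ψ (p3 x η) (fa s) = x 1 - ψ s * x 0 := by
  simp [fa, eval₂_sub, p3]

theorem ev_fb {D : Type} [CommRing D] (ψ : R →+* D) (x : Fin 2 → D) (η : D) (s : R) :
    eval₂ ψ (p3 x η) (fb k s) = η - ψ s * x 0 ^ k := by
  simp [fb, eval₂_sub, eval₂_pow, p3]

theorem Rel1.e (h : Rel1 𝒟 a x η ζ σ μ) (j : Fin δ) (hσ : fo σ (some j) = some (j, 1))
    (hn : μ none = 0) (h0 : ∀ i, i ≠ j → μ (some i) = 0) (ha : x 1 - a (𝒟.xn j) * x 0 = 0)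
    (hb : η - a (𝒟.yn j) * x 0 ^ k = 0) (hx : x 0 ≠ 0) (hz : ζ j 0 ≠ 0)
    (hg : eval₂ a (p3 x η) (𝒟.ga j) ≠ 0) : μ (some j) = 0 := by
  have h1 := h (fun i => inl (x i)) (inl η + inr 1) (fun i r => inl (ζ i r))
    (by simp) (by simp) (by simp)
  simp only [Fintype.sum_option, hn, zero_mul, zero_add] at h1
  rw [Finset.sum_eq_single j (fun b _ hb => by simp [h0 b hb]) (by simp), hσ] at h1
  have e1 : (inl (x 1) - du a (𝒟.xn j) * inl (x 0) : DualNumber F) = 0 := by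
    ext <;> simp [du, ha]
  have e2 : (inl η + inr 1 - du a (𝒟.yn j) * inl (x 0) ^ k : DualNumber F) = inr 1 := by
    ext <;> simp [du, hb]
  have e3 : (fun v => (p3 (fun i => (inl (x i) : DualNumber F)) (inl η + inr 1) v).fst) =
      p3 x η := by
    ext1 (_ | i) <;> simp [p3]
  simp only [fm, Option.elim, Dat.zq, Matrix.cons_val, eval₂_mul, eval₂_add, eval₂_X, ev_fa, ev_fb,
    e1, e2, zero_mul, mul_zero, add_zero, zero_add, DualNumber.snd_mul, fst_mul, fst_ev, e3] at h1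
  simpa [p3, hx, hz, hg] using h1

theorem dual (hEQ : EQ_s) {y : XV (KC δ) → F} {lam : Option (Option (Fin δ)) → F}
    (hl : ∀ v, ∑ o, lam o * eval₂ a y (pderiv v (𝒟.eqp (sub σ o))) = 0)
    (y' : XV (KC δ) → DualNumber F) (hy : ∀ v, (y' v).fst = y v) :
    ∑ o, lam o * (𝒟.eqv (du a) y' (sub σ o)).snd = 0 := by
  have h1 : ∀ i, 𝒟.eqv (du a) y' i = eval₂ (du a) y' (𝒟.eqp i) := fun i => by
    have h := ((hEQ R k N δ w 𝒟).1 _ _ C (eval₂Hom (du a) y') X).1 i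
    rw [show (eval₂Hom (du a) y').comp C = du a from RingHom.ext fun r => eval₂Hom_C _ _ r,
      show ⇑(eval₂Hom (du a) y') ∘ X = y' from funext fun v => eval₂Hom_X' _ _ v] at h
    exact h.symm
  simp only [h1, snd_ev, hy, Finset.mul_sum]
  rw [Finset.sum_comm]
  refine Finset.sum_eq_zero fun v _ => ?_
  simp only [mul_left_comm (lam _)]
  rw [← Finset.mul_sum, hl, mul_zero]

theorem rel1 (hEQ : EQ_s) {y : XV (KC δ) → F} {lam : Option (Option (Fin δ)) → F}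
    (hl : ∀ v, ∑ o, lam o * eval₂ a y (pderiv v (𝒟.eqp (sub σ o))) = 0) (hZ : 𝒟.Z a y)
    {θ : Fin δ → F} {c : KC δ → F} (hc : c (.inl 0) = 1)
    (hy : ∀ v, y v = c v.1 * pt k w x η θ v) (ht : y (.inl (ch σ).succ, 0) ≠ 0) :
    Rel1 𝒟 a x η (fun j i => y (.inr j, i)) σ
      fun o => lam (some o) * y (.inl (ch σ).succ, 0) ^ mm k N w (fo σ o) := by
  intro x' η' ζ' hx hη hζ
  let y' : XV (KC δ) → DualNumber F := fun v => v.1.elim
    (fun l => inl (c (.inl l)) * ![x', ![x' 0 ^ k, η'], ![x' 1 ^ k, η']] l v.2) fun j => ζ' j v.2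
  have hy' : ∀ v, (y' v).fst = y v := by
    rintro ⟨l | j, i⟩
    · rw [hy]
      fin_cases l <;> fin_cases i <;> simp [y', pt, hx, hη]
    · exact hζ j i
  have h0 : ∀ i, y' (.inl 0, i) = x' i := fun i => by simp [y', hc]
  have hx' : xx y' = x' := funext h0
  have hon : On k y' η' := fun l => by
    rw [ss, h0]
    fin_cases l <;> simp [y'] <;> ring
  obtain ⟨e0, e1, -⟩ := ((hEQ R k N δ w 𝒟).2.2 _ (du a) y').2 η' hon
  have hf : ∀ o, 𝒟.form (eval₂ (du a) (p3 (xx y') η')) y' o = fm 𝒟 (du a) x' η' ζ' o := by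
    rintro (_ | q)
    · rw [hx']; rfl
    · simp only [Dat.form, fm, Option.elim, tt, h0, hx']; rfl
  have hz : ∀ i, (𝒟.eqv (du a) y' i).fst = 0 := fun i => by
    have h := ((hEQ R k N δ w 𝒟).1 _ _ (du a) (fstHom F F F).toRingHom y').1 i
    rw [show (fstHom F F F).toRingHom.comp (du a) = a from RingHom.ext fun r => by simp [du],
      show ⇑(fstHom F F F).toRingHom ∘ y' = y from funext hy', hZ] at h
    exact h
  have h := dual hEQ hl y' hy'
  rw [Fintype.sum_option] at h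
  simp only [sub, Option.map, e0, snd_zero, mul_zero, zero_add] at h
  refine Eq.trans (Finset.sum_congr rfl fun o _ => ?_) h
  have h1 := hz (some (ch σ, fo σ o))
  rw [e1, hf, fst_mul, fst_pow, hy', mul_eq_zero] at h1
  rw [e1, hf, DualNumber.snd_mul, h1.resolve_left (pow_ne_zero _ ht), fst_pow, hy']
  ring

theorem link (hEQ : EQ_s) {y : XV (KC δ) → F} {lam : Option (Option (Fin δ)) → F}
    (hl : ∀ v, ∑ o, lam o * eval₂ a y (pderiv v (𝒟.eqp (sub σ o))) = 0) (hn : Nz y)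
    {θ : Fin δ → F} {c : KC δ → F} (hc : c (.inl 0) = 1) (hc' : ∀ j, c j ≠ 0)
    (hy : ∀ v, y v = c v.1 * pt k w x η θ v) (h0 : ∀ o, lam (some o) = 0) : lam = 0 := by
  have key : ∀ d : XV (KC δ) → F, (∀ i, d (.inl 0, i) = 0) → lam none *
      (y (.inl 0, 0) ^ k * (y (.inl 1, 1) * d (.inl 2, 0) + d (.inl 1, 1) * y (.inl 2, 0)) -
      y (.inl 0, 1) ^ k * (y (.inl 2, 1) * d (.inl 1, 0) + d (.inl 2, 1) * y (.inl 1, 0))) = 0 := by
    intro d hd
    have h := dual hEQ hl (fun v => inl (y v) + inr (d v))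
      fun _ => by rw [fst_add, fst_inl, fst_inr, add_zero]
    rw [Fintype.sum_option] at h
    simp only [h0, zero_mul, Finset.sum_const_zero, add_zero] at h
    rw [← h]
    congr 1
    simp [sub, Dat.eqv, ss, hd]
    ring
  have e10 : y (.inl 1, 0) = c (.inl 1) * y (.inl 0, 0) ^ k := by simp [hy, pt, hc]
  have e11 : y (.inl 1, 1) = c (.inl 1) * η := by simp [hy, pt]
  have e21 : y (.inl 2, 1) = c (.inl 2) * η := by simp [hy, pt]
  have hn0 : lam none = 0 := by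
    by_cases hη : η = 0
    · have h1 : y (.inl 1, 0) ≠ 0 := by
        obtain ⟨i, hi⟩ := hn (.inl 1)
        fin_cases i
        · exact hi
        · exact absurd (by rw [← mul_zero (c (.inl 1)), ← hη]; exact e11) hi
      have h2 : y (.inl 2, 0) ≠ 0 := by
        obtain ⟨i, hi⟩ := hn (.inl 2)
        fin_cases i
        · exact hi
        · exact absurd (by rw [← mul_zero (c (.inl 2)), ← hη]; exact e21) hi
      have h3 : y (.inl 0, 0) ^ k ≠ 0 := right_ne_zero_of_mul (e10 ▸ h1)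
      simpa [h2, h3, -pow_eq_zero_iff', -pow_eq_zero_iff] using
        key (Pi.single (Sum.inl 1, 1) 1) (by simp)
    · obtain ⟨i, hi⟩ := hn (.inl 0)
      fin_cases i
      · have hi : y (.inl 0, 0) ≠ 0 := hi
        simpa [e11, hi, hη, hc'] using key (Pi.single (Sum.inl 2, 0) 1) (by simp)
      · have hi : y (.inl 0, 1) ≠ 0 := hi
        simpa [e21, hi, hη, hc'] using key (Pi.single (Sum.inl 1, 0) 1) (by simp)
  ext (_ | o)
  exacts [hn0, h0 o]

theorem Rel1.off (h : Rel1 𝒟 a x η ζ σ μ) (i : Fin δ) (hi : fo σ (some i) = some (i, 1))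
    (hN : ∀ e, dz 𝒟 a x η ζ i e (fo σ none) = 0) (ha : x 1 - a (𝒟.xn i) * x 0 ≠ 0) :
    μ (some i) = 0 := by
  by_cases h0 : x 0 = 0
  · have h1 : x 1 ≠ 0 := by simpa [h0] using ha
    have := h.z i ![1, 0]
    rw [hN, hi] at this
    simpa [dz, dq, ev_fa, eval₂_mul, p3, h0, h1] using this
  · have := h.z i ![0, 1]
    rw [hN, hi] at this
    simpa [dz, dq, ev_fa, ha, h0] using this

theorem map_fa (s : R) : map a (fa s) = fa (a s) := by simp [fa]

theorem map_fb (s : R) : map a (fb k s) = fb k (a s) := by simp [fb]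

end

end Sm

open Sm in
theorem sm (hEQ : EQ_s) (hPAR : PAR_s) : SM_s := by
  intro F 𝒦 _ _ _ x₀ 𝒩 R _ w 𝒟 a hO y hy hZ
  obtain ⟨η, θ, c, hc0, hc, hR, hyv⟩ := (hPAR R _ _ _ _ 𝒟 F a).2 y hy hZ
  obtain ⟨x, hx⟩ : ∃ x, x = xx y := ⟨_, rfl⟩
  rw [← hx] at hR hyv
  have hx0 : ∀ i, y (.inl 0, i) = x i := fun i => by rw [hx]; rfl
  have ht : ∀ l : Fin 2, y (.inl l.succ, 0) = c (.inl l.succ) * x l ^ 𝒩.k := fun l => by
    rw [hyv]
    fin_cases l <;> simp [pt]
  have hon : On 𝒩.k y η := fun l => by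
    rw [ss, hx0, ht, hyv]
    fin_cases l <;> simp [pt] <;> ring
  have hav : ∀ j, 𝒟.av a y j = x 1 - a (𝒟.xn j) * x 0 := fun j => by rw [Dat.av, hx0, hx0]
  suffices H : ∃ σ, 𝒟.hq a y σ ≠ 0 ∧ x (ch σ) ≠ 0 ∧
      ∀ μ, Rel1 𝒟 a x η (fun j i => y (.inr j, i)) σ μ → μ = 0 by
    obtain ⟨σ, h1, h2, h3⟩ := H
    have h4 : y (.inl (ch σ).succ, 0) ≠ 0 := ht _ ▸ mul_ne_zero (hc _) (pow_ne_zero _ h2)
    refine ⟨σ, h1, fun lam hl => link hEQ hl hy hc0 hc hyv fun o => ?_⟩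
    exact (mul_eq_zero.1 (congrFun (h3 _ (rel1 hEQ hl hZ hc0 hyv h4)) o)).resolve_right
      (pow_ne_zero _ h4)
  obtain ⟨l, hl⟩ : ∃ l, x l ≠ 0 := by simpa only [hx0] using hy (.inl 0)
  have hsm : (∀ j, ¬ (x 1 - a (𝒟.xn j) * x 0 = 0 ∧ η - a (𝒟.yn j) * x 0 ^ 𝒩.k = 0)) →
      ∃ v, eval₂ a (p3 x η) (pderiv v 𝒟.G) ≠ 0 := fun h => by
    have := 𝒩.smooth (p3 x η) ⟨l, hl⟩ (by rw [← hO.1, eval_map]; exact hR.1) fun j => by
      rw [← hO.2.1, ← hO.2.2, ← map_fa, ← map_fb, eval_map, eval_map, ev_fa, ev_fb]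
      exact h j
    simpa only [← hO.1, pderiv_map, eval_map] using this
  by_cases hnd : ∀ j, x 1 - a (𝒟.xn j) * x 0 ≠ 0
  · refine ⟨.inl l, mul_ne_zero (ht _ ▸ mul_ne_zero (hc _) (pow_ne_zero _ hl))
      (Finset.prod_ne_zero_iff.2 fun j _ => hav j ▸ hnd j), hl, fun μ h => ?_⟩
    have h0 : ∀ i, μ (some i) = 0 := fun i => h.off i (by simp [fo]) (fun _ => rfl) (hnd i)
    obtain ⟨v, hv⟩ := hsm fun j hj => hnd j hj.1
    ext (_ | i)
    exacts [h.g rfl h0 v hv, h0 i]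
  obtain ⟨j, hj⟩ : ∃ j, x 1 - a (𝒟.xn j) * x 0 = 0 := by simpa using hnd
  have h0 : x 0 ≠ 0 := fun h => by
    have h1 : x 1 = 0 := by simpa [h] using hj
    fin_cases l
    exacts [hl h, hl h1]
  have hne : ∀ i, i ≠ j → x 1 - a (𝒟.xn i) * x 0 ≠ 0 := fun i hi h => by
    refine hi (𝒩.inj ?_)
    rw [← hO.2.1, ← hO.2.1]
    exact mul_right_cancel₀ h0 (by linear_combination hj - h)
  have hp : ∏ i ∈ Finset.univ.erase j, 𝒟.av a y i ≠ 0 :=
    Finset.prod_ne_zero_iff.2 fun i hi => hav i ▸ hne i (Finset.ne_of_mem_erase hi)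
  have ht0 : y (.inl 1, 0) ≠ 0 := (ht 0).symm ▸ mul_ne_zero (hc _) (pow_ne_zero _ h0)
  obtain ⟨q0, q1⟩ := (((hEQ R _ _ _ _ 𝒟).2.2 _ a y).2 η hon).2.2 j
  rw [hx0] at q0 q1
  rw [← hx] at q1
  by_cases hb : η - a (𝒟.yn j) * x 0 ^ 𝒩.k = 0
  swap
  · refine ⟨.inr (j, 0), q0 ▸ mul_ne_zero (mul_ne_zero (pow_ne_zero _ ht0) hp) hb, h0,
      fun μ h => ?_⟩
    have h1 : ∀ i, μ (some i) = 0 := fun i => by
      by_cases hi : i = j
      · subst hi
        simpa [fo, dz, dq, ev_fb, hb, h0] using h.z i ![0, 1]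
      · exact h.off i (by simp [fo, Ne.symm hi]) (fun _ => rfl) (hne i hi)
    obtain ⟨v, hv⟩ := hsm fun i hi => by
      by_cases e : i = j
      exacts [hb (e ▸ hi.2), hne i e hi.1]
    ext (_ | i)
    exacts [h.g rfl h1 v hv, h1 i]
  obtain ⟨n₁, e₁, w₁⟩ := 𝒟.hal j
  obtain ⟨n₂, e₂, w₂⟩ := 𝒟.hbe j
  obtain ⟨n₃, e₃, w₃⟩ := 𝒟.hga j
  obtain ⟨g1, g2⟩ := 𝒩.node j (map a (𝒟.al j)) (map a (𝒟.be j)) (map a (𝒟.ga j)) (by
    rw [← hO.1, ← hO.2.1, ← hO.2.2, 𝒟.dec j]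
    simp only [map_add, map_mul, map_pow, map_fa, map_fb])
  have hsc : p3 x η = p3 (fun i => x 0 * ![1, 𝒩.xn j] i) (x 0 ^ 𝒩.k * 𝒩.yn j) := by
    rw [← hO.2.1, ← hO.2.2]
    ext (_ | i)
    · simp only [p3, Option.elim]
      linear_combination hb
    · fin_cases i <;> simp [p3]
      linear_combination hj
  simp only [map_sub, map_mul, map_pow, eval_map, pt3_eq, map_ofNat] at g1 g2
  have hg : eval₂ a (p3 x η) (𝒟.ga j) ≠ 0 := by
    rw [hsc, w₃.scale]
    exact mul_ne_zero (pow_ne_zero _ h0) g1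
  have hd : eval₂ a (p3 x η) (𝒟.be j) ^ 2 -
      4 * eval₂ a (p3 x η) (𝒟.al j) * eval₂ a (p3 x η) (𝒟.ga j) ≠ 0 := by
    rw [hsc, w₁.scale, w₂.scale, w₃.scale]
    refine fun h => mul_ne_zero (pow_ne_zero (n₁ + n₃) h0) g2 ?_
    rw [← h, mul_pow, ← pow_mul, show n₂ * 2 = n₁ + n₃ by omega]
    ring
  have z0 : y (.inr j, 0) = c (.inr j) * x 0 ^ w := by simp [hyv, pt]
  have z1 : y (.inr j, 1) = c (.inr j) * (θ j + x 1 ^ w) := by simp [hyv, pt]
  have hz : y (.inr j, 0) ≠ 0 := z0 ▸ mul_ne_zero (hc _) (pow_ne_zero _ h0)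
  refine ⟨.inr (j, 1), q1 ▸ mul_ne_zero (mul_ne_zero (pow_ne_zero _ ht0) hp)
    (mul_ne_zero (mul_ne_zero h0 hz) hg), h0, fun μ h => ?_⟩
  have h1 : ∀ i, i ≠ j → μ (some i) = 0 := fun i hi =>
    h.off i (by simp [fo]) (fun _ => by simp [fo, dz, hi.symm]) (hne i hi)
  have h2 : μ none = 0 := by
    have r := hR.2 j 2
    have s := h.z j ![0, 1]
    simp only [Dat.zq, Matrix.cons_val, eval₂_one, eval₂_mul, eval₂_pow, eval₂_X,
      show p3 x η (some 0) = x 0 from rfl] at r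
    have hθ : 2 * θ j + x 0 * eval₂ a (p3 x η) (𝒟.be j) ≠ 0 := fun e =>
      mul_ne_zero (pow_ne_zero 2 h0) hd (by
        linear_combination (2 * θ j + x 0 * eval₂ a (p3 x η) (𝒟.be j)) * e - 4 * r)
    have s' : μ none * (c (.inr j) * x 0 ^ w * x 0 ^ w *
        (2 * θ j + x 0 * eval₂ a (p3 x η) (𝒟.be j))) = 0 := by
      rw [← s]
      simp [fo, dz, dq, ev_fa, hj, z0, z1, eval₂_mul, p3]
      exact Or.inl (by ring)
    exact (mul_eq_zero.1 s').resolve_right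
      (mul_ne_zero (mul_ne_zero (z0 ▸ hz) (pow_ne_zero _ h0)) hθ)
  have h3 := h.e j (by simp [fo]) h2 h1 hj hb h0 hz hg
  ext (_ | i)
  · exact h2
  · by_cases hi : i = j
    exacts [hi ▸ h3, h1 i hi]

end Pool.Agent.MP_855f4c_ag.Cu.Md

end

section
open MvPolynomial

namespace Pool.Agent.MP_855f4c_ag.Cu.Md

open T

namespace Fn

/-- The normalised point. -/
noncomputable def nm {κ L : Type} [Field L] (p : XV κ → L) : XV κ → L := fun v =>
  open Classical in if p (v.1, 0) = 0 then ![0, 1] v.2 else p v / p (v.1, 0)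

theorem eq_nm {κ L : Type} [Field L] {y p : XV κ → L} {c : κ → L} (hy : Nm y) (hc : ∀ j, c j ≠ 0)
    (h : ∀ v, y v = c v.1 * p v) : y = nm p := by
  funext ⟨j, i⟩
  have h0 := h (j, 0)
  have h1 := h (j, i)
  rcases hy j with a | ⟨a, b⟩
  · have : p (j, 0) ≠ 0 := fun e => by simp [a, e] at h0
    simp only [nm, this, if_false]
    rw [eq_div_iff this, h1]
    linear_combination (-p (j, i)) * (h0.symm.trans a) + 2 * (p (j, i)) * (h0.symm.trans a)
  · have : p (j, 0) = 0 := by simpa [a, hc j] using h0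
    simp only [nm, this, if_true]
    fin_cases i <;> simp [a, b]

theorem nz {κ L : Type} [Field L] {y : XV κ → L} (hy : Nm y) : Nz y := fun j =>
  (hy j).elim (fun a => ⟨0, by simp [a]⟩) fun a => ⟨1, by simp [a.2]⟩

theorem quad {A L : Type} [CommRing A] [Nontrivial A] [CommRing L] [Algebra A L] (b c : A) :
    ∃ q : Polynomial A, q.Monic ∧ ∀ z : L,
      Polynomial.aeval z q = z ^ 2 + algebraMap A L b * z + algebraMap A L c :=
  ⟨Polynomial.X ^ 2 + Polynomial.C b * Polynomial.X + Polynomial.C c, by monicity!,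
    fun z => by simp⟩

end Fn

theorem fin (hM : MO_s) (hP : PAR_s) : FIN_s := by
  intro R _ k N δ w 𝒟 L _ ψ
  have z3 : ∀ x η θ, 𝒟.Rl ψ x η θ → ∀ j, θ j ^ 2 + eval₂ ψ (p3 x η) (X (some 0) * 𝒟.be j) * θ j +
      eval₂ ψ (p3 x η) (X (some 0) ^ 2 * (𝒟.al j * 𝒟.ga j)) = 0 := fun x η θ h j => by
    have := h.2 j 2
    simp only [Dat.zq, Matrix.cons_val, eval₂_one] at this
    linear_combination this
  refine ⟨fun y E j hy hz hψ hx => ?_, fun x => ?_⟩
  · obtain ⟨η, θ, c, -, hc, hr, h⟩ := (hP R k N δ w 𝒟 L ψ).2 y (Fn.nz hy) hz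
    have hx' : ∀ i, xx y i ∈ E := fun i => by
      fin_cases i
      · rcases hy (.inl 0) with a | a
        · exact (show y (.inl 0, 0) ∈ E from a ▸ one_mem E)
        · exact (show y (.inl 0, 0) ∈ E from a.1 ▸ zero_mem E)
      · exact hx
    let T := algebraicClosure E L
    have hE : ∀ z ∈ E, z ∈ T := fun z hz => T.algebraMap_mem ⟨z, hz⟩
    have hη : η ∈ T := by
      obtain ⟨q, q1, -, q2⟩ := hM.1 R E k N 𝒟.G (ψ.codRestrict E hψ) (fun i => ⟨_, hx' i⟩) 𝒟.mo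
      exact mem_algebraicClosure_iff'.2 ⟨q, q1, (q2 L E.subtype η).trans hr.1⟩
    have hH : ∀ P : P3 R, eval₂ ψ (p3 (xx y) η) P ∈ T := fun P =>
      eval₂_mem (fun _ _ => hE _ (hψ _)) fun o => by cases o; exacts [hη, hE _ (hx' _)]
    have hθ : ∀ j, θ j ∈ T := fun j => by
      obtain ⟨q, q1, q2⟩ := Fn.quad (L := L) (⟨_, hH (X (some 0) * 𝒟.be j)⟩ : T)
        ⟨_, hH (X (some 0) ^ 2 * (𝒟.al j * 𝒟.ga j))⟩
      exact mem_algebraicClosure_iff'.2 (isIntegral_trans (A := T) _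
        ⟨q, q1, (q2 _).trans (z3 _ _ _ hr j)⟩)
    have hp : ∀ v, pt k w (xx y) η θ v ∈ T := by
      have a := fun i n => pow_mem (hE _ (hx' i)) n
      rintro ⟨l | j, i⟩
      · fin_cases l <;> fin_cases i
        exacts [hE _ (hx' 0), hE _ (hx' 1), a 0 k, hη, a 1 k, hη]
      · fin_cases i
        exacts [a 0 w, add_mem (hθ j) (a 1 w)]
    rw [Fn.eq_nm hy hc h, ← mem_algebraicClosure_iff, Fn.nm]
    split_ifs
    exacts [one_mem _, div_mem (hp _) (hp _)]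
  · have hS : Set.Finite {p : L × (Fin δ → L) | 𝒟.Rl ψ x p.1 p.2} := by
      obtain ⟨q, q1, -, q2⟩ := hM.1 R L k N 𝒟.G ψ x 𝒟.mo
      choose Q Q1 Q2 using fun (η : L) j => Fn.quad (L := L)
        (eval₂ ψ (p3 x η) (X (some 0) * 𝒟.be j))
        (eval₂ ψ (p3 x η) (X (some 0) ^ 2 * (𝒟.al j * 𝒟.ga j)))
      refine ((q.rootSet_finite L).biUnion fun η _ => (Set.finite_singleton η).prod
        (Set.Finite.pi' fun j => (Q η j).rootSet_finite L)).subset fun p hp => ?_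
      exact Set.mem_biUnion (Polynomial.mem_rootSet.2 ⟨q1.ne_zero, (q2 L (RingHom.id L) _).trans hp.1⟩)
        ⟨rfl, fun j => Polynomial.mem_rootSet.2 ⟨(Q1 _ j).ne_zero, (Q2 _ j _).trans (z3 _ _ _ hp j)⟩⟩
    refine (hS.image fun p => Fn.nm (pt k w x p.1 p.2)).subset ?_
    rintro y ⟨hy, hz, rfl⟩
    obtain ⟨η, θ, c, -, hc, hr, h⟩ := (hP R k N δ w 𝒟 L ψ).2 y (Fn.nz hy) hz
    exact ⟨(η, θ), hr, (Fn.eq_nm hy hc h).symm⟩

end Pool.Agent.MP_855f4c_ag.Cu.Md

end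

section
/-! h92c section E: the model maps onto the plane curve, injectively away from the nodes. -/

open MvPolynomial

namespace Pool.Agent.MP_855f4c_ag.Cu.Md

open T

namespace Onto

variable {L : Type} [Field L]

lemma root [IsAlgClosed L] (a b al be ga u : L) (h : al * a ^ 2 + be * (a * b) + ga * b ^ 2 = 0) :
    ∃ θ, b * θ - u * al * a * 1 = 0 ∧ a * θ + u * (ga * b + be * a) * 1 = 0 ∧
      1 * θ ^ 2 + u * be * (θ * 1) + u ^ 2 * (al * ga) * 1 ^ 2 = 0 := by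
  by_cases ha : a = 0
  · by_cases hb : b = 0
    · obtain ⟨θ, hθ⟩ := IsAlgClosed.exists_root
        (Polynomial.C 1 * Polynomial.X ^ 2 + Polynomial.C (u * be) * Polynomial.X +
          Polynomial.C (u ^ 2 * (al * ga))) (by rw [Polynomial.degree_quadratic one_ne_zero]; simp)
      refine ⟨θ, by simp [ha, hb], by simp [ha, hb], ?_⟩
      simpa using hθ
    · have : ga = 0 := by simpa [ha, hb] using h
      exact ⟨0, by simp [ha], by simp [ha, this], by simp [this]⟩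
  · obtain ⟨θ, e⟩ : ∃ θ, a * θ + u * (ga * b + be * a) * 1 = 0 :=
      ⟨-(u * (ga * b + be * a)) / a, by field_simp; ring⟩
    refine ⟨θ, mul_left_cancel₀ ha ?_, e, mul_left_cancel₀ (pow_ne_zero 2 ha) ?_⟩
    · linear_combination b * e - u * h
    · linear_combination (a * θ - u * ga * b) * e + u ^ 2 * ga * h

lemma nm {κ : Type} {c c' : κ → L} {P y y' : XV κ → L} (h : Nm y) (h' : Nm y') (hc : ∀ j, c j ≠ 0)
    (hc' : ∀ j, c' j ≠ 0) (e : ∀ v, y v = c v.1 * P v) (e' : ∀ v, y' v = c' v.1 * P v) :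
    y' = y := by
  funext v
  rw [e, e']
  congr 1
  have k (i) (p : y (v.1, i) = 1) (q : y' (v.1, i) = 1) : c' v.1 = c v.1 :=
    mul_right_cancel₀ (right_ne_zero_of_mul_eq_one ((e _).symm.trans p))
      (((e' (v.1, i)).symm.trans q).trans (p.symm.trans (e _)))
  rcases h v.1 with p | ⟨p, p'⟩ <;> rcases h' v.1 with q | ⟨q, q'⟩
  · exact k 0 p q
  · exact absurd ((e' _).symm.trans q)
      (mul_ne_zero (hc' _) (right_ne_zero_of_mul_eq_one ((e _).symm.trans p)))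
  · exact absurd ((e _).symm.trans p)
      (mul_ne_zero (hc _) (right_ne_zero_of_mul_eq_one ((e' _).symm.trans q)))
  · exact k 1 p' q'

variable {R : Type} [CommRing R] {k N δ w : ℕ} (𝒟 : Dat R k N δ w) (ψ : R →+* L)

lemma rl [IsAlgClosed L] {x : Fin 2 → L} {η : L} (h : eval₂ ψ (p3 x η) 𝒟.G = 0) :
    ∃ θ, 𝒟.Rl ψ x η θ := by
  let H := eval₂Hom ψ (p3 x η)
  choose θ h1 h2 h3 using fun j => root (H (fa (𝒟.xn j))) (H (fb k (𝒟.yn j))) (H (𝒟.al j))
    (H (𝒟.be j)) (H (𝒟.ga j)) (H (X (some 0))) (by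
      simpa only [map_add, map_mul, map_pow] using (congrArg H (𝒟.dec j)).symm.trans h)
  refine ⟨θ, h, fun j i => ?_⟩
  change 𝒟.zq H (θ j) 1 j i = 0
  fin_cases i <;> simp only [Dat.zq, Matrix.cons_val, Fin.zero_eta, Fin.mk_one, Fin.reduceFinMk,
    map_add, map_mul, map_pow, map_one]
  exacts [h1 j, h2 j, h3 j]

lemma ne {x : Fin 2 → L} (h0 : x 0 = 0) (h1 : x 1 ≠ 0) : eval₂ ψ (p3 x 0) 𝒟.G ≠ 0 := by
  have := Wh.scale 𝒟.mo.2.1 ψ (Pi.single 1 1) 0 (x 1)
  have e : (fun i => x 1 * (Pi.single 1 1 : Fin 2 → L) i) = x := by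
    funext i; fin_cases i <;> simp [h0]
  rw [e, mul_zero] at this
  rw [this]
  refine mul_ne_zero (pow_ne_zero _ h1) ?_
  have u := ((𝒟.n1 1).map ψ).ne_zero
  rw [← eval₂_id, eval₂_comp_left, RingHom.comp_id] at u
  refine fun q => u (Eq.trans ?_ q)
  congr 1
  ext (_ | i)
  · simp [p3]
  · fin_cases i <;> simp [p3]

end Onto

open Onto in
theorem onto (hM : MO_s) (hE : EQ_s) (hP : PAR_s) : ONTO_s := by
  intro R _ k N δ w 𝒟 L _ ψ
  obtain ⟨p1, p2⟩ := hP R k N δ w 𝒟 L ψ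
  obtain ⟨-, e2, e3⟩ := hE R k N δ w 𝒟
  refine ⟨fun _ y hy h0 => ?_, fun y y' n n' z z' h h0 h1 => ?_⟩
  · have hx : xx y ≠ 0 := fun q => (hy (.inl 0)).elim fun i hi => hi (congrFun q i)
    have x1 (q : xx y 0 = 0) : xx y 1 ≠ 0 := fun q' => hx (by ext i; fin_cases i <;> assumption)
    suffices ∃ η t, eval₂ ψ (p3 (xx y) η) 𝒟.G = 0 ∧ t * xx y 0 ^ k = y (.inl 1, 0) ∧
        t * η = y (.inl 1, 1) by
      obtain ⟨η, t, g, t0, t1⟩ := this
      have ht : t ≠ 0 := fun q => (hy (.inl 1)).elim fun i hi => hi (by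
        fin_cases i
        · exact t0.symm.trans (by rw [q, zero_mul])
        · exact t1.symm.trans (by rw [q, zero_mul]))
      obtain ⟨θ, hθ⟩ := rl 𝒟 ψ g
      obtain ⟨q1, -, q2⟩ := p1 _ η θ hx hθ
      refine ⟨_, fun j => (q1 j).imp fun i hi => mul_ne_zero ?_ hi,
        q2 (fun j => if j = .inl 1 then t else 1) (if_neg (by simp)), fun i => ⟨?_, ?_⟩⟩
      · dsimp only
        split_ifs
        exacts [ht, one_ne_zero]
      · simp [pt, xx]
      · fin_cases i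
        exacts [by simpa [pt] using t0, by simpa [pt] using t1]
    by_cases u0 : y (.inl 1, 0) = 0
    · obtain ⟨r, hr⟩ := (e3 L ψ y).1 0
      have u1 : y (.inl 1, 1) ≠ 0 := (hy (.inl 1)).elim fun i hi => by
        fin_cases i
        exacts [absurd u0 hi, hi]
      have x0 : xx y 0 = 0 := by
        rw [h0, show y (.inl (0 : Fin 2).succ, 0) = 0 from u0, zero_mul, add_zero] at hr
        exact eq_zero_of_pow_eq_zero
          ((mul_eq_zero.1 (eq_zero_of_pow_eq_zero hr.symm)).resolve_right u1)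
      obtain ⟨q, m1, m2, m3⟩ := hM.1 R L k N 𝒟.G ψ (xx y) 𝒟.mo
      obtain ⟨η, hη⟩ := IsAlgClosed.exists_root q (by
        rw [Polynomial.degree_eq_natDegree m1.ne_zero, m2]
        exact Nat.cast_ne_zero.2 𝒟.mo.1.ne')
      have g : eval₂ ψ (p3 (xx y) η) 𝒟.G = 0 := (m3 L (.id L) η).symm.trans hη
      have : η ≠ 0 := fun q => ne 𝒟 ψ x0 (x1 x0) (q ▸ g)
      exact ⟨η, y (.inl 1, 1) / η, g, by rw [x0, zero_pow 𝒟.k0.ne', mul_zero, u0],
        div_mul_cancel₀ _ this⟩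
    · have g := e2 L ψ N (xx y) (ss k y 0 / y (.inl 1, 0)) (y (.inl 1, 0)) 𝒟.G 𝒟.mo.2.2.2
      rw [div_mul_cancel₀ _ u0] at g
      have g := (mul_eq_zero.1 (g.symm.trans h0)).resolve_left (pow_ne_zero _ u0)
      have x0 : xx y 0 ≠ 0 := fun q => ne 𝒟 ψ q (x1 q) (by
        rwa [ss, show y (.inl 0, 0) = 0 from q, zero_pow 𝒟.k0.ne', zero_mul, zero_div] at g)
      refine ⟨_, y (.inl 1, 0) / xx y 0 ^ k, g, div_mul_cancel₀ _ (pow_ne_zero _ x0), ?_⟩
      change _ * (xx y 0 ^ k * y (.inl 1, 1) / _) = _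
      field_simp
  · obtain ⟨η, θ, c, -, c1, r, e⟩ := p2 y (fun j => (n j).elim (fun q => ⟨0, q ▸ one_ne_zero⟩)
      fun q => ⟨1, q.2 ▸ one_ne_zero⟩) z
    obtain ⟨η', θ', c', -, c1', r', e'⟩ := p2 y' (fun j => (n' j).elim
      (fun q => ⟨0, q ▸ one_ne_zero⟩) fun q => ⟨1, q.2 ▸ one_ne_zero⟩) z'
    have ex : xx y' = xx y := funext fun i => (h i).1
    rw [ex] at r' e'
    have x0 : xx y 0 = 1 := h0
    have a0 := ((e' _).symm.trans (h 0).2).trans (e _)
    have a1 := ((e' _).symm.trans (h 1).2).trans (e _)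
    simp only [pt, Sum.elim_inl, Matrix.cons_val, x0, one_pow, mul_one] at a0 a1
    obtain rfl : η' = η := mul_left_cancel₀ (c1 _) (a0 ▸ a1)
    obtain rfl : θ' = θ := funext fun j => by
      have b := r.2 j 1
      have b' := r'.2 j 1
      simp only [Dat.zq, Matrix.cons_val] at b b'
      refine mul_left_cancel₀ (a := eval₂ ψ (p3 (xx y) η') (fa (𝒟.xn j))) ?_
        (by linear_combination b' - b)
      simpa [fa, p3, xx, h0, sub_eq_zero] using h1 j
    exact nm n n' c1 c1' e e'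

end Pool.Agent.MP_855f4c_ag.Cu.Md

end

section
/-! h92c section E: row RA. -/

open MvPolynomial

namespace Pool.Agent.MP_855f4c_ag.Cu.Md

open T

namespace Ra

section
variable {F κ A : Type} [Fintype κ] [DecidableEq κ] [Field F] [CommRing A] [Algebra F A]

theorem hx_mon (p q : κ → ℕ) :
    Hx (p + q) (∏ j, X (j, 0) ^ p j * X (j, 1) ^ q j : MvPolynomial (XV κ) F) := by
  have h : ∀ (v : XV κ) (m : ℕ), Hx (Pi.single v.1 m) (X v ^ m : MvPolynomial (XV κ) F) :=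
    fun v m => by
      have := (isWeightedHomogeneous_X F (fun v : XV κ => (Pi.single v.1 1 : κ → ℕ)) v).pow m
      rwa [← Pi.single_smul, smul_eq_mul, mul_one] at this
  have := IsWeightedHomogeneous.prod (w := fun v : XV κ => (Pi.single v.1 1 : κ → ℕ)) Finset.univ
    _ _ fun j _ => (h (j, 0) (p j)).mul (h (j, 1) (q j))
  rwa [Finset.sum_add_distrib, Finset.univ_sum_single, Finset.univ_sum_single] at this

theorem mv_mon (y : XV κ → A) (p q n : κ → ℕ) (h : ∀ j, p j + q j = n j) :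
    ∏ j, y (j, 0) ^ p j * y (j, 1) ^ q j ∈ Mv F y n :=
  ⟨_, (funext h : p + q = n) ▸ hx_mon p q, by simp⟩

theorem mv_up (y : XV κ → A) (k₀ : κ) (h1 : y (k₀, 0) = 1) (N i m : ℕ) (f : A)
    (h : f ∈ Mv F y fun j => if j = k₀ then i else N) :
    f ∈ Mv F y fun j => if j = k₀ then i + m else N := by
  obtain ⟨Ξ, hΞ, rfl⟩ := h
  refine ⟨Ξ * X (k₀, 0) ^ m, ?_, by simp [h1]⟩
  have h2 := hΞ.mul ((isWeightedHomogeneous_X F (fun v : XV κ => (Pi.single v.1 1 : κ → ℕ))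
    (k₀, 0)).pow m)
  refine (congrArg (fun n => Hx n _) (funext fun j => ?_)).mp h2
  rw [Pi.add_apply, Pi.smul_apply]
  split_ifs with e
  · subst e
    rw [Pi.single_eq_same, smul_eq_mul, mul_one]
  · rw [Pi.single_eq_of_ne e, smul_zero, add_zero]

/-- The values of all forms of degree `N` off the line `k₀`. -/
def MM (F : Type) [Field F] [Algebra F A] (y : XV κ → A) (k₀ : κ) (h1 : y (k₀, 0) = 1) (N : ℕ) :
    Submodule F A where
  carrier := {f | ∃ i : ℕ, f ∈ Mv F y fun j => if j = k₀ then i else N}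
  zero_mem' := ⟨0, 0, isWeightedHomogeneous_zero _ _ _, map_zero _⟩
  add_mem' := by
    rintro a b ⟨i, ha⟩ ⟨i', hb⟩
    obtain ⟨Ξ, h, rfl⟩ := mv_up y k₀ h1 N i i' a ha
    obtain ⟨Ξ', h', rfl⟩ := mv_up y k₀ h1 N i' i b hb
    exact ⟨i + i', Ξ + Ξ', h.add (add_comm i' i ▸ h'), map_add _ _ _⟩
  smul_mem' := by
    rintro c a ⟨i, Ξ, h, rfl⟩
    exact ⟨i, c • Ξ, (weightedHomogeneousSubmodule F _ _).smul_mem c h, map_smul _ _ _⟩

theorem split (x η : A) (P : P3 F) : ∃ U V : P3 F, aeval (pt3 x η) P =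
    algebraMap F A (eval (fun o => o.elim 0 (Pi.single (0 : Fin 2) 1)) P) +
      aeval (pt3 x η) U * x + aeval (pt3 x η) V * η := by
  induction P using MvPolynomial.induction_on with
  | C c => exact ⟨0, 0, by simp⟩
  | add p q hp hq =>
    obtain ⟨U, V, e⟩ := hp
    obtain ⟨U', V', e'⟩ := hq
    exact ⟨U + U', V + V', by simp only [map_add, e, e']; ring⟩
  | mul_X p o hp =>
    obtain ⟨U, V, e⟩ := hp
    rcases o with _ | i
    · exact ⟨0, p, by simp [pt3]⟩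
    · fin_cases i
      · exact ⟨U, V, by simpa [pt3] using e⟩
      · exact ⟨p, 0, by simp [pt3]⟩

theorem red (hM : MO_s) (x η : A) (k N : ℕ) (G : P3 F) (hG : Mo k N G)
    (h0 : aeval (pt3 x η) G = 0) (P : P3 F) (j m : ℕ) : x ^ j * η ^ m * aeval (pt3 x η) P ∈
      Submodule.span F {f | ∃ j l, l < N ∧ f = x ^ j * η ^ l} := by
  induction P using MvPolynomial.induction_on generalizing j m with
  | C c =>
    rw [aeval_C, mul_comm, ← Algebra.smul_def]
    refine Submodule.smul_mem _ _ ?_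
    refine Submodule.span_induction (p := fun f _ => x ^ j * f ∈
      Submodule.span F {f | ∃ j l, l < N ∧ f = x ^ j * η ^ l}) ?_ (by simp)
      (fun a b _ _ ha hb => by rw [mul_add]; exact add_mem ha hb)
      (fun c a _ ha => by rw [mul_smul_comm]; exact Submodule.smul_mem _ _ ha)
      (hM.2 F A k N G ![1, x] η hG h0 m)
    rintro _ ⟨i, j', l, hl, -, rfl⟩
    exact Submodule.subset_span ⟨j + j', l, hl, by simp [pow_add, mul_assoc]⟩
  | add p q hp hq => rw [map_add, mul_add]; exact add_mem (hp j m) (hq j m)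
  | mul_X p o hp =>
    rcases o with _ | i
    · convert hp j (m + 1) using 1
      simp [pt3]; ring
    · fin_cases i
      · simpa [pt3] using hp j m
      · convert hp (j + 1) m using 1
        simp [pt3]; ring

end

end Ra

open Ra

theorem ra (hM : MO_s) : RA_s := by
  intro F K _ _ _ x 𝒩 R _ w 𝒟 a hO θ hR z hz
  have hN : 0 < 𝒩.N := 𝒩.mo.1
  change z ∈ MM F (pt 𝒩.k w ![1, x] 𝒩.η θ) (.inl 0) (by simp [pt]) 𝒩.N
  set M := MM F (pt 𝒩.k w ![1, x] 𝒩.η θ) (.inl 0) (by simp [pt]) 𝒩.N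
  have m1 : ∀ (d : Fin 𝒩.δ → ℕ) (c : ℕ), (∀ j, d j ≤ 𝒩.N) → c ≤ 𝒩.N → ∀ P : P3 F,
      aeval (pt3 x 𝒩.η) P * ((x ^ 𝒩.k) ^ (𝒩.N - c) * 𝒩.η ^ c * ∏ j, (θ j + x ^ w) ^ d j) ∈ M := by
    intro d c hd hc P
    have := red hM x 𝒩.η 𝒩.k 𝒩.N 𝒩.G 𝒩.mo 𝒩.root P 0 0
    rw [pow_zero, pow_zero, one_mul, one_mul] at this
    refine Submodule.span_induction (p := fun f _ => f * ((x ^ 𝒩.k) ^ (𝒩.N - c) * 𝒩.η ^ c *
      ∏ j, (θ j + x ^ w) ^ d j) ∈ M) ?_ (by simp)
      (fun a b _ _ ha hb => by rw [add_mul]; exact add_mem ha hb)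
      (fun c a _ ha => by rw [smul_mul_assoc]; exact Submodule.smul_mem _ _ ha) this
    rintro _ ⟨j, l, hl, rfl⟩
    refine ⟨j, ?_⟩
    convert mv_mon (F := F) (pt 𝒩.k w ![1, x] 𝒩.η θ)
      (Sum.elim ![0, 𝒩.N - l, 𝒩.N - c] fun j => 𝒩.N - d j) (Sum.elim ![j, l, c] d) _ ?_ using 1
    · simp [Fintype.prod_sum_type, Fin.prod_univ_three, pt, mul_assoc]
    · rintro (i | i)
      · fin_cases i <;> simp <;> omega
      · have := hd i
        simp; omega
  obtain ⟨U, V, e⟩ := split x 𝒩.η 𝒩.G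
  have hc := 𝒩.n1 0
  set c := eval (fun o : Option (Fin 2) => o.elim 0 (Pi.single (0 : Fin 2) 1)) 𝒩.G
  have cop : IsCoprime (⟨x, X (some 1), by simp [pt3]⟩ : (aeval (pt3 x 𝒩.η) : P3 F →ₐ[F] K).range)
      ⟨𝒩.η, X none, by simp [pt3]⟩ := by
    refine ⟨⟨_, C (-c⁻¹) * U, rfl⟩, ⟨_, C (-c⁻¹) * V, rfl⟩, Subtype.ext ?_⟩
    have hc' : algebraMap F K c ≠ 0 := by simpa using hc
    rw [𝒩.root] at e
    simp only [AlgHom.toRingHom_eq_coe, RingHom.coe_coe, map_mul, aeval_C, map_neg, map_inv₀,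
      MulMemClass.mk_mul_mk, AddMemClass.mk_add_mk, OneMemClass.coe_one]
    field_simp
    linear_combination e
  obtain ⟨⟨_, A, rfl⟩, ⟨_, B, rfl⟩, e1⟩ := cop.pow (m := 𝒩.k * 𝒩.N) (n := 𝒩.N)
  have e2 : aeval (pt3 x 𝒩.η) A * x ^ (𝒩.k * 𝒩.N) + aeval (pt3 x 𝒩.η) B * 𝒩.η ^ 𝒩.N = 1 :=
    congrArg Subtype.val e1
  have m2 : ∀ d : Fin 𝒩.δ → ℕ, (∀ j, d j ≤ 𝒩.N) → ∀ P : P3 F,
      aeval (pt3 x 𝒩.η) P * ∏ j, (θ j + x ^ w) ^ d j ∈ M := fun d hd P => by
    convert add_mem (m1 d 0 hd hN.le (P * A)) (m1 d 𝒩.N hd le_rfl (P * B)) using 1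
    simp only [map_mul, Nat.sub_zero, Nat.sub_self, pow_zero, ← pow_mul]
    linear_combination (-aeval (pt3 x 𝒩.η) P * ∏ j, (θ j + x ^ w) ^ d j) * e2
  obtain ⟨P, lam, rfl⟩ := 𝒩.span (fun j => map a (𝒟.al j)) (fun j => map a (𝒟.be j))
    (fun j => map a (𝒟.ga j)) θ (fun j => by
      rw [← hO.1, ← hO.2.1, ← hO.2.2, 𝒟.dec j]
      simp [fa, fb]) (fun j => by
      have := hR.2 j 0
      simp only [Dat.zq, Matrix.cons_val, fa, fb, eval₂_mul, eval₂_sub, eval₂_X, eval₂_C,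
        eval₂_pow] at this
      rw [← hO.2.1, ← hO.2.2, map_mul, aeval_def (f := pt3 x 𝒩.η) (map a _), eval₂_map, pt3_eq]
      simp only [fa, fb, map_sub, map_mul, map_pow, aeval_X, aeval_C]
      simp only [p3, Option.elim, Matrix.cons_val, RingHom.comp_apply] at this ⊢
      linear_combination this) z hz
  refine add_mem (by simpa using m2 0 (fun _ => hN.le) P) (sum_mem fun j _ => M.smul_mem _ ?_)
  have a1 := m2 (Pi.single j 1) (fun i => by
    by_cases h : i = j <;> simp [h]; omega) 1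
  have a2 := m2 0 (fun _ => hN.le) (X (some 1) ^ w)
  rw [Finset.prod_eq_single j (fun i _ h => by simp [h]) (by simp)] at a1
  convert sub_mem a1 a2 using 1
  simp [pt3]

end Pool.Agent.MP_855f4c_ag.Cu.Md

end

section
/-! h92c section E: integral elements on the chart `X1 = 1`. -/

open MvPolynomial

namespace Pool.Agent.MP_855f4c_ag.Cu.Md

open T

namespace Rb

variable {F A : Type} [Field F] [CommRing A] [Algebra F A]

/-- The elements that map `M` into itself. -/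
def stab (M : Submodule F A) : Subalgebra F A where
  carrier := {c | ∀ f ∈ M, c * f ∈ M}
  mul_mem' ha hb f hf := by rw [mul_assoc]; exact ha _ (hb f hf)
  add_mem' ha hb f hf := by rw [add_mul]; exact M.add_mem (ha f hf) (hb f hf)
  algebraMap_mem' r f hf := by rw [← Algebra.smul_def]; exact M.smul_mem r hf

theorem stab_span {S : Set A} {c : A} (h : ∀ f ∈ S, c * f ∈ Submodule.span F S) :
    c ∈ stab (Submodule.span F S) := fun f hf => by
  induction hf using Submodule.span_induction with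
  | mem f hf => exact h f hf
  | zero => simp
  | add f g _ _ a b => rw [mul_add]; exact Submodule.add_mem _ a b
  | smul r f _ a => rw [mul_smul_comm]; exact Submodule.smul_mem _ r a

theorem aeval_mem {σ : Type} {O : Subalgebra F A} {y : σ → A} (h : ∀ v, y v ∈ O)
    (P : MvPolynomial σ F) : aeval y P ∈ O := by
  induction P using MvPolynomial.induction_on with
  | C r => simp
  | add p q a b => rw [map_add]; exact O.add_mem a b
  | mul_X p v a => rw [map_mul, aeval_X]; exact O.mul_mem a (h v)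

variable {κ : Type} [Fintype κ] [DecidableEq κ]

theorem wt (d : XV κ →₀ ℕ) (j : κ) :
    Finsupp.weight (fun v : XV κ => (Pi.single v.1 1 : κ → ℕ)) d j = d (j, 0) + d (j, 1) := by
  rw [Finsupp.weight_apply, Finsupp.sum_fintype _ _ (by simp), Finset.sum_apply,
    Fintype.sum_prod_type, Finset.sum_eq_single j]
  · simp
  · intro b _ hb
    simp [Pi.single_eq_of_ne' hb]
  · simp

/-- The values of the monomials of degree `N` on all lines except one. -/
def Sm (y : XV κ → A) (j₀ : κ) (N : ℕ) : Set A :=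
  {f | ∃ d : XV κ → ℕ, (∀ j ≠ j₀, d (j, 0) + d (j, 1) = N) ∧ f = ∏ v, y v ^ d v}

theorem of_mv {y : XV κ → A} {j₀ : κ} {N i : ℕ} {f : A}
    (h : f ∈ Mv F y fun j => if j = j₀ then i else N) : f ∈ Submodule.span F (Sm y j₀ N) := by
  obtain ⟨Ξ, hΞ, rfl⟩ := h
  rw [Ξ.as_sum, map_sum]
  refine Submodule.sum_mem _ fun d hd => ?_
  rw [aeval_monomial, ← Algebra.smul_def, Finsupp.prod_fintype _ _ (by simp)]
  refine Submodule.smul_mem _ _ (Submodule.subset_span ⟨d, fun j hj => ?_, rfl⟩)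
  rw [← wt, hΞ (mem_support_iff.1 hd)]
  exact if_neg hj

theorem mv_mono {y : XV κ → A} {j₀ : κ} (hy : y (j₀, 1) = 1) {N i i' : ℕ} (hi : i ≤ i') {f : A}
    (h : f ∈ Mv F y fun j => if j = j₀ then i else N) :
    f ∈ Mv F y fun j => if j = j₀ then i' else N := by
  obtain ⟨Ξ, hΞ, rfl⟩ := h
  refine ⟨monomial (Finsupp.single (j₀, 1) (i' - i)) 1 * Ξ, ?_, by
    rw [map_mul, ← X_pow_eq_monomial, map_pow, aeval_X, hy, one_pow, one_mul]⟩
  refine (congrArg (fun n => Hx n _) (funext fun j => ?_)).mp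
    ((isWeightedHomogeneous_monomial _ _ (1 : F) rfl).mul hΞ)
  rw [Pi.add_apply, wt]
  split_ifs with c
  · subst c
    simp only [Finsupp.single_apply, Prod.mk.injEq, true_and, one_ne_zero, if_true,
      if_false]
    omega
  · simp only [Finsupp.single_apply, Prod.mk.injEq, Ne.symm c, false_and, if_false, zero_add]

theorem to_mv {y : XV κ → A} {j₀ : κ} (hy : y (j₀, 1) = 1) {N : ℕ} {f : A}
    (h : f ∈ Submodule.span F (Sm y j₀ N)) : ∃ i, f ∈ Mv F y fun j => if j = j₀ then i else N := by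
  induction h using Submodule.span_induction with
  | mem f hf =>
    obtain ⟨d, hd, rfl⟩ := hf
    refine ⟨d (j₀, 0) + d (j₀, 1), monomial (Finsupp.equivFunOnFinite.symm d) 1,
      isWeightedHomogeneous_monomial _ _ _ (funext fun j => ?_), ?_⟩
    · rw [wt]
      split_ifs with c
      · simp [c]
      · simpa using hd j c
    · rw [aeval_monomial, map_one, one_mul, Finsupp.prod_fintype _ _ (by simp)]
      simp
  | zero => exact ⟨0, 0, isWeightedHomogeneous_zero _ _ _, map_zero _⟩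
  | add f g _ _ a b =>
    obtain ⟨i, a⟩ := a
    obtain ⟨i', b⟩ := b
    obtain ⟨P, hP, rfl⟩ := mv_mono hy (le_max_left i i') a
    obtain ⟨Q, hQ, rfl⟩ := mv_mono hy (le_max_right i i') b
    exact ⟨_, P + Q, hP.add hQ, map_add _ _ _⟩
  | smul r f _ a =>
    obtain ⟨i, P, hP, rfl⟩ := a
    exact ⟨i, r • P, (weightedHomogeneousSubmodule F _ _).smul_mem r hP, map_smul _ _ _⟩

theorem prod_add_single (y : XV κ → A) (d : XV κ → ℕ) (v : XV κ) (n : ℕ) :
    ∏ u, y u ^ (d + Pi.single v n : XV κ → ℕ) u = (∏ u, y u ^ d u) * y v ^ n := by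
  simp only [Pi.add_apply, pow_add, Finset.prod_mul_distrib]
  rw [Finset.prod_eq_single v (f := fun u => y u ^ (Pi.single v n : XV κ → ℕ) u)]
  · simp
  · intro b _ hb
    simp [Pi.single_eq_of_ne hb]
  · simp

theorem stab_line (y : XV κ → A) (j₀ : κ) (N : ℕ) (i : Fin 2) :
    y (j₀, i) ∈ stab (Submodule.span F (Sm y j₀ N)) := stab_span fun f hf => by
  obtain ⟨d, hd, rfl⟩ := hf
  refine Submodule.subset_span ⟨d + Pi.single (j₀, i) 1, fun j hj => ?_, ?_⟩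
  · simpa [hj] using hd j hj
  · rw [prod_add_single, pow_one, mul_comm]

theorem stab_red (y : XV κ → A) {j₀ j₁ : κ} (hy : y (j₁, 0) = 1) {N : ℕ}
    (h : ∀ m : ℕ, y (j₁, 1) ^ m ∈ Submodule.span F
      {f | ∃ i l, l < N ∧ f = y (j₀, 0) ^ i * y (j₁, 1) ^ l}) :
    y (j₁, 1) ∈ stab (Submodule.span F (Sm y j₀ N)) := stab_span fun f hf => by
  obtain ⟨d, hd, rfl⟩ := hf
  let d₀ : XV κ → ℕ := fun v => if v.1 = j₁ then 0 else d v
  have e : d = d₀ + Pi.single (j₁, 0) (d (j₁, 0)) + Pi.single (j₁, 1) (d (j₁, 1)) := by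
    funext ⟨j, i⟩
    by_cases c : j = j₁
    · subst c
      fin_cases i <;> simp [d₀]
    · simp [d₀, c]
  have key : ∀ g ∈ Submodule.span F {f | ∃ i l, l < N ∧ f = y (j₀, 0) ^ i * y (j₁, 1) ^ l},
      (∏ v, y v ^ d₀ v) * g ∈ Submodule.span F (Sm y j₀ N) := fun g hg => by
    induction hg using Submodule.span_induction with
    | mem g hg =>
      obtain ⟨i, l, hl, rfl⟩ := hg
      rw [mul_left_comm]
      refine (stab _).pow_mem (stab_line y j₀ N 0) i _ (Submodule.subset_span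
        ⟨d₀ + Pi.single (j₁, 0) (N - l) + Pi.single (j₁, 1) l, fun j hj => ?_, ?_⟩)
      · by_cases c : j = j₁
        · subst c
          simp [d₀]
          omega
        · simpa [d₀, c] using hd j hj
      · rw [prod_add_single, prod_add_single, hy, one_pow, mul_one]
    | zero => simp
    | add f g _ _ a b => rw [mul_add]; exact Submodule.add_mem _ a b
    | smul r f _ a => rw [mul_smul_comm]; exact Submodule.smul_mem _ r a
  rw [e, prod_add_single, prod_add_single, hy, one_pow, mul_one, mul_left_comm, ← pow_succ']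
  exact key _ (h _)

theorem at_zero {O : Subalgebra F A} {s η : A} (hs : s ∈ O) (hη : η ∈ O) (P : P3 F) :
    ∃ r ∈ O, aeval (p3 ![s, 1] η) P = aeval (p3 ![0, 1] η) P + s * r := by
  have m : ∀ v, p3 ![0, 1] η v ∈ O := by
    rintro (_ | i)
    · exact hη
    · fin_cases i
      exacts [O.zero_mem, O.one_mem]
  induction P using MvPolynomial.induction_on with
  | C c => exact ⟨0, O.zero_mem, by simp⟩
  | add p q a b =>
    obtain ⟨r, hr, a⟩ := a
    obtain ⟨r', hr', b⟩ := b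
    exact ⟨r + r', O.add_mem hr hr', by rw [map_add, map_add, a, b]; ring⟩
  | mul_X p v a =>
    obtain ⟨r, hr, a⟩ := a
    rw [map_mul, map_mul, aeval_X, aeval_X, a]
    rcases v with _ | i
    · exact ⟨r * η, O.mul_mem hr hη, by simp only [p3, Option.elim]; ring⟩
    · fin_cases i
      · exact ⟨aeval (p3 ![0, 1] η) p + s * r, O.add_mem (aeval_mem m p) (O.mul_mem hs hr),
          by simp [p3]; ring⟩
      · exact ⟨r, hr, by simp [p3]⟩

theorem poly_eval {D : Type} [CommRing D] [Algebra F D] (η : D) (P : P3 F) :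
    Polynomial.aeval η (aeval (p3 ![0, 1] (Polynomial.X : Polynomial F)) P) =
      aeval (p3 ![0, 1] η) P := by
  rw [← AlgHom.comp_apply, comp_aeval]
  congr 2
  funext o
  rcases o with _ | i
  · simp [p3]
  · fin_cases i <;> simp [p3]

theorem unit [IsAlgClosed F] {O : Subalgebra F A} {s η : A} (hs : s ∈ O) (hη : η ∈ O) {G B : P3 F}
    (hG : aeval (p3 ![s, 1] η) G = 0)
    (h : ∀ y₀ : F, eval (p3 ![0, 1] y₀) G = 0 → eval (p3 ![0, 1] y₀) B ≠ 0) :
    ∃ r ∈ O, ∃ β ∈ O, 1 = r * s + β * aeval (p3 ![s, 1] η) B := by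
  obtain ⟨α, β, e⟩ := (Polynomial.isCoprime_iff_aeval_ne_zero_of_isAlgClosed F F
    (aeval (p3 ![0, 1] (Polynomial.X : Polynomial F)) G)
    (aeval (p3 ![0, 1] (Polynomial.X : Polynomial F)) B)).2 fun y₀ => by
      rw [poly_eval, poly_eval]
      exact or_iff_not_imp_left.2 fun z => h y₀ (not_not.1 z)
  have e' := congrArg (Polynomial.aeval η) e
  rw [map_add, map_mul, map_mul, poly_eval, poly_eval, map_one] at e'
  obtain ⟨r, hr, a⟩ := at_zero hs hη G
  obtain ⟨r', hr', b⟩ := at_zero hs hη B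
  have m : ∀ q : Polynomial F, Polynomial.aeval η q ∈ O := fun q =>
    Algebra.adjoin_le (Set.singleton_subset_iff.2 hη) (Polynomial.aeval_mem_adjoin_singleton F η)
  refine ⟨-(Polynomial.aeval η α * r + Polynomial.aeval η β * r'),
    O.neg_mem (O.add_mem (O.mul_mem (m α) hr) (O.mul_mem (m β) hr')), _, m β, ?_⟩
  rw [hG] at a
  linear_combination -e' - Polynomial.aeval η α * a - Polynomial.aeval η β * b

end Rb

open Rb in
theorem rb (hMO : MO_s) : RB_s := by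
  intro F 𝒦 _ _ _ _ x 𝒩 R _ w 𝒟 a hx hO θ hR z hz n i hn
  set s := x⁻¹ with hs
  set η := 𝒩.η / x ^ 𝒩.k with hη
  set y := pt 𝒩.k w ![s, 1] η θ with hy
  refine to_mv (by simp [hy, pt]) ?_
  replace hn := of_mv hn
  set M := Submodule.span F (Sm y (.inl 0) 𝒩.N) with hM
  have ev : ∀ P : P3 R, eval₂ ((algebraMap F 𝒦).comp a) (p3 ![s, 1] η) P =
      aeval (p3 ![s, 1] η) (map a P) := fun P => by rw [aeval_def, eval₂_map]
  have hG : aeval (p3 ![s, 1] η) 𝒩.G = 0 := by rw [← hO.1, ← ev]; exact hR.1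
  have m1 : s ∈ stab M := stab_line y (.inl 0) 𝒩.N 0
  have m2 : η ∈ stab M := stab_red y (j₀ := .inl 0) (j₁ := .inl 2) (by simp [hy, pt]) fun m => by
    refine Submodule.span_mono ?_ (hMO.2 F 𝒦 _ _ _ _ _ 𝒩.mo hG m)
    rintro _ ⟨i, j, l, hl, -, rfl⟩
    exact ⟨i, l, hl, by simp [hy, pt]⟩
  have m3 : ∀ P : P3 F, aeval (p3 ![s, 1] η) P ∈ stab M := aeval_mem (by
    rintro (_ | i)
    · exact m2
    · fin_cases i
      exacts [m1, one_mem _])
  let Q : Fin 𝒩.δ → P3 R := fun j => fa (𝒟.xn j) -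
    X (some 0) * (𝒟.ga j * fb 𝒩.k (𝒟.yn j) + 𝒟.be j * fa (𝒟.xn j))
  have hQ : ∀ j, aeval (p3 ![s, 1] η) (map a (Q j)) =
      aeval (p3 ![s, 1] η) (map a (fa (𝒟.xn j))) * (θ j + 1) := fun j => by
    have h1 := hR.2 j 1
    simp only [Dat.zq, Matrix.cons_val, ev] at h1
    simp only [Q]
    rw [map_sub, map_sub]
    linear_combination -h1
  let B₁ : P3 F := (X none * ∏ j, map a (Q j)) ^ 𝒩.N
  have b1 : aeval (p3 ![s, 1] η) B₁ ∈ M := by
    have : (η * ∏ j, (θ j + 1)) ^ 𝒩.N ∈ M := Submodule.subset_span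
      ⟨fun v => v.1.elim (fun l => ![![0, 0], ![0, 𝒩.N], ![𝒩.N, 0]] l v.2) fun _ => ![0, 𝒩.N] v.2,
        by
          rintro (l | j) h
          · fin_cases l <;> simp at h ⊢
          · simp,
        by simp [Fintype.prod_prod_type, Fintype.prod_sum_type, Fin.prod_univ_three, hy, pt, mul_pow,
          Finset.prod_pow]⟩
    convert m3 ((∏ j, map a (fa (𝒟.xn j))) ^ 𝒩.N) _ this using 1
    simp only [B₁, map_pow, map_mul, map_prod, hQ, aeval_X, Finset.prod_mul_distrib, p3,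
      Option.elim]
    ring
  obtain ⟨m, A₀, B₀, hA, hB, e, h0⟩ := 𝒩.span' z hz
  have sc : ∀ P : P3 F, Wh 𝒩.k m P → aeval (p3 ![s, 1] η) P = s ^ m * aeval (pt3 x 𝒩.η) P := by
    intro P hP
    rw [pt3_eq, aeval_def, aeval_def, ← hP.scale]
    congr 2
    · funext i
      fin_cases i <;> simp [hs, hx]
    · rw [hη, hs, inv_pow, div_eq_inv_mul]
  have b2 : aeval (p3 ![s, 1] η) (B₀ * B₁) * z ∈ M := by
    convert m3 A₀ _ b1 using 1
    rw [map_mul, sc _ hA, sc _ hB, ← e]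
    ring
  obtain ⟨r, hr, β, hβ, e1⟩ := unit m1 m2 hG (B := B₀ * B₁) fun y₀ h => by
    have n0 : y₀ ≠ 0 := by
      rintro rfl
      refine 𝒩.n1 1 (Eq.trans ?_ h)
      congr 2
      funext o
      rcases o with _ | i
      · rfl
      · fin_cases i <;> simp [p3]
    rw [map_mul]
    refine mul_ne_zero (h0 y₀ h) ?_
    simp [B₁, Q, fa, p3, n0]
  clear_value M
  induction n with
  | zero => simpa using hn
  | succ n ih =>
    refine ih ?_
    convert M.add_mem (hr _ hn) ((stab M).mul_mem hβ ((stab M).pow_mem m1 n) _ b2) using 1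
    linear_combination s ^ n * z * e1

end Pool.Agent.MP_855f4c_ag.Cu.Md

end

section
/-! h92c section E: row RC. -/

open MvPolynomial

namespace Pool.Agent.MP_855f4c_ag.Cu.Md

open T

namespace Rc

section
variable {F κ A : Type} [Fintype κ] [DecidableEq κ] [Field F] [CommRing A] [Algebra F A]

theorem mv_mul (y : XV κ → A) (k₀ : κ) (c : Fin 2) (N i m : ℕ) (f : A)
    (h : f ∈ Mv F y fun j => if j = k₀ then i else N) :
    y (k₀, c) ^ m * f ∈ Mv F y fun j => if j = k₀ then i + m else N := by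
  obtain ⟨Ξ, hΞ, rfl⟩ := h
  refine ⟨Ξ * X (k₀, c) ^ m, ?_, by simp [mul_comm]⟩
  have e : (fun j => if j = k₀ then i + m else N) =
      (fun j => if j = k₀ then i else N) + m • (Pi.single k₀ 1 : κ → ℕ) := by
    ext j
    by_cases e : j = k₀ <;> simp [e]
  rw [e]
  exact hΞ.mul ((isWeightedHomogeneous_X F (fun v : XV κ => (Pi.single v.1 1 : κ → ℕ))
    (k₀, c)).pow m)

theorem mv_up (y : XV κ → A) (k₀ : κ) (c : Fin 2) (h1 : y (k₀, c) = 1) (N i i' : ℕ) (hi : i ≤ i')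
    (f : A) (h : f ∈ Mv F y fun j => if j = k₀ then i else N) :
    f ∈ Mv F y fun j => if j = k₀ then i' else N := by
  obtain ⟨m, rfl⟩ := Nat.exists_eq_add_of_le hi
  simpa [h1] using mv_mul y k₀ c N i m f h

theorem mv_scale (y y' : XV κ → A) (ω n : κ → ℕ) (s : A) (h : ∀ v, y' v = s ^ ω v.1 * y v) (f : A)
    (hf : f ∈ Mv F y n) : s ^ (∑ j, ω j * n j) * f ∈ Mv F y' n := by
  obtain ⟨Ξ, hΞ, rfl⟩ := hf
  refine ⟨Ξ, hΞ, ?_⟩
  have : Ξ.IsWeightedHomogeneous (fun v => ω v.1) (∑ j, ω j * n j) := fun d hd => by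
    rw [← hΞ hd]
    simp only [Finsupp.weight_apply, Finsupp.sum, Finset.sum_apply, Pi.smul_apply, smul_eq_mul,
      Finset.mul_sum, Pi.single_apply, mul_ite, mul_one, mul_zero]
    rw [Finset.sum_comm]
    simp [mul_comm]
  rw [funext h, aeval_def, aeval_def, ev_wh this]

end

theorem int {F K : Type} [Field F] [Field K] [Algebra F K] (hM : MO_s) (t z : K) (w d : ℕ)
    (χ : P3 F) (h : Mo w d χ) (x : Fin 2 → K) (hx : ∀ i, x i ∈ Algebra.adjoin F {t})
    (h0 : eval₂ (algebraMap F K) (p3 x z) χ = 0) : z ∈ IC F t := by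
  obtain ⟨q, hq, -, e⟩ := hM.1 F (Algebra.adjoin F {t}) w d χ (algebraMap _ _)
    (fun i => ⟨x i, hx i⟩) h
  exact ⟨q, hq, (e K (algebraMap _ K) z).trans h0⟩

end Rc

open Rc

theorem rc (hM : MO_s) (hA : RA_s) (hB : RB_s) : RC_s := by
  intro F K _ _ _ _ x 𝒩 R _ w 𝒟 a hx hO θ hR ϖ z hϖ ⟨d, χ, hχ, h0⟩
  set c₀ := ∑ j ∈ Finset.univ.erase (.inl 0 : KC 𝒩.δ), om 𝒩.k w j * 𝒩.N with hc₀
  have e1 : (fun i => x⁻¹ * (![1, x] : Fin 2 → K) i) = ![x⁻¹, 1] := by
    ext i; fin_cases i <;> simp [hx]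
  have e2 : ∀ (u : K) (k : ℕ), x⁻¹ ^ k * u = u / x ^ k := fun u k => by
    rw [inv_pow, div_eq_inv_mul]
  have hR' := hR.scale x⁻¹
  rw [e1, e2] at hR'
  set y := pt 𝒩.k w ![1, x] 𝒩.η θ with hy
  set y' := pt 𝒩.k w ![x⁻¹, 1] (𝒩.η / x ^ 𝒩.k) (fun j => x⁻¹ ^ w * θ j) with hy'
  have s1 : ∀ v, y' v = x⁻¹ ^ om 𝒩.k w v.1 * y v := fun v => by
    rw [hy', ← e1, ← e2, pt_scale]
  have s2 : ∀ v, y v = x ^ om 𝒩.k w v.1 * y' v := fun v => by
    rw [s1, ← mul_assoc, ← mul_pow, mul_inv_cancel₀ hx, one_pow, one_mul]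
  have dg : ∀ i : ℕ, ∑ j, om 𝒩.k w j * (if j = .inl 0 then i else 𝒩.N) = i + c₀ := fun i => by
    rw [← Finset.add_sum_erase _ _ (Finset.mem_univ (.inl 0 : KC 𝒩.δ)), if_pos rfl,
      Finset.sum_congr rfl fun j hj => by rw [if_neg (Finset.mem_erase.1 hj).1]]
    simp [om, hc₀]
  have hz : z ∈ IC F x := int hM x z ϖ d χ hχ ![1, x] (fun i => by
    fin_cases i
    · exact one_mem _
    · exact Algebra.self_mem_adjoin_singleton F x) h0
  have hz' : x⁻¹ ^ ϖ * z ∈ IC F x⁻¹ := int hM x⁻¹ _ ϖ d χ hχ ![x⁻¹, 1] (fun i => by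
    fin_cases i
    · exact Algebra.self_mem_adjoin_singleton F _
    · exact one_mem _) (by
      rw [← e1, Wh.scale hχ.2.1, show eval₂ _ (p3 ![1, x] z) χ = 0 from h0, mul_zero])
  choose I hI using fun l : ℕ => hA F K x 𝒩 R w 𝒟 a hO θ hR (z ^ l) (pow_mem hz l)
  choose I' hI' using fun l : ℕ => hB F K x 𝒩 R w 𝒟 a hx hO _ hR' ((x⁻¹ ^ ϖ * z) ^ l)
    (pow_mem hz' l) (I l + c₀) (I l + l * ϖ) (by
      have := mv_scale y y' (om 𝒩.k w) _ x⁻¹ s1 _
        (mv_up y (.inl 0) 0 (by simp [hy, pt]) 𝒩.N (I l) (I l + l * ϖ) (by omega) _ (hI l))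
      rw [dg] at this
      convert this using 1
      ring)
  refine ⟨(Finset.range d).sup I + (Finset.range d).sup I' + 2 * c₀, fun m hm i hi => ?_⟩
  refine (Submodule.span_le (p := (weightedHomogeneousSubmodule F
    (fun v : XV (KC 𝒩.δ) => (Pi.single v.1 1 : KC 𝒩.δ → ℕ))
    fun j : KC 𝒩.δ => if j = .inl 0 then i else 𝒩.N).map (aeval y : _ →ₐ[F] K).toLinearMap)).2 ?_
    (hM.2 F K ϖ d χ ![1, x] z hχ h0 m)
  rintro _ ⟨i', j, l, hl, e, rfl⟩
  have b1 : I l ≤ (Finset.range d).sup I := Finset.le_sup (Finset.mem_range.2 hl)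
  have b2 : I' l ≤ (Finset.range d).sup I' := Finset.le_sup (Finset.mem_range.2 hl)
  have b3 : m ≤ m * ϖ := Nat.le_mul_of_pos_right m hϖ
  change _ ∈ Mv F y _
  by_cases hc : I l + j ≤ i
  · simpa [hy, pt] using mv_up y (.inl 0) 0 (by simp [hy, pt]) 𝒩.N _ i hc _
      (mv_mul y (.inl 0) 1 𝒩.N (I l) j _ (hI l))
  · have := mv_scale y' y (om 𝒩.k w) _ x s2 _
      (mv_up y' (.inl 0) 1 (by simp [hy', pt]) 𝒩.N _ i (show I' l + i' ≤ i by omega) _
        (mv_mul y' (.inl 0) 0 𝒩.N (I' l) i' _ (hI' l)))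
    rw [dg, hi, ← e] at this
    convert this using 1
    simp only [hy', pt, Sum.elim_inl, Matrix.cons_val, one_pow, one_mul, pow_add, mul_pow,
      ← pow_mul, mul_comm ϖ l, inv_pow]
    field_simp

end Pool.Agent.MP_855f4c_ag.Cu.Md

end

section
/-! h92c section E: zeros of the model give characters. -/

open MvPolynomial

namespace Pool.Agent.MP_855f4c_ag.Cu.Md

open T

namespace Chx

section
variable {R D D' : Type} [CommRing R] [CommRing D] [CommRing D'] {k N δ w : ℕ}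

theorem map_ev (φ : D →+* D') (ψ : R →+* D) (x : Fin 2 → D) (η : D) (P : P3 R) :
    φ (eval₂ ψ (p3 x η) P) = eval₂ (φ.comp ψ) (p3 (φ ∘ x) (φ η)) P := by
  rw [eval₂_comp_left]
  congr 1
  funext o
  cases o <;> rfl

theorem map_zq (𝒟 : Dat R k N δ w) (φ : D →+* D') (ψ : R →+* D) (x : Fin 2 → D) (η t : D)
    (j : Fin δ) (i : Fin 3) : φ (𝒟.zq (eval₂ ψ (p3 x η)) t 1 j i) =
      𝒟.zq (eval₂ (φ.comp ψ) (p3 (φ ∘ x) (φ η))) (φ t) 1 j i := by
  fin_cases i <;> simp only [Dat.zq, Matrix.cons_val, Fin.zero_eta, Fin.mk_one, Fin.reduceFinMk,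
    ← map_ev φ, map_add, map_sub, map_mul, map_pow, map_one]

theorem map_rl {𝒟 : Dat R k N δ w} (φ : D →+* D') {ψ : R →+* D} {x : Fin 2 → D} {η : D}
    {θ : Fin δ → D} (h : 𝒟.Rl ψ x η θ) : 𝒟.Rl (φ.comp ψ) (φ ∘ x) (φ η) (φ ∘ θ) :=
  ⟨by rw [← map_ev, h.1, map_zero], fun j i => by
    rw [Function.comp_apply, ← map_zq, h.2, map_zero]⟩

theorem rl_of_map {𝒟 : Dat R k N δ w} {φ : D →+* D'} (hφ : Function.Injective φ) {ψ : R →+* D}
    {x : Fin 2 → D} {η : D} {θ : Fin δ → D} (h : 𝒟.Rl (φ.comp ψ) (φ ∘ x) (φ η) (φ ∘ θ)) :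
    𝒟.Rl ψ x η θ :=
  ⟨hφ (by rw [map_ev, h.1, map_zero]), fun j i => hφ (by rw [map_zq, map_zero]; exact h.2 j i)⟩

theorem map_pt (φ : D →+* D') (x : Fin 2 → D) (η : D) (θ : Fin δ → D) (v : XV (KC δ)) :
    φ (pt k w x η θ v) = pt k w (φ ∘ x) (φ η) (φ ∘ θ) v := by
  rcases v with ⟨l | j, i⟩
  · fin_cases l <;> fin_cases i <;> simp [pt]
  · fin_cases i <;> simp [pt]

theorem ev_fa (ψ : R →+* D) (x : Fin 2 → D) (η : D) (r : R) :
    eval₂ ψ (p3 x η) (fa r) = x 1 - ψ r * x 0 := by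
  simp [fa, p3, eval₂_sub]

theorem ev_fb (ψ : R →+* D) (x : Fin 2 → D) (η : D) (r : R) :
    eval₂ ψ (p3 x η) (fb k r) = η - ψ r * x 0 ^ k := by
  simp [fb, p3, eval₂_sub]

theorem map_fa (ψ : R →+* D) (r : R) : map ψ (fa r) = fa (ψ r) := by simp [fa]

theorem map_fb (ψ : R →+* D) (r : R) : map ψ (fb k r) = fb k (ψ r) := by simp [fb]

theorem uniq {L : Type} [Field L] {𝒟 : Dat R k N δ w} {ψ : R →+* L} {x : Fin 2 → L} {η : L}
    {θ θ' : Fin δ → L} (h : 𝒟.Rl ψ x η θ) (h' : 𝒟.Rl ψ x η θ') (j : Fin δ)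
    (hj : x 1 - ψ (𝒟.xn j) * x 0 ≠ 0 ∨ η - ψ (𝒟.yn j) * x 0 ^ k ≠ 0) : θ j = θ' j := by
  rcases hj with hj | hj
  · have a := h.2 j 1
    have b := h'.2 j 1
    simp only [Dat.zq, Matrix.cons_val, ev_fa] at a b
    exact mul_left_cancel₀ hj (by linear_combination a - b)
  · have a := h.2 j 0
    have b := h'.2 j 0
    simp only [Dat.zq, Matrix.cons_val, ev_fb] at a b
    exact mul_left_cancel₀ hj (by linear_combination a - b)

end

section
variable {R F 𝒦 : Type} [CommRing R] [Field F] [Field 𝒦] [Algebra F 𝒦] {k N δ w : ℕ}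

theorem ev_mem (A : Subalgebra F 𝒦) (a : R →+* F) {x : Fin 2 → 𝒦} {η : 𝒦} (hx : ∀ i, x i ∈ A)
    (hη : η ∈ A) (P : P3 R) : eval₂ ((algebraMap F 𝒦).comp a) (p3 x η) P ∈ A := by
  have := map_ev A.val.toRingHom ((algebraMap F A).comp a) (fun i => ⟨x i, hx i⟩) ⟨η, hη⟩ P
  exact this ▸ Subtype.property _

theorem mem (hMO : MO_s) {𝒟 : Dat R k N δ w} {a : R →+* F} (t : 𝒦) {x : Fin 2 → 𝒦} {η : 𝒦}
    {θ : Fin δ → 𝒦} (hx : ∀ i, x i ∈ Algebra.adjoin F {t})
    (h : 𝒟.Rl ((algebraMap F 𝒦).comp a) x η θ) :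
    (∀ i, x i ∈ IC F t) ∧ η ∈ IC F t ∧ ∀ j, θ j ∈ IC F t := by
  obtain h1 : ∀ i, x i ∈ IC F t := fun i =>
    isIntegral_algebraMap (R := Algebra.adjoin F {t}) (A := 𝒦) (x := ⟨x i, hx i⟩)
  obtain h2 : η ∈ IC F t := by
    obtain ⟨q, m, -, e⟩ := hMO.1 R (Algebra.adjoin F {t}) k N 𝒟.G ((algebraMap F _).comp a)
      (fun i => ⟨x i, hx i⟩) 𝒟.mo
    exact ⟨q, m, (e 𝒦 _ η).trans h.1⟩
  refine ⟨h1, h2, fun j => ?_⟩
  have e := h.2 j 2
  simp only [Dat.zq, Matrix.cons_val, eval₂_one, one_mul, mul_one, one_pow] at e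
  have b := ev_mem _ a h1 h2 (X (some 0) * 𝒟.be j)
  have c := ev_mem _ a h1 h2 (X (some 0) ^ 2 * (𝒟.al j * 𝒟.ga j))
  refine isIntegral_trans (A := integralClosure (Algebra.adjoin F {t}) 𝒦) _
    ⟨Polynomial.X ^ 2 + (Polynomial.C ⟨_, b⟩ * Polynomial.X + Polynomial.C ⟨_, c⟩),
      Polynomial.monic_X_pow_add (Polynomial.degree_linear_lt), ?_⟩
  simp only [Polynomial.eval₂_add, Polynomial.eval₂_mul, Polynomial.eval₂_X_pow,
    Polynomial.eval₂_C, Polynomial.eval₂_X]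
  exact (add_assoc _ _ _).symm.trans e

theorem fin {𝒟 : Dat R k N δ w} {a : R →+* F} (A : Subalgebra F 𝒦) (χ : A →ₐ[F] F)
    {x : Fin 2 → 𝒦} {η : 𝒦} {θ : Fin δ → 𝒦} (h : 𝒟.Rl ((algebraMap F 𝒦).comp a) x η θ)
    (hx : ∀ i, x i ∈ A) (hη : η ∈ A) (hθ : ∀ j, θ j ∈ A) {x₀ : Fin 2 → F} {η₀ : F} {τ : Fin δ → F}
    (h₀ : 𝒟.Rl a x₀ η₀ τ) (e₁ : ∀ i, χ ⟨x i, hx i⟩ = x₀ i) (e₂ : χ ⟨η, hη⟩ = η₀)
    (e₃ : ∀ j, x₀ 1 - a (𝒟.xn j) * x₀ 0 = 0 → η₀ - a (𝒟.yn j) * x₀ 0 ^ k = 0 →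
      χ ⟨θ j, hθ j⟩ = τ j) :
    ∃ q : XV (KC δ) → A, (∀ v, (q v : 𝒦) = pt k w x η θ v) ∧ ∀ v, χ (q v) = pt k w x₀ η₀ τ v := by
  have r : 𝒟.Rl ((algebraMap F A).comp a) (fun i => ⟨x i, hx i⟩) ⟨η, hη⟩ fun j => ⟨θ j, hθ j⟩ :=
    rl_of_map (φ := A.val.toRingHom) Subtype.val_injective h
  have r' := map_rl χ.toRingHom r
  have e₀ : χ.toRingHom.comp ((algebraMap F A).comp a) = a := RingHom.ext fun r => χ.commutes _
  have e₁' : (χ.toRingHom ∘ fun i => (⟨x i, hx i⟩ : A)) = x₀ := funext e₁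
  have e₂' : χ.toRingHom ⟨η, hη⟩ = η₀ := e₂
  rw [e₀, e₁', e₂'] at r'
  have e₃' : (χ.toRingHom ∘ fun j => (⟨θ j, hθ j⟩ : A)) = τ := funext fun j => by
    by_cases c : x₀ 1 - a (𝒟.xn j) * x₀ 0 = 0 ∧ η₀ - a (𝒟.yn j) * x₀ 0 ^ k = 0
    · exact e₃ j c.1 c.2
    · exact uniq r' h₀ j (not_and_or.1 c)
  refine ⟨pt k w (fun i => ⟨x i, hx i⟩) ⟨η, hη⟩ fun j => ⟨θ j, hθ j⟩,
    fun v => map_pt A.val.toRingHom _ _ _ v, fun v => (map_pt χ.toRingHom _ _ _ v).trans ?_⟩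
  rw [e₁', e₂', e₃']

theorem unscale {x : Fin 2 → F} {η u : F} {θ : Fin δ → F} (hu : u ≠ 0) (v : XV (KC δ)) :
    pt k w x η θ v = u ^ om k w v.1 *
      pt k w (fun i => u⁻¹ * x i) (u⁻¹ ^ k * η) (fun j => u⁻¹ ^ w * θ j) v := by
  rw [pt_scale, ← mul_assoc, ← mul_pow, mul_inv_cancel₀ hu, one_pow, one_mul]

end

end Chx

open Chx

theorem chs (hMO : MO_s) (hPAR : PAR_s) : CH_s := by
  intro F 𝒦 _ _ _ x 𝒩 R _ w 𝒟 a hx ⟨oG, ox, oy⟩
  obtain ev : ∀ P : P3 R, eval₂ ((algebraMap F 𝒦).comp a) (p3 ![1, x] 𝒩.η) P =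
      aeval (pt3 x 𝒩.η) (map a P) := fun P => by
    rw [aeval_def, eval₂_map]; rfl
  obtain ev₀ : ∀ (x₀ : Fin 2 → F) (y₀ : F) (P : P3 R),
      eval₂ a (p3 x₀ y₀) P = eval (p3 x₀ y₀) (map a P) := fun _ _ P => (eval_map _ _ _).symm
  obtain dec : ∀ j, 𝒩.G = map a (𝒟.al j) * fa (𝒩.xn j) ^ 2 +
      map a (𝒟.be j) * (fa (𝒩.xn j) * fb 𝒩.k (𝒩.yn j)) + map a (𝒟.ga j) * fb 𝒩.k (𝒩.yn j) ^ 2 := by
    intro j
    rw [← oG, 𝒟.dec j]
    simp only [map_add, map_mul, map_pow, map_fa, map_fb, ox, oy]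
  obtain B0 : ∀ j, aeval (pt3 x 𝒩.η) (fb 𝒩.k (𝒩.yn j)) ≠ 0 := fun j => by
    rw [← oy, ← map_fb, ← ev, ev_fb]
    simpa [oy, sub_eq_zero] using 𝒩.ne j
  obtain ⟨θ, hθ⟩ : ∃ θ : Fin 𝒩.δ → 𝒦, ∀ j, θ j * aeval (pt3 x 𝒩.η) (fb 𝒩.k (𝒩.yn j)) =
      aeval (pt3 x 𝒩.η) (map a (𝒟.al j) * fa (𝒩.xn j)) :=
    ⟨fun j => _ / _, fun j => div_mul_cancel₀ _ (B0 j)⟩
  obtain rl : 𝒟.Rl ((algebraMap F 𝒦).comp a) ![1, x] 𝒩.η θ := by
    refine ⟨by rw [ev, oG, 𝒩.root], fun j i => ?_⟩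
    have g := 𝒩.root
    have t := hθ j
    have x0 : aeval (pt3 x 𝒩.η) (X (some 0) : P3 F) = 1 := aeval_X _ _
    rw [dec j] at g
    simp only [map_add, map_mul, map_pow] at g t
    fin_cases i <;> simp only [Dat.zq, Matrix.cons_val, Fin.zero_eta, Fin.mk_one, Fin.reduceFinMk,
      ev, map_add, map_mul, map_pow, map_one, map_fa, map_fb, ox, oy, map_X, x0]
    · linear_combination t
    · refine mul_left_cancel₀ (B0 j) ?_
      linear_combination g + aeval (pt3 x 𝒩.η) (fa (𝒩.xn j)) * t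
    · refine mul_left_cancel₀ (pow_ne_zero 2 (B0 j)) ?_
      linear_combination aeval (pt3 x 𝒩.η) (map a (𝒟.al j)) * g +
        (θ j * aeval (pt3 x 𝒩.η) (fb 𝒩.k (𝒩.yn j)) +
          aeval (pt3 x 𝒩.η) (map a (𝒟.al j)) * aeval (pt3 x 𝒩.η) (fa (𝒩.xn j)) +
          aeval (pt3 x 𝒩.η) (map a (𝒟.be j)) * aeval (pt3 x 𝒩.η) (fb 𝒩.k (𝒩.yn j))) * t
  refine ⟨θ, rl, fun y hy hz => ?_⟩
  obtain ⟨η₀, θ₀, c, c1, c0, r₀, e⟩ := (hPAR R _ _ _ _ 𝒟 F a).2 y hy hz
  by_cases h0 : xx y 0 = 0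
  · obtain h1 : xx y 1 ≠ 0 := by
      obtain ⟨i, hi⟩ := hy (.inl 0)
      fin_cases i
      · exact absurd h0 hi
      · exact hi
    have r₁ := r₀.scale (xx y 1)⁻¹
    have rl' := rl.scale x⁻¹
    obtain ex : (fun i => (xx y 1)⁻¹ * xx y i) = ![0, 1] := by
      funext i
      fin_cases i <;> simp [h0, h1]
    obtain ex' : (fun i => x⁻¹ * ![1, x] i) = ![x⁻¹, 1] := by
      funext i
      fin_cases i <;> simp [hx]
    obtain eη : x⁻¹ ^ 𝒩.k * 𝒩.η = 𝒩.η / x ^ 𝒩.k := by rw [inv_pow, div_eq_inv_mul]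
    have ps := fun v => pt_scale (k := 𝒩.k) (w := w) ![1, x] 𝒩.η x⁻¹ θ v
    have us := fun v => unscale (k := 𝒩.k) (w := w) (x := xx y) (η := η₀) (θ := θ₀) h1 v
    rw [ex', eη] at rl' ps
    rw [ex] at r₁ us
    obtain ⟨m1, m2, m3⟩ := mem hMO x⁻¹ (fun i => by
      fin_cases i
      · exact Algebra.self_mem_adjoin_singleton F _
      · exact one_mem _) rl'
    obtain ⟨χ, k1, k2⟩ := 𝒩.chr' _ (by
      have := r₁.1
      rwa [ev₀, oG] at this)
    obtain ⟨q, q1, q2⟩ := Chx.fin _ χ rl' m1 m2 m3 r₁ (fun i => by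
      fin_cases i
      · exact k1 _
      · exact map_one χ) (k2 _) (fun j h => by simp at h)
    exact ⟨x⁻¹, _, χ, xx y 1, c, q, .inr ⟨rfl, rfl⟩, h1, c1, c0, fun v => (q1 v).trans (ps v),
      fun v => by rw [e, us, q2, mul_assoc]⟩
  · have r₁ := r₀.scale (xx y 0)⁻¹
    have us := fun v => unscale (k := 𝒩.k) (w := w) (x := xx y) (η := η₀) (θ := θ₀) h0 v
    obtain ex : (fun i => (xx y 0)⁻¹ * xx y i) = ![1, (xx y 0)⁻¹ * xx y 1] := by
      funext i
      fin_cases i <;> simp [h0]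
    rw [ex] at r₁ us
    generalize (xx y 0)⁻¹ * xx y 1 = x₀, (xx y 0)⁻¹ ^ 𝒩.k * η₀ = y₀,
      (fun j => (xx y 0)⁻¹ ^ w * θ₀ j) = τ at r₁ us
    obtain ⟨m1, m2, m3⟩ := mem hMO x (fun i => by
      fin_cases i
      · exact one_mem _
      · exact Algebra.self_mem_adjoin_singleton F _) rl
    obtain ⟨χ, k1, k2, k3⟩ : ∃ χ : IC F x →ₐ[F] F, (∀ h, χ ⟨x, h⟩ = x₀) ∧ (∀ h, χ ⟨𝒩.η, h⟩ = y₀) ∧
        ∀ j, x₀ = 𝒩.xn j → y₀ = 𝒩.yn j → χ ⟨θ j, m3 j⟩ = τ j := by
      by_cases nd : ∃ j, x₀ = 𝒩.xn j ∧ y₀ = 𝒩.yn j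
      · obtain ⟨j, rfl, rfl⟩ := nd
        obtain ⟨χ, k1, k2, k3⟩ := 𝒩.chrn j _ _ _ (θ j) (dec j) (hθ j) (τ j) (by
          have z := r₁.2 j 2
          have x0 : eval (p3 ![1, 𝒩.xn j] (𝒩.yn j)) (X (some 0) : P3 F) = 1 := eval_X _
          simp only [Dat.zq, Matrix.cons_val, ev₀, map_mul, map_pow, map_one, map_X, x0] at z
          rw [pt3_eq, map_mul]
          linear_combination z)
        exact ⟨χ, k1, k2, fun i hi _ => by obtain rfl := 𝒩.inj hi; exact k3 _⟩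
      · obtain ⟨χ, k1, k2⟩ := 𝒩.chr x₀ y₀ (by
          have := r₁.1
          rwa [ev₀, oG] at this)
        exact ⟨χ, k1, k2, fun j h h' => absurd ⟨j, h, h'⟩ nd⟩
    obtain ⟨q, q1, q2⟩ := Chx.fin _ χ rl m1 m2 m3 r₁ (fun i => by
      fin_cases i
      · exact map_one χ
      · exact k1 _) (k2 _) (fun j h h' => k3 j (by simpa [ox, sub_eq_zero] using h)
        (by simpa [oy, sub_eq_zero] using h'))
    exact ⟨1, _, χ, xx y 0, c, q, .inl ⟨rfl, rfl⟩, h0, c1, c0,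
      fun v => by rw [q1, one_pow, one_mul], fun v => by rw [e, us, q2, mul_assoc]⟩

end Pool.Agent.MP_855f4c_ag.Cu.Md

end

section
/-! h92c section E: the representation of powers. -/

open MvPolynomial

namespace Pool.Agent.MP_855f4c_ag.Cu.Md

open T

theorem Rep.scale {κ R D : Type} [Fintype κ] [DecidableEq κ] [CommRing R] [CommRing D] {n : κ → ℕ}
    {P : MvPolynomial (XV κ) R} (h : Hx n P) (ψ : R →+* D) (y : XV κ → D) (c : κ → D) :
    eval₂ ψ (fun v => c v.1 * y v) P = (∏ j, c j ^ n j) * eval₂ ψ y P := by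
  simp only [eval₂_eq', Finset.mul_sum]
  refine Finset.sum_congr rfl fun d hd => ?_
  have e := h (mem_support_iff.1 hd)
  rw [Finsupp.weight_apply, Finsupp.sum_fintype _ _ (by simp)] at e
  have e' (j : κ) : ∑ i, d (j, i) = n j := by
    rw [← e, Finset.sum_apply, Fintype.sum_prod_type, Finset.sum_eq_single j]
    · simp
    · exact fun b _ hb => by simp [Pi.single_eq_of_ne hb.symm]
    · simp
  simp only [mul_pow, Finset.prod_mul_distrib]
  rw [Fintype.prod_prod_type]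
  simp only [Finset.prod_pow_eq_pow_sum, e']
  ring

theorem Rep.mn {F 𝒦 : Type} [Field F] [Field 𝒦] [Algebra F 𝒦] (x : 𝒦) (w : ℕ) (i : Fin 2) :
    Mn F x w (![1, x] i ^ w) := by
  refine ⟨1, X none - X (some i) ^ w, ⟨one_pos, ?_, ?_, ?_⟩, by simp [pt3]⟩
  · exact (mul_one w).symm ▸ wh_sub (isWeightedHomogeneous_X F _ none)
      (by simpa using wh_pow (wh_X w i) w)
  · rw [coeff_sub, coeff_X_pow, if_neg, sub_zero, ← pow_one (X none), coeff_X_pow, if_pos rfl]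
    exact fun e => by simpa using congrArg (· none) e
  · refine (degreeOf_sub_le _ _ _).trans (max_le (by simp) ?_)
    exact (degreeOf_pow_le _ _ _).trans (by simp [degreeOf_X])

theorem rep (hC : RC_s) (hH : CH_s) : REP_s := by
  intro F 𝒦 _ _ _ _ x 𝒩 R _ w 𝒟 a hx hov c e cf hZ r ϖ z h0 hz
  obtain ⟨θ, hθ, hch⟩ := hH F 𝒦 x 𝒩 R w 𝒟 a hx hov
  let Z : CV r → 𝒦 := Sum.elim (fun i => ![1, x] i ^ ϖ) z
  have hM : ∀ v, Mn F x ϖ (Z v) := fun v => by
    rcases v with i | i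
    exacts [Rep.mn x ϖ i, hz i]
  choose m₀ hm using fun v => hC F 𝒦 x 𝒩 R w 𝒟 a hx hov θ hθ ϖ (Z v) h0 (hM v)
  set S := ∑ j ∈ Finset.univ.erase (.inl 0 : KC 𝒩.δ), om 𝒩.k w j * 𝒩.N with hS
  refine ⟨S + 1 + ∑ v, m₀ v, fun m hmm => ?_⟩
  have h1 : S + 1 ≤ m * ϖ := by nlinarith [Nat.zero_le (∑ v, m₀ v)]
  choose Ξ hΞ hv using fun v => hm v m ((Finset.single_le_sum (f := m₀) (fun _ _ => Nat.zero_le _)
    (Finset.mem_univ v)).trans (by omega)) (m * ϖ - S) (by omega)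
  set E : KC 𝒩.δ → ℕ := fun j => if j = .inl 0 then m * ϖ - S else 𝒩.N with hE
  have hs : ∑ j, om 𝒩.k w j * E j = m * ϖ := by
    rw [← Finset.add_sum_erase _ _ (Finset.mem_univ (.inl 0)),
      Finset.sum_congr rfl fun j hj => by rw [hE, ← hE, show E j = 𝒩.N from
        if_neg (Finset.ne_of_mem_erase hj)], ← hS]
    simp only [hE, om, if_true, Sum.elim_inl, Matrix.cons_val_zero]
    omega
  refine ⟨E, Ξ, fun j => ?_, hs, hΞ, fun y hy hz' => ?_⟩
  · have := 𝒩.mo.1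
    simp only [hE]
    split_ifs <;> omega
  obtain ⟨s, A, χ, u, t, q, -, hu, t0, ht, hq, hyq⟩ := hch y hy (hZ y hz')
  have pw {D : Type} [CommRing D] (b : D) : ∏ j, (b ^ om 𝒩.k w j) ^ E j = b ^ (m * ϖ) := by
    simp only [← pow_mul, Finset.prod_pow_eq_pow_sum, hs]
  have e1 (v) : eval y (Ξ v) = (∏ j, t j ^ E j) * (u ^ (m * ϖ) * χ (aeval q (Ξ v))) := by
    have := Rep.scale (hΞ v) (RingHom.id F) (fun v => χ (q v)) fun j => t j * u ^ om 𝒩.k w j
    simp only [← hyq, mul_pow, Finset.prod_mul_distrib, pw] at this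
    rw [← mul_assoc, comp_aeval_apply]
    exact this
  have e2 (v) : ((aeval q (Ξ v) : A) : 𝒦) = s ^ (m * ϖ) * Z v ^ m := by
    rw [← hv v, ← pw, aeval_def (pt _ _ _ _ _), ← Rep.scale (hΞ v)]
    simp only [← hq]
    exact comp_aeval_apply q A.val _
  have e3 (i) : (q (.inl 0, i) : 𝒦) = s * ![1, x] i := by simp [hq, om, pt]
  have e4 (i) : y (.inl 0, i) = u * χ (q (.inl 0, i)) := by simp [hyq, om, t0]
  have l0 : ∏ j, t j ^ E j ≠ 0 := Finset.prod_ne_zero_iff.2 fun j _ => pow_ne_zero _ (ht j)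
  refine ⟨_, l0, fun i => ?_, fun Φ n hΦ h => ?_⟩
  · rw [e1, e4, mul_pow, ← map_pow]
    congr 3
    refine Subtype.ext ?_
    rw [e2, SubmonoidClass.coe_pow, e3, mul_pow, mul_comm m, pow_mul (![1, x] i)]
    rfl
  · let Q : CV r → A := Sum.elim (fun i => q (.inl 0, i)) fun i => aeval q (Ξ (.inr i))
    have a1 : aeval Q Φ = 0 := by
      have := ev_wh hΦ (algebraMap F 𝒦) (Sum.elim ![1, x] fun i => z i ^ m) s
      rw [← aeval_def, ← aeval_def, h, mul_zero] at this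
      refine Subtype.ext (((comp_aeval_apply Q A.val _).trans ?_).trans this)
      refine congrArg (fun f => aeval f Φ) (funext fun v => ?_)
      rcases v with i | i
      · simpa [Q] using e3 i
      · simpa [Q, Z] using e2 (.inr i)
    have := ev_wh hΦ (RingHom.id F) (fun v => χ (Q v)) u
    rw [show eval₂ (RingHom.id F) (fun v => χ (Q v)) Φ = χ (aeval Q Φ) from
      (comp_aeval_apply Q χ Φ).symm, a1, map_zero, mul_zero] at this
    refine (congrArg (fun f => eval f Φ) (funext fun v => ?_)).trans this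
    rcases v with i | i
    · simpa [Q] using e4 i
    · simp only [Sum.elim_inr, e1, Q, mul_div_cancel_left₀ _ l0]

end Pool.Agent.MP_855f4c_ag.Cu.Md

end

section
/-! h92c section E: sections without zeros. -/

open MvPolynomial

namespace Pool.Agent.MP_855f4c_ag.Cu.Md

open T

namespace Un

theorem hg_ev {κ L R σ M : Type} [Fintype κ] [DecidableEq κ] [CommRing L] [CommRing R]
    [AddCommMonoid M] {ω : σ → M} {n : M} {P : MvPolynomial σ R} (h : P.IsWeightedHomogeneous ω n)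
    (ψ : R →+* L) (φ : M →+ κ → ℤ) {g : σ → MvPolynomial (XY κ) L} (hg : ∀ v, Hg (φ (ω v)) (g v)) :
    Hg (φ n) (eval₂ (C.comp ψ) g P) := by
  rw [eval₂_eq]
  refine IsWeightedHomogeneous.sum _ _ _ fun d hd => ?_
  rw [← h (mem_support_iff.1 hd), Finsupp.weight_apply, Finsupp.sum, map_sum]
  refine IsWeightedHomogeneous.C_mul (IsWeightedHomogeneous.prod _ _ _ fun v _ => ?_) _
  rw [map_nsmul]
  exact (hg v).pow _

theorem ev_ev {τ L R σ : Type} [CommRing L] [CommRing R] (ψ : R →+* L) (a : τ → L)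
    (g : σ → MvPolynomial τ L) (P : MvPolynomial σ R) :
    eval a (eval₂ (C.comp ψ) g P) = eval₂ ψ (eval a ∘ g) P := by
  rw [eval₂_comp_left]
  congr 1
  ext r
  simp

theorem hg_cast {κ L : Type} [Fintype κ] [DecidableEq κ] [CommRing L] {m n : κ → ℤ}
    {P : MvPolynomial (XY κ) L} (h : Hg m P) (e : m = n) : Hg n P := e ▸ h

theorem hg_X {κ L : Type} [Fintype κ] [DecidableEq κ] [CommRing L] (v : XY κ) :
    Hg (wt v) (X v : MvPolynomial (XY κ) L) := isWeightedHomogeneous_X L _ v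

theorem rel_nz {κ L : Type} [Field L] {a : XY κ → L} (h : Rel a) (j : κ) :
    ∃ i, a (.inr (j, i)) ≠ 0 ∧ a (.inl (j, i)) ≠ 0 := by
  obtain ⟨i, -, hi⟩ := Finset.exists_ne_zero_of_sum_ne_zero ((h j).trans_ne one_ne_zero)
  exact ⟨i, mul_ne_zero_iff.1 hi⟩

theorem glue (hE : EQ_s) (hH : HX_s) {R L : Type} [CommRing R] {k N δ w : ℕ}
    (𝒟 : Dat R k N δ w) [Field L] [IsAlgClosed L] (ψ : R →+* L) {ι : Type} [Fintype ι]
    (q p : ι → MvPolynomial (XY (KC δ)) L) (m n : KC δ → ℤ) (hq : ∀ i, Hg m (q i))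
    (hp : ∀ i, Hg (m + n) (p i)) (h : ∀ a, Rel a → 𝒟.Z ψ (a ∘ .inl) → ∃ i, eval a (q i) ≠ 0) :
    ∃ s, Hg n s ∧ ∀ a, Rel a → 𝒟.Z ψ (a ∘ .inl) →
      ∀ z, (∀ i, eval a (p i) = z * eval a (q i)) → eval a s = z := by
  have ef : ∀ (a : XY (KC δ) → L) t, eval a (eval₂ (C.comp ψ) (X ∘ .inl) (𝒟.eqp t)) =
      𝒟.eqv ψ (a ∘ .inl) t := fun a t => by
    have := ((hE R k N δ w 𝒟).1 _ L C (eval₂Hom ψ (a ∘ .inl)) X).1 t
    rw [eval₂Hom_comp_C, show eval₂Hom ψ (a ∘ .inl) ∘ X = a ∘ .inl by ext; simp] at this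
    rw [ev_ev, show eval a ∘ X ∘ .inl = a ∘ .inl by ext; simp]
    exact this
  obtain ⟨lam, b, hl, H⟩ := (null L L (KC δ) ι (EI δ) _ _ fun t =>
    hg_ev ((hH R k N δ w 𝒟).1 t) ψ ((Nat.castAddMonoidHom ℤ).compLeft _) (g := X ∘ .inl)
      fun v => hg_cast (hg_X _) (by ext; simp [wt, Pi.single_apply])).1 q m hq
      fun a ha hz => h a ha fun t => (ef a t).symm.trans (hz t)
  refine ⟨∑ i, lam i * p i, IsWeightedHomogeneous.sum _ _ _ fun i _ =>
    hg_cast ((hl i).mul (hp i)) (neg_add_cancel_left _ _), fun a ha hz z e => ?_⟩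
  have := H L (RingHom.id L) a ha
  simp only [eval₂_id, ef, hz _, mul_zero, Finset.sum_const_zero, add_zero] at this
  simp only [map_sum, map_mul, e, mul_left_comm _ z, ← Finset.mul_sum, this, mul_one]

theorem pt_c {L : Type} [CommRing L] {k δ w : ℕ} (x : Fin 2 → L) (η : L) (θ : Fin δ → L)
    (c : Fin 2) : pt k w x η θ (.inl c.succ, 0) = x c ^ k ∧ pt k w x η θ (.inl c.succ, 1) = η := by
  fin_cases c <;> exact ⟨rfl, rfl⟩

theorem key (hE : EQ_s) (hH : HX_s) (hP : PAR_s) {R : Type} [CommRing R]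
    {k N δ w : ℕ} (𝒟 : Dat R k N δ w) (L : Type) [Field L] [IsAlgClosed L] (ψ : R →+* L) :
    ∃ E : MvPolynomial (XY (KC δ)) L, Hg (k • Pi.single (Sum.inl 0) 1) E ∧
      ∀ (j : KC δ) (q p : Fin 2 → MvPolynomial (XY (KC δ)) L) (m n : KC δ → ℤ),
      (∀ i, Hg m (q i)) → (∀ i, Hg (m + n) (p i)) →
      (∀ a η θ c, Rel a → c ≠ 0 → eval a E = η → 𝒟.Rl ψ (xx (a ∘ .inl)) η θ →
        (∀ i, a (.inl (j, i)) = c * pt k w (xx (a ∘ .inl)) η θ (j, i)) →
        (∃ i, eval a (q i) ≠ 0) ∧ ∀ i, eval a (q i) = c * eval a (p i)) →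
      ∃ s : MvPolynomial (XY (KC δ)) L, Hg n s ∧
        ∀ a : XY (KC δ) → L, Rel a → 𝒟.Z ψ (a ∘ .inl) → eval a s ≠ 0 := by
  have nf := fun (a : XY (KC δ) → L) (ha : Rel a) =>
    (hP R k N δ w 𝒟 L ψ).2 (a ∘ .inl) fun l => (rel_nz ha l).imp fun _ h => h.2
  obtain ⟨E, hE', vE⟩ := glue hE hH 𝒟 ψ (ι := Fin 2 × Fin 2)
    (fun i => X (.inl (.inl i.1.succ, 0)) * X (.inr (.inl i.1.succ, i.2)))
    (fun i => ss k (X ∘ .inl) i.1 * X (.inr (.inl i.1.succ, i.2))) 0 (k • Pi.single (Sum.inl 0) 1)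
    (fun i => hg_cast ((hg_X _).mul (hg_X _)) (by simp [wt, Pi.single_neg]))
    (fun i => hg_cast ((((hg_X _).pow k).mul (hg_X _)).mul (hg_X _)) (by simp [wt, Pi.single_neg]))
    fun a ha hz => by
      obtain ⟨η, θ, c, -, c0, -, e⟩ := nf a ha hz
      obtain ⟨i, -, hi⟩ := rel_nz ha (.inl 0)
      obtain ⟨l, hl, -⟩ := rel_nz ha (.inl i.succ)
      have := e (.inl i.succ, 0)
      rw [(pt_c ..).1] at this
      refine ⟨(i, l), ?_⟩
      rw [map_mul, eval_X, eval_X]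
      exact mul_ne_zero (this.trans_ne (mul_ne_zero (c0 _) (pow_ne_zero _ hi))) hl
  refine ⟨E, hE', fun j q p m n hq hp h => ?_⟩
  have h' : ∀ a, Rel a → 𝒟.Z ψ (a ∘ .inl) → ∃ c : L, c ≠ 0 ∧ (∃ i, eval a (q i) ≠ 0) ∧
      ∀ i, eval a (q i) = c * eval a (p i) := fun a ha hz => by
    obtain ⟨η, θ, c, -, c0, hr, e⟩ := nf a ha hz
    refine ⟨c j, c0 j, h a η θ _ ha (c0 j) (vE a ha hz η fun i => ?_) hr fun i => e (j, i)⟩
    have e0 := e (.inl i.1.succ, 0)
    have e1 := e (.inl i.1.succ, 1)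
    rw [(pt_c ..).1] at e0
    rw [(pt_c ..).2] at e1
    simp only [ss, xx, Function.comp, map_mul, map_pow, eval_X] at e0 e1 ⊢
    rw [e0, e1]
    ring
  obtain ⟨s, hs, vs⟩ := glue hE hH 𝒟 ψ q p m n hq hp fun a ha hz =>
    (h' a ha hz).elim fun _ h => h.2.1
  refine ⟨s, hs, fun a ha hz => ?_⟩
  obtain ⟨c, c0, -, e⟩ := h' a ha hz
  rw [vs a ha hz c⁻¹ fun i => by rw [e, inv_mul_cancel_left₀ c0]]
  exact inv_ne_zero c0

end Un

open Un in
theorem unit (hE : EQ_s) (hH : HX_s) (hP : PAR_s) : UNIT_s := by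
  intro R _ k N δ w 𝒟 L _ _ ψ j
  obtain ⟨E, hE', key⟩ := key hE hH hP 𝒟 L ψ
  rcases j with l | j
  · rcases l.eq_zero_or_eq_succ with rfl | ⟨c, rfl⟩
    · exact ⟨1, hg_cast (isWeightedHomogeneous_one _ _) (by simp [om]), by simp⟩
    have ho : om (δ := δ) k w (.inl c.succ) = k := by fin_cases c <;> rfl
    refine key (.inl c.succ) (fun i => X (.inl (.inl c.succ, i))) ![X (.inl (.inl 0, c)) ^ k, E]
      (Pi.single (Sum.inl c.succ) 1) _ ?_ ?_ ?_
    · exact fun i => hg_cast (hg_X _) (by simp [wt])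
    · simp only [Fin.forall_fin_two, Matrix.cons_val]
      exact ⟨hg_cast ((hg_X _).pow k) (by simp [wt, ho]), hg_cast hE' (by simp [ho])⟩
    · intro a η θ x ha _ eE _ e
      exact ⟨by simpa using (rel_nz ha (.inl c.succ)).imp fun _ h => h.2,
        by simpa [pt_c, xx, eE] using Fin.forall_fin_two.1 e⟩
  · have hw := 𝒟.wh j
    let A : P3 R → MvPolynomial (XY (KC δ)) L := eval₂ (C.comp ψ) (p3 (xx (X ∘ .inl)) E)
    let Y : XV (KC δ) → MvPolynomial (XY (KC δ)) L := fun v => X (.inl v)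
    have hv : ∀ {n P}, Wh k n P → Hg (n • Pi.single (Sum.inl 0) 1) (A P) := fun h =>
      hg_ev h ψ (multiplesHom (KC δ → ℤ) (Pi.single (Sum.inl 0) 1)) fun v => by
        rcases v with _ | i
        · exact hE'
        · exact hg_cast (hg_X _) (by simp [wt])
    refine key (.inr j) ![Y (.inr j, 0) * Y (.inl 0, 0), Y (.inr j, 1) * A (fa (𝒟.xn j))]
      ![Y (.inl 0, 0) ^ w * Y (.inl 0, 0), Y (.inl 0, 1) ^ w * A (fa (𝒟.xn j)) -
        A (X (some 0) * (𝒟.ga j * fb k (𝒟.yn j) + 𝒟.be j * fa (𝒟.xn j)))]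
      (Pi.single (Sum.inr j) 1 + Pi.single (Sum.inl 0) 1) _ ?_ ?_ ?_
    · simp only [Fin.forall_fin_two, Matrix.cons_val]
      exact ⟨(hg_X _).mul (hg_X _), hg_cast ((hg_X _).mul (hv (wh_fa k _))) (by simp [wt])⟩
    · simp only [Fin.forall_fin_two, Matrix.cons_val]
      exact ⟨hg_cast (((hg_X _).pow w).mul (hg_X _)) (by simp [wt, om]; abel),
        (hg_cast (((hg_X _).pow w).mul (hv (wh_fa k _))) (by simp [wt, om]; abel)).sub
          (hg_cast (hv hw.2.1) (by simp [om, add_smul]; abel))⟩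
    intro a η θ c ha c0 eE hr e
    have e3 : eval a ∘ p3 (xx (X ∘ .inl)) E = p3 (xx (a ∘ .inl)) η := by
      ext (_ | i) <;> simp [p3, xx, eE]
    have e0 : a (.inl (.inr j, 0)) = c * a (.inl (.inl 0, 0)) ^ w := e 0
    have e1 : a (.inl (.inr j, 1)) = c * (θ j + a (.inl (.inl 0, 1)) ^ w) := e 1
    have h1 := hr.2 j 1
    simp only [Dat.zq, Matrix.cons_val] at h1
    simp only [Fin.forall_fin_two, Fin.exists_fin_two, Matrix.cons_val, map_mul, map_sub, map_pow,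
      A, Y, eval_X, ev_ev, e3]
    refine ⟨?_, by rw [e0, mul_assoc], by rw [e1]; linear_combination c * h1⟩
    by_cases h0 : a (.inl (.inl 0, 0)) = 0
    · have a1 := Fin.exists_fin_two.1 (rel_nz ha (.inl 0))
      have a2 := Fin.exists_fin_two.1 (rel_nz ha (.inr j))
      simp only [h0, e0, zero_pow hw.2.2.2.2.ne', mul_zero, ne_eq, not_true, and_false,
        false_or] at a1 a2
      exact .inr (mul_ne_zero a2.2 (by simp [fa, p3, xx, h0, a1.2]))
    · exact .inl (by simp [e0, c0, h0])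

end Pool.Agent.MP_855f4c_ag.Cu.Md

end

section
/-! h92c section E: the assembly of the model. -/

open MvPolynomial

namespace Pool.Agent.MP_855f4c_ag.Cu.Md

open T

theorem sub_inj {δ : ℕ} (σ : SI δ) : Function.Injective (sub σ) := by
  refine Option.map_injective fun o o' h => ?_
  have h := (Prod.ext_iff.1 h).2
  rcases o with _ | i <;> rcases o' with _ | i' <;> simp only [fo, Option.elim] at h
  · rfl
  · exfalso
    rcases σ with c | q <;> simp only [Sum.elim_inl, Sum.elim_inr] at h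
    · cases h
    · split_ifs at h <;> simp at h
  · exfalso
    rcases σ with c | q <;> simp only [Sum.elim_inl, Sum.elim_inr] at h
    · cases h
    · split_ifs at h <;> simp at h
  · exact congrArg some (Prod.ext_iff.1 (Option.some.inj h)).1

theorem hx_pow {κ R : Type} [Fintype κ] [DecidableEq κ] [CommRing R] {n : κ → ℕ}
    {P : MvPolynomial (XV κ) R} (h : Hx n P) (m : ℕ) : Hx (m • n) (P ^ m) := by
  induction m with
  | zero => simpa using isWeightedHomogeneous_one R _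
  | succ m ih => rw [pow_succ, succ_nsmul]; exact ih.mul h

theorem modn (hMR : MR_s) (hEQ : EQ_s) (hHX : HX_s) (hI : IDN_s) (hT : TAN_s) (hP : PACK_s)
    (hS : SM_s) (hU : UNIT_s) (hF : FIN_s) (hO : ONTO_s) (hR : REP_s) : MODN_s := by
  intro F 𝒦 _ _ _ _ x hx 𝒩
  obtain ⟨R, _, w, 𝒟, a, hsm, hov⟩ := hMR F 𝒦 x 𝒩
  let ε := (Fintype.equivFin (EI 𝒩.δ)).symm
  let τ := (Fintype.equivFin (SI 𝒩.δ)).symm
  obtain ⟨cf, hgp, hgen⟩ := hP R (KC 𝒩.δ) _ (fun b => dg 𝒩.k 𝒩.N w (ε b)) (fun b => 𝒟.eqp (ε b))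
    fun b => (hHX R _ _ _ _ 𝒟).1 _
  have nat {D : Type} [CommRing D] (ψ : R →+* D) (y : XV (KC 𝒩.δ) → D) :=
    (hEQ R _ _ _ _ 𝒟).1 _ D C (eval₂Hom ψ y) X
  have e₁ {D : Type} [CommRing D] (ψ : R →+* D) (y : XV (KC 𝒩.δ) → D) :
      (eval₂Hom ψ y).comp C = ψ := RingHom.ext fun r => eval₂_C _ _ r
  have e₂ {D : Type} [CommRing D] (ψ : R →+* D) (y : XV (KC 𝒩.δ) → D) :
      eval₂Hom ψ y ∘ X = y := funext fun v => eval₂_X _ _ v
  have hev {D : Type} [CommRing D] (ψ : R →+* D) (y : XV (KC 𝒩.δ) → D) (i) :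
      eval₂ ψ y (𝒟.eqp i) = 𝒟.eqv ψ y i := by
    have := (nat ψ y).1 i
    rwa [e₁, e₂] at this
  have hh {D : Type} [CommRing D] (ψ : R →+* D) (y : XV (KC 𝒩.δ) → D) (σ) :
      eval₂ ψ y (𝒟.hq C X σ) = 𝒟.hq ψ y σ := by
    have := (nat ψ y).2 σ
    rwa [e₁, e₂] at this
  have hZ {D : Type} [CommRing D] {ψ : R →+* D} {y : XV (KC 𝒩.δ) → D} : Ze cf ψ y ↔ 𝒟.Z ψ y :=
    ⟨fun h i => by rw [← ε.apply_symm_apply i, ← hev, ← hgen]; exact h _,
      fun h b => by rw [hgen, hev]; exact h _⟩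
  choose r hr0 hr using hI R _ _ _ _ 𝒟
  choose nh hnh using (hHX R _ _ _ _ 𝒟).2
  have hS' (σ : SI 𝒩.δ) (o) : gp cf (ε.symm (sub σ o)) = 𝒟.eqp (sub σ o) := by
    rw [hgp, ε.apply_symm_apply]
  refine ⟨KC 𝒩.δ, inferInstance, inferInstance, _, _, R, inferInstance, cf, a,
    { ns := _
      S := fun σ => Finset.univ.image fun o => ε.symm (sub (τ σ) o)
      h := fun σ => 𝒟.hq C X (τ σ) ^ r (τ σ)
      dh := fun σ => r (τ σ) • nh (τ σ)
      hom := fun σ => hx_pow (hnh _) _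
      idn := fun σ b => ?_
      pr := fun _ => ()
      inc := fun _ => .inl 0
      uu := fun _ => .inl 1
      j₀ := fun _ => ε.symm (some (0, none))
      ω := om 𝒩.k w
      Δ := fun _ => ∏ j, (Polynomial.X - Polynomial.C (𝒟.xn j))
      pr_inc := fun _ => rfl
      pr_uu := fun _ => rfl
      uu_ne := fun _ => by simp
      ω_inc := fun _ => rfl
      mon := fun _ => Polynomial.monic_prod_of_monic _ _ fun _ _ => Polynomial.monic_X_sub_C _
      tan := fun σ b L _ ψ y E hy _ hψ hE => ?_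
      unit := fun L _ _ ψ j => ?_
      alg := fun L _ ψ y E j hy hz hψ hE => (hF R _ _ _ _ 𝒟 L ψ).1 y E j hy (hZ.1 hz) hψ hE
      fin := fun L _ ψ y => ((hF R _ _ _ _ 𝒟 L ψ).2 fun i => y ((), i)).subset
        fun y' h => ⟨h.1, hZ.1 h.2.1, funext fun i => h.2.2 () i⟩
      supp := fun _ j hj => ?_
      pos := fun _ => ?_
      onto := fun L _ hL ψ y hy h => ?_
      uniq := fun L _ ψ y y' hy hy' hz hz' h h' => (hO R _ _ _ _ 𝒟 L ψ).2 y y' hy hy' (hZ.1 hz)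
        (hZ.1 hz') (h ()) (h' ()).1 fun j hj => (h' ()).2 ?_ }, hsm, fun y hy hz => ?_,
    hR F 𝒦 x 𝒩 R w 𝒟 a (fun h => hx (h ▸ isAlgebraic_zero)) hov _ _ cf fun _ => hZ.1⟩
  · rw [hgp]
    refine Ideal.span_mono ?_ (hr (τ σ) (ε b))
    rintro _ ⟨o, rfl⟩
    exact ⟨_, Finset.mem_coe.2 (Finset.mem_image_of_mem _ (Finset.mem_univ o)), hS' _ o⟩
  · obtain ⟨t, h1, h2, h3⟩ := hT R (KC 𝒩.δ) _ L (fun o => 𝒟.eqp (sub (τ σ) o)) ψ y E
      (by simp; omega) hy hψ fun v => hE v rfl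
    refine ⟨t, h1, fun v hv => (hv rfl).elim, h2, fun b hb => ?_⟩
    obtain ⟨o, -, rfl⟩ := Finset.mem_image.1 hb
    rw [hS']
    exact h3 o
  · obtain ⟨s, h1, h2⟩ := hU R _ _ _ _ 𝒟 L ψ j
    exact ⟨s, h1, fun b hb hz => h2 b hb (hZ.1 hz)⟩
  · by_contra hc
    rw [not_or] at hc
    simp only [Equiv.apply_symm_apply, dg, Option.elim, Pi.add_apply, Fin.succ_zero_eq_one,
      Pi.single_eq_of_ne hc.1, Pi.single_eq_of_ne hc.2] at hj
    exact hj rfl
  · simpa [dg, mm] using 𝒩.mo.1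
  · have h := h ()
    rw [hgen, hev, ε.apply_symm_apply] at h
    obtain ⟨y', h1, h2, h3⟩ := (hO R _ _ _ _ 𝒟 L ψ).1 hL y hy h
    exact ⟨y', h1, hZ.2 h2, fun _ => h3⟩
  · rw [Polynomial.eval₂_finsetProd]
    exact Finset.prod_eq_zero (Finset.mem_univ j) (by simp [hj])
  · obtain ⟨σ, h1, h2⟩ := hS F 𝒦 x 𝒩 R w 𝒟 a hov y hy (hZ.1 hz)
    obtain ⟨σ, rfl⟩ := τ.surjective σ
    refine ⟨σ, ?_, fun lam hl b hb => ?_⟩
    · change eval₂ a y (_ ^ _) ≠ 0
      rw [eval₂_pow, hh]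
      exact pow_ne_zero _ h1
    · obtain ⟨o, -, rfl⟩ := Finset.mem_image.1 hb
      refine congrFun (h2 (fun o => lam (ε.symm (sub (τ σ) o))) fun v => ?_) o
      have := hl v
      rw [Finset.sum_image fun _ _ _ _ h => sub_inj _ (ε.symm.injective h)] at this
      simpa only [hS'] using this

end Pool.Agent.MP_855f4c_ag.Cu.Md

end

section
namespace Pool.Agent.MP_855f4c_ag.Cu

open Md in
/-- The model of a nodal plane curve. -/
theorem modn : MODN_s :=
  Md.modn (mr sma) eq hx (idn eq) Md.tan pack (sm eq (par eq)) (unit eq hx (par eq)) (fin mo (par eq))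
    (onto mo eq (par eq)) (rep (rc mo (ra mo) (rb mo)) (chs mo (par eq)))

end Pool.Agent.MP_855f4c_ag.Cu

end

end
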