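import Pool.Agent.MP_855f4c_ag.CC.Cd
import Pool.Agent.MP_855f4c_ag.TC.Td
import Pool.Agent.MP_855f4c_ag.TC.Th

set_option linter.all false

section

/-! h92c section M: the main argument from an abstract approximation. Statements. -/

set_option backward.isDefEq.respectTransparency false

open CategoryTheory Limits Abelian AlgebraicGeometry MvPolynomial

namespace Pool.Agent.MP_855f4c_ag.T

open E E3 E4 LP

attribute [local instance] MvPolynomial.gradedAlgebra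

/-- `θ` sends the zeros of the forms `c'` to approximate zeros of `G`. -/
def Val (p : ℕ) [Fact p.Prime] {K σ β κ : Type} [CommRing K] [Fintype κ] [DecidableEq κ] {c : ℕ}
    {e : Fin c → κ → ℕ} (τ : K →+* PadicAlgCl p) (G : β → MvPolynomial σ K)
    (c' : MI e → PadicAlgCl p) (θ : σ → MvPolynomial (XY κ) (PadicAlgCl p)) (j n : ℕ) : Prop :=
  ∀ (L : Type) [Field L] [IsAlgClosed L] (W : ValuationSubring L) (ψ : PadicAlgCl p →+* L)
    (a : XY κ → L), (∀ x, ‖x‖ ≤ 1 → ψ x ∈ W) → (∀ v, a v ∈ W) → Rel a →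
    (∀ b, gen (ψ ∘ c') b (fun v => a (.inl v)) = 0) →
    (∀ v, (p : L) ^ j * eval₂ ψ a (θ v) ∈ W) ∧
      ∀ b, ∃ y ∈ W, eval₂ (ψ.comp τ) (fun v => eval₂ ψ a (θ v)) (G b) = (p : L) ^ n * y

/-- Bezout for the weights pushed along `ω`. -/
def Bez (l : ℕ) [Fact l.Prime] {Ω κ₀ κ : Type} [Field Ω] [Fintype κ₀] [Fintype κ] {Z : Scheme.{0}}
    (f : Z ⟶ Spec (.of Ω)) (z : κ → (Z ⟶ P1)) (ω : (κ₀ → ℤ) →+ (κ → ℤ))
    (P : MvPolynomial κ₀ ℤ) : Prop :=
  ∀ (Ch : Chern l Ω) (hP : P1L_s) (L : List (κ₀ → ℤ)) (N : ℤ), N ≠ 0 →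
    top ((L.map lin).prod * P) ≠ 0 → ∃ a, tau (N • pw ((L.map ω).map (Ch.cl hP f z))) a ≠ 0

/-- The zeros of `G` are approximated by mw pure zero loci. -/
def CApx (p l : ℕ) [Fact p.Prime] [Fact l.Prime] {K κ₀ σ β : Type} [CommRing K] [Fintype κ₀]
    (τ : K →+* PadicAlgCl p) (w : σ → κ₀ → ℤ) (G : β → MvPolynomial σ K)
    (P : MvPolynomial κ₀ ℤ) : Prop :=
  ∃ j : ℕ, ∀ n : ℕ, ∃ (κ : Type) (_ : Fintype κ) (_ : DecidableEq κ) (c : ℕ) (e : Fin c → κ → ℕ)
    (R : Type) (_ : CommRing R) (_ : Algebra.FiniteType ℤ R) (_ : Algebra R (PadicAlgCl p))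
    (Z : Scheme.{0}) (F : Z ⟶ Spec (.of R)) (z : κ → (Z ⟶ P1)) (c' : MI e → PadicAlgCl p)
    (ω : (κ₀ → ℤ) →+ (κ → ℤ)) (θ : σ → MvPolynomial (XY κ) (PadicAlgCl p)),
    IsProper F ∧ (∀ i, ‖c' i‖ ≤ 1) ∧
    ZL (X := (fbr F (spc (algebraMap R (PadicAlgCl p)))).left) (pullback.fst _ _)
      (fun k => pullback.snd _ _ ≫ z k) c' ∧
    Bez l (Z := (fbr F (spc (algebraMap R (PadicAlgCl p)))).left) (pullback.fst _ _)
      (fun k => pullback.snd _ _ ≫ z k) ω P ∧
    (∀ (i : ℕ) (φ u : PadicAlgCl p ≃ₐ[R] PadicAlgCl p) (Q : ℕ), 1 < Q →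
      Frob ℤ_[p] Q φ → Frob ℤ_[p] 1 u →
      (∃ (n : ℕ) (r : PadicAlgCl p) (o : ℤ_[p]), r ^ l ^ n = algebraMap _ _ o ∧ u r ≠ r) →
      Mw Q i (E.gal F l i φ) (E.gal F l i u)) ∧
    (∀ v, Hg (ω (w v)) (θ v)) ∧ Val p τ G c' θ j n

/-- The theorem from an abstract approximation. -/
def QA_s : Prop := ∀ (p l : ℕ) [Fact p.Prime] [Fact l.Prime], l ≠ p →
  ∀ (K : Type) [Field K] [Algebra K (PadicAlgCl p)] (X : Scheme.{0}) (f : X ⟶ Spec (.of K))
    [IsProper f] (d : ℕ) [SmoothOfRelativeDimension d f] (ν : Type) [Fintype ν]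
    (ι : X ⟶ Proj (homogeneousSubmodule ν K)) [IsClosedImmersion ι] (κ₀ σ β τ : Type) [Fintype κ₀]
    [Finite σ] [Fintype β] [Fintype τ] (w : σ → κ₀ → ℤ) (G : β → MvPolynomial σ K)
    (g : β → κ₀ → ℤ) (s : τ → MvPolynomial σ K) (n : τ → κ₀ → ℤ) (q : ν → MvPolynomial σ K)
    (m : κ₀ → ℤ) (P : MvPolynomial κ₀ ℤ),
    ι ≫ Proj.toSpecZero _ ≫ spc (algebraMap K (homogeneousSubmodule ν K 0)) = f →
    IrreducibleSpace (fbr f (spc (algebraMap K (PadicAlgCl p)))).left →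
    (∀ b, (G b).IsWeightedHomogeneous w (g b)) → (∀ t, (s t).IsWeightedHomogeneous w (n t)) →
    (∀ i, (q i).IsWeightedHomogeneous w m) →
    (∀ a : σ → PadicAlgCl p, (∀ b, aeval a (G b) = 0) → (∀ t, aeval a (s t) = 0) →
      (∃ i, aeval a (q i) ≠ 0) ∧ ∀ (H : MvPolynomial ν K) (k : ℕ), H.IsHomogeneous k →
        (∀ x : X, H ∈ (ι x).asHomogeneousIdeal) → aeval (fun i => aeval a (q i)) H = 0) →
    top ((∏ t, lin (n t)) ^ 2 * lin m ^ d * P) ≠ 0 →
    CApx p l (algebraMap K (PadicAlgCl p)) w G P →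
    ∀ (i : ℕ) (φ u : PadicAlgCl p ≃ₐ[K] PadicAlgCl p) (Q : ℕ), 1 < Q →
      Frob ℤ_[p] Q φ → Frob ℤ_[p] 1 u →
      (∃ (n : ℕ) (r : PadicAlgCl p) (o : ℤ_[p]), r ^ l ^ n = algebraMap _ _ o ∧ u r ≠ r) →
      Mw Q i (E.gal f l i φ) (E.gal f l i u)

end Pool.Agent.MP_855f4c_ag.T

end

section

/-! h92c: statements, part 1 (family, Bezout, glue). -/

set_option backward.isDefEq.respectTransparency false

open CategoryTheory Limits Abelian Opposite AlgebraicGeometry TensorProduct MvPolynomial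

namespace Pool.Agent.MP_855f4c_ag.Cu

open T E E3 E4 LP

attribute [local instance] MvPolynomial.gradedAlgebra

/-! ### The family -/

def BERTC_s : Prop := ∀ (F κ κ₀ R : Type) [Field F] [Fintype κ] [DecidableEq κ] [CommRing R]
  (c : ℕ) (e : Fin c → κ → ℕ) (cf : MI e → R) (A : Amb κ₀ cf) (a : R →+* F) (c₀ : ℕ)
  (e₀ : Fin c₀ → κ → ℕ) (E : Subfield F) (y : MI e₀ → F),
    (∀ b j j', A.pr j = A.pr j' → e₀ b j ≠ 0 → e₀ b j' ≠ 0) → (∀ r, a r ∈ E) →
    AlgebraicIndependent E y → ∀ x : XV κ → F, Nz x → Ze cf a x → (∀ b, gen y b x = 0) →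
    ∀ (σ : Fin A.ns) (lam : Fin c → F) (mu : Fin c₀ → F),
      (∀ v, ∑ j ∈ A.S σ, lam j * eval₂ a x (pderiv v (gp cf j)) +
        ∑ b, mu b * eval x (pderiv v (gp y b)) = 0) → mu = 0

def ZSMC_s : Prop := ∀ (κ : Type) [Fintype κ] [DecidableEq κ] (c : ℕ) (e : Fin c → κ → ℕ)
  (R : Type) [CommRing R] (cf : MI e → R) (A : Loc cf) (X : Scheme.{0}) (f : X ⟶ Spec (.of R))
  (z : κ → (X ⟶ P1)), ZL f z cf → (∀ (k : Type) [Field k] (ψ : R →+* k), A.Sm ψ) → Smooth f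

/-- The Jacobian criterion spreads out. -/
def SPR_s : Prop := ∀ (F κ : Type) [Field F] [IsAlgClosed F] [Fintype κ] [DecidableEq κ] (c : ℕ)
  (e : Fin c → κ → ℕ) (R : Type) [CommRing R] (cf : MI e → R) (A : Loc cf) (a : R →+* F), A.Sm a →
    ∃ Δ : R, a Δ ≠ 0 ∧ ∀ (k : Type) [Field k] (ψ : R →+* k), ψ Δ ≠ 0 → A.Sm ψ

/-- The system `cf` is the union of two systems. -/
def Jn {κ R : Type} [Fintype κ] [DecidableEq κ] [CommRing R] {c c₁ c₀ : ℕ} {e : Fin c → κ → ℕ}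
    {e₁ : Fin c₁ → κ → ℕ} {e₀ : Fin c₀ → κ → ℕ} (cf : MI e → R) (cf₁ : MI e₁ → R)
    (cf₀ : MI e₀ → R) : Prop :=
  ∃ j : Fin c₁ ⊕ Fin c₀ ≃ Fin c, (∀ i, e (j (.inl i)) = e₁ i ∧ gp cf (j (.inl i)) = gp cf₁ i) ∧
    ∀ i, e (j (.inr i)) = e₀ i ∧ gp cf (j (.inr i)) = gp cf₀ i

def FAMC_s : Prop := ∀ (F κ κ₀ R : Type) [Field F] [IsAlgClosed F] [Fintype κ] [DecidableEq κ]
  [CommRing R] [Algebra.Smooth ℤ R] (c : ℕ) (e : Fin c → κ → ℕ) (cf : MI e → R) (A : Amb κ₀ cf)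
  (a : R →+* F) (c₀ : ℕ) (e₀ : Fin c₀ → κ → ℕ) (E : Subfield F) (y : MI e₀ → F), A.toLoc.Sm a →
    (∀ b j j', A.pr j = A.pr j' → e₀ b j ≠ 0 → e₀ b j' ≠ 0) → (∀ r, a r ∈ E) →
    AlgebraicIndependent E y →
    ∃ (R' : Type) (_ : CommRing R') (φ : R →+* R') (a' : R' →+* F) (cf₀ : MI e₀ → R') (c' : ℕ)
      (e' : Fin c' → κ → ℕ) (cf' : MI e' → R') (X : Scheme.{0}) (f : X ⟶ Spec (.of R'))
      (z : κ → (X ⟶ P1)), Algebra.Smooth ℤ R' ∧ a'.comp φ = a ∧ a' ∘ cf₀ = y ∧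
        Jn cf' (φ ∘ cf) cf₀ ∧ Smooth f ∧ IsProper f ∧ ZL f z cf'

/-! ### Bezout -/

/-- Weights on the lines `κ₀` as weights on all lines, multiplied by `N`. -/
noncomputable def push {κ₀ κ : Type} [Fintype κ₀] [DecidableEq κ] (inc : κ₀ → κ) (N : ℤ) :
    (κ₀ → ℤ) →+ (κ → ℤ) where
  toFun n := ∑ b, (N * n b) • Pi.single (inc b) 1
  map_zero' := by simp
  map_add' n m := by simp [mul_add, add_smul, Finset.sum_add_distrib]

def BEZC_s : Prop := ∀ (l : ℕ) [Fact l.Prime] (Ω : Type) [Field Ω] [IsAlgClosed Ω] [CharZero Ω]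
  (κ κ₀ R : Type) [Fintype κ] [DecidableEq κ] [Fintype κ₀]
  [DecidableEq κ₀] [CommRing R] (c : ℕ) (e : Fin c → κ → ℕ) (cf : MI e → R) (A : Amb κ₀ cf)
  (ψ : R →+* Ω) (c₀ : ℕ) (e₀ : Fin c₀ → κ → ℕ) (cf₀ : MI e₀ → Ω) (c' : ℕ) (e' : Fin c' → κ → ℕ)
  (cf' : MI e' → Ω) (Z : Scheme.{0}) (f : Z ⟶ Spec (.of Ω)) (z : κ → (Z ⟶ P1)),
    Jn cf' (ψ ∘ cf) cf₀ → ZL f z cf' → ∀ (M M' : ℤ) (e₁ : Fin c₀ → κ₀ → ℕ), M ≠ 0 → M' ≠ 0 →
    (∀ a b, (∑ j, if A.pr j = b then ((A.ω j * e₀ a j : ℕ) : ℤ) else 0) = M' * e₁ a b) →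
    Bez l f z (push A.inc M) (∏ a, lin fun b => (e₁ a b : ℤ))

end Pool.Agent.MP_855f4c_ag.Cu

end

section

/-! h92c: the final statement and the approximation statement. -/

set_option backward.isDefEq.respectTransparency false

open CategoryTheory Limits AlgebraicGeometry MvPolynomial

namespace Pool.Agent.MP_855f4c_ag.Cu

open T

attribute [local instance] MvPolynomial.gradedAlgebra

section
variable {κ₀ : Type} [Fintype κ₀] [DecidableEq κ₀] (r : κ₀ → ℕ)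

/-- Coordinates and covectors of the lines, and the other coordinates of the curves. -/
abbrev CW : Type := XY κ₀ ⊕ Σ b, Fin (r b)

/-- Their weights. -/
def cw : CW r → κ₀ → ℤ := Sum.elim wt fun v => Pi.single v.1 1

/-- The coordinates of the curves. -/
def cv (v : Σ b, CV (r b)) : CW r :=
  Sum.elim (fun i => .inl (.inl (v.1, i))) (fun i => .inr ⟨v.1, i⟩) v.2

variable {r}

/-- The relations of the covectors, the equations of the curves and the forms `f`. -/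
noncomputable def cG {K : Type} [Field K] {u : κ₀ → ℕ} {c : ℕ}
    (J : ∀ b, Fin (u b) → MvPolynomial (CV (r b)) K)
    (f : Fin c → MvPolynomial (Σ b, CV (r b)) K) :
    κ₀ ⊕ (Σ b, Fin (u b)) ⊕ Fin c → MvPolynomial (CW r) K :=
  Sum.elim (fun b => rename .inl (Np.rl K b)) (Sum.elim
    (fun j => rename (fun v => cv r ⟨j.1, v⟩) (J j.1 j.2)) fun a => rename (cv r) (f a))

end

/-- Zero loci in products of curves are approximated (every block is a curve). -/
def APXC_s : Prop := ∀ (p l : ℕ) [Fact p.Prime] [Fact l.Prime], l ≠ p →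
  ∀ (κ₀ : Type) [Fintype κ₀] [DecidableEq κ₀] (r u : κ₀ → ℕ)
    (J : ∀ b, Fin (u b) → MvPolynomial (CV (r b)) (PadicAlgCl p)) (dJ : ∀ b, Fin (u b) → ℕ) (c : ℕ)
    (f : Fin c → MvPolynomial (Σ b, CV (r b)) (PadicAlgCl p)) (e : Fin c → κ₀ → ℕ),
    (∀ b, CD (J b) (dJ b)) →
    (∀ a, (f a).IsWeightedHomogeneous (fun v => (Pi.single v.1 1 : κ₀ → ℕ)) (e a)) →
    (∀ a, In1 (f a)) →
    CApx p l (RingHom.id _) (cw r) (cG J f) (∏ a, lin fun b => (e a b : ℤ))

open Et in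
/-- The final statement. -/
def FINALC_s : Prop := ∀ (K : Type) [Field K] (Y : Scheme.{0}) (f : Y ⟶ Spec (.of K)) (d N : ℕ)
    [SmoothOfRelativeDimension d f] [GeometricallyIrreducible f]
    (ι : Y ⟶ Proj (homogeneousSubmodule (Fin (N + 1)) K)) [IsClosedImmersion ι]
    (_ : ι ≫ Proj.toSpecZero _ ≫ Spec.map (CommRingCat.ofHom (algebraMap K _)) = f)
    (s g c : ℕ) (k n : Fin s → ℕ) (r t : Fin g → ℕ)
    (J : ∀ b, Fin (t b) → MvPolynomial (Fin (r b + 2)) K) (δ : ∀ b, Fin (t b) → ℕ)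
    (_ : ∀ b j, (J b j).IsHomogeneous (δ b j))
    (F : Fin c → MvPolynomial ((Σ a : Σ b, Fin (k b), Fin (n a.1 + 1)) ⊕ Σ b, Fin (r b + 2)) K)
    (e : Fin c → (Σ b, Fin (k b)) ⊕ Fin g → ℕ)
    (_ : ∀ j, (F j).IsWeightedHomogeneous
      (fun x => Pi.single (x.map Sigma.fst Sigma.fst) 1) (e j))
    (q : Fin (N + 1) →
      MvPolynomial ((Σ a : Σ b, Fin (k b), Fin (n a.1 + 1)) ⊕ Σ b, Fin (r b + 2)) K)
    (m : (Σ b, Fin (k b)) ⊕ Fin g → ℕ)
    (_ : ∀ j, (q j).IsWeightedHomogeneous (fun x => Pi.single (x.map Sigma.fst Sigma.fst) 1) m)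
    (_ : coeff (Finsupp.equivFunOnFinite.symm
        (Sum.elim (fun a : Σ b, Fin (k b) => n a.1) fun _ : Fin g => 1))
      ((∏ b, ∏ i : Fin (k b), ∏ j ∈ Finset.Ioi i, (X (.inl ⟨b, j⟩) - X (.inl ⟨b, i⟩))) ^ 2 *
        (∑ a, m a • X a) ^ d * ∏ j, ∑ a, e j a • X a : MvPolynomial _ ℤ) ≠ 0)
    (O Ω : Type) [CommRing O] [IsDomain O] [IsDiscreteValuationRing O]
    [Finite (IsLocalRing.ResidueField O)] [Field Ω] [CharZero Ω] [IsAlgClosed Ω] [Algebra O Ω]
    [FaithfulSMul O Ω] [Algebra.IsAlgebraic O Ω] [Algebra K Ω]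
    (_ : ∀ b (w : Fin (r b + 2) → Ω), (∀ j, aeval w (J b j) = 0) → w 0 = 0 → w 1 = 0 → w = 0)
    (_ : ∀ b, Set.Infinite
      {x | ∃ w : Fin (r b + 2) → Ω, (∀ j, aeval w (J b j) = 0) ∧ w 0 = 1 ∧ w 1 = x})
    (_ : ∀ (v : (Σ a : Σ b, Fin (k b), Fin (n a.1 + 1)) → Ω) (w : ∀ b, Fin (r b + 2) → Ω),
      (∀ b, LinearIndependent Ω fun (i : Fin (k b)) (x : Fin (n b + 1)) => v ⟨⟨b, i⟩, x⟩) →
      (∀ b, w b ≠ 0) → (∀ b j, aeval (w b) (J b j) = 0) →
      (∀ j, aeval (Sum.elim v fun x => w x.1 x.2) (F j) = 0) →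
      (∃ j, aeval (Sum.elim v fun x => w x.1 x.2) (q j) ≠ 0) ∧
        ∀ (G : MvPolynomial (Fin (N + 1)) K) (r : ℕ), G.IsHomogeneous r →
          (∀ y : Y, G ∈ (ι y).asHomogeneousIdeal) →
          aeval (fun j => aeval (Sum.elim v fun x => w x.1 x.2) (q j)) G = 0)
    (l : ℕ) [Fact l.Prime] (_ : IsUnit (l : O)) (i : ℕ) (φ u : Ω ≃ₐ[K] Ω) (Q : ℕ) (_ : 1 < Q)
    (_ : Frob O Q φ) (_ : Frob O 1 u)
    (_ : ∃ (n : ℕ) (r : Ω) (o : O), r ^ l ^ n = algebraMap O Ω o ∧ u r ≠ r),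
    Mw Q i (gal f l i φ) (gal f l i u)

end Pool.Agent.MP_855f4c_ag.Cu

end

section

/-! h92c: statement of the valuative estimate. -/

open MvPolynomial Filter

namespace Pool.Agent.MP_855f4c_ag.Cu

open T

/-- The zero loci at finite level lie in the tube. -/
def VAL_s : Prop := ∀ (p : ℕ) [Fact p.Prime] (F F' : Type) [NormedField F] [NormedField F']
  [IsUltrametricDist F] [IsAlgClosed F] [CharP F p] (T : Tl p F F') (κ₀ : Type) [Fintype κ₀]
  [DecidableEq κ₀] (r u : κ₀ → ℕ) (J : ∀ b, Fin (u b) → MvPolynomial (CV (r b)) (PadicAlgCl p))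
  (dJ : ∀ b, Fin (u b) → ℕ) (c₀ : ℕ) (f : Fin c₀ → MvPolynomial (Σ b, CV (r b)) (PadicAlgCl p))
  (e₁ : Fin c₀ → κ₀ → ℕ), (∀ b, CD (J b) (dJ b)) →
    (∀ t, (f t).IsWeightedHomogeneous (fun v => (Pi.single v.1 1 : κ₀ → ℕ)) (e₁ t)) →
    (∀ t, In1 (f t)) →
    ∀ (n s : ℕ) (𝒦 : κ₀ → Type) [∀ b, Field (𝒦 b)] [∀ b, Algebra F (𝒦 b)] (x : ∀ b, 𝒦 b)
      (s₁ : κ₀ → ℕ) (ζ : ∀ b, Fin (r b) → 𝒦 b),
    (∀ b i, Bd F (x b) (p ^ s₁ b) (ζ b i / algebraMap F (𝒦 b) (T.β p ^ p ^ (s + s₁ b)))) →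
    (∀ b j, Bd F (x b) (p ^ s₁ b * p ^ (n + 1) * dJ b j)
      (aeval (Sum.elim ![1, x b ^ p ^ s₁ b] (ζ b))
        (fl p (fun c => T.β c ^ p ^ (s + s₁ b)) (T.β p ^ p ^ (s + s₁ b)) (n + 1) (J b j)) /
        algebraMap F (𝒦 b) (T.β p ^ (p ^ (s + s₁ b) * (n + 1) * p ^ (n + 1))))) →
    ∀ (κ : κ₀ → Type) [∀ b, Fintype (κ b)] [∀ b, DecidableEq (κ b)] (c : κ₀ → ℕ)
      (e : ∀ b, Fin (c b) → κ b → ℕ) (R : κ₀ → Type) [∀ b, CommRing (R b)]
      (cf : ∀ b, MI (e b) → R b) (a : ∀ b, R b →+* F) (k₀ : ∀ b, κ b) (ω : ∀ b, κ b → ℕ),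
    (∀ b, Rep (cf b) (a b) (k₀ b) (ω b) (x b)) →
    ∃ (e₀ : Fin c₀ → (Σ b, κ b) → ℕ) (y₀ : MI e₀ → F) (ρ : ℝ) (M' : ℤ), 0 < ρ ∧ M' ≠ 0 ∧
      (∀ t (j j' : Σ b, κ b), j.1 = j'.1 → e₀ t j ≠ 0 → e₀ t j' ≠ 0) ∧
      (∀ t b, (∑ j : Σ b, κ b, if j.1 = b then ((ω j.1 j.2 * e₀ t j : ℕ) : ℤ) else 0) =
        M' * e₁ t b) ∧
      ∀ y : MI e₀ → F, (∀ i, ‖y i - y₀ i‖ ≤ ρ) →
      ∀ (c' : ℕ) (e' : Fin c' → (Σ b, κ b) → ℕ) (cf' : MI e' → T.B),
        (∀ z : XV (Σ b, κ b) → F, Ze cf' T.π z →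
          (∀ b, Ze (cf b) (a b) fun v => z (⟨b, v.1⟩, v.2)) ∧ ∀ t, gen y t z = 0) →
        ∀ᶠ M in T.U, ∃ (N : ℤ) (θ : CW r → MvPolynomial (XY (Σ b, κ b)) (PadicAlgCl p)), N ≠ 0 ∧
          (∀ v, Hg (push (fun b => ⟨b, k₀ b⟩) N (cw r v)) (θ v)) ∧
          ∀ w : PadicAlgCl p, w ≠ 0 →
            Val p (RingHom.id _) (cG J f) (fun i => w * T.lv M (cf' i)) θ 0 n

end Pool.Agent.MP_855f4c_ag.Cu

end

section

/-! h92c row PROD: products of finitely many models. -/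

open MvPolynomial

namespace Pool.Agent.MP_855f4c_ag.Cu

open T

namespace Prd

lemma ring {F κ₀ : Type} [Field F] (R : κ₀ → Type) [∀ b, CommRing (R b)] (a : ∀ b, R b →+* F)
    (h : ∀ b, Algebra.Smooth ℤ (R b)) (s : Finset κ₀) :
    ∃ (R' : Type) (_ : CommRing R') (a' : R' →+* F), Algebra.Smooth ℤ R' ∧
      ∀ b ∈ s, ∃ ι : R b →+* R', a'.comp ι = a b := by
  classical
  induction s using Finset.induction_on with
  | empty => exact ⟨ℤ, _, Int.castRingHom F, inferInstance, by simp⟩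
  | insert b s _ ih =>
    obtain ⟨R', _, a', h1, h2⟩ := ih
    have := h b
    have : Algebra.Smooth ℤ (TensorProduct ℤ R' (R b)) := .comp ℤ R' _
    let m := Algebra.TensorProduct.productMap a'.toIntAlgHom (a b).toIntAlgHom
    refine ⟨TensorProduct ℤ R' (R b), _, m.toRingHom, this, fun b' hb' => ?_⟩
    rcases Finset.mem_insert.1 hb' with rfl | hb'
    · exact ⟨(Algebra.TensorProduct.includeRight (R := ℤ) (A := R')).toRingHom,
        RingHom.ext fun r => Algebra.TensorProduct.productMap_right_apply _ _ r⟩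
    · obtain ⟨ι, hι⟩ := h2 b' hb'
      exact ⟨(Algebra.TensorProduct.includeLeftRingHom (R := ℤ) (B := R b)).comp ι,
        RingHom.ext fun r => (Algebra.TensorProduct.productMap_left_apply _ _ (ι r)).trans
          (RingHom.congr_fun hι r)⟩

lemma hom_ren {σ σ' A A' M M' : Type} [CommRing A] [CommRing A'] [AddCommMonoid M]
    [AddCommMonoid M'] {w : σ → M} {w' : σ' → M'} (φ : M →+ M') (f : σ → σ') (ι : A →+* A')
    (h : ∀ v, w' (f v) = φ (w v)) {n : M} {P : MvPolynomial σ A}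
    (hP : P.IsWeightedHomogeneous w n) :
    (rename f (map ι P)).IsWeightedHomogeneous w' (φ n) := by
  induction hP using IsWeightedHomogeneous.induction_on with
  | zero => simpa using isWeightedHomogeneous_zero _ _ _
  | add _ _ _ _ h h' => simpa using h.add h'
  | monomial d r hr =>
    rw [map_monomial, rename_monomial]
    refine isWeightedHomogeneous_monomial _ _ _ ?_
    rw [← hr, Finsupp.weight_apply, Finsupp.weight_apply,
      Finsupp.sum_mapDomain_index (by simp) (by simp [add_smul]), map_finsuppSum]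
    simp only [h, map_nsmul]

section
variable {κ : Type} [Fintype κ] [DecidableEq κ] {c : ℕ} {e : Fin c → κ → ℕ} {R k : Type}
  [CommRing R] [CommRing k]

lemma gp_hx (cf : MI e → R) (a : Fin c) : Hx (e a) (gp cf a) := by
  refine IsWeightedHomogeneous.sum _ _ _ fun j _ => IsWeightedHomogeneous.C_mul ?_ _
  have := IsWeightedHomogeneous.prod (w := fun v : XV κ => (Pi.single v.1 1 : κ → ℕ)) Finset.univ
    (fun k => (X (k, 0) : MvPolynomial (XV κ) R) ^ (e a k - j k) * X (k, 1) ^ (j k : ℕ))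
    (fun k => Pi.single k (e a k)) fun k _ => by
      have h : e a k - j k + j k = e a k := Nat.sub_add_cancel (Nat.lt_succ_iff.1 (j k).2)
      have := ((isWeightedHomogeneous_X R (fun v : XV κ => (Pi.single v.1 1 : κ → ℕ))
        (k, 0)).pow (e a k - j k)).mul ((isWeightedHomogeneous_X R _ (k, 1)).pow (j k))
      rwa [← add_smul, h, ← Pi.single_smul', smul_eq_mul, mul_one] at this
  rwa [Finset.univ_sum_single] at this

lemma ev_gp (cf : MI e → R) (a : Fin c) (ψ : R →+* k) (x : XV κ → k) :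
    eval₂ ψ x (gp cf a) = gen (ψ ∘ cf) a x := by
  rw [gp, ← coe_eval₂Hom, Bez.map_gen]
  congr 1 <;> funext v <;> simp

end

section
variable {κ₀ : Type} {κ : κ₀ → Type}

/-- Extension by zero. -/
noncomputable def xt (M : Type) [AddCommMonoid M] (b : κ₀) : (κ b → M) →+ ((Σ b, κ b) → M) where
  toFun n := Function.extend (Sigma.mk b) n fun _ => 0
  map_zero' := funext fun j => by
    classical
    rw [Function.extend_def]
    split_ifs <;> rfl
  map_add' n n' := funext fun j => by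
    classical
    simp only [Function.extend_def, Pi.add_apply]
    split_ifs <;> simp

variable {M : Type} [AddCommMonoid M]

lemma xt_mk (b : κ₀) (n : κ b → M) (j : κ b) : xt M b n ⟨b, j⟩ = n j :=
  Function.Injective.extend_apply (sigma_mk_injective (β := κ) (i := b)) n (fun _ => (0 : M)) j

lemma xt_ne {b : κ₀} (n : κ b → M) {j : Σ b, κ b} (h : j.1 ≠ b) : xt M b n j = 0 :=
  Function.extend_apply' n (fun _ => (0 : M)) j fun ⟨_, e⟩ => h (e ▸ rfl)

lemma xt_single [DecidableEq κ₀] [∀ b, DecidableEq (κ b)] (b : κ₀) (j : κ b) (m : M) :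
    xt M b (Pi.single j m) = Pi.single ⟨b, j⟩ m := funext fun ⟨b', j'⟩ => by
  by_cases h : b' = b
  · subst h
    rw [xt_mk]
    simp [Pi.single_apply]
  · rw [xt_ne _ h, Pi.single_eq_of_ne fun e => h (congrArg Sigma.fst e)]

/-- The coordinates of a block. -/
def em (b : κ₀) (v : XV (κ b)) : XV (Σ b, κ b) := (⟨b, v.1⟩, v.2)

lemma em_inj (b : κ₀) : Function.Injective (em (κ := κ) b) := fun _ _ h =>
  Prod.ext (sigma_mk_injective (Prod.ext_iff.1 h).1) (Prod.ext_iff.1 h).2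

lemma nz_em {k : Type} [Zero k] {x : XV (Σ b, κ b) → k} (h : ∀ j, ∃ i, x (j, i) ≠ 0) (b : κ₀)
    (j : κ b) : ∃ i, (x ∘ em b) (j, i) ≠ 0 := h ⟨b, j⟩

lemma em_ne {b : κ₀} {v : XV (Σ b, κ b)} (h : v ∉ Set.range (em b)) : v.1.1 ≠ b := by
  obtain ⟨⟨b', j⟩, i⟩ := v
  rintro rfl
  exact h ⟨(j, i), rfl⟩

variable {A A' k : Type} [CommRing A] [CommRing A'] [CommRing k]

lemma ev_ren {σ σ' : Type} (f : σ → σ') (ι : A →+* A') (ψ : A' →+* k) (x : σ' → k)
    (P : MvPolynomial σ A) : eval₂ ψ x (rename f (map ι P)) = eval₂ (ψ.comp ι) (x ∘ f) P := by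
  rw [eval₂_rename, eval₂_map]

lemma pd_em (b : κ₀) (ι : A →+* A') (ψ : A' →+* k) (x : XV (Σ b, κ b) → k)
    (P : MvPolynomial (XV (κ b)) A) (v : XV (κ b)) :
    eval₂ ψ x (pderiv (em b v) (rename (em b) (map ι P))) =
      eval₂ (ψ.comp ι) (x ∘ em b) (pderiv v P) := by
  rw [pderiv_rename (em_inj b), pderiv_map, ev_ren]

lemma pd_ne {b : κ₀} (P : MvPolynomial (XV (κ b)) A') {v : XV (Σ b, κ b)} (h : v.1.1 ≠ b) :
    pderiv v (rename (em b) P) = 0 := by
  classical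
  refine pderiv_eq_zero_of_notMem_vars fun hv => ?_
  obtain ⟨u, -, rfl⟩ := mem_vars_rename _ _ hv
  exact h rfl

end

end Prd

open Prd in
theorem prod : PROD_s := by
  intro F κ₀ _ _ _ κ _ _ c e R _ cf a A hR hA
  obtain ⟨R', _, a', h1, h2⟩ := ring R a hR Finset.univ
  choose ι hι using fun b => h2 b (Finset.mem_univ b)
  let I := Σ b, Fin (c b)
  let E := Fintype.equivFin I
  let N := Fintype.equivFin (∀ b, Fin (A b).ns)
  let e₁ : I → (Σ b, κ b) → ℕ := fun s => xt ℕ s.1 (e s.1 s.2)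
  let ρ : ∀ b, MvPolynomial (XV (κ b)) (R b) →+* MvPolynomial (XV (Σ b, κ b)) R' := fun b =>
    (rename (em b)).toRingHom.comp (map (ι b))
  have hρ (b P) : ρ b P = rename (em b) (map (ι b) P) := rfl
  have hx {b n P} (h : Hx n P) : Hx (xt ℕ b n) (ρ b P) :=
    hom_ren (xt ℕ b) (em b) (ι b) (fun v => (xt_single b v.1 1).symm) h
  have g0 (s : I) := Lr.genf (e := e₁ s) (f := ρ s.1 (gp (cf s.1) s.2)) (by
    have := hom_ren (w' := fun v => (Pi.single v.1 1 : _ → ℤ))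
      ((Nat.castAddMonoidHom ℤ).compLeft _) id (.id _)
      (fun v => funext fun j => by simp [Pi.single_apply]) (hx (gp_hx (cf s.1) s.2))
    rwa [map_id, rename_id_apply] at this)
  choose c₁ hc₁ using g0
  let cf' : MI (fun i => e₁ (E.symm i)) → R' := fun i => c₁ (E.symm i.1) i.2
  have hg (i) : gp cf' i = ρ (E.symm i).1 (gp (cf _) (E.symm i).2) :=
    (hc₁ _ _ C X).symm.trans (eval₂_eta _)
  have hg' (s : I) : gp cf' (E s) = ρ s.1 (gp (cf _) s.2) := by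
    rw [hg]
    exact congrArg (fun s : I => ρ s.1 (gp (cf _) s.2)) (E.symm_apply_apply s)
  have hz (k : Type) [CommRing k] (ψ : R' →+* k) (x) (s : I) :
      gen (ψ ∘ cf') (E s) x = gen (ψ.comp (ι s.1) ∘ cf s.1) s.2 (x ∘ em s.1) := by
    rw [← ev_gp, hg', hρ, ev_ren, ev_gp]
  have ze {k : Type} [CommRing k] {ψ : R' →+* k} {x} :
      Ze cf' ψ x ↔ ∀ b, Ze (cf b) (ψ.comp (ι b)) (x ∘ em b) :=
    ⟨fun h b j => (hz k ψ x ⟨b, j⟩).symm.trans (h _), fun h i => by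
      obtain ⟨s, rfl⟩ := E.surjective i
      exact (hz k ψ x s).trans (h _ _)⟩
  let S : Fin _ → Finset (Fin (Fintype.card I)) := fun τ =>
    (Finset.univ.sigma fun b => (A b).S (N.symm τ b)).map E.toEmbedding
  have hS {τ} {s : I} : E s ∈ S τ ↔ s.2 ∈ (A s.1).S (N.symm τ s.1) :=
    (Finset.mem_map' E.toEmbedding).trans (Finset.mem_sigma.trans (and_iff_right (Finset.mem_univ _)))
  let L : Loc cf' :=
    { ns := _
      S := S
      h := fun τ => ∏ b, ρ b ((A b).h (N.symm τ b))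
      dh := fun τ => ∑ b, xt ℕ b ((A b).dh (N.symm τ b))
      hom := fun τ => IsWeightedHomogeneous.prod _ _ _ fun b _ => hx ((A b).hom _)
      idn := fun τ i => by
        obtain ⟨⟨b, j⟩, rfl⟩ := E.surjective i
        rw [hg', ← Finset.prod_erase_mul _ _ (Finset.mem_univ b), mul_assoc, ← map_mul]
        refine Ideal.mul_mem_left _ _ ?_
        have := Ideal.mem_map_of_mem (ρ b) ((A b).idn (N.symm τ b) j)
        rw [Ideal.map_span] at this
        refine Ideal.span_mono ?_ this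
        rintro _ ⟨_, ⟨j', hj', rfl⟩, rfl⟩
        exact ⟨E ⟨b, j'⟩, hS.2 hj', hg' _⟩ }
  have he (s : I) : e₁ (E.symm (E s)) = e₁ s := congrArg e₁ (E.symm_apply_apply s)
  refine ⟨_, _, R', _, cf', a',
    { toLoc := L
      pr := fun j => j.1
      inc := fun b => ⟨b, (A b).inc ()⟩
      uu := fun b => ⟨b, (A b).uu ()⟩
      j₀ := fun b => E ⟨b, (A b).j₀ ()⟩
      ω := fun j => (A j.1).ω j.2
      Δ := fun b => ((A b).Δ ()).map (ι b)
      pr_inc := fun _ => rfl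
      pr_uu := fun _ => rfl
      uu_ne := fun b h => (A b).uu_ne () (sigma_mk_injective h)
      ω_inc := fun b => (A b).ω_inc ()
      mon := fun b => ((A b).mon ()).map _
      tan := fun τ b k _ ψ x K x1 x2 x3 x4 => ?_
      unit := fun k _ _ ψ j => ?_
      alg := fun k _ ψ x K j x1 x2 x3 x4 => (A j.1).alg k (ψ.comp (ι _)) (x ∘ em _) K j.2
        (fun _ => x1 _) (ze.1 x2 _) (fun _ => x3 _) x4
      fin := fun k _ ψ y => ?_
      supp := fun b j h => ?_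
      pos := fun b => ?_
      onto := fun k _ _ ψ x x1 x2 => ?_
      uniq := fun k _ ψ x x' x1 x2 x3 x4 x5 x6 => funext fun v => congrFun
        ((A v.1.1).uniq k (ψ.comp (ι _)) (x ∘ em _) (x' ∘ em _) (fun _ => x1 _) (fun _ => x2 _)
          (ze.1 x3 _) (ze.1 x4 _) (fun _ => x5 _) fun _ => ⟨(x6 _).1, by
            rw [← Polynomial.eval₂_map]; exact (x6 _).2⟩) (v.1.2, v.2) },
    h1, fun x x1 x2 => ?_, fun _ => rfl, fun _ => rfl, fun _ => rfl,
    fun x h b => hι b ▸ ze.1 h b⟩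
  · obtain ⟨w, w1, -, ⟨j, w3⟩, w4⟩ := (A b).tan (N.symm τ b) () k (ψ.comp (ι b)) (x ∘ em b) K
      (nz_em x1 b) (ze.1 x2 b) (fun _ => x3 _) fun v _ => x4 (em b v) rfl
    let w' : XV (Σ b, κ b) → k := fun v => xt k b (fun j => w (j, v.2)) v.1
    have e1 (v) : w' (em b v) = w v := xt_mk _ _ _
    have e2 (v : XV (Σ b, κ b)) (h : v.1.1 ≠ b) : w' v = 0 := xt_ne _ h
    refine ⟨w', fun v => ?_, e2, ⟨⟨b, j⟩, ?_⟩, fun i hi => ?_⟩
    · by_cases h : v ∈ Set.range (em b)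
      · obtain ⟨v, rfl⟩ := h
        exact e1 v ▸ w1 v
      · exact e2 v (em_ne h) ▸ K.zero_mem
    · rwa [← e1, ← e1 (j, 1)] at w3
    · obtain ⟨⟨b', i⟩, rfl⟩ := E.surjective i
      rw [hg', hρ]
      by_cases h : b' = b
      · subst h
        rw [← w4 i (hS.1 hi)]
        exact (Fintype.sum_of_injective (em b') (em_inj b') _ _
          (fun v hv => by rw [e2 v (em_ne hv), zero_mul]) fun v => by rw [e1, pd_em]).symm
      · refine Finset.sum_eq_zero fun v _ => ?_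
        by_cases h' : v.1.1 = b'
        · rw [e2 v (h' ▸ h), zero_mul]
        · rw [pd_ne _ h', eval₂_zero, mul_zero]
  · obtain ⟨s, s1, s2⟩ := (A j.1).unit k (ψ.comp (ι _)) j.2
    refine ⟨rename (Sum.map (em j.1) (em j.1)) (map (.id k) s), ?_, fun y y1 y2 => ?_⟩
    · have := hom_ren (w' := wt) (xt ℤ j.1) (Sum.map (em j.1) (em j.1)) (.id k)
        (by rintro (v | v) <;> exact (xt_single _ _ _).symm) s1
      rwa [map_sub, map_zsmul, xt_single, xt_single] at this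
    · rw [map_id, eval_rename]
      exact s2 _ (fun _ => y1 _) (ze.1 y2 _)
  · refine ((Set.Finite.pi' fun b => (A b).fin k (ψ.comp (ι b)) fun v => y (b, v.2)).preimage
      (f := fun (x : XV (Σ b, κ b) → k) b => x ∘ em b) fun x _ x' _ h => funext fun v =>
        congrFun (congrFun h v.1.1) (v.1.2, v.2)).subset ?_
    exact fun x hx b => ⟨fun _ => hx.1 _, ze.1 hx.2.1 b, fun _ => hx.2.2 b⟩
  · obtain ⟨b', j⟩ := j
    rw [he] at h
    obtain rfl : b' = b := by_contra fun h' => h (xt_ne _ h')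
    exact ((A b').supp () j fun h' => h ((xt_mk _ _ _).trans h')).imp (congrArg _) (congrArg _)
  · rw [he]
    exact ((A b).pos ()).trans_eq (xt_mk _ _ _).symm
  · choose x' y1 y2 y3 using fun b => (A b).onto k (ψ.comp (ι b)) (x ∘ em b) (nz_em x1 b)
      fun _ => (hz k ψ x ⟨b, _⟩).symm.trans (x2 b)
    exact ⟨fun v => x' v.1.1 (v.1.2, v.2), fun j => y1 j.1 j.2, ze.2 y2, fun b => y3 b ()⟩
  · choose τ t1 t2 using fun b => hA b (x ∘ em b) (nz_em x1 b) (hι b ▸ ze.1 x2 b)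
    refine ⟨N τ, ?_, fun lam hl i hi => ?_⟩
    · change eval₂Hom a' x (∏ b, _) ≠ 0
      rw [map_prod]
      refine Finset.prod_ne_zero_iff.2 fun b _ => ?_
      rw [N.symm_apply_apply, coe_eval₂Hom, hρ, ev_ren, hι]
      exact t1 b
    · obtain ⟨⟨b, i⟩, rfl⟩ := E.surjective i
      have hi' := hS.1 hi
      rw [N.symm_apply_apply] at hi'
      refine t2 b (fun j => lam (E ⟨b, j⟩)) (fun v => ?_) i hi'
      have := hl (em b v)
      change ∑ i ∈ S _, _ = _ at this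
      rw [Finset.sum_map, Finset.sum_sigma, Finset.sum_eq_single b (fun b' _ h =>
        Finset.sum_eq_zero fun j _ => by
          rw [Equiv.coe_toEmbedding, hg', hρ, pd_ne _ (Ne.symm h), eval₂_zero, mul_zero])
        (by simp), N.symm_apply_apply] at this
      simpa only [Equiv.coe_toEmbedding, hg', hρ, pd_em, hι] using this

end Pool.Agent.MP_855f4c_ag.Cu

end

section

/-! h92c row VAL: the valuative estimate. -/

open MvPolynomial Filter

namespace Pool.Agent.MP_855f4c_ag.Cu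

open T FL

namespace Va

section ring
variable (p : ℕ) [Fact p.Prime] {σ Ω A A' : Type} [CommRing Ω] [CommRing A] [CommRing A']

/-- The value of the approximating polynomial. -/
noncomputable def AS (t : A) (N : ℕ) (γ : Ω → A) (P : MvPolynomial σ Ω) (x : σ → A) : A :=
  asum p t N P.support fun m => γ (coeff m P) * m.prod fun i k => x i ^ k

theorem map_AS (φ : A →+* A') (t : A) (N : ℕ) (γ : Ω → A) (P : MvPolynomial σ Ω) (x : σ → A) :
    φ (AS p t N γ P x) = AS p (φ t) N (fun c => φ (γ c)) P fun i => φ (x i) := by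
  rw [AS, AS, map_asum]
  exact asum_congr p _ _ fun m _ => by simp [Finsupp.prod]

theorem AS_scale {β : Type} [Fintype β] [DecidableEq β] (bl : σ → β) (t : A) (N : ℕ) (γ : Ω → A)
    {P : MvPolynomial σ Ω} {e : β → ℕ}
    (hP : P.IsWeightedHomogeneous (fun v => (Pi.single (bl v) 1 : β → ℕ)) e) (x : σ → A)
    (lam : β → A) :
    AS p t N γ P (fun v => x v * lam (bl v)) = (∏ b, lam b ^ e b) ^ p ^ N * AS p t N γ P x := by
  rw [AS, AS, ← asum_mul]
  refine asum_congr p _ _ fun m hm => ?_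
  rw [← hP (mem_support_iff.1 hm), mul_left_comm, Finsupp.weight_apply]
  simp only [Finsupp.prod, Finsupp.sum, mul_pow, Finset.prod_mul_distrib, Finset.sum_apply,
    ← Finset.prod_pow_eq_pow_sum]
  rw [mul_comm (∏ b, _), Finset.prod_comm]
  congr 2
  refine Finset.prod_congr rfl fun v _ => ?_
  rw [Finset.prod_eq_single (bl v) (fun b _ hb => by simp [Pi.single_eq_of_ne hb]) (by simp)]
  simp

theorem aeval_hom {τ M M' : Type} [AddCommMonoid M] [AddCommMonoid M'] {w : σ → M} (w' : τ → M')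
    (φ : M →+ M') (g : σ → MvPolynomial τ A)
    (hg : ∀ s, (g s).IsWeightedHomogeneous w' (φ (w s))) {P : MvPolynomial σ A} {n : M}
    (hP : P.IsWeightedHomogeneous w n) : (aeval g P).IsWeightedHomogeneous w' (φ n) := by
  induction hP using IsWeightedHomogeneous.induction_on with
  | zero => rw [map_zero]; exact isWeightedHomogeneous_zero _ _ _
  | add p q _ _ hp hq => rw [map_add]; exact hp.add hq
  | monomial d r hd =>
    rw [aeval_monomial, ← hd, Finsupp.weight_apply, Finsupp.sum, map_sum, Finsupp.prod]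
    refine IsWeightedHomogeneous.C_mul (IsWeightedHomogeneous.prod _ _ _ fun s _ => ?_) r
    rw [map_nsmul]
    exact (hg s).pow _

theorem AS_hom {τ M M' : Type} [AddCommMonoid M] [AddCommMonoid M'] {w : σ → M} (w' : τ → M')
    (φ : M →+ M') (g : σ → MvPolynomial τ A)
    (hg : ∀ s, (g s).IsWeightedHomogeneous w' (φ (w s))) {P : MvPolynomial σ Ω} {n : M}
    (hP : P.IsWeightedHomogeneous w n) (t : A) (N : ℕ) (γ : Ω → A) :
    (AS p (C t) N (fun c => C (γ c)) P g).IsWeightedHomogeneous w' (p ^ N • φ n) :=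
  asum_hom p w' t N _ _ _ fun m hm => by
    have := aeval_hom w' φ g hg
      (isWeightedHomogeneous_monomial w m (γ (coeff m P)) (hP (mem_support_iff.1 hm)))
    rwa [aeval_monomial] at this

/-- A lift with the same support. -/
noncomputable def lf (s : A → A') (P : MvPolynomial σ A) : MvPolynomial σ A' :=
  ∑ d ∈ P.support, monomial d (s (coeff d P))

theorem lf_hom {M : Type} [AddCommMonoid M] {w : σ → M} {n : M} (s : A → A') {P : MvPolynomial σ A}
    (h : P.IsWeightedHomogeneous w n) : (lf s P).IsWeightedHomogeneous w n :=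
  IsWeightedHomogeneous.sum _ _ _ fun _ hd =>
    isWeightedHomogeneous_monomial _ _ _ (h (mem_support_iff.1 hd))

theorem ev_lf {D : Type} [CommRing D] (s : A → A') (P : MvPolynomial σ A) (φ : A' →+* D)
    (x : σ → D) :
    eval₂Hom φ x (lf s P) = ∑ d ∈ P.support, φ (s (coeff d P)) * d.prod fun i k => x i ^ k := by
  rw [lf, map_sum]
  exact Finset.sum_congr rfl fun d _ => eval₂Hom_monomial _ _ _ _

theorem ev_lf' {s : A → A'} {π : A' →+* A} (h : ∀ c, π (s c) = c) (P : MvPolynomial σ A)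
    (x : σ → A) : eval₂Hom π x (lf s P) = eval x P := by
  rw [ev_lf, eval_eq]
  exact Finset.sum_congr rfl fun d _ => by rw [h]; rfl

end ring

theorem root_mem {L ι : Type} [Field L] (W : ValuationSubring L) (y : L) (m : ℕ) (s : Finset ι)
    (c : ι → L) (d : ι → ℕ) (hc : ∀ i ∈ s, c i ∈ W) (hd : ∀ i ∈ s, d i < m)
    (h : y ^ m + ∑ i ∈ s, c i * y ^ d i ∈ W) (hm : 0 < m) : y ∈ W := by
  by_contra hy
  have h1 : y⁻¹ ∈ W := (W.mem_or_inv_mem y).resolve_left hy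
  have h0 : y ≠ 0 := fun e => hy (e ▸ W.zero_mem)
  have key : ∀ k ≤ m - 1, y ^ k * y⁻¹ ^ (m - 1) ∈ W := fun k hk => by
    rw [← Nat.add_sub_cancel' hk, pow_add, ← mul_assoc, ← mul_pow, mul_inv_cancel₀ h0, one_pow,
      one_mul]
    exact pow_mem h1 _
  have h2 := sub_mem (mul_mem h (pow_mem h1 (m - 1)))
    (sum_mem (S := W) (t := s) (f := fun i => c i * (y ^ d i * y⁻¹ ^ (m - 1)))
      fun i hi => mul_mem (hc i hi) (key _ (by have := hd i hi; omega)))
  apply hy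
  rw [add_mul, Finset.sum_mul] at h2
  simp only [mul_assoc, add_sub_cancel_right] at h2
  obtain ⟨k, rfl⟩ : ∃ k, m = k + 1 := ⟨m - 1, by omega⟩
  rwa [Nat.add_sub_cancel, pow_succ', mul_assoc, ← mul_pow, mul_inv_cancel₀ h0, one_pow,
    mul_one] at h2

theorem mq_mem {L τ : Type} [Field L] (W : ValuationSubring L) (t u : L) (m : ℕ) (hm : 0 < m)
    (S : Finset (Option τ →₀ ℕ)) (c : (Option τ →₀ ℕ) → L) (g : τ → L) (ht : t ∈ W)
    (hg : ∀ i, g i ∈ W) (h0 : Finsupp.single none m ∈ S) (h1 : c (Finsupp.single none m) = 1)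
    (h2 : ∀ d ∈ S, d ≠ Finsupp.single none m → d none < m) (hc : ∀ d ∈ S, t * c d ∈ W)
    (hP : ∑ d ∈ S, c d * d.prod (fun o k => o.elim u g ^ k) ∈ W) : t * u ∈ W := by
  classical
  rw [← Finset.add_sum_erase _ _ h0, h1, one_mul,
    Finsupp.prod_single_index (h := fun o k => Option.elim o u g ^ k) (pow_zero _)] at hP
  refine root_mem W _ m (S.erase (Finsupp.single none m))
    (fun d => t * c d * t ^ (m - 1 - d none) * d.some.prod fun i j => g i ^ j) (fun d => d none)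
    (fun d hd => mul_mem (mul_mem (hc d (Finset.mem_of_mem_erase hd)) (pow_mem ht _))
      (prod_mem fun i _ => pow_mem (hg _) _))
    (fun d hd => h2 d (Finset.mem_of_mem_erase hd) (Finset.ne_of_mem_erase hd)) ?_ hm
  have h3 := mul_mem (pow_mem ht m) hP
  rw [mul_add, Finset.mul_sum, Finset.sum_congr rfl fun d hd => ?_] at h3
  · rw [mul_pow]
    exact h3
  · have := h2 d (Finset.mem_of_mem_erase hd) (Finset.ne_of_mem_erase hd)
    rw [Finsupp.prod_option_index _ _ (by simp) (fun _ _ _ => pow_add _ _ _), mul_pow]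
    conv_lhs => rw [show m = 1 + (m - 1 - d none) + d none by omega]
    simp only [Option.elim]
    ring

section tl
variable {p : ℕ} [hp : Fact p.Prime] {F F' : Type} [NormedField F] [NormedField F'] (T : Tl p F F')

theorem lv_rt (c : PadicAlgCl p) (M : ℕ) : T.lv M (T.rt c) ^ p ^ M = c := T.rt_pow c M

theorem norm_β (c : PadicAlgCl p) : ‖T.β c‖ = ‖c‖ := by
  refine tendsto_nhds_unique (T.lim (T.rt c)) ?_
  simp only [← norm_pow, T.rt_pow]
  exact tendsto_const_nhds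

theorem p_ne : (p : PadicAlgCl p) ≠ 0 := Nat.cast_ne_zero.2 hp.out.ne_zero

theorem p_lt : ‖(p : PadicAlgCl p)‖ < 1 := by
  rw [← map_natCast (algebraMap ℚ_[p] (PadicAlgCl p)), norm_algebraMap']
  exact Padic.norm_p_lt_one

theorem rt_mem {L : Type} [Field L] {W : ValuationSubring L} {ψ : PadicAlgCl p →+* L}
    (hψ : Vp W ψ) {c : PadicAlgCl p} (hc : ‖c‖ ≤ 1) (M : ℕ) : ψ (T.lv M (T.rt c)) ∈ W := by
  apply hψ
  rwa [← pow_le_one_iff_of_nonneg (norm_nonneg _) (pow_ne_zero M hp.out.ne_zero), ← norm_pow, lv_rt]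

theorem ex_inv : ∃ ti : T.B, ti * T.rt p = 1 := by
  have h : ∀ M, (T.rt p).1 M ≠ 0 := fun M e => p_ne (p := p) (by
    rw [← T.rt_pow p M, e, zero_pow (pow_ne_zero M hp.out.ne_zero)])
  refine ⟨⟨fun M => ((T.rt p).1 M)⁻¹, (T.mem _).2 ⟨‖(p : PadicAlgCl p)‖⁻¹, .of_forall fun M => ?_⟩⟩,
    Subtype.ext (funext fun M => inv_mul_cancel₀ (h M))⟩
  rw [norm_inv, inv_pow, ← norm_pow, T.rt_pow]

/-- Monic in the extra variable. -/
def Mq {τ A : Type} [CommRing A] (χ : MvPolynomial (Option τ) A) : Prop :=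
  ∃ m, 0 < m ∧ coeff (Finsupp.single none m) χ = 1 ∧
    ∀ d ∈ χ.support, d ≠ Finsupp.single none m → d none < m

theorem ev_sub {B σ τ D : Type} [CommRing B] [CommRing D] (φ : B →+* D) (x : σ → D) (g : τ → σ)
    (k : ℕ) (U : MvPolynomial σ B) (Q : MvPolynomial (Option τ) B) :
    eval₂ φ x (eval₂Hom C (fun o => Option.elim o U fun i => X (g i) ^ k) Q) =
      eval₂Hom φ (fun o => Option.elim o (eval₂Hom φ x U) fun i => x (g i) ^ k) Q := by
  rw [← coe_eval₂Hom, map_eval₂Hom]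
  congr 2
  · exact RingHom.ext fun c => by simp
  · funext o
    cases o <;> simp

theorem ex_sec : ∃ s : F → T.B, (∀ c, T.π (s c) = c) ∧ s 1 = 1 := by
  classical
  refine ⟨fun c => if c = 1 then 1 else Function.surjInv T.surj c, fun c => ?_, if_pos rfl⟩
  beta_reduce
  split_ifs with hc
  · rw [map_one, hc]
  · exact Function.surjInv_eq _ _

theorem small (c : T.B) (hc : ‖T.π c‖ ≤ 1) :
    ∀ᶠ M in T.U, ‖T.lv M (T.rt p) * T.lv M c‖ ≤ 1 := by
  have h : ‖T.π (T.rt p * c)‖ < 1 := by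
    rw [map_mul, norm_mul]
    exact (mul_le_of_le_one_right (norm_nonneg _) hc).trans_lt ((norm_β T p).trans_lt p_lt)
  filter_upwards [(T.lim _).eventually (gt_mem_nhds h)] with M hM
  exact (pow_le_one_iff_of_nonneg (norm_nonneg _) (pow_ne_zero M hp.out.ne_zero)).1 hM.le

theorem int (hT : TR_s) [IsAlgClosed F] {σ ι τ : Type} [Finite σ] [Finite ι]
    (ρ : ι → MvPolynomial σ T.B) (χ : MvPolynomial (Option τ) F) (hq : Mq χ) (hI : In1 χ)
    (g : τ → σ) (k : ℕ) (U : MvPolynomial σ T.B)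
    (h : ∀ x : σ → F, (∀ i, eval₂ T.π x (ρ i) = 0) →
      eval (fun o => o.elim (eval₂Hom T.π x U) fun i => x (g i) ^ k) χ = 0) :
    ∀ᶠ M in T.U, ∀ (L : Type) [Field L] (W : ValuationSubring L) (ψ : PadicAlgCl p →+* L)
      (x : σ → L), Vp W ψ → (∀ v, x v ∈ W) → (∀ i, eval₂ (ψ.comp (T.lv M)) x (ρ i) = 0) →
      ψ (T.lv M (T.rt p)) * eval₂Hom (ψ.comp (T.lv M)) x U ∈ W := by
  obtain ⟨m, hm, h1, h2⟩ := hq
  obtain ⟨s, hs, hs1⟩ := ex_sec T
  obtain ⟨P, hP⟩ : ∃ P : MvPolynomial σ T.B, ∀ (D : Type) [CommRing D] (φ : T.B →+* D) (x : σ → D),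
      eval₂ φ x P = eval₂Hom φ
        (fun o => Option.elim o (eval₂Hom φ x U) fun i => x (g i) ^ k) (lf s χ) :=
    ⟨_, fun D _ φ x => ev_sub φ x g k U (lf s χ)⟩
  have h3 := hT p F F' T σ ι ρ P (fun x hx => by rw [hP, ev_lf' hs, h x hx]) 0
  have h4 := (eventually_all_finset χ.support).2 fun d _ =>
    small T (s (coeff d χ)) (by rw [hs]; exact hI d)
  refine (h3.and h4).mono fun M ⟨hM, hM'⟩ L _ W ψ x hψ hx hρ => ?_
  obtain ⟨w, hw, e⟩ := hM L W ψ x hψ hx hρ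
  rw [pow_zero, one_mul, hP] at e
  rw [← e, ← W.valuation_le_one_iff, map_pow,
    pow_le_one_iff_of_nonneg zero_le (pow_ne_zero M hp.out.ne_zero), W.valuation_le_one_iff,
    ev_lf] at hw
  refine mq_mem W _ _ m hm χ.support (fun d => ψ (T.lv M (s (coeff d χ)))) (fun i => x (g i) ^ k)
    (rt_mem T hψ p_lt.le M) (fun i => pow_mem (hx _) k)
    (mem_support_iff.2 (by rw [h1]; exact one_ne_zero)) ?_ h2 (fun d hd => ?_) hw
  · rw [h1, hs1, map_one, map_one]
  · have := hψ _ (hM' d hd)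
    rwa [map_mul] at this

theorem tube {σ L : Type} [Field L] {W : ValuationSubring L} {ψ : PadicAlgCl p →+* L} (hψ : Vp W ψ)
    {M k S n : ℕ} (hM : S + k = M) (hk : n + 1 ≤ k) {P : MvPolynomial σ (PadicAlgCl p)}
    (hP : In1 P) {x : σ → L} (hx : ∀ v, x v ∈ W) {ti : L} (hi : ti * ψ (T.lv M (T.rt p)) = 1)
    (h : ψ (T.lv M (T.rt p)) * (ti ^ (p ^ S * (n + 1) * p ^ (n + 1)) *
      AS p (ψ (T.lv M (T.rt p)) ^ p ^ S) (n + 1) (fun c => ψ (T.lv M (T.rt c)) ^ p ^ S) P x) ∈ W) :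
    ∃ y ∈ W, eval₂ ψ (fun v => x v ^ p ^ k) P = (p : L) ^ n * y := by
  have h1 : ∀ c, (ψ (T.lv M (T.rt c)) ^ p ^ S) ^ p ^ k = ψ c := fun c => by
    rw [← pow_mul, ← pow_add, hM, ← map_pow, lv_rt]
  have ht := rt_mem T hψ p_lt.le M
  have h2 := h1 p
  rw [map_natCast] at h2
  have key := asum_dvd' p W _ P.support
    (fun m => ψ (T.lv M (T.rt (coeff m P))) ^ p ^ S * m.prod fun i k => x i ^ k) n.le_succ hk h2
    (fun m _ => mul_mem (pow_mem (rt_mem T hψ (hP m) M) _) (prod_mem fun i _ => pow_mem (hx i) _))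
    ?_
  · rw [eval₂_eq]
    simp only [mul_pow, h1, Finsupp.prod, ← Finset.prod_pow] at key
    simpa only [pow_right_comm] using key
  generalize ψ (T.lv M (T.rt p)) = t at h hi ht h2
  have h3 : p ^ (k - (n + 1)) ≤ p ^ S * p ^ k :=
    le_mul_of_one_le_of_le (Nat.one_le_pow _ _ hp.out.pos)
      (Nat.pow_le_pow_right hp.out.pos (by omega))
  refine ⟨_, mul_mem (pow_mem h (p ^ (k - (n + 1)))) (pow_mem ht (p ^ S * p ^ k - p ^ (k - (n + 1)))),
    ?_⟩
  have h4 : p ^ (n + 1) * p ^ (k - (n + 1)) = p ^ k := by rw [← pow_add, Nat.add_sub_cancel' hk]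
  rw [← h2, mul_pow, mul_right_comm (t ^ _), ← pow_add, Nat.add_sub_cancel' h3, mul_pow, ← pow_mul ti,
    mul_assoc _ (p ^ (n + 1)), h4, ← pow_mul, ← pow_mul, ← mul_assoc, ← pow_add, ← mul_assoc,
    show p ^ S * (p ^ k * n) + p ^ S * p ^ k = p ^ S * (n + 1) * p ^ k by ring, ← mul_pow,
    mul_comm t, hi, one_pow, one_mul]
  rfl

end tl

theorem ev_ae {σ τ A : Type} [CommRing A] (y : τ → A) (g : σ → MvPolynomial τ A)
    (P : MvPolynomial σ A) : eval y (aeval g P) = eval (fun v => eval y (g v)) P := by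
  induction P using MvPolynomial.induction_on with
  | C a => simp
  | add p q hp hq => simp only [map_add, hp, hq]
  | mul_X p i hp => simp only [map_mul, hp, aeval_X, eval_X]

/-- The cast of multidegrees. -/
def cs (κ : Type) : (κ → ℕ) →+ (κ → ℤ) := (Nat.castAddMonoidHom ℤ).compLeft κ

theorem hg_inl {κ A : Type} [DecidableEq κ] [CommRing A] {E : κ → ℕ} {P : MvPolynomial (XV κ) A}
    (h : P.IsWeightedHomogeneous (fun v => (Pi.single v.1 1 : κ → ℕ)) E) :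
    Hg (fun k => (E k : ℤ)) (aeval (fun v => X (.inl v)) P : MvPolynomial (XY κ) A) :=
  aeval_hom wt (cs κ) _ (fun v => by
    have : cs κ (Pi.single v.1 1) = wt (.inl v : XY κ) := funext fun k => by
      simp [cs, wt, Pi.single_apply]
    rw [this]
    exact isWeightedHomogeneous_X _ _ _) h

theorem null1 {κ F ι τ : Type} [Fintype κ] [DecidableEq κ] [Field F] [IsAlgClosed F] [Fintype ι]
    [Fintype τ] {f : τ → MvPolynomial (XY κ) F} {n : τ → κ → ℤ} (hf : ∀ t, Hg (n t) (f t))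
    {q : ι → MvPolynomial (XY κ) F} {m : κ → ℤ} (hq : ∀ i, Hg m (q i))
    (h : ∀ a, Rel a → (∀ t, eval a (f t) = 0) → ∃ i, eval a (q i) ≠ 0) :
    ∃ l : ι → MvPolynomial (XY κ) F, (∀ i, Hg (-m) (l i)) ∧
      ∀ a, Rel a → (∀ t, eval a (f t) = 0) → ∑ i, eval a (l i) * eval a (q i) = 1 := by
  obtain ⟨l, b, h1, h2⟩ := (null F F κ ι τ f n hf).1 q m hq h
  refine ⟨l, h1, fun a ha h0 => ?_⟩
  simpa [h0] using h2 F (RingHom.id F) a ha

theorem blk {κ R F 𝒦 : Type} [Fintype κ] [DecidableEq κ] [CommRing R] [Field F] [IsAlgClosed F]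
    [Field 𝒦] [Algebra F 𝒦] {c : ℕ} {e : Fin c → κ → ℕ} {cf : MI e → R} {a : R →+* F} {k₀ : κ}
    {ω : κ → ℕ} {x : 𝒦} (h : Rep cf a k₀ ω x) {r w : ℕ} (z : Fin r → 𝒦) (hw : 0 < w)
    (hz : ∀ i, Mn F x w (z i)) : ∃ m₀ : ℕ, ∀ m ≥ m₀, ∃ (E : κ → ℕ)
      (Ξ : CV r → MvPolynomial (XV κ) F) (lam : MvPolynomial (XY κ) F), (∀ j, 0 < E j) ∧
      ∑ j, ω j * E j = m * w ∧ (∀ i, Hx E (Ξ i)) ∧
      Hg (Pi.single k₀ ((m * w : ℕ) : ℤ) - fun k => (E k : ℤ)) lam ∧
      ∀ y : XY κ → F, Rel y → Ze cf a (fun v => y (.inl v)) →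
        (∀ i, eval (fun v => y (.inl v)) (Ξ (.inl i)) * eval y lam = y (.inl (k₀, i)) ^ (m * w)) ∧
        ∀ (Φ : MvPolynomial (CV r) F) (n : ℕ),
          Φ.IsWeightedHomogeneous (Sum.elim (fun _ => 1) fun _ => m * w) n →
          aeval (Sum.elim ![1, x] fun i => z i ^ m) Φ = 0 →
          eval (Sum.elim (fun i => y (.inl (k₀, i)))
            fun i => eval (fun v => y (.inl v)) (Ξ (.inr i)) * eval y lam) Φ = 0 := by
  obtain ⟨m₀, h⟩ := h r w z hw hz
  refine ⟨m₀, fun m hm => ?_⟩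
  obtain ⟨E, Ξ, h1, h2, h3, h4⟩ := h m hm
  have nz : ∀ y : XY κ → F, Rel y → Nz fun v => y (.inl v) := fun y hy j => by
    by_contra! h0
    simpa [h0] using hy j
  have hf : ∀ (y : XY κ → F) t, eval y (gen (fun i => C (a (cf i))) t fun v => X (.inl v)) =
      gen (a ∘ cf) t fun v => y (.inl v) := fun y t => by
    rw [M0.map_gen]
    congr 1 <;> funext v <;> simp
  have hq : ∀ (y : XY κ → F) i, eval y (aeval (fun v => X (.inl v)) (Ξ i)) =
      eval (fun v => y (.inl v)) (Ξ i) := fun y i => by simp only [ev_ae, eval_X]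
  obtain ⟨l, h5, h6⟩ := null1 (M0.gen_hg fun i => a (cf i)) (fun i : Fin 2 => hg_inl (h3 (.inl i)))
    fun y hy h0 => by
      simp only [hf] at h0
      obtain ⟨lam, h7, h8, -⟩ := h4 _ (nz y hy) h0
      obtain ⟨i, hi⟩ := nz y hy k₀
      exact ⟨i, by rw [hq, h8]; exact mul_ne_zero h7 (pow_ne_zero _ hi)⟩
  refine ⟨E, Ξ, ∑ i, l i * X (.inl (k₀, i)) ^ (m * w), h1, h2, h3,
    IsWeightedHomogeneous.sum _ _ _ fun i _ => ?_, fun y hy h0 => ?_⟩
  · have := (h5 i).mul ((isWeightedHomogeneous_X F wt (.inl (k₀, i) : XY κ)).pow (m * w))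
    rwa [show (-fun k => (E k : ℤ)) + (m * w) • wt (.inl (k₀, i) : XY κ) =
      Pi.single k₀ ((m * w : ℕ) : ℤ) - fun k => (E k : ℤ) from funext fun k => by
        simp [wt, Pi.single_apply]
        split_ifs <;> ring] at this
  · obtain ⟨lam, h7, h8, h9⟩ := h4 _ (nz y hy) h0
    have h10 := h6 y hy fun t => (hf y t).trans (h0 t)
    simp only [hq, h8] at h10
    have h11 : eval y (∑ i, l i * X (.inl (k₀, i)) ^ (m * w)) = lam⁻¹ := by
      refine eq_inv_of_mul_eq_one_left ?_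
      rw [← h10, map_sum, Finset.sum_mul]
      exact Finset.sum_congr rfl fun i _ => by rw [map_mul, map_pow, eval_X]; ring
    rw [h11]
    refine ⟨fun i => by rw [h8, mul_right_comm, mul_inv_cancel₀ h7, one_mul], ?_⟩
    simpa only [div_eq_mul_inv] using h9

theorem Mo.mq {A : Type} [CommRing A] {w m : ℕ} {χ : MvPolynomial (Option (Fin 2)) A}
    (h : Mo w m χ) : Mq χ := by
  refine ⟨m, h.1, h.2.2.1, fun d hd hne => ?_⟩
  refine ((monomial_le_degreeOf none hd).trans h.2.2.2).lt_of_ne fun e => hne ?_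
  have h1 := h.2.1 (mem_support_iff.1 hd)
  rw [Finsupp.weight_apply, Finsupp.sum_fintype _ _ (by simp), Fintype.sum_option,
    Fin.sum_univ_two, e] at h1
  simp only [Option.elim, smul_eq_mul, mul_one, mul_comm m w] at h1
  ext o
  rcases o with _ | o
  · simp [e]
  · fin_cases o <;> simp <;> omega

section twist
variable {p : ℕ} [hp : Fact p.Prime] {F 𝒦 : Type} [NormedField F] [CharP F p] [Field 𝒦]
  [Algebra F 𝒦]

theorem twist {x u : 𝒦} {w : ℕ} (h : Bd F x w u) (j : ℕ) :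
    ∃ χ : MvPolynomial (Option (Fin 2)) F, Mq χ ∧ In1 χ ∧
      ∀ (r q : ℕ) (z : Fin r → 𝒦) (Ψ : MvPolynomial (CV r) F) (y : CV r → F),
        Ψ.IsWeightedHomogeneous (Sum.elim (fun _ => 1) fun _ => q) (p ^ j * w) →
        aeval (Sum.elim ![1, x] z) Ψ = u ^ p ^ j →
        (∀ (Φ : MvPolynomial (CV r) F) (n : ℕ),
          Φ.IsWeightedHomogeneous (Sum.elim (fun _ => 1) fun _ => q) n →
          aeval (Sum.elim ![1, x] z) Φ = 0 → eval y Φ = 0) →
        eval (fun o => o.elim (eval y Ψ) fun i => y (.inl i) ^ p ^ j) χ = 0 := by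
  obtain ⟨m, χ, h1, h2, h3⟩ := h
  have : CharP 𝒦 p := charP_of_injective_algebraMap (algebraMap F 𝒦).injective p
  have hh : (map (iterateFrobenius F p j) χ).IsWeightedHomogeneous
      (fun o => o.elim w fun _ => 1) (w * m) :=
    fun d hd => h1.2.1 fun h0 => hd (by rw [coeff_map, h0, map_zero])
  refine ⟨map (iterateFrobenius F p j) χ, Mo.mq ⟨h1.1, hh, by rw [coeff_map, h1.2.2.1, map_one],
    degreeOf_le_iff.2 fun d hd => degreeOf_le_iff.1 h1.2.2.2 d (support_map_subset _ _ hd)⟩, fun d => ?_, fun r q z Ψ y h4 h5 h6 => ?_⟩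
  · rw [coeff_map, iterateFrobenius_def, norm_pow]
    exact pow_le_one₀ (norm_nonneg _) (h2 d)
  have h7 := h6 _ _ (aeval_hom (Sum.elim (fun _ => 1) fun _ => q) (AddMonoidHom.mulLeft (p ^ j))
    (fun o => Option.elim o Ψ fun i => X (.inl i) ^ p ^ j) (fun o => by
      rcases o with _ | i
      · exact h4
      · exact (isWeightedHomogeneous_X F _ (Sum.inl i : CV r)).pow _) hh) (by
    have h8 := congrArg (iterateFrobenius 𝒦 p j) h3
    rw [map_zero, aeval_def, ← coe_eval₂Hom, map_eval₂Hom] at h8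
    rw [← h8, ← AlgHom.comp_apply, comp_aeval, aeval_def, eval₂_map, coe_eval₂Hom]
    congr 1
    · exact RingHom.ext fun c => by simp [iterateFrobenius_def]
    · funext o
      rcases o with _ | i
      · exact h5
      · fin_cases i <;> simp [pt3, iterateFrobenius_def])
  rw [ev_ae] at h7
  rw [← h7]
  congr 2
  funext o
  cases o <;> simp

end twist

section tl
variable {p : ℕ} [hp : Fact p.Prime] {F F' : Type} [NormedField F] [NormedField F'] (T : Tl p F F')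

theorem int1 (hT : TR_s) [IsAlgClosed F] {σ ι : Type} [Finite σ] [Finite ι]
    (ρ : ι → MvPolynomial σ T.B) (V : MvPolynomial σ F) (hI : In1 V) (U : MvPolynomial σ T.B)
    (h : ∀ x : σ → F, (∀ i, eval₂ T.π x (ρ i) = 0) → eval₂Hom T.π x U = eval x V) :
    ∀ᶠ M in T.U, ∀ (L : Type) [Field L] (W : ValuationSubring L) (ψ : PadicAlgCl p →+* L)
      (x : σ → L), Vp W ψ → (∀ v, x v ∈ W) → (∀ i, eval₂ (ψ.comp (T.lv M)) x (ρ i) = 0) →
      ψ (T.lv M (T.rt p)) * eval₂Hom (ψ.comp (T.lv M)) x U ∈ W := by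
  obtain ⟨s, hs, -⟩ := ex_sec T
  obtain ⟨P, hP⟩ : ∃ P : MvPolynomial σ T.B, ∀ (D : Type) [CommRing D] (φ : T.B →+* D) (x : σ → D),
      eval₂ φ x P = eval₂Hom φ x U - eval₂Hom φ x (lf s V) :=
    ⟨U - lf s V, fun D _ φ x => map_sub (eval₂Hom φ x) _ _⟩
  have h3 := hT p F F' T σ ι ρ P (fun x hx => by rw [hP, ev_lf' hs, h x hx, sub_self]) 0
  have h4 := (eventually_all_finset V.support).2 fun d _ =>
    small T (s (coeff d V)) (by rw [hs]; exact hI d)
  refine (h3.and h4).mono fun M ⟨hM, hM'⟩ L _ W ψ x hψ hx hρ => ?_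
  obtain ⟨w, hw, e⟩ := hM L W ψ x hψ hx hρ
  rw [pow_zero, one_mul, hP] at e
  rw [← e, ← W.valuation_le_one_iff, map_pow,
    pow_le_one_iff_of_nonneg zero_le (pow_ne_zero M hp.out.ne_zero), W.valuation_le_one_iff] at hw
  rw [← sub_add_cancel (eval₂Hom _ x U) (eval₂Hom _ x (lf s V)), mul_add]
  refine add_mem (mul_mem (rt_mem T hψ p_lt.le M) hw) ?_
  rw [ev_lf, Finset.mul_sum]
  refine sum_mem fun d hd => ?_
  rw [← mul_assoc]
  refine mul_mem ?_ (prod_mem fun i _ => pow_mem (hx i) _)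
  have := hψ _ (hM' d hd)
  rwa [map_mul] at this

theorem ex_theta {κ₀ κ A : Type} [Fintype κ₀] [DecidableEq κ₀] [Fintype κ] [DecidableEq κ]
    [CommRing A] {r : κ₀ → ℕ} (inc : κ₀ → κ) {N : ℕ} (hN : 0 < N)
    (P : (Σ b, CV (r b)) → MvPolynomial (XY κ) A)
    (h1 : ∀ b k, P ⟨b, .inl k⟩ = X (.inl (inc b, k)) ^ N)
    (h2 : ∀ v, Hg (Pi.single (inc v.1) N) (P v)) :
    ∃ θ : CW r → MvPolynomial (XY κ) A, (∀ v, Hg (push inc N (cw r v)) (θ v)) ∧
      (∀ v, θ (cv r v) = P v) ∧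
      ∀ (L : Type) [Field L] (ψ : A →+* L) (a : XY κ → L), Rel a →
        (Rel fun v => eval₂ ψ a (θ (.inl v))) ∧
        ∀ W : ValuationSubring L, (∀ v, a v ∈ W) → ∀ v, eval₂ ψ a (θ (.inl v)) ∈ W := by
  obtain ⟨Φ, h3, h4, -, h5⟩ := (w0 κ₀ A).2.2.2.2 N hN
  let g : XY κ₀ → XY κ := Sum.map (Prod.map inc id) (Prod.map inc id)
  have hs : ∀ (M : ℤ) b (z : ℤ), push inc M (Pi.single b z) = Pi.single (inc b) (M * z) := by
    intro M b z
    change ∑ b', (M * (Pi.single b z : κ₀ → ℤ) b') • (Pi.single (inc b') 1 : κ → ℤ) = _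
    rw [Finset.sum_eq_single b (fun b' _ hb => by simp [Pi.single_eq_of_ne hb]) (by simp),
      Pi.single_eq_same, ← Pi.single_smul', smul_eq_mul, mul_one]
  have hg : ∀ (M : ℤ) v, push inc M (wt v) = M • wt (g v) := by
    rintro M (v | v) <;> simp [wt, g, hs, ← Pi.single_smul']
  have he : ∀ (L : Type) [Field L] (ψ : A →+* L) (a : XY κ → L) v,
      eval₂ ψ a (rename g (map (Int.castRingHom A) (Φ v))) = aeval (a ∘ g) (Φ v) := by
    intro L _ ψ a v
    rw [eval₂_rename, eval₂_map, aeval_def]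
    congr 1
    exact RingHom.ext_int _ _
  refine ⟨Sum.elim (fun v => rename g (map (Int.castRingHom A) (Φ v))) fun v => P ⟨v.1, .inr v.2⟩,
    ?_, ?_, fun L _ ψ a ha => ⟨?_, fun W hW v => ?_⟩⟩
  · rintro (v | v)
    · have := Prd.hom_ren (w' := wt) (push inc 1) g (Int.castRingHom A)
        (fun v => by rw [hg, one_smul]) (h4 v)
      rwa [map_zsmul, hg, one_smul, ← hg] at this
    · have := h2 ⟨v.1, .inr v.2⟩
      rwa [← mul_one (N : ℤ), ← hs] at this
  · rintro ⟨b, k | i⟩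
    · simp [cv, h1, h3, g]
    · rfl
  · simp only [Sum.elim_inl, he]
    exact h5 L _ fun k => ha (inc k)
  · rw [Sum.elim_inl, he, aeval_def, eval₂_eq]
    exact sum_mem fun d _ => mul_mem (intCast_mem W _) (prod_mem fun i _ => pow_mem (hW _) _)

theorem lev {κ₀ κ : Type} [Fintype κ₀] [DecidableEq κ₀] [Fintype κ] [DecidableEq κ] {r u : κ₀ → ℕ}
    {J : ∀ b, Fin (u b) → MvPolynomial (CV (r b)) (PadicAlgCl p)} {c₀ : ℕ}
    {f : Fin c₀ → MvPolynomial (Σ b, CV (r b)) (PadicAlgCl p)} (hJ : ∀ b j, In1 (J b j))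
    (hf : ∀ t, In1 (f t)) (inc : κ₀ → κ) {s S n M : ℕ} (hM : s + S + (n + 1) ≤ M) {ti : T.B}
    (hi : ti * T.rt p = 1) (Z : ∀ b, Fin (r b) → MvPolynomial (XY κ) T.B)
    (hZ : ∀ b i, Hg (Pi.single (inc b) ((p ^ S : ℕ) : ℤ)) (Z b i))
    (P : (Σ b, CV (r b)) → MvPolynomial (XY κ) T.B)
    (h1 : ∀ b k, P ⟨b, .inl k⟩ = X (.inl (inc b, k)) ^ p ^ S)
    (h2 : ∀ b i, P ⟨b, .inr i⟩ = C (T.rt p ^ p ^ (s + S)) * Z b i)
    {c' : ℕ} {e' : Fin c' → κ → ℕ} (cf' : MI e' → T.B)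
    (h : ∀ (L : Type) [Field L] (W : ValuationSubring L) (ψ : PadicAlgCl p →+* L) (x : XY κ → L),
      Vp W ψ → (∀ v, x v ∈ W) → Rel x → Ze cf' (ψ.comp (T.lv M)) (fun v => x (.inl v)) →
      (∀ b i, ψ (T.lv M (T.rt p)) * eval₂Hom (ψ.comp (T.lv M)) x (Z b i) ∈ W) ∧
      (∀ b j, ψ (T.lv M (T.rt p)) * eval₂Hom (ψ.comp (T.lv M)) x
        (C (ti ^ (p ^ (s + S) * (n + 1) * p ^ (n + 1))) * AS p (C (T.rt p ^ p ^ (s + S))) (n + 1)
          (fun c => C (T.rt c ^ p ^ (s + S))) (J b j) fun v => P ⟨b, v⟩) ∈ W) ∧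
      ∀ t, ψ (T.lv M (T.rt p)) * eval₂Hom (ψ.comp (T.lv M)) x
        (C (ti ^ (p ^ (s + S) * (n + 1) * p ^ (n + 1))) * AS p (C (T.rt p ^ p ^ (s + S))) (n + 1)
          (fun c => C (T.rt c ^ p ^ (s + S))) (f t) P) ∈ W) :
    ∃ (N : ℤ) (θ : CW r → MvPolynomial (XY κ) (PadicAlgCl p)), N ≠ 0 ∧
      (∀ v, Hg (push inc N (cw r v)) (θ v)) ∧ ∀ w : PadicAlgCl p, w ≠ 0 →
        Val p (RingHom.id _) (cG J f) (fun i => w * T.lv M (cf' i)) θ 0 n := by
  obtain ⟨k, hk, hk'⟩ : ∃ k, s + S + k = M ∧ n + 1 ≤ k := ⟨M - (s + S), by omega, by omega⟩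
  have hpos : 0 < p ^ S * p ^ k := mul_pos (pow_pos hp.out.pos _) (pow_pos hp.out.pos _)
  obtain ⟨θ, h3, h4, h5⟩ := ex_theta inc hpos (fun v => map (T.lv M) (P v) ^ p ^ k)
    (fun b i => by rw [h1, map_pow, map_X, pow_mul]) (fun v => by
      have : Hg (Pi.single (inc v.1) ((p ^ S : ℕ) : ℤ)) (P v) := by
        obtain ⟨b, i | i⟩ := v
        · have := (isWeightedHomogeneous_X T.B wt (.inl (inc b, i) : XY κ)).pow (p ^ S)
          rw [h1]
          rwa [wt, Sum.elim_inl, ← Pi.single_smul', nsmul_one] at this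
        · rw [h2]
          exact (hZ b i).C_mul _
      have := (Twt.hg_map (T.lv M) this).pow (p ^ k)
      rwa [← Pi.single_smul', nsmul_eq_mul, ← Nat.cast_mul, mul_comm] at this)
  refine ⟨_, θ, Nat.cast_ne_zero.2 hpos.ne', h3, fun w hw L _ _ W ψ a hψ ha hr h0 => ?_⟩
  obtain ⟨h6, h7⟩ := h5 L ψ a hr
  obtain ⟨h8, h9, h10⟩ := h L W ψ a hψ ha hr fun t => by
    have := h0 t
    rw [show ψ ∘ (fun i => w * T.lv M (cf' i)) = fun i => ψ w * (ψ.comp (T.lv M) ∘ cf') i from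
      funext fun i => map_mul ψ _ _, M0.gen_smul] at this
    exact (mul_eq_zero.1 this).resolve_left ((map_ne_zero ψ).2 hw)
  have ht := rt_mem T hψ p_lt.le M
  have hP : ∀ v, eval₂Hom (ψ.comp (T.lv M)) a (P v) ∈ W := by
    rintro ⟨b, i | i⟩
    · rw [h1, map_pow, eval₂Hom_X']
      exact pow_mem (ha _) _
    · rw [h2, map_mul, eval₂Hom_C, map_pow, ← Nat.sub_add_cancel
        (Nat.one_le_pow (s + S) p hp.out.pos), pow_succ, mul_assoc]
      exact mul_mem (pow_mem ht _) (h8 b i)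
  have hθ : ∀ v, eval₂ ψ a (θ (cv r v)) = eval₂Hom (ψ.comp (T.lv M)) a (P v) ^ p ^ k := fun v => by
    rw [h4, eval₂_pow, eval₂_map, coe_eval₂Hom]
  have hi' : ψ (T.lv M ti) * ψ (T.lv M (T.rt p)) = 1 := by
    rw [← map_mul, ← map_mul, hi, map_one, map_one]
  refine ⟨?_, ?_⟩
  · rw [pow_zero]
    simp only [one_mul]
    rintro (v | v)
    · exact h7 W ha v
    · exact (hθ ⟨v.1, .inr v.2⟩).symm ▸ pow_mem (hP _) _
  · rintro (b | j | t)
    · refine ⟨0, W.zero_mem, ?_⟩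
      rw [mul_zero, cG, Sum.elim_inl, eval₂_rename]
      exact (Np.rl_ev _ _).2 h6 b
    · have := h9 j.1 j.2
      simp only [map_mul, map_AS, eval₂Hom_C, map_pow] at this
      rw [cG, Sum.elim_inr, Sum.elim_inl, eval₂_rename, RingHom.comp_id]
      simp only [Function.comp_def, hθ]
      exact tube T hψ hk hk' (hJ _ _) (fun v => hP _) hi' this
    · have := h10 t
      simp only [map_mul, map_AS, eval₂Hom_C, map_pow] at this
      rw [cG, Sum.elim_inr, Sum.elim_inr, eval₂_rename, RingHom.comp_id]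
      simp only [Function.comp_def, hθ]
      exact tube T hψ hk hk' (hf _) hP hi' this

end tl

theorem ex_rho {F σ ι : Type} [NormedField F] [IsUltrametricDist F] [Finite ι]
    (G : ι → MvPolynomial σ F) : ∃ ρ : ℝ, 0 < ρ ∧ ∀ (s : Finset ι) (y : ι → F), (∀ i, ‖y i‖ ≤ ρ) →
      In1 (∑ i ∈ s, C (y i) * G i) := by
  have := Fintype.ofFinite ι
  obtain ⟨B, h0, hB⟩ : ∃ B : ℝ, 0 < B ∧ ∀ i d, ‖coeff d (G i)‖ ≤ B := by
    refine ⟨1 + ∑ i, ∑ d ∈ (G i).support, ‖coeff d (G i)‖, by positivity, fun i d => ?_⟩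
    have h1 : ‖coeff d (G i)‖ ≤ ∑ d ∈ (G i).support, ‖coeff d (G i)‖ := by
      by_cases hd : d ∈ (G i).support
      · exact Finset.single_le_sum (f := fun d => ‖coeff d (G i)‖) (fun _ _ => norm_nonneg _) hd
      · rw [notMem_support_iff.1 hd, norm_zero]
        positivity
    have h2 := Finset.single_le_sum (f := fun i => ∑ d ∈ (G i).support, ‖coeff d (G i)‖)
      (fun _ _ => by positivity) (Finset.mem_univ i)
    linarith
  refine ⟨B⁻¹, inv_pos.2 h0, fun s y hy d => ?_⟩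
  rw [coeff_sum]
  refine IsUltrametricDist.norm_sum_le_of_forall_le_of_nonneg zero_le_one fun i _ => ?_
  rw [coeff_C_mul, norm_mul, ← inv_mul_cancel₀ h0.ne']
  exact mul_le_mul (hy i) (hB i d) (norm_nonneg _) (inv_pos.2 h0).le

/-- The coordinates and covectors of a block. -/
def ey {κ₀ : Type} {κ : κ₀ → Type} (b : κ₀) : XY (κ b) → XY (Σ b, κ b) :=
  Sum.map (Prd.em b) (Prd.em b)

theorem hg_ey {κ₀ A : Type} {κ : κ₀ → Type} [DecidableEq κ₀] [∀ b, DecidableEq (κ b)] [CommRing A]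
    (b : κ₀) {n : κ b → ℤ} {P : MvPolynomial (XY (κ b)) A} (h : Hg n P) :
    Hg (Prd.xt ℤ b n) (rename (ey b) P) := by
  have := Prd.hom_ren (w' := wt) (Prd.xt ℤ b) (ey b) (RingHom.id A) (by
    rintro (v | v) <;> exact (Prd.xt_single b v.1 _).symm) h
  rwa [MvPolynomial.map_id] at this

/-- Block degrees as multidegrees. -/
def bm {κ₀ : Type} {κ : κ₀ → Type} (E : ∀ b, κ b → ℕ) : (κ₀ → ℕ) →+ ((Σ b, κ b) → ℕ) where
  toFun n j := n j.1 * E j.1 j.2
  map_zero' := funext fun _ => zero_mul _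
  map_add' _ _ := funext fun _ => add_mul _ _ _

theorem ex_gen {κ A : Type} [Fintype κ] [DecidableEq κ] [CommRing A] {c : ℕ} {e : Fin c → κ → ℕ}
    (P : Fin c → MvPolynomial (XV κ) A) (h : ∀ t, Hx (e t) (P t)) :
    ∃ y : MI e → A, ∀ t x, eval x (P t) = gen y t x := by
  have h1 := fun t => Lr.genf (e := e t) (f := P t) (by
    have := aeval_hom (fun v : XV κ => (Pi.single v.1 1 : κ → ℤ)) (cs κ) X (fun v => by
      rw [show cs κ (Pi.single v.1 1) = Pi.single v.1 1 from funext fun k => by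
        simp [cs, Pi.single_apply]]
      exact isWeightedHomogeneous_X _ _ _) (h t)
    rwa [aeval_X_left_apply] at this)
  choose y hy using h1
  exact ⟨fun i => y i.1 i.2, fun t x => hy t A (RingHom.id A) x⟩

theorem ex_eq {κ B : Type} [Fintype κ] [DecidableEq κ] [CommRing B] {c : ℕ} {e : Fin c → κ → ℕ}
    (cf : MI e → B) : ∃ q : κ ⊕ Fin c → MvPolynomial (XY κ) B,
      ∀ (D : Type) [CommRing D] (φ : B →+* D) (z : XY κ → D),
        (∀ i, eval₂ φ z (q i) = 0) ↔ Rel z ∧ Ze cf φ fun v => z (.inl v) := by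
  refine ⟨Sum.elim (Np.rl B) fun t => gen (fun i => C (cf i)) t fun v => X (.inl v),
    fun D _ φ z => ?_⟩
  have h : ∀ t, eval₂Hom φ z (gen (fun i => C (cf i)) t fun v => X (.inl v)) =
      gen (φ ∘ cf) t fun v => z (.inl v) := fun t => by
    rw [M0.map_gen]
    congr 1 <;> funext v <;> simp
  simp only [Sum.forall, Sum.elim_inl, Sum.elim_inr, ← coe_eval₂Hom, Np.rl_ev, h, Ze]

theorem ex_glue {κ₀ A : Type} {r : κ₀ → ℕ} (g : κ₀ → Fin 2 → A) (h : ∀ b, Fin (r b) → A) :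
    ∃ P : (Σ b, CV (r b)) → A, (∀ b k, P ⟨b, .inl k⟩ = g b k) ∧ ∀ b i, P ⟨b, .inr i⟩ = h b i :=
  ⟨fun v => Sum.elim (g v.1) (h v.1) v.2, fun _ _ => rfl, fun _ _ => rfl⟩

theorem psi_hom (p : ℕ) [Fact p.Prime] {A Ω : Type} [CommRing A] [CommRing Ω] {r : ℕ} (q N : ℕ)
    (t c : A) (γ : Ω → A) {J : MvPolynomial (CV r) Ω} {d n : ℕ} (h : J.IsHomogeneous d)
    (hn : p ^ N * (q * d) = n) :
    (C c * AS p (C t) N (fun c => C (γ c)) J (Sum.elim (fun k => X (.inl k) ^ q)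
      fun i => C t * X (.inr i)) : MvPolynomial (CV r) A).IsWeightedHomogeneous
      (Sum.elim (fun _ => 1) fun _ => q) n := by
  subst hn
  refine (AS_hom p (w := 1) _ (AddMonoidHom.mulLeft q) _ ?_ h t N γ).C_mul c
  rintro (k | k)
  · exact (isWeightedHomogeneous_X A _ (Sum.inl k : CV r)).pow q
  · simpa using (isWeightedHomogeneous_X A (Sum.elim (fun _ => 1) fun _ => q)
      (Sum.inr k : CV r)).C_mul t

theorem frob_fl {p : ℕ} [Fact p.Prime] {F 𝒦 Ω : Type} [Field F] [CharP F p] [Field 𝒦]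
    [Algebra F 𝒦] [CommRing Ω] {r : ℕ} (β : Ω → F) {t ti : F} (hi : ti * t = 1) (x : 𝒦)
    (ζ : Fin r → 𝒦) (s s₁ j N : ℕ) (J : MvPolynomial (CV r) Ω) :
    aeval (Sum.elim ![1, x] fun i => (ζ i / algebraMap F 𝒦 (t ^ p ^ (s + s₁))) ^ p ^ j)
      (C (ti ^ (p ^ (s + (j + s₁)) * N * p ^ N)) * AS p (C (t ^ p ^ (s + (j + s₁)))) N
        (fun c => C (β c ^ p ^ (s + (j + s₁)))) J (Sum.elim (fun k => X (.inl k) ^ p ^ (j + s₁))
          fun i => C (t ^ p ^ (s + (j + s₁))) * X (.inr i)) : MvPolynomial (CV r) F) =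
    (aeval (Sum.elim ![1, x ^ p ^ s₁] ζ)
      (fl p (fun c => β c ^ p ^ (s + s₁)) (t ^ p ^ (s + s₁)) N J) /
        algebraMap F 𝒦 (t ^ (p ^ (s + s₁) * N * p ^ N))) ^ p ^ j := by
  have : CharP 𝒦 p := charP_of_injective_algebraMap (algebraMap F 𝒦).injective p
  have ht : t ≠ 0 := right_ne_zero_of_mul_eq_one hi
  have he : p ^ (s + (j + s₁)) = p ^ (s + s₁) * p ^ j := by ring
  have h1 : ∀ (y : CV r → 𝒦) P, aeval y P = eval₂Hom (algebraMap F 𝒦) y P := fun _ _ => rfl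
  have h2 : ∀ (γ : Ω → F) τ (y : CV r → 𝒦), aeval y (fl p γ τ N J) ^ p ^ j =
      AS p (algebraMap F 𝒦 τ ^ p ^ j) N (fun c => algebraMap F 𝒦 (γ c) ^ p ^ j) J
        fun i => y i ^ p ^ j := fun γ τ y =>
    (congrArg (iterateFrobenius 𝒦 p j) (eval_fl p γ τ N J (algebraMap F 𝒦) y)).trans
      (map_AS p (iterateFrobenius 𝒦 p j) _ N (fun c => algebraMap F 𝒦 (γ c)) J y)
  rw [div_pow, h2, h1, map_mul, map_AS, eval₂Hom_C, eq_inv_of_mul_eq_one_left hi, div_eq_inv_mul]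
  congr 1
  · rw [← map_pow, ← map_inv₀, inv_pow, ← pow_mul, he]
    ring_nf
  · congr 1
    · simp [he, pow_mul]
    · funext c
      simp [he, pow_mul]
    · funext v
      rcases v with k | i
      · fin_cases k <;> simp [pow_add, pow_mul, pow_right_comm]
      · have := (map_ne_zero (algebraMap F 𝒦)).2 ht
        simp only [he, pow_mul, Sum.elim_inr, map_mul, map_pow, eval₂Hom_C,
          eval₂Hom_X', div_pow]
        field_simp

end Va

open Va in
theorem val (hT : TR_s) : VAL_s := by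
  intro p hp F F' _ _ _ _ _ T κ₀ _ _ r u J dJ c₀ f e₁ hCD hf hf1 n s 𝒦 _ _ x s₁ ζ hζ hJ κ _ _ c e R
    _ cf a k₀ ω hR
  have hJh : ∀ b j, (J b j).IsHomogeneous (dJ b j) ∧ In1 (J b j) := fun b j => by
    obtain ⟨_, _, _, _, _, _, _, -, -, -, -, -, -, -, -, h⟩ := hCD b
    exact ⟨(h j).1, (h j).2.1⟩
  choose m₀ hb using fun b => blk (hR b) _ (pow_pos hp.out.pos (s₁ b)) fun i =>
    (hζ b i).imp fun _ => .imp fun _ h => ⟨h.1, h.2.2⟩
  obtain ⟨S, j, hj, hm⟩ : ∃ (S : ℕ) (j : κ₀ → ℕ), (∀ b, j b + s₁ b = S) ∧ ∀ b, m₀ b ≤ p ^ j b := by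
    have h : ∀ b, m₀ b + s₁ b ≤ ∑ b, (m₀ b + s₁ b) := fun b =>
      Finset.single_le_sum (f := fun b => m₀ b + s₁ b) (fun _ _ => Nat.zero_le _) (Finset.mem_univ b)
    exact ⟨_, fun b => ∑ b, (m₀ b + s₁ b) - s₁ b,
      fun b => Nat.sub_add_cancel ((Nat.le_add_left _ _).trans (h b)), fun b =>
      (Nat.le_sub_of_add_le (h b)).trans (Nat.lt_pow_self hp.out.one_lt).le⟩
  choose E Ξ lam hE hω hΞ hl hb using fun b => hb b _ (hm b)
  have hq : ∀ b, p ^ j b * p ^ s₁ b = p ^ S := fun b => by rw [← pow_add, hj]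
  simp only [hq] at hω hl hb
  obtain ⟨ti, hi⟩ := ex_inv T
  have hi' : T.π ti * T.β p = 1 := by rw [Tl.β, ← map_mul, hi, map_one]
  obtain ⟨sc, hs, -⟩ := ex_sec T
  -- the forms of the family
  obtain ⟨P₀, hP₀, hP₁⟩ : ∃ P₀ : (Σ b, CV (r b)) → MvPolynomial (XV (Σ b, κ b)) F,
      (∀ v, Hx (bm E (Pi.single v.1 1)) (P₀ v)) ∧ ∀ z v, eval z (P₀ v) =
        Sum.elim (fun _ => 1) (fun _ => T.β p ^ p ^ (s + S)) v.2 *
          eval (z ∘ Prd.em v.1) (Ξ v.1 v.2) := by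
    refine ⟨fun v => C (Sum.elim (fun _ => 1) (fun _ => T.β p ^ p ^ (s + S)) v.2) *
      rename (Prd.em v.1) (Ξ v.1 v.2), fun v => IsWeightedHomogeneous.C_mul ?_ _,
      fun z v => by rw [map_mul, eval_C, eval_rename]⟩
    have := Prd.hom_ren (w' := fun v : XV (Σ b, κ b) => (Pi.single v.1 1 : (Σ b, κ b) → ℕ))
      (Prd.xt ℕ v.1) (Prd.em v.1) (RingHom.id F) (fun w => (Prd.xt_single _ w.1 _).symm)
      (hΞ v.1 v.2)
    rwa [MvPolynomial.map_id, show Prd.xt ℕ v.1 (E v.1) = bm E (Pi.single v.1 1) from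
      funext fun ⟨b, k⟩ => by
        by_cases h : b = v.1
        · subst h
          simp [bm, Prd.xt_mk]
        · rw [Prd.xt_ne _ h]
          simp [bm, h]] at this
  obtain ⟨y₀, hy₀⟩ := ex_gen _ fun t => AS_hom p _ (bm E) P₀ hP₀ (hf t) (T.β p ^ p ^ (s + S))
    (n + 1) fun c => T.β c ^ p ^ (s + S)
  obtain ⟨ρ, hρ, hρ'⟩ := ex_rho fun i : MI fun t => p ^ (n + 1) • bm E (e₁ t) =>
    (C (T.π ti ^ (p ^ (s + S) * (n + 1) * p ^ (n + 1))) *
      (∏ b, rename (ey b) (lam b) ^ e₁ i.1 b) ^ p ^ (n + 1) * mon i.2 fun v => X (.inl v) :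
      MvPolynomial (XY (Σ b, κ b)) F)
  refine ⟨_, y₀, ρ, (p ^ (n + 1) * p ^ S : ℕ), hρ,
    Nat.cast_ne_zero.2 (mul_pos (pow_pos hp.out.pos _) (pow_pos hp.out.pos _)).ne', ?_, ?_,
    fun y hy c' e' cf' hz => ?_⟩
  · rintro t ⟨b, k⟩ ⟨b', k'⟩ (rfl : b = b') h
    simp only [bm, Pi.smul_apply, smul_eq_mul, AddMonoidHom.coe_mk, ZeroHom.coe_mk, ne_eq,
      mul_eq_zero, not_or] at h ⊢
    exact ⟨h.1, h.2.1, (hE b k').ne'⟩
  · intro t b
    rw [Fintype.sum_sigma, Finset.sum_eq_single b (fun b' _ h => by simp [h]) (by simp), ← hω b]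
    simp only [bm, Pi.smul_apply, smul_eq_mul, AddMonoidHom.coe_mk, ZeroHom.coe_mk, if_true]
    push_cast
    rw [Finset.mul_sum, Finset.sum_mul]
    exact Finset.sum_congr rfl fun k _ => by ring
  -- the lifts
  obtain ⟨Z, hZ, hZ'⟩ : ∃ Z : ∀ b, Fin (r b) → MvPolynomial (XY (Σ b, κ b)) T.B,
      (∀ b i, Hg (Pi.single ⟨b, k₀ b⟩ ((p ^ S : ℕ) : ℤ)) (Z b i)) ∧ ∀ b i z,
        eval₂Hom T.π z (Z b i) =
          eval (fun v => z (ey b (.inl v))) (Ξ b (.inr i)) * eval (z ∘ ey b) (lam b) := by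
    refine ⟨fun b i => lf sc (rename (ey b) (aeval (fun v => X (.inl v)) (Ξ b (.inr i)) * lam b)),
      fun b i => lf_hom _ ?_, fun b i z => ?_⟩
    · have := hg_ey b ((hg_inl (hΞ b (.inr i))).mul (hl b))
      rwa [add_sub_cancel, Prd.xt_single] at this
    · rw [ev_lf' hs, eval_rename, map_mul, ev_ae]
      simp only [eval_X, Function.comp_apply]
  obtain ⟨P, h1, h2⟩ := ex_glue (fun b k => X (.inl (⟨b, k₀ b⟩, k)) ^ p ^ S)
    fun b i => C (T.rt p ^ p ^ (s + S)) * Z b i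
  obtain ⟨q, hq'⟩ := ex_eq cf'
  have hb' := fun (z : XY (Σ b, κ b) → F) (h : ∀ i, eval₂ T.π z (q i) = 0) b =>
    hb b (z ∘ ey b) (fun k => ((hq' F _ z).1 h).1 ⟨b, k⟩) ((hz _ ((hq' F _ z).1 h).2).1 b)
  have e1 := eventually_all.2 fun b => eventually_all.2 fun i => by
    obtain ⟨χ, h3, h4, h5⟩ := twist (hζ b i) (j b)
    exact int T hT q χ h3 h4 (fun k => .inl (⟨b, k₀ b⟩, k)) (p ^ j b) (Z b i) fun z h => by
      have := h5 _ (p ^ S) _ (X (.inr i)) _ (by rw [hq]; exact isWeightedHomogeneous_X _ _ _)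
        (aeval_X _ _) (hb' z h b).2
      rw [eval_X] at this
      rw [hZ']
      exact this
  have e2 := eventually_all.2 fun b => eventually_all.2 fun i => by
    obtain ⟨χ, h3, h4, h5⟩ := twist (hJ b i) (j b)
    exact int T hT q χ h3 h4 (fun k => .inl (⟨b, k₀ b⟩, k)) (p ^ j b)
      (C (ti ^ (p ^ (s + S) * (n + 1) * p ^ (n + 1))) * AS p (C (T.rt p ^ p ^ (s + S))) (n + 1)
        (fun c => C (T.rt c ^ p ^ (s + S))) (J b i) fun v => P ⟨b, v⟩) fun z h => by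
      have h6 := frob_fl T.β hi' (x b) (ζ b) s (s₁ b) (j b) (n + 1) (J b i)
      rw [hj] at h6
      have := h5 _ (p ^ S) _ _ _ (psi_hom p _ _ _ _ _ (hJh b i).1 (by rw [← hq b]; ring)) h6
        (hb' z h b).2
      have h7 : (fun v => eval₂Hom T.π z (P ⟨b, v⟩)) = fun v => eval (Sum.elim
          (fun i => (z ∘ ey b) (.inl (k₀ b, i))) fun i => eval (fun v => (z ∘ ey b) (.inl v))
            (Ξ b (.inr i)) * eval (z ∘ ey b) (lam b)) (Sum.elim (fun k => X (.inl k) ^ p ^ S)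
            (fun i => C (T.β p ^ p ^ (s + S)) * X (.inr i)) v) := by
        funext v
        rcases v with k | k
        · rw [h1, Sum.elim_inl, map_pow, map_pow, eval₂Hom_X', eval_X]
          rfl
        · rw [h2, Sum.elim_inr, map_mul, map_mul, hZ', eval₂Hom_C, eval_C, eval_X, map_pow]
          rfl
      rw [map_mul, map_AS] at this ⊢
      simp only [eval₂Hom_C, eval_C, map_pow, h7] at this ⊢
      exact this
  have e3 := eventually_all.2 fun t => int1 T hT q _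
    (hρ' (Finset.univ.map ⟨Sigma.mk t, sigma_mk_injective⟩) (fun i => y₀ i - y i)
      fun i => by rw [norm_sub_rev]; exact hy i)
    (C (ti ^ (p ^ (s + S) * (n + 1) * p ^ (n + 1))) * AS p (C (T.rt p ^ p ^ (s + S))) (n + 1)
      (fun c => C (T.rt c ^ p ^ (s + S))) (f t) P) fun z h => by
    have h3 : (fun v => eval₂Hom T.π z (P v)) = fun v =>
        eval (fun v => z (.inl v)) (P₀ v) * eval (z ∘ ey v.1) (lam v.1) := by
      funext ⟨b, v⟩
      rw [hP₁]
      rcases v with k | k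
      · rw [h1, map_pow, eval₂Hom_X', Sum.elim_inl, one_mul]
        exact ((hb' z h b).1 k).symm
      · rw [h2, map_mul, hZ', eval₂Hom_C, map_pow, mul_assoc]
        rfl
    have h4 := hy₀ t fun v => z (.inl v)
    rw [map_AS] at h4
    simp only [eval_C] at h4
    rw [map_mul, map_AS, h3, AS_scale p Sigma.fst _ _ _ (hf t) _ fun b => eval (z ∘ ey b) (lam b)]
    simp only [eval₂Hom_C, map_pow]
    rw [Finset.sum_map, map_sum]
    refine (congrArg (fun w => _ * (_ * w)) (h4.trans (sub_zero _).symm)).trans ?_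
    rw [← (hz _ ((hq' F _ z).1 h).2).2 t, gen, gen, ← Finset.sum_sub_distrib, Finset.mul_sum,
      Finset.mul_sum]
    refine Finset.sum_congr rfl fun i _ => ?_
    simp only [Function.Embedding.coeFn_mk, map_mul, eval_C, map_pow, map_prod, eval_rename, mon,
      eval_X]
    ring
  filter_upwards [e1, e2, e3, T.le (eventually_ge_atTop (s + S + (n + 1)))] with M e1 e2 e3 hM
  exact lev T (fun b j => (hJh b j).2) hf1 _ hM hi Z hZ P h1 h2 cf' fun L _ W ψ z hψ hW hr h0 =>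
    have h := (hq' L _ z).2 ⟨hr, h0⟩
    ⟨fun b i => e1 b i L W ψ z hψ hW h, fun b i => e2 b i L W ψ z hψ hW h,
      fun t => e3 t L W ψ z hψ hW h⟩

end Pool.Agent.MP_855f4c_ag.Cu

end

section

/-! h92c: the Jacobian criterion spreads out over an open set of the base. -/

open MvPolynomial

namespace Pool.Agent.MP_855f4c_ag.Cu

open T

namespace Fam

lemma hom_pd {σ M R : Type} [CommRing R] [AddCommMonoid M] {w : σ → M} {n : M}
    {P : MvPolynomial σ R} (hP : P.IsWeightedHomogeneous w n) {u v : σ} (h : w u = w v) :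
    (X u * pderiv v P).IsWeightedHomogeneous w n := by
  induction hP using IsWeightedHomogeneous.induction_on with
  | zero => simpa using isWeightedHomogeneous_zero _ _ _
  | add _ _ _ _ h h' => simpa [mul_add] using h.add h'
  | monomial d r hr =>
    rw [pderiv_monomial]
    by_cases hd : d v = 0
    · simpa [hd] using isWeightedHomogeneous_zero _ _ _
    · rw [X, monomial_mul]
      refine isWeightedHomogeneous_monomial _ _ _ ?_
      have h1 : Finsupp.single v 1 + (d - Finsupp.single v 1) = d :=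
        add_tsub_cancel_of_le (Finsupp.single_le_iff.2 (Nat.pos_of_ne_zero hd))
      rw [← hr]
      conv_rhs => rw [← h1]
      simp [Finsupp.weight_single, h]

lemma hom_det {σ M R I : Type} [CommRing R] [AddCommMonoid M] [Fintype I] [DecidableEq I]
    {w : σ → M} (n : I → M) (N : Matrix I I (MvPolynomial σ R))
    (h : ∀ j i, (N j i).IsWeightedHomogeneous w (n i)) :
    N.det.IsWeightedHomogeneous w (∑ i, n i) := by
  rw [Matrix.det_apply']
  refine IsWeightedHomogeneous.sum _ _ _ fun s _ => ?_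
  rw [← map_intCast (C : R →+* MvPolynomial σ R)]
  exact (IsWeightedHomogeneous.prod _ _ _ fun i _ => h (s i) i).C_mul _

variable {κ : Type} [Fintype κ] [DecidableEq κ] {c : ℕ} {e : Fin c → κ → ℕ} {R R' k : Type}
  [CommRing R] [CommRing R'] [CommRing k]

lemma gp_hx (cf : MI e → R) (a : Fin c) : Hx (e a) (gp cf a) := by
  refine IsWeightedHomogeneous.sum _ _ _ fun j _ => IsWeightedHomogeneous.C_mul ?_ _
  have := IsWeightedHomogeneous.prod (w := fun v : XV κ => (Pi.single v.1 1 : κ → ℕ)) Finset.univ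
    (fun k => (X (k, 0) : MvPolynomial (XV κ) R) ^ (e a k - j k) * X (k, 1) ^ (j k : ℕ))
    (fun k => Pi.single k (e a k)) fun k _ => by
      have h : e a k - j k + j k = e a k := Nat.sub_add_cancel (Nat.lt_succ_iff.1 (j k).2)
      have := ((isWeightedHomogeneous_X R (fun v : XV κ => (Pi.single v.1 1 : κ → ℕ))
        (k, 0)).pow (e a k - j k)).mul ((isWeightedHomogeneous_X R _ (k, 1)).pow (j k))
      rwa [← add_smul, h, ← Pi.single_smul', smul_eq_mul, mul_one] at this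
  rwa [Finset.univ_sum_single] at this

lemma ev_gp (cf : MI e → R) (a : Fin c) (ψ : R →+* k) (x : XV κ → k) :
    eval₂ ψ x (gp cf a) = gen (ψ ∘ cf) a x := by
  rw [gp, ← coe_eval₂Hom, Bez.map_gen]
  congr 1 <;> funext v <;> simp

/-- The matrix of the gradients with homogeneous entries. -/
noncomputable def mat (cf : MI e → R) (S : Finset (Fin c)) (d : S → XV κ × Fin 2) :
    Matrix S S (MvPolynomial (XV κ) R) :=
  Matrix.of fun j i => X ((d j).1.1, (d j).2) * pderiv (d j).1 (gp cf i)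

lemma ev_det (cf : MI e → R) (S : Finset (Fin c)) (d : S → XV κ × Fin 2) (ψ : R →+* k)
    (x : XV κ → k) : eval₂ ψ x (mat cf S d).det = (Matrix.of fun j i : S =>
      x ((d j).1.1, (d j).2) * eval₂ ψ x (pderiv (d j).1 (gp cf i))).det := by
  rw [← coe_eval₂Hom, RingHom.map_det]
  congr 1
  ext j i
  simp [mat]

end Fam

section
variable {κ : Type} [Fintype κ] [DecidableEq κ] {c : ℕ} {e : Fin c → κ → ℕ} {R R' : Type}
  [CommRing R] [CommRing R'] {cf : MI e → R}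

open Fam in
/-- The Jacobian criterion holds near a point of the base at which it holds. -/
theorem fam (A : Loc cf) {F : Type} [Field F] [IsAlgClosed F] (a : R →+* F) (h : A.Sm a) :
    ∃ Δ : R, a Δ ≠ 0 ∧ ∀ (k : Type) [Field k] (ψ : R →+* k), ψ Δ ≠ 0 → A.Sm ψ := by
  obtain ⟨Δ, h1, h2⟩ := elim R F (XV κ) κ (Fin c ⊕ Σ s : Fin A.ns, (A.S s → XV κ × Fin 2))
    Prod.fst (Sum.elim (gp cf) fun t => A.h t.1 * (mat cf (A.S t.1) t.2).det)
    (Sum.elim e fun t => A.dh t.1 + ∑ i : A.S t.1, e i) a (by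
      rintro (b | ⟨s, d⟩)
      · exact gp_hx cf b
      · exact (A.hom s).mul (hom_det _ _ fun j i => hom_pd (gp_hx cf i) rfl)) (by
      intro x hx
      have hx' : Nz x := fun j => by
        obtain ⟨v, rfl, hv⟩ := hx j
        exact ⟨v.2, hv⟩
      by_cases hz : Ze cf a x
      · obtain ⟨s, hs, hI⟩ := h x hx' hz
        obtain ⟨q, hq⟩ := exists_minor
          (fun (i : A.S s) v => eval₂ a x (pderiv v (gp cf i))) (by
            intro lam hl
            have := hI (fun b => if hb : b ∈ A.S s then lam ⟨b, hb⟩ else 0) fun v => by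
              rw [← hl v, ← Finset.sum_coe_sort]
              exact Finset.sum_congr rfl fun i _ => by rw [dif_pos i.2]
            funext i
            simpa [i.2] using this i i.2)
        choose d hd using hx'
        refine ⟨.inr ⟨s, fun j => (q j, d (q j).1)⟩, ?_⟩
        show eval₂ a x (A.h s * _) ≠ 0
        rw [eval₂_mul, ev_det]
        refine mul_ne_zero hs ?_
        have h3 := Matrix.det_mul_column (fun j => x ((q j).1, d (q j).1))
          (Matrix.of fun i j : A.S s => eval₂ a x (pderiv (q j) (gp cf i))).transpose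
        rw [Matrix.det_transpose] at h3
        exact h3.trans_ne (mul_ne_zero (Finset.prod_ne_zero_iff.2 fun j _ => hd _) hq)
      · obtain ⟨b, hb⟩ := not_forall.1 hz
        exact ⟨.inl b, fun h' => hb ((ev_gp cf b a x).symm.trans h')⟩)
  refine ⟨Δ, h1, fun k _ ψ hψ x hx hz => ?_⟩
  obtain ⟨b | ⟨s, d⟩, hb⟩ := h2 k ψ hψ x fun j => (hx j).elim fun i hi => ⟨(j, i), rfl, hi⟩
  · exact absurd ((ev_gp cf b ψ x).trans (hz b)) hb
  · have hb' : eval₂ ψ x (A.h s * (mat cf (A.S s) d).det) ≠ 0 := hb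
    rw [eval₂_mul, ev_det] at hb'
    refine ⟨s, left_ne_zero_of_mul hb', fun lam hl b hb => ?_⟩
    have h4 := Matrix.eq_zero_of_mulVec_eq_zero (right_ne_zero_of_mul hb')
      (v := fun i : A.S s => lam i) (by
        funext j
        have h5 := hl (d j).1
        rw [← Finset.sum_coe_sort] at h5
        show ∑ i : A.S s, x ((d j).1.1, (d j).2) * eval₂ ψ x (pderiv (d j).1 (gp cf i)) * lam i = 0
        rw [← mul_zero (x ((d j).1.1, (d j).2)), ← h5, Finset.mul_sum]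
        exact Finset.sum_congr rfl fun i _ => by ring)
    exact congrFun h4 ⟨b, hb⟩

theorem spr : SPR_s := fun _ _ _ _ _ _ _ _ _ _ _ A a h => fam A a h

end

end Pool.Agent.MP_855f4c_ag.Cu

end

section

/-! h92c row BERT': generic forms cut a product of curves transversally. -/

open MvPolynomial Finset

namespace Pool.Agent.MP_855f4c_ag.Cu

open T

namespace Brt

lemma cnt {k C : Type} [Field k] [Fintype C] (E : Subfield k) (τ g : C → k)
    (hτ : AlgebraicIndependent E τ) (c₀ : C)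
    (h : ∀ T : Subfield k, E ≤ T → (∀ z, IsAlgebraic T z → z ∈ T) → (∀ c, c ≠ c₀ → g c ∈ T) →
      ∀ c, τ c ∈ T) : False := by
  let M := AlgebraicIndependent.matroid E k
  have h1 : M.Indep (Set.range τ) := hτ.to_subtype_range
  have h2 : Set.range τ ⊆ M.closure (g '' {c₀}ᶜ) := by
    rintro _ ⟨c, rfl⟩
    rw [AlgebraicIndependent.matroid_closure_eq]
    let L := IntermediateField.adjoin E (g '' {c₀}ᶜ)
    refine (Subalgebra.mem_algebraicClosure _ _).2 (IntermediateField.isAlgebraic_adjoin_iff.1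
      (mem_algebraicClosure_iff.1 (h (algebraicClosure L k).toSubfield (fun r hr => ?_)
        (fun z hz => ?_) (fun c hc => ?_) c)))
    · exact (algebraicClosure L k).algebraMap_mem (algebraMap E L ⟨r, hr⟩)
    · exact mem_algebraicClosure_iff.2
        (IsAlgebraic.restrictScalars L (S := algebraicClosure L k) hz)
    · exact (algebraicClosure L k).algebraMap_mem
        ⟨g c, IntermediateField.subset_adjoin _ _ ⟨c, hc, rfl⟩⟩
  have h3 : (Set.range τ).encard ≤ ({c₀}ᶜ : Set C).encard :=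
    h1.eRk_eq_encard.symm.trans_le ((M.eRk_mono h2).trans ((M.eRk_closure_eq _).trans_le
      ((M.eRk_le_encard _).trans (Set.encard_image_le _ _))))
  rw [← Set.image_univ, hτ.injective.encard_image] at h3
  exact absurd h3 (not_le.2 ((Set.toFinite _).encard_lt_encard
    ⟨Set.subset_univ _, fun hh => hh (Set.mem_univ c₀) rfl⟩))

/-- The count of generators. -/
lemma core {k C A B : Type} [Field k] [Fintype C] [DecidableEq A] (E : Subfield k) (τ : C → k)
    (hτ : AlgebraicIndependent E τ) (a : C → A) (iv : A → B → Prop) (m : C → k) (d : B → C → k)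
    (u : B → k) (lam : A → k) (i₀ : A) (hi : lam i₀ = 1)
    (h0 : ∀ i, ∃ c, a c = i ∧ m c ≠ 0 ∧ ∀ b, d b c = 0)
    (h1 : ∀ i b, iv i b → ∃ c, a c = i ∧ d b c ≠ 0 ∧ ∀ b', b' ≠ b → d b' c = 0)
    (hm : ∀ T : Subfield k, E ≤ T → (∀ z, IsAlgebraic T z → z ∈ T) → ∀ c,
      (∀ b, iv (a c) b → u b ∈ T) → m c ∈ T ∧ ∀ b, d b c ∈ T)
    (hz : ∀ i, ∑ c with a c = i, τ c * m c = 0) (hs : ∀ b, ∑ c, lam (a c) * (τ c * d b c) = 0) :
    False := by
  classical
  choose c0 ha0 hm0 hd0 using h0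
  have h2 : ∀ j : {b // ∃ i, lam i ≠ 0 ∧ iv i b},
      ∃ c, lam (a c) ≠ 0 ∧ d j.1 c ≠ 0 ∧ ∀ b', b' ≠ j.1 → d b' c = 0 := fun ⟨j, i, hc, hj⟩ => by
    obtain ⟨c', h, h'⟩ := h1 i j hj
    exact ⟨c', h ▸ hc, h'⟩
  choose c1 hl1 hd1 hd2 using h2
  have inj : Function.Injective c1 := fun j j' h => Subtype.ext (by_contra fun e =>
    hd1 j (h ▸ hd2 j' _ e))
  have ne : ∀ j i, c1 j ≠ c0 i := fun j i h => hd1 j (h ▸ hd0 i _)
  obtain ⟨g, g1, g2, g3⟩ : ∃ g : C → k, (∀ j, g (c1 j) = u j.1) ∧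
      (∀ i, lam i ≠ 0 → g (c0 i) = lam i) ∧
      ∀ c, (¬ ∃ j, c1 j = c) → ¬ (c = c0 (a c) ∧ lam (a c) ≠ 0) → g c = τ c := by
    refine ⟨fun c => if h : ∃ j, c1 j = c then u h.choose.1 else
      if c = c0 (a c) ∧ lam (a c) ≠ 0 then lam (a c) else τ c, fun j => ?_, fun i h => ?_,
      fun c h h' => ?_⟩
    · have h : ∃ j', c1 j' = c1 j := ⟨j, rfl⟩
      exact (dif_pos h).trans (congrArg (fun z => u z.1) (inj h.choose_spec))
    · refine (dif_neg fun ⟨j, e⟩ => ne j i e).trans ?_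
      rw [ha0, if_pos ⟨rfl, h⟩]
    · exact (dif_neg h).trans (if_neg h')
  refine cnt E τ g hτ (c0 i₀) fun T hE hT hg => ?_
  have hdiv {x y : k} (hx : x ∈ T) (h0 : x ≠ 0) (h : y * x ∈ T) : y ∈ T :=
    mul_div_cancel_right₀ y h0 ▸ T.div_mem h hx
  have hu : ∀ c, lam (a c) ≠ 0 → m c ∈ T ∧ ∀ b, d b c ∈ T := fun c hc => hm T hE hT c fun b hb =>
    g1 ⟨b, _, hc, hb⟩ ▸ hg _ (ne ⟨b, _, hc, hb⟩ i₀)
  have hl : ∀ i, lam i ∈ T := fun i => by
    by_cases h : lam i = 0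
    · exact h ▸ T.zero_mem
    by_cases h' : i = i₀
    · rw [h', hi]; exact T.one_mem
    exact g2 i h ▸ hg (c0 i) fun e => h' (by rw [← ha0 i, e, ha0])
  have ht : ∀ c, (¬ ∃ j, c1 j = c) → ¬ (c = c0 (a c) ∧ lam (a c) ≠ 0) → τ c ∈ T := fun c h h' =>
    g3 c h h' ▸ hg c fun e => h' (by rw [e, ha0, hi]; exact ⟨rfl, one_ne_zero⟩)
  have hlin : ∀ j, τ (c1 j) ∈ T := fun j => by
    have h3 := hs j.1
    rw [← add_sum_erase _ _ (mem_univ (c1 j)), add_eq_zero_iff_eq_neg, mul_comm] at h3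
    refine hdiv ((hu _ (hl1 j)).2 _) (hd1 j) (hdiv (hl _) (hl1 j) ?_)
    rw [h3]
    refine T.neg_mem (sum_mem fun c hc => ?_)
    by_cases h4 : lam (a c) = 0
    · rw [h4, zero_mul]; exact T.zero_mem
    by_cases h5 : d j.1 c = 0
    · rw [h5, mul_zero, mul_zero]; exact T.zero_mem
    refine T.mul_mem (hl _) (T.mul_mem (ht c ?_ fun h => h5 ?_) ((hu c h4).2 _))
    · rintro ⟨j', rfl⟩
      exact ne_of_mem_erase hc (congrArg c1 (Subtype.ext (by_contra fun e =>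
        h5 (hd2 j' _ (Ne.symm e)))))
    · rw [h.1, hd0]
  intro c
  by_cases h : ∃ j, c1 j = c
  · obtain ⟨j, rfl⟩ := h
    exact hlin j
  by_cases h' : c = c0 (a c) ∧ lam (a c) ≠ 0
  · have h3 := hz (a c)
    rw [← add_sum_erase (univ.filter fun c' => a c' = a c) _ (mem_filter.2 ⟨mem_univ c, rfl⟩),
      add_eq_zero_iff_eq_neg] at h3
    refine hdiv (hu c h'.2).1 (h'.1 ▸ hm0 _) ?_
    rw [h3]
    refine T.neg_mem (sum_mem fun c' hc' => ?_)
    have e : a c' = a c := (mem_filter.1 (mem_of_mem_erase hc')).2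
    refine T.mul_mem ?_ (hu c' (e ▸ h'.2)).1
    by_cases h5 : ∃ j, c1 j = c'
    · obtain ⟨j, rfl⟩ := h5
      exact hlin j
    · exact ht c' h5 fun h6 => ne_of_mem_erase hc' (by rw [h6.1, e, ← h'.1])
  · exact ht c h h'

lemma ev_w {σ M R k : Type} [AddCommMonoid M] [CommRing R] [CommRing k] {w : σ → M} {n : M}
    {P : MvPolynomial σ R} (hP : P.IsWeightedHomogeneous w n) (χ : Multiplicative M →* k)
    (ψ : R →+* k) (x : σ → k) :
    eval₂ ψ (fun i => χ (.ofAdd (w i)) * x i) P = χ (.ofAdd n) * eval₂ ψ x P := by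
  rw [eval₂_eq, eval₂_eq, mul_sum]
  refine sum_congr rfl fun m hm => ?_
  rw [← hP (mem_support_iff.mp hm), Finsupp.weight_apply, Finsupp.sum, ofAdd_sum, map_prod,
    mul_left_comm, ← prod_mul_distrib]
  simp only [mul_pow, ofAdd_nsmul, map_pow]

section
variable {κ : Type} [Fintype κ] [DecidableEq κ] {R k : Type} [CommRing R]

omit [Fintype κ] in
lemma hx_int {n : κ → ℕ} {P : MvPolynomial (XV κ) R} (h : Hx n P) :
    P.IsWeightedHomogeneous (fun v => (Pi.single v.1 1 : κ → ℤ)) fun j => n j := by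
  have := Prd.hom_ren (w' := fun v => (Pi.single v.1 1 : κ → ℤ))
    ((Nat.castAddMonoidHom ℤ).compLeft _) id (.id _)
    (fun v => funext fun j => by simp [Pi.single_apply]) h
  rwa [map_id, rename_id_apply] at this

/-- Euler's identity at a zero. -/
lemma euler [CommRing k] {n : κ → ℕ} {P : MvPolynomial (XV κ) R} (h : Hx n P) (ψ : R →+* k)
    (x : XV κ → k) (h0 : eval₂ ψ x P = 0) (s : κ → k) :
    ∑ v, s v.1 * x v * eval₂ ψ x (pderiv v P) = 0 := by
  rw [Fintype.sum_prod_type]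
  refine sum_eq_zero fun j _ => ?_
  have h1 := Prd.hom_ren (w' := fun v : XV κ => (Pi.single v.1 1 : κ → ℕ) j)
    (Pi.evalAddMonoidHom _ j) id (.id _) (fun _ => rfl) h
  rw [map_id, rename_id_apply] at h1
  have h2 := congrArg (eval₂Hom ψ x) h1.sum_weight_X_mul_pderiv
  simp only [map_sum, map_nsmul, map_mul] at h2
  rw [Fintype.sum_prod_type, Fintype.sum_eq_single j fun j' h => by simp [h.symm]] at h2
  simp only [coe_eval₂Hom, eval₂_X, h0, smul_zero, Pi.single_eq_same, one_smul] at h2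
  simp only [mul_assoc, ← mul_sum, h2, mul_zero]

/-- The character of the scaling `u`. -/
noncomputable def chi [Field k] (u : κ → kˣ) : Multiplicative (κ → ℤ) →* kˣ where
  toFun n := ∏ j, u j ^ n.toAdd j
  map_one' := by simp
  map_mul' := by simp [zpow_add, prod_mul_distrib]

lemma chi_single [Field k] (u : κ → kˣ) (j : κ) : chi u (.ofAdd (Pi.single j 1)) = u j := by
  change ∏ j', u j' ^ (Pi.single j 1 : κ → ℤ) j' = _
  rw [Fintype.prod_eq_single j fun j' h => by simp [h]]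
  simp

variable {c : ℕ} {e : Fin c → κ → ℕ}

/-- The exponents of a monomial. -/
noncomputable def nu (i : MI e) : XV κ →₀ ℕ :=
  Finsupp.equivFunOnFinite.symm fun v => if v.2 = 0 then e i.1 v.1 - i.2 v.1 else i.2 v.1

lemma gp_eq (cf : MI e → R) (t : Fin c) :
    gp cf t = ∑ i with i.1 = t, monomial (nu i) (cf i) := by
  rw [sum_filter, Fintype.sum_sigma, sum_eq_single t (fun b _ h => by simp [h]) (by simp)]
  simp only [if_true, gp, gen, mon]
  refine sum_congr rfl fun j _ => ?_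
  rw [monomial_eq, Finsupp.prod_fintype _ _ fun _ => pow_zero _, Fintype.prod_prod_type]
  simp [nu]

omit [DecidableEq κ] in
lemma nu_ne {i : MI e} {v : XV κ} (h : nu i v ≠ 0) : e i.1 v.1 ≠ 0 := by
  have := (i.2 v.1).2
  simp only [nu, Finsupp.equivFunOnFinite_symm_apply_apply] at h
  split_ifs at h <;> omega

omit [DecidableEq κ] in
lemma ex_nu (t : Fin c) (σ : κ → Fin 2) (s : κ → ℕ) (hs : ∀ j, s j ≤ e t j) :
    ∃ i : MI e, i.1 = t ∧ ∀ j, nu i (j, (σ j).rev) = s j := by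
  refine ⟨⟨t, fun j => if σ j = 0 then ⟨s j, Nat.lt_succ_of_le (hs j)⟩ else
    ⟨e t j - s j, Nat.lt_succ_of_le (Nat.sub_le _ _)⟩⟩, rfl, fun j => ?_⟩
  have := hs j
  have h : σ j = 0 ∨ σ j = 1 := by omega
  rcases h with h | h <;> simp [nu, h]
  omega

end

end Brt

open Brt in
/-- The normalised case. -/
theorem bert₀ {κ κ₀ R R' F : Type} [Fintype κ] [DecidableEq κ] [CommRing R] [CommRing R'] [Field F]
    {c c' : ℕ} {e : Fin c → κ → ℕ} {e' : Fin c' → κ → ℕ} {cf : MI e → R} (A : Amb κ₀ cf)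
    (a : R →+* F) (E : Subfield F) (hE : ∀ r, a r ∈ E) (cg : MI e' → R') (a' : R' →+* F)
    (hy : AlgebraicIndependent E (a' ∘ cg))
    (he : ∀ t j j', A.pr j = A.pr j' → e' t j ≠ 0 → e' t j' ≠ 0) (x : XV κ → F) (hx : Nm x)
    (z1 : Ze cf a x) (z2 : Ze cg a' x) (s : Fin A.ns) (lam : Fin c → F) (mu : Fin c' → F)
    (h : ∀ v, ∑ i ∈ A.S s, lam i * eval₂ a x (pderiv v (gp cf i)) +
      ∑ t, mu t * eval₂ a' x (pderiv v (gp cg t)) = 0) : mu = 0 := by
  funext t₀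
  by_contra h0
  choose σ hσ using fun j => show ∃ i, x (j, i) = 1 from (hx j).elim (⟨0, ·⟩) fun h => ⟨1, h.2⟩
  have two (j : κ) (i : Fin 2) : i = σ j ∨ i = (σ j).rev := by
    generalize σ j = i'
    revert i i'
    decide
  choose w w1 w2 w3 w4 using fun b => A.tan s b F a x
    (Subfield.closure (E ∪ x '' {v | A.pr v.1 = b}))
    (fun j => ⟨σ j, hσ j ▸ one_ne_zero⟩) z1 (fun r => Subfield.subset_closure (.inl (hE r)))
    fun v hv => Subfield.subset_closure (.inr ⟨v, hv, rfl⟩)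
  let w' : κ₀ → XV κ → F := fun b v => w b v - w b (v.1, σ v.1) * x v
  have v1 (b j) : w' b (j, σ j) = 0 := by simp [w', hσ]
  have v2 (b) (v : XV κ) (hv : A.pr v.1 ≠ b) : w' b v = 0 := by
    simp [w', w2 b v hv, w2 b (v.1, σ v.1) hv]
  let pw : (XV κ →₀ ℕ) → F := fun n => n.prod fun v m => x v ^ m
  have p1 (n : XV κ →₀ ℕ) (hn : ∀ j, n (j, (σ j).rev) = 0) : pw n = 1 :=
    prod_eq_one fun v hv => by
      obtain ⟨j, i⟩ := v
      rcases two j i with rfl | rfl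
      · exact (congrArg (· ^ _) (hσ j)).trans (one_pow _)
      · exact absurd (hn j) (Finsupp.mem_support_iff.1 hv)
  let d : κ₀ → MI e' → F := fun b i => ∑ v, w' b v * (nu i v * pw (nu i - Finsupp.single v 1))
  have d1 (b i) : d b i = ∑ j, w' b (j, (σ j).rev) *
      (nu i (j, (σ j).rev) * pw (nu i - Finsupp.single (j, (σ j).rev) 1)) := by
    refine (Fintype.sum_prod_type _).trans (sum_congr rfl fun j _ => ?_)
    refine Fintype.sum_eq_single _ fun i' h => ?_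
    rw [(two j i').resolve_right h, v1, zero_mul]
  refine core E _ hy Sigma.fst (fun t b => ∃ j, A.pr j = b ∧ e' t j ≠ 0) (fun i => pw (nu i)) d
    (fun b => x (A.inc b, 1)) (fun t => (mu t₀)⁻¹ * mu t) t₀ (inv_mul_cancel₀ h0) (fun t => ?_)
    (fun t b ⟨j, j1, j2⟩ => ?_) (fun T t1 t2 i hi => ?_) (fun t => ?_) fun b => ?_
  · obtain ⟨i, i1, i2⟩ := ex_nu (e := e') t σ 0 fun _ => Nat.zero_le _
    exact ⟨i, i1, p1 _ i2 ▸ one_ne_zero, fun b => by simp [d1, i2]⟩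
  · obtain ⟨j', hj⟩ := w3 b
    have j3 : A.pr j' = b := by_contra fun h => hj (by rw [w2 b _ h, w2 b _ h, zero_mul, zero_mul])
    obtain ⟨i, i1, i2⟩ := ex_nu (e := e') t σ (Pi.single j' 1) fun j'' => by
      rw [Pi.single_apply]
      split_ifs with h
      · exact h ▸ Nat.pos_of_ne_zero (he t j j' (j1.trans j3.symm) j2)
      · exact Nat.zero_le _
    have d2 (b') : d b' i = w' b' (j', (σ j').rev) := by
      rw [d1, Fintype.sum_eq_single j' fun j'' h => by simp [i2, h], i2, p1 _ fun j'' => by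
        rw [Finsupp.tsub_apply, i2, Finsupp.single_apply, Pi.single_apply]
        by_cases h : j'' = j' <;> simp [h]]
      simp
    refine ⟨i, i1, d2 b ▸ fun h => hj ?_, fun b' h => (d2 b').trans (v2 _ _ (j3 ▸ h.symm))⟩
    have h1 := hσ j'
    simp only [w'] at h
    generalize σ j' = i' at h h1
    fin_cases i' <;> simp at h h1 <;> grind
  · have hxT (v : XV κ) (hv : ∃ j, A.pr j = A.pr v.1 ∧ e' i.1 j ≠ 0) : x v ∈ T := by
      obtain ⟨j, i'⟩ := v
      fin_cases i'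
      · rcases hx j with h | h
        · exact h ▸ T.one_mem
        · exact h.1 ▸ T.zero_mem
      · exact t2 _ (A.alg F a x T j hx z1 (fun r => t1 (hE r)) (hi _ hv))
    have hp (n : XV κ →₀ ℕ) (hn : n ≤ nu i) : pw n ∈ T := prod_mem fun v hv => T.pow_mem
      (hxT v ⟨_, rfl, nu_ne ((Nat.pos_of_ne_zero (Finsupp.mem_support_iff.1 hv)).trans_le
        (hn v)).ne'⟩) _
    refine ⟨hp _ le_rfl, fun b => sum_mem fun v _ => ?_⟩
    by_cases h1 : nu i v = 0
    · rw [h1, Nat.cast_zero, zero_mul, mul_zero]; exact T.zero_mem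
    by_cases h2 : A.pr v.1 = b
    · have hw (v') : w b v' ∈ T := Subfield.closure_le.2 (by
        rintro _ (h | ⟨v', h, rfl⟩)
        exacts [t1 h, hxT v' ⟨_, h2.trans (Eq.symm h), nu_ne h1⟩]) (w1 b v')
      exact T.mul_mem (T.sub_mem (hw _) (T.mul_mem (hw _) (hxT v ⟨_, rfl, nu_ne h1⟩)))
        (T.mul_mem (natCast_mem T _) (hp _ tsub_le_self))
    · rw [v2 b v h2, zero_mul]; exact T.zero_mem
  · have := z2 t
    rw [← Prd.ev_gp, gp_eq, ← coe_eval₂Hom, map_sum] at this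
    simp only [eval₂Hom_monomial] at this
    exact this
  · have q1 : ∑ t, mu t * ∑ v, w b v * eval₂ a' x (pderiv v (gp cg t)) = 0 := by
      have := sum_eq_zero (s := univ) fun v _ => (congrArg (w b v * ·) (h v)).trans (mul_zero _)
      simp only [mul_add, sum_add_distrib, mul_sum] at this
      rw [sum_comm, sum_eq_zero fun i hi => by
        simp only [mul_left_comm _ (lam i), ← mul_sum, w4 b i hi, mul_zero], zero_add,
        sum_comm] at this
      simpa only [mul_sum, mul_left_comm] using this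
    have q2 (t) : ∑ v, w b v * eval₂ a' x (pderiv v (gp cg t)) =
        ∑ i with i.1 = t, a' (cg i) * d b i := by
      have := euler (Prd.gp_hx cg t) a' x ((Prd.ev_gp ..).trans (z2 t)) fun j => w b (j, σ j)
      rw [← sub_zero (∑ v, _), ← this, ← sum_sub_distrib]
      simp only [gp_eq, map_sum, pderiv_monomial, ← coe_eval₂Hom, eval₂Hom_monomial,
        map_mul, map_natCast, mul_sum, d, ← sum_sub_distrib]
      rw [sum_comm]
      exact sum_congr rfl fun i _ => sum_congr rfl fun v _ => by simp only [w', pw]; ring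
    simp only [q2, mul_sum] at q1
    simp only [mul_assoc, ← mul_sum]
    refine mul_eq_zero_of_right _ ?_
    rw [← q1, ← sum_fiberwise univ Sigma.fst]
    exact sum_congr rfl fun t _ => sum_congr rfl fun i hi => by rw [(mem_filter.1 hi).2]; rfl

open Brt in
/-- Forms with independent coefficients cut the model transversally. -/
theorem bert' {κ κ₀ R R' F : Type} [Fintype κ] [DecidableEq κ] [CommRing R] [CommRing R'] [Field F]
    {c c' : ℕ} {e : Fin c → κ → ℕ} {e' : Fin c' → κ → ℕ} {cf : MI e → R} (A : Amb κ₀ cf)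
    (a : R →+* F) (E : Subfield F) (hE : ∀ r, a r ∈ E) (cg : MI e' → R') (a' : R' →+* F)
    (hy : AlgebraicIndependent E (a' ∘ cg))
    (he : ∀ t j j', A.pr j = A.pr j' → e' t j ≠ 0 → e' t j' ≠ 0) (x : XV κ → F) (hx : Nz x)
    (z1 : Ze cf a x) (z2 : Ze cg a' x) (s : Fin A.ns) (lam : Fin c → F) (mu : Fin c' → F)
    (h : ∀ v, ∑ i ∈ A.S s, lam i * eval₂ a x (pderiv v (gp cf i)) +
      ∑ t, mu t * eval₂ a' x (pderiv v (gp cg t)) = 0) : mu = 0 := by
  have hu (j) : ∃ u : Fˣ, u * x (j, 0) = 1 ∨ u * x (j, 0) = 0 ∧ u * x (j, 1) = 1 := by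
    by_cases h0 : x (j, 0) = 0
    · obtain ⟨i, hi⟩ := hx j
      have h1 : x (j, 1) ≠ 0 := by
        fin_cases i
        exacts [absurd h0 hi, hi]
      exact ⟨(Units.mk0 _ h1)⁻¹, .inr ⟨by simp [h0], by simp [h1]⟩⟩
    · exact ⟨(Units.mk0 _ h0)⁻¹, .inl (by simp [h0])⟩
  choose u hu using hu
  let χ := (Units.coeHom F).comp (chi u)
  have e1 : (fun v : XV κ => (u v.1 : F) * x v) = fun v => χ (.ofAdd (Pi.single v.1 1)) * x v :=
    funext fun v => by simp [χ, chi_single]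
  have ne (n) : χ n ≠ 0 := Units.ne_zero _
  have k1 {S : Type} [CommRing S] {n : κ → ℕ} {P : MvPolynomial (XV κ) S} (hP : Hx n P)
      (ψ : S →+* F) (v : XV κ) : (χ (.ofAdd fun j => n j))⁻¹ *
        eval₂ ψ (fun v => u v.1 * x v) (pderiv v P) =
      χ (.ofAdd (-Pi.single v.1 1)) * eval₂ ψ x (pderiv v P) := by
    rw [e1, ev_w ((hx_int hP).pderiv (neg_add_cancel_right ..)), ← mul_assoc, ofAdd_add,
      map_mul, inv_mul_cancel_left₀ (ne _)]
  have k2 {S : Type} [CommRing S] {m : ℕ} {n : Fin m → κ → ℕ} {g : MI n → S} {ψ : S →+* F}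
      (hg : Ze g ψ x) : Ze g ψ fun v => u v.1 * x v := fun i => by
    rw [← Prd.ev_gp, e1, ev_w (hx_int (Prd.gp_hx g i)), Prd.ev_gp, hg i, mul_zero]
  have := bert₀ A a E hE cg a' hy he (fun v => u v.1 * x v) hu (k2 z1) (k2 z2) s
    (fun i => lam i * (χ (.ofAdd fun j => e i j))⁻¹)
    (fun t => mu t * (χ (.ofAdd fun j => e' t j))⁻¹) fun v => by
      simp only [mul_assoc, k1 (Prd.gp_hx _ _), mul_left_comm _ (χ _), ← mul_sum, ← mul_add, h,
        mul_zero]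
  exact funext fun t => (mul_eq_zero.1 (congrFun this t)).resolve_right (inv_ne_zero (ne _))

theorem bertc : BERTC_s := fun _ _ _ _ _ _ _ _ _ _ _ A a _ _ E y he hE hy x hx z1 z2 =>
  bert' A a E hE y (.id _) hy he x hx z1 z2

end Pool.Agent.MP_855f4c_ag.Cu

end
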